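import Pool.Agent.H45.CLT.PathB

/-!
# Ergodic decoupling (module ERG)
-/

set_option autoImplicit false

open MeasureTheory ProbabilityTheory
open scoped ENNReal NNReal

namespace Pool.Agent.H45.CLT

variable {S : Type} [MeasurableSpace S]

/-- ergodicity of the kernel, as in the frozen statement -/
def Chain.Erg (M : Chain S) : Prop :=
  ∀ A : Set S, MeasurableSet A →
    (∀ᵐ x ∂M.ν, M.Q x A = A.indicator (fun _ => (1 : ENNReal)) x) → M.ν A = 0 ∨ M.ν A = 1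

/-- a set that is a.s. preserved by one step is invariant for the kernel -/
lemma Chain.kernel_invariant (M : Chain S) {A : Set S} (hA : MeasurableSet A)
    (h : ∀ᵐ ξ ∂M.P, ξ 1 ∈ A ↔ ξ 0 ∈ A) :
    ∀ᵐ x ∂M.ν, M.Q x A = A.indicator (fun _ => (1 : ENNReal)) x := by
  refine ae_eq_of_forall_setLIntegral_eq_of_sigmaFinite (M.Q.measurable_coe hA)
    (measurable_const.indicator hA) fun s hs _ => ?_
  have h1 := M.hmarkov 0 (fun ξ => s.indicator (fun _ => (1 : ℝ≥0∞)) (ξ 0))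
    (A.indicator (fun _ => (1 : ℝ≥0∞)))
    ((measurable_const.indicator hs).comp (measurable_pi_apply 0)) (measurable_const.indicator hA)
  have e1 : ∀ u : S → ℝ≥0∞, Measurable u →
      ∫⁻ x in s, u x ∂M.ν = ∫⁻ ξ, s.indicator (fun _ => (1 : ℝ≥0∞)) (ξ 0) * u (ξ 0) ∂M.P := by
    intro u hu
    rw [← lintegral_indicator hs]
    have := (M.mp_eval 0).lintegral_comp (f := s.indicator u) (hu.indicator hs)
    rw [← this]
    refine lintegral_congr fun ξ => ?_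
    by_cases hx : ξ 0 ∈ s
    · simp [Set.indicator_of_mem hx]
    · simp [Set.indicator_of_notMem hx]
  rw [e1 _ (M.Q.measurable_coe hA), e1 _ (measurable_const.indicator hA)]
  have e2 : ∫⁻ ξ, s.indicator (fun _ => (1 : ℝ≥0∞)) (fr 0 ξ 0)
      * A.indicator (fun _ => (1 : ℝ≥0∞)) (ξ (0 + 1)) ∂M.P
      = ∫⁻ ξ, s.indicator (fun _ => (1 : ℝ≥0∞)) (ξ 0)
        * A.indicator (fun _ => (1 : ℝ≥0∞)) (ξ 0) ∂M.P := by
    refine lintegral_congr_ae ?_
    filter_upwards [h] with ξ hξ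
    have e3 : A.indicator (fun _ => (1 : ℝ≥0∞)) (ξ (0 + 1))
        = A.indicator (fun _ => (1 : ℝ≥0∞)) (ξ 0) := by
      by_cases hx : ξ 0 ∈ A
      · rw [Set.indicator_of_mem hx, Set.indicator_of_mem (hξ.2 hx)]
      · rw [Set.indicator_of_notMem hx, Set.indicator_of_notMem (fun h => hx (hξ.1 h))]
    rw [e3]
    simp [fr]
  rw [e2] at h1
  rw [h1]
  refine lintegral_congr fun ξ => ?_
  rw [lintegral_indicator hA]
  simp [fr]

/-- an `L²` fixed point of `Q` is a.e. constant: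
`E(h(ξ_1)-h(ξ_0))² = 2‖h‖²-2⟨h,Qh⟩ = 0`, so `1_{h>a}(ξ_1) = 1_{h>a}(ξ_0)` a.s. -/
theorem Chain.Erg.const {M : Chain S} (hM : M.Erg) (h : S → ℝ) (hh : M.Fwd h h) :
    ∃ c : ℝ, h =ᵐ[M.ν] fun _ => c := by
  have h1 := hh.diff_sq
  rw [sub_self] at h1
  have hint : Integrable (fun ξ : ℕ → S => (h (ξ 1) - h (ξ 0)) ^ 2) M.P :=
    ((M.memLp_eval hh.l2 1).sub (M.memLp_eval hh.l2 0)).integrable_sq
  have h2 : ∀ᵐ ξ ∂M.P, h (ξ 1) = h (ξ 0) := by
    have := (integral_eq_zero_iff_of_nonneg (fun ξ => sq_nonneg _) hint).1 h1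
    filter_upwards [this] with ξ hξ
    simp only [Pi.zero_apply] at hξ
    have := pow_eq_zero_iff (two_ne_zero) |>.1 hξ
    linarith
  refine Filter.exists_eventuallyEq_const_of_forall_separating MeasurableSet fun U hU => ?_
  have hA : MeasurableSet (h ⁻¹' U) := hh.m hU
  have h3 : ∀ᵐ ξ ∂M.P, ξ 1 ∈ h ⁻¹' U ↔ ξ 0 ∈ h ⁻¹' U := by
    filter_upwards [h2] with ξ hξ
    simp only [Set.mem_preimage, hξ]
  rcases hM _ hA (M.kernel_invariant hA h3) with h4 | h4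
  · right
    rw [ae_iff]
    have h5 : {a | ¬ (h a ∉ U)} = h ⁻¹' U := by
      ext a; simp
    rw [h5]
    exact h4
  · left
    have h5 := (prob_compl_eq_zero_iff hA).2 h4
    rw [ae_iff]
    exact h5

lemma Lp_coeFn_sum_aux {ν : Measure S} (s : Finset ℕ) (F : ℕ → Lp ℝ 2 ν) :
    (∑ j ∈ s, F j : Lp ℝ 2 ν) =ᵐ[ν] fun x => ∑ j ∈ s, F j x := by
  classical
  induction s using Finset.induction_on with
  | empty =>
    simp only [Finset.sum_empty]
    exact Lp.coeFn_zero _ _ _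
  | insert a s ha ih =>
    rw [Finset.sum_insert ha]
    filter_upwards [Lp.coeFn_add (F a) (∑ j ∈ s, F j), ih] with x hx1 hx2
    rw [hx1, Pi.add_apply, hx2, Finset.sum_insert ha]

/-- mean ergodic theorem, weak form: for `Ψ ∈ L²`, averages of `Q*^j Ψ` converge to `∫ Ψ`. -/
theorem Chain.Erg.mean {M : Chain S} (hM : M.Erg) (g : ℕ → S → ℝ)
    (hg : ∀ j, M.Bwd (g j) (g (j + 1))) :
    Filter.Tendsto (fun J : ℕ => ∫ x, ((J : ℝ)⁻¹ * ∑ j ∈ Finset.range J, g j x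
      - ∫ z, g 0 z ∂M.ν) ^ 2 ∂M.ν) Filter.atTop (nhds 0) := by
  set T := Pool.Agent.H43.CLT.Qclm (Q := M.Q) (ν := M.ν) M.bind_eq with hT
  set T' : Lp ℝ 2 M.ν →L[ℝ] Lp ℝ 2 M.ν := ContinuousLinearMap.adjoint T with hT'
  have hTn : ‖T‖ ≤ 1 := Pool.Agent.H43.CLT.norm_Qclm_le M.bind_eq
  have hTn' : ‖T'‖ ≤ 1 := by
    rw [hT', LinearIsometryEquiv.norm_map]; exact hTn
  -- action of T' on g j
  have hact : ∀ (u u' : S → ℝ) (hu : M.Bwd u u'), T' (hu.l2.toLp u) = hu.l2'.toLp u' := by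
    intro u u' hu
    apply ext_inner_left ℝ
    intro v
    rw [hT', ContinuousLinearMap.adjoint_inner_right]
    -- ⟨T v, u⟩ = ⟨v, u'⟩
    have hv : MemLp (v : S → ℝ) 2 M.ν := Lp.memLp v
    have hvm : Measurable (v : S → ℝ) := (Lp.stronglyMeasurable v).measurable
    have h1 := M.adj (M.exists_fwd v hvm hv) hu
    rw [L2.inner_def, L2.inner_def]
    have e1 : ∫ x, inner ℝ (T v x) (hu.l2.toLp u x) ∂M.ν
        = ∫ x, u x * (∫ z, v z ∂(M.Q x)) ∂M.ν := by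
      refine integral_congr_ae ?_
      filter_upwards [hu.l2.coeFn_toLp, Pool.Agent.H43.CLT.coeFn_Qclm M.bind_eq v] with x hx1 hx2
      rw [hx1, hx2]
      simp [Pool.Agent.H43.CLT.Qop]
    have e2 : ∫ x, inner ℝ (v x) (hu.l2'.toLp u' x) ∂M.ν = ∫ x, u' x * v x ∂M.ν := by
      refine integral_congr_ae ?_
      filter_upwards [hu.l2'.coeFn_toLp] with x hx1
      rw [hx1]
      simp
    rw [e1, e2, h1]
  have hiter : ∀ j, T'^[j] ((hg 0).l2.toLp (g 0)) = (hg j).l2.toLp (g j) := by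
    intro j
    induction j with
    | zero => rfl
    | succ j ih =>
      rw [Function.iterate_succ_apply', ih]
      exact hact _ _ (hg j)
  set x0 : Lp ℝ 2 M.ν := (hg 0).l2.toLp (g 0) with hx0
  have hlim := T'.tendsto_birkhoffAverage_orthogonalProjection hTn' x0
  set K := T'.eqLocus (1 : Lp ℝ 2 M.ν →L[ℝ] Lp ℝ 2 M.ν) with hK
  set p : Lp ℝ 2 M.ν := (K.orthogonalProjectionOnto x0 : Lp ℝ 2 M.ν) with hp
  have hpK : T' p = p := (K.orthogonalProjectionOnto x0).2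
  -- p is fixed by T
  have hpT : T p = p := by
    have h1 : ‖T p - p‖ ^ 2 ≤ 0 := by
      rw [@norm_sub_sq ℝ]
      have h2 : inner ℝ (T p) p = ‖p‖ ^ 2 := by
        have := ContinuousLinearMap.adjoint_inner_right T p p
        rw [← this, ← hT', hpK, real_inner_self_eq_norm_sq]
      have h3 : ‖T p‖ ≤ ‖p‖ := by
        calc ‖T p‖ ≤ ‖T‖ * ‖p‖ := T.le_opNorm p
          _ ≤ 1 * ‖p‖ := mul_le_mul_of_nonneg_right hTn (norm_nonneg _)
          _ = ‖p‖ := one_mul _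
      have h4 : ‖T p‖ ^ 2 ≤ ‖p‖ ^ 2 := pow_le_pow_left₀ (norm_nonneg _) h3 2
      have h5 : RCLike.re (inner ℝ (T p) p) = ‖p‖ ^ 2 := by rw [h2]; simp
      rw [h5]
      linarith
    have h6 : ‖T p - p‖ = 0 := by
      have := sq_nonneg ‖T p - p‖
      exact pow_eq_zero_iff (two_ne_zero) |>.1 (le_antisymm h1 this)
    exact sub_eq_zero.1 (norm_eq_zero.1 h6)
  -- p is constant
  have hpm : Measurable (p : S → ℝ) := (Lp.stronglyMeasurable p).measurable
  have hfix : M.Fwd (p : S → ℝ) (p : S → ℝ) := by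
    refine ⟨hpm, hpm, Lp.memLp p, Lp.memLp p, ?_⟩
    have h1 := Pool.Agent.H43.CLT.coeFn_Qclm M.bind_eq p
    rw [← hT, hpT] at h1
    exact h1
  obtain ⟨c, hc⟩ := hM.const _ hfix
  -- value of the constant
  have hone : MemLp (fun _ : S => (1 : ℝ)) 2 M.ν := memLp_const 1
  have honeB : M.Bwd (fun _ => (1 : ℝ)) (fun _ => (1 : ℝ)) := by
    refine ⟨measurable_const, measurable_const, hone, hone, ?_⟩
    intro φ hφ hb
    obtain ⟨C, hC⟩ := hb
    have hφ2 : MemLp φ 2 M.ν :=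
      MemLp.of_bound hφ.aestronglyMeasurable C (Filter.Eventually.of_forall fun x => by
        simpa using hC x)
    simp only [mul_one]
    exact (Pool.Agent.H43.CLT.integral_Qop (Q := M.Q) M.bind_eq
      (hφ2.integrable (by norm_num))).symm
  have honeK : hone.toLp (fun _ : S => (1 : ℝ)) ∈ K := by
    show T' _ = _
    exact hact _ _ honeB
  have hcval : c = ∫ z, g 0 z ∂M.ν := by
    have h1 := K.inner_orthogonalProjectionOnto_eq_of_mem_left ⟨_, honeK⟩ x0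
    have h2 : inner ℝ (hone.toLp (fun _ : S => (1 : ℝ))) p
        = inner ℝ (hone.toLp (fun _ : S => (1 : ℝ))) x0 := h1
    rw [L2.inner_def, L2.inner_def] at h2
    have e1 : ∫ x, inner ℝ (hone.toLp (fun _ : S => (1 : ℝ)) x) (p x) ∂M.ν = c := by
      have : ∫ x, inner ℝ (hone.toLp (fun _ : S => (1 : ℝ)) x) (p x) ∂M.ν = ∫ _x, c ∂M.ν := by
        refine integral_congr_ae ?_
        filter_upwards [hone.coeFn_toLp, hc] with x hx1 hx2
        rw [hx1, hx2]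
        simp
      rw [this]; simp
    have e2 : ∫ x, inner ℝ (hone.toLp (fun _ : S => (1 : ℝ)) x) (x0 x) ∂M.ν
        = ∫ z, g 0 z ∂M.ν := by
      refine integral_congr_ae ?_
      filter_upwards [hone.coeFn_toLp, (hg 0).l2.coeFn_toLp] with x hx1 hx2
      rw [hx1, hx0, hx2]
      simp
    rw [e1, e2] at h2
    exact h2
  -- conclusion
  have hnorm : ∀ J : ℕ, ∫ x, ((J : ℝ)⁻¹ * ∑ j ∈ Finset.range J, g j x
      - ∫ z, g 0 z ∂M.ν) ^ 2 ∂M.ν = ‖birkhoffAverage ℝ T' _root_.id J x0 - p‖ ^ 2 := by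
    intro J
    have hav : birkhoffAverage ℝ T' _root_.id J x0
        = (J : ℝ)⁻¹ • ∑ j ∈ Finset.range J, (hg j).l2.toLp (g j) := by
      unfold birkhoffAverage birkhoffSum
      congr 1
      refine Finset.sum_congr rfl fun j _ => ?_
      simp only [_root_.id]
      exact hiter j
    rw [hav, ← real_inner_self_eq_norm_sq, L2.inner_def]
    refine integral_congr_ae ?_
    have hsum : ((J : ℝ)⁻¹ • ∑ j ∈ Finset.range J, (hg j).l2.toLp (g j) : Lp ℝ 2 M.ν)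
        =ᵐ[M.ν] fun x => (J : ℝ)⁻¹ * ∑ j ∈ Finset.range J, g j x := by
      have h1 : ∀ᵐ x ∂M.ν, ∀ j, ((hg j).l2.toLp (g j)) x = g j x :=
        ae_all_iff.2 fun j => (hg j).l2.coeFn_toLp
      filter_upwards [Lp.coeFn_smul ((J : ℝ)⁻¹) (∑ j ∈ Finset.range J, (hg j).l2.toLp (g j)),
        Lp_coeFn_sum_aux (Finset.range J) (fun j => (hg j).l2.toLp (g j)), h1] with x hx1 hx2 hx3
      rw [hx1, Pi.smul_apply, hx2, smul_eq_mul]
      congr 1
      exact Finset.sum_congr rfl fun j _ => hx3 j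
    filter_upwards [Lp.coeFn_sub ((J : ℝ)⁻¹ • ∑ j ∈ Finset.range J, (hg j).l2.toLp (g j)) p,
      hsum, hc] with x hx1 hx2 hx3
    rw [hx1, Pi.sub_apply, hx2, hx3, hcval]
    simp [sq]
  simp only [hnorm]
  have hlim2 : Filter.Tendsto (fun J : ℕ => birkhoffAverage ℝ T' _root_.id J x0 - p)
      Filter.atTop (nhds 0) := by
    have := hlim.sub_const p
    simpa using this
  have := (hlim2.norm).pow 2
  simpa using this

/-- truncation: approximation of an integrable function by bounded ones in `L¹` -/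
lemma exists_trunc {ν : Measure S} [IsFiniteMeasure ν] (k : S → ℝ) (hk : Measurable k)
    (hk1 : Integrable k ν) (ε : ℝ) (hε : 0 < ε) :
    ∃ k' : S → ℝ, Measurable k' ∧ (∃ C : ℝ, ∀ x, |k' x| ≤ C) ∧ ∫ x, |k x - k' x| ∂ν ≤ ε := by
  set kN : ℕ → S → ℝ := fun N x => max (-(N : ℝ)) (min (k x) N) with hkN
  have hkNm : ∀ N, Measurable (kN N) := fun N => measurable_const.max (hk.min measurable_const)
  have hkNb : ∀ N x, |kN N x| ≤ N := by
    intro N x
    have hN : (0 : ℝ) ≤ N := Nat.cast_nonneg N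
    rw [abs_le]
    exact ⟨le_max_left _ _, max_le (by linarith) (min_le_right _ _)⟩
  have hkNle : ∀ N x, |kN N x| ≤ |k x| := by
    intro N x
    have hN : (0 : ℝ) ≤ N := Nat.cast_nonneg N
    simp only [hkN]
    rcases abs_cases (k x) with ⟨h1, h2⟩ | ⟨h1, h2⟩
    · rw [h1, abs_le]
      constructor
      · have : 0 ≤ min (k x) N := le_min h2 hN
        have := le_max_right (-(N : ℝ)) (min (k x) N)
        linarith
      · exact max_le (by linarith) (min_le_left _ _)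
    · rw [h1, abs_le]
      have h3 : min (k x) (N : ℝ) = k x := min_eq_left (by linarith)
      rw [h3]
      constructor
      · linarith [le_max_right (-(N : ℝ)) (k x)]
      · exact max_le (by linarith) (by linarith)
  have hlim : ∀ x, Filter.Tendsto (fun N => |k x - kN N x|) Filter.atTop (nhds 0) := by
    intro x
    refine tendsto_const_nhds.congr' ?_
    obtain ⟨N0, hN0⟩ := exists_nat_ge |k x|
    filter_upwards [Filter.eventually_ge_atTop N0] with N hN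
    have hN' : |k x| ≤ N := hN0.trans (by exact_mod_cast hN)
    rw [abs_le] at hN'
    simp only [hkN]
    rw [min_eq_left hN'.2, max_eq_right hN'.1]
    simp
  have hT : Filter.Tendsto (fun N => ∫ x, |k x - kN N x| ∂ν) Filter.atTop (nhds (∫ _x, (0 : ℝ) ∂ν)) := by
    refine tendsto_integral_of_dominated_convergence (fun x => 2 * |k x|)
      (fun N => ((hk.sub (hkNm N)).abs).aestronglyMeasurable) (hk1.abs.const_mul 2) ?_ ?_
    · intro N
      refine Filter.Eventually.of_forall fun x => ?_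
      rw [Real.norm_eq_abs, abs_abs]
      have := abs_sub (k x) (kN N x)
      linarith [hkNle N x]
    · exact Filter.Eventually.of_forall hlim
  rw [integral_zero] at hT
  obtain ⟨N, hN⟩ := (hT.eventually (gt_mem_nhds hε)).exists
  exact ⟨kN N, hkNm N, ⟨N, hkNb N⟩, hN.le⟩

lemma norm_integral_mul_ofReal_le {ν : Measure S} (u : S → ℂ) (hu1 : ∀ x, ‖u x‖ ≤ 1) (k : S → ℝ)
    (hk : Integrable k ν) :
    ‖∫ x, u x * ((k x : ℝ) : ℂ) ∂ν‖ ≤ ∫ x, |k x| ∂ν := by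
  refine (norm_integral_le_integral_norm _).trans ?_
  refine integral_mono_of_nonneg (Filter.Eventually.of_forall fun _ => norm_nonneg _) hk.abs
    (Filter.Eventually.of_forall fun x => ?_)
  simp only
  rw [norm_mul, Complex.norm_real, Real.norm_eq_abs]
  calc ‖u x‖ * |k x| ≤ 1 * |k x| := mul_le_mul_of_nonneg_right (hu1 x) (abs_nonneg _)
    _ = |k x| := one_mul _

/-- the defining relation of `Q*` for bounded complex test functions -/
lemma Chain.Bwd.eq_complex {M : Chain S} {g g' : S → ℝ} (h : M.Bwd g g') (u : S → ℂ)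
    (hu : Measurable u) (hu1 : ∀ x, ‖u x‖ ≤ 1) :
    ∫ x, u x * ((g' x : ℝ) : ℂ) ∂M.ν = ∫ x, (∫ z, u z ∂(M.Q x)) * ((g x : ℝ) : ℂ) ∂M.ν := by
  have hg1 : Integrable g M.ν := h.l2.integrable (by norm_num)
  have hg1' : Integrable g' M.ν := h.l2'.integrable (by norm_num)
  have huint : ∀ x, Integrable u (M.Q x) := fun x =>
    Integrable.of_bound hu.aestronglyMeasurable 1 (Filter.Eventually.of_forall hu1)
  have hQu1 : ∀ x, ‖∫ z, u z ∂(M.Q x)‖ ≤ 1 := by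
    intro x
    have := norm_integral_le_of_norm_le_const (μ := M.Q x) (f := u) (C := 1)
      (Filter.Eventually.of_forall hu1)
    simpa using this
  have hQum : Measurable (fun x => ∫ z, u z ∂(M.Q x)) :=
    (hu.stronglyMeasurable.integral_kernel).measurable
  have i1 : Integrable (fun x => u x * ((g' x : ℝ) : ℂ)) M.ν :=
    hg1'.ofReal.bdd_mul hu.aestronglyMeasurable (Filter.Eventually.of_forall hu1)
  have i2 : Integrable (fun x => (∫ z, u z ∂(M.Q x)) * ((g x : ℝ) : ℂ)) M.ν :=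
    hg1.ofReal.bdd_mul hQum.aestronglyMeasurable (Filter.Eventually.of_forall hQu1)
  have hre := h.eq (fun x => (u x).re) (Complex.measurable_re.comp hu)
    ⟨1, fun x => (Complex.abs_re_le_norm _).trans (hu1 x)⟩
  have him := h.eq (fun x => (u x).im) (Complex.measurable_im.comp hu)
    ⟨1, fun x => (Complex.abs_im_le_norm _).trans (hu1 x)⟩
  apply Complex.ext
  · have a1 := Complex.reCLM.integral_comp_comm i1
    have a2 := Complex.reCLM.integral_comp_comm i2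
    simp only [Complex.reCLM_apply, Complex.re_mul_ofReal] at a1 a2
    rw [← a1, ← a2, hre]
    refine integral_congr_ae (Filter.Eventually.of_forall fun x => ?_)
    simp only
    have a3 := Complex.reCLM.integral_comp_comm (huint x)
    simp only [Complex.reCLM_apply] at a3
    rw [a3]
  · have a1 := Complex.imCLM.integral_comp_comm i1
    have a2 := Complex.imCLM.integral_comp_comm i2
    simp only [Complex.imCLM_apply, Complex.im_mul_ofReal] at a1 a2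
    rw [← a1, ← a2, him]
    refine integral_congr_ae (Filter.Eventually.of_forall fun x => ?_)
    simp only
    have a3 := Complex.imCLM.integral_comp_comm (huint x)
    simp only [Complex.imCLM_apply] at a3
    rw [a3]

/-- decoupling for bounded functions -/
lemma Chain.Erg.decouple_bdd {M : Chain S} (hM : M.Erg) (Ψ : S → ℝ) (hΨ : Measurable Ψ)
    (hb : ∃ C : ℝ, ∀ x, |Ψ x| ≤ C) (ε : ℝ) (hε : 0 < ε) :
    ∃ η : ℝ, 0 < η ∧ ∀ u : S → ℂ, Measurable u → (∀ x, ‖u x‖ ≤ 1) →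
      ∫ x, ‖u x - ∫ z, u z ∂(M.Q x)‖ ∂M.ν ≤ η →
      ‖∫ x, u x * ((Ψ x : ℝ) : ℂ) ∂M.ν - (∫ x, u x ∂M.ν) * ((∫ x, Ψ x ∂M.ν : ℝ) : ℂ)‖ ≤ ε := by
  obtain ⟨C, hC⟩ := hb
  have hΨ2 : MemLp Ψ 2 M.ν :=
    MemLp.of_bound hΨ.aestronglyMeasurable C (Filter.Eventually.of_forall fun x => by
      simpa using hC x)
  -- the sequence of iterates
  have hex : ∃ g : ℕ → S → ℝ, g 0 = Ψ ∧ ∀ j, M.Bwd (g j) (g (j + 1)) := by
    have hstep : ∀ g : {g : S → ℝ // Measurable g ∧ MemLp g 2 M.ν},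
        ∃ g' : {g : S → ℝ // Measurable g ∧ MemLp g 2 M.ν}, M.Bwd g.1 g'.1 := by
      intro g
      obtain ⟨g', hg'⟩ := M.exists_bwd g.1 g.2.1 g.2.2
      exact ⟨⟨g', hg'.m', hg'.l2'⟩, hg'⟩
    choose F hF using hstep
    refine ⟨fun j => (F^[j] ⟨Ψ, hΨ, hΨ2⟩).1, rfl, fun j => ?_⟩
    show M.Bwd (F^[j] ⟨Ψ, hΨ, hΨ2⟩).1 (F^[j + 1] ⟨Ψ, hΨ, hΨ2⟩).1
    rw [Function.iterate_succ_apply']
    exact hF _
  obtain ⟨g, hg0, hg⟩ := hex
  set c : ℝ := ∫ z, g 0 z ∂M.ν with hc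
  set V : ℝ := ∫ x, (g 0 x) ^ 2 ∂M.ν with hV
  have hV0 : 0 ≤ V := integral_nonneg fun _ => sq_nonneg _
  have hVj : ∀ j, ∫ x, (g j x) ^ 2 ∂M.ν ≤ V := by
    intro j
    induction j with
    | zero => exact le_rfl
    | succ j ih => exact (hg j).sq_le.trans ih
  -- choose J
  have hmean := hM.mean g hg
  obtain ⟨J, hJ, hJ1⟩ := ((hmean.eventually (gt_mem_nhds (show (0 : ℝ) < (ε / 2) ^ 2 by positivity))).and
    (Filter.eventually_ge_atTop 1)).exists
  have hJpos : (0 : ℝ) < J := by exact_mod_cast hJ1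
  -- choose L
  set L : ℝ := 8 * J * (V + 1) / ε with hL
  have hLpos : 0 < L := by positivity
  refine ⟨ε / (4 * J * L), by positivity, ?_⟩
  intro u hu hu1 hη
  have huQ1 : ∀ x, ‖∫ z, u z ∂(M.Q x)‖ ≤ 1 := by
    intro x
    have := norm_integral_le_of_norm_le_const (μ := M.Q x) (f := u) (C := 1)
      (Filter.Eventually.of_forall hu1)
    simpa using this
  have hQum : Measurable (fun x => ∫ z, u z ∂(M.Q x)) :=
    (hu.stronglyMeasurable.integral_kernel).measurable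
  have hdint : Integrable (fun x => ‖u x - ∫ z, u z ∂(M.Q x)‖) M.ν := by
    refine (Integrable.of_bound (hu.sub hQum).aestronglyMeasurable 2
      (Filter.Eventually.of_forall fun x => ?_)).norm
    calc ‖u x - ∫ z, u z ∂(M.Q x)‖ ≤ ‖u x‖ + ‖∫ z, u z ∂(M.Q x)‖ := norm_sub_le _ _
      _ ≤ 2 := by linarith [hu1 x, huQ1 x]
  have hgint : ∀ j, Integrable (fun x => u x * ((g j x : ℝ) : ℂ)) M.ν := fun j =>
    ((hg j).l2.integrable (by norm_num)).ofReal.bdd_mul hu.aestronglyMeasurable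
      (Filter.Eventually.of_forall hu1)
  have hgQint : ∀ j, Integrable (fun x => (∫ z, u z ∂(M.Q x)) * ((g j x : ℝ) : ℂ)) M.ν := fun j =>
    ((hg j).l2.integrable (by norm_num)).ofReal.bdd_mul hQum.aestronglyMeasurable
      (Filter.Eventually.of_forall huQ1)
  -- one step
  have hone : ∀ j, ‖∫ x, u x * ((g j x : ℝ) : ℂ) ∂M.ν - ∫ x, u x * ((g (j + 1) x : ℝ) : ℂ) ∂M.ν‖
      ≤ ε / (2 * J) := by
    intro j
    rw [(hg j).eq_complex u hu hu1, ← integral_sub (hgint j) (hgQint j)]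
    refine (norm_integral_le_integral_norm _).trans ?_
    have hsq : Integrable (fun x => (g j x) ^ 2) M.ν := (hg j).l2.integrable_sq
    have h1 : ∫ x, ‖u x * ((g j x : ℝ) : ℂ) - (∫ z, u z ∂(M.Q x)) * ((g j x : ℝ) : ℂ)‖ ∂M.ν ≤
        ∫ x, (L * ‖u x - ∫ z, u z ∂(M.Q x)‖ + 2 / L * (g j x) ^ 2) ∂M.ν := by
      refine integral_mono_of_nonneg (Filter.Eventually.of_forall fun _ => norm_nonneg _)
        ((hdint.const_mul L).add (hsq.const_mul _)) (Filter.Eventually.of_forall fun x => ?_)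
      simp only
      rw [← sub_mul, norm_mul, Complex.norm_real, Real.norm_eq_abs]
      set a := ‖u x - ∫ z, u z ∂(M.Q x)‖ with ha
      have ha0 : 0 ≤ a := norm_nonneg _
      have ha2 : a ≤ 2 := by
        calc a ≤ ‖u x‖ + ‖∫ z, u z ∂(M.Q x)‖ := norm_sub_le _ _
          _ ≤ 2 := by linarith [hu1 x, huQ1 x]
      by_cases hgL : |g j x| ≤ L
      · have h2 : a * |g j x| ≤ a * L := mul_le_mul_of_nonneg_left hgL ha0
        have h3 : 0 ≤ 2 / L * (g j x) ^ 2 := by positivity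
        linarith
      · push Not at hgL
        have h2 : a * |g j x| ≤ 2 * |g j x| := mul_le_mul_of_nonneg_right ha2 (abs_nonneg _)
        have h3 : 2 * |g j x| ≤ 2 / L * (g j x) ^ 2 := by
          rw [← sq_abs, div_mul_eq_mul_div, le_div_iff₀ hLpos]
          nlinarith [abs_nonneg (g j x)]
        have h4 : 0 ≤ L * a := by positivity
        linarith
    refine h1.trans ?_
    rw [integral_add (hdint.const_mul L) (hsq.const_mul _), integral_const_mul, integral_const_mul]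
    have h5 : L * ∫ x, ‖u x - ∫ z, u z ∂(M.Q x)‖ ∂M.ν ≤ ε / (4 * J) := by
      calc L * ∫ x, ‖u x - ∫ z, u z ∂(M.Q x)‖ ∂M.ν ≤ L * (ε / (4 * J * L)) :=
            mul_le_mul_of_nonneg_left hη hLpos.le
        _ = ε / (4 * J) := by field_simp
    have h6 : 2 / L * ∫ x, (g j x) ^ 2 ∂M.ν ≤ ε / (4 * J) := by
      calc 2 / L * ∫ x, (g j x) ^ 2 ∂M.ν ≤ 2 / L * (V + 1) :=
            mul_le_mul_of_nonneg_left (by linarith [hVj j]) (by positivity)
        _ = ε / (4 * J) := by rw [hL]; field_simp; ring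
    have h7 : ε / (4 * J) + ε / (4 * J) = ε / (2 * J) := by field_simp; ring
    linarith
  -- j steps
  have hsteps : ∀ j, ‖∫ x, u x * ((g 0 x : ℝ) : ℂ) ∂M.ν - ∫ x, u x * ((g j x : ℝ) : ℂ) ∂M.ν‖
      ≤ j * (ε / (2 * J)) := by
    intro j
    induction j with
    | zero => simp
    | succ j ih =>
      calc ‖∫ x, u x * ((g 0 x : ℝ) : ℂ) ∂M.ν - ∫ x, u x * ((g (j + 1) x : ℝ) : ℂ) ∂M.ν‖
          ≤ ‖∫ x, u x * ((g 0 x : ℝ) : ℂ) ∂M.ν - ∫ x, u x * ((g j x : ℝ) : ℂ) ∂M.ν‖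
            + ‖∫ x, u x * ((g j x : ℝ) : ℂ) ∂M.ν - ∫ x, u x * ((g (j + 1) x : ℝ) : ℂ) ∂M.ν‖ :=
            norm_sub_le_norm_sub_add_norm_sub _ _ _
        _ ≤ j * (ε / (2 * J)) + ε / (2 * J) := add_le_add ih (hone j)
        _ = ((j + 1 : ℕ) : ℝ) * (ε / (2 * J)) := by push_cast; ring
  -- average
  have havint : ∀ j, Integrable (g j) M.ν := fun j => (hg j).l2.integrable (by norm_num)
  set av : S → ℝ := fun x => (J : ℝ)⁻¹ * ∑ j ∈ Finset.range J, g j x with hav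
  have havi : Integrable av M.ν := (integrable_finsetSum _ fun j _ => havint j).const_mul _
  have havm : Measurable av :=
    (Finset.measurable_sum _ fun j _ => (hg j).m).const_mul _
  have hav2 : MemLp av 2 M.ν := by
    have : MemLp (fun x => ∑ j ∈ Finset.range J, g j x) 2 M.ν :=
      memLp_finsetSum _ fun j _ => (hg j).l2
    exact this.const_mul _
  have havsum : ∫ x, u x * ((av x : ℝ) : ℂ) ∂M.ν
      = ((J : ℝ)⁻¹ : ℂ) * ∑ j ∈ Finset.range J, ∫ x, u x * ((g j x : ℝ) : ℂ) ∂M.ν := by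
    rw [← integral_finsetSum _ fun j _ => hgint j, ← integral_const_mul]
    refine integral_congr_ae (Filter.Eventually.of_forall fun x => ?_)
    simp only [hav]
    push_cast
    rw [Finset.mul_sum, Finset.mul_sum, Finset.mul_sum]
    refine Finset.sum_congr rfl fun j _ => ?_
    ring
  have hA : ‖∫ x, u x * ((g 0 x : ℝ) : ℂ) ∂M.ν - ∫ x, u x * ((av x : ℝ) : ℂ) ∂M.ν‖ ≤ ε / 2 := by
    set I0 := ∫ x, u x * ((g 0 x : ℝ) : ℂ) ∂M.ν with hI0
    have e1 : I0 - ∫ x, u x * ((av x : ℝ) : ℂ) ∂M.ν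
        = ((J : ℝ)⁻¹ : ℂ) * ∑ j ∈ Finset.range J, (I0 - ∫ x, u x * ((g j x : ℝ) : ℂ) ∂M.ν) := by
      rw [havsum, Finset.sum_sub_distrib, mul_sub]
      congr 1
      rw [Finset.sum_const, Finset.card_range, nsmul_eq_mul]
      have : (J : ℂ) ≠ 0 := by exact_mod_cast hJpos.ne'
      push_cast
      field_simp
    rw [e1, norm_mul]
    have e2 : ‖((J : ℝ)⁻¹ : ℂ)‖ = (J : ℝ)⁻¹ := by
      rw [norm_inv, Complex.norm_real, Real.norm_of_nonneg hJpos.le]
    rw [e2]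
    have e3 : ‖∑ j ∈ Finset.range J, (I0 - ∫ x, u x * ((g j x : ℝ) : ℂ) ∂M.ν)‖
        ≤ ∑ _j ∈ Finset.range J, (ε / 2) := by
      refine (norm_sum_le _ _).trans (Finset.sum_le_sum fun j hj => ?_)
      refine (hsteps j).trans ?_
      have hjJ : (j : ℝ) ≤ J := by exact_mod_cast (Finset.mem_range.1 hj).le
      calc (j : ℝ) * (ε / (2 * J)) ≤ J * (ε / (2 * J)) :=
            mul_le_mul_of_nonneg_right hjJ (by positivity)
        _ = ε / 2 := by field_simp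
    calc (J : ℝ)⁻¹ * ‖∑ j ∈ Finset.range J, (I0 - ∫ x, u x * ((g j x : ℝ) : ℂ) ∂M.ν)‖
        ≤ (J : ℝ)⁻¹ * ∑ _j ∈ Finset.range J, (ε / 2) :=
          mul_le_mul_of_nonneg_left e3 (by positivity)
      _ = ε / 2 := by
          rw [Finset.sum_const, Finset.card_range, nsmul_eq_mul]
          field_simp
  have hui : Integrable u M.ν := Integrable.of_bound hu.aestronglyMeasurable 1
    (Filter.Eventually.of_forall hu1)
  have hB : ‖∫ x, u x * ((av x : ℝ) : ℂ) ∂M.ν - (∫ x, u x ∂M.ν) * ((c : ℝ) : ℂ)‖ ≤ ε / 2 := by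
    have e1 : ∫ x, u x * ((av x : ℝ) : ℂ) ∂M.ν - (∫ x, u x ∂M.ν) * ((c : ℝ) : ℂ)
        = ∫ x, u x * (((av x - c : ℝ)) : ℂ) ∂M.ν := by
      have i1 : Integrable (fun x => u x * ((av x : ℝ) : ℂ)) M.ν :=
        havi.ofReal.bdd_mul hu.aestronglyMeasurable (Filter.Eventually.of_forall hu1)
      have i2 : Integrable (fun x => u x * ((c : ℝ) : ℂ)) M.ν := hui.mul_const _
      rw [← integral_mul_const, ← integral_sub i1 i2]
      refine integral_congr_ae (Filter.Eventually.of_forall fun x => ?_)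
      simp only
      push_cast
      ring
    rw [e1]
    have hd2 : MemLp (fun x => av x - c) 2 M.ν := hav2.sub (memLp_const c)
    refine (norm_integral_mul_ofReal_le u hu1 _ (hd2.integrable (by norm_num))).trans ?_
    have hsq : (∫ x, |av x - c| ∂M.ν) ^ 2 ≤ ∫ x, |av x - c| ^ 2 ∂M.ν :=
      Pool.Agent.H43.CLT.sq_integral_le (hd2.integrable (by norm_num)).abs
        (by simpa [sq_abs] using hd2.integrable_sq)
    simp only [sq_abs] at hsq
    have h8 : (∫ x, |av x - c| ∂M.ν) ^ 2 ≤ (ε / 2) ^ 2 := hsq.trans hJ.le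
    exact abs_le_of_sq_le_sq' h8 (by positivity) |>.2
  rw [← hg0]
  calc ‖∫ x, u x * ((g 0 x : ℝ) : ℂ) ∂M.ν - (∫ x, u x ∂M.ν) * ((c : ℝ) : ℂ)‖
      ≤ ‖∫ x, u x * ((g 0 x : ℝ) : ℂ) ∂M.ν - ∫ x, u x * ((av x : ℝ) : ℂ) ∂M.ν‖
        + ‖∫ x, u x * ((av x : ℝ) : ℂ) ∂M.ν - (∫ x, u x ∂M.ν) * ((c : ℝ) : ℂ)‖ :=
        norm_sub_le_norm_sub_add_norm_sub _ _ _
    _ ≤ ε := by linarith

/-- decoupling: if `∫|u - Qu|` is small then `∫ u Ψ ≈ ∫ u ∫ Ψ`, uniformly over `|u| ≤ 1`. -/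
theorem Chain.Erg.decouple {M : Chain S} (hM : M.Erg) (Ψ : S → ℝ) (hΨ : Measurable Ψ)
    (hΨ1 : Integrable Ψ M.ν) (ε : ℝ) (hε : 0 < ε) :
    ∃ η : ℝ, 0 < η ∧ ∀ u : S → ℂ, Measurable u → (∀ x, ‖u x‖ ≤ 1) →
      ∫ x, ‖u x - ∫ z, u z ∂(M.Q x)‖ ∂M.ν ≤ η →
      ‖∫ x, u x * ((Ψ x : ℝ) : ℂ) ∂M.ν - (∫ x, u x ∂M.ν) * ((∫ x, Ψ x ∂M.ν : ℝ) : ℂ)‖ ≤ ε := by
  obtain ⟨k, hkm, hkb, hkε⟩ := exists_trunc Ψ hΨ hΨ1 (ε / 4) (by positivity)
  obtain ⟨η, hη, H⟩ := hM.decouple_bdd k hkm hkb (ε / 2) (by positivity)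
  refine ⟨η, hη, fun u hu hu1 hdu => ?_⟩
  have h1 := H u hu hu1 hdu
  obtain ⟨C, hC⟩ := hkb
  have hki : Integrable k M.ν :=
    Integrable.of_bound hkm.aestronglyMeasurable C (Filter.Eventually.of_forall fun x => by
      simpa using hC x)
  have hui : Integrable u M.ν := Integrable.of_bound hu.aestronglyMeasurable 1
    (Filter.Eventually.of_forall hu1)
  have i1 : Integrable (fun x => u x * ((Ψ x : ℝ) : ℂ)) M.ν :=
    hΨ1.ofReal.bdd_mul hu.aestronglyMeasurable (Filter.Eventually.of_forall hu1)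
  have i2 : Integrable (fun x => u x * ((k x : ℝ) : ℂ)) M.ν :=
    hki.ofReal.bdd_mul hu.aestronglyMeasurable (Filter.Eventually.of_forall hu1)
  have h2 : ‖∫ x, u x * ((Ψ x : ℝ) : ℂ) ∂M.ν - ∫ x, u x * ((k x : ℝ) : ℂ) ∂M.ν‖ ≤ ε / 4 := by
    rw [← integral_sub i1 i2]
    have e1 : ∫ x, (u x * ((Ψ x : ℝ) : ℂ) - u x * ((k x : ℝ) : ℂ)) ∂M.ν
        = ∫ x, u x * (((Ψ x - k x : ℝ)) : ℂ) ∂M.ν := by
      refine integral_congr_ae (Filter.Eventually.of_forall fun x => ?_)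
      simp only
      push_cast
      ring
    rw [e1]
    exact (norm_integral_mul_ofReal_le u hu1 (fun x => Ψ x - k x) (hΨ1.sub hki)).trans hkε
  have h3 : ‖(∫ x, u x ∂M.ν) * ((∫ x, k x ∂M.ν : ℝ) : ℂ)
      - (∫ x, u x ∂M.ν) * ((∫ x, Ψ x ∂M.ν : ℝ) : ℂ)‖ ≤ ε / 4 := by
    rw [← mul_sub, norm_mul]
    have hu2 : ‖∫ x, u x ∂M.ν‖ ≤ 1 := by
      have := norm_integral_le_of_norm_le_const (μ := M.ν) (f := u) (C := 1)
        (Filter.Eventually.of_forall hu1)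
      simpa using this
    have e1 : ‖((∫ x, k x ∂M.ν : ℝ) : ℂ) - ((∫ x, Ψ x ∂M.ν : ℝ) : ℂ)‖ ≤ ε / 4 := by
      rw [← Complex.ofReal_sub, Complex.norm_real, ← integral_sub hki hΨ1]
      refine (norm_integral_le_integral_norm _).trans (le_trans (le_of_eq ?_) hkε)
      refine integral_congr_ae (Filter.Eventually.of_forall fun x => ?_)
      simp only [Real.norm_eq_abs]
      exact abs_sub_comm _ _
    calc ‖∫ x, u x ∂M.ν‖ * ‖((∫ x, k x ∂M.ν : ℝ) : ℂ) - ((∫ x, Ψ x ∂M.ν : ℝ) : ℂ)‖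
        ≤ 1 * (ε / 4) := mul_le_mul hu2 e1 (norm_nonneg _) zero_le_one
      _ = ε / 4 := one_mul _
  calc ‖∫ x, u x * ((Ψ x : ℝ) : ℂ) ∂M.ν - (∫ x, u x ∂M.ν) * ((∫ x, Ψ x ∂M.ν : ℝ) : ℂ)‖
      ≤ ‖∫ x, u x * ((Ψ x : ℝ) : ℂ) ∂M.ν - ∫ x, u x * ((k x : ℝ) : ℂ) ∂M.ν‖
        + ‖∫ x, u x * ((k x : ℝ) : ℂ) ∂M.ν - (∫ x, u x ∂M.ν) * ((∫ x, k x ∂M.ν : ℝ) : ℂ)‖
        + ‖(∫ x, u x ∂M.ν) * ((∫ x, k x ∂M.ν : ℝ) : ℂ)
      - (∫ x, u x ∂M.ν) * ((∫ x, Ψ x ∂M.ν : ℝ) : ℂ)‖ := by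
        have := norm_add₃_le
          (a := ∫ x, u x * ((Ψ x : ℝ) : ℂ) ∂M.ν - ∫ x, u x * ((k x : ℝ) : ℂ) ∂M.ν)
          (b := ∫ x, u x * ((k x : ℝ) : ℂ) ∂M.ν - (∫ x, u x ∂M.ν) * ((∫ x, k x ∂M.ν : ℝ) : ℂ))
          (c := (∫ x, u x ∂M.ν) * ((∫ x, k x ∂M.ν : ℝ) : ℂ)
            - (∫ x, u x ∂M.ν) * ((∫ x, Ψ x ∂M.ν : ℝ) : ℂ))
        refine le_trans (le_of_eq ?_) this
        congr 1
        ring
    _ ≤ ε := by linarith

end Pool.Agent.H45.CLT
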