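import Pool.Agent.H45.CLT.Ctx

/-!
# Module STEPA
With `φ` measurable, `|φ| ≤ 1`, `φ (Qb-b) = |Qb-b|`: `y1 = E[φ(ξ_0)(b(ξ_1)-b(ξ_0))]`
`= E[φ(ξ_0)b(ξ_1)(1-ρe^{iθV})] - (1-ρ)∫φ e^{-iθG} w`, `V = f(ξ_0)-G(ξ_0)+G(ξ_1) = D + (1-r)QG(ξ_0)`,
`D = G(ξ_1)-QG(ξ_0)`.  `|1-ρe^{iθV}+iθV| ≤ (1-ρ) + 2θ²V²`,
`E[φ(ξ_0)b(ξ_1)D] = E[φ(ξ_0)(b(ξ_1)-b(ξ_0))D]`, `E|b(ξ_1)-b(ξ_0)|² ≤ 2 y1`, so
`n y1 ≤ C + C √(n y1)`, the term `n|θ|(1-r)∫|QG| ≤ |lam|√((n/m) e_I) ≤ |lam|`.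
-/

set_option autoImplicit false

open MeasureTheory ProbabilityTheory
open scoped ENNReal NNReal

namespace Pool.Agent.H45.CLT

variable {S : Type} [MeasurableSpace S]

/-- Cauchy-Schwarz for integrals of products of norms. -/
theorem stepA_cs {Ω : Type*} [MeasurableSpace Ω] {μ : Measure Ω} {F : Ω → ℂ} {D : Ω → ℝ}
    (hF : MemLp F 2 μ) (hD : MemLp D 2 μ) :
    ∫ ω, ‖F ω‖ * |D ω| ∂μ ≤ Real.sqrt (∫ ω, ‖F ω‖ ^ 2 ∂μ) * Real.sqrt (∫ ω, (D ω) ^ 2 ∂μ) := by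
  have h := integral_mul_le_Lp_mul_Lq_of_nonneg (μ := μ) (p := 2) (q := 2)
    (f := fun ω => ‖F ω‖) (g := fun ω => |D ω|) Real.HolderConjugate.two_two
    (Filter.Eventually.of_forall fun ω => norm_nonneg _)
    (Filter.Eventually.of_forall fun ω => abs_nonneg _)
    (by simpa using hF.norm) (by simpa using hD.norm)
  refine h.trans (le_of_eq ?_)
  rw [Real.sqrt_eq_rpow, Real.sqrt_eq_rpow]
  simp

theorem stepA_exp_bound (t : ℝ) :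
    ‖Complex.exp ((t : ℂ) * Complex.I) - 1 - (t : ℂ) * Complex.I‖ ≤ 2 * t ^ 2 := by
  have hn : ‖(t : ℂ) * Complex.I‖ = |t| := by simp
  rcases le_total |t| 1 with h | h
  · have h1 := Complex.norm_exp_sub_one_sub_id_le (x := (t : ℂ) * Complex.I) (by rw [hn]; exact h)
    rw [hn, sq_abs] at h1
    nlinarith [sq_nonneg t]
  · have h1 : ‖Complex.exp ((t : ℂ) * Complex.I) - 1‖ ≤ |t| := by
      have := Real.norm_exp_I_mul_ofReal_sub_one_le (x := t)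
      rwa [mul_comm, Real.norm_eq_abs] at this
    have h2 := norm_sub_le (Complex.exp ((t : ℂ) * Complex.I) - 1) ((t : ℂ) * Complex.I)
    rw [hn] at h2
    have h3 : |t| * 1 ≤ |t| * |t| := mul_le_mul_of_nonneg_left h (abs_nonneg t)
    have h4 : |t| * |t| = t ^ 2 := by rw [abs_mul_abs_self, sq]
    linarith

/-- `|1 - ρ e^{it} + i t| ≤ (1-ρ) + 2 t²` -/
theorem stepA_exp_bound' (ρ : ℝ) (h1 : ρ ≤ 1) (t : ℝ) :
    ‖(1 - (ρ : ℂ) * Complex.exp ((t : ℂ) * Complex.I)) + (t : ℂ) * Complex.I‖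
      ≤ (1 - ρ) + 2 * t ^ 2 := by
  have e : (1 - (ρ : ℂ) * Complex.exp ((t : ℂ) * Complex.I)) + (t : ℂ) * Complex.I
      = ((1 - ρ : ℝ) : ℂ) * Complex.exp ((t : ℂ) * Complex.I)
        - (Complex.exp ((t : ℂ) * Complex.I) - 1 - (t : ℂ) * Complex.I) := by
    push_cast; ring
  rw [e]
  refine (norm_sub_le _ _).trans ?_
  rw [norm_mul, Complex.norm_exp_ofReal_mul_I, mul_one, Complex.norm_real, Real.norm_eq_abs,
    abs_of_nonneg (by linarith)]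
  linarith [stepA_exp_bound t]

/-- `t ≤ a + b √t` implies `t ≤ 2 a + b²`. -/
theorem stepA_quad (t a b : ℝ) (ht : 0 ≤ t) (h : t ≤ a + b * Real.sqrt t) :
    t ≤ 2 * a + b ^ 2 := by
  have h1 := Real.sq_sqrt ht
  nlinarith [sq_nonneg (Real.sqrt t - b)]

namespace Ctx

variable {M : Model S} {lam s : ℝ} (X : Ctx M lam s)

/-- `Q b` -/
noncomputable def Qb (x : S) : ℂ := ∫ z, X.b z ∂(M.Q x)

theorem measurable_Qb : Measurable X.Qb :=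
  (StronglyMeasurable.integral_kernel X.measurable_b.stronglyMeasurable).measurable

theorem norm_Qb_le (x : S) : ‖X.Qb x‖ ≤ 1 := by
  have h := norm_integral_le_of_norm_le_const (μ := M.Q x) (f := X.b) (C := 1)
    (Filter.Eventually.of_forall fun z => X.norm_b_le z)
  simpa [Qb] using h

/-- the sign `φ` with `φ (Qb - b) = |Qb - b|` -/
noncomputable def sg (x : S) : ℂ :=
  (starRingEnd ℂ) (X.Qb x - X.b x) / ((‖X.Qb x - X.b x‖ : ℝ) : ℂ)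

theorem measurable_sg : Measurable X.sg := by
  have h : Measurable (fun x => X.Qb x - X.b x) := X.measurable_Qb.sub X.measurable_b
  unfold sg
  exact (Complex.continuous_conj.measurable.comp h).div
    (Complex.measurable_ofReal.comp h.norm)

theorem norm_sg_le (x : S) : ‖X.sg x‖ ≤ 1 := by
  unfold sg
  rw [norm_div, RCLike.norm_conj, Complex.norm_real, norm_norm]
  exact div_self_le_one _

theorem sg_mul (x : S) : X.sg x * (X.Qb x - X.b x) = ((‖X.Qb x - X.b x‖ : ℝ) : ℂ) := by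
  unfold sg
  by_cases h : X.Qb x - X.b x = 0
  · simp [h]
  · have h0 : ((‖X.Qb x - X.b x‖ : ℝ) : ℂ) ≠ 0 := by
      rw [Complex.ofReal_ne_zero]; exact norm_ne_zero_iff.mpr h
    rw [div_mul_eq_mul_div, div_eq_iff h0, Complex.conj_mul', sq]

theorem y1_nonneg' : 0 ≤ X.y1 := integral_nonneg fun _ => norm_nonneg _

/-- a bounded measurable function on the path space is in `L²` -/
theorem memLp_bdd {F : (ℕ → S) → ℂ} (hF : Measurable F) (C : ℝ) (hC : ∀ ξ, ‖F ξ‖ ≤ C) :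
    MemLp F 2 M.P :=
  MemLp.of_bound hF.aestronglyMeasurable C (Filter.Eventually.of_forall hC)

theorem integrable_bddA {F : (ℕ → S) → ℂ} (hF : Measurable F) (C : ℝ) (hC : ∀ ξ, ‖F ξ‖ ≤ C) :
    Integrable F M.P :=
  Integrable.of_bound hF.aestronglyMeasurable C (Filter.Eventually.of_forall hC)

/-- `E[φ(ξ_0) b(ξ_1)] = E[φ(ξ_0) Qb(ξ_0)]`. -/
theorem pair_b (φ : S → ℂ) (hφ : Measurable φ) (hφ1 : ∀ x, ‖φ x‖ ≤ 1) :
    ∫ ξ, φ (ξ 0) * X.b (ξ 1) ∂M.P = ∫ ξ, φ (ξ 0) * X.Qb (ξ 0) ∂M.P := by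
  have h := M.toChain.markov_bdd 0 (fun ξ => φ (ξ 0)) (hφ.comp (measurable_pi_apply 0))
    (fun ξ => by simp [fr]) (integrable_bddA (M := M) (hφ.comp (measurable_pi_apply 0)) 1
      fun ξ => hφ1 _) X.b X.measurable_b ⟨1, X.norm_b_le⟩
  simpa [Qb] using h

/-- `E[φ(ξ_0)(b(ξ_1) - b(ξ_0))] = ∫ φ (Qb - b)`. -/
theorem pair_b_sub (φ : S → ℂ) (hφ : Measurable φ) (hφ1 : ∀ x, ‖φ x‖ ≤ 1) :
    ∫ ξ, φ (ξ 0) * (X.b (ξ 1) - X.b (ξ 0)) ∂M.P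
      = ∫ ξ, φ (ξ 0) * (X.Qb (ξ 0) - X.b (ξ 0)) ∂M.P := by
  have m0 : Measurable fun ξ : ℕ → S => φ (ξ 0) := hφ.comp (measurable_pi_apply 0)
  have mb0 : Measurable fun ξ : ℕ → S => X.b (ξ 0) := X.measurable_b.comp (measurable_pi_apply 0)
  have mb1 : Measurable fun ξ : ℕ → S => X.b (ξ 1) := X.measurable_b.comp (measurable_pi_apply 1)
  have mq0 : Measurable fun ξ : ℕ → S => X.Qb (ξ 0) :=
    X.measurable_Qb.comp (measurable_pi_apply 0)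
  have bd : ∀ a b : ℂ, ‖a‖ ≤ 1 → ‖b‖ ≤ 1 → ‖a * b‖ ≤ 1 := by
    intro a b ha hb
    rw [norm_mul]
    exact mul_le_one₀ ha (norm_nonneg _) hb
  have i1 : Integrable (fun ξ : ℕ → S => φ (ξ 0) * X.b (ξ 1)) M.P :=
    integrable_bddA (m0.mul mb1) 1 fun ξ => bd _ _ (hφ1 _) (X.norm_b_le _)
  have i2 : Integrable (fun ξ : ℕ → S => φ (ξ 0) * X.b (ξ 0)) M.P :=
    integrable_bddA (m0.mul mb0) 1 fun ξ => bd _ _ (hφ1 _) (X.norm_b_le _)
  have i3 : Integrable (fun ξ : ℕ → S => φ (ξ 0) * X.Qb (ξ 0)) M.P :=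
    integrable_bddA (m0.mul mq0) 1 fun ξ => bd _ _ (hφ1 _) (X.norm_Qb_le _)
  simp_rw [mul_sub]
  rw [integral_sub i1 i2, integral_sub i3 i2, X.pair_b φ hφ hφ1]

theorem y1_eq : ((X.y1 : ℝ) : ℂ) = ∫ ξ, X.sg (ξ 0) * (X.b (ξ 1) - X.b (ξ 0)) ∂M.P := by
  rw [X.pair_b_sub X.sg X.measurable_sg X.norm_sg_le]
  simp_rw [X.sg_mul]
  rw [integral_complex_ofReal]
  congr 1
  have := M.toChain.integral_eval 0 (g := fun x => ‖X.Qb x - X.b x‖)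
    (X.measurable_Qb.sub X.measurable_b).norm
  rw [this]
  rfl

/-- `E|b(ξ_1) - b(ξ_0)|² ≤ 2 y1` -/
theorem diff_b_sq : ∫ ξ, ‖X.b (ξ 1) - X.b (ξ 0)‖ ^ 2 ∂M.P ≤ 2 * X.y1 := by
  have mb0 : Measurable fun ξ : ℕ → S => X.b (ξ 0) := X.measurable_b.comp (measurable_pi_apply 0)
  have mb1 : Measurable fun ξ : ℕ → S => X.b (ξ 1) := X.measurable_b.comp (measurable_pi_apply 1)
  have mq0 : Measurable fun ξ : ℕ → S => X.Qb (ξ 0) :=
    X.measurable_Qb.comp (measurable_pi_apply 0)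
  have mc0 : Measurable fun ξ : ℕ → S => (starRingEnd ℂ) (X.b (ξ 0)) :=
    Complex.continuous_conj.measurable.comp mb0
  have bc : ∀ x, ‖(starRingEnd ℂ) (X.b x)‖ ≤ 1 := fun x => by
    rw [RCLike.norm_conj]; exact X.norm_b_le x
  -- pointwise identity
  have pt : ∀ ξ : ℕ → S, ‖X.b (ξ 1) - X.b (ξ 0)‖ ^ 2
      = ‖X.b (ξ 1)‖ ^ 2 - ‖X.b (ξ 0)‖ ^ 2
        - 2 * ((starRingEnd ℂ) (X.b (ξ 0)) * (X.b (ξ 1) - X.b (ξ 0))).re := by
    intro ξ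
    rw [← Complex.normSq_eq_norm_sq, ← Complex.normSq_eq_norm_sq, ← Complex.normSq_eq_norm_sq]
    simp only [Complex.normSq_apply, Complex.sub_re, Complex.sub_im, Complex.mul_re,
      Complex.conj_re, Complex.conj_im]
    ring
  have nb : ∀ x, ‖‖X.b x‖ ^ 2‖ ≤ 1 := fun x => by
    rw [norm_pow, norm_norm]
    exact pow_le_one₀ (norm_nonneg _) (X.norm_b_le x)
  have i1 : Integrable (fun ξ : ℕ → S => ‖X.b (ξ 1)‖ ^ 2) M.P :=
    Integrable.of_bound (mb1.norm.pow_const 2).aestronglyMeasurable 1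
      (Filter.Eventually.of_forall fun ξ => nb _)
  have i0 : Integrable (fun ξ : ℕ → S => ‖X.b (ξ 0)‖ ^ 2) M.P :=
    Integrable.of_bound (mb0.norm.pow_const 2).aestronglyMeasurable 1
      (Filter.Eventually.of_forall fun ξ => nb _)
  have ic : Integrable (fun ξ : ℕ → S =>
      (starRingEnd ℂ) (X.b (ξ 0)) * (X.b (ξ 1) - X.b (ξ 0))) M.P := by
    refine integrable_bddA (mc0.mul (mb1.sub mb0)) 2 fun ξ => ?_
    rw [norm_mul]
    have h1 := norm_sub_le (X.b (ξ 1)) (X.b (ξ 0))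
    have h2 := X.norm_b_le (ξ 1)
    have h3 := X.norm_b_le (ξ 0)
    have h4 := bc (ξ 0)
    have h5 := norm_nonneg (X.b (ξ 1) - X.b (ξ 0))
    nlinarith [norm_nonneg ((starRingEnd ℂ) (X.b (ξ 0)))]
  have ir : Integrable (fun ξ : ℕ → S =>
      ((starRingEnd ℂ) (X.b (ξ 0)) * (X.b (ξ 1) - X.b (ξ 0))).re) M.P := ic.re
  have e1 : ∫ ξ, ‖X.b (ξ 1)‖ ^ 2 ∂M.P = ∫ ξ, ‖X.b (ξ 0)‖ ^ 2 ∂M.P := by
    rw [M.toChain.integral_eval 1 (g := fun x => ‖X.b x‖ ^ 2) (X.measurable_b.norm.pow_const 2),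
      M.toChain.integral_eval 0 (g := fun x => ‖X.b x‖ ^ 2) (X.measurable_b.norm.pow_const 2)]
  have e2 : ∫ ξ, ‖X.b (ξ 1) - X.b (ξ 0)‖ ^ 2 ∂M.P
      = - 2 * ∫ ξ, ((starRingEnd ℂ) (X.b (ξ 0)) * (X.b (ξ 1) - X.b (ξ 0))).re ∂M.P := by
    have i10 : Integrable (fun ξ : ℕ → S => ‖X.b (ξ 1)‖ ^ 2 - ‖X.b (ξ 0)‖ ^ 2) M.P := i1.sub i0
    simp_rw [pt]
    rw [integral_sub i10 (ir.const_mul 2), integral_sub i1 i0, e1, integral_const_mul]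
    ring
  have e3 : ∫ ξ, ((starRingEnd ℂ) (X.b (ξ 0)) * (X.b (ξ 1) - X.b (ξ 0))).re ∂M.P
      = (∫ ξ, (starRingEnd ℂ) (X.b (ξ 0)) * (X.Qb (ξ 0) - X.b (ξ 0)) ∂M.P).re := by
    rw [← X.pair_b_sub (fun x => (starRingEnd ℂ) (X.b x))
      (Complex.continuous_conj.measurable.comp X.measurable_b) bc]
    exact integral_re ic
  rw [e2, e3]
  have h1 : ‖∫ ξ, (starRingEnd ℂ) (X.b (ξ 0)) * (X.Qb (ξ 0) - X.b (ξ 0)) ∂M.P‖ ≤ X.y1 := by
    have h2 : X.y1 = ∫ ξ, ‖X.Qb (ξ 0) - X.b (ξ 0)‖ ∂M.P :=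
      (M.toChain.integral_eval 0 (g := fun x => ‖X.Qb x - X.b x‖)
        (X.measurable_Qb.sub X.measurable_b).norm).symm
    rw [h2]
    refine norm_integral_le_of_norm_le ?_ (Filter.Eventually.of_forall fun ξ => ?_)
    · exact (integrable_bddA (M := M) (mq0.sub mb0) 2 fun ξ => by
        have h1 := norm_sub_le (X.Qb (ξ 0)) (X.b (ξ 0))
        have h2 := X.norm_Qb_le (ξ 0)
        have h3 := X.norm_b_le (ξ 0)
        show ‖X.Qb (ξ 0) - X.b (ξ 0)‖ ≤ 2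
        linarith).norm
    · rw [norm_mul]
      exact mul_le_of_le_one_left (norm_nonneg _) (bc _)
  have h2 := (abs_le.mp (Complex.abs_re_le_norm
    (∫ ξ, (starRingEnd ℂ) (X.b (ξ 0)) * (X.Qb (ξ 0) - X.b (ξ 0)) ∂M.P))).1
  linarith

/-- `D = G(ξ_1) - QG(ξ_0)` -/
noncomputable def DD (ξ : ℕ → S) : ℝ := M.G X.r (ξ 1) - M.G1 X.r (ξ 0)

/-- `V = f(ξ_0) - G(ξ_0) + G(ξ_1) = D + (1-r) QG(ξ_0)` -/
noncomputable def VV (ξ : ℕ → S) : ℝ := M.f (ξ 0) - M.G X.r (ξ 0) + M.G X.r (ξ 1)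

theorem VV_eq (ξ : ℕ → S) : X.VV ξ = X.DD ξ + (1 - X.r) * M.G1 X.r (ξ 0) := by
  unfold VV DD
  rw [M.G_eq X.r X.r_nonneg X.r_lt_one (ξ 0)]
  ring

theorem hres' (x : S) : X.u x = ((1 - X.ρ : ℝ) : ℂ) * X.w x
    + (X.ρ : ℂ) * (Complex.exp (((X.θ * M.f x : ℝ) : ℂ) * Complex.I) * ∫ z, X.u z ∂(M.Q x)) :=
  X.hres x

/-- the equation for `b`: `E[φ(ξ_0) b(ξ_0)] = (1-ρ) E[φ e^{-iθG} w] + ρ E[φ(ξ_0) e^{iθV} b(ξ_1)]` -/
theorem res_b (φ : S → ℂ) (hφ : Measurable φ) (hφ1 : ∀ x, ‖φ x‖ ≤ 1) :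
    ∫ ξ, φ (ξ 0) * X.b (ξ 0) ∂M.P
      = ((1 - X.ρ : ℝ) : ℂ) * ∫ ξ, φ (ξ 0) *
          (Complex.exp (((-(X.θ * M.G X.r (ξ 0)) : ℝ) : ℂ) * Complex.I) * X.w (ξ 0)) ∂M.P
        + (X.ρ : ℂ) * ∫ ξ, φ (ξ 0) *
          (Complex.exp (((X.θ * X.VV ξ : ℝ) : ℂ) * Complex.I) * X.b (ξ 1)) ∂M.P := by
  have mG := M.measurable_G X.r X.r_nonneg X.r_lt_one
  have mf := M.measurable_f
  have mE : ∀ g : S → ℝ, Measurable g →
      Measurable (fun x => Complex.exp (((g x : ℝ) : ℂ) * Complex.I)) := by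
    intro g hg
    exact Complex.measurable_exp.comp ((Complex.measurable_ofReal.comp hg).mul_const _)
  have nE : ∀ t : ℝ, ‖Complex.exp ((t : ℂ) * Complex.I)‖ = 1 := Complex.norm_exp_ofReal_mul_I
  -- the function `Φ`
  set Φ0 : S → ℂ := fun x => φ x *
    Complex.exp (((X.θ * (M.f x - M.G X.r x) : ℝ) : ℂ) * Complex.I) with hΦ0
  have mΦ0 : Measurable Φ0 := hφ.mul (mE _ ((mf.sub mG).const_mul _))
  have nΦ0 : ∀ x, ‖Φ0 x‖ ≤ 1 := fun x => by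
    rw [hΦ0]; simp only []; rw [norm_mul, nE, mul_one]; exact hφ1 x
  have hmk := M.toChain.markov_bdd 0 (fun ξ => Φ0 (ξ 0)) (mΦ0.comp (measurable_pi_apply 0))
    (fun ξ => by simp [fr]) (integrable_bddA (M := M) (mΦ0.comp (measurable_pi_apply 0)) 1
      fun ξ => nΦ0 _) X.u X.hum ⟨1, X.hu1⟩
  -- the second term
  have e2 : ∀ ξ : ℕ → S, φ (ξ 0) *
      (Complex.exp (((X.θ * X.VV ξ : ℝ) : ℂ) * Complex.I) * X.b (ξ 1))
      = Φ0 (ξ 0) * X.u (ξ (0 + 1)) := by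
    intro ξ
    rw [hΦ0]
    simp only [zero_add]
    unfold b
    rw [mul_assoc, ← mul_assoc (Complex.exp _) (Complex.exp _) (X.u _), ← Complex.exp_add]
    congr 2
    unfold VV
    congr 1
    push_cast
    ring
  simp_rw [e2]
  rw [hmk]
  have mQu : Measurable fun x => ∫ z, X.u z ∂(M.Q x) :=
    (StronglyMeasurable.integral_kernel X.hum.stronglyMeasurable).measurable
  have nQu : ∀ x, ‖∫ z, X.u z ∂(M.Q x)‖ ≤ 1 := fun x => by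
    have h := norm_integral_le_of_norm_le_const (μ := M.Q x) (f := X.u) (C := 1)
      (Filter.Eventually.of_forall fun z => X.hu1 z)
    simpa using h
  have i1 : Integrable (fun ξ : ℕ → S => φ (ξ 0) *
      (Complex.exp (((-(X.θ * M.G X.r (ξ 0)) : ℝ) : ℂ) * Complex.I) * X.w (ξ 0))) M.P := by
    refine integrable_bddA (M := M) ?_ 1 fun ξ => ?_
    · exact (hφ.mul ((mE _ (mG.const_mul _).neg).mul X.hwm)).comp (measurable_pi_apply 0)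
    · rw [norm_mul, norm_mul, nE, one_mul]
      exact mul_le_one₀ (hφ1 _) (norm_nonneg _) (X.hw1 _)
  have i2 : Integrable (fun ξ : ℕ → S => Φ0 (ξ 0) * ∫ z, X.u z ∂(M.Q (ξ 0))) M.P := by
    refine integrable_bddA (M := M) ((mΦ0.mul mQu).comp (measurable_pi_apply 0)) 1 fun ξ => ?_
    rw [norm_mul]
    exact mul_le_one₀ (nΦ0 _) (norm_nonneg _) (nQu _)
  rw [← integral_const_mul, ← integral_const_mul, ← integral_add (i1.const_mul _) (i2.const_mul _)]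
  refine integral_congr_ae (Filter.Eventually.of_forall fun ξ => ?_)
  unfold b
  beta_reduce
  rw [X.hres' (ξ 0), hΦ0]
  beta_reduce
  have e3 : Complex.exp (((X.θ * (M.f (ξ 0) - M.G X.r (ξ 0)) : ℝ) : ℂ) * Complex.I)
      = Complex.exp (((-(X.θ * M.G X.r (ξ 0)) : ℝ) : ℂ) * Complex.I)
        * Complex.exp (((X.θ * M.f (ξ 0) : ℝ) : ℂ) * Complex.I) := by
    rw [← Complex.exp_add]
    congr 1
    push_cast
    ring
  rw [e3]
  ring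

/-- the basic inequality of step A -/
theorem y1_le (D0 : ℝ)
    (hD : ∫ x, (M.G X.r x) ^ 2 ∂M.ν - ∫ x, (M.G1 X.r x) ^ 2 ∂M.ν ≤ D0) :
    X.y1 ≤ 2 * (1 - X.ρ) + 4 * X.θ ^ 2 * (D0 + (1 - X.r) ^ 2 * ∫ x, (M.G1 X.r x) ^ 2 ∂M.ν)
      + |X.θ| * (Real.sqrt (2 * X.y1) * Real.sqrt D0)
      + |X.θ| * ((1 - X.r) * Real.sqrt (∫ x, (M.G1 X.r x) ^ 2 ∂M.ν)) := by
  have hG := M.fwd_G X.r X.r_nonneg X.r_lt_one
  have nE : ∀ t : ℝ, ‖Complex.exp ((t : ℂ) * Complex.I)‖ = 1 := Complex.norm_exp_ofReal_mul_I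
  have ms0 : Measurable fun ξ : ℕ → S => X.sg (ξ 0) := X.measurable_sg.comp (measurable_pi_apply 0)
  have mb0 : Measurable fun ξ : ℕ → S => X.b (ξ 0) := X.measurable_b.comp (measurable_pi_apply 0)
  have mb1 : Measurable fun ξ : ℕ → S => X.b (ξ 1) := X.measurable_b.comp (measurable_pi_apply 1)
  have mg1 : Measurable fun ξ : ℕ → S => M.G1 X.r (ξ 0) := hG.m'.comp (measurable_pi_apply 0)
  have mD : Measurable X.DD := (hG.m.comp (measurable_pi_apply 1)).sub mg1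
  have mV : Measurable X.VV := by
    have : X.VV = fun ξ => X.DD ξ + (1 - X.r) * M.G1 X.r (ξ 0) := funext X.VV_eq
    rw [this]
    exact mD.add (mg1.const_mul _)
  have lD : MemLp X.DD 2 M.P :=
    (M.toChain.memLp_eval hG.l2 1).sub (M.toChain.memLp_eval hG.l2' 0)
  have lg1 : MemLp (fun ξ : ℕ → S => M.G1 X.r (ξ 0)) 2 M.P := M.toChain.memLp_eval hG.l2' 0
  have lV : MemLp X.VV 2 M.P := by
    have : X.VV = fun ξ => X.DD ξ + (1 - X.r) * M.G1 X.r (ξ 0) := funext X.VV_eq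
    rw [this]
    exact lD.add (lg1.const_mul _)
  have n2 : ∀ a b : ℂ, ‖a‖ ≤ 1 → ‖b‖ ≤ 1 → ‖a * b‖ ≤ 1 := by
    intro a b ha hb
    rw [norm_mul]
    exact mul_le_one₀ ha (norm_nonneg _) hb
  -- the four functions
  set T1 : (ℕ → S) → ℂ := fun ξ => X.sg (ξ 0) * X.b (ξ 1) *
    ((1 - (X.ρ : ℂ) * Complex.exp (((X.θ * X.VV ξ : ℝ) : ℂ) * Complex.I))
      + ((X.θ * X.VV ξ : ℝ) : ℂ) * Complex.I) with hT1
  set T2 : (ℕ → S) → ℂ := fun ξ => X.sg (ξ 0) * (X.b (ξ 1) - X.b (ξ 0)) * ((X.DD ξ : ℝ) : ℂ)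
    with hT2
  set T3 : (ℕ → S) → ℂ := fun ξ => X.sg (ξ 0) * X.b (ξ 1) * ((M.G1 X.r (ξ 0) : ℝ) : ℂ) with hT3
  set T4 : (ℕ → S) → ℂ := fun ξ => X.sg (ξ 0) * X.b (ξ 0) * ((X.DD ξ : ℝ) : ℂ) with hT4
  have b1 : ∀ ξ, ‖T1 ξ‖ ≤ (1 - X.ρ) + 2 * (X.θ * X.VV ξ) ^ 2 := by
    intro ξ
    rw [hT1]
    simp only []
    rw [norm_mul]
    refine (mul_le_of_le_one_left (norm_nonneg _)
      (n2 _ _ (X.norm_sg_le _) (X.norm_b_le _))).trans ?_
    exact stepA_exp_bound' X.ρ X.ρ_le_one _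
  have b2 : ∀ ξ, ‖T2 ξ‖ ≤ ‖X.b (ξ 1) - X.b (ξ 0)‖ * |X.DD ξ| := by
    intro ξ
    rw [hT2]
    simp only []
    rw [norm_mul, norm_mul, Complex.norm_real, Real.norm_eq_abs]
    refine mul_le_mul_of_nonneg_right ?_ (abs_nonneg _)
    exact mul_le_of_le_one_left (norm_nonneg _) (X.norm_sg_le _)
  have b3 : ∀ ξ, ‖T3 ξ‖ ≤ |M.G1 X.r (ξ 0)| := by
    intro ξ
    rw [hT3]
    simp only []
    rw [norm_mul, Complex.norm_real, Real.norm_eq_abs]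
    exact mul_le_of_le_one_left (abs_nonneg _) (n2 _ _ (X.norm_sg_le _) (X.norm_b_le _))
  have iV2 : Integrable (fun ξ => (1 - X.ρ) + 2 * (X.θ * X.VV ξ) ^ 2) M.P := by
    refine (integrable_const _).add (Integrable.const_mul ?_ 2)
    exact (lV.const_mul X.θ).integrable_sq
  have i1 : Integrable T1 M.P := by
    refine Integrable.mono' iV2 ?_ (Filter.Eventually.of_forall b1)
    refine Measurable.aestronglyMeasurable ?_
    refine (ms0.mul mb1).mul ?_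
    have m1 : Measurable fun ξ => ((X.θ * X.VV ξ : ℝ) : ℂ) * Complex.I :=
      (Complex.measurable_ofReal.comp (mV.const_mul _)).mul_const _
    exact (measurable_const.sub ((Complex.measurable_exp.comp m1).const_mul _)).add m1
  have lD' : MemLp (fun ξ => ((X.DD ξ : ℝ) : ℂ)) 2 M.P := lD.ofReal
  have l10 : MemLp (fun ξ : ℕ → S => X.b (ξ 1) - X.b (ξ 0)) 2 M.P :=
    memLp_bdd (mb1.sub mb0) 2 fun ξ => by
      have h1 := norm_sub_le (X.b (ξ 1)) (X.b (ξ 0))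
      have h2 := X.norm_b_le (ξ 1)
      have h3 := X.norm_b_le (ξ 0)
      linarith
  have lsb : MemLp (fun ξ : ℕ → S => X.sg (ξ 0) * (X.b (ξ 1) - X.b (ξ 0))) 2 M.P :=
    memLp_bdd (ms0.mul (mb1.sub mb0)) 2 fun ξ => by
      have h1 := norm_sub_le (X.b (ξ 1)) (X.b (ξ 0))
      have h2 := X.norm_b_le (ξ 1)
      have h3 := X.norm_b_le (ξ 0)
      rw [norm_mul]
      have := mul_le_of_le_one_left (norm_nonneg (X.b (ξ 1) - X.b (ξ 0))) (X.norm_sg_le (ξ 0))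
      linarith
  have i2 : Integrable T2 M.P := lsb.integrable_mul lD'
  have i3 : Integrable T3 M.P := by
    refine Integrable.mono' (lg1.integrable (by norm_num)).abs ?_ (Filter.Eventually.of_forall b3)
    exact ((ms0.mul mb1).mul (Complex.measurable_ofReal.comp mg1)).aestronglyMeasurable
  have lsb0 : MemLp (fun ξ : ℕ → S => X.sg (ξ 0) * X.b (ξ 0)) 2 M.P :=
    memLp_bdd (ms0.mul mb0) 1 fun ξ => n2 _ _ (X.norm_sg_le _) (X.norm_b_le _)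
  have i4 : Integrable T4 M.P := lsb0.integrable_mul lD'
  -- `∫ T4 = 0`
  have z4 : ∫ ξ, T4 ξ ∂M.P = 0 := by
    have h := hG.orth 0 (fun ξ => X.sg (ξ 0) * X.b (ξ 0)) (ms0.mul mb0)
      (fun ξ => by simp [fr]) lsb0
    exact h
  -- first reduction
  set H : (ℕ → S) → ℂ := fun ξ => X.sg (ξ 0) *
          (Complex.exp (((-(X.θ * M.G X.r (ξ 0)) : ℝ) : ℂ) * Complex.I) * X.w (ξ 0)) with hH
  have bH : ∀ ξ, ‖H ξ‖ ≤ 1 := by
    intro ξ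
    rw [hH]
    simp only []
    rw [norm_mul, norm_mul, nE, one_mul]
    exact mul_le_one₀ (X.norm_sg_le _) (norm_nonneg _) (X.hw1 _)
  have ib1 : Integrable (fun ξ : ℕ → S => X.sg (ξ 0) * X.b (ξ 1)) M.P :=
    integrable_bddA (ms0.mul mb1) 1 fun ξ => n2 _ _ (X.norm_sg_le _) (X.norm_b_le _)
  have ib0 : Integrable (fun ξ : ℕ → S => X.sg (ξ 0) * X.b (ξ 0)) M.P :=
    integrable_bddA (ms0.mul mb0) 1 fun ξ => n2 _ _ (X.norm_sg_le _) (X.norm_b_le _)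
  have ie : Integrable (fun ξ : ℕ → S => X.sg (ξ 0) *
      (Complex.exp (((X.θ * X.VV ξ : ℝ) : ℂ) * Complex.I) * X.b (ξ 1))) M.P := by
    refine integrable_bddA ?_ 1 fun ξ => ?_
    · have m1 : Measurable fun ξ => ((X.θ * X.VV ξ : ℝ) : ℂ) * Complex.I :=
        (Complex.measurable_ofReal.comp (mV.const_mul _)).mul_const _
      exact ms0.mul ((Complex.measurable_exp.comp m1).mul mb1)
    · rw [norm_mul, norm_mul, nE, one_mul]
      exact mul_le_one₀ (X.norm_sg_le _) (norm_nonneg _) (X.norm_b_le _)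
  have key : ((X.y1 : ℝ) : ℂ) = ∫ ξ, T1 ξ ∂M.P
      - ((X.θ : ℂ) * Complex.I) * (∫ ξ, T2 ξ ∂M.P + ((1 - X.r : ℝ) : ℂ) * ∫ ξ, T3 ξ ∂M.P)
      - ((1 - X.ρ : ℝ) : ℂ) * ∫ ξ, H ξ ∂M.P := by
    have e1 : ((X.y1 : ℝ) : ℂ) = ∫ ξ, X.sg (ξ 0) * X.b (ξ 1) ∂M.P
        - ∫ ξ, X.sg (ξ 0) * X.b (ξ 0) ∂M.P := by
      rw [X.y1_eq]
      simp_rw [mul_sub]
      rw [integral_sub ib1 ib0]
    rw [e1, X.res_b X.sg X.measurable_sg X.norm_sg_le]
    have e2 : ∫ ξ, X.sg (ξ 0) * X.b (ξ 1) ∂M.P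
        - (X.ρ : ℂ) * ∫ ξ, X.sg (ξ 0) *
          (Complex.exp (((X.θ * X.VV ξ : ℝ) : ℂ) * Complex.I) * X.b (ξ 1)) ∂M.P
        = ∫ ξ, T1 ξ ∂M.P
          - ((X.θ : ℂ) * Complex.I) * (∫ ξ, T2 ξ ∂M.P + ((1 - X.r : ℝ) : ℂ) * ∫ ξ, T3 ξ ∂M.P) := by
      have e3 : ∫ ξ, T2 ξ ∂M.P + ((1 - X.r : ℝ) : ℂ) * ∫ ξ, T3 ξ ∂M.P
          = ∫ ξ, (T2 ξ + ((1 - X.r : ℝ) : ℂ) * T3 ξ + T4 ξ) ∂M.P := by
        have i23 : Integrable (fun ξ => T2 ξ + ((1 - X.r : ℝ) : ℂ) * T3 ξ) M.P :=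
          i2.add (i3.const_mul _)
        rw [integral_add i23 i4, z4, add_zero, integral_add i2 (i3.const_mul _),
          integral_const_mul]
      have i234 : Integrable (fun ξ => T2 ξ + ((1 - X.r : ℝ) : ℂ) * T3 ξ + T4 ξ) M.P :=
        (i2.add (i3.const_mul _)).add i4
      rw [e3, ← integral_const_mul, ← integral_sub ib1 (ie.const_mul _), ← integral_const_mul,
        ← integral_sub i1 (i234.const_mul _)]
      refine integral_congr_ae (Filter.Eventually.of_forall fun ξ => ?_)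
      rw [hT1, hT2, hT3, hT4]
      beta_reduce
      rw [X.VV_eq ξ]
      push_cast
      ring
    rw [← e2]
    ring
  -- the bounds
  have c1 : ‖∫ ξ, T1 ξ ∂M.P‖ ≤ (1 - X.ρ)
      + 4 * X.θ ^ 2 * (D0 + (1 - X.r) ^ 2 * ∫ x, (M.G1 X.r x) ^ 2 ∂M.ν) := by
    refine (norm_integral_le_of_norm_le iV2 (Filter.Eventually.of_forall b1)).trans ?_
    have iD2 : Integrable (fun ξ => X.DD ξ ^ 2) M.P := lD.integrable_sq
    have ig2 : Integrable (fun ξ : ℕ → S => (M.G1 X.r (ξ 0)) ^ 2) M.P := lg1.integrable_sq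
    have iup : Integrable (fun ξ : ℕ → S => (1 - X.ρ) + (4 * X.θ ^ 2 * X.DD ξ ^ 2
        + 4 * X.θ ^ 2 * ((1 - X.r) ^ 2 * (M.G1 X.r (ξ 0)) ^ 2))) M.P :=
      (integrable_const _).add ((iD2.const_mul _).add ((ig2.const_mul _).const_mul _))
    have h1 : ∫ ξ, ((1 - X.ρ) + 2 * (X.θ * X.VV ξ) ^ 2) ∂M.P
        ≤ ∫ ξ, ((1 - X.ρ) + (4 * X.θ ^ 2 * X.DD ξ ^ 2
        + 4 * X.θ ^ 2 * ((1 - X.r) ^ 2 * (M.G1 X.r (ξ 0)) ^ 2))) ∂M.P := by
      refine integral_mono iV2 iup fun ξ => ?_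
      simp only []
      rw [X.VV_eq ξ, mul_pow]
      have h2 : (X.DD ξ + (1 - X.r) * M.G1 X.r (ξ 0)) ^ 2
          ≤ 2 * X.DD ξ ^ 2 + 2 * ((1 - X.r) ^ 2 * (M.G1 X.r (ξ 0)) ^ 2) := by
        nlinarith [sq_nonneg (X.DD ξ - (1 - X.r) * M.G1 X.r (ξ 0))]
      have h3 := mul_le_mul_of_nonneg_left h2 (sq_nonneg X.θ)
      linarith
    refine h1.trans ?_
    have iup2 : Integrable (fun ξ : ℕ → S => 4 * X.θ ^ 2 * X.DD ξ ^ 2
        + 4 * X.θ ^ 2 * ((1 - X.r) ^ 2 * (M.G1 X.r (ξ 0)) ^ 2)) M.P :=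
      (iD2.const_mul _).add ((ig2.const_mul _).const_mul _)
    rw [integral_add (integrable_const _) iup2,
      integral_add (iD2.const_mul _) ((ig2.const_mul _).const_mul _), integral_const,
      integral_const_mul, integral_const_mul, integral_const_mul]
    have e1 : ∫ ξ, X.DD ξ ^ 2 ∂M.P ≤ D0 := by
      have := hG.diff_sq
      refine le_trans (le_of_eq ?_) hD
      exact this
    have e2 : ∫ ξ, (M.G1 X.r (ξ 0)) ^ 2 ∂M.P = ∫ x, (M.G1 X.r x) ^ 2 ∂M.ν :=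
      M.toChain.integral_eval 0 (g := fun x => (M.G1 X.r x) ^ 2) (hG.m'.pow_const 2)
    rw [e2]
    rw [probReal_univ, one_smul]
    have h3 := mul_le_mul_of_nonneg_left e1 (by positivity : 0 ≤ 4 * X.θ ^ 2)
    linarith
  have c2 : ‖∫ ξ, T2 ξ ∂M.P‖ ≤ Real.sqrt (2 * X.y1) * Real.sqrt D0 := by
    refine (norm_integral_le_of_norm_le ?_ (Filter.Eventually.of_forall b2)).trans ?_
    · exact l10.norm.integrable_mul lD.abs
    · refine (stepA_cs l10 lD).trans ?_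
      refine mul_le_mul (Real.sqrt_le_sqrt X.diff_b_sq) (Real.sqrt_le_sqrt ?_)
        (Real.sqrt_nonneg _) (Real.sqrt_nonneg _)
      have := hG.diff_sq
      refine le_trans (le_of_eq ?_) hD
      exact this
  have c3 : ‖∫ ξ, T3 ξ ∂M.P‖ ≤ Real.sqrt (∫ x, (M.G1 X.r x) ^ 2 ∂M.ν) := by
    refine (norm_integral_le_of_norm_le (lg1.integrable (by norm_num)).abs
      (Filter.Eventually.of_forall b3)).trans ?_
    have h := stepA_cs (μ := M.P) (F := fun _ => (1 : ℂ)) (D := fun ξ : ℕ → S => M.G1 X.r (ξ 0))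
      (memLp_const _) lg1
    have e2 : ∫ ξ, (M.G1 X.r (ξ 0)) ^ 2 ∂M.P = ∫ x, (M.G1 X.r x) ^ 2 ∂M.ν :=
      M.toChain.integral_eval 0 (g := fun x => (M.G1 X.r x) ^ 2) (hG.m'.pow_const 2)
    simpa [e2] using h
  have c4 : ‖∫ ξ, H ξ ∂M.P‖ ≤ 1 := by
    have h := norm_integral_le_of_norm_le_const (μ := M.P) (f := H) (C := 1)
      (Filter.Eventually.of_forall bH)
    simpa using h
  have hy : X.y1 = ‖((X.y1 : ℝ) : ℂ)‖ := by
    rw [Complex.norm_real, Real.norm_eq_abs, abs_of_nonneg X.y1_nonneg']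
  have hρ : 0 ≤ 1 - X.ρ := by linarith [X.ρ_le_one]
  have hr : 0 ≤ 1 - X.r := by linarith [X.r_lt_one]
  have c23 : ‖∫ ξ, T2 ξ ∂M.P + ((1 - X.r : ℝ) : ℂ) * ∫ ξ, T3 ξ ∂M.P‖
      ≤ Real.sqrt (2 * X.y1) * Real.sqrt D0
        + (1 - X.r) * Real.sqrt (∫ x, (M.G1 X.r x) ^ 2 ∂M.ν) := by
    refine (norm_add_le _ _).trans (add_le_add c2 ?_)
    rw [norm_mul, Complex.norm_real, Real.norm_eq_abs, abs_of_nonneg hr]
    exact mul_le_mul_of_nonneg_left c3 hr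
  have c5 := mul_le_mul_of_nonneg_left c23 (abs_nonneg X.θ)
  have c6 := mul_le_mul_of_nonneg_left c4 hρ
  have fin : ‖((X.y1 : ℝ) : ℂ)‖ ≤ 2 * (1 - X.ρ)
      + 4 * X.θ ^ 2 * (D0 + (1 - X.r) ^ 2 * ∫ x, (M.G1 X.r x) ^ 2 ∂M.ν)
      + |X.θ| * (Real.sqrt (2 * X.y1) * Real.sqrt D0)
      + |X.θ| * ((1 - X.r) * Real.sqrt (∫ x, (M.G1 X.r x) ^ 2 ∂M.ν)) := by
    rw [key]
    refine (norm_sub_le _ _).trans ?_
    refine (add_le_add (norm_sub_le _ _) le_rfl).trans ?_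
    rw [norm_mul, norm_mul, norm_mul, Complex.norm_real, Complex.norm_real, Complex.norm_I,
      mul_one, Real.norm_eq_abs, Real.norm_eq_abs, abs_of_nonneg hρ]
    rw [mul_add] at c5
    linarith
  rw [← hy] at fin
  exact fin

end Ctx

/-- STEP A: `n ∫|Qb - b| ≤ D` -/
theorem Ctx.stepA (M : Model S) (lam s : ℝ) :
    ∃ D : ℝ, 0 < D ∧ ∀ X : Ctx M lam s, X.n * X.y1 ≤ D := by
  obtain ⟨D0, hD0, hD⟩ := M.D_bound
  refine ⟨2 * (2 * |s| + 4 * lam ^ 2 * (D0 + 1) + |lam|) + (|lam| * Real.sqrt (2 * D0)) ^ 2 + 1,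
    by positivity, fun X => ?_⟩
  have hn := X.n_pos
  have hm := X.m_pos
  have hm1 := X.one_le_m
  have hr2 : 1 / 2 ≤ X.r := half_le_rr X.I X.hI
  have hy := X.y1_le D0 (hD X.r hr2 X.r_lt_one).1
  set g := ∫ x, (M.G1 X.r x) ^ 2 ∂M.ν with hg
  have hg0 : 0 ≤ g := integral_nonneg fun x => sq_nonneg _
  have hgle : g ≤ X.m * M.e X.I := M.int_G1_le X.I
  have hem : 0 ≤ M.e X.I := M.e_nonneg _
  have hτ := X.τ_nonneg
  have hτ1 := X.hτ1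
  have hρ : (X.n : ℝ) * (1 - X.ρ) = s := by
    unfold Ctx.ρ
    field_simp
    ring
  have hθ2 : (X.n : ℝ) * X.θ ^ 2 = lam ^ 2 := by
    rw [X.θ_sq]; field_simp
  have hθ : (X.n : ℝ) * |X.θ| = |lam| * Real.sqrt X.n := by
    unfold Ctx.θ
    rw [abs_div, abs_of_nonneg (Real.sqrt_nonneg _)]
    have h1 : Real.sqrt X.n ≠ 0 := (Real.sqrt_pos.mpr hn).ne'
    have h2 : Real.sqrt X.n * Real.sqrt X.n = X.n := Real.mul_self_sqrt hn.le
    rw [mul_div_assoc', div_eq_iff h1, mul_assoc, h2, mul_comm]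
  -- `(1-r)² g ≤ 1`
  have h1 : (1 - X.r) ^ 2 * g ≤ X.m⁻¹ * M.e X.I := by
    rw [X.one_sub_r]
    calc X.m⁻¹ ^ 2 * g ≤ X.m⁻¹ ^ 2 * (X.m * M.e X.I) := by gcongr
      _ = X.m⁻¹ * M.e X.I := by field_simp
  have h2 : X.m⁻¹ * M.e X.I ≤ 1 := by
    have h3 : X.m⁻¹ ≤ 1 := inv_le_one_of_one_le₀ hm1
    have h4 : M.e X.I ≤ 1 := X.e_le.trans hτ1
    have h5 : 0 ≤ X.m⁻¹ := inv_nonneg.mpr hm.le
    calc X.m⁻¹ * M.e X.I ≤ 1 * 1 := mul_le_mul h3 h4 hem zero_le_one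
      _ = 1 := one_mul 1
  -- the last term
  have h6 : Real.sqrt X.n * ((1 - X.r) * Real.sqrt g) ≤ 1 := by
    have hr : 0 ≤ 1 - X.r := by linarith [X.r_lt_one]
    have e : Real.sqrt X.n * ((1 - X.r) * Real.sqrt g)
        = Real.sqrt (X.n * ((1 - X.r) ^ 2 * g)) := by
      rw [Real.sqrt_mul hn.le, Real.sqrt_mul (sq_nonneg _), Real.sqrt_sq hr]
    rw [e, Real.sqrt_le_one]
    calc (X.n : ℝ) * ((1 - X.r) ^ 2 * g) ≤ X.n * (X.m⁻¹ * M.e X.I) := by gcongr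
      _ = X.n / X.m * M.e X.I := by rw [div_eq_mul_inv]; ring
      _ ≤ X.τ := X.he'
      _ ≤ 1 := hτ1
  have hy0 := X.y1_nonneg'
  have h7 : Real.sqrt X.n * (Real.sqrt (2 * X.y1) * Real.sqrt D0)
      = Real.sqrt (2 * D0) * Real.sqrt (X.n * X.y1) := by
    rw [Real.sqrt_mul (by norm_num : (0:ℝ) ≤ 2), Real.sqrt_mul (by norm_num : (0:ℝ) ≤ 2),
      Real.sqrt_mul hn.le]
    ring
  have hmul := mul_le_mul_of_nonneg_left hy hn.le
  have key : X.n * X.y1 ≤ (2 * |s| + 4 * lam ^ 2 * (D0 + 1) + |lam|)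
      + (|lam| * Real.sqrt (2 * D0)) * Real.sqrt (X.n * X.y1) := by
    have e : (X.n : ℝ) * (2 * (1 - X.ρ) + 4 * X.θ ^ 2 * (D0 + (1 - X.r) ^ 2 * g)
        + |X.θ| * (Real.sqrt (2 * X.y1) * Real.sqrt D0) + |X.θ| * ((1 - X.r) * Real.sqrt g))
        = 2 * (X.n * (1 - X.ρ)) + 4 * (X.n * X.θ ^ 2) * (D0 + (1 - X.r) ^ 2 * g)
        + (X.n * |X.θ|) * (Real.sqrt (2 * X.y1) * Real.sqrt D0)
        + (X.n * |X.θ|) * ((1 - X.r) * Real.sqrt g) := by ring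
    rw [e, hρ, hθ2, hθ] at hmul
    have h8 : |lam| * Real.sqrt X.n * (Real.sqrt (2 * X.y1) * Real.sqrt D0)
        = (|lam| * Real.sqrt (2 * D0)) * Real.sqrt (X.n * X.y1) := by
      rw [mul_assoc, h7]; ring
    have h9 : |lam| * Real.sqrt X.n * ((1 - X.r) * Real.sqrt g) ≤ |lam| := by
      rw [mul_assoc]
      exact mul_le_of_le_one_right (abs_nonneg _) h6
    have h10 : 4 * lam ^ 2 * (D0 + (1 - X.r) ^ 2 * g) ≤ 4 * lam ^ 2 * (D0 + 1) := by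
      have : (1 - X.r) ^ 2 * g ≤ 1 := h1.trans h2
      gcongr
    have h11 := le_abs_self s
    rw [h8] at hmul
    linarith
  have hq := stepA_quad _ _ _ (mul_nonneg hn.le hy0) key
  linarith

end Pool.Agent.H45.CLT
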