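import Pool.Agent.H45.CLT.CtxY
import Pool.Agent.H45.CLT.StepA

/-!
# Module STEPCD: steps C, D
`Y² = (G*(x)+e)² - κ(y)² - 2κ(y)Y`; `G*²-κ² = f(2G*-f)`; `gap_A2` with `φ = G*²`, `D = K m`;
`stepA`; `gap_A1` and Cauchy-Schwarz; `Se_sq_le`; `Y_kappa`.
-/

set_option autoImplicit false

open MeasureTheory ProbabilityTheory
open scoped ENNReal NNReal

namespace Pool.Agent.H45.CLT

variable {S : Type} [MeasurableSpace S]

namespace StepCDAux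

variable {M : Model S} {lam s : ℝ} (X : Ctx M lam s)

theorem memLp_g : MemLp (fun p : ℕ × (ℕ → S) => M.Gs X.r (p.2 0)) 2 X.Θ :=
  M.toChain.memLp_x X.k 2 _ (M.memLp_Gs X.r X.r_nonneg X.r_lt_one)

theorem memLp_fx : MemLp (fun p : ℕ × (ℕ → S) => M.f (p.2 0)) 2 X.Θ :=
  M.toChain.memLp_x X.k 2 _ M.memLp_f

theorem memLp_e : MemLp M.Se 2 X.Θ := M.memLp_Se X.k

theorem memLp_Sl : MemLp M.Sl 2 X.Θ := by
  have h := (memLp_fx X).add (memLp_e X)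
  refine h.ae_eq (Filter.Eventually.of_forall fun p => ?_)
  exact (M.Sl_eq p).symm

theorem memLp_κy : MemLp (fun p : ℕ × (ℕ → S) => X.κ (p.2 (p.1 + 1))) 2 X.Θ :=
  M.toChain.memLp_y X.k 2 _ X.memLp_κ

theorem meas_bx : Measurable (fun p : ℕ × (ℕ → S) => X.b (p.2 0)) :=
  X.measurable_b.comp ((measurable_pi_apply 0).comp measurable_snd)

theorem meas_by : Measurable (fun p : ℕ × (ℕ → S) => X.b (p.2 (p.1 + 1))) :=
  X.measurable_b.comp measurable_y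

theorem int_bx {h : ℕ × (ℕ → S) → ℝ} (hh : Integrable h X.Θ) :
    Integrable (fun p => X.b (p.2 0) * ((h p : ℝ) : ℂ)) X.Θ :=
  L2.integrable_bmul (meas_bx X).aestronglyMeasurable 1 (fun p => X.norm_b_le _) hh

theorem int_by {h : ℕ × (ℕ → S) → ℝ} (hh : Integrable h X.Θ) :
    Integrable (fun p => X.b (p.2 (p.1 + 1)) * ((h p : ℝ) : ℂ)) X.Θ :=
  L2.integrable_bmul (meas_by X).aestronglyMeasurable 1 (fun p => X.norm_b_le _) hh

theorem lin5 {α : Type*} [MeasurableSpace α] {μ : Measure α} {F f1 f2 f3 f4 f5 : α → ℂ}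
    (h1 : Integrable f1 μ) (h2 : Integrable f2 μ) (h3 : Integrable f3 μ) (h4 : Integrable f4 μ)
    (h5 : Integrable f5 μ) (h : ∀ p, F p = f1 p + 2 * f2 p + f3 p - f4 p - 2 * f5 p) :
    ∫ p, F p ∂μ = ∫ p, f1 p ∂μ + 2 * ∫ p, f2 p ∂μ + ∫ p, f3 p ∂μ - ∫ p, f4 p ∂μ
      - 2 * ∫ p, f5 p ∂μ := by
  have e : F = ((f1 + fun p => 2 * f2 p) + f3 - f4) - fun p => 2 * f5 p := by
    funext p; exact h p
  rw [e, integral_sub' (((h1.add (h2.const_mul 2)).add h3).sub h4) (h5.const_mul 2),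
    integral_sub' ((h1.add (h2.const_mul 2)).add h3) h4, integral_add' (h1.add (h2.const_mul 2)) h3,
    integral_add' h1 (h2.const_mul 2), integral_const_mul, integral_const_mul]

theorem lin3 {α : Type*} [MeasurableSpace α] {μ : Measure α} {F f1 f2 f3 : α → ℂ}
    (h1 : Integrable f1 μ) (h2 : Integrable f2 μ) (h3 : Integrable f3 μ)
    (h : ∀ p, F p = f1 p - f2 p + f3 p) :
    ∫ p, F p ∂μ = ∫ p, f1 p ∂μ - ∫ p, f2 p ∂μ + ∫ p, f3 p ∂μ := by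
  have e : F = (f1 - f2) + f3 := by
    funext p; exact h p
  rw [e, integral_add' (h1.sub h2) h3, integral_sub' h1 h2]

end StepCDAux

open StepCDAux

/-- the exact identity behind step C/D -/
theorem Ctx.cd_identity {M : Model S} {lam s : ℝ} (X : Ctx M lam s) :
    ∫ p, X.b (p.2 (p.1 + 1)) * (((X.Y p) ^ 2 : ℝ) : ℂ) ∂X.Θ
      = (2 * X.J X.I - ∫ x, ((1 - X.k.χ x : ℝ) : ℂ) * X.b x * (((M.f x) ^ 2 : ℝ) : ℂ) ∂M.ν)
        + ∫ p, (((M.Gs X.r (p.2 0)) ^ 2 : ℝ) : ℂ) * (X.b (p.2 (p.1 + 1)) - X.b (p.2 0)) ∂X.Θ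
        + 2 * ∫ p, (X.b (p.2 (p.1 + 1)) - X.b (p.2 0))
            * ((M.Gs X.r (p.2 0) * M.Se p : ℝ) : ℂ) ∂X.Θ
        + ∫ p, X.b (p.2 (p.1 + 1)) * (((M.Se p) ^ 2 : ℝ) : ℂ) ∂X.Θ
        - 2 * ∫ p, X.b (p.2 (p.1 + 1)) * ((X.κ (p.2 (p.1 + 1)) * X.Y p : ℝ) : ℂ) ∂X.Θ := by
  have hg := memLp_g X
  have hf := memLp_fx X
  have he := memLp_e X
  have hS := memLp_Sl X
  have hκ := memLp_κy X
  have hY := X.memLp_Y
  have hr0 := X.r_nonneg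
  have hr1 := X.r_lt_one
  -- integrable pieces
  have iJ := int_bx X (L2.integrable_mul hg hS)
  have iA1 := int_bx X ((L2.integrable_mul hg hf).const_mul 2)
  have iA2 := int_bx X hg.integrable_sq
  have iA3 := int_by X hκ.integrable_sq
  have iB1y := int_by X hg.integrable_sq
  have iB2x := int_bx X (L2.integrable_mul hg he)
  have iB2y := int_by X (L2.integrable_mul hg he)
  have iB3 := int_by X he.integrable_sq
  have iB4 := int_by X (L2.integrable_mul hκ hY)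
  -- rewriting the two differences
  have eB1 : ∫ p, (((M.Gs X.r (p.2 0)) ^ 2 : ℝ) : ℂ) * (X.b (p.2 (p.1 + 1)) - X.b (p.2 0)) ∂X.Θ
      = ∫ p, X.b (p.2 (p.1 + 1)) * (((M.Gs X.r (p.2 0)) ^ 2 : ℝ) : ℂ) ∂X.Θ
        - ∫ p, X.b (p.2 0) * (((M.Gs X.r (p.2 0)) ^ 2 : ℝ) : ℂ) ∂X.Θ := by
    rw [← integral_sub iB1y iA2]
    refine integral_congr_ae (Filter.Eventually.of_forall fun p => ?_)
    show _ = _
    ring
  have eB2 : ∫ p, (X.b (p.2 (p.1 + 1)) - X.b (p.2 0))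
            * ((M.Gs X.r (p.2 0) * M.Se p : ℝ) : ℂ) ∂X.Θ
      = ∫ p, X.b (p.2 (p.1 + 1)) * ((M.Gs X.r (p.2 0) * M.Se p : ℝ) : ℂ) ∂X.Θ
        - ∫ p, X.b (p.2 0) * ((M.Gs X.r (p.2 0) * M.Se p : ℝ) : ℂ) ∂X.Θ := by
    rw [← integral_sub iB2y iB2x]
    refine integral_congr_ae (Filter.Eventually.of_forall fun p => ?_)
    show _ = _
    ring
  -- the decomposition of `J`
  have eJ : X.J X.I = ∫ p, X.b (p.2 0) * ((M.Gs X.r (p.2 0) * M.Se p : ℝ) : ℂ) ∂X.Θ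
      + (1 / 2) * ∫ p, X.b (p.2 0) * ((2 * (M.Gs X.r (p.2 0) * M.f (p.2 0)) : ℝ) : ℂ) ∂X.Θ := by
    rw [← integral_const_mul, ← integral_add iB2x (iA1.const_mul _)]
    unfold Ctx.J
    refine integral_congr_ae (Filter.Eventually.of_forall fun p => ?_)
    show X.b (p.2 0) * ((M.Gs (rr X.I) (p.2 0) * M.Sl p : ℝ) : ℂ) = _
    rw [M.Sl_eq p]
    have : rr X.I = X.r := rfl
    rw [this]
    push_cast
    ring
  -- marginals
  have hνm : ∀ φ : S → ℝ, Measurable φ →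
      AEStronglyMeasurable (fun x => X.b x * ((φ x : ℝ) : ℂ)) M.ν := fun φ hφ =>
    (X.measurable_b.mul (Complex.measurable_ofReal.comp hφ)).aestronglyMeasurable
  have mG := M.measurable_Gs X.r hr0 hr1
  have mA1 : ∫ p, X.b (p.2 0) * ((2 * (M.Gs X.r (p.2 0) * M.f (p.2 0)) : ℝ) : ℂ) ∂X.Θ
      = ∫ x, (1 - X.k.χ x) • (X.b x * ((2 * (M.Gs X.r x * M.f x) : ℝ) : ℂ)) ∂M.ν :=
    M.toChain.integral_x X.k (fun x => X.b x * ((2 * (M.Gs X.r x * M.f x) : ℝ) : ℂ))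
      (hνm (fun x => 2 * (M.Gs X.r x * M.f x)) ((mG.mul M.measurable_f).const_mul 2))
  have mA2 : ∫ p, X.b (p.2 0) * (((M.Gs X.r (p.2 0)) ^ 2 : ℝ) : ℂ) ∂X.Θ
      = ∫ x, (1 - X.k.χ x) • (X.b x * (((M.Gs X.r x) ^ 2 : ℝ) : ℂ)) ∂M.ν :=
    M.toChain.integral_x X.k (fun x => X.b x * (((M.Gs X.r x) ^ 2 : ℝ) : ℂ))
      (hνm (fun x => (M.Gs X.r x) ^ 2) (mG.pow_const 2))
  have mA3 : ∫ p, X.b (p.2 (p.1 + 1)) * (((X.κ (p.2 (p.1 + 1))) ^ 2 : ℝ) : ℂ) ∂X.Θ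
      = ∫ x, (1 - X.k.χ x) • (X.b x * (((X.κ x) ^ 2 : ℝ) : ℂ)) ∂M.ν :=
    M.toChain.integral_y X.k (fun x => X.b x * (((X.κ x) ^ 2 : ℝ) : ℂ))
      (hνm (fun x => (X.κ x) ^ 2) (X.measurable_κ.pow_const 2))
  have hcν : ∀ h : S → ℝ, Measurable h → Integrable h M.ν →
      Integrable (fun x => (1 - X.k.χ x) • (X.b x * ((h x : ℝ) : ℂ))) M.ν := by
    intro h hm hh
    have h1 : Integrable (fun x => X.b x * ((h x : ℝ) : ℂ)) M.ν :=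
      L2.integrable_bmul X.measurable_b.aestronglyMeasurable 1 (fun x => X.norm_b_le _) hh
    refine h1.mono ?_ (Filter.Eventually.of_forall fun x => ?_)
    · exact ((measurable_const.sub X.k.hm).smul
        (X.measurable_b.mul (Complex.measurable_ofReal.comp hm))).aestronglyMeasurable
    · rw [norm_smul, Real.norm_of_nonneg (X.one_sub_χ_nonneg x)]
      exact mul_le_of_le_one_left (norm_nonneg _) (X.one_sub_χ_le x)
  have hGs2 := (M.memLp_Gs X.r hr0 hr1)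
  have eA : ∫ x, ((1 - X.k.χ x : ℝ) : ℂ) * X.b x * (((M.f x) ^ 2 : ℝ) : ℂ) ∂M.ν
      = ∫ p, X.b (p.2 0) * ((2 * (M.Gs X.r (p.2 0) * M.f (p.2 0)) : ℝ) : ℂ) ∂X.Θ
      - ∫ p, X.b (p.2 0) * (((M.Gs X.r (p.2 0)) ^ 2 : ℝ) : ℂ) ∂X.Θ
      + ∫ p, X.b (p.2 (p.1 + 1)) * (((X.κ (p.2 (p.1 + 1))) ^ 2 : ℝ) : ℂ) ∂X.Θ := by
    rw [mA1, mA2, mA3]
    refine lin3 (hcν (fun x => 2 * (M.Gs X.r x * M.f x)) ((mG.mul M.measurable_f).const_mul 2)
      ((L2.integrable_mul hGs2 M.memLp_f).const_mul 2))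
      (hcν (fun x => (M.Gs X.r x) ^ 2) (mG.pow_const 2) hGs2.integrable_sq)
      (hcν (fun x => (X.κ x) ^ 2) (X.measurable_κ.pow_const 2) X.memLp_κ.integrable_sq) ?_
    intro x
    rw [X.κ_eq x]
    simp only [Complex.real_smul]
    push_cast
    ring
  -- the left side
  have eL : ∫ p, X.b (p.2 (p.1 + 1)) * (((X.Y p) ^ 2 : ℝ) : ℂ) ∂X.Θ
      = ∫ p, X.b (p.2 (p.1 + 1)) * (((M.Gs X.r (p.2 0)) ^ 2 : ℝ) : ℂ) ∂X.Θ
        + 2 * ∫ p, X.b (p.2 (p.1 + 1)) * ((M.Gs X.r (p.2 0) * M.Se p : ℝ) : ℂ) ∂X.Θ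
        + ∫ p, X.b (p.2 (p.1 + 1)) * (((M.Se p) ^ 2 : ℝ) : ℂ) ∂X.Θ
        - ∫ p, X.b (p.2 (p.1 + 1)) * (((X.κ (p.2 (p.1 + 1))) ^ 2 : ℝ) : ℂ) ∂X.Θ
        - 2 * ∫ p, X.b (p.2 (p.1 + 1)) * ((X.κ (p.2 (p.1 + 1)) * X.Y p : ℝ) : ℂ) ∂X.Θ := by
    refine lin5 iB1y iB2y iB3 iA3 iB4 ?_
    intro p
    have hYe : X.Y p = M.Gs X.r (p.2 0) + M.Se p - X.κ (p.2 (p.1 + 1)) := rfl
    rw [hYe]
    push_cast
    ring
  rw [eL, eB1, eB2, eJ, eA]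
  ring

namespace StepCDAux

variable {M : Model S} {lam s : ℝ} (X : Ctx M lam s)

/-- `(1-χ) G*² ≤ A + C` on `B` -/
theorem cGs_le {x : S} (hx : x ∈ M.B X.K) :
    (1 - X.k.χ x) * (M.Gs X.r x) ^ 2 ≤ M.A x + M.C x := by
  rw [X.one_sub_χ_mem hx]
  have h1 := X.Gs_sq_le x
  have h2 := X.m_pos
  have h3 := M.C_nonneg x
  calc X.m⁻¹ * (M.Gs X.r x) ^ 2 ≤ X.m⁻¹ * (X.m * M.A x) :=
        mul_le_mul_of_nonneg_left h1 (inv_nonneg.2 h2.le)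
    _ = M.A x := by rw [← mul_assoc, inv_mul_cancel₀ h2.ne', one_mul]
    _ ≤ _ := by linarith

theorem integrable_cGs : Integrable (fun x => (1 - X.k.χ x) * (M.Gs X.r x) ^ 2) M.ν := by
  have h1 := (M.memLp_Gs X.r X.r_nonneg X.r_lt_one).integrable_sq
  refine h1.mono ?_ (Filter.Eventually.of_forall fun x => ?_)
  · exact ((measurable_const.sub X.k.hm).mul
      ((M.measurable_Gs X.r X.r_nonneg X.r_lt_one).pow_const 2)).aestronglyMeasurable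
  · rw [norm_mul, Real.norm_of_nonneg (X.one_sub_χ_nonneg x)]
    exact mul_le_of_le_one_left (norm_nonneg _) (X.one_sub_χ_le x)

/-- `∫_B (1-χ) G*² ≤ τ` -/
theorem int_B_cGs : ∫ x in M.B X.K, (1 - X.k.χ x) * (M.Gs X.r x) ^ 2 ∂M.ν ≤ X.τ := by
  refine le_trans ?_ X.hδ
  unfold Model.δ
  exact setIntegral_mono_on (integrable_cGs X).integrableOn M.integrable_AC.integrableOn
    (M.measurableSet_B _) fun x hx => cGs_le X hx

theorem y1_nonneg : 0 ≤ X.y1 := integral_nonneg fun x => norm_nonneg _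

/-- `K m y1 ≤ D τ` -/
theorem Kmy1_le {D : ℝ} (hD : X.n * X.y1 ≤ D) : X.K * X.m * X.y1 ≤ D * X.τ := by
  have h1 := X.n_pos
  have h2 := X.hN'
  have h3 := y1_nonneg X
  have h4 : 0 ≤ X.K * X.m / X.n := by
    have := X.m_pos
    have := X.hK
    positivity
  calc X.K * X.m * X.y1 = (X.K * X.m / X.n) * (X.n * X.y1) := by field_simp
    _ ≤ X.τ * D := mul_le_mul h2 hD (by positivity) X.τ_nonneg
    _ = D * X.τ := mul_comm _ _

theorem B1_le {D : ℝ} (hD : X.n * X.y1 ≤ D) :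
    ‖∫ p, (((M.Gs X.r (p.2 0)) ^ 2 : ℝ) : ℂ) * (X.b (p.2 (p.1 + 1)) - X.b (p.2 0)) ∂X.Θ‖
      ≤ (D + 2) * X.τ := by
  have hGm := M.measurable_Gs X.r X.r_nonneg X.r_lt_one
  have hG2 := (M.memLp_Gs X.r X.r_nonneg X.r_lt_one).integrable_sq
  have h := M.toChain.gap_A2 X.k X.b X.measurable_b X.norm_b_le
    (fun x => (((M.Gs X.r x) ^ 2 : ℝ) : ℂ)) (Complex.measurable_ofReal.comp (hGm.pow_const 2))
    hG2.ofReal (M.B X.K) (M.measurableSet_B _) (X.K * X.m) (fun x hx => by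
      rw [Complex.norm_real, Real.norm_of_nonneg (sq_nonneg _)]
      refine (X.Gs_sq_le x).trans ?_
      rw [mul_comm]
      exact mul_le_mul_of_nonneg_right (X.A_le hx) X.m_pos.le)
    (by have := X.m_pos; have := X.hK; positivity)
  refine h.trans ?_
  have h1 : ∫ x in M.B X.K, (1 - X.k.χ x) * ‖(((M.Gs X.r x) ^ 2 : ℝ) : ℂ)‖ ∂M.ν ≤ X.τ := by
    refine le_trans (le_of_eq ?_) (int_B_cGs X)
    refine integral_congr_ae (Filter.Eventually.of_forall fun x => ?_)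
    show (1 - X.k.χ x) * ‖(((M.Gs X.r x) ^ 2 : ℝ) : ℂ)‖ = _
    rw [Complex.norm_real, Real.norm_of_nonneg (sq_nonneg _)]
  have h2 := Kmy1_le X hD
  unfold Ctx.y1 at h2
  linarith

/-- `∫ 1_B(x) G*(x)² dΘ ≤ τ` -/
theorem int_B_g : ∫ p, (M.B X.K).indicator (fun x => (M.Gs X.r x) ^ 2) (p.2 0) ∂X.Θ ≤ X.τ := by
  have hGm := M.measurable_Gs X.r X.r_nonneg X.r_lt_one
  have h := M.toChain.integral_x X.k ((M.B X.K).indicator (fun x => (M.Gs X.r x) ^ 2))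
    ((hGm.pow_const 2).indicator (M.measurableSet_B _)).aestronglyMeasurable
  have h1 : ∫ p, (M.B X.K).indicator (fun x => (M.Gs X.r x) ^ 2) (p.2 0) ∂X.Θ
      = ∫ x, (1 - X.k.χ x) • (M.B X.K).indicator (fun x => (M.Gs X.r x) ^ 2) x ∂M.ν := h
  rw [h1]
  refine le_trans (le_of_eq ?_) (int_B_cGs X)
  rw [← integral_indicator (M.measurableSet_B _)]
  refine integral_congr_ae (Filter.Eventually.of_forall fun x => ?_)
  by_cases hx : x ∈ M.B X.K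
  · simp [Set.indicator_of_mem hx]
  · simp [Set.indicator_of_notMem hx]

theorem B2_le {D : ℝ} (hD : X.n * X.y1 ≤ D) :
    ‖∫ p, (X.b (p.2 (p.1 + 1)) - X.b (p.2 0))
            * ((M.Gs X.r (p.2 0) * M.Se p : ℝ) : ℂ) ∂X.Θ‖
      ≤ 5 * Real.sqrt (2 * D + 4) * X.τ := by
  have hD0 : 0 ≤ D := le_trans (mul_nonneg X.n_pos.le (y1_nonneg X)) hD
  have hτ := X.τ_nonneg
  have hg := memLp_g X
  have he := memLp_e X
  have hmK : 0 ≤ X.K * X.m := by have := X.m_pos; have := X.hK; positivity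
  set F : ℕ × (ℕ → S) → ℝ := fun p => ‖X.b (p.2 (p.1 + 1)) - X.b (p.2 0)‖ * M.Gs X.r (p.2 0) with hF
  have hnm : Measurable (fun p : ℕ × (ℕ → S) => ‖X.b (p.2 (p.1 + 1)) - X.b (p.2 0)‖) :=
    ((meas_by X).sub (meas_bx X)).norm
  have hb2 : ∀ p : ℕ × (ℕ → S), ‖X.b (p.2 (p.1 + 1)) - X.b (p.2 0)‖ ≤ 2 := fun p =>
    (norm_sub_le _ _).trans (by linarith [X.norm_b_le (p.2 (p.1 + 1)), X.norm_b_le (p.2 0)])
  have hFm : MemLp F 2 X.Θ := by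
    refine (hg.const_mul 2).of_le (hnm.aestronglyMeasurable.mul hg.1)
      (Filter.Eventually.of_forall fun p => ?_)
    simp only [hF, norm_mul, norm_norm]
    rw [Real.norm_of_nonneg (by norm_num : (0 : ℝ) ≤ 2)]
    exact mul_le_mul_of_nonneg_right (hb2 p) (norm_nonneg _)
  -- bound for `∫ F²`
  have hA1 := M.toChain.gap_A1 X.k X.b X.measurable_b X.norm_b_le
  have hA1' : ∫ p, ‖X.b (p.2 (p.1 + 1)) - X.b (p.2 0)‖ ^ 2 ∂X.Θ ≤ 2 * X.y1 := hA1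
  have i1 : Integrable (fun p : ℕ × (ℕ → S) => ‖X.b (p.2 (p.1 + 1)) - X.b (p.2 0)‖ ^ 2) X.Θ := by
    refine Integrable.of_bound (hnm.pow_const 2).aestronglyMeasurable 4
      (Filter.Eventually.of_forall fun p => ?_)
    rw [Real.norm_of_nonneg (sq_nonneg _)]
    nlinarith [hb2 p, norm_nonneg (X.b (p.2 (p.1 + 1)) - X.b (p.2 0))]
  have hind : MeasurableSet (M.B X.K) := M.measurableSet_B _
  have i2 : Integrable (fun p : ℕ × (ℕ → S) =>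
      (M.B X.K).indicator (fun x => (M.Gs X.r x) ^ 2) (p.2 0)) X.Θ := by
    have h0 : MemLp ((M.B X.K).indicator (fun x => (M.Gs X.r x) ^ 2)) 1 M.ν :=
      memLp_one_iff_integrable.2
        ((M.memLp_Gs X.r X.r_nonneg X.r_lt_one).integrable_sq.indicator hind)
    exact memLp_one_iff_integrable.1 (M.toChain.memLp_x X.k 1 _ h0)
  have hFsq : ∫ p, (F p) ^ 2 ∂X.Θ ≤ (2 * D + 4) * X.τ := by
    have hpt : ∀ p : ℕ × (ℕ → S), (F p) ^ 2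
        ≤ X.K * X.m * ‖X.b (p.2 (p.1 + 1)) - X.b (p.2 0)‖ ^ 2
          + 4 * (M.B X.K).indicator (fun x => (M.Gs X.r x) ^ 2) (p.2 0) := by
      intro p
      simp only [hF, mul_pow]
      by_cases hx : p.2 0 ∈ M.B X.K
      · rw [Set.indicator_of_mem hx]
        have h1 : ‖X.b (p.2 (p.1 + 1)) - X.b (p.2 0)‖ ^ 2 ≤ 4 := by
          nlinarith [hb2 p, norm_nonneg (X.b (p.2 (p.1 + 1)) - X.b (p.2 0))]
        have h2 : 0 ≤ X.K * X.m * ‖X.b (p.2 (p.1 + 1)) - X.b (p.2 0)‖ ^ 2 := by positivity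
        nlinarith [sq_nonneg (M.Gs X.r (p.2 0))]
      · rw [Set.indicator_of_notMem hx, mul_zero, add_zero, mul_comm]
        refine mul_le_mul_of_nonneg_right ?_ (sq_nonneg _)
        refine (X.Gs_sq_le _).trans ?_
        rw [mul_comm]
        exact mul_le_mul_of_nonneg_right (X.A_le hx) X.m_pos.le
    have h1 : ∫ p, (F p) ^ 2 ∂X.Θ
        ≤ ∫ p, (X.K * X.m * ‖X.b (p.2 (p.1 + 1)) - X.b (p.2 0)‖ ^ 2
          + 4 * (M.B X.K).indicator (fun x => (M.Gs X.r x) ^ 2) (p.2 0)) ∂X.Θ :=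
      integral_mono hFm.integrable_sq ((i1.const_mul _).add (i2.const_mul _)) hpt
    rw [integral_add (i1.const_mul _) (i2.const_mul _), integral_const_mul,
      integral_const_mul] at h1
    have h2 := Kmy1_le X hD
    have h3 := int_B_g X
    have h4 : X.K * X.m * ∫ p, ‖X.b (p.2 (p.1 + 1)) - X.b (p.2 0)‖ ^ 2 ∂X.Θ
        ≤ X.K * X.m * (2 * X.y1) := mul_le_mul_of_nonneg_left hA1' hmK
    linarith
  -- conclusion
  have hpt2 : ∀ p : ℕ × (ℕ → S), ‖(X.b (p.2 (p.1 + 1)) - X.b (p.2 0))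
            * ((M.Gs X.r (p.2 0) * M.Se p : ℝ) : ℂ)‖ = |F p| * |M.Se p| := by
    intro p
    rw [norm_mul, Complex.norm_real, Real.norm_eq_abs, abs_mul]
    simp only [hF, abs_mul, abs_norm]
    ring
  calc ‖∫ p, (X.b (p.2 (p.1 + 1)) - X.b (p.2 0))
            * ((M.Gs X.r (p.2 0) * M.Se p : ℝ) : ℂ) ∂X.Θ‖
      ≤ ∫ p, |F p| * |M.Se p| ∂X.Θ := by
        refine (norm_integral_le_integral_norm _).trans (le_of_eq ?_)
        exact integral_congr_ae (Filter.Eventually.of_forall hpt2)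
    _ ≤ Real.sqrt (∫ p, (F p) ^ 2 ∂X.Θ) * Real.sqrt (∫ p, (M.Se p) ^ 2 ∂X.Θ) := L2.cs hFm he
    _ ≤ Real.sqrt ((2 * D + 4) * X.τ) * Real.sqrt (25 * X.τ) :=
        mul_le_mul (Real.sqrt_le_sqrt hFsq) (Real.sqrt_le_sqrt X.Se_sq_le) (Real.sqrt_nonneg _)
          (Real.sqrt_nonneg _)
    _ = 5 * Real.sqrt (2 * D + 4) * X.τ := by
        rw [Real.sqrt_mul (by positivity), Real.sqrt_mul (by norm_num)]
        have h1 : Real.sqrt 25 = 5 := by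
          rw [show (25 : ℝ) = 5 ^ 2 by norm_num]
          exact Real.sqrt_sq (by norm_num)
        rw [h1]
        have h2 : Real.sqrt X.τ * Real.sqrt X.τ = X.τ := Real.mul_self_sqrt hτ
        calc Real.sqrt (2 * D + 4) * Real.sqrt X.τ * (5 * Real.sqrt X.τ)
            = 5 * Real.sqrt (2 * D + 4) * (Real.sqrt X.τ * Real.sqrt X.τ) := by ring
          _ = _ := by rw [h2]

theorem B3_le : ‖∫ p, X.b (p.2 (p.1 + 1)) * (((M.Se p) ^ 2 : ℝ) : ℂ) ∂X.Θ‖ ≤ 25 * X.τ := by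
  refine (L2.norm_integral_bmul_le (fun p => X.norm_b_le _) (memLp_e X).integrable_sq).trans ?_
  refine le_trans (le_of_eq ?_) X.Se_sq_le
  refine integral_congr_ae (Filter.Eventually.of_forall fun p => ?_)
  exact abs_of_nonneg (sq_nonneg (M.Se p))

end StepCDAux

/-- STEPS C, D: `E_Θ[b(y)Y²] = 2 J(r_I) - ∫ c b f² + O(√τ)` -/
theorem Ctx.stepCD (M : Model S) (lam s : ℝ) :
    ∃ D : ℝ, 0 < D ∧ ∀ X : Ctx M lam s,
      ‖∫ p, X.b (p.2 (p.1 + 1)) * (((X.Y p) ^ 2 : ℝ) : ℂ) ∂X.Θ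
        - (2 * X.J X.I
          - ∫ x, ((1 - X.k.χ x : ℝ) : ℂ) * X.b x * (((M.f x) ^ 2 : ℝ) : ℂ) ∂M.ν)‖
        ≤ D * Real.sqrt X.τ := by
  obtain ⟨D, hD0, hD⟩ := Ctx.stepA M lam s
  refine ⟨(D + 2) + 2 * (5 * Real.sqrt (2 * D + 4)) + 25 + 4, by positivity, fun X => ?_⟩
  have h1 := B1_le X (hD X)
  have h2 := B2_le X (hD X)
  have h3 := B3_le X
  have h4 := X.Y_kappa
  have hτ := X.τ_nonneg
  have hτ1 := X.hτ1
  have hsq : X.τ ≤ Real.sqrt X.τ := by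
    rw [Real.le_sqrt hτ hτ]
    nlinarith
  rw [X.cd_identity]
  set a := ∫ p, (((M.Gs X.r (p.2 0)) ^ 2 : ℝ) : ℂ) * (X.b (p.2 (p.1 + 1)) - X.b (p.2 0)) ∂X.Θ
  set b := ∫ p, (X.b (p.2 (p.1 + 1)) - X.b (p.2 0)) * ((M.Gs X.r (p.2 0) * M.Se p : ℝ) : ℂ) ∂X.Θ
  set c := ∫ p, X.b (p.2 (p.1 + 1)) * (((M.Se p) ^ 2 : ℝ) : ℂ) ∂X.Θ
  set d := ∫ p, X.b (p.2 (p.1 + 1)) * ((X.κ (p.2 (p.1 + 1)) * X.Y p : ℝ) : ℂ) ∂X.Θ
  set J := 2 * X.J X.I - ∫ x, ((1 - X.k.χ x : ℝ) : ℂ) * X.b x * (((M.f x) ^ 2 : ℝ) : ℂ) ∂M.ν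
  have e1 : J + a + 2 * b + c - 2 * d - J = a + 2 * b + c - 2 * d := by ring
  rw [e1]
  have n1 : ‖a + 2 * b + c - 2 * d‖ ≤ ‖a‖ + 2 * ‖b‖ + ‖c‖ + 2 * ‖d‖ := by
    refine (norm_sub_le _ _).trans ?_
    refine add_le_add ((norm_add_le _ _).trans (add_le_add ((norm_add_le _ _).trans
      (add_le_add le_rfl ?_)) le_rfl)) ?_
    · rw [norm_mul]; simp
    · rw [norm_mul]; simp
  have hs0 : 0 ≤ Real.sqrt (2 * D + 4) := Real.sqrt_nonneg _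
  calc ‖a + 2 * b + c - 2 * d‖ ≤ ‖a‖ + 2 * ‖b‖ + ‖c‖ + 2 * ‖d‖ := n1
    _ ≤ (D + 2) * X.τ + 2 * (5 * Real.sqrt (2 * D + 4) * X.τ) + 25 * X.τ + 2 * (2 * X.τ) := by
        linarith
    _ = ((D + 2) + 2 * (5 * Real.sqrt (2 * D + 4)) + 25 + 4) * X.τ := by ring
    _ ≤ _ := mul_le_mul_of_nonneg_left hsq (by positivity)

end Pool.Agent.H45.CLT
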