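import Mathlib

/-!
# Small `L²` toolbox (general measure spaces)
-/

set_option autoImplicit false

open MeasureTheory

namespace Pool.Agent.H45.CLT.L2

variable {α : Type*} [MeasurableSpace α] {μ : Measure α}

/-- Cauchy–Schwarz -/
theorem cs {f g : α → ℝ} (hf : MemLp f 2 μ) (hg : MemLp g 2 μ) :
    ∫ x, |f x| * |g x| ∂μ ≤ Real.sqrt (∫ x, (f x) ^ 2 ∂μ) * Real.sqrt (∫ x, (g x) ^ 2 ∂μ) := by
  have h := integral_mul_le_Lp_mul_Lq_of_nonneg (μ := μ) (p := 2) (q := 2)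
    (f := fun x => |f x|) (g := fun x => |g x|)
    (Real.holderConjugate_iff.mpr ⟨by norm_num, by norm_num⟩)
    (Filter.Eventually.of_forall fun x => abs_nonneg _)
    (Filter.Eventually.of_forall fun x => abs_nonneg _)
    (by rw [show ENNReal.ofReal 2 = 2 by norm_num]; exact hf.abs)
    (by rw [show ENNReal.ofReal 2 = 2 by norm_num]; exact hg.abs)
  simpa [Real.sqrt_eq_rpow] using h

theorem cs_abs {f g : α → ℝ} (hf : MemLp f 2 μ) (hg : MemLp g 2 μ) :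
    |∫ x, f x * g x ∂μ| ≤ Real.sqrt (∫ x, (f x) ^ 2 ∂μ) * Real.sqrt (∫ x, (g x) ^ 2 ∂μ) := by
  refine le_trans ?_ (cs hf hg)
  refine (abs_integral_le_integral_abs).trans (le_of_eq ?_)
  simp only [abs_mul]

theorem integrable_mul {f g : α → ℝ} (hf : MemLp f 2 μ) (hg : MemLp g 2 μ) :
    Integrable (fun x => f x * g x) μ := hf.integrable_mul hg

/-- complex weights bounded by one -/
theorem integrable_bmul {b : α → ℂ} (hb : AEStronglyMeasurable b μ) (D : ℝ)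
    (hb1 : ∀ x, ‖b x‖ ≤ D) {h : α → ℝ} (hh : Integrable h μ) :
    Integrable (fun x => b x * ((h x : ℝ) : ℂ)) μ := by
  have h1 : Integrable (fun x => ((h x : ℝ) : ℂ)) μ := hh.ofReal
  exact h1.bdd_mul hb (Filter.Eventually.of_forall hb1)

theorem norm_integral_bmul_le {b : α → ℂ} (hb1 : ∀ x, ‖b x‖ ≤ 1) {h : α → ℝ}
    (hh : Integrable h μ) :
    ‖∫ x, b x * ((h x : ℝ) : ℂ) ∂μ‖ ≤ ∫ x, |h x| ∂μ := by
  refine (norm_integral_le_integral_norm _).trans ?_
  refine integral_mono_of_nonneg (Filter.Eventually.of_forall fun x => norm_nonneg _) hh.abs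
    (Filter.Eventually.of_forall fun x => ?_)
  simp only [norm_mul, Complex.norm_real, Real.norm_eq_abs]
  exact mul_le_of_le_one_left (abs_nonneg _) (hb1 x)

theorem norm_cs {b : α → ℂ} (hb1 : ∀ x, ‖b x‖ ≤ 1) {f g : α → ℝ}
    (hf : MemLp f 2 μ) (hg : MemLp g 2 μ) :
    ‖∫ x, b x * ((f x * g x : ℝ) : ℂ) ∂μ‖
      ≤ Real.sqrt (∫ x, (f x) ^ 2 ∂μ) * Real.sqrt (∫ x, (g x) ^ 2 ∂μ) := by
  refine (norm_integral_bmul_le hb1 (integrable_mul hf hg)).trans ?_
  refine le_trans (le_of_eq ?_) (cs hf hg)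
  simp only [abs_mul]

/-- `∫ (f+g)² ≤ 2∫f² + 2∫g²` -/
theorem sq_add_le {f g : α → ℝ} (hf : MemLp f 2 μ) (hg : MemLp g 2 μ) :
    ∫ x, (f x + g x) ^ 2 ∂μ ≤ 2 * ∫ x, (f x) ^ 2 ∂μ + 2 * ∫ x, (g x) ^ 2 ∂μ := by
  have h1 : Integrable (fun x => (f x) ^ 2) μ := hf.integrable_sq
  have h2 : Integrable (fun x => (g x) ^ 2) μ := hg.integrable_sq
  rw [← integral_const_mul, ← integral_const_mul, ← integral_add (h1.const_mul 2) (h2.const_mul 2)]
  refine integral_mono_of_nonneg (Filter.Eventually.of_forall fun x => sq_nonneg _)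
    ((h1.const_mul 2).add (h2.const_mul 2)) (Filter.Eventually.of_forall fun x => ?_)
  simp only
  nlinarith [sq_nonneg (f x - g x)]

/-- from a bound on the lintegral of the square to a bound on the integral -/
theorem integral_sq_le_of_lintegral {f : α → ℝ} (hf : AEStronglyMeasurable f μ) (D : ℝ)
    (hD0 : 0 ≤ D) (h : ∫⁻ x, ENNReal.ofReal ((f x) ^ 2) ∂μ ≤ ENNReal.ofReal D) :
    ∫ x, (f x) ^ 2 ∂μ ≤ D := by
  rw [integral_eq_lintegral_of_nonneg_ae (Filter.Eventually.of_forall fun x => sq_nonneg _)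
    (hf.pow 2)]
  exact ENNReal.toReal_le_of_le_ofReal hD0 h

/-- from a finite lintegral of the square to `L²` -/
theorem memLp_of_lintegral {f : α → ℝ} (hf : AEStronglyMeasurable f μ)
    (h : ∫⁻ x, ENNReal.ofReal ((f x) ^ 2) ∂μ < ⊤) : MemLp f 2 μ := by
  rw [memLp_two_iff_integrable_sq hf]
  refine ⟨hf.pow 2, ?_⟩
  rw [hasFiniteIntegral_iff_ofReal (Filter.Eventually.of_forall fun x => sq_nonneg _)]
  exact h

theorem integral_abs_le_sqrt [IsProbabilityMeasure μ] {f : α → ℝ} (hf2 : MemLp f 2 μ) :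
    ∫ x, |f x| ∂μ ≤ Real.sqrt (∫ x, (f x) ^ 2 ∂μ) := by
  have h := cs hf2 (memLp_const (1 : ℝ))
  simpa using h

end Pool.Agent.H45.CLT.L2
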