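import Pool.Agent.H45.CLT.Ctx
import Pool.Agent.H45.CLT.L2

/-!
# Module CTXY: the variable `Y`
`Y = D̂* + â*` with the backward pair `(G*, Q*G*)` (`f = G* - r Q*G*`).  `as_sq_le`: `Θ_len_sum`.
`Y_first_order`: `Bwd.gap_orth` and `Θ_T1`.  `Y_kappa`: `Bwd.gap_orth` with `φ = b κ` and `Θ_cs1` with
`F = κ(y)`, `len_y_le` with `φ = κ²`, `D = K m`: `(1-r) √(m(e_I+2δ)) √(m e_I) ≤ 2τ`.
-/

set_option autoImplicit false

open MeasureTheory ProbabilityTheory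
open scoped ENNReal NNReal

namespace Pool.Agent.H45.CLT

variable {S : Type} [MeasurableSpace S]

/-- joint measurability of finite sums over the gap -/
theorem measurable_gap_sum (X : ℕ → (ℕ → S) → ℝ) (hX : ∀ i, Measurable (X i)) (d : ℕ) :
    Measurable (fun p : ℕ × (ℕ → S) => ∑ i ∈ Finset.range (p.1 + d), X i p.2) := by
  refine measurable_from_prod_countable_right fun j => ?_
  show Measurable fun ξ : ℕ → S => ∑ i ∈ Finset.range (j + d), X i ξ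
  exact Finset.measurable_sum (Finset.range (j + d)) fun i _ => hX i

theorem Model.measurable_Se (M : Model S) : Measurable M.Se :=
  measurable_gap_sum (fun i ξ => M.f (ξ (i + 1)))
    (fun i => M.measurable_f.comp (measurable_pi_apply (i + 1))) 0

theorem Model.measurable_Sl (M : Model S) : Measurable M.Sl :=
  measurable_gap_sum (fun i ξ => M.f (ξ i))
    (fun i => M.measurable_f.comp (measurable_pi_apply i)) 1

namespace Ctx

variable {M : Model S} {lam s : ℝ} (X : Ctx M lam s)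

/-- `Y = κ(x) + S_ℓ - κ(y)` -/
theorem Y_eq' (p : ℕ × (ℕ → S)) :
    X.Y p = X.κ (p.2 0) + M.Sl p - X.κ (p.2 (p.1 + 1)) := by
  unfold Y
  rw [M.Sl_eq, X.κ_eq (p.2 0)]
  ring

/-- `Y = D̂* + â*` -/
theorem Y_eq (p : ℕ × (ℕ → S)) : X.Y p = Ds (M.Gs X.r) (M.Gs1 X.r) p + X.as p := by
  rw [X.Y_eq']
  unfold as Ds Model.Sl
  rw [Finset.mul_sum, ← Finset.sum_add_distrib]
  have h : ∀ i, M.Gs X.r (p.2 i) - M.Gs1 X.r (p.2 (i + 1)) + (1 - X.r) * M.Gs1 X.r (p.2 (i + 1))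
      = M.f (p.2 i) + (X.κ (p.2 i) - X.κ (p.2 (i + 1))) := by
    intro i
    rw [M.Gs_eq X.r X.r_nonneg X.r_lt_one (p.2 i)]
    unfold κ
    ring
  rw [Finset.sum_congr rfl fun i _ => h i, Finset.sum_add_distrib,
    Finset.sum_range_sub' (fun i => X.κ (p.2 i))]
  ring

theorem measurable_as : Measurable X.as := by
  unfold as
  exact (measurable_gap_sum (fun i ξ => M.Gs1 X.r (ξ (i + 1)))
    (fun i => (M.measurable_Gs1 X.r X.r_nonneg X.r_lt_one).comp (measurable_pi_apply (i + 1)))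
    1).const_mul _

theorem measurable_Y : Measurable X.Y := by
  unfold Y
  exact (((M.measurable_Gs X.r X.r_nonneg X.r_lt_one).comp
    ((measurable_pi_apply 0).comp measurable_snd)).add M.measurable_Se).sub
    (X.measurable_κ.comp measurable_y)

/-- pointwise Cauchy–Schwarz for the sums over the gap -/
theorem sq_sum_le (g : ℕ → ℝ) (j : ℕ) :
    (∑ i ∈ Finset.range (j + 1), g i) ^ 2 ≤ ((j : ℝ) + 1) * ∑ i ∈ Finset.range (j + 1), (g i) ^ 2 := by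
  have h := sq_sum_le_card_mul_sum_sq (s := Finset.range (j + 1)) (f := g)
  simpa using h

/-- `∫⁻ (â*)² ≤ 2 e_I` -/
theorem as_lintegral : ∫⁻ p, ENNReal.ofReal ((X.as p) ^ 2) ∂X.Θ
    ≤ ENNReal.ofReal (2 * M.e X.I) := by
  have hm := M.measurable_Gs1 X.r X.r_nonneg X.r_lt_one
  have hi : Integrable (fun x => (M.Gs1 X.r x) ^ 2) M.ν :=
    (M.memLp_Gs1 X.r X.r_nonneg X.r_lt_one).integrable_sq
  have h := M.toChain.Θ_len_sum X.k (fun x => ENNReal.ofReal ((M.Gs1 X.r x) ^ 2))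
    (ENNReal.measurable_ofReal.comp (hm.pow_const 2))
  have hpt : ∀ p : ℕ × (ℕ → S), ENNReal.ofReal ((X.as p) ^ 2)
      ≤ ENNReal.ofReal ((1 - X.r) ^ 2) * (((p.1 : ℝ≥0∞) + 1) *
        ∑ i ∈ Finset.range (p.1 + 1), ENNReal.ofReal ((M.Gs1 X.r (p.2 (i + 1))) ^ 2)) := by
    intro p
    have h1 : (X.as p) ^ 2 ≤ (1 - X.r) ^ 2 * (((p.1 : ℝ) + 1) *
        ∑ i ∈ Finset.range (p.1 + 1), (M.Gs1 X.r (p.2 (i + 1))) ^ 2) := by
      unfold as
      rw [mul_pow]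
      gcongr
      exact sq_sum_le _ _
    refine (ENNReal.ofReal_le_ofReal h1).trans (le_of_eq ?_)
    rw [ENNReal.ofReal_mul (sq_nonneg _), ENNReal.ofReal_mul (by positivity),
      ENNReal.ofReal_sum_of_nonneg (fun i _ => sq_nonneg _),
      ENNReal.ofReal_add (Nat.cast_nonneg _) zero_le_one, ENNReal.ofReal_natCast,
      ENNReal.ofReal_one]
  refine (lintegral_mono hpt).trans ?_
  rw [lintegral_const_mul' _ _ ENNReal.ofReal_ne_top]
  refine (mul_le_mul_right h _).trans ?_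
  rw [← ofReal_integral_eq_lintegral_ofReal hi (Filter.Eventually.of_forall fun x => sq_nonneg _),
    X.k_r, X.inv_one_sub_r, X.one_sub_r, ← ENNReal.ofReal_mul (by have := X.m_pos; positivity),
    ← ENNReal.ofReal_mul (by positivity)]
  refine ENNReal.ofReal_le_ofReal ?_
  have h2 : ∫ x, (M.Gs1 X.r x) ^ 2 ∂M.ν ≤ X.m * M.e X.I := M.int_Gs1_le X.I
  have h3 := X.m_pos
  calc (X.m⁻¹) ^ 2 * (2 * X.m * ∫ x, (M.Gs1 X.r x) ^ 2 ∂M.ν)
      ≤ (X.m⁻¹) ^ 2 * (2 * X.m * (X.m * M.e X.I)) := by gcongr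
    _ = 2 * M.e X.I := by field_simp

theorem memLp_as : MemLp X.as 2 X.Θ :=
  L2.memLp_of_lintegral X.measurable_as.aestronglyMeasurable
    (lt_of_le_of_lt X.as_lintegral ENNReal.ofReal_lt_top)

/-- `E_Θ (â*)² ≤ 2 e_I` -/
theorem as_sq_le : ∫ p, (X.as p) ^ 2 ∂X.Θ ≤ 2 * M.e X.I :=
  L2.integral_sq_le_of_lintegral X.measurable_as.aestronglyMeasurable _
    (mul_nonneg (by norm_num) (M.e_nonneg _)) X.as_lintegral

theorem memLp_Ds : MemLp (Ds (M.Gs X.r) (M.Gs1 X.r)) 2 X.Θ :=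
  (M.bwd_Gs X.r X.r_nonneg X.r_lt_one).gap_memLp X.k

theorem memLp_Y : MemLp X.Y 2 X.Θ := by
  have h := X.memLp_Ds.add X.memLp_as
  refine h.ae_eq (Filter.Eventually.of_forall fun p => ?_)
  exact (X.Y_eq p).symm

/-- integral of `φ(y) Y` for `φ ∈ L²` -/
theorem int_Y_eq (φ : S → ℂ) (hφ : Measurable φ) (hφ2 : MemLp φ 2 M.ν) :
    ∫ p, φ (p.2 (p.1 + 1)) * ((X.Y p : ℝ) : ℂ) ∂X.Θ
      = ∫ p, φ (p.2 (p.1 + 1)) * ((X.as p : ℝ) : ℂ) ∂X.Θ := by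
  have h0 := (M.bwd_Gs X.r X.r_nonneg X.r_lt_one).gap_orth X.k φ hφ hφ2
  have hφΘ : MemLp (fun p : ℕ × (ℕ → S) => φ (p.2 (p.1 + 1))) 2 X.Θ :=
    M.toChain.memLp_y X.k 2 φ hφ2
  have i1 : Integrable (fun p : ℕ × (ℕ → S) => φ (p.2 (p.1 + 1))
      * ((Ds (M.Gs X.r) (M.Gs1 X.r) p : ℝ) : ℂ)) X.Θ :=
    hφΘ.integrable_mul X.memLp_Ds.ofReal
  have i2 : Integrable (fun p : ℕ × (ℕ → S) => φ (p.2 (p.1 + 1)) * ((X.as p : ℝ) : ℂ)) X.Θ :=
    hφΘ.integrable_mul X.memLp_as.ofReal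
  have h1 : ∀ p : ℕ × (ℕ → S), φ (p.2 (p.1 + 1)) * ((X.Y p : ℝ) : ℂ)
      = φ (p.2 (p.1 + 1)) * ((Ds (M.Gs X.r) (M.Gs1 X.r) p : ℝ) : ℂ)
        + φ (p.2 (p.1 + 1)) * ((X.as p : ℝ) : ℂ) := by
    intro p
    rw [X.Y_eq]; push_cast; ring
  simp_rw [h1]
  rw [integral_add i1 i2]
  have h0' : ∫ p, φ (p.2 (p.1 + 1)) * ((Ds (M.Gs X.r) (M.Gs1 X.r) p : ℝ) : ℂ) ∂X.Θ = 0 := h0
  rw [h0', zero_add]

/-- for `|φ| ≤ 1`: `|E_Θ[φ(y) Y]| ≤ (1-r) ∫ |Q*G*| ≤ √(e_I/m)`. -/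
theorem Y_first_order (φ : S → ℂ) (hφ : Measurable φ) (hφ1 : ∀ x, ‖φ x‖ ≤ 1) :
    ‖∫ p, φ (p.2 (p.1 + 1)) * ((X.Y p : ℝ) : ℂ) ∂X.Θ‖ ≤ Real.sqrt (M.e X.I / X.m) := by
  have hφ2 : MemLp φ 2 M.ν := MemLp.of_bound hφ.aestronglyMeasurable 1
    (Filter.Eventually.of_forall hφ1)
  rw [X.int_Y_eq φ hφ hφ2]
  have hg := M.memLp_Gs1 X.r X.r_nonneg X.r_lt_one
  have hgm := M.measurable_Gs1 X.r X.r_nonneg X.r_lt_one
  have hT := M.toChain.Θ_T1_int X.k (fun ξ => |M.Gs1 X.r (ξ 1)|)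
    ((hgm.comp (measurable_pi_apply 1)).norm) (by
      have := (M.toChain.mp_eval 1).integrable_comp_of_integrable
        ((hg.integrable (by norm_num)).abs)
      exact this)
  have hle : ∀ p : ℕ × (ℕ → S), |X.as p|
      ≤ (1 - X.r) * ∑ i ∈ Finset.range (p.1 + 1), |M.Gs1 X.r (sh i p.2 1)| := by
    intro p
    unfold as
    rw [abs_mul, abs_of_nonneg (by linarith [X.r_lt_one])]
    have h1r : 0 ≤ 1 - X.r := by linarith [X.r_lt_one]
    gcongr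
    exact Finset.abs_sum_le_sum_abs _ _
  have hmass : ∫ ξ, |M.Gs1 X.r (ξ 1)| ∂M.P = ∫ x, |M.Gs1 X.r x| ∂M.ν := by
    have h := integral_map (μ := M.P) (φ := fun ξ : ℕ → S => ξ 1)
      (measurable_pi_apply 1).aemeasurable (f := fun x => |M.Gs1 X.r x|)
      (hgm.norm.aestronglyMeasurable)
    rw [(M.toChain.mp_eval 1).map_eq] at h
    exact h.symm
  calc ‖∫ p, φ (p.2 (p.1 + 1)) * ((X.as p : ℝ) : ℂ) ∂X.Θ‖
      ≤ ∫ p, |X.as p| ∂X.Θ :=
        L2.norm_integral_bmul_le (fun p => hφ1 _) (X.memLp_as.integrable (by norm_num))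
    _ ≤ ∫ p, (1 - X.r) * ∑ i ∈ Finset.range (p.1 + 1), |M.Gs1 X.r (sh i p.2 1)| ∂X.Θ :=
        integral_mono_of_nonneg (Filter.Eventually.of_forall fun p => abs_nonneg _)
          (hT.1.const_mul _) (Filter.Eventually.of_forall hle)
    _ = (1 - X.r) * ∫ x, |M.Gs1 X.r x| ∂M.ν := by
        rw [integral_const_mul, ← hmass, ← hT.2]; rfl
    _ ≤ (1 - X.r) * Real.sqrt (∫ x, (M.Gs1 X.r x) ^ 2 ∂M.ν) := by
        have h1r : 0 ≤ 1 - X.r := by linarith [X.r_lt_one]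
        have := L2.integral_abs_le_sqrt hg
        gcongr
    _ ≤ X.m⁻¹ * Real.sqrt (X.m * M.e X.I) := by
        rw [X.one_sub_r]
        have := X.m_pos
        have h2 : ∫ x, (M.Gs1 X.r x) ^ 2 ∂M.ν ≤ X.m * M.e X.I := M.int_Gs1_le X.I
        gcongr
    _ = Real.sqrt (M.e X.I / X.m) := by
        have := X.m_pos
        rw [← Real.sqrt_sq (inv_nonneg.2 this.le), ← Real.sqrt_mul (sq_nonneg _)]
        congr 1
        field_simp

/-- the products with `κ(y)`: `|E_Θ[b(y) κ(y) Y]| ≤ 2 τ` -/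
theorem Y_kappa : ‖∫ p, X.b (p.2 (p.1 + 1)) *
    ((X.κ (p.2 (p.1 + 1)) * X.Y p : ℝ) : ℂ) ∂X.Θ‖ ≤ 2 * X.τ := by
  have hbm := X.measurable_b
  have hκm := X.measurable_κ
  have hφ2 : MemLp (fun x => X.b x * ((X.κ x : ℝ) : ℂ)) 2 M.ν := by
    have h := X.memLp_κ.ofReal (K := ℂ)
    refine MemLp.of_le h (hbm.mul (Complex.measurable_ofReal.comp hκm)).aestronglyMeasurable
      (Filter.Eventually.of_forall fun x => ?_)
    rw [norm_mul]
    exact mul_le_of_le_one_left (norm_nonneg _) (X.norm_b_le x)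
  have h1 := X.int_Y_eq (fun x => X.b x * ((X.κ x : ℝ) : ℂ))
    (hbm.mul (Complex.measurable_ofReal.comp hκm)) hφ2
  have h2 : ∀ p : ℕ × (ℕ → S), X.b (p.2 (p.1 + 1)) *
      ((X.κ (p.2 (p.1 + 1)) * X.Y p : ℝ) : ℂ)
      = (X.b (p.2 (p.1 + 1)) * ((X.κ (p.2 (p.1 + 1)) : ℝ) : ℂ)) * ((X.Y p : ℝ) : ℂ) := by
    intro p; push_cast; ring
  have h3 : ∀ p : ℕ × (ℕ → S), (X.b (p.2 (p.1 + 1)) * ((X.κ (p.2 (p.1 + 1)) : ℝ) : ℂ))
      * ((X.as p : ℝ) : ℂ)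
      = X.b (p.2 (p.1 + 1)) * ((X.κ (p.2 (p.1 + 1)) * X.as p : ℝ) : ℂ) := by
    intro p; push_cast; ring
  simp_rw [h2]
  rw [h1]
  simp_rw [h3]
  have hκΘ : MemLp (fun p : ℕ × (ℕ → S) => X.κ (p.2 (p.1 + 1))) 2 X.Θ :=
    M.toChain.memLp_y X.k 2 X.κ X.memLp_κ
  refine (L2.norm_integral_bmul_le (fun p => X.norm_b_le _)
    (L2.integrable_mul hκΘ X.memLp_as)).trans ?_
  -- the length bound
  have hδ0 := X.δ_nonneg
  have he0 := M.e_nonneg X.I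
  have hm0 := X.m_pos
  have hκi : Integrable (fun x => (X.κ x) ^ 2) M.ν := X.memLp_κ.integrable_sq
  have hlen := X.len_y_le (fun x => (X.κ x) ^ 2) (hκm.pow_const 2) (fun x => sq_nonneg _) hκi
    (X.m * X.K) (by have := X.hK; positivity) (fun x hx =>
      (X.κ_sq_le x).trans (mul_le_mul_of_nonneg_left (X.A_le hx) hm0.le))
  have hb1 : ∫ x, (X.κ x) ^ 2 ∂M.ν ≤ X.m * M.e X.I := by
    refine le_trans ?_ (M.int_Gs1_le X.I)
    exact integral_mono hκi (M.memLp_Gs1 _ (rr_nonneg _) (rr_lt_one _)).integrable_sq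
      (fun x => X.κ_sq_le_Gs1 x)
  have hb2 : X.m * X.K * (M.ν (M.B X.K)).toReal ≤ X.m * M.δ X.K := by
    rw [mul_assoc]
    exact mul_le_mul_of_nonneg_left (M.K_mul_le X.K (by linarith [X.hK])) hm0.le
  have hb3 : ∫ x in M.B X.K, (X.κ x) ^ 2 ∂M.ν ≤ X.m * M.δ X.K := by
    unfold Model.δ
    rw [← integral_const_mul]
    refine setIntegral_mono_on hκi.integrableOn (M.integrable_AC.integrableOn.const_mul _)
      (M.measurableSet_B _) fun x _ => ?_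
    refine (X.κ_sq_le x).trans (mul_le_mul_of_nonneg_left ?_ hm0.le)
    linarith [M.C_nonneg x]
  have hcs := M.toChain.Θ_cs1 X.k (fun p => X.κ (p.2 (p.1 + 1))) (hκm.comp measurable_y)
    (X.m * (M.e X.I + 2 * M.δ X.K)) (by positivity)
    (hlen.trans (ENNReal.ofReal_le_ofReal (by linarith)))
    (M.Gs1 X.r) (M.measurable_Gs1 X.r X.r_nonneg X.r_lt_one)
    (M.memLp_Gs1 X.r X.r_nonneg X.r_lt_one)
  have hgi : ∫ x, (M.Gs1 X.r x) ^ 2 ∂M.ν ≤ X.m * M.e X.I := M.int_Gs1_le X.I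
  have h1r : 0 ≤ 1 - X.r := by linarith [X.r_lt_one]
  have hint : Integrable (fun p : ℕ × (ℕ → S) => |X.κ (p.2 (p.1 + 1))| *
      ∑ i ∈ Finset.range (p.1 + 1), |M.Gs1 X.r (p.2 (i + 1))|) X.Θ := by
    refine L2.integrable_mul hκΘ.abs ?_
    -- `∑ |Gs1|` is in `L²(Θ)`
    refine M.toChain.memLp_Θ_sum X.k (fun i ξ => |M.Gs1 X.r (ξ (i + 1))|)
      (fun i => ((M.measurable_Gs1 X.r X.r_nonneg X.r_lt_one).comp
        (measurable_pi_apply (i + 1))).norm) (∫ x, (M.Gs1 X.r x) ^ 2 ∂M.ν) (fun i => ?_)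
      (fun i => ?_)
    · exact ((M.memLp_Gs1 X.r X.r_nonneg X.r_lt_one).comp_measurePreserving
        (M.toChain.mp_eval (i + 1))).abs
    · simp only [sq_abs]
      have h := integral_map (μ := M.P) (φ := fun ξ : ℕ → S => ξ (i + 1))
        (measurable_pi_apply (i + 1)).aemeasurable (f := fun x => (M.Gs1 X.r x) ^ 2)
        (((M.measurable_Gs1 X.r X.r_nonneg X.r_lt_one).pow_const 2).aestronglyMeasurable)
      rw [(M.toChain.mp_eval (i + 1)).map_eq] at h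
      exact h.symm.le
  calc ∫ p, |X.κ (p.2 (p.1 + 1)) * X.as p| ∂X.Θ
      ≤ ∫ p, (1 - X.r) * (|X.κ (p.2 (p.1 + 1))| *
          ∑ i ∈ Finset.range (p.1 + 1), |M.Gs1 X.r (p.2 (i + 1))|) ∂X.Θ := by
        refine integral_mono_of_nonneg (Filter.Eventually.of_forall fun p => abs_nonneg _)
          (hint.const_mul _) (Filter.Eventually.of_forall fun p => ?_)
        simp only
        rw [abs_mul]
        unfold as
        rw [abs_mul, abs_of_nonneg h1r, mul_left_comm]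
        gcongr
        exact Finset.abs_sum_le_sum_abs _ _
    _ = (1 - X.r) * ∫ p, (|X.κ (p.2 (p.1 + 1))| *
          ∑ i ∈ Finset.range (p.1 + 1), |M.Gs1 X.r (p.2 (i + 1))|) ∂X.Θ := integral_const_mul _ _
    _ ≤ (1 - X.r) * (Real.sqrt (X.m * (M.e X.I + 2 * M.δ X.K))
          * Real.sqrt (∫ x, (M.Gs1 X.r x) ^ 2 ∂M.ν)) := by
        gcongr
        exact hcs
    _ ≤ X.m⁻¹ * (Real.sqrt (X.m * (M.e X.I + 2 * M.δ X.K)) * Real.sqrt (X.m * M.e X.I)) := by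
        rw [X.one_sub_r]; gcongr
    _ = Real.sqrt ((M.e X.I + 2 * M.δ X.K) * M.e X.I) := by
        rw [← Real.sqrt_mul (by positivity), ← Real.sqrt_sq (inv_nonneg.2 hm0.le),
          ← Real.sqrt_mul (sq_nonneg _)]
        congr 1
        field_simp
    _ ≤ Real.sqrt ((2 * X.τ) ^ 2) := by
        refine Real.sqrt_le_sqrt ?_
        have h1 := X.e_le
        have h2 := X.hδ
        have h3 := X.τ_nonneg
        calc (M.e X.I + 2 * M.δ X.K) * M.e X.I ≤ (X.τ + 2 * X.τ) * X.τ := by gcongr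
          _ ≤ (2 * X.τ) ^ 2 := by nlinarith
    _ = 2 * X.τ := Real.sqrt_sq (by have := X.τ_nonneg; positivity)

end Ctx

/-- `‖Y‖_Θ` is bounded uniformly in the context -/
theorem Ctx.Y_sq_le (M : Model S) (lam s : ℝ) :
    ∃ D : ℝ, 0 < D ∧ ∀ X : Ctx M lam s, ∫ p, (X.Y p) ^ 2 ∂X.Θ ≤ D := by
  obtain ⟨D, hD0, hD⟩ := M.D_bound
  refine ⟨2 * D + 4, by positivity, fun X => ?_⟩
  have h1 : ∫ p, (X.Y p) ^ 2 ∂X.Θ
      ≤ 2 * ∫ p, (Ds (M.Gs X.r) (M.Gs1 X.r) p) ^ 2 ∂X.Θ + 2 * ∫ p, (X.as p) ^ 2 ∂X.Θ := by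
    have h := L2.sq_add_le X.memLp_Ds X.memLp_as
    refine le_trans (le_of_eq ?_) h
    refine integral_congr_ae (Filter.Eventually.of_forall fun p => ?_)
    simp only
    rw [X.Y_eq]
  have h2 : ∫ p, (Ds (M.Gs X.r) (M.Gs1 X.r) p) ^ 2 ∂X.Θ
      = ∫ x, (M.Gs X.r x) ^ 2 ∂M.ν - ∫ x, (M.Gs1 X.r x) ^ 2 ∂M.ν :=
    (M.bwd_Gs X.r X.r_nonneg X.r_lt_one).gap_sq X.k
  have h3 := (hD X.r (half_le_rr X.I X.hI) X.r_lt_one).2
  have h4 := X.as_sq_le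
  have h5 := X.e_le
  have h6 := X.hτ1
  linarith

end Pool.Agent.H45.CLT
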