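import Pool.Agent.H45.CLT.StepE0
import Pool.Agent.H45.CLT.CtxY

/-!
# Auxiliary facts for module STEPE2.
-/

set_option autoImplicit false

open MeasureTheory ProbabilityTheory
open scoped ENNReal NNReal

namespace Pool.Agent.H45.CLT

variable {S : Type} [MeasurableSpace S]

namespace Ctx

variable {M : Model S} {lam s : ℝ} (X : Ctx M lam s)

/-- sums of `|q|` over the gap are in `L²(Θ)` -/
theorem memLp_abs_sum (q : S → ℝ) (hq : Measurable q) (hq2 : MemLp q 2 M.ν) (t : ℕ) :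
    MemLp (fun p : ℕ × (ℕ → S) => ∑ j ∈ Finset.range (p.1 + 1), |q (p.2 (j + t))|) 2 X.Θ := by
  refine M.toChain.memLp_Θ_sum X.k (fun i ξ => |q (ξ (i + t))|)
    (fun i => (hq.comp (measurable_pi_apply (i + t))).abs) (∫ x, (q x) ^ 2 ∂M.ν)
    (fun i => ?_) (fun i => ?_)
  · exact (hq2.comp_measurePreserving (M.mp_eval (i + t))).abs
  · refine le_of_eq ?_
    simp only [sq_abs]
    have h3 := (M.mp_eval (i + t)).map_eq
    rw [← h3, integral_map (M.mp_eval (i + t)).measurable.aemeasurable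
      (hq.pow_const 2).aestronglyMeasurable]

theorem integrable_cs (F : ℕ × (ℕ → S) → ℝ) (hF2 : MemLp F 2 X.Θ)
    (q : S → ℝ) (hq : Measurable q) (hq2 : MemLp q 2 M.ν) (t : ℕ) :
    Integrable (fun p : ℕ × (ℕ → S) =>
      |F p| * ∑ j ∈ Finset.range (p.1 + 1), |q (p.2 (j + t))|) X.Θ :=
  hF2.abs.integrable_mul (X.memLp_abs_sum q hq hq2 t)

theorem norm_T_le (F : ℕ × (ℕ → S) → ℝ) (hF2 : MemLp F 2 X.Θ)
    (q : S → ℝ) (hq : Measurable q) (hq2 : MemLp q 2 M.ν) (t : ℕ) :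
    ‖∫ p, X.b (p.2 (p.1 + 1)) * ((F p * ∑ j ∈ Finset.range (p.1 + 1), q (p.2 (j + t)) : ℝ) : ℂ)
      ∂X.Θ‖ ≤ ∫ p, |F p| * ∑ j ∈ Finset.range (p.1 + 1), |q (p.2 (j + t))| ∂X.Θ := by
  refine norm_integral_le_of_norm_le (X.integrable_cs F hF2 q hq hq2 t)
    (Filter.Eventually.of_forall fun p => ?_)
  rw [norm_mul, Complex.norm_real, Real.norm_eq_abs, abs_mul]
  calc ‖X.b (p.2 (p.1 + 1))‖ * (|F p| * |∑ j ∈ Finset.range (p.1 + 1), q (p.2 (j + t))|)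
      ≤ 1 * (|F p| * |∑ j ∈ Finset.range (p.1 + 1), q (p.2 (j + t))|) := by
        gcongr
        exact X.norm_b_le _
    _ ≤ |F p| * ∑ j ∈ Finset.range (p.1 + 1), |q (p.2 (j + t))| := by
        rw [one_mul]
        gcongr
        exact Finset.abs_sum_le_sum_abs _ _

theorem memLp_Δ (i : ℕ) : MemLp (Δ M i) 2 M.ν :=
  (M.memLp_Gs (rr (i + 1)) (rr_nonneg _) (rr_lt_one _)).sub
    (M.memLp_Gs (rr i) (rr_nonneg _) (rr_lt_one _))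

theorem measurable_Δ (i : ℕ) : Measurable (Δ M i) :=
  (M.measurable_Gs (rr (i + 1)) (rr_nonneg _) (rr_lt_one _)).sub
    (M.measurable_Gs (rr i) (rr_nonneg _) (rr_lt_one _))

theorem memLp_q (i : ℕ) : MemLp (q M i) 2 M.ν :=
  ((M.memLp_Gs1 (rr i) (rr_nonneg _) (rr_lt_one _)).const_mul _).sub
    ((M.memLp_Gs1 (rr (i + 1)) (rr_nonneg _) (rr_lt_one _)).const_mul _)

theorem measurable_q (i : ℕ) : Measurable (q M i) :=
  ((M.measurable_Gs1 (rr i) (rr_nonneg _) (rr_lt_one _)).const_mul _).sub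
    ((M.measurable_Gs1 (rr (i + 1)) (rr_nonneg _) (rr_lt_one _)).const_mul _)

theorem int_q_sq_le (i : ℕ) : ∫ x, (q M i x) ^ 2 ∂M.ν
    ≤ (1 / 2) ^ (i + 1) * (4 * (M.e i + M.e (i + 1))) := by
  have h1 := (M.memLp_Gs1 (rr i) (rr_nonneg _) (rr_lt_one _)).integrable_sq
  have h2 := (M.memLp_Gs1 (rr (i + 1)) (rr_nonneg _) (rr_lt_one _)).integrable_sq
  have h3 := M.int_Gs1_le i
  have h4 := M.int_Gs1_le (i + 1)
  have he := M.e_nonneg (i + 1)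
  have he0 := M.e_nonneg i
  have h5 : ∫ x, (q M i x) ^ 2 ∂M.ν ≤ ∫ x, (2 * ((1 / 2) ^ i) ^ 2 * (M.Gs1 (rr i) x) ^ 2
      + 2 * ((1 / 2) ^ (i + 1)) ^ 2 * (M.Gs1 (rr (i + 1)) x) ^ 2) ∂M.ν := by
    refine integral_mono (memLp_q i).integrable_sq ((h1.const_mul _).add (h2.const_mul _))
      fun x => ?_
    simp only [q, one_sub_rr]
    nlinarith [sq_nonneg ((1 / 2 : ℝ) ^ i * M.Gs1 (rr i) x
      + (1 / 2) ^ (i + 1) * M.Gs1 (rr (i + 1)) x)]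
  refine h5.trans ?_
  rw [integral_add (h1.const_mul _) (h2.const_mul _), integral_const_mul, integral_const_mul]
  have e1 : 2 * ((1 / 2 : ℝ) ^ i) ^ 2 * ∫ x, (M.Gs1 (rr i) x) ^ 2 ∂M.ν
      ≤ 2 * ((1 / 2 : ℝ) ^ i) ^ 2 * (2 ^ i * M.e i) := by gcongr
  have e2 : 2 * ((1 / 2 : ℝ) ^ (i + 1)) ^ 2 * ∫ x, (M.Gs1 (rr (i + 1)) x) ^ 2 ∂M.ν
      ≤ 2 * ((1 / 2 : ℝ) ^ (i + 1)) ^ 2 * (2 ^ (i + 1) * M.e (i + 1)) := by gcongr
  have e3 : ∀ n : ℕ, (1 / 2 : ℝ) ^ n * 2 ^ n = 1 := fun n => by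
    rw [← mul_pow]; norm_num
  have e4 : 2 * ((1 / 2 : ℝ) ^ i) ^ 2 * (2 ^ i * M.e i) = (1 / 2) ^ (i + 1) * (4 * M.e i) := by
    calc 2 * ((1 / 2 : ℝ) ^ i) ^ 2 * (2 ^ i * M.e i)
        = 2 * (1 / 2 : ℝ) ^ i * ((1 / 2 : ℝ) ^ i * 2 ^ i) * M.e i := by ring
      _ = (1 / 2) ^ (i + 1) * (4 * M.e i) := by rw [e3, pow_succ]; ring
  have e5 : 2 * ((1 / 2 : ℝ) ^ (i + 1)) ^ 2 * (2 ^ (i + 1) * M.e (i + 1))
      = (1 / 2) ^ (i + 1) * (2 * M.e (i + 1)) := by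
    calc 2 * ((1 / 2 : ℝ) ^ (i + 1)) ^ 2 * (2 ^ (i + 1) * M.e (i + 1))
        = 2 * (1 / 2 : ℝ) ^ (i + 1) * ((1 / 2 : ℝ) ^ (i + 1) * 2 ^ (i + 1)) * M.e (i + 1) := by
          ring
      _ = (1 / 2) ^ (i + 1) * (2 * M.e (i + 1)) := by rw [e3]; ring
  have e6 : (0 : ℝ) ≤ (1 / 2) ^ (i + 1) := by positivity
  nlinarith [mul_nonneg e6 he]

end Ctx

end Pool.Agent.H45.CLT
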