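import Pool.Agent.H45.CLT.StepE0
import Pool.Agent.H45.CLT.StepE2Aux

/-!
# Module STEPE2: bounds for `T3`, `T4` (Θ_cs1, Θ_cs0, int_Gs1_le, int_G1_le) and the Hardy sums.
-/

set_option autoImplicit false

open MeasureTheory ProbabilityTheory
open scoped ENNReal NNReal

namespace Pool.Agent.H45.CLT

variable {S : Type} [MeasurableSpace S]

namespace Ctx

variable {M : Model S} {lam s : ℝ} (X : Ctx M lam s)

/-- bound for `T3` -/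
theorem T3_le (i : ℕ) (D : ℝ) (hD0 : 0 ≤ D)
    (hD : ∫⁻ p, ((p.1 : ℝ≥0∞) + 1)
      * ENNReal.ofReal ((M.G (rr (i + 1)) (p.2 (p.1 + 1))) ^ 2) ∂X.Θ ≤ ENNReal.ofReal D) :
    ‖X.T3 i‖ ≤ Real.sqrt ((1 / 2) ^ (i + 1) * D)
      * Real.sqrt (4 * (M.e i + M.e (i + 1))) := by
  have hG2 := M.memLp_G (rr (i + 1)) (rr_nonneg _) (rr_lt_one _)
  have hGm := M.measurable_G (rr (i + 1)) (rr_nonneg _) (rr_lt_one _)
  have h1 := X.norm_T_le (fun p => M.G (rr (i + 1)) (p.2 (p.1 + 1)))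
    (M.toChain.memLp_y X.k 2 _ hG2) (q M i) (measurable_q i) (memLp_q i) 1
  refine h1.trans ?_
  have h2 := M.toChain.Θ_cs1 X.k (fun p => M.G (rr (i + 1)) (p.2 (p.1 + 1)))
    (hGm.comp measurable_y) D hD0 hD (q M i) (measurable_q i) (memLp_q i)
  refine h2.trans ?_
  have h3 : Real.sqrt (∫ x, (q M i x) ^ 2 ∂M.ν)
      ≤ Real.sqrt ((1 / 2) ^ (i + 1)) * Real.sqrt (4 * (M.e i + M.e (i + 1))) := by
    rw [← Real.sqrt_mul (by positivity)]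
    exact Real.sqrt_le_sqrt (int_q_sq_le i)
  calc Real.sqrt D * Real.sqrt (∫ x, (q M i x) ^ 2 ∂M.ν)
      ≤ Real.sqrt D * (Real.sqrt ((1 / 2) ^ (i + 1)) * Real.sqrt (4 * (M.e i + M.e (i + 1)))) :=
        mul_le_mul_of_nonneg_left h3 (Real.sqrt_nonneg _)
    _ = Real.sqrt ((1 / 2) ^ (i + 1) * D) * Real.sqrt (4 * (M.e i + M.e (i + 1))) := by
        rw [Real.sqrt_mul (show (0 : ℝ) ≤ (1 / 2) ^ (i + 1) by positivity) D]; ring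

/-- bound for `T4` -/
theorem T4_le (i : ℕ) (D : ℝ) (hD0 : 0 ≤ D)
    (hD : ∫⁻ p, ((p.1 : ℝ≥0∞) + 1)
      * ENNReal.ofReal ((Δ M i (p.2 0)) ^ 2) ∂X.Θ ≤ ENNReal.ofReal D) :
    ‖X.T4 i‖ ≤ Real.sqrt ((1 / 2) ^ (i + 1) * D) * Real.sqrt (M.e (i + 1)) := by
  have hG2 := M.memLp_G1 (rr (i + 1)) (rr_nonneg _) (rr_lt_one _)
  have hGm := M.measurable_G1 (rr (i + 1)) (rr_nonneg _) (rr_lt_one _)
  have hΔm : Measurable (fun p : ℕ × (ℕ → S) => Δ M i (p.2 0)) :=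
    (measurable_Δ i).comp ((measurable_pi_apply 0).comp measurable_snd)
  have h0 : X.T4 i = (((1 / 2) ^ (i + 1) : ℝ) : ℂ) * ∫ p, X.b (p.2 (p.1 + 1)) * ((Δ M i (p.2 0) *
      ∑ j ∈ Finset.range (p.1 + 1), M.G1 (rr (i + 1)) (p.2 (j + 0)) : ℝ) : ℂ) ∂X.Θ := by
    unfold T4
    rw [← integral_const_mul]
    refine integral_congr_ae (Filter.Eventually.of_forall fun p => ?_)
    simp only [one_sub_rr, add_zero]
    push_cast
    ring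
  have h1 := X.norm_T_le (fun p => Δ M i (p.2 0))
    (M.toChain.memLp_x X.k 2 _ (memLp_Δ i)) (M.G1 (rr (i + 1))) hGm hG2 0
  have h2 := M.toChain.Θ_cs0 X.k (fun p => Δ M i (p.2 0))
    hΔm D hD0 hD (M.G1 (rr (i + 1))) hGm hG2
  have h12 := h1.trans h2
  rw [h0, norm_mul, Complex.norm_real, Real.norm_eq_abs, abs_of_nonneg (by positivity)]
  have h3 : Real.sqrt (∫ x, (M.G1 (rr (i + 1)) x) ^ 2 ∂M.ν)
      ≤ Real.sqrt (2 ^ (i + 1)) * Real.sqrt (M.e (i + 1)) := by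
    rw [← Real.sqrt_mul (by positivity)]
    exact Real.sqrt_le_sqrt (M.int_G1_le (i + 1))
  have h4 : (1 / 2 : ℝ) ^ (i + 1) * Real.sqrt (2 ^ (i + 1)) = Real.sqrt ((1 / 2) ^ (i + 1)) := by
    have h5 : Real.sqrt ((1 / 2 : ℝ) ^ (i + 1)) * Real.sqrt (2 ^ (i + 1)) = 1 := by
      rw [← Real.sqrt_mul (by positivity), ← mul_pow]; norm_num
    have h6 : Real.sqrt ((1 / 2 : ℝ) ^ (i + 1)) * Real.sqrt ((1 / 2 : ℝ) ^ (i + 1))
        = (1 / 2) ^ (i + 1) := Real.mul_self_sqrt (by positivity)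
    calc (1 / 2 : ℝ) ^ (i + 1) * Real.sqrt (2 ^ (i + 1))
        = Real.sqrt ((1 / 2 : ℝ) ^ (i + 1)) *
          (Real.sqrt ((1 / 2 : ℝ) ^ (i + 1)) * Real.sqrt (2 ^ (i + 1))) := by
            rw [← mul_assoc, h6]
      _ = Real.sqrt ((1 / 2) ^ (i + 1)) := by rw [h5, mul_one]
  calc (1 / 2 : ℝ) ^ (i + 1) * _
      ≤ (1 / 2 : ℝ) ^ (i + 1) * (Real.sqrt D * Real.sqrt (∫ x, (M.G1 (rr (i + 1)) x) ^ 2 ∂M.ν)) :=
        mul_le_mul_of_nonneg_left h12 (by positivity)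
    _ ≤ (1 / 2 : ℝ) ^ (i + 1) * (Real.sqrt D *
          (Real.sqrt (2 ^ (i + 1)) * Real.sqrt (M.e (i + 1)))) := by gcongr
    _ = ((1 / 2 : ℝ) ^ (i + 1) * Real.sqrt (2 ^ (i + 1))) * Real.sqrt D
          * Real.sqrt (M.e (i + 1)) := by ring
    _ = Real.sqrt ((1 / 2) ^ (i + 1) * D) * Real.sqrt (M.e (i + 1)) := by
        rw [h4, Real.sqrt_mul (by positivity)]

/-- the lengths against `G²`, as reals -/
noncomputable def LG (i : ℕ) : ℝ :=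
  (∫⁻ p, ((p.1 : ℝ≥0∞) + 1)
      * ENNReal.ofReal ((M.G (rr (i + 1)) (p.2 (p.1 + 1))) ^ 2) ∂X.Θ).toReal

noncomputable def LΔ (i : ℕ) : ℝ :=
  (∫⁻ p, ((p.1 : ℝ≥0∞) + 1)
      * ENNReal.ofReal ((Δ M i (p.2 0)) ^ 2) ∂X.Θ).toReal

theorem LG_lt_top (i : ℕ) : ∫⁻ p, ((p.1 : ℝ≥0∞) + 1)
      * ENNReal.ofReal ((M.G (rr (i + 1)) (p.2 (p.1 + 1))) ^ 2) ∂X.Θ < ⊤ := by
  have hG2 := M.memLp_G (rr (i + 1)) (rr_nonneg _) (rr_lt_one _)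
  have hGm := M.measurable_G (rr (i + 1)) (rr_nonneg _) (rr_lt_one _)
  have h1r : 0 ≤ (1 - rr (i + 1))⁻¹ := inv_nonneg.mpr (sub_nonneg.mpr (rr_lt_one _).le)
  refine lt_of_le_of_lt (X.len_y_le (fun x => (M.G (rr (i + 1)) x) ^ 2) (hGm.pow_const 2)
    (fun x => sq_nonneg _) hG2.integrable_sq ((1 - rr (i + 1))⁻¹ * X.K)
    (mul_nonneg h1r (by linarith [X.hK])) (fun x hx => ?_)) ENNReal.ofReal_lt_top
  exact (M.G_sq_le (rr (i + 1)) (rr_nonneg _) (rr_lt_one _) x).trans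
    (mul_le_mul_of_nonneg_left (X.C_le hx) h1r)

theorem LΔ_lt_top (i : ℕ) : ∫⁻ p, ((p.1 : ℝ≥0∞) + 1)
      * ENNReal.ofReal ((Δ M i (p.2 0)) ^ 2) ∂X.Θ < ⊤ := by
  have h1r : 0 ≤ (1 - rr (i + 1))⁻¹ := inv_nonneg.mpr (sub_nonneg.mpr (rr_lt_one _).le)
  refine lt_of_le_of_lt (X.len_x_le (fun x => (Δ M i x) ^ 2) ((measurable_Δ i).pow_const 2)
    (fun x => sq_nonneg _) (memLp_Δ i).integrable_sq ((1 - rr (i + 1))⁻¹ * X.K)
    (mul_nonneg h1r (by linarith [X.hK])) (fun x hx => ?_)) ENNReal.ofReal_lt_top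
  exact (M.Gs_sub_sq_le (rr i) (rr (i + 1)) (rr_nonneg _) (rr_mono (Nat.le_succ i))
    (rr_lt_one _) x).trans (mul_le_mul_of_nonneg_left (X.A_le hx) h1r)

theorem measurable_len : Measurable fun p : ℕ × (ℕ → S) => (p.1 : ℝ≥0∞) + 1 :=
  ((measurable_from_nat (f := fun n : ℕ => (n : ℝ≥0∞))).comp measurable_fst).add_const 1

/-- general step: a finite sum of lengths -/
theorem L_sum_aux (ev : ℕ × (ℕ → S) → S) (hev : Measurable ev)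
    (hlen : ∀ (φ : S → ℝ), Measurable φ → (∀ x, 0 ≤ φ x) → Integrable φ M.ν →
      ∀ D : ℝ, 0 ≤ D → (∀ x, x ∉ M.B X.K → φ x ≤ D) →
      ∫⁻ p, ((p.1 : ℝ≥0∞) + 1) * ENNReal.ofReal (φ (ev p)) ∂X.Θ
        ≤ ENNReal.ofReal (∫ x, φ x ∂M.ν + D * (M.ν (M.B X.K)).toReal
          + ∫ x in M.B X.K, φ x ∂M.ν))
    (g : ℕ → S → ℝ) (hg : ∀ i, Measurable (g i))
    (hfin : ∀ i, ∫⁻ p, ((p.1 : ℝ≥0∞) + 1) * ENNReal.ofReal ((g i (ev p)) ^ 2) ∂X.Θ < ⊤)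
    (φ : S → ℝ) (hφ : Measurable φ) (hφ0 : ∀ x, 0 ≤ φ x) (hφi : Integrable φ M.ν)
    (H : ℝ) (hH : 0 ≤ H) (hφK : ∀ x, φ x ≤ H * (M.A x + M.C x)) (J : ℕ)
    (hsum : ∀ x, ∑ i ∈ Finset.range J, (1 / 2 : ℝ) ^ (i + 1) * (g i x) ^ 2 ≤ φ x) :
    ∑ i ∈ Finset.range J, (1 / 2 : ℝ) ^ (i + 1) *
      (∫⁻ p, ((p.1 : ℝ≥0∞) + 1) * ENNReal.ofReal ((g i (ev p)) ^ 2) ∂X.Θ).toReal
      ≤ ∫ x, φ x ∂M.ν + 2 * H := by
  have hK0 : 0 ≤ X.K := by linarith [X.hK]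
  have hm : ∀ i, Measurable fun p : ℕ × (ℕ → S) =>
      ((p.1 : ℝ≥0∞) + 1) * ENNReal.ofReal ((g i (ev p)) ^ 2) := fun i =>
    measurable_len.mul (((hg i).comp hev).pow_const 2).ennreal_ofReal
  have h1 : ∑ i ∈ Finset.range J, (1 / 2 : ℝ) ^ (i + 1) *
      (∫⁻ p, ((p.1 : ℝ≥0∞) + 1) * ENNReal.ofReal ((g i (ev p)) ^ 2) ∂X.Θ).toReal
      = (∑ i ∈ Finset.range J, ENNReal.ofReal ((1 / 2 : ℝ) ^ (i + 1)) *
      (∫⁻ p, ((p.1 : ℝ≥0∞) + 1) * ENNReal.ofReal ((g i (ev p)) ^ 2) ∂X.Θ)).toReal := by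
    rw [ENNReal.toReal_sum (fun i _ => ENNReal.mul_ne_top ENNReal.ofReal_ne_top (hfin i).ne)]
    refine Finset.sum_congr rfl fun i _ => ?_
    rw [ENNReal.toReal_mul, ENNReal.toReal_ofReal (by positivity)]
  have h2 : ∑ i ∈ Finset.range J, ENNReal.ofReal ((1 / 2 : ℝ) ^ (i + 1)) *
      (∫⁻ p, ((p.1 : ℝ≥0∞) + 1) * ENNReal.ofReal ((g i (ev p)) ^ 2) ∂X.Θ)
      = ∫⁻ p, ∑ i ∈ Finset.range J, ENNReal.ofReal ((1 / 2 : ℝ) ^ (i + 1)) *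
        (((p.1 : ℝ≥0∞) + 1) * ENNReal.ofReal ((g i (ev p)) ^ 2)) ∂X.Θ := by
    rw [lintegral_finsetSum _ (fun i _ => (hm i).const_mul _)]
    refine Finset.sum_congr rfl fun i _ => ?_
    rw [lintegral_const_mul _ (hm i)]
  have h3 : ∀ p : ℕ × (ℕ → S), ∑ i ∈ Finset.range J, ENNReal.ofReal ((1 / 2 : ℝ) ^ (i + 1)) *
        (((p.1 : ℝ≥0∞) + 1) * ENNReal.ofReal ((g i (ev p)) ^ 2))
      ≤ ((p.1 : ℝ≥0∞) + 1) * ENNReal.ofReal (φ (ev p)) := by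
    intro p
    calc ∑ i ∈ Finset.range J, ENNReal.ofReal ((1 / 2 : ℝ) ^ (i + 1)) *
        (((p.1 : ℝ≥0∞) + 1) * ENNReal.ofReal ((g i (ev p)) ^ 2))
        = ((p.1 : ℝ≥0∞) + 1) * ∑ i ∈ Finset.range J,
          ENNReal.ofReal ((1 / 2 : ℝ) ^ (i + 1) * (g i (ev p)) ^ 2) := by
          rw [Finset.mul_sum]
          refine Finset.sum_congr rfl fun i _ => ?_
          rw [ENNReal.ofReal_mul (by positivity)]
          ring
      _ = ((p.1 : ℝ≥0∞) + 1) * ENNReal.ofReal (∑ i ∈ Finset.range J,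
          (1 / 2 : ℝ) ^ (i + 1) * (g i (ev p)) ^ 2) := by
          rw [ENNReal.ofReal_sum_of_nonneg (fun i _ => by positivity)]
      _ ≤ ((p.1 : ℝ≥0∞) + 1) * ENNReal.ofReal (φ (ev p)) := by
          gcongr
          exact hsum _
  have hδ := M.δ_nonneg X.K
  have hδ1 : M.δ X.K ≤ 1 := X.hδ.trans X.hτ1
  have hKν := M.K_mul_le X.K hK0
  have hBφ : ∫ x in M.B X.K, φ x ∂M.ν ≤ H * M.δ X.K := by
    unfold Model.δ
    rw [← integral_const_mul]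
    refine integral_mono hφi.integrableOn
      ((M.integrable_A.add M.integrable_C).const_mul H).integrableOn hφK
  have hφint0 : 0 ≤ ∫ x, φ x ∂M.ν := integral_nonneg hφ0
  have hoff : ∀ x, x ∉ M.B X.K → φ x ≤ H * X.K := fun x hx =>
    (hφK x).trans (mul_le_mul_of_nonneg_left (M.le_of_notMem_B hx) hH)
  have h4 := hlen φ hφ hφ0 hφi (H * X.K) (mul_nonneg hH hK0) hoff
  rw [h1, h2]
  refine ENNReal.toReal_le_of_le_ofReal (by positivity)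
    ((lintegral_mono h3).trans (h4.trans (ENNReal.ofReal_le_ofReal ?_)))
  have h5 : H * X.K * (M.ν (M.B X.K)).toReal ≤ H * M.δ X.K := by
    rw [mul_assoc]
    exact mul_le_mul_of_nonneg_left hKν hH
  have h6 : H * M.δ X.K ≤ H := by nlinarith
  linarith

end Ctx

/-- Hardy sums of the lengths -/
theorem Ctx.LG_sum (M : Model S) (lam s : ℝ) :
    ∃ D : ℝ, 0 < D ∧ ∀ (X : Ctx M lam s) (J : ℕ),
      ∑ i ∈ Finset.range J, (1 / 2 : ℝ) ^ (i + 1) * X.LG i ≤ D := by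
  obtain ⟨H, hH0, hH⟩ := M.hardy_G
  have hC0 : 0 ≤ ∫ x, H * M.C x ∂M.ν :=
    integral_nonneg fun x => mul_nonneg hH0.le (M.C_nonneg x)
  refine ⟨∫ x, H * M.C x ∂M.ν + 2 * H, by positivity, fun X J => ?_⟩
  refine X.L_sum_aux (fun p => p.2 (p.1 + 1)) measurable_y
    (fun φ h1 h2 h3 D h4 h5 => X.len_y_le φ h1 h2 h3 D h4 h5)
    (fun i => M.G (rr (i + 1))) (fun i => M.measurable_G _ (rr_nonneg _) (rr_lt_one _))
    X.LG_lt_top (fun x => H * M.C x) (M.measurable_C.const_mul H)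
    (fun x => mul_nonneg hH0.le (M.C_nonneg x)) (M.integrable_C.const_mul H) H hH0.le
    (fun x => mul_le_mul_of_nonneg_left (le_add_of_nonneg_left (M.A_nonneg x)) hH0.le) J
    (fun x => ?_)
  have h1 := hH x (J + 1)
  rw [Finset.sum_range_succ'] at h1
  have h2 : 0 ≤ (1 / 2 : ℝ) ^ 0 * (M.G (rr 0) x) ^ 2 := by positivity
  linarith

theorem Ctx.LΔ_sum (M : Model S) (lam s : ℝ) :
    ∃ D : ℝ, 0 < D ∧ ∀ (X : Ctx M lam s) (J : ℕ),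
      ∑ i ∈ Finset.range J, (1 / 2 : ℝ) ^ (i + 1) * X.LΔ i ≤ D := by
  obtain ⟨H, hH0, hH⟩ := M.hardy_dGs
  have hC0 : 0 ≤ ∫ x, H * M.A x ∂M.ν :=
    integral_nonneg fun x => mul_nonneg hH0.le (M.A_nonneg x)
  refine ⟨∫ x, H * M.A x ∂M.ν + 2 * H, by positivity, fun X J => ?_⟩
  refine X.L_sum_aux (fun p => p.2 0) ((measurable_pi_apply 0).comp measurable_snd)
    (fun φ h1 h2 h3 D h4 h5 => X.len_x_le φ h1 h2 h3 D h4 h5)
    (fun i => Ctx.Δ M i) (fun i => Ctx.measurable_Δ i)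
    X.LΔ_lt_top (fun x => H * M.A x) (M.measurable_A.const_mul H)
    (fun x => mul_nonneg hH0.le (M.A_nonneg x)) (M.integrable_A.const_mul H) H hH0.le
    (fun x => mul_le_mul_of_nonneg_left (le_add_of_nonneg_right (M.C_nonneg x)) hH0.le) J
    (fun x => ?_)
  refine le_trans (Finset.sum_le_sum fun i _ => ?_) (hH x J)
  show (1 / 2 : ℝ) ^ (i + 1) * (Ctx.Δ M i x) ^ 2 ≤ _
  have h3 : (1 / 2 : ℝ) ^ (i + 1) ≤ (1 / 2) ^ i :=
    pow_le_pow_of_le_one (by norm_num) (by norm_num) (Nat.le_succ i)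
  exact mul_le_mul_of_nonneg_right h3 (sq_nonneg _)

end Pool.Agent.H45.CLT
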