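import Pool.Agent.H45.CLT.StepE1
import Pool.Agent.H45.CLT.StepE2

/-!
# Module STEPE: dyadic descent, summation over the levels.
-/

set_option autoImplicit false

open MeasureTheory ProbabilityTheory
open scoped ENNReal NNReal

namespace Pool.Agent.H45.CLT

variable {S : Type} [MeasurableSpace S]

namespace StepEAux

/-- `∑_{i<n} 2^{i+1} ≤ 2·2^n` -/
theorem sum_pow_le (n : ℕ) : ∑ i ∈ Finset.range n, (2 : ℝ) ^ i ≤ 2 ^ n := by
  induction n with
  | zero => simp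
  | succ n ih => rw [Finset.sum_range_succ, pow_succ]; linarith

/-- `∑_{i<n} √(2^{i+1}) ≤ 4 √(2^n)` -/
theorem sum_sqrt_pow_le (n : ℕ) :
    ∑ i ∈ Finset.range n, Real.sqrt ((2 : ℝ) ^ (i + 1)) ≤ 4 * Real.sqrt (2 ^ n) := by
  induction n with
  | zero => simp
  | succ n ih =>
    rw [Finset.sum_range_succ]
    have h1 : Real.sqrt ((2 : ℝ) ^ (n + 1)) = Real.sqrt 2 * Real.sqrt (2 ^ n) := by
      rw [pow_succ, mul_comm, Real.sqrt_mul (by norm_num)]
    have h2 : (4 / 3 : ℝ) ≤ Real.sqrt 2 := by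
      apply Real.le_sqrt_of_sq_le; norm_num
    have h3 : 0 ≤ Real.sqrt ((2 : ℝ) ^ n) := Real.sqrt_nonneg _
    rw [h1]
    nlinarith [mul_le_mul_of_nonneg_right h2 h3]

/-- monotone majorant -/
theorem sum_Ico_le (g : ℕ → ℝ) (hg : ∀ i, 0 ≤ g i) (j n : ℕ) :
    ∑ i ∈ Finset.Ico j n, g i ≤ ∑ i ∈ Finset.range n, g i :=
  Finset.sum_le_sum_of_subset_of_nonneg
    (fun i hi => Finset.mem_range.mpr (Finset.mem_Ico.mp hi).2) fun i _ _ => hg i

end StepEAux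

open StepEAux

/-- STEP E: dyadic descent from level `I` to level `j` -/
theorem Ctx.stepE (M : Model S) (lam s : ℝ) :
    ∃ D : ℝ, 0 < D ∧ ∀ (X : Ctx M lam s) (j : ℕ), j ≤ X.I →
      ‖X.J X.I - X.J j‖ ≤ D * (Real.sqrt X.τ + Real.sqrt (∑' i, M.e (i + j))) := by
  obtain ⟨DA, hDA, hA⟩ := Ctx.stepA M lam s
  obtain ⟨D2, hD2, hT2⟩ := Ctx.T2_le M lam s
  obtain ⟨DG, hDG, hG⟩ := Ctx.LG_sum M lam s
  obtain ⟨DΔ, hDΔ, hΔ⟩ := Ctx.LΔ_sum M lam s
  refine ⟨(DA + 2) + D2 * (4 * Real.sqrt DA + 4) + Real.sqrt DG * Real.sqrt 8 + Real.sqrt DΔ,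
    by positivity, fun X j hj => ?_⟩
  have hτ0 := X.τ_nonneg
  have hτ1 := X.hτ1
  have hτs : X.τ ≤ Real.sqrt X.τ := by
    apply Real.le_sqrt_of_sq_le
    nlinarith
  have hm := X.m_pos
  have hn := X.n_pos
  have hK : 0 < X.K := by linarith [X.hK]
  have hy0 : 0 ≤ X.y1 := integral_nonneg fun x => norm_nonneg _
  have hmI : (2 : ℝ) ^ X.I = X.m := rfl
  have hδ0 := X.δ_nonneg
  -- `m K y1 ≤ DA τ`
  have hy1 : X.m * (X.K * X.y1) ≤ DA * X.τ := by
    have h1 : X.n * X.y1 ≤ DA := hA X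
    have h2 : X.K * X.m / X.n ≤ X.τ := X.hN'
    calc X.m * (X.K * X.y1) = (X.K * X.m / X.n) * (X.n * X.y1) := by field_simp
      _ ≤ X.τ * DA := by gcongr
      _ = DA * X.τ := mul_comm _ _
  -- telescoping
  have htel : X.J X.I - X.J j = ∑ i ∈ Finset.Ico j X.I, (X.J (i + 1) - X.J i) :=
    (Finset.sum_Ico_sub (fun i => X.J i) hj).symm
  have hb : ‖X.J X.I - X.J j‖ ≤ ∑ i ∈ Finset.Ico j X.I, ‖X.T1 i‖ + ∑ i ∈ Finset.Ico j X.I, ‖X.T2 i‖
      + ∑ i ∈ Finset.Ico j X.I, ‖X.T3 i‖ + ∑ i ∈ Finset.Ico j X.I, ‖X.T4 i‖ := by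
    rw [htel, ← Finset.sum_add_distrib, ← Finset.sum_add_distrib, ← Finset.sum_add_distrib]
    refine (norm_sum_le _ _).trans (Finset.sum_le_sum fun i _ => ?_)
    rw [X.descent i]
    exact (norm_add_le _ _).trans (add_le_add ((norm_add_le _ _).trans
      (add_le_add (norm_add_le _ _) le_rfl)) le_rfl)
  -- T1
  have b1 : ∑ i ∈ Finset.Ico j X.I, ‖X.T1 i‖ ≤ (DA + 2) * Real.sqrt X.τ := by
    have h1 : ∀ i, 0 ≤ 2 ^ i * X.K * X.y1 + 2 ^ (i + 1) * M.δ X.K / X.m := fun i => by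
      positivity
    calc ∑ i ∈ Finset.Ico j X.I, ‖X.T1 i‖
        ≤ ∑ i ∈ Finset.Ico j X.I, (2 ^ i * X.K * X.y1 + 2 ^ (i + 1) * M.δ X.K / X.m) :=
          Finset.sum_le_sum fun i _ => X.T1_le i
      _ ≤ ∑ i ∈ Finset.range X.I, (2 ^ i * X.K * X.y1 + 2 ^ (i + 1) * M.δ X.K / X.m) :=
          sum_Ico_le _ h1 _ _
      _ = (∑ i ∈ Finset.range X.I, (2 : ℝ) ^ i) * (X.K * X.y1 + 2 * M.δ X.K / X.m) := by
          rw [Finset.sum_mul]
          refine Finset.sum_congr rfl fun i _ => ?_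
          rw [pow_succ]; ring
      _ ≤ X.m * (X.K * X.y1 + 2 * M.δ X.K / X.m) := by
          have h2 := sum_pow_le X.I
          rw [hmI] at h2
          gcongr
      _ = X.m * (X.K * X.y1) + 2 * M.δ X.K := by field_simp
      _ ≤ DA * X.τ + 2 * X.τ := add_le_add hy1 (by linarith [X.hδ])
      _ = (DA + 2) * X.τ := by ring
      _ ≤ (DA + 2) * Real.sqrt X.τ := by gcongr
  -- T2
  have b2 : ∑ i ∈ Finset.Ico j X.I, ‖X.T2 i‖ ≤ D2 * (4 * Real.sqrt DA + 4) * Real.sqrt X.τ := by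
    have h1 : ∀ i, 0 ≤ D2 * (Real.sqrt (2 ^ (i + 1) * X.K * X.y1)
        + Real.sqrt (2 ^ (i + 1) * M.δ X.K / X.m)) := fun i => by positivity
    have h2 := sum_sqrt_pow_le X.I
    rw [hmI] at h2
    calc ∑ i ∈ Finset.Ico j X.I, ‖X.T2 i‖
        ≤ ∑ i ∈ Finset.Ico j X.I, D2 * (Real.sqrt (2 ^ (i + 1) * X.K * X.y1)
        + Real.sqrt (2 ^ (i + 1) * M.δ X.K / X.m)) :=
          Finset.sum_le_sum fun i _ => hT2 X i
      _ ≤ ∑ i ∈ Finset.range X.I, D2 * (Real.sqrt (2 ^ (i + 1) * X.K * X.y1)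
        + Real.sqrt (2 ^ (i + 1) * M.δ X.K / X.m)) := sum_Ico_le _ h1 _ _
      _ = (∑ i ∈ Finset.range X.I, Real.sqrt ((2 : ℝ) ^ (i + 1)))
          * (D2 * (Real.sqrt (X.K * X.y1) + Real.sqrt (M.δ X.K / X.m))) := by
          rw [Finset.sum_mul]
          refine Finset.sum_congr rfl fun i _ => ?_
          rw [mul_assoc ((2 : ℝ) ^ (i + 1)), mul_div_assoc, Real.sqrt_mul (by positivity),
            Real.sqrt_mul (by positivity) (M.δ X.K / X.m)]
          ring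
      _ ≤ (4 * Real.sqrt X.m) * (D2 * (Real.sqrt (X.K * X.y1) + Real.sqrt (M.δ X.K / X.m))) := by
          gcongr
      _ = D2 * (4 * Real.sqrt (X.m * (X.K * X.y1)) + 4 * Real.sqrt (X.m * (M.δ X.K / X.m))) := by
          rw [Real.sqrt_mul hm.le, Real.sqrt_mul hm.le (M.δ X.K / X.m)]; ring
      _ ≤ D2 * (4 * Real.sqrt (DA * X.τ) + 4 * Real.sqrt X.τ) := by
          have h3 : X.m * (M.δ X.K / X.m) ≤ X.τ := by
            rw [mul_div_cancel₀ _ hm.ne']; exact X.hδ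
          gcongr
      _ = D2 * (4 * Real.sqrt DA + 4) * Real.sqrt X.τ := by
          rw [Real.sqrt_mul hDA.le]; ring
  -- the tail of `e`
  have he := M.e_summable
  have hej : Summable fun i => M.e (i + j) := (summable_nat_add_iff j).mpr he
  set E := ∑' i, M.e (i + j) with hE
  have hE0 : 0 ≤ E := tsum_nonneg fun i => M.e_nonneg _
  have hsumE : ∑ i ∈ Finset.Ico j X.I, M.e i ≤ E := by
    rw [Finset.sum_Ico_eq_sum_range]
    have h1 := hej.sum_le_tsum (Finset.range (X.I - j)) fun i _ => M.e_nonneg _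
    refine le_trans (le_of_eq ?_) h1
    exact Finset.sum_congr rfl fun i _ => by rw [add_comm]
  have hsumE1 : ∑ i ∈ Finset.Ico j X.I, M.e (i + 1) ≤ E := by
    rw [Finset.sum_Ico_eq_sum_range]
    have h1 := hej.sum_le_tsum (Finset.range (X.I - j + 1)) fun i _ => M.e_nonneg _
    rw [Finset.sum_range_succ'] at h1
    have h2 : 0 ≤ M.e (0 + j) := M.e_nonneg _
    have h3 : ∑ i ∈ Finset.range (X.I - j), M.e (j + i + 1)
        = ∑ i ∈ Finset.range (X.I - j), M.e (i + 1 + j) :=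
      Finset.sum_congr rfl fun i _ => by congr 1; ring
    linarith
  -- T3
  have b3 : ∑ i ∈ Finset.Ico j X.I, ‖X.T3 i‖ ≤ Real.sqrt DG * Real.sqrt 8 * Real.sqrt E := by
    have hL0 : ∀ i, 0 ≤ X.LG i := fun i => ENNReal.toReal_nonneg
    calc ∑ i ∈ Finset.Ico j X.I, ‖X.T3 i‖
        ≤ ∑ i ∈ Finset.Ico j X.I, Real.sqrt ((1 / 2) ^ (i + 1) * X.LG i)
          * Real.sqrt (4 * (M.e i + M.e (i + 1))) := by
          refine Finset.sum_le_sum fun i _ => X.T3_le i (X.LG i) (hL0 i) ?_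
          unfold Ctx.LG
          rw [ENNReal.ofReal_toReal (X.LG_lt_top i).ne]
      _ ≤ Real.sqrt (∑ i ∈ Finset.Ico j X.I, (1 / 2) ^ (i + 1) * X.LG i)
          * Real.sqrt (∑ i ∈ Finset.Ico j X.I, 4 * (M.e i + M.e (i + 1))) :=
          Real.sum_sqrt_mul_sqrt_le _ (fun i => mul_nonneg (by positivity) (hL0 i))
            fun i => mul_nonneg (by norm_num) (add_nonneg (M.e_nonneg _) (M.e_nonneg _))
      _ ≤ Real.sqrt DG * Real.sqrt (8 * E) := by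
          gcongr
          · exact (sum_Ico_le _ (fun i => mul_nonneg (by positivity) (hL0 i)) _ _).trans
              (hG X X.I)
          · rw [← Finset.mul_sum, Finset.sum_add_distrib]
            linarith
      _ = Real.sqrt DG * Real.sqrt 8 * Real.sqrt E := by
          rw [Real.sqrt_mul (by norm_num : (0 : ℝ) ≤ 8)]; ring
  -- T4
  have b4 : ∑ i ∈ Finset.Ico j X.I, ‖X.T4 i‖ ≤ Real.sqrt DΔ * Real.sqrt E := by
    have hL0 : ∀ i, 0 ≤ X.LΔ i := fun i => ENNReal.toReal_nonneg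
    calc ∑ i ∈ Finset.Ico j X.I, ‖X.T4 i‖
        ≤ ∑ i ∈ Finset.Ico j X.I, Real.sqrt ((1 / 2) ^ (i + 1) * X.LΔ i)
          * Real.sqrt (M.e (i + 1)) := by
          refine Finset.sum_le_sum fun i _ => X.T4_le i (X.LΔ i) (hL0 i) ?_
          unfold Ctx.LΔ
          rw [ENNReal.ofReal_toReal (X.LΔ_lt_top i).ne]
      _ ≤ Real.sqrt (∑ i ∈ Finset.Ico j X.I, (1 / 2) ^ (i + 1) * X.LΔ i)
          * Real.sqrt (∑ i ∈ Finset.Ico j X.I, M.e (i + 1)) :=
          Real.sum_sqrt_mul_sqrt_le _ (fun i => mul_nonneg (by positivity) (hL0 i))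
            fun i => M.e_nonneg _
      _ ≤ Real.sqrt DΔ * Real.sqrt E := by
          gcongr
          exact (sum_Ico_le _ (fun i => mul_nonneg (by positivity) (hL0 i)) _ _).trans
            (hΔ X X.I)
  have hsτ : 0 ≤ Real.sqrt X.τ := Real.sqrt_nonneg _
  have hsE : 0 ≤ Real.sqrt E := Real.sqrt_nonneg _
  have c1 : 0 ≤ (DA + 2) + D2 * (4 * Real.sqrt DA + 4) := by positivity
  have c2 : 0 ≤ Real.sqrt DG * Real.sqrt 8 + Real.sqrt DΔ := by positivity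
  nlinarith [mul_nonneg c1 hsE, mul_nonneg c2 hsτ]

end Pool.Agent.H45.CLT
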