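import Pool.Agent.H45.CLT.Ctx
import Pool.Agent.H45.CLT.L2

/-!
# Module STEPF1: the fixed level
`2J(j) - ∫c b f² = ∫ c b Ψ + 2 E_Θ[b(x) G*_j(x) S_exc]`, `Ψ = 2fG*_j - f²`, `|Ψ| ≤ C_j A` pointwise.
-/

set_option autoImplicit false

open MeasureTheory ProbabilityTheory
open scoped ENNReal NNReal

namespace Pool.Agent.H45.CLT

variable {S : Type} [MeasurableSpace S]

/-- STEP F1: at a fixed level `j`,
`2 J(r_j) - ∫ c b f² = ∫ u (2 f G*_{r_j} - f²) + O_j(√τ)` -/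
theorem Ctx.stepF1 (M : Model S) (lam s : ℝ) (j : ℕ) :
    ∃ D : ℝ, 0 < D ∧ ∀ X : Ctx M lam s,
      ‖2 * X.J j - ∫ x, ((1 - X.k.χ x : ℝ) : ℂ) * X.b x * (((M.f x) ^ 2 : ℝ) : ℂ) ∂M.ν
        - ∫ x, X.u x * ((2 * M.f x * M.Gs (rr j) x - (M.f x) ^ 2 : ℝ) : ℂ) ∂M.ν‖
        ≤ D * Real.sqrt X.τ := by
  set a : ℝ := ∫ x, M.A x ∂M.ν with ha
  have ha0 : 0 ≤ a := integral_nonneg M.A_nonneg
  have hr0 := rr_nonneg j
  have hr1 := rr_lt_one j
  set c : ℝ := (1 - rr j)⁻¹ with hc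
  have hc0 : 0 ≤ c := inv_nonneg.2 (by linarith)
  refine ⟨(2 + c) * (|lam| * a + 2) + 10 * Real.sqrt (c * a) + 1, by positivity, fun X => ?_⟩
  have hτ0 := X.τ_nonneg
  have hτ1 := X.hτ1
  have hsq : X.τ ≤ Real.sqrt X.τ := by
    rw [Real.le_sqrt hτ0 hτ0]
    nlinarith
  have hGm : Measurable (M.Gs (rr j)) := M.measurable_Gs _ hr0 hr1
  have hG2 : MemLp (M.Gs (rr j)) 2 M.ν := M.memLp_Gs _ hr0 hr1
  have hfm := M.measurable_f
  have hbm := X.measurable_b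
  have hum := X.hum
  have hχm : Measurable (fun x => 1 - X.k.χ x) := measurable_const.sub X.k.hm
  set Ψ : S → ℝ := fun x => 2 * M.f x * M.Gs (rr j) x - (M.f x) ^ 2 with hΨ
  have hΨm : Measurable Ψ := ((hfm.const_mul 2).mul hGm).sub (hfm.pow_const 2)
  have hΨb : ∀ x, |Ψ x| ≤ (2 + c) * M.A x := by
    intro x
    have h1 := M.f_sq_le_A x
    have h2 : (M.Gs (rr j) x) ^ 2 ≤ c * M.A x := M.Gs_sq_le (rr j) hr0 hr1 x
    simp only [hΨ]
    rw [abs_le]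
    constructor <;> nlinarith [sq_nonneg (M.f x + M.Gs (rr j) x),
      sq_nonneg (M.f x - M.Gs (rr j) x)]
  have hΨi : Integrable Ψ M.ν :=
    (M.integrable_A.const_mul (2 + c)).mono' hΨm.aestronglyMeasurable
      (Filter.Eventually.of_forall fun x => by rw [Real.norm_eq_abs]; exact hΨb x)
  have hfi : Integrable (fun x => (M.f x) ^ 2) M.ν := M.memLp_f.integrable_sq
  have hfG : Integrable (fun x => M.f x * M.Gs (rr j) x) M.ν := M.memLp_f.integrable_mul hG2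
  -- weights
  have hcbm : Measurable (fun x => ((1 - X.k.χ x : ℝ) : ℂ) * X.b x) :=
    (Complex.measurable_ofReal.comp hχm).mul hbm
  have hcb1 : ∀ x, ‖((1 - X.k.χ x : ℝ) : ℂ) * X.b x‖ ≤ 1 := by
    intro x
    rw [norm_mul, Complex.norm_real, Real.norm_eq_abs, abs_of_nonneg (X.one_sub_χ_nonneg x)]
    have h1 := X.one_sub_χ_le x
    have h2 := X.norm_b_le x
    have h3 := norm_nonneg (X.b x)
    have h4 := X.one_sub_χ_nonneg x
    nlinarith
  -- splitting of `J`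
  have hGx : MemLp (fun p : ℕ × (ℕ → S) => M.Gs (rr j) (p.2 0)) 2 X.Θ :=
    M.toChain.memLp_x X.k 2 _ hG2
  have hfx : MemLp (fun p : ℕ × (ℕ → S) => M.f (p.2 0)) 2 X.Θ :=
    M.toChain.memLp_x X.k 2 _ M.memLp_f
  have hSe : MemLp M.Se 2 X.Θ := M.memLp_Se X.k
  have hbx : Measurable (fun p : ℕ × (ℕ → S) => X.b (p.2 0)) :=
    hbm.comp ((measurable_pi_apply 0).comp measurable_snd)
  have i1 : Integrable (fun p : ℕ × (ℕ → S) =>
      X.b (p.2 0) * ((M.Gs (rr j) (p.2 0) * M.f (p.2 0) : ℝ) : ℂ)) X.Θ :=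
    L2.integrable_bmul hbx.aestronglyMeasurable 1 (fun p => X.norm_b_le _)
      (hGx.integrable_mul hfx)
  have i2 : Integrable (fun p : ℕ × (ℕ → S) =>
      X.b (p.2 0) * ((M.Gs (rr j) (p.2 0) * M.Se p : ℝ) : ℂ)) X.Θ :=
    L2.integrable_bmul hbx.aestronglyMeasurable 1 (fun p => X.norm_b_le _)
      (hGx.integrable_mul hSe)
  set R : ℂ := ∫ p, X.b (p.2 0) * ((M.Gs (rr j) (p.2 0) * M.Se p : ℝ) : ℂ) ∂X.Θ with hR
  have hJ : X.J j = ∫ x, ((1 - X.k.χ x : ℝ) : ℂ) * X.b x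
      * ((M.f x * M.Gs (rr j) x : ℝ) : ℂ) ∂M.ν + R := by
    have e1 : X.J j = ∫ p, (X.b (p.2 0) * ((M.Gs (rr j) (p.2 0) * M.f (p.2 0) : ℝ) : ℂ)
        + X.b (p.2 0) * ((M.Gs (rr j) (p.2 0) * M.Se p : ℝ) : ℂ)) ∂X.Θ := by
      unfold Ctx.J
      refine integral_congr_ae (Filter.Eventually.of_forall fun p => ?_)
      simp only
      rw [M.Sl_eq p]
      push_cast
      ring
    rw [e1, integral_add i1 i2]
    congr 1
    have hφ : Measurable (fun x => X.b x * ((M.Gs (rr j) x * M.f x : ℝ) : ℂ)) :=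
      hbm.mul (Complex.measurable_ofReal.comp (hGm.mul hfm))
    have e2 := M.toChain.integral_x X.k (fun x => X.b x * ((M.Gs (rr j) x * M.f x : ℝ) : ℂ))
      hφ.aestronglyMeasurable
    refine e2.trans (integral_congr_ae (Filter.Eventually.of_forall fun x => ?_))
    simp only [Complex.real_smul]
    push_cast
    ring
  have i3 : Integrable (fun x => ((1 - X.k.χ x : ℝ) : ℂ) * X.b x
      * ((M.f x * M.Gs (rr j) x : ℝ) : ℂ)) M.ν :=
    L2.integrable_bmul hcbm.aestronglyMeasurable 1 hcb1 hfG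
  have i4 : Integrable (fun x => ((1 - X.k.χ x : ℝ) : ℂ) * X.b x
      * (((M.f x) ^ 2 : ℝ) : ℂ)) M.ν :=
    L2.integrable_bmul hcbm.aestronglyMeasurable 1 hcb1 hfi
  have i5 : Integrable (fun x => X.u x * ((Ψ x : ℝ) : ℂ)) M.ν :=
    L2.integrable_bmul hum.aestronglyMeasurable 1 X.hu1 hΨi
  have hmain : 2 * X.J j - ∫ x, ((1 - X.k.χ x : ℝ) : ℂ) * X.b x * (((M.f x) ^ 2 : ℝ) : ℂ) ∂M.ν
        - ∫ x, X.u x * ((Ψ x : ℝ) : ℂ) ∂M.ν
      = ∫ x, (((1 - X.k.χ x : ℝ) : ℂ) * X.b x - X.u x) * ((Ψ x : ℝ) : ℂ) ∂M.ν + 2 * R := by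
    have e3 : ∫ x, (((1 - X.k.χ x : ℝ) : ℂ) * X.b x - X.u x) * ((Ψ x : ℝ) : ℂ) ∂M.ν
        = ∫ x, (2 * (((1 - X.k.χ x : ℝ) : ℂ) * X.b x * ((M.f x * M.Gs (rr j) x : ℝ) : ℂ))
          - ((1 - X.k.χ x : ℝ) : ℂ) * X.b x * (((M.f x) ^ 2 : ℝ) : ℂ)
          - X.u x * ((Ψ x : ℝ) : ℂ)) ∂M.ν := by
      refine integral_congr_ae (Filter.Eventually.of_forall fun x => ?_)
      simp only [hΨ]
      push_cast
      ring
    have i6 : Integrable (fun x =>
        2 * (((1 - X.k.χ x : ℝ) : ℂ) * X.b x * ((M.f x * M.Gs (rr j) x : ℝ) : ℂ))) M.ν :=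
      i3.const_mul 2
    have i7 : Integrable (fun x =>
        2 * (((1 - X.k.χ x : ℝ) : ℂ) * X.b x * ((M.f x * M.Gs (rr j) x : ℝ) : ℂ))
          - ((1 - X.k.χ x : ℝ) : ℂ) * X.b x * (((M.f x) ^ 2 : ℝ) : ℂ)) M.ν := i6.sub i4
    rw [e3, integral_sub i7 i5, integral_sub i6 i4, integral_const_mul, hJ]
    ring
  have hR1 : ‖R‖ ≤ 5 * Real.sqrt (c * a) * Real.sqrt X.τ := by
    have h1 := L2.norm_cs (μ := X.Θ) (b := fun p : ℕ × (ℕ → S) => X.b (p.2 0))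
      (fun p => X.norm_b_le _) hGx hSe
    refine h1.trans ?_
    have h2 : ∫ p, (M.Gs (rr j) (p.2 0)) ^ 2 ∂X.Θ ≤ c * a := by
      have e4 := M.toChain.integral_x X.k (fun x => (M.Gs (rr j) x) ^ 2)
        (hGm.pow_const 2).aestronglyMeasurable
      have e5 : ∫ p, (M.Gs (rr j) (p.2 0)) ^ 2 ∂X.Θ
          = ∫ x, (1 - X.k.χ x) • (M.Gs (rr j) x) ^ 2 ∂M.ν := e4
      rw [e5, ha, ← integral_const_mul]
      refine integral_mono_of_nonneg (Filter.Eventually.of_forall fun x => ?_)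
        (M.integrable_A.const_mul c) (Filter.Eventually.of_forall fun x => ?_)
      · exact smul_nonneg (X.one_sub_χ_nonneg x) (sq_nonneg _)
      · simp only [smul_eq_mul]
        exact (mul_le_of_le_one_left (sq_nonneg _) (X.one_sub_χ_le x)).trans
          (M.Gs_sq_le (rr j) hr0 hr1 x)
    have h3 : Real.sqrt (∫ p, (M.Se p) ^ 2 ∂X.Θ) ≤ 5 * Real.sqrt X.τ := by
      have h4 := Real.sqrt_le_sqrt X.Se_sq_le
      have h5 : Real.sqrt (25 * X.τ) = 5 * Real.sqrt X.τ := by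
        rw [Real.sqrt_mul (by norm_num), show (25 : ℝ) = 5 ^ 2 by norm_num,
          Real.sqrt_sq (by norm_num)]
      rwa [h5] at h4
    calc Real.sqrt (∫ p, (M.Gs (rr j) (p.2 0)) ^ 2 ∂X.Θ) * Real.sqrt (∫ p, (M.Se p) ^ 2 ∂X.Θ)
        ≤ Real.sqrt (c * a) * (5 * Real.sqrt X.τ) :=
          mul_le_mul (Real.sqrt_le_sqrt h2) h3 (Real.sqrt_nonneg _) (Real.sqrt_nonneg _)
      _ = _ := by ring
  have hI1 : ‖∫ x, (((1 - X.k.χ x : ℝ) : ℂ) * X.b x - X.u x) * ((Ψ x : ℝ) : ℂ) ∂M.ν‖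
      ≤ (2 + c) * (|lam| * a + 2) * Real.sqrt X.τ := by
    have hpt : ∀ x, ‖(((1 - X.k.χ x : ℝ) : ℂ) * X.b x - X.u x) * ((Ψ x : ℝ) : ℂ)‖
        ≤ (2 + c) * (|lam| * Real.sqrt X.τ) * M.A x
          + (2 + c) * 2 * (M.B X.K).indicator (fun x => M.A x + M.C x) x := by
      intro x
      have hA0 := M.A_nonneg x
      have hC0 := M.C_nonneg x
      rw [norm_mul, Complex.norm_real, Real.norm_eq_abs]
      by_cases hx : x ∈ M.B X.K
      · rw [Set.indicator_of_mem hx]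
        have h1 : ‖((1 - X.k.χ x : ℝ) : ℂ) * X.b x - X.u x‖ ≤ 2 := by
          refine (norm_sub_le _ _).trans ?_
          have := hcb1 x
          have := X.hu1 x
          linarith
        calc ‖((1 - X.k.χ x : ℝ) : ℂ) * X.b x - X.u x‖ * |Ψ x|
            ≤ 2 * ((2 + c) * M.A x) :=
              mul_le_mul h1 (hΨb x) (abs_nonneg _) (by norm_num)
          _ ≤ 2 * ((2 + c) * M.A x) + (2 + c) * (|lam| * Real.sqrt X.τ) * M.A x
              + (2 + c) * 2 * M.C x := by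
              have : 0 ≤ (2 + c) * (|lam| * Real.sqrt X.τ) * M.A x := by positivity
              have : 0 ≤ (2 + c) * 2 * M.C x := by positivity
              linarith
          _ = _ := by ring
      · rw [Set.indicator_of_notMem hx, mul_zero, add_zero]
        have h1 : ‖((1 - X.k.χ x : ℝ) : ℂ) * X.b x - X.u x‖ ≤ |lam| * Real.sqrt X.τ := by
          rw [X.one_sub_χ_notMem hx]
          have e6 : ((1 : ℝ) : ℂ) * X.b x - X.u x
              = (Complex.exp (((-(X.θ * M.G X.r x) : ℝ) : ℂ) * Complex.I) - 1) * X.u x := by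
            unfold Ctx.b
            push_cast
            ring
          rw [e6, norm_mul]
          have h2 : ‖Complex.exp (((-(X.θ * M.G X.r x) : ℝ) : ℂ) * Complex.I) - 1‖
              ≤ |X.θ * M.G X.r x| := by
            have h3 := Real.norm_exp_I_mul_ofReal_sub_one_le (x := -(X.θ * M.G X.r x))
            rw [mul_comm] at h3
            simpa [Real.norm_eq_abs] using h3
          have h3 := X.θG_le hx
          have h4 := X.hu1 x
          calc ‖Complex.exp (((-(X.θ * M.G X.r x) : ℝ) : ℂ) * Complex.I) - 1‖ * ‖X.u x‖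
              ≤ |X.θ * M.G X.r x| * 1 :=
                mul_le_mul h2 h4 (norm_nonneg _) (abs_nonneg _)
            _ ≤ _ := by rw [mul_one]; exact h3
        calc ‖((1 - X.k.χ x : ℝ) : ℂ) * X.b x - X.u x‖ * |Ψ x|
            ≤ (|lam| * Real.sqrt X.τ) * ((2 + c) * M.A x) :=
              mul_le_mul h1 (hΨb x) (abs_nonneg _) (by positivity)
          _ = _ := by ring
    have j1 : Integrable (fun x => (2 + c) * (|lam| * Real.sqrt X.τ) * M.A x) M.ν :=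
      M.integrable_A.const_mul _
    have j2 : Integrable (fun x => (2 + c) * 2
        * (M.B X.K).indicator (fun x => M.A x + M.C x) x) M.ν :=
      ((M.integrable_A.add M.integrable_C).indicator (M.measurableSet_B X.K)).const_mul _
    refine (norm_integral_le_integral_norm _).trans ?_
    refine (integral_mono_of_nonneg (Filter.Eventually.of_forall fun x => norm_nonneg _)
      (j1.add j2) (Filter.Eventually.of_forall hpt)).trans ?_
    simp only [Pi.add_apply]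
    rw [integral_add j1 j2, integral_const_mul, integral_const_mul,
      integral_indicator (M.measurableSet_B X.K)]
    have h5 : ∫ x in M.B X.K, (M.A x + M.C x) ∂M.ν ≤ Real.sqrt X.τ := X.hδ.trans hsq
    have h6 : (2 + c) * 2 * ∫ x in M.B X.K, (M.A x + M.C x) ∂M.ν
        ≤ (2 + c) * 2 * Real.sqrt X.τ := mul_le_mul_of_nonneg_left h5 (by positivity)
    rw [← ha]
    calc (2 + c) * (|lam| * Real.sqrt X.τ) * a
          + (2 + c) * 2 * ∫ x in M.B X.K, (M.A x + M.C x) ∂M.ν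
        ≤ (2 + c) * (|lam| * Real.sqrt X.τ) * a + (2 + c) * 2 * Real.sqrt X.τ := by linarith
      _ = _ := by ring
  have hfin : 2 * X.J j - ∫ x, ((1 - X.k.χ x : ℝ) : ℂ) * X.b x * (((M.f x) ^ 2 : ℝ) : ℂ) ∂M.ν
        - ∫ x, X.u x * ((2 * M.f x * M.Gs (rr j) x - (M.f x) ^ 2 : ℝ) : ℂ) ∂M.ν
      = ∫ x, (((1 - X.k.χ x : ℝ) : ℂ) * X.b x - X.u x) * ((Ψ x : ℝ) : ℂ) ∂M.ν + 2 * R := hmain
  rw [hfin]
  have hs0 := Real.sqrt_nonneg X.τ
  calc ‖∫ x, (((1 - X.k.χ x : ℝ) : ℂ) * X.b x - X.u x) * ((Ψ x : ℝ) : ℂ) ∂M.ν + 2 * R‖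
      ≤ ‖∫ x, (((1 - X.k.χ x : ℝ) : ℂ) * X.b x - X.u x) * ((Ψ x : ℝ) : ℂ) ∂M.ν‖
        + ‖2 * R‖ := norm_add_le _ _
    _ ≤ (2 + c) * (|lam| * a + 2) * Real.sqrt X.τ
        + 2 * (5 * Real.sqrt (c * a) * Real.sqrt X.τ) := by
        rw [norm_mul]
        have h7 : ‖(2 : ℂ)‖ = 2 := by norm_num
        rw [h7]
        linarith
    _ ≤ ((2 + c) * (|lam| * a + 2) + 10 * Real.sqrt (c * a) + 1) * Real.sqrt X.τ := by
        nlinarith

end Pool.Agent.H45.CLT
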