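import Pool.Agent.H45.CLT.StepB
import Pool.Agent.H45.CLT.StepCD
import Pool.Agent.H45.CLT.StepF1
import Pool.Agent.H45.CLT.StepE
import Pool.Agent.H45.CLT.Erg

/-!
# Assembly of the resolvent limit (module ASM)
-/

set_option autoImplicit false

open MeasureTheory ProbabilityTheory
open scoped ENNReal NNReal

namespace Pool.Agent.H45.CLT

variable {S : Type} [MeasurableSpace S]

theorem norm_rho_exp_sub_one (ρ φ : ℝ) (h1 : ρ ≤ 1) :
    ‖(ρ : ℂ) * Complex.exp ((φ : ℂ) * Complex.I) - 1‖ ≤ (1 - ρ) + |φ| := by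
  have h2 : (ρ : ℂ) * Complex.exp ((φ : ℂ) * Complex.I) - 1
      = (Complex.exp ((φ : ℂ) * Complex.I) - 1)
        + (((ρ - 1 : ℝ) : ℂ)) * Complex.exp ((φ : ℂ) * Complex.I) := by
    push_cast; ring
  rw [h2]
  refine (norm_add_le _ _).trans ?_
  have h3 : ‖Complex.exp ((φ : ℂ) * Complex.I) - 1‖ ≤ |φ| := by
    have := Real.norm_exp_I_mul_ofReal_sub_one_le (x := φ)
    rw [mul_comm] at this
    simpa using this
  have h4 : ‖(((ρ - 1 : ℝ) : ℂ)) * Complex.exp ((φ : ℂ) * Complex.I)‖ = 1 - ρ := by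
    rw [norm_mul, Complex.norm_exp_ofReal_mul_I, Complex.norm_real, mul_one, Real.norm_eq_abs,
      abs_of_nonpos (by linarith)]
    ring
  rw [h4]
  linarith

theorem norm_integral_kernel_le (M : Chain S) (u : S → ℂ) (hu1 : ∀ x, ‖u x‖ ≤ 1) (x : S) :
    ‖∫ z, u z ∂(M.Q x)‖ ≤ 1 := by
  refine (norm_integral_le_integral_norm _).trans ?_
  have h : ∫ z, ‖u z‖ ∂(M.Q x) ≤ ∫ _z, (1 : ℝ) ∂(M.Q x) :=
    integral_mono_of_nonneg (Filter.Eventually.of_forall fun z => norm_nonneg _)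
      (integrable_const _) (Filter.Eventually.of_forall hu1)
  simpa using h

theorem integral_abs_le_sqrt (ν : Measure S) [IsProbabilityMeasure ν] (f : S → ℝ)
    (hf2 : MemLp f 2 ν) : ∫ x, |f x| ∂ν ≤ Real.sqrt (∫ x, (f x) ^ 2 ∂ν) := by
  have hi : Integrable f ν := hf2.integrable (by norm_num)
  have hi2 : Integrable (fun x => (f x) ^ 2) ν := hf2.integrable_sq
  apply Real.le_sqrt_of_sq_le
  have h := integral_mono (μ := ν) (f := fun x => 2 * (∫ y, |f y| ∂ν) * |f x|)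
    (g := fun x => (∫ y, |f y| ∂ν) ^ 2 + (f x) ^ 2)
    ((hi.abs).const_mul _) ((integrable_const _).add hi2) (fun x => by
      have := sq_nonneg ((∫ y, |f y| ∂ν) - |f x|)
      have h2 : |f x| ^ 2 = (f x) ^ 2 := sq_abs _
      simp only
      nlinarith)
  rw [integral_const_mul, integral_add (integrable_const _) hi2] at h
  simp at h
  nlinarith

/-- `∫|u - Qu| ≤ 2s/n + |lam| ‖f‖/√n` for the resolvent `u`. -/
theorem resolvent_drift (M : Model S) (lam s : ℝ) (hs : 0 < s) (n : ℕ) (hn : s ≤ n)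
    (w u : S → ℂ) (hw : Measurable w) (hu : Measurable u) (hw1 : ∀ x, ‖w x‖ ≤ 1)
    (hu1 : ∀ x, ‖u x‖ ≤ 1)
    (hres : ∀ x, u x = ((1 - (1 - s / n) : ℝ) : ℂ) * w x
      + ((1 - s / n : ℝ) : ℂ) *
        (Complex.exp (((lam / Real.sqrt n * M.f x : ℝ) : ℂ) * Complex.I)
          * ∫ z, u z ∂(M.Q x))) :
    ∫ x, ‖u x - ∫ z, u z ∂(M.Q x)‖ ∂M.ν
      ≤ 2 * s / n + |lam| / Real.sqrt n * Real.sqrt (∫ x, (M.f x) ^ 2 ∂M.ν) := by
  have hn0 : (0 : ℝ) < n := lt_of_lt_of_le hs hn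
  have hsn : s / n ≤ 1 := by rw [div_le_one hn0]; exact hn
  have hsn0 : 0 ≤ s / n := by positivity
  have hfi : Integrable M.f M.ν := M.memLp_f.integrable (by norm_num)
  have hpt : ∀ x, ‖u x - ∫ z, u z ∂(M.Q x)‖
      ≤ 2 * s / n + |lam| / Real.sqrt n * |M.f x| := by
    intro x
    have h1 : u x - ∫ z, u z ∂(M.Q x) = ((s / n : ℝ) : ℂ) * w x
        + (((1 - s / n : ℝ) : ℂ) *
          Complex.exp (((lam / Real.sqrt n * M.f x : ℝ) : ℂ) * Complex.I) - 1)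
            * ∫ z, u z ∂(M.Q x) := by
      rw [hres x]; push_cast; ring
    rw [h1]
    refine (norm_add_le _ _).trans ?_
    have h2 : ‖((s / n : ℝ) : ℂ) * w x‖ ≤ s / n := by
      rw [norm_mul, Complex.norm_real, Real.norm_eq_abs, abs_of_nonneg hsn0]
      exact mul_le_of_le_one_right hsn0 (hw1 x)
    have h3 := norm_rho_exp_sub_one (1 - s / n) (lam / Real.sqrt n * M.f x) (by linarith)
    have h4 : ‖(((1 - s / n : ℝ) : ℂ) *
          Complex.exp (((lam / Real.sqrt n * M.f x : ℝ) : ℂ) * Complex.I) - 1)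
            * ∫ z, u z ∂(M.Q x)‖ ≤ s / n + |lam| / Real.sqrt n * |M.f x| := by
      rw [norm_mul]
      refine (mul_le_of_le_one_right (norm_nonneg _)
        (norm_integral_kernel_le M.toChain u hu1 x)).trans (h3.trans ?_)
      rw [abs_mul, abs_div, abs_of_nonneg (Real.sqrt_nonneg _)]
      linarith
    calc _ ≤ s / n + (s / n + |lam| / Real.sqrt n * |M.f x|) := add_le_add h2 h4
      _ = _ := by ring
  have h5 : ∫ x, ‖u x - ∫ z, u z ∂(M.Q x)‖ ∂M.ν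
      ≤ ∫ x, (2 * s / n + |lam| / Real.sqrt n * |M.f x|) ∂M.ν :=
    integral_mono_of_nonneg (Filter.Eventually.of_forall fun x => norm_nonneg _)
      ((integrable_const _).add (hfi.abs.const_mul _)) (Filter.Eventually.of_forall hpt)
  refine h5.trans ?_
  rw [integral_add (integrable_const _) (hfi.abs.const_mul _), integral_const_mul]
  simp only [integral_const, probReal_univ, smul_eq_mul, one_mul]
  have := integral_abs_le_sqrt M.ν M.f M.memLp_f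
  gcongr

/-- **Resolvent limit**, uniform in `w`. -/
theorem resolvent_limit (M : Model S) (hM : M.toChain.Erg) (lam s : ℝ) (hs : 0 < s)
    (ε : ℝ) (hε : 0 < ε) :
    ∃ n0 : ℕ, ∀ n : ℕ, n0 ≤ n → ∀ w u : S → ℂ, Measurable w → Measurable u →
      (∀ x, ‖w x‖ ≤ 1) → (∀ x, ‖u x‖ ≤ 1) →
      (∀ x, u x = ((1 - (1 - s / n) : ℝ) : ℂ) * w x
        + ((1 - s / n : ℝ) : ℂ) *
          (Complex.exp (((lam / Real.sqrt n * M.f x : ℝ) : ℂ) * Complex.I)
            * ∫ z, u z ∂(M.Q x))) →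
      ‖((s + lam ^ 2 * M.σ2 / 2 : ℝ) : ℂ) * ∫ x, u x ∂M.ν - (s : ℂ) * ∫ x, w x ∂M.ν‖ ≤ ε := by
  obtain ⟨DB, hDB0, hDB⟩ := Ctx.stepB M lam s
  obtain ⟨DC, hDC0, hDC⟩ := Ctx.stepCD M lam s
  obtain ⟨DE, hDE0, hDE⟩ := Ctx.stepE M lam s
  -- `L = lam²/2`
  set L : ℝ := lam ^ 2 / 2 with hL
  have hL0 : 0 ≤ L := by positivity
  -- choice of the level `j`
  have htail : Filter.Tendsto (fun j => Real.sqrt (∑' i, M.e (i + j))) Filter.atTop (nhds 0) := by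
    have h := tendsto_sum_nat_add M.e
    have h2 := (Real.continuous_sqrt.tendsto 0).comp h
    rw [Real.sqrt_zero] at h2
    exact h2
  have hΨt := M.tendsto_Ψ
  obtain ⟨j, hj1, hj2⟩ : ∃ j : ℕ, L * (2 * (DE * Real.sqrt (∑' i, M.e (i + j)))) ≤ ε / 6 ∧
      L * |M.σ2 - ∫ x, (2 * M.f x * M.Gs (rr j) x - (M.f x) ^ 2) ∂M.ν| ≤ ε / 6 := by
    have h1 : Filter.Tendsto (fun j => L * (2 * (DE * Real.sqrt (∑' i, M.e (i + j)))))
        Filter.atTop (nhds 0) := by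
      have := ((htail.const_mul DE).const_mul 2).const_mul L
      simpa using this
    have h2 : Filter.Tendsto
        (fun j => L * |M.σ2 - ∫ x, (2 * M.f x * M.Gs (rr j) x - (M.f x) ^ 2) ∂M.ν|)
        Filter.atTop (nhds 0) := by
      have := ((tendsto_const_nhds (x := M.σ2)).sub hΨt).abs.const_mul L
      simpa using this
    have e1 := h1.eventually (gt_mem_nhds (show (0 : ℝ) < ε / 6 by positivity))
    have e2 := h2.eventually (gt_mem_nhds (show (0 : ℝ) < ε / 6 by positivity))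
    obtain ⟨j, hj⟩ := (e1.and e2).exists
    exact ⟨j, hj.1.le, hj.2.le⟩
  obtain ⟨DF, hDF0, hDF⟩ := Ctx.stepF1 M lam s j
  -- choice of `τ0`
  set T : ℝ := DB + L * (DC + 2 * DE + DF) with hT
  have hT0 : 0 < T := by positivity
  obtain ⟨τ0, hτ00, hτ01, hτ02⟩ : ∃ τ0 : ℝ, 0 < τ0 ∧ τ0 ≤ 1 ∧ T * Real.sqrt τ0 ≤ ε / 6 := by
    refine ⟨min 1 ((ε / (6 * T)) ^ 2), by positivity, min_le_left _ _, ?_⟩
    have h1 : Real.sqrt (min 1 ((ε / (6 * T)) ^ 2)) ≤ ε / (6 * T) := by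
      refine (Real.sqrt_le_sqrt (min_le_right _ _)).trans ?_
      rw [Real.sqrt_sq (by positivity)]
    calc T * Real.sqrt (min 1 ((ε / (6 * T)) ^ 2)) ≤ T * (ε / (6 * T)) := by gcongr
      _ = ε / 6 := by field_simp
  -- ergodic decoupling
  set Ψ : S → ℝ := fun x => 2 * M.f x * M.Gs (rr j) x - (M.f x) ^ 2 with hΨ
  have hΨm : Measurable Ψ :=
    ((measurable_const.mul M.measurable_f).mul (M.measurable_Gs _ (rr_nonneg j) (rr_lt_one j))).sub
      (M.measurable_f.pow_const 2)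
  have hΨi : Integrable Ψ M.ν := by
    have h1 : Integrable (fun x => M.f x * M.Gs (rr j) x) M.ν :=
      M.memLp_f.integrable_mul (M.memLp_Gs _ (rr_nonneg j) (rr_lt_one j))
    have h2 : Integrable (fun x => (M.f x) ^ 2) M.ν := M.memLp_f.integrable_sq
    refine ((h1.const_mul 2).sub h2).congr (Filter.Eventually.of_forall fun x => ?_)
    simp only [hΨ, Pi.sub_apply]; ring
  obtain ⟨η, hη0, hη⟩ := hM.decouple Ψ hΨm hΨi (ε / (6 * (L + 1))) (by positivity)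
  -- choice of `K`
  obtain ⟨K, hK1, hKδ⟩ : ∃ K : ℝ, 1 ≤ K ∧ M.δ K ≤ τ0 := by
    have h1 := M.tendsto_δ.eventually (gt_mem_nhds hτ00)
    obtain ⟨K, hK⟩ := (h1.and (Filter.eventually_ge_atTop 1)).exists
    exact ⟨K, hK.2, hK.1.le⟩
  -- `N0`
  set N0 : ℝ := K / τ0 with hN0
  have hN00 : 0 < N0 := by positivity
  -- `I0`
  obtain ⟨I0, hI0⟩ : ∃ I0 : ℕ, ∀ I, I0 ≤ I → 2 * N0 * M.e I ≤ τ0 := by
    have h1 : Filter.Tendsto (fun I => 2 * N0 * M.e I) Filter.atTop (nhds 0) := by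
      have := M.e_summable.tendsto_atTop_zero.const_mul (2 * N0)
      simpa using this
    have h2 := h1.eventually (gt_mem_nhds hτ00)
    obtain ⟨I0, h⟩ := Filter.eventually_atTop.1 h2
    exact ⟨I0, fun I hI => (h I hI).le⟩
  set I1 : ℕ := max (max I0 j) 1 with hI1
  -- drift small
  have hdrift : Filter.Tendsto (fun n : ℕ => 2 * s / n
      + |lam| / Real.sqrt n * Real.sqrt (∫ x, (M.f x) ^ 2 ∂M.ν)) Filter.atTop (nhds 0) := by
    have h1 : Filter.Tendsto (fun n : ℕ => 2 * s / (n : ℝ)) Filter.atTop (nhds 0) :=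
      tendsto_const_div_atTop_nhds_zero_nat _
    have h2 : Filter.Tendsto (fun n : ℕ => |lam| / Real.sqrt (n : ℝ)) Filter.atTop (nhds 0) := by
      have hsq : Filter.Tendsto (fun n : ℕ => Real.sqrt (n : ℝ)) Filter.atTop Filter.atTop :=
        Real.tendsto_sqrt_atTop.comp tendsto_natCast_atTop_atTop
      exact Filter.Tendsto.const_div_atTop hsq _
    have h3 := h1.add (h2.mul_const (Real.sqrt (∫ x, (M.f x) ^ 2 ∂M.ν)))
    simpa using h3
  obtain ⟨n1, hn1⟩ := Filter.eventually_atTop.1 (hdrift.eventually (gt_mem_nhds hη0))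
  obtain ⟨n2, hn2⟩ := exists_nat_ge (max s (N0 * 2 ^ (I1 + 1)))
  refine ⟨max n1 n2, fun n hn w u hwm hum hw1 hu1 hres => ?_⟩
  have hnn1 : n1 ≤ n := le_trans (le_max_left _ _) hn
  have hnn2 : (n2 : ℝ) ≤ n := by exact_mod_cast le_trans (le_max_right _ _) hn
  have hsn : s ≤ n := (le_max_left _ _).trans (hn2.trans hnn2)
  have hnN : N0 * 2 ^ (I1 + 1) ≤ n := (le_max_right _ _).trans (hn2.trans hnn2)
  have hn0 : (0 : ℝ) < n := lt_of_lt_of_le hs hsn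
  have hx1 : (1 : ℝ) ≤ n / N0 := by
    rw [le_div_iff₀ hN00]
    calc 1 * N0 ≤ N0 * 2 ^ (I1 + 1) := by
          rw [one_mul]
          exact le_mul_of_one_le_right hN00.le (one_le_pow₀ (by norm_num))
      _ ≤ n := hnN
  obtain ⟨I, hIa, hIb⟩ := exists_nat_pow_near hx1 (show (1 : ℝ) < 2 by norm_num)
  have hII : I1 ≤ I := by
    have h1 : (2 : ℝ) ^ (I1 + 1) < 2 ^ (I + 1) := by
      refine lt_of_le_of_lt ?_ hIb
      rw [le_div_iff₀ hN00, mul_comm]; exact hnN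
    have h2 := (pow_lt_pow_iff_right₀ (show (1 : ℝ) < 2 by norm_num)).1 h1
    omega
  have hI0I : I0 ≤ I := (le_max_left _ _).trans ((le_max_left _ _).trans hII)
  have hjI : j ≤ I := (le_max_right _ _).trans ((le_max_left _ _).trans hII)
  have h1I : 1 ≤ I := (le_max_right _ _).trans hII
  have h2I : (0 : ℝ) < 2 ^ I := by positivity
  let X : Ctx M lam s :=
    { K := K, I := I, n := n, τ := τ0, w := w, u := u, hs := hs, hI := h1I, hsn := hsn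
      hK := hK1, hτ1 := hτ01, hδ := hKδ
      hN := by
        rw [div_le_iff₀ hn0]
        have h3 : (2 : ℝ) ^ I * N0 ≤ n := (le_div_iff₀ hN00).1 hIa
        have h4 : N0 * τ0 = K := by rw [hN0]; field_simp
        calc K * 2 ^ I = τ0 * (2 ^ I * N0) := by rw [← h4]; ring
          _ ≤ τ0 * n := by gcongr
      he := by
        have h3 : (n : ℝ) / 2 ^ I ≤ 2 * N0 := by
          rw [div_le_iff₀ h2I]
          have := (div_lt_iff₀ hN00).1 hIb
          rw [pow_succ] at this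
          nlinarith
        exact (mul_le_mul_of_nonneg_right h3 (M.e_nonneg I)).trans (hI0 I hI0I)
      hwm := hwm, hum := hum, hw1 := hw1, hu1 := hu1, hres := hres }
  have e1 := hDB X
  have e2 := hDC X
  have e3 := hDE X j hjI
  have e4 := hDF X
  have e5 := hη u hum hu1 ((resolvent_drift M lam s hs n hsn w u hwm hum hw1 hu1 hres).trans
    (hn1 n hnn1).le)
  -- names
  set EY : ℂ := ∫ p, X.b (p.2 (p.1 + 1)) * (((X.Y p) ^ 2 : ℝ) : ℂ) ∂X.Θ with hEY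
  set F : ℂ := ∫ x, ((1 - X.k.χ x : ℝ) : ℂ) * X.b x * (((M.f x) ^ 2 : ℝ) : ℂ) ∂M.ν with hF
  set U : ℂ := ∫ x, u x ∂M.ν with hU
  set W : ℂ := ∫ x, w x ∂M.ν with hW
  set UΨ : ℂ := ∫ x, u x * ((Ψ x : ℝ) : ℂ) ∂M.ν with hUΨ
  set IΨ : ℝ := ∫ x, Ψ x ∂M.ν with hIΨ
  have e1' : ‖(s : ℂ) * U + (L : ℂ) * EY - (s : ℂ) * W‖ ≤ DB * Real.sqrt τ0 := e1
  have e2' : ‖EY - (2 * X.J I - F)‖ ≤ DC * Real.sqrt τ0 := e2
  have e3' : ‖X.J I - X.J j‖ ≤ DE * (Real.sqrt τ0 + Real.sqrt (∑' i, M.e (i + j))) := e3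
  have e4' : ‖2 * X.J j - F - UΨ‖ ≤ DF * Real.sqrt τ0 := e4
  have e6 : ‖U‖ ≤ 1 := by
    have h3 : ‖∫ x, u x ∂M.ν‖ ≤ ∫ _x, (1 : ℝ) ∂M.ν :=
      (norm_integral_le_integral_norm _).trans
        (integral_mono_of_nonneg (Filter.Eventually.of_forall fun z => norm_nonneg _)
          (integrable_const _) (Filter.Eventually.of_forall hu1))
    simpa using h3
  have hid : ((s + lam ^ 2 * M.σ2 / 2 : ℝ) : ℂ) * U - (s : ℂ) * W
      = ((s : ℂ) * U + (L : ℂ) * EY - (s : ℂ) * W)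
        - (L : ℂ) * (EY - (2 * X.J I - F))
        - (L : ℂ) * (2 * (X.J I - X.J j))
        - (L : ℂ) * (2 * X.J j - F - UΨ)
        - (L : ℂ) * (UΨ - U * (IΨ : ℂ))
        + (L : ℂ) * (U * ((M.σ2 - IΨ : ℝ) : ℂ)) := by
    rw [hL]; push_cast; ring
  rw [hid]
  have hLn : ‖(L : ℂ)‖ = L := by rw [Complex.norm_real, Real.norm_eq_abs, abs_of_nonneg hL0]
  have b1 : ‖(L : ℂ) * (EY - (2 * X.J I - F))‖ ≤ L * (DC * Real.sqrt τ0) := by
    rw [norm_mul, hLn]; gcongr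
  have b2 : ‖(L : ℂ) * (2 * (X.J I - X.J j))‖
      ≤ L * (2 * (DE * (Real.sqrt τ0 + Real.sqrt (∑' i, M.e (i + j))))) := by
    rw [norm_mul, norm_mul, hLn]
    have : ‖(2 : ℂ)‖ = 2 := by norm_num
    rw [this]; gcongr
  have b3 : ‖(L : ℂ) * (2 * X.J j - F - UΨ)‖ ≤ L * (DF * Real.sqrt τ0) := by
    rw [norm_mul, hLn]; gcongr
  have b4 : ‖(L : ℂ) * (UΨ - U * (IΨ : ℂ))‖ ≤ ε / 6 := by
    rw [norm_mul, hLn]
    calc L * ‖UΨ - U * (IΨ : ℂ)‖ ≤ L * (ε / (6 * (L + 1))) := by gcongr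
      _ ≤ (L + 1) * (ε / (6 * (L + 1))) := by gcongr; linarith
      _ = ε / 6 := by field_simp
  have b5 : ‖(L : ℂ) * (U * ((M.σ2 - IΨ : ℝ) : ℂ))‖ ≤ ε / 6 := by
    rw [norm_mul, norm_mul, hLn, Complex.norm_real, Real.norm_eq_abs]
    calc L * (‖U‖ * |M.σ2 - IΨ|) ≤ L * (1 * |M.σ2 - IΨ|) := by gcongr
      _ = L * |M.σ2 - IΨ| := by rw [one_mul]
      _ ≤ ε / 6 := hj2
  have htri : ∀ a b c d f g : ℂ, ‖a - b - c - d - f + g‖
      ≤ ‖a‖ + ‖b‖ + ‖c‖ + ‖d‖ + ‖f‖ + ‖g‖ := by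
    intro a b c d f g
    calc ‖a - b - c - d - f + g‖ ≤ ‖a - b - c - d - f‖ + ‖g‖ := norm_add_le _ _
      _ ≤ ‖a - b - c - d‖ + ‖f‖ + ‖g‖ := by gcongr; exact norm_sub_le _ _
      _ ≤ ‖a - b - c‖ + ‖d‖ + ‖f‖ + ‖g‖ := by gcongr; exact norm_sub_le _ _
      _ ≤ ‖a - b‖ + ‖c‖ + ‖d‖ + ‖f‖ + ‖g‖ := by gcongr; exact norm_sub_le _ _
      _ ≤ ‖a‖ + ‖b‖ + ‖c‖ + ‖d‖ + ‖f‖ + ‖g‖ := by gcongr; exact norm_sub_le _ _
  refine (htri _ _ _ _ _ _).trans ?_
  have hsum : DB * Real.sqrt τ0 + L * (DC * Real.sqrt τ0)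
      + L * (2 * (DE * (Real.sqrt τ0 + Real.sqrt (∑' i, M.e (i + j)))))
      + L * (DF * Real.sqrt τ0) + ε / 6 + ε / 6
      = T * Real.sqrt τ0 + L * (2 * (DE * Real.sqrt (∑' i, M.e (i + j)))) + ε / 6 + ε / 6 := by
    rw [hT]; ring
  calc _ ≤ DB * Real.sqrt τ0 + L * (DC * Real.sqrt τ0)
      + L * (2 * (DE * (Real.sqrt τ0 + Real.sqrt (∑' i, M.e (i + j)))))
      + L * (DF * Real.sqrt τ0) + ε / 6 + ε / 6 := by gcongr
    _ = _ := hsum
    _ ≤ ε / 6 + ε / 6 + ε / 6 + ε / 6 := by gcongr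
    _ ≤ ε := by linarith

end Pool.Agent.H45.CLT
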