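import Mathlib

/-!
# CLT under square summable forward and backward projections (MP_bedcbf_pr, S19611): definitions

The paper proof is in the team table `proofs` (MP_bedcbf_pr, SIMPLIFIED VERSION).
-/

set_option autoImplicit false

open MeasureTheory ProbabilityTheory
open scoped ENNReal NNReal

namespace Pool.Agent.H45.CLT

variable {S : Type} [MeasurableSpace S]

/-! ## Path space -/

/-- The shift by `i` steps on path space. -/
def sh (i : ℕ) (ξ : ℕ → S) : ℕ → S := fun j => ξ (i + j)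

/-- The path frozen after time `i`.  A function `Φ` of the path depends only on the
coordinates `0..i` iff `∀ ξ, Φ (fr i ξ) = Φ ξ`. -/
def fr (i : ℕ) (ξ : ℕ → S) : ℕ → S := fun j => ξ (min i j)

/-- A stationary Markov chain: kernel `Q`, stationary law `ν`, law `P` of the (one-sided)
path `(ξ_0, ξ_1, ...)`. -/
structure Chain (S : Type) [MeasurableSpace S] where
  Q : Kernel S S
  ν : Measure S
  P : Measure (ℕ → S)
  hQ : IsMarkovKernel Q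
  hν : IsProbabilityMeasure ν
  hP : IsProbabilityMeasure P
  hshift : MeasurePreserving (sh 1) P P
  hlaw : P.map (fun ξ => ξ 0) = ν
  hmarkov : ∀ (i : ℕ) (Φ : (ℕ → S) → ℝ≥0∞) (h : S → ℝ≥0∞), Measurable Φ → Measurable h →
    ∫⁻ ξ, Φ (fr i ξ) * h (ξ (i + 1)) ∂P = ∫⁻ ξ, Φ (fr i ξ) * (∫⁻ z, h z ∂(Q (ξ i))) ∂P

attribute [instance] Chain.hQ Chain.hν Chain.hP

/-- `g' = Q g` (in `L²(ν)`). -/
structure Chain.Fwd (M : Chain S) (g g' : S → ℝ) : Prop where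
  m : Measurable g
  m' : Measurable g'
  l2 : MemLp g 2 M.ν
  l2' : MemLp g' 2 M.ν
  eq : g' =ᵐ[M.ν] fun x => ∫ z, g z ∂(M.Q x)

/-- `g' = Q* g` (in `L²(ν)`), `Q*` the adjoint of `Q`, expressed by duality with bounded
functions. -/
structure Chain.Bwd (M : Chain S) (g g' : S → ℝ) : Prop where
  m : Measurable g
  m' : Measurable g'
  l2 : MemLp g 2 M.ν
  l2' : MemLp g' 2 M.ν
  eq : ∀ φ : S → ℝ, Measurable φ → (∃ C : ℝ, ∀ x, |φ x| ≤ C) →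
    ∫ x, φ x * g' x ∂M.ν = ∫ x, (∫ z, φ z ∂(M.Q x)) * g x ∂M.ν

/-! ## Soft cuts and the gap measure -/

/-- A soft cut: a point `ξ_i` of the path is *unmarked* with probability `χ(ξ_i) ≤ r < 1`
and *marked* with probability `1 - χ(ξ_i)`. -/
structure Cut (S : Type) [MeasurableSpace S] where
  χ : S → ℝ
  r : ℝ
  hm : Measurable χ
  h0 : ∀ x, 0 ≤ χ x
  h1 : ∀ x, χ x ≤ r
  hr0 : 0 ≤ r
  hr : r < 1

/-- `v_j(ξ) = χ(ξ_1) ⋯ χ(ξ_j)`. -/
noncomputable def Cut.v (k : Cut S) (j : ℕ) (ξ : ℕ → S) : ℝ :=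
  ∏ i ∈ Finset.range j, k.χ (ξ (i + 1))

/-- `w_j(ξ) = (1 - χ(ξ_0)) χ(ξ_1) ⋯ χ(ξ_j)`. -/
noncomputable def Cut.w (k : Cut S) (j : ℕ) (ξ : ℕ → S) : ℝ :=
  (1 - k.χ (ξ 0)) * k.v j ξ

/-- `W_j(ξ) = (1 - χ(ξ_0)) χ(ξ_1) ⋯ χ(ξ_j) (1 - χ(ξ_{j+1}))`: the weight of the gap
`(ξ_0, ..., ξ_{j+1})` of length `j+1` between two consecutive marked points. -/
noncomputable def Cut.W (k : Cut S) (j : ℕ) (ξ : ℕ → S) : ℝ :=
  k.w j ξ * (1 - k.χ (ξ (j + 1)))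

/-- The gap measure, a finite measure on `ℕ × (ℕ → S)`: the point `p = (j, ξ)` stands for the
gap `(ξ_0, ..., ξ_{j+1})` of length `ℓ = j + 1`; start point `x = p.2 0`,
end point `y = p.2 (p.1 + 1)`. -/
noncomputable def Chain.Θ (M : Chain S) (k : Cut S) : Measure (ℕ × (ℕ → S)) :=
  (Measure.count.prod M.P).withDensity (fun p => ENNReal.ofReal (k.W p.1 p.2))

/-! ## The martingales over a gap -/

/-- the forward martingale `D̂ = ∑_{i<ℓ} (g(ξ_{i+1}) - Qg(ξ_i))` -/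
def Dh (g g' : S → ℝ) (p : ℕ × (ℕ → S)) : ℝ :=
  ∑ i ∈ Finset.range (p.1 + 1), (g (p.2 (i + 1)) - g' (p.2 i))

/-- the backward martingale `D̂* = ∑_{i<ℓ} (h(ξ_i) - Q*h(ξ_{i+1}))` -/
def Ds (h h' : S → ℝ) (p : ℕ × (ℕ → S)) : ℝ :=
  ∑ i ∈ Finset.range (p.1 + 1), (h (p.2 i) - h' (p.2 (i + 1)))

/-! ## The model: chain plus the function `f` with its projections -/

/-- A stationary chain with `f = α 0 = β 0`, `β q = Q^q f`, `α p = Q*^p f`,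
`∑ β_q², ∑ α_p² ∈ L¹(ν)` (and finite everywhere). -/
structure Model (S : Type) [MeasurableSpace S] extends Chain S where
  β : ℕ → S → ℝ
  α : ℕ → S → ℝ
  h0 : α 0 = β 0
  hβ : ∀ q, toChain.Fwd (β q) (β (q + 1))
  hα : ∀ p, toChain.Bwd (α p) (α (p + 1))
  sβ : ∀ x, Summable fun q => (β q x) ^ 2
  sα : ∀ x, Summable fun p => (α p x) ^ 2
  iC : Integrable (fun x => ∑' q, (β q x) ^ 2) ν
  iA : Integrable (fun x => ∑' p, (α p x) ^ 2) ν

namespace Model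

variable (M : Model S)

/-- the function `f` -/
def f : S → ℝ := M.α 0

/-- `A(x) = ∑_p α_p(x)²` -/
noncomputable def A (x : S) : ℝ := ∑' p, (M.α p x) ^ 2

/-- `C(x) = ∑_q β_q(x)²` -/
noncomputable def C (x : S) : ℝ := ∑' q, (M.β q x) ^ 2

/-- forward potential `G_r = ∑ r^q Q^q f` -/
noncomputable def G (r : ℝ) (x : S) : ℝ := ∑' q, r ^ q * M.β q x

/-- `Q G_r = ∑ r^q Q^{q+1} f` -/
noncomputable def G1 (r : ℝ) (x : S) : ℝ := ∑' q, r ^ q * M.β (q + 1) x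

/-- backward potential `G*_r = ∑ r^p Q*^p f` -/
noncomputable def Gs (r : ℝ) (x : S) : ℝ := ∑' p, r ^ p * M.α p x

/-- `Q* G*_r = ∑ r^p Q*^{p+1} f` -/
noncomputable def Gs1 (r : ℝ) (x : S) : ℝ := ∑' p, r ^ p * M.α (p + 1) x

/-- the dyadic discount parameters `r_i = 1 - 2^{-i}` -/
noncomputable def _root_.Pool.Agent.H45.CLT.rr (i : ℕ) : ℝ := 1 - (1 / 2) ^ i

/-- `e_i = 2^{-i} (‖G_{r_i}‖² + ‖G*_{r_i}‖²)`, a summable sequence -/
noncomputable def e (i : ℕ) : ℝ :=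
  (1 / 2) ^ i * (∫ x, (M.G (rr i) x) ^ 2 ∂M.ν + ∫ x, (M.Gs (rr i) x) ^ 2 ∂M.ν)

/-- the asymptotic variance `σ² = ‖f‖² + 2 ∑_{l ≥ 1} ⟨f, Q^l f⟩` -/
noncomputable def σ2 : ℝ :=
  ∫ x, (M.f x) ^ 2 ∂M.ν + 2 * ∑' l, ∫ x, M.f x * M.β (l + 1) x ∂M.ν

/-- the bad set `B_K = {A + C > K}` -/
def B (K : ℝ) : Set S := {x | K < M.A x + M.C x}

/-- `δ_K = ∫_{B_K} (A + C) dν` -/
noncomputable def δ (K : ℝ) : ℝ := ∫ x in M.B K, (M.A x + M.C x) ∂M.ν

end Model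

end Pool.Agent.H45.CLT
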