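import Pool.Agent.H45.CLT.Gap2

/-!
# Module GAP3: lengths.
`p = (j, ξ)` is the gap `(ξ_0, ..., ξ_{j+1})`, of length `ℓ = j + 1`, with weight
`W_j(ξ) = (1-χ(ξ_0)) χ(ξ_1)⋯χ(ξ_j) (1-χ(ξ_{j+1})) = w_j - w_{j+1}`, `w_j = (1-χ(ξ_0)) v_j`,
`v_j = χ(ξ_1)⋯χ(ξ_j)`.
* (FT) `∑_{j ≥ i} W_j(ξ) = w_i(ξ)` pathwise, hence `∫ ∑_{i ≤ j} X_i(ξ) dΘ = ∑_i ∫ w_i X_i dP`;
* (BT) `∑_{i ≥ 0} ∫ w_i(ξ) H(sh i ξ) dP = ∫ H dP`: with `a_i = ∫ χ(ξ_0) v_i(ξ) H(sh i ξ) dP` one has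
  `∫ w_i H(sh i ξ) = a_{i-1} - a_i` by stationarity, `a_{-1} = ∫ H`, `a_i ≤ r^{i+1} ∫ H`;
* (Campbell) `∫ ∑_{i ≤ j} H(j-i, sh i ξ) dΘ = ∑_l ∫ v_l(ξ) (1-χ(ξ_{l+1})) H(l, ξ) dP`.
`Θ_len_x`: `Θ_fwd_sum` with `X_i = φ(ξ_0)`, `w_i ≤ (1-χ(ξ_0)) r^i`.  `Θ_len_y`: Campbell with
`H(l,ξ) = φ(ξ_{l+1})`.  `Θ_len`: `Θ_T1` with `h = 1` minus the total mass `∫(1-χ)`.
`Θ_len_sum`: `ℓ ∑_{i<ℓ} g(ξ_{i+1}) = ∑_{i<ℓ} (ℓ-i) g(ξ_{i+1}) + ∑_{i<ℓ} i g(ξ_{i+1})`; first part by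
Campbell with `H(l,ξ) = (l+1) g(ξ_1)` and `∑_l (l+1) v_l (1-χ(ξ_{l+1})) = ∑_l v_l ≤ (1-r)⁻¹`; second part
`= ∑_{i'<ℓ} ∑_{t=1}^{l} g(ξ_{i'+t+1})`, Campbell with `H(l,ξ) = ∑_{t=1}^l g(ξ_{t+1})` and
`∑_{l ≥ t} v_l (1-χ(ξ_{l+1})) = v_t ≤ r^t`.
-/

set_option autoImplicit false

open MeasureTheory ProbabilityTheory
open scoped ENNReal NNReal

namespace Pool.Agent.H45.CLT

variable {S : Type} [MeasurableSpace S]

namespace Gap3Aux

theorem tsum_rpow (k : Cut S) : ∑' i : ℕ, ENNReal.ofReal (k.r ^ i)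
    = ENNReal.ofReal ((1 - k.r)⁻¹) := by
  rw [← ENNReal.ofReal_tsum_of_nonneg (fun n => pow_nonneg k.hr0 n)
    (summable_geometric_of_lt_one k.hr0 k.hr), tsum_geometric_of_lt_one k.hr0 k.hr]

theorem w_le' (k : Cut S) (i : ℕ) (ξ : ℕ → S) : k.w i ξ ≤ k.r ^ i * (1 - k.χ (ξ 0)) := by
  unfold Cut.w
  have h1 : 0 ≤ 1 - k.χ (ξ 0) := by have := k.h1 (ξ 0); have := k.hr; linarith
  rw [mul_comm]
  exact mul_le_mul_of_nonneg_right (k.v_le i ξ) h1

theorem one_sub_nonneg (k : Cut S) (x : S) : 0 ≤ 1 - k.χ x := by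
  have := k.h1 x; have := k.hr; linarith

/-- `v_l (1 - χ(ξ_{l+1})) = v_l - v_{l+1}` -/
theorem v_diff (k : Cut S) (l : ℕ) (ξ : ℕ → S) :
    k.v l ξ * (1 - k.χ (ξ (l + 1))) = k.v l ξ - k.v (l + 1) ξ := by
  unfold Cut.v
  rw [Finset.prod_range_succ]
  ring

/-- tail sums telescope -/
theorem tail_le (k : Cut S) (i : ℕ) (ξ : ℕ → S) :
    ∑' l : ℕ, ENNReal.ofReal (k.v (l + i) ξ * (1 - k.χ (ξ (l + i + 1))))
      ≤ ENNReal.ofReal (k.v i ξ) := by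
  refine ENNReal.tsum_le_of_sum_range_le fun n => ?_
  rw [← ENNReal.ofReal_sum_of_nonneg]
  · apply ENNReal.ofReal_le_ofReal
    have : ∀ n : ℕ, ∑ l ∈ Finset.range n, k.v (l + i) ξ * (1 - k.χ (ξ (l + i + 1)))
        = k.v i ξ - k.v (n + i) ξ := by
      intro n
      induction n with
      | zero => simp
      | succ n ih =>
        rw [Finset.sum_range_succ, ih, v_diff, show n + 1 + i = n + i + 1 by ring]
        ring
    rw [this]
    have := k.v_nonneg (n + i) ξ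
    linarith
  · intro l _
    exact mul_nonneg (k.v_nonneg _ ξ) (one_sub_nonneg k _)

/-- swapping a triangular double sum, with a tail bound -/
theorem tri_le (a b c : ℕ → ℝ≥0∞) (h : ∀ i, ∑' l : ℕ, a (l + i) ≤ c i) :
    ∑' l : ℕ, a l * ∑ t ∈ Finset.range (l + 1), b t ≤ ∑' t : ℕ, c t * b t := by
  have h1 : ∀ l : ℕ, a l * ∑ t ∈ Finset.range (l + 1), b t
      = ∑' t : ℕ, (if t ≤ l then a l * b t else 0) := by
    intro l
    rw [Finset.mul_sum]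
    rw [tsum_eq_sum (s := Finset.range (l + 1))]
    · refine Finset.sum_congr rfl fun t ht => ?_
      rw [if_pos (by have := Finset.mem_range.mp ht; omega)]
    · intro t ht
      rw [if_neg (by intro h; exact ht (Finset.mem_range.mpr (by omega)))]
  simp_rw [h1]
  rw [ENNReal.tsum_comm]
  refine ENNReal.tsum_le_tsum fun t => ?_
  have h2 : ∑' l : ℕ, (if t ≤ l then a l * b t else 0) = ∑' l : ℕ, a (l + t) * b t := by
    rw [← Summable.sum_add_tsum_nat_add' (k := t) ENNReal.summable]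
    rw [Finset.sum_eq_zero, zero_add]
    · refine tsum_congr fun l => ?_
      rw [if_pos (by omega)]
    · intro l hl
      rw [if_neg (by have := Finset.mem_range.mp hl; omega)]
  rw [h2, ENNReal.tsum_mul_right]
  exact mul_le_mul_left (h t) _

end Gap3Aux

open Gap3Aux

/-- `E_Θ[ℓ φ(x)] ≤ (1-r)⁻¹ ∫ (1-χ) φ` -/
theorem Chain.Θ_len_x (M : Chain S) (k : Cut S) (φ : S → ℝ≥0∞) (hφ : Measurable φ) :
    ∫⁻ p, ((p.1 : ℝ≥0∞) + 1) * φ (p.2 0) ∂(M.Θ k)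
      ≤ ENNReal.ofReal ((1 - k.r)⁻¹) *
        ∫⁻ x, ENNReal.ofReal (1 - k.χ x) * φ x ∂M.ν := by
  have h1 : ∀ p : ℕ × (ℕ → S), ((p.1 : ℝ≥0∞) + 1) * φ (p.2 0)
      = ∑ i ∈ Finset.range (p.1 + 1), (fun (_ : ℕ) (ξ : ℕ → S) => φ (ξ 0)) i p.2 := by
    intro p
    simp [Finset.sum_const, nsmul_eq_mul]
  simp_rw [h1]
  rw [M.Θ_fwd_sum k (fun (_ : ℕ) (ξ : ℕ → S) => φ (ξ 0))
    (fun _ => hφ.comp (measurable_pi_apply 0))]
  have h2 : ∫⁻ x, ENNReal.ofReal (1 - k.χ x) * φ x ∂M.ν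
      = ∫⁻ ξ, ENNReal.ofReal (1 - k.χ (ξ 0)) * φ (ξ 0) ∂M.P := by
    rw [← (M.mp_eval 0).lintegral_comp]
    exact ((measurable_const.sub k.hm).ennreal_ofReal).mul hφ
  rw [h2, ← tsum_rpow, ← ENNReal.tsum_mul_right]
  refine ENNReal.tsum_le_tsum fun i => ?_
  rw [← lintegral_const_mul]
  · refine lintegral_mono fun ξ => ?_
    show ENNReal.ofReal (k.w i ξ) * φ (ξ 0) ≤ _
    rw [← mul_assoc, ← ENNReal.ofReal_mul (pow_nonneg k.hr0 i)]
    exact mul_le_mul_left (ENNReal.ofReal_le_ofReal (w_le' k i ξ)) _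
  · exact ((measurable_const.sub (k.hm.comp (measurable_pi_apply 0))).ennreal_ofReal).mul
      (hφ.comp (measurable_pi_apply 0))

/-- `E_Θ[ℓ φ(y)] ≤ (1-r)⁻¹ ∫ (1-χ) φ` -/
theorem Chain.Θ_len_y (M : Chain S) (k : Cut S) (φ : S → ℝ≥0∞) (hφ : Measurable φ) :
    ∫⁻ p, ((p.1 : ℝ≥0∞) + 1) * φ (p.2 (p.1 + 1)) ∂(M.Θ k)
      ≤ ENNReal.ofReal ((1 - k.r)⁻¹) *
        ∫⁻ x, ENNReal.ofReal (1 - k.χ x) * φ x ∂M.ν := by
  have h1 : ∀ p : ℕ × (ℕ → S), ((p.1 : ℝ≥0∞) + 1) * φ (p.2 (p.1 + 1))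
      = ∑ i ∈ Finset.range (p.1 + 1),
          (fun (l : ℕ) (ξ : ℕ → S) => φ (ξ (l + 1))) (p.1 - i) (sh i p.2) := by
    intro p
    have : ∀ i ∈ Finset.range (p.1 + 1),
        (fun (l : ℕ) (ξ : ℕ → S) => φ (ξ (l + 1))) (p.1 - i) (sh i p.2) = φ (p.2 (p.1 + 1)) := by
      intro i hi
      have hi' := Finset.mem_range.mp hi
      have e : i + (p.1 - i + 1) = p.1 + 1 := by omega
      simp only [sh, e]
    rw [Finset.sum_congr rfl this]
    simp [Finset.sum_const, nsmul_eq_mul]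
  simp_rw [h1]
  rw [M.Θ_campbell k (fun (l : ℕ) (ξ : ℕ → S) => φ (ξ (l + 1)))
    (fun l => hφ.comp (measurable_pi_apply (l + 1)))]
  have h2 : ∀ i : ℕ, ∫⁻ x, ENNReal.ofReal (1 - k.χ x) * φ x ∂M.ν
      = ∫⁻ ξ, ENNReal.ofReal (1 - k.χ (ξ (i + 1))) * φ (ξ (i + 1)) ∂M.P := by
    intro i
    rw [← (M.mp_eval (i + 1)).lintegral_comp]
    exact ((measurable_const.sub k.hm).ennreal_ofReal).mul hφ
  rw [← tsum_rpow, ← ENNReal.tsum_mul_right]
  refine ENNReal.tsum_le_tsum fun i => ?_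
  rw [h2 i, ← lintegral_const_mul]
  · refine lintegral_mono fun ξ => ?_
    show ENNReal.ofReal (k.v i ξ * (1 - k.χ (ξ (i + 1)))) * φ (ξ (i + 1)) ≤ _
    rw [← mul_assoc, ← ENNReal.ofReal_mul (pow_nonneg k.hr0 i)]
    exact mul_le_mul_left (ENNReal.ofReal_le_ofReal
      (mul_le_mul_of_nonneg_right (k.v_le i ξ) (one_sub_nonneg k _))) _
  · exact ((measurable_const.sub (k.hm.comp (measurable_pi_apply (i + 1)))).ennreal_ofReal).mul
      (hφ.comp (measurable_pi_apply (i + 1)))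

/-- `E_Θ[ℓ - 1] = ∫ χ` -/
theorem Chain.Θ_len (M : Chain S) (k : Cut S) :
    Integrable (fun p : ℕ × (ℕ → S) => (p.1 : ℝ)) (M.Θ k) ∧
    ∫ p, (p.1 : ℝ) ∂(M.Θ k) = ∫ x, k.χ x ∂M.ν := by
  have hm : Measurable (fun p : ℕ × (ℕ → S) => (p.1 : ℝ)) :=
    (measurable_from_top (f := fun n : ℕ => (n : ℝ))).comp measurable_fst
  obtain ⟨h1, h2⟩ := M.Θ_T1_int k (fun _ => (1 : ℝ)) measurable_const (integrable_const 1)
  have e1 : (fun p : ℕ × (ℕ → S) => ∑ i ∈ Finset.range (p.1 + 1), (1 : ℝ))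
      = fun p => (p.1 : ℝ) + 1 := by
    funext p; simp
  simp only [e1] at h1 h2
  have hint : Integrable (fun p : ℕ × (ℕ → S) => (p.1 : ℝ)) (M.Θ k) := by
    have := h1.sub (integrable_const (1 : ℝ))
    refine this.congr (Filter.Eventually.of_forall fun p => ?_)
    simp
  refine ⟨hint, ?_⟩
  rw [integral_add hint (integrable_const 1)] at h2
  have h3 : ∫ _p, (1 : ℝ) ∂(M.Θ k) = ∫ x, (1 - k.χ x) ∂M.ν := by
    have := M.integral_x k (fun _ => (1 : ℝ)) aestronglyMeasurable_const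
    simpa using this
  have hχ : Integrable k.χ M.ν := by
    refine Integrable.of_bound k.hm.aestronglyMeasurable k.r
      (Filter.Eventually.of_forall fun x => ?_)
    rw [Real.norm_eq_abs, abs_of_nonneg (k.h0 x)]
    exact k.h1 x
  rw [h3, integral_sub (integrable_const 1) hχ] at h2
  simp at h2
  linarith

/-- `E_Θ[ℓ ∑_{1 ≤ i ≤ ℓ} g(ξ_i)] ≤ 2 (1-r)⁻¹ ∫ g` -/
theorem Chain.Θ_len_sum (M : Chain S) (k : Cut S) (g : S → ℝ≥0∞) (hg : Measurable g) :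
    ∫⁻ p, ((p.1 : ℝ≥0∞) + 1) * ∑ i ∈ Finset.range (p.1 + 1), g (p.2 (i + 1)) ∂(M.Θ k)
      ≤ ENNReal.ofReal (2 * (1 - k.r)⁻¹) * ∫⁻ x, g x ∂M.ν := by
  -- the two functions
  set H1 : ℕ → (ℕ → S) → ℝ≥0∞ := fun l ξ => ((l : ℝ≥0∞) + 1) * g (ξ 1) with hH1
  set H2 : ℕ → (ℕ → S) → ℝ≥0∞ := fun l ξ => ∑ t ∈ Finset.range l, g (ξ (t + 2)) with hH2
  have mH1 : ∀ l, Measurable (H1 l) := fun l =>
    (hg.comp (measurable_pi_apply 1)).const_mul _
  have mH2 : ∀ l, Measurable (H2 l) := fun l =>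
    Finset.measurable_fun_sum _ fun t _ => hg.comp (measurable_pi_apply (t + 2))
  have msh : ∀ (H : ℕ → (ℕ → S) → ℝ≥0∞), (∀ l, Measurable (H l)) →
      Measurable (fun p : ℕ × (ℕ → S) =>
        ∑ i ∈ Finset.range (p.1 + 1), H (p.1 - i) (sh i p.2)) := by
    intro H hH
    refine measurable_from_prod_countable_right fun n => ?_
    exact Finset.measurable_fun_sum (Finset.range (n + 1))
      (f := fun i (ξ : ℕ → S) => H (n - i) (sh i ξ))
      fun i _ => (hH (n - i)).comp (measurable_sh i)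
  have key : ∀ p : ℕ × (ℕ → S),
      ((p.1 : ℝ≥0∞) + 1) * ∑ i ∈ Finset.range (p.1 + 1), g (p.2 (i + 1))
      = (∑ i ∈ Finset.range (p.1 + 1), H1 (p.1 - i) (sh i p.2))
        + ∑ i ∈ Finset.range (p.1 + 1), H2 (p.1 - i) (sh i p.2) := by
    intro p
    obtain ⟨j, ξ⟩ := p
    have hswap : ∑ i ∈ Finset.range (j + 1), H2 (j - i) (sh i ξ)
        = ∑ i ∈ Finset.range (j + 1), (i : ℝ≥0∞) * g (ξ (i + 1)) := by
      have e1 : ∀ i ∈ Finset.range (j + 1), H2 (j - i) (sh i ξ)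
          = ∑ s ∈ Finset.range (j + 1), if i < s then g (ξ (s + 1)) else 0 := by
        intro i hi
        have hi' := Finset.mem_range.mp hi
        rw [← Finset.sum_filter]
        simp only [hH2, sh]
        refine Finset.sum_bij' (fun t _ => i + t + 1) (fun s _ => s - i - 1) ?_ ?_ ?_ ?_ ?_
        · intro t ht
          have := Finset.mem_range.mp ht
          simp only [Finset.mem_filter, Finset.mem_range]
          omega
        · intro s hs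
          simp only [Finset.mem_filter, Finset.mem_range] at hs
          simp only [Finset.mem_range]
          omega
        · intro t ht
          have := Finset.mem_range.mp ht
          show i + t + 1 - i - 1 = t
          omega
        · intro s hs
          simp only [Finset.mem_filter, Finset.mem_range] at hs
          show i + (s - i - 1) + 1 = s
          omega
        · intro t ht
          rfl
      rw [Finset.sum_congr rfl e1, Finset.sum_comm]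
      refine Finset.sum_congr rfl fun s hs => ?_
      have hs' := Finset.mem_range.mp hs
      rw [← Finset.sum_filter, Finset.sum_const, nsmul_eq_mul]
      congr 2
      have : Finset.filter (fun i => i < s) (Finset.range (j + 1)) = Finset.range s := by
        ext i
        simp only [Finset.mem_filter, Finset.mem_range]
        omega
      rw [this, Finset.card_range]
    show ((j : ℝ≥0∞) + 1) * ∑ i ∈ Finset.range (j + 1), g (ξ (i + 1))
      = (∑ i ∈ Finset.range (j + 1), H1 (j - i) (sh i ξ))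
        + ∑ i ∈ Finset.range (j + 1), H2 (j - i) (sh i ξ)
    rw [hswap, ← Finset.sum_add_distrib, Finset.mul_sum]
    refine Finset.sum_congr rfl fun i hi => ?_
    have hi' := Finset.mem_range.mp hi
    simp only [hH1, sh]
    rw [← add_mul]
    congr 1
    have : (j : ℝ≥0∞) = ((j - i : ℕ) : ℝ≥0∞) + (i : ℝ≥0∞) := by
      rw [← Nat.cast_add]
      congr 1
      omega
    rw [this]
    ring
  simp_rw [key]
  rw [lintegral_add_left (msh H1 mH1), M.Θ_campbell k H1 mH1, M.Θ_campbell k H2 mH2]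
  have hG : ∀ i : ℕ, ∫⁻ ξ, g (ξ i) ∂M.P = ∫⁻ x, g x ∂M.ν := fun i =>
    (M.mp_eval i).lintegral_comp hg
  have mgi : ∀ i : ℕ, Measurable (fun ξ : ℕ → S => g (ξ i)) := fun i =>
    hg.comp (measurable_pi_apply i)
  have mv : ∀ l : ℕ, Measurable (fun ξ : ℕ → S =>
      ENNReal.ofReal (k.v l ξ * (1 - k.χ (ξ (l + 1))))) := fun l =>
    ((k.measurable_v l).mul (measurable_const.sub
      (k.hm.comp (measurable_pi_apply (l + 1))))).ennreal_ofReal
  have b1 : ∑' l : ℕ, ∫⁻ ξ, ENNReal.ofReal (k.v l ξ * (1 - k.χ (ξ (l + 1)))) * H1 l ξ ∂M.P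
      ≤ ENNReal.ofReal ((1 - k.r)⁻¹) * ∫⁻ x, g x ∂M.ν := by
    rw [← lintegral_tsum (f := fun (l : ℕ) (ξ : ℕ → S) =>
        ENNReal.ofReal (k.v l ξ * (1 - k.χ (ξ (l + 1)))) * H1 l ξ)
        (fun l => ((mv l).mul (mH1 l)).aemeasurable), ← hG 1,
      ← lintegral_const_mul _ (mgi 1)]
    refine lintegral_mono fun ξ => ?_
    have := tri_le (fun l => ENNReal.ofReal (k.v l ξ * (1 - k.χ (ξ (l + 1)))))
      (fun _ => g (ξ 1)) (fun i => ENNReal.ofReal (k.v i ξ)) (fun i => tail_le k i ξ)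
    have e : ∀ l : ℕ, ENNReal.ofReal (k.v l ξ * (1 - k.χ (ξ (l + 1)))) * H1 l ξ
        = ENNReal.ofReal (k.v l ξ * (1 - k.χ (ξ (l + 1))))
          * ∑ t ∈ Finset.range (l + 1), g (ξ 1) := by
      intro l
      simp [hH1, Finset.sum_const, nsmul_eq_mul]
    simp_rw [e]
    refine this.trans ?_
    rw [ENNReal.tsum_mul_right, ← tsum_rpow]
    exact mul_le_mul_left (ENNReal.tsum_le_tsum fun i =>
      ENNReal.ofReal_le_ofReal (k.v_le i ξ)) _
  have b2 : ∑' l : ℕ, ∫⁻ ξ, ENNReal.ofReal (k.v l ξ * (1 - k.χ (ξ (l + 1)))) * H2 l ξ ∂M.P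
      ≤ ENNReal.ofReal ((1 - k.r)⁻¹) * ∫⁻ x, g x ∂M.ν := by
    rw [← lintegral_tsum (f := fun (l : ℕ) (ξ : ℕ → S) =>
        ENNReal.ofReal (k.v l ξ * (1 - k.χ (ξ (l + 1)))) * H2 l ξ)
        (fun l => ((mv l).mul (mH2 l)).aemeasurable)]
    have : ∀ ξ : ℕ → S, ∑' l : ℕ, ENNReal.ofReal (k.v l ξ * (1 - k.χ (ξ (l + 1)))) * H2 l ξ
        ≤ ∑' t : ℕ, ENNReal.ofReal (k.r ^ t) * g (ξ (t + 1)) := by
      intro ξ
      have h := tri_le (fun l => ENNReal.ofReal (k.v l ξ * (1 - k.χ (ξ (l + 1)))))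
        (fun t => g (ξ (t + 1))) (fun i => ENNReal.ofReal (k.v i ξ)) (fun i => tail_le k i ξ)
      refine (ENNReal.tsum_le_tsum fun l => ?_).trans (h.trans
        (ENNReal.tsum_le_tsum fun i => mul_le_mul_left
          (ENNReal.ofReal_le_ofReal (k.v_le i ξ)) _))
      refine mul_le_mul_right ?_ _
      simp only [hH2]
      rw [Finset.sum_range_succ']
      exact le_self_add
    refine (lintegral_mono this).trans ?_
    rw [lintegral_tsum (fun t => ((mgi (t + 1)).const_mul _).aemeasurable)]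
    rw [← tsum_rpow, ← ENNReal.tsum_mul_right]
    refine ENNReal.tsum_le_tsum fun t => ?_
    rw [lintegral_const_mul _ (mgi (t + 1)), hG (t + 1)]
  refine (add_le_add b1 b2).trans ?_
  rw [← two_mul, ← mul_assoc, ENNReal.ofReal_mul (by norm_num)]
  simp

namespace Gap3Aux

/-- Cauchy–Schwarz for sums of at most `ℓ` terms -/
theorem cs_core (M : Chain S) (k : Cut S) (F : ℕ × (ℕ → S) → ℝ) (hF : Measurable F)
    (D : ℝ) (hD0 : 0 ≤ D)
    (hD : ∫⁻ p, ((p.1 : ℝ≥0∞) + 1) * ENNReal.ofReal ((F p) ^ 2) ∂(M.Θ k) ≤ ENNReal.ofReal D)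
    (q : S → ℝ) (hq : Measurable q) (hq2 : MemLp q 2 M.ν) (s : ℕ) :
    ∫ p, |F p| * ∑ i ∈ Finset.range (p.1 + 1), |q (p.2 (i + s))| ∂(M.Θ k)
      ≤ Real.sqrt D * Real.sqrt (∫ x, (q x) ^ 2 ∂M.ν) := by
  -- the second factor
  have hq2' : Integrable (fun x => (q x) ^ 2) M.ν := hq2.integrable_sq
  have hT : ∫⁻ p, ∑ i ∈ Finset.range (p.1 + 1), ENNReal.ofReal ((q (p.2 (i + s))) ^ 2) ∂(M.Θ k)
      = ENNReal.ofReal (∫ x, (q x) ^ 2 ∂M.ν) := by
    have h := M.Θ_T1 k (fun ξ => ENNReal.ofReal ((q (ξ s)) ^ 2))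
      ((hq.comp (measurable_pi_apply s)).pow_const 2).ennreal_ofReal
    simp only [sh] at h
    rw [h, ofReal_integral_eq_lintegral_ofReal hq2' (Filter.Eventually.of_forall fun x =>
      sq_nonneg _), (M.mp_eval s).lintegral_comp (hq.pow_const 2).ennreal_ofReal]
  have mS : Measurable (fun p : ℕ × (ℕ → S) => ∑ i ∈ Finset.range (p.1 + 1), |q (p.2 (i + s))|) := by
    refine measurable_from_prod_countable_right fun n => ?_
    exact Finset.measurable_fun_sum (Finset.range (n + 1))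
      (f := fun i (ξ : ℕ → S) => |q (ξ (i + s))|)
      fun i _ => (hq.comp (measurable_pi_apply (i + s))).abs
  have mS2 : Measurable (fun p : ℕ × (ℕ → S) =>
      ∑ i ∈ Finset.range (p.1 + 1), ENNReal.ofReal ((q (p.2 (i + s))) ^ 2)) := by
    refine measurable_from_prod_countable_right fun n => ?_
    exact Finset.measurable_fun_sum (Finset.range (n + 1))
      (f := fun i (ξ : ℕ → S) => ENNReal.ofReal ((q (ξ (i + s))) ^ 2))
      fun i _ => ((hq.comp (measurable_pi_apply (i + s))).pow_const 2).ennreal_ofReal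
  have mN : Measurable (fun p : ℕ × (ℕ → S) => ((p.1 : ℝ≥0∞) + 1)) :=
    (measurable_from_top (f := fun n : ℕ => ((n : ℝ≥0∞) + 1))).comp measurable_fst
  have mf : Measurable (fun p : ℕ × (ℕ → S) =>
      (((p.1 : ℝ≥0∞) + 1) * ENNReal.ofReal ((F p) ^ 2)) ^ (1 / 2 : ℝ)) :=
    (mN.mul (hF.pow_const 2).ennreal_ofReal).pow_const _
  have mg : Measurable (fun p : ℕ × (ℕ → S) =>
      (∑ i ∈ Finset.range (p.1 + 1), ENNReal.ofReal ((q (p.2 (i + s))) ^ 2)) ^ (1 / 2 : ℝ)) :=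
    mS2.pow_const _
  rw [integral_eq_lintegral_of_nonneg_ae (Filter.Eventually.of_forall fun p =>
      mul_nonneg (abs_nonneg _) (Finset.sum_nonneg fun i _ => abs_nonneg _))
      (hF.abs.mul mS).aestronglyMeasurable]
  have hptw : ∀ p : ℕ × (ℕ → S),
      ENNReal.ofReal (|F p| * ∑ i ∈ Finset.range (p.1 + 1), |q (p.2 (i + s))|)
      ≤ (((p.1 : ℝ≥0∞) + 1) * ENNReal.ofReal ((F p) ^ 2)) ^ (1 / 2 : ℝ) *
        (∑ i ∈ Finset.range (p.1 + 1), ENNReal.ofReal ((q (p.2 (i + s))) ^ 2)) ^ (1 / 2 : ℝ) := by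
    intro p
    have hle : |F p| * ∑ i ∈ Finset.range (p.1 + 1), |q (p.2 (i + s))|
        ≤ Real.sqrt (((p.1 : ℝ) + 1) * (F p) ^ 2) *
          Real.sqrt (∑ i ∈ Finset.range (p.1 + 1), (q (p.2 (i + s))) ^ 2) := by
      have hs : ∑ i ∈ Finset.range (p.1 + 1), |q (p.2 (i + s))|
          ≤ Real.sqrt ((p.1 : ℝ) + 1) *
            Real.sqrt (∑ i ∈ Finset.range (p.1 + 1), (q (p.2 (i + s))) ^ 2) := by
        rw [← Real.sqrt_mul (by positivity)]
        apply Real.le_sqrt_of_sq_le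
        have := sq_sum_le_card_mul_sum_sq (s := Finset.range (p.1 + 1))
          (f := fun i => |q (p.2 (i + s))|)
        simpa [sq_abs] using this
      rw [Real.sqrt_mul (by positivity), Real.sqrt_sq_eq_abs]
      calc |F p| * ∑ i ∈ Finset.range (p.1 + 1), |q (p.2 (i + s))|
          ≤ |F p| * (Real.sqrt ((p.1 : ℝ) + 1) *
            Real.sqrt (∑ i ∈ Finset.range (p.1 + 1), (q (p.2 (i + s))) ^ 2)) :=
            mul_le_mul_of_nonneg_left hs (abs_nonneg _)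
        _ = _ := by ring
    refine (ENNReal.ofReal_le_ofReal hle).trans (le_of_eq ?_)
    rw [ENNReal.ofReal_mul (Real.sqrt_nonneg _), Real.sqrt_eq_rpow, Real.sqrt_eq_rpow,
      ← ENNReal.ofReal_rpow_of_nonneg (by positivity) (by norm_num),
      ← ENNReal.ofReal_rpow_of_nonneg (Finset.sum_nonneg fun i _ => sq_nonneg _) (by norm_num),
      ENNReal.ofReal_sum_of_nonneg (fun i _ => sq_nonneg _),
      ENNReal.ofReal_mul (by positivity)]
    congr 3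
    rw [ENNReal.ofReal_add (by positivity) (by norm_num)]
    simp
  have hhol := ENNReal.lintegral_mul_le_Lp_mul_Lq (M.Θ k) (p := 2) (q := 2)
    ((Real.holderConjugate_iff).mpr ⟨by norm_num, by norm_num⟩) mf.aemeasurable mg.aemeasurable
  have e2 : ∀ x : ℝ≥0∞, (x ^ (1 / 2 : ℝ)) ^ (2 : ℝ) = x := by
    intro x
    rw [← ENNReal.rpow_mul]
    norm_num
  simp only [Pi.mul_apply, e2] at hhol
  have htot : ∫⁻ p, ENNReal.ofReal (|F p| * ∑ i ∈ Finset.range (p.1 + 1), |q (p.2 (i + s))|)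
      ∂(M.Θ k) ≤ ENNReal.ofReal (Real.sqrt D * Real.sqrt (∫ x, (q x) ^ 2 ∂M.ν)) := by
    refine (lintegral_mono hptw).trans (hhol.trans ?_)
    rw [hT, ENNReal.ofReal_mul (Real.sqrt_nonneg _), Real.sqrt_eq_rpow, Real.sqrt_eq_rpow,
      ← ENNReal.ofReal_rpow_of_nonneg hD0 (by norm_num),
      ← ENNReal.ofReal_rpow_of_nonneg (integral_nonneg fun x => sq_nonneg _) (by norm_num)]
    exact mul_le_mul_left (ENNReal.rpow_le_rpow hD (by norm_num)) _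
  exact ENNReal.toReal_le_of_le_ofReal (by positivity) htot

end Gap3Aux

/-- Cauchy–Schwarz with the length, sums over `ξ_1..ξ_ℓ` -/
theorem Chain.Θ_cs1 (M : Chain S) (k : Cut S) (F : ℕ × (ℕ → S) → ℝ) (hF : Measurable F)
    (D : ℝ) (hD0 : 0 ≤ D)
    (hD : ∫⁻ p, ((p.1 : ℝ≥0∞) + 1) * ENNReal.ofReal ((F p) ^ 2) ∂(M.Θ k) ≤ ENNReal.ofReal D)
    (q : S → ℝ) (hq : Measurable q) (hq2 : MemLp q 2 M.ν) :
    ∫ p, |F p| * ∑ i ∈ Finset.range (p.1 + 1), |q (p.2 (i + 1))| ∂(M.Θ k)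
      ≤ Real.sqrt D * Real.sqrt (∫ x, (q x) ^ 2 ∂M.ν) :=
  cs_core M k F hF D hD0 hD q hq hq2 1

/-- Cauchy–Schwarz with the length, sums over `ξ_0..ξ_{ℓ-1}` -/
theorem Chain.Θ_cs0 (M : Chain S) (k : Cut S) (F : ℕ × (ℕ → S) → ℝ) (hF : Measurable F)
    (D : ℝ) (hD0 : 0 ≤ D)
    (hD : ∫⁻ p, ((p.1 : ℝ≥0∞) + 1) * ENNReal.ofReal ((F p) ^ 2) ∂(M.Θ k) ≤ ENNReal.ofReal D)
    (q : S → ℝ) (hq : Measurable q) (hq2 : MemLp q 2 M.ν) :
    ∫ p, |F p| * ∑ i ∈ Finset.range (p.1 + 1), |q (p.2 i)| ∂(M.Θ k)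
      ≤ Real.sqrt D * Real.sqrt (∫ x, (q x) ^ 2 ∂M.ν) :=
  cs_core M k F hF D hD0 hD q hq hq2 0

end Pool.Agent.H45.CLT
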