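import Pool.Agent.H45.CLT.Gap2

/-!
# Auxiliary lemmas for the modules GAP4F, GAP4B (also useful for GAP5): Bochner forms of the
forward summation identity and of the Campbell identity, when all terms integrate to zero.
-/

set_option autoImplicit false

open MeasureTheory ProbabilityTheory Filter
open scoped ENNReal NNReal Topology

namespace Pool.Agent.H45.CLT

variable {S : Type} [MeasurableSpace S]

namespace Gap4Aux

variable {E : Type} [NormedAddCommGroup E] [NormedSpace ℝ E]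

theorem partial_fwd (k : Cut S) (X : ℕ → (ℕ → S) → E) (N : ℕ) (ξ : ℕ → S) :
    ∑ j ∈ Finset.range N, k.W j ξ • ∑ i ∈ Finset.range (j + 1), X i ξ
      = ∑ i ∈ Finset.range N, (k.w i ξ - k.w N ξ) • X i ξ := by
  induction N with
  | zero => simp
  | succ N ih =>
    rw [Finset.sum_range_succ, ih, k.W_eq N ξ, Finset.smul_sum, Finset.sum_range_succ _ N,
      Finset.sum_range_succ _ N, ← add_assoc, ← Finset.sum_add_distrib]
    congr 1
    refine Finset.sum_congr rfl fun i _ => ?_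
    rw [← add_smul]
    congr 1
    ring

theorem v_le_one (k : Cut S) (i : ℕ) (ξ : ℕ → S) : k.v i ξ ≤ 1 :=
  (k.v_le i ξ).trans (pow_le_one₀ k.hr0 k.hr.le)

theorem w_le_one (k : Cut S) (i : ℕ) (ξ : ℕ → S) : k.w i ξ ≤ 1 :=
  (k.w_le i ξ).trans (pow_le_one₀ k.hr0 k.hr.le)

theorem sub_nonneg' (k : Cut S) (x : S) : 0 ≤ 1 - k.χ x := by
  have := k.h1 x; have := k.hr; linarith

theorem sub_le_one (k : Cut S) (x : S) : 1 - k.χ x ≤ 1 := by
  have := k.h0 x; linarith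

/-- bounded real weight times integrable function -/
theorem integrable_smul (P : Measure (ℕ → S)) (c : (ℕ → S) → ℝ) (hc : Measurable c)
    (B : ℝ) (hB : ∀ ξ, |c ξ| ≤ B) (X : (ℕ → S) → E) (hX : Integrable X P) :
    Integrable (fun ξ => c ξ • X ξ) P :=
  hX.bdd_smul B hc.aestronglyMeasurable (Eventually.of_forall fun ξ => by
    rw [Real.norm_eq_abs]; exact hB ξ)

theorem norm_int_le (P : Measure (ℕ → S)) (c : (ℕ → S) → ℝ)
    (B : ℝ) (hB : ∀ ξ, |c ξ| ≤ B) (X : (ℕ → S) → E) (hX : Integrable X P) :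
    ‖∫ ξ, c ξ • X ξ ∂P‖ ≤ B * ∫ ξ, ‖X ξ‖ ∂P := by
  rw [← integral_const_mul]
  refine norm_integral_le_of_norm_le (hX.norm.const_mul B) (Eventually.of_forall fun ξ => ?_)
  rw [norm_smul, Real.norm_eq_abs]
  exact mul_le_mul_of_nonneg_right (hB ξ) (norm_nonneg _)

theorem tendsto_aux (k : Cut S) (C : ℝ) :
    Tendsto (fun N : ℕ => k.r ^ N * (C * ((N : ℝ) * N))) atTop (𝓝 0) := by
  have h := (tendsto_pow_const_mul_const_pow_of_lt_one 2 k.hr0 k.hr).const_mul C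
  rw [mul_zero] at h
  refine h.congr fun N => ?_
  ring

theorem sum_le_sq (C : ℝ) (hC : 0 ≤ C) (N : ℕ) :
    ∑ i ∈ Finset.range N, C * ((i : ℝ) + 1) ≤ C * ((N : ℝ) * N) := by
  rw [← Finset.mul_sum]
  refine mul_le_mul_of_nonneg_left ?_ hC
  calc ∑ i ∈ Finset.range N, ((i : ℝ) + 1) ≤ ∑ _i ∈ Finset.range N, (N : ℝ) := by
        refine Finset.sum_le_sum fun i hi => ?_
        have := Finset.mem_range.mp hi
        exact_mod_cast this
    _ = (N : ℝ) * N := by simp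

end Gap4Aux

open Gap4Aux

section
variable {E : Type} [NormedAddCommGroup E] [NormedSpace ℝ E]

/-- forward summation identity, all terms zero -/
theorem Chain.Θ_fwd_zero (M : Chain S) (k : Cut S) (X : ℕ → (ℕ → S) → E)
    (hX : ∀ i, Integrable (X i) M.P) (C : ℝ)
    (hC : ∀ i, ∫ ξ, ‖X i ξ‖ ∂M.P ≤ C * ((i : ℝ) + 1))
    (h0 : ∀ i, ∫ ξ, k.w i ξ • X i ξ ∂M.P = 0) :
    ∫ p, ∑ i ∈ Finset.range (p.1 + 1), X i p.2 ∂(M.Θ k) = 0 := by
  by_cases hF : Integrable (fun p : ℕ × (ℕ → S) => ∑ i ∈ Finset.range (p.1 + 1), X i p.2) (M.Θ k)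
  swap
  · exact integral_undef hF
  obtain ⟨hj, hs⟩ := M.integral_Θ k _ hF
  refine tendsto_nhds_unique hs.tendsto_sum_nat ?_
  have hC0 : 0 ≤ C := by
    have := (integral_nonneg fun ξ => norm_nonneg (X 0 ξ)).trans (hC 0)
    simpa using this
  refine squeeze_zero_norm (fun N => ?_) (tendsto_aux k C)
  have hw : ∀ i ξ, |k.w i ξ| ≤ k.r ^ i := fun i ξ => by
    rw [abs_of_nonneg (k.w_nonneg i ξ)]; exact k.w_le i ξ
  have e1 : ∑ j ∈ Finset.range N, ∫ ξ, k.W j ξ • ∑ i ∈ Finset.range (j + 1), X i ξ ∂M.P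
      = - ∑ i ∈ Finset.range N, ∫ ξ, k.w N ξ • X i ξ ∂M.P := by
    rw [← integral_finsetSum _ (fun j _ => hj j)]
    simp_rw [partial_fwd k X N]
    rw [integral_finsetSum]
    · rw [← Finset.sum_neg_distrib]
      refine Finset.sum_congr rfl fun i _ => ?_
      have : ∀ ξ : ℕ → S, (k.w i ξ - k.w N ξ) • X i ξ = k.w i ξ • X i ξ - k.w N ξ • X i ξ :=
        fun ξ => sub_smul _ _ _
      simp_rw [this]
      rw [integral_sub (integrable_smul M.P _ (k.measurable_w i) _ (hw i) _ (hX i))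
        (integrable_smul M.P _ (k.measurable_w N) _ (hw N) _ (hX i)), h0 i, zero_sub]
    · intro i _
      have : ∀ ξ : ℕ → S, (k.w i ξ - k.w N ξ) • X i ξ = k.w i ξ • X i ξ - k.w N ξ • X i ξ :=
        fun ξ => sub_smul _ _ _
      simp_rw [this]
      exact (integrable_smul M.P _ (k.measurable_w i) _ (hw i) _ (hX i)).sub
        (integrable_smul M.P _ (k.measurable_w N) _ (hw N) _ (hX i))
  rw [e1, norm_neg]
  calc ‖∑ i ∈ Finset.range N, ∫ ξ, k.w N ξ • X i ξ ∂M.P‖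
      ≤ ∑ i ∈ Finset.range N, ‖∫ ξ, k.w N ξ • X i ξ ∂M.P‖ := norm_sum_le _ _
    _ ≤ ∑ i ∈ Finset.range N, k.r ^ N * (C * ((i : ℝ) + 1)) := by
        refine Finset.sum_le_sum fun i _ => ?_
        refine (norm_int_le M.P _ _ (hw N) _ (hX i)).trans ?_
        exact mul_le_mul_of_nonneg_left (hC i) (pow_nonneg k.hr0 N)
    _ ≤ k.r ^ N * (C * ((N : ℝ) * N)) := by
        rw [← Finset.mul_sum]
        exact mul_le_mul_of_nonneg_left (sum_le_sq C hC0 N) (pow_nonneg k.hr0 N)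

end

namespace Gap4Aux

variable {E : Type} [NormedAddCommGroup E] [NormedSpace ℝ E]

/-- the weight `c_l = v_l (1 - χ(ξ_{l+1}))` -/
noncomputable def cc (k : Cut S) (l : ℕ) (ξ : ℕ → S) : ℝ := k.v l ξ * (1 - k.χ (ξ (l + 1)))

theorem cc_abs (k : Cut S) (l : ℕ) (ξ : ℕ → S) : |cc k l ξ| ≤ k.r ^ l := by
  unfold cc
  rw [abs_of_nonneg (mul_nonneg (k.v_nonneg l ξ) (sub_nonneg' k _))]
  calc k.v l ξ * (1 - k.χ (ξ (l + 1))) ≤ k.r ^ l * 1 :=
        mul_le_mul (k.v_le l ξ) (sub_le_one k _) (sub_nonneg' k _) (pow_nonneg k.hr0 l)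
    _ = k.r ^ l := mul_one _

theorem measurable_cc (k : Cut S) (l : ℕ) : Measurable (cc k l) :=
  (k.measurable_v l).mul (measurable_const.sub (k.hm.comp (measurable_pi_apply (l + 1))))

theorem v_add (k : Cut S) (i l : ℕ) (ξ : ℕ → S) :
    k.v (i + l) ξ = k.v i ξ * k.v l (sh i ξ) := by
  unfold Cut.v sh
  rw [Finset.prod_range_add]
  congr 1

theorem W_split (k : Cut S) (i l : ℕ) (ξ : ℕ → S) :
    k.W (i + l) ξ = k.w i ξ * cc k l (sh i ξ) := by
  unfold Cut.W Cut.w cc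
  rw [v_add]
  have : (sh i ξ) (l + 1) = ξ (i + l + 1) := by
    unfold sh
    congr 1
  rw [this]
  ring

theorem partial_bwd (k : Cut S) (H : ℕ → (ℕ → S) → E) (N : ℕ) (ξ : ℕ → S) :
    ∑ j ∈ Finset.range N, k.W j ξ • ∑ i ∈ Finset.range (j + 1), H (j - i) (sh i ξ)
      = ∑ l ∈ Finset.range N, ∑ i ∈ Finset.range (N - l),
          k.w i ξ • (cc k l (sh i ξ) • H l (sh i ξ)) := by
  induction N with
  | zero => simp
  | succ N ih =>
    rw [Finset.sum_range_succ, ih]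
    have e1 : ∑ l ∈ Finset.range (N + 1), ∑ i ∈ Finset.range (N + 1 - l),
          k.w i ξ • (cc k l (sh i ξ) • H l (sh i ξ))
        = ∑ l ∈ Finset.range (N + 1), (∑ i ∈ Finset.range (N - l),
          k.w i ξ • (cc k l (sh i ξ) • H l (sh i ξ))
          + k.w (N - l) ξ • (cc k l (sh (N - l) ξ) • H l (sh (N - l) ξ))) := by
      refine Finset.sum_congr rfl fun l hl => ?_
      have := Finset.mem_range.mp hl
      rw [show N + 1 - l = (N - l) + 1 by omega, Finset.sum_range_succ]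
    have e0 : ∑ l ∈ Finset.range (N + 1), ∑ i ∈ Finset.range (N - l),
          k.w i ξ • (cc k l (sh i ξ) • H l (sh i ξ))
        = ∑ l ∈ Finset.range N, ∑ i ∈ Finset.range (N - l),
          k.w i ξ • (cc k l (sh i ξ) • H l (sh i ξ)) := by
      rw [Finset.sum_range_succ _ N]
      simp
    rw [e1, Finset.sum_add_distrib, e0]
    congr 1
    rw [Finset.smul_sum, ← Finset.sum_range_reflect]
    refine Finset.sum_congr rfl fun l hl => ?_
    have hl' := Finset.mem_range.mp hl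
    have e2 : N + 1 - 1 - l = N - l := by omega
    have e3 : N - (N - l) = l := by omega
    rw [e2, e3, smul_smul, ← W_split]
    congr 2
    omega

/-- telescoping by stationarity -/
theorem tele (M : Chain S) (k : Cut S) (U : (ℕ → S) → E) (hU : Integrable U M.P) (n : ℕ) :
    ∑ i ∈ Finset.range n, ∫ ξ, k.w i ξ • U (sh i ξ) ∂M.P
      = ∫ ξ, U ξ ∂M.P - ∫ ξ, k.v n ξ • U (sh n ξ) ∂M.P := by
  have hUi : ∀ i, Integrable (fun ξ => U (sh i ξ)) M.P := fun i =>
    (M.mp_sh i).integrable_comp_of_integrable hU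
  have hv : ∀ i ξ, |k.v i ξ| ≤ 1 := fun i ξ => by
    rw [abs_of_nonneg (k.v_nonneg i ξ)]; exact v_le_one k i ξ
  have hcv : ∀ i ξ, |k.χ (ξ 0) * k.v i ξ| ≤ 1 := fun i ξ => by
    rw [abs_of_nonneg (mul_nonneg (k.h0 _) (k.v_nonneg i ξ))]
    exact mul_le_one₀ ((k.h1 _).trans k.hr.le) (k.v_nonneg i ξ) (v_le_one k i ξ)
  have mcv : ∀ i, Measurable (fun ξ : ℕ → S => k.χ (ξ 0) * k.v i ξ) := fun i =>
    (k.hm.comp (measurable_pi_apply 0)).mul (k.measurable_v i)
  have step : ∀ i, ∫ ξ, k.w i ξ • U (sh i ξ) ∂M.P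
      = ∫ ξ, k.v i ξ • U (sh i ξ) ∂M.P - ∫ ξ, k.v (i + 1) ξ • U (sh (i + 1) ξ) ∂M.P := by
    intro i
    have e1 : ∀ ξ : ℕ → S, k.w i ξ • U (sh i ξ)
        = k.v i ξ • U (sh i ξ) - (k.χ (ξ 0) * k.v i ξ) • U (sh i ξ) := by
      intro ξ
      rw [← sub_smul]
      congr 1
      unfold Cut.w
      ring
    simp_rw [e1]
    have hI := integrable_smul M.P _ (mcv i) 1 (hcv i) _ (hUi i)
    rw [integral_sub (integrable_smul M.P _ (k.measurable_v i) 1 (hv i) _ (hUi i)) hI]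
    congr 1
    have e2 : ∀ ξ : ℕ → S, k.v (i + 1) ξ • U (sh (i + 1) ξ)
        = (fun η : ℕ → S => (k.χ (η 0) * k.v i η) • U (sh i η)) (sh 1 ξ) := by
      intro ξ
      have e3 : k.v (i + 1) ξ = k.χ ((sh 1 ξ) 0) * k.v i (sh 1 ξ) := by
        rw [add_comm i 1, v_add]
        congr 1
        simp [Cut.v, sh]
      have e4 : sh (i + 1) ξ = sh i (sh 1 ξ) := by
        funext j
        simp only [sh]
        congr 1
        ring
      simp only [e3, e4]
    simp_rw [e2]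
    have hmp := M.mp_sh 1
    rw [← integral_map (μ := M.P) (φ := sh 1)
      (f := fun η : ℕ → S => (k.χ (η 0) * k.v i η) • U (sh i η))
      (measurable_sh 1).aemeasurable (by rw [hmp.map_eq]; exact hI.aestronglyMeasurable),
      hmp.map_eq]
  simp_rw [step]
  rw [Finset.sum_range_sub']
  congr 1
  have e5 : ∀ ξ : ℕ → S, sh 0 ξ = ξ := fun ξ => by
    funext j
    simp [sh]
  simp [Cut.v, e5]

end Gap4Aux

section
variable {E : Type} [NormedAddCommGroup E] [NormedSpace ℝ E]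

/-- Campbell identity, all terms zero -/
theorem Chain.Θ_bwd_zero (M : Chain S) (k : Cut S) (H : ℕ → (ℕ → S) → E)
    (hH : ∀ l, Integrable (H l) M.P) (C : ℝ)
    (hC : ∀ l, ∫ ξ, ‖H l ξ‖ ∂M.P ≤ C * ((l : ℝ) + 1))
    (h0 : ∀ l, ∫ ξ, (k.v l ξ * (1 - k.χ (ξ (l + 1)))) • H l ξ ∂M.P = 0) :
    ∫ p, ∑ i ∈ Finset.range (p.1 + 1), H (p.1 - i) (sh i p.2) ∂(M.Θ k) = 0 := by
  by_cases hF : Integrable (fun p : ℕ × (ℕ → S) =>
    ∑ i ∈ Finset.range (p.1 + 1), H (p.1 - i) (sh i p.2)) (M.Θ k)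
  swap
  · exact integral_undef hF
  obtain ⟨hj, hs⟩ := M.integral_Θ k _ hF
  refine tendsto_nhds_unique hs.tendsto_sum_nat ?_
  have hC0 : 0 ≤ C := by
    have := (integral_nonneg fun ξ => norm_nonneg (H 0 ξ)).trans (hC 0)
    simpa using this
  refine squeeze_zero_norm (fun N => ?_) (tendsto_aux k C)
  have hU : ∀ l, Integrable (fun ξ => cc k l ξ • H l ξ) M.P := fun l =>
    integrable_smul M.P _ (measurable_cc k l) _ (cc_abs k l) _ (hH l)
  have hUi : ∀ i l, Integrable (fun ξ => cc k l (sh i ξ) • H l (sh i ξ)) M.P := fun i l =>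
    (M.mp_sh i).integrable_comp_of_integrable (hU l)
  have hw : ∀ i ξ, |k.w i ξ| ≤ 1 := fun i ξ => by
    rw [abs_of_nonneg (k.w_nonneg i ξ)]; exact w_le_one k i ξ
  have hv : ∀ i ξ, |k.v i ξ| ≤ k.r ^ i := fun i ξ => by
    rw [abs_of_nonneg (k.v_nonneg i ξ)]; exact k.v_le i ξ
  have hwI : ∀ i l, Integrable (fun ξ => k.w i ξ • (cc k l (sh i ξ) • H l (sh i ξ))) M.P :=
    fun i l => integrable_smul M.P _ (k.measurable_w i) 1 (hw i) _ (hUi i l)
  have e1 : ∑ j ∈ Finset.range N,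
        ∫ ξ, k.W j ξ • ∑ i ∈ Finset.range (j + 1), H (j - i) (sh i ξ) ∂M.P
      = - ∑ l ∈ Finset.range N,
          ∫ ξ, k.v (N - l) ξ • (cc k l (sh (N - l) ξ) • H l (sh (N - l) ξ)) ∂M.P := by
    rw [← integral_finsetSum _ (fun j _ => hj j)]
    simp_rw [partial_bwd k H N]
    rw [integral_finsetSum _ (fun l _ => integrable_finsetSum _ fun i _ => hwI i l),
      ← Finset.sum_neg_distrib]
    refine Finset.sum_congr rfl fun l _ => ?_
    rw [integral_finsetSum _ (fun i _ => hwI i l)]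
    have := tele M k (fun ξ => cc k l ξ • H l ξ) (hU l) (N - l)
    rw [this]
    have h0l : ∫ ξ, cc k l ξ • H l ξ ∂M.P = 0 := h0 l
    rw [h0l, zero_sub]
  rw [e1, norm_neg]
  calc ‖∑ l ∈ Finset.range N,
          ∫ ξ, k.v (N - l) ξ • (cc k l (sh (N - l) ξ) • H l (sh (N - l) ξ)) ∂M.P‖
      ≤ ∑ l ∈ Finset.range N,
          ‖∫ ξ, k.v (N - l) ξ • (cc k l (sh (N - l) ξ) • H l (sh (N - l) ξ)) ∂M.P‖ :=
        norm_sum_le _ _
    _ ≤ ∑ l ∈ Finset.range N, k.r ^ N * (C * ((l : ℝ) + 1)) := by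
        refine Finset.sum_le_sum fun l hl => ?_
        have hl' := Finset.mem_range.mp hl
        refine (norm_int_le M.P _ _ (hv (N - l)) _ (hUi (N - l) l)).trans ?_
        have e2 : ∫ ξ, ‖cc k l (sh (N - l) ξ) • H l (sh (N - l) ξ)‖ ∂M.P
            = ∫ ξ, ‖cc k l ξ • H l ξ‖ ∂M.P := by
          have hmp := M.mp_sh (N - l)
          rw [← integral_map (μ := M.P) (φ := sh (N - l))
            (f := fun η : ℕ → S => ‖cc k l η • H l η‖)
            (measurable_sh (N - l)).aemeasurable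
            (by rw [hmp.map_eq]; exact (hU l).norm.aestronglyMeasurable),
            hmp.map_eq]
        rw [e2]
        have e3 : ∫ ξ, ‖cc k l ξ • H l ξ‖ ∂M.P ≤ k.r ^ l * (C * ((l : ℝ) + 1)) := by
          calc ∫ ξ, ‖cc k l ξ • H l ξ‖ ∂M.P ≤ ∫ ξ, k.r ^ l * ‖H l ξ‖ ∂M.P := by
                refine integral_mono (hU l).norm ((hH l).norm.const_mul _) fun ξ => ?_
                simp only [norm_smul, Real.norm_eq_abs]
                exact mul_le_mul_of_nonneg_right (cc_abs k l ξ) (norm_nonneg _)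
            _ = k.r ^ l * ∫ ξ, ‖H l ξ‖ ∂M.P := integral_const_mul _ _
            _ ≤ _ := mul_le_mul_of_nonneg_left (hC l) (pow_nonneg k.hr0 l)
        calc k.r ^ (N - l) * ∫ ξ, ‖cc k l ξ • H l ξ‖ ∂M.P
            ≤ k.r ^ (N - l) * (k.r ^ l * (C * ((l : ℝ) + 1))) :=
              mul_le_mul_of_nonneg_left e3 (pow_nonneg k.hr0 _)
          _ = k.r ^ N * (C * ((l : ℝ) + 1)) := by
              rw [← mul_assoc, ← pow_add]
              congr 2
              omega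
    _ ≤ k.r ^ N * (C * ((N : ℝ) * N)) := by
        rw [← Finset.mul_sum]
        exact mul_le_mul_of_nonneg_left (sum_le_sq C hC0 N) (pow_nonneg k.hr0 N)

end

end Pool.Agent.H45.CLT
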