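import Pool.Agent.H45.CLT.PathA
import Pool.Agent.H43.CLT.L2op

/-!
# Module PATHB: the adjoint `Q*`, backward orthogonality, weak Jensen.
`Bwd.orth`: first for `H(sh 1 ξ)` a product of bounded functions of finitely many coordinates
(then conditioning on `ξ_0, ξ_1` gives a bounded function of `ξ_1`, so `Bwd.eq` applies), then by a
monotone class / density argument.  `exists_bwd`: `Q* g = J₁* J₀ g`, `J_i φ = φ ∘ ξ_i` isometries
`L²(ν) → L²(P)`.  `Bwd.jensen`: `E[φ(ξ_1) h'(ξ_1)²] = E[φ(ξ_1)h'(ξ_1)h(ξ_0)]` and Cauchy-Schwarz.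
-/

set_option autoImplicit false

open MeasureTheory ProbabilityTheory
open scoped ENNReal NNReal

namespace Pool.Agent.H45.CLT

variable {S : Type} [MeasurableSpace S]

set_option linter.unusedSectionVars false

lemma Chain.integral_evalPB (M : Chain S) (i : ℕ) {E : Type*} [NormedAddCommGroup E]
    [NormedSpace ℝ E] {F : S → E} (hF : AEStronglyMeasurable F M.ν) :
    ∫ ξ, F (ξ i) ∂M.P = ∫ x, F x ∂M.ν := by
  have h := (M.mp_eval i)
  rw [← h.map_eq] at hF ⊢
  exact (integral_map h.measurable.aemeasurable hF).symm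

lemma Chain.integral_shPB (M : Chain S) (i : ℕ) {E : Type*} [NormedAddCommGroup E]
    [NormedSpace ℝ E] {F : (ℕ → S) → E} (hF : AEStronglyMeasurable F M.P) :
    ∫ ξ, F (sh i ξ) ∂M.P = ∫ ξ, F ξ ∂M.P := by
  have h := (M.mp_sh i)
  have hF' : AEStronglyMeasurable F (M.P.map (sh i)) := by rw [h.map_eq]; exact hF
  have := integral_map h.measurable.aemeasurable hF'
  rw [h.map_eq] at this
  exact this.symm

/-! ### Auxiliary: product functions of finitely many coordinates -/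

/-- product of indicators of the coordinates `i, ..., i+n-1` -/
noncomputable def boxF (n : ℕ) (A : ℕ → Set S) (i : ℕ) (ξ : ℕ → S) : ℝ :=
  ∏ j ∈ Finset.range n, (A j).indicator (fun _ => (1 : ℝ)) (ξ (i + j))

/-- conditional expectation of `boxF` given the first coordinate -/
noncomputable def boxR (M : Chain S) : ℕ → (ℕ → Set S) → S → ℝ
  | 0, _ => fun _ => 1
  | n + 1, A => (A 0).indicator (fun x => ∫ z, boxR M n (fun j => A (j + 1)) z ∂(M.Q x))

lemma measurable_Q_integralPB (M : Chain S) {g : S → ℝ} (hg : Measurable g) :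
    Measurable (fun x => ∫ z, g z ∂(M.Q x)) :=
  (hg.stronglyMeasurable.integral_kernel).measurable

lemma abs_Q_integral_lePB (M : Chain S) {g : S → ℝ} {C : ℝ} (hg : ∀ x, |g x| ≤ C) (x : S) :
    |∫ z, g z ∂(M.Q x)| ≤ C := by
  have := norm_integral_le_of_norm_le_const (μ := M.Q x) (f := g) (C := C)
    (Filter.Eventually.of_forall fun z => by simpa using hg z)
  simpa using this

lemma measurable_boxR (M : Chain S) (n : ℕ) : ∀ A : ℕ → Set S, (∀ j, MeasurableSet (A j)) →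
    Measurable (boxR M n A) := by
  induction n with
  | zero => intro A _; exact measurable_const
  | succ n ih =>
    intro A hA
    exact (measurable_Q_integralPB M (ih _ fun j => hA (j + 1))).indicator (hA 0)

lemma abs_boxR_le (M : Chain S) (n : ℕ) : ∀ (A : ℕ → Set S) (x : S), |boxR M n A x| ≤ 1 := by
  induction n with
  | zero => intro A x; simp [boxR]
  | succ n ih =>
    intro A x
    unfold boxR
    by_cases hx : x ∈ A 0
    · rw [Set.indicator_of_mem hx]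
      exact abs_Q_integral_lePB M (fun z => ih _ z) x
    · rw [Set.indicator_of_notMem hx]; simp

lemma measurable_boxF (n : ℕ) (A : ℕ → Set S) (hA : ∀ j, MeasurableSet (A j)) (i : ℕ) :
    Measurable (boxF n A i) := by
  unfold boxF
  exact Finset.measurable_prod _ fun j _ =>
    (measurable_const.indicator (hA j)).comp (measurable_pi_apply _)

lemma boxF_succ (n : ℕ) (A : ℕ → Set S) (i : ℕ) (ξ : ℕ → S) :
    boxF (n + 1) A i ξ = (A 0).indicator (fun _ => (1 : ℝ)) (ξ i)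
      * boxF n (fun j => A (j + 1)) (i + 1) ξ := by
  unfold boxF
  rw [Finset.prod_range_succ', mul_comm]
  congr 1
  refine Finset.prod_congr rfl fun j _ => ?_
  congr 2
  omega

lemma fr_fr_succPB (i : ℕ) (ξ : ℕ → S) : fr i (fr (i + 1) ξ) = fr i ξ := by
  funext j
  simp only [fr]
  congr 1
  omega

lemma fr_apply_selfPB (i : ℕ) (ξ : ℕ → S) : fr i ξ i = ξ i := by
  simp [fr]

lemma box_claim (M : Chain S) (n : ℕ) : ∀ (A : ℕ → Set S), (∀ j, MeasurableSet (A j)) →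
    ∀ (i : ℕ) (Φ : (ℕ → S) → ℂ), Measurable Φ → (∀ ξ, Φ (fr i ξ) = Φ ξ) → Integrable Φ M.P →
    ∫ ξ, Φ ξ * ((boxF n A (i + 1) ξ : ℝ) : ℂ) ∂M.P
      = ∫ ξ, Φ ξ * ((∫ z, boxR M n A z ∂(M.Q (ξ i)) : ℝ) : ℂ) ∂M.P := by
  induction n with
  | zero =>
    intro A _ i Φ _ _ _
    refine integral_congr_ae (Filter.Eventually.of_forall fun ξ => ?_)
    simp [boxF, boxR]
  | succ n ih =>
    intro A hA i Φ hΦ hΦi hΦ1
    have hind : Measurable (fun ξ : ℕ → S => (((A 0).indicator (fun _ => (1 : ℝ)) (ξ (i + 1)) : ℝ) : ℂ)) :=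
      Complex.measurable_ofReal.comp
        ((measurable_const.indicator (hA 0)).comp (measurable_pi_apply _))
    have hind1 : ∀ ξ : ℕ → S, ‖(((A 0).indicator (fun _ => (1 : ℝ)) (ξ (i + 1)) : ℝ) : ℂ)‖ ≤ 1 := by
      intro ξ
      by_cases hx : ξ (i + 1) ∈ A 0
      · rw [Set.indicator_of_mem hx]; simp
      · rw [Set.indicator_of_notMem hx]; simp
    have h1 := ih (fun j => A (j + 1)) (fun j => hA (j + 1)) (i + 1)
      (fun ξ => Φ ξ * (((A 0).indicator (fun _ => (1 : ℝ)) (ξ (i + 1)) : ℝ) : ℂ))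
      (hΦ.mul hind)
      (fun ξ => by
        rw [fr_apply_selfPB, ← hΦi (fr (i + 1) ξ), fr_fr_succPB, hΦi])
      (hΦ1.mul_bdd hind.aestronglyMeasurable (Filter.Eventually.of_forall hind1))
    have h2 : ∀ ξ : ℕ → S, Φ ξ * ((boxF (n + 1) A (i + 1) ξ : ℝ) : ℂ) =
        Φ ξ * (((A 0).indicator (fun _ => (1 : ℝ)) (ξ (i + 1)) : ℝ) : ℂ)
          * ((boxF n (fun j => A (j + 1)) (i + 1 + 1) ξ : ℝ) : ℂ) := by
      intro ξ
      rw [boxF_succ]
      push_cast
      ring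
    simp only [h2]
    rw [h1]
    have h3 : ∀ ξ : ℕ → S, Φ ξ * (((A 0).indicator (fun _ => (1 : ℝ)) (ξ (i + 1)) : ℝ) : ℂ)
          * ((∫ z, boxR M n (fun j => A (j + 1)) z ∂(M.Q (ξ (i + 1))) : ℝ) : ℂ)
        = Φ ξ * ((fun x => ((boxR M (n + 1) A x : ℝ) : ℂ)) (ξ (i + 1))) := by
      intro ξ
      rw [show boxR M (n + 1) A = (A 0).indicator
        (fun x => ∫ z, boxR M n (fun j => A (j + 1)) z ∂(M.Q x)) from rfl]
      by_cases hx : ξ (i + 1) ∈ A 0
      · simp [Set.indicator_of_mem hx]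
      · simp [Set.indicator_of_notMem hx]
    simp only [h3]
    have h4 := M.markov_bdd i Φ hΦ hΦi hΦ1 (fun x => ((boxR M (n + 1) A x : ℝ) : ℂ))
      (Complex.measurable_ofReal.comp (measurable_boxR M (n + 1) A hA))
      ⟨1, fun x => by rw [Complex.norm_real]; exact abs_boxR_le M (n + 1) A x⟩
    rw [h4]
    refine integral_congr_ae (Filter.Eventually.of_forall fun ξ => ?_)
    simp only
    rw [integral_complex_ofReal]

/-- the boxes -/
def boxes (S : Type) [MeasurableSpace S] : Set (Set (ℕ → S)) :=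
  {E | ∃ (n : ℕ) (A : ℕ → Set S), (∀ j, MeasurableSet (A j)) ∧ E = {ξ | ∀ j < n, ξ j ∈ A j}}

lemma measurableSet_box (n : ℕ) (A : ℕ → Set S) (hA : ∀ j, MeasurableSet (A j)) :
    MeasurableSet {ξ : ℕ → S | ∀ j < n, ξ j ∈ A j} := by
  have : {ξ : ℕ → S | ∀ j < n, ξ j ∈ A j} = ⋂ j, ⋂ (_ : j < n), (fun ξ : ℕ → S => ξ j) ⁻¹' (A j) := by
    ext ξ; simp
  rw [this]
  exact MeasurableSet.iInter fun j => MeasurableSet.iInter fun _ => measurable_pi_apply j (hA j)

lemma generate_boxes : (inferInstance : MeasurableSpace (ℕ → S)) =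
    MeasurableSpace.generateFrom (boxes S) := by
  apply le_antisymm
  · show MeasurableSpace.pi ≤ _
    unfold MeasurableSpace.pi
    refine iSup_le fun i => ?_
    rintro E ⟨A, hA, rfl⟩
    classical
    apply MeasurableSpace.measurableSet_generateFrom
    refine ⟨i + 1, fun j => if j = i then A else Set.univ, fun j => ?_, ?_⟩
    · show MeasurableSet (if j = i then A else Set.univ)
      split_ifs
      · exact hA
      · exact MeasurableSet.univ
    · ext ξ
      simp only [Set.mem_preimage, Set.mem_ofPred_eq]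
      constructor
      · intro h j hj
        split_ifs with hji
        · rw [hji]; exact h
        · trivial
      · intro h
        have := h i (Nat.lt_succ_self i)
        simpa using this
  · apply MeasurableSpace.generateFrom_le
    rintro E ⟨n, A, hA, rfl⟩
    exact measurableSet_box n A hA

lemma piSystem_boxes : IsPiSystem (boxes S) := by
  classical
  rintro E ⟨n, A, hA, rfl⟩ F ⟨m, B, hB, rfl⟩ _
  refine ⟨max n m, fun j => (if j < n then A j else Set.univ) ∩ (if j < m then B j else Set.univ),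
    fun j => ?_, ?_⟩
  · apply MeasurableSet.inter
    · split_ifs
      · exact hA j
      · exact MeasurableSet.univ
    · split_ifs
      · exact hB j
      · exact MeasurableSet.univ
  · ext ξ
    simp only [Set.mem_inter_iff, Set.mem_ofPred_eq]
    constructor
    · rintro ⟨h1, h2⟩ j _
      constructor
      · split_ifs with h
        · exact h1 j h
        · trivial
      · split_ifs with h
        · exact h2 j h
        · trivial
    · intro h
      constructor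
      · intro j hj
        have := (h j (lt_of_lt_of_le hj (le_max_left _ _))).1
        rwa [if_pos hj] at this
      · intro j hj
        have := (h j (lt_of_lt_of_le hj (le_max_right _ _))).2
        rwa [if_pos hj] at this

lemma boxF_eq_indicator (n : ℕ) (A : ℕ → Set S) (ξ : ℕ → S) :
    boxF n A 1 ξ = ((sh 1) ⁻¹' {ξ : ℕ → S | ∀ j < n, ξ j ∈ A j}).indicator (fun _ => (1 : ℝ)) ξ := by
  unfold boxF
  by_cases h : ∀ j < n, sh 1 ξ j ∈ A j
  · rw [Set.indicator_of_mem (by exact h)]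
    refine Finset.prod_eq_one fun j hj => ?_
    exact Set.indicator_of_mem (h j (Finset.mem_range.1 hj)) _
  · rw [Set.indicator_of_notMem (by exact h)]
    push Not at h
    obtain ⟨j, hj, hjA⟩ := h
    exact Finset.prod_eq_zero (Finset.mem_range.2 hj) (Set.indicator_of_notMem hjA _)

/-- orthogonality from orthogonality to sets -/
lemma orth_of_sets (M : Chain S) {D : (ℕ → S) → ℝ} (hD : MemLp D 2 M.P)
    (h : ∀ E : Set (ℕ → S), MeasurableSet E → ∫ ξ in (sh 1) ⁻¹' E, D ξ ∂M.P = 0)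
    (H : (ℕ → S) → ℝ) (hH : Measurable H) (hH2 : MemLp H 2 M.P) :
    ∫ ξ, H (sh 1 ξ) * D ξ ∂M.P = 0 := by
  set m : MeasurableSpace (ℕ → S) :=
    MeasurableSpace.comap (sh 1 : (ℕ → S) → (ℕ → S)) inferInstance with hm
  have hm0 : m ≤ MeasurableSpace.pi := (measurable_sh 1).comap_le
  have hD1 : Integrable D M.P := hD.integrable (by norm_num)
  have h0 : (fun _ => (0 : ℝ)) =ᵐ[M.P] M.P[D | m] := by
    refine ae_eq_condExp_of_forall_setIntegral_eq hm0 hD1 (fun s _ _ => ?_) (fun s hs _ => ?_) ?_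
    · exact integrable_zero _ _ _
    · obtain ⟨E, hE, rfl⟩ := hs
      rw [h E hE]; simp
    · exact stronglyMeasurable_const.aestronglyMeasurable
  have hHsh : MemLp (fun ξ => H (sh 1 ξ)) 2 M.P := hH2.comp_measurePreserving (M.mp_sh 1)
  have hHD : Integrable ((fun ξ => H (sh 1 ξ)) * D) M.P := hHsh.integrable_mul hD
  have hst : StronglyMeasurable[m] (fun ξ => H (sh 1 ξ)) :=
    (hH.comp (comap_measurable (sh 1 : (ℕ → S) → (ℕ → S)))).stronglyMeasurable
  have h1 := condExp_mul_of_stronglyMeasurable_left hst hHD hD1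
  have h2 : ∫ ξ, ((fun ξ => H (sh 1 ξ)) * D) ξ ∂M.P = 0 := by
    rw [← integral_condExp hm0, integral_congr_ae h1]
    rw [integral_eq_zero_of_ae]
    filter_upwards [h0] with ξ hξ
    simp [← hξ]
  exact h2

lemma Chain.Bwd.orth_box {M : Chain S} {g g' : S → ℝ} (h : M.Bwd g g') (n : ℕ) (A : ℕ → Set S)
    (hA : ∀ j, MeasurableSet (A j)) :
    ∫ ξ, (g (ξ 0) - g' (ξ 1)) * boxF n A 1 ξ ∂M.P = 0 := by
  have hg1 : Integrable g M.ν := h.l2.integrable (by norm_num)
  have hg1' : Integrable g' M.ν := h.l2'.integrable (by norm_num)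
  have hG0 : Integrable (fun ξ : ℕ → S => g (ξ 0)) M.P := (M.mp_eval 0).integrable_comp_of_integrable hg1
  have hG1 : Integrable (fun ξ : ℕ → S => g' (ξ 1)) M.P := (M.mp_eval 1).integrable_comp_of_integrable hg1'
  have hG0' : Integrable (fun ξ : ℕ → S => g' (ξ 0)) M.P := (M.mp_eval 0).integrable_comp_of_integrable hg1'
  have hbF : Measurable (boxF n A 1) := measurable_boxF n A hA 1
  have hbF1 : ∀ (n : ℕ) (A : ℕ → Set S) (i : ℕ) (ξ : ℕ → S), ‖boxF n A i ξ‖ ≤ 1 := by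
    intro n A i ξ
    unfold boxF
    rw [norm_prod]
    refine Finset.prod_le_one (fun _ _ => norm_nonneg _) fun j _ => ?_
    by_cases hx : ξ (i + j) ∈ A j
    · rw [Set.indicator_of_mem hx]; simp
    · rw [Set.indicator_of_notMem hx]; simp
  -- first term
  have e1 : ∫ ξ, g (ξ 0) * boxF n A 1 ξ ∂M.P = ∫ x, boxR M n A x * g' x ∂M.ν := by
    have h1 := box_claim M n A hA 0 (fun ξ => ((g (ξ 0) : ℝ) : ℂ))
      (Complex.measurable_ofReal.comp (h.m.comp (measurable_pi_apply 0)))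
      (fun ξ => by simp [fr]) hG0.ofReal
    have h2 : ∫ ξ, g (ξ 0) * boxF n A 1 ξ ∂M.P
        = ∫ ξ, g (ξ 0) * (∫ z, boxR M n A z ∂(M.Q (ξ 0))) ∂M.P := by
      have h3 : ((∫ ξ, g (ξ 0) * boxF n A 1 ξ ∂M.P : ℝ) : ℂ)
          = ((∫ ξ, g (ξ 0) * (∫ z, boxR M n A z ∂(M.Q (ξ 0))) ∂M.P : ℝ) : ℂ) := by
        rw [← integral_complex_ofReal, ← integral_complex_ofReal]
        simpa using h1
      exact_mod_cast h3
    rw [h2, h.eq (boxR M n A) (measurable_boxR M n A hA) ⟨1, abs_boxR_le M n A⟩]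
    have h4 := M.integral_evalPB 0 (F := fun x => g x * (∫ z, boxR M n A z ∂(M.Q x)))
      (h.m.mul (measurable_Q_integralPB M (measurable_boxR M n A hA))).aestronglyMeasurable
    rw [h4]
    refine integral_congr_ae (Filter.Eventually.of_forall fun x => ?_)
    simp only
    ring
  -- second term
  have e2 : ∫ ξ, g' (ξ 1) * boxF n A 1 ξ ∂M.P = ∫ x, boxR M n A x * g' x ∂M.ν := by
    have h5 := M.integral_shPB 1 (F := fun ξ => g' (ξ 0) * boxF n A 0 ξ)
      ((h.m'.comp (measurable_pi_apply 0)).mul (measurable_boxF n A hA 0)).aestronglyMeasurable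
    have h6 : ∀ ξ : ℕ → S, boxF n A 0 (sh 1 ξ) = boxF n A 1 ξ := by
      intro ξ
      unfold boxF
      refine Finset.prod_congr rfl fun j _ => ?_
      simp [sh]
    have h7 : ∫ ξ, g' (ξ 1) * boxF n A 1 ξ ∂M.P = ∫ ξ, g' (ξ 0) * boxF n A 0 ξ ∂M.P := by
      rw [← h5]
      refine integral_congr_ae (Filter.Eventually.of_forall fun ξ => ?_)
      simp only
      rw [h6]
      rfl
    rw [h7]
    cases n with
    | zero =>
      have := M.integral_evalPB 0 (F := g') h.m'.aestronglyMeasurable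
      simp only [boxF, Finset.range_zero, Finset.prod_empty, mul_one, boxR, one_mul]
      exact this
    | succ n =>
      have hΦm : Measurable (fun ξ : ℕ → S =>
          (((A 0).indicator g' (ξ 0) : ℝ) : ℂ)) :=
        Complex.measurable_ofReal.comp ((h.m'.indicator (hA 0)).comp (measurable_pi_apply 0))
      have h1 := box_claim M n (fun j => A (j + 1)) (fun j => hA (j + 1)) 0
        (fun ξ => (((A 0).indicator g' (ξ 0) : ℝ) : ℂ)) hΦm
        (fun ξ => by simp [fr])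
        (((M.mp_eval 0).integrable_comp_of_integrable (hg1'.indicator (hA 0))).ofReal)
      have h2 : ∫ ξ, (A 0).indicator g' (ξ 0) * boxF n (fun j => A (j + 1)) 1 ξ ∂M.P
          = ∫ ξ, (A 0).indicator g' (ξ 0)
              * (∫ z, boxR M n (fun j => A (j + 1)) z ∂(M.Q (ξ 0))) ∂M.P := by
        have h3 : ((∫ ξ, (A 0).indicator g' (ξ 0) * boxF n (fun j => A (j + 1)) 1 ξ ∂M.P : ℝ) : ℂ)
            = ((∫ ξ, (A 0).indicator g' (ξ 0)
              * (∫ z, boxR M n (fun j => A (j + 1)) z ∂(M.Q (ξ 0))) ∂M.P : ℝ) : ℂ) := by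
          rw [← integral_complex_ofReal, ← integral_complex_ofReal]
          simpa using h1
        exact_mod_cast h3
      have h8 : ∀ ξ : ℕ → S, g' (ξ 0) * boxF (n + 1) A 0 ξ
          = (A 0).indicator g' (ξ 0) * boxF n (fun j => A (j + 1)) 1 ξ := by
        intro ξ
        rw [boxF_succ]
        by_cases hx : ξ 0 ∈ A 0
        · simp [Set.indicator_of_mem hx]
        · simp [Set.indicator_of_notMem hx]
      simp only [h8]
      rw [h2]
      have h4 := M.integral_evalPB 0 (F := fun x => (A 0).indicator g' x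
          * (∫ z, boxR M n (fun j => A (j + 1)) z ∂(M.Q x)))
        ((h.m'.indicator (hA 0)).mul (measurable_Q_integralPB M
          (measurable_boxR M n _ fun j => hA (j + 1)))).aestronglyMeasurable
      rw [h4]
      refine integral_congr_ae (Filter.Eventually.of_forall fun x => ?_)
      simp only
      rw [show boxR M (n + 1) A = (A 0).indicator
        (fun x => ∫ z, boxR M n (fun j => A (j + 1)) z ∂(M.Q x)) from rfl]
      by_cases hx : x ∈ A 0
      · simp only [Set.indicator_of_mem hx]; ring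
      · simp [Set.indicator_of_notMem hx]
  have i1 : Integrable (fun ξ : ℕ → S => g (ξ 0) * boxF n A 1 ξ) M.P :=
    hG0.mul_bdd hbF.aestronglyMeasurable (Filter.Eventually.of_forall (hbF1 n A 1))
  have i2 : Integrable (fun ξ : ℕ → S => g' (ξ 1) * boxF n A 1 ξ) M.P :=
    hG1.mul_bdd hbF.aestronglyMeasurable (Filter.Eventually.of_forall (hbF1 n A 1))
  simp only [sub_mul]
  rw [integral_sub i1 i2, e1, e2, sub_self]

lemma Chain.Bwd.memLp_diffPB {M : Chain S} {g g' : S → ℝ} (h : M.Bwd g g') :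
    MemLp (fun ξ : ℕ → S => g (ξ 0) - g' (ξ 1)) 2 M.P :=
  (h.l2.comp_measurePreserving (M.mp_eval 0)).sub (h.l2'.comp_measurePreserving (M.mp_eval 1))

lemma Chain.Bwd.orth_set {M : Chain S} {g g' : S → ℝ} (h : M.Bwd g g') (E : Set (ℕ → S))
    (hE : MeasurableSet E) : ∫ ξ in (sh 1) ⁻¹' E, (g (ξ 0) - g' (ξ 1)) ∂M.P = 0 := by
  have hD := h.memLp_diffPB
  have hD1 : Integrable (fun ξ : ℕ → S => g (ξ 0) - g' (ξ 1)) M.P := hD.integrable (by norm_num)
  have hbox : ∀ (n : ℕ) (A : ℕ → Set S), (∀ j, MeasurableSet (A j)) →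
      ∫ ξ in (sh 1) ⁻¹' {ξ : ℕ → S | ∀ j < n, ξ j ∈ A j}, (g (ξ 0) - g' (ξ 1)) ∂M.P = 0 := by
    intro n A hA
    have hmE : MeasurableSet {ξ : ℕ → S | ∀ j < n, ξ j ∈ A j} := measurableSet_box n A hA
    rw [← integral_indicator (measurable_sh 1 hmE)]
    rw [← h.orth_box n A hA]
    refine integral_congr_ae (Filter.Eventually.of_forall fun ξ => ?_)
    simp only
    rw [boxF_eq_indicator]
    by_cases hx : ξ ∈ (sh 1) ⁻¹' {ξ : ℕ → S | ∀ j < n, ξ j ∈ A j}
    · simp only [Set.indicator_of_mem hx, mul_one]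
    · simp only [Set.indicator_of_notMem hx, mul_zero]
  have huniv : ∫ ξ, (g (ξ 0) - g' (ξ 1)) ∂M.P = 0 := by
    have := hbox 0 (fun _ => Set.univ) (fun _ => MeasurableSet.univ)
    simpa using this
  induction E, hE using MeasurableSpace.induction_on_inter generate_boxes piSystem_boxes with
  | empty => simp
  | basic t ht =>
    obtain ⟨n, A, hA, rfl⟩ := ht
    exact hbox n A hA
  | compl t htm ih =>
    have h1 := integral_add_compl (measurable_sh 1 htm) hD1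
    rw [ih, zero_add, huniv] at h1
    exact h1
  | iUnion f hd hm ih =>
    rw [Set.preimage_iUnion, integral_iUnion (fun i => measurable_sh 1 (hm i))
      (fun i j hij => (hd hij).preimage _) hD1.integrableOn]
    simp [ih]

/-! ### The statements of the module -/

theorem Chain.Bwd.orth_real {M : Chain S} {g g' : S → ℝ} (h : M.Bwd g g')
    (H : (ℕ → S) → ℝ) (hH : Measurable H) (hH2 : MemLp H 2 M.P) :
    ∫ ξ, H (sh 1 ξ) * (g (ξ 0) - g' (ξ 1)) ∂M.P = 0 :=
  orth_of_sets M h.memLp_diffPB (fun E hE => h.orth_set E hE) H hH hH2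

/-- Backward orthogonality: `g(ξ_0) - Q*g(ξ_1)` is orthogonal to every (square integrable)
function of `(ξ_1, ξ_2, ...)`. -/
theorem Chain.Bwd.orth {M : Chain S} {g g' : S → ℝ} (h : M.Bwd g g')
    (H : (ℕ → S) → ℂ) (hH : Measurable H) (hH2 : MemLp H 2 M.P) :
    ∫ ξ, H (sh 1 ξ) * ((g (ξ 0) - g' (ξ 1) : ℝ) : ℂ) ∂M.P = 0 := by
  have hD := h.memLp_diffPB
  have hsh : MemLp (fun ξ => H (sh 1 ξ)) 2 M.P := hH2.comp_measurePreserving (M.mp_sh 1)
  have hint : Integrable (fun ξ => H (sh 1 ξ) * ((g (ξ 0) - g' (ξ 1) : ℝ) : ℂ)) M.P :=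
    hsh.integrable_mul hD.ofReal
  have hre := h.orth_real (fun ξ => (H ξ).re) (Complex.measurable_re.comp hH) hH2.re
  have him := h.orth_real (fun ξ => (H ξ).im) (Complex.measurable_im.comp hH) hH2.im
  apply Complex.ext
  · have := Complex.reCLM.integral_comp_comm hint
    simp only [Complex.reCLM_apply, Complex.re_mul_ofReal] at this
    rw [Complex.zero_re, ← this]
    exact hre
  · have := Complex.imCLM.integral_comp_comm hint
    simp only [Complex.imCLM_apply, Complex.im_mul_ofReal] at this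
    rw [Complex.zero_im, ← this]
    exact him

/-- existence of `Q* g` (adjoint) -/
theorem Chain.exists_bwd (M : Chain S) (g : S → ℝ) (hg : Measurable g) (hg2 : MemLp g 2 M.ν) :
    ∃ g' : S → ℝ, M.Bwd g g' := by
  set T := Pool.Agent.H43.CLT.Qclm (Q := M.Q) (ν := M.ν) M.bind_eq with hT
  set G' : Lp ℝ 2 M.ν := (ContinuousLinearMap.adjoint T) (hg2.toLp g) with hG'
  refine ⟨G', hg, (Lp.stronglyMeasurable G').measurable, hg2, Lp.memLp G', ?_⟩
  intro φ hφ hb
  obtain ⟨C, hC⟩ := hb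
  have hφ2 : MemLp φ 2 M.ν :=
    MemLp.of_bound hφ.aestronglyMeasurable C (Filter.Eventually.of_forall fun x => by
      simpa using hC x)
  have h1 : inner ℝ G' (hφ2.toLp φ) = inner ℝ (hg2.toLp g) (T (hφ2.toLp φ)) :=
    ContinuousLinearMap.adjoint_inner_left T _ _
  rw [L2.inner_def, L2.inner_def] at h1
  have e1 : ∫ x, φ x * G' x ∂M.ν = ∫ x, inner ℝ (G' x) (hφ2.toLp φ x) ∂M.ν := by
    refine integral_congr_ae ?_
    filter_upwards [hφ2.coeFn_toLp] with x hx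
    simp [hx]
  have e2 : ∫ x, (∫ z, φ z ∂(M.Q x)) * g x ∂M.ν
      = ∫ x, inner ℝ (hg2.toLp g x) (T (hφ2.toLp φ) x) ∂M.ν := by
    refine integral_congr_ae ?_
    filter_upwards [hg2.coeFn_toLp, Pool.Agent.H43.CLT.coeFn_Qclm M.bind_eq (hφ2.toLp φ),
      Pool.Agent.H43.CLT.Qop_congr (Q := M.Q) M.bind_eq hφ2.coeFn_toLp] with x hx1 hx2 hx3
    rw [hx1, hx2, hx3]
    simp [Pool.Agent.H43.CLT.Qop]
  rw [e1, e2, h1]

/-- uniqueness of `Q* g` -/
lemma Chain.Bwd.unique {M : Chain S} {g g' g'' : S → ℝ} (h : M.Bwd g g') (h' : M.Bwd g g'') :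
    g' =ᵐ[M.ν] g'' := by
  have h1 : Integrable g' M.ν := h.l2'.integrable (by norm_num)
  have h2 : Integrable g'' M.ν := h'.l2'.integrable (by norm_num)
  refine Integrable.ae_eq_of_forall_setIntegral_eq _ _ h1 h2 fun s hs _ => ?_
  have hb : ∃ C : ℝ, ∀ x, |s.indicator (fun _ => (1 : ℝ)) x| ≤ C := by
    refine ⟨1, fun x => ?_⟩
    by_cases hx : x ∈ s
    · simp [Set.indicator_of_mem hx]
    · simp [Set.indicator_of_notMem hx]
  have e1 := h.eq (s.indicator fun _ => 1) (measurable_const.indicator hs) hb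
  have e2 := h'.eq (s.indicator fun _ => 1) (measurable_const.indicator hs) hb
  have e3 : ∀ u : S → ℝ, ∫ x in s, u x ∂M.ν = ∫ x, s.indicator (fun _ => (1 : ℝ)) x * u x ∂M.ν := by
    intro u
    rw [← integral_indicator hs]
    refine integral_congr_ae (Filter.Eventually.of_forall fun x => ?_)
    by_cases hx : x ∈ s
    · simp [Set.indicator_of_mem hx]
    · simp [Set.indicator_of_notMem hx]
  rw [e3, e3, e1, e2]

/-- the defining relation of `Q*` holds for `L²` test functions: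
`E[φ(ξ_1) g(ξ_0)] = ∫ φ g'`. -/
theorem Chain.Bwd.pair {M : Chain S} {g g' : S → ℝ} (h : M.Bwd g g') (φ : S → ℝ)
    (hφ : Measurable φ) (hφ2 : MemLp φ 2 M.ν) :
    ∫ ξ, φ (ξ 1) * g (ξ 0) ∂M.P = ∫ x, φ x * g' x ∂M.ν := by
  -- `E[φ(ξ_1)(g(ξ_0) - g'(ξ_1))] = 0`
  have h1 := h.orth_real (fun ξ => φ (ξ 0)) (hφ.comp (measurable_pi_apply 0))
    (hφ2.comp_measurePreserving (M.mp_eval 0))
  have hφ1 : MemLp (fun ξ : ℕ → S => φ (ξ 1)) 2 M.P := hφ2.comp_measurePreserving (M.mp_eval 1)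
  have hg0 : MemLp (fun ξ : ℕ → S => g (ξ 0)) 2 M.P := h.l2.comp_measurePreserving (M.mp_eval 0)
  have hg1 : MemLp (fun ξ : ℕ → S => g' (ξ 1)) 2 M.P := h.l2'.comp_measurePreserving (M.mp_eval 1)
  have h2 : ∫ ξ, (φ (ξ 1) * g (ξ 0) - φ (ξ 1) * g' (ξ 1)) ∂M.P = 0 := by
    rw [← h1]
    refine integral_congr_ae (Filter.Eventually.of_forall fun ξ => ?_)
    simp only [sh]
    ring
  have i1 : Integrable (fun ξ : ℕ → S => φ (ξ 1) * g (ξ 0)) M.P := hφ1.integrable_mul hg0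
  have i2 : Integrable (fun ξ : ℕ → S => φ (ξ 1) * g' (ξ 1)) M.P := hφ1.integrable_mul hg1
  rw [integral_sub i1 i2, sub_eq_zero] at h2
  rw [h2]
  exact M.integral_evalPB 1 (F := fun x => φ x * g' x) (hφ.mul h.m').aestronglyMeasurable

/-- adjointness `⟨h, Q g⟩ = ⟨Q* h, g⟩` -/
theorem Chain.adj {M : Chain S} {g g' h h' : S → ℝ} (hg : M.Fwd g g') (hh : M.Bwd h h') :
    ∫ x, h x * g' x ∂M.ν = ∫ x, h' x * g x ∂M.ν := by
  rw [← hg.pair h hh.m hh.l2]
  have := hh.pair g hg.m hg.l2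
  calc ∫ ξ, h (ξ 0) * g (ξ 1) ∂M.P = ∫ ξ, g (ξ 1) * h (ξ 0) ∂M.P := by
        simp only [mul_comm]
    _ = ∫ x, g x * h' x ∂M.ν := this
    _ = ∫ x, h' x * g x ∂M.ν := by simp only [mul_comm]

theorem Chain.Bwd.diff_sq {M : Chain S} {g g' : S → ℝ} (h : M.Bwd g g') :
    ∫ ξ, (g (ξ 0) - g' (ξ 1)) ^ 2 ∂M.P = ∫ x, (g x) ^ 2 ∂M.ν - ∫ x, (g' x) ^ 2 ∂M.ν := by
  have hp := h.pair g' h.m' h.l2'
  have hg0 : MemLp (fun ξ : ℕ → S => g (ξ 0)) 2 M.P := h.l2.comp_measurePreserving (M.mp_eval 0)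
  have hg1 : MemLp (fun ξ : ℕ → S => g' (ξ 1)) 2 M.P := h.l2'.comp_measurePreserving (M.mp_eval 1)
  have e0 : ∫ ξ, (g (ξ 0)) ^ 2 ∂M.P = ∫ x, (g x) ^ 2 ∂M.ν :=
    M.integral_evalPB 0 (F := fun x => (g x) ^ 2) (h.m.pow_const 2).aestronglyMeasurable
  have e1 : ∫ ξ, (g' (ξ 1)) ^ 2 ∂M.P = ∫ x, (g' x) ^ 2 ∂M.ν :=
    M.integral_evalPB 1 (F := fun x => (g' x) ^ 2) (h.m'.pow_const 2).aestronglyMeasurable
  have e2 : ∫ ξ, (g (ξ 0) - g' (ξ 1)) ^ 2 ∂M.P
      = ∫ ξ, (((g (ξ 0)) ^ 2 - 2 * (g' (ξ 1) * g (ξ 0))) + (g' (ξ 1)) ^ 2) ∂M.P := by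
    refine integral_congr_ae (Filter.Eventually.of_forall fun ξ => ?_)
    simp only
    ring
  have i1 : Integrable (fun ξ : ℕ → S => (g (ξ 0)) ^ 2) M.P := hg0.integrable_sq
  have i2 : Integrable (fun ξ : ℕ → S => (g' (ξ 1)) ^ 2) M.P := hg1.integrable_sq
  have i3 : Integrable (fun ξ : ℕ → S => 2 * (g' (ξ 1) * g (ξ 0))) M.P :=
    (hg1.integrable_mul hg0).const_mul 2
  have i4 : Integrable (fun ξ : ℕ → S => (g (ξ 0)) ^ 2 - 2 * (g' (ξ 1) * g (ξ 0))) M.P := i1.sub i3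
  rw [e2, integral_add i4 i2, integral_sub i1 i3, integral_const_mul, hp, e0, e1]
  have e3 : ∫ x, g' x * g' x ∂M.ν = ∫ x, (g' x) ^ 2 ∂M.ν := by simp only [sq]
  rw [e3]
  ring

theorem Chain.Bwd.sq_le {M : Chain S} {g g' : S → ℝ} (h : M.Bwd g g') :
    ∫ x, (g' x) ^ 2 ∂M.ν ≤ ∫ x, (g x) ^ 2 ∂M.ν := by
  have h1 := h.diff_sq
  have h2 : 0 ≤ ∫ ξ, (g (ξ 0) - g' (ξ 1)) ^ 2 ∂M.P := integral_nonneg fun _ => sq_nonneg _
  linarith

theorem Chain.Bwd.sub {M : Chain S} {g g' h h' : S → ℝ} (hg : M.Bwd g g') (hh : M.Bwd h h') :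
    M.Bwd (fun x => g x - h x) (fun x => g' x - h' x) := by
  refine ⟨hg.m.sub hh.m, hg.m'.sub hh.m', hg.l2.sub hh.l2, hg.l2'.sub hh.l2', ?_⟩
  intro φ hφ hb
  have e1 := hg.eq φ hφ hb
  have e2 := hh.eq φ hφ hb
  obtain ⟨C, hC⟩ := hb
  have hφ2 : MemLp φ 2 M.ν :=
    MemLp.of_bound hφ.aestronglyMeasurable C (Filter.Eventually.of_forall fun x => by
      simpa using hC x)
  have hQφ2 : MemLp (fun x => ∫ z, φ z ∂(M.Q x)) 2 M.ν :=
    MemLp.of_bound (measurable_Q_integralPB M hφ).aestronglyMeasurable C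
      (Filter.Eventually.of_forall fun x => by simpa using abs_Q_integral_lePB M hC x)
  simp only [mul_sub]
  have i1 : Integrable (fun x => φ x * g' x) M.ν := hφ2.integrable_mul hg.l2'
  have i2 : Integrable (fun x => φ x * h' x) M.ν := hφ2.integrable_mul hh.l2'
  have i3 : Integrable (fun x => (∫ z, φ z ∂(M.Q x)) * g x) M.ν := hQφ2.integrable_mul hg.l2
  have i4 : Integrable (fun x => (∫ z, φ z ∂(M.Q x)) * h x) M.ν := hQφ2.integrable_mul hh.l2
  rw [integral_sub i1 i2, integral_sub i3 i4, e1, e2]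

/-- pairing with integrable test functions, when `φ`, `φ' = Q*φ` are bounded -/
lemma Chain.Bwd.pair_l1 {M : Chain S} {φ φ' : S → ℝ} (hφ : M.Bwd φ φ')
    (hb : ∃ C : ℝ, ∀ x, |φ x| ≤ C) (hb' : ∃ C : ℝ, ∀ x, |φ' x| ≤ C) (k : S → ℝ)
    (hk : Measurable k) (hk1 : Integrable k M.ν) :
    ∫ ξ, k (ξ 1) * φ (ξ 0) ∂M.P = ∫ x, k x * φ' x ∂M.ν := by
  obtain ⟨C, hC⟩ := hb
  obtain ⟨C', hC'⟩ := hb'
  set kN : ℕ → S → ℝ := fun N x => max (-(N : ℝ)) (min (k x) N) with hkN
  have hkNm : ∀ N, Measurable (kN N) := fun N => measurable_const.max (hk.min measurable_const)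
  have hkNb : ∀ N x, |kN N x| ≤ N := by
    intro N x
    have hN : (0 : ℝ) ≤ N := Nat.cast_nonneg N
    rw [abs_le]
    exact ⟨le_max_left _ _, max_le (by linarith) (min_le_right _ _)⟩
  have hkNle : ∀ N x, |kN N x| ≤ |k x| := by
    intro N x
    have hN : (0 : ℝ) ≤ N := Nat.cast_nonneg N
    simp only [hkN]
    rcases abs_cases (k x) with ⟨h1, h2⟩ | ⟨h1, h2⟩
    · rw [h1, abs_le]
      constructor
      · have : 0 ≤ min (k x) N := le_min h2 hN
        have := le_max_right (-(N : ℝ)) (min (k x) N)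
        linarith
      · exact max_le (by linarith) (min_le_left _ _)
    · rw [h1, abs_le]
      have h3 : min (k x) (N : ℝ) = k x := min_eq_left (by linarith)
      rw [h3]
      constructor
      · linarith [le_max_right (-(N : ℝ)) (k x)]
      · exact max_le (by linarith) (by linarith)
  have hlim : ∀ x, Filter.Tendsto (fun N => kN N x) Filter.atTop (nhds (k x)) := by
    intro x
    refine tendsto_const_nhds.congr' ?_
    obtain ⟨N0, hN0⟩ := exists_nat_ge |k x|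
    filter_upwards [Filter.eventually_ge_atTop N0] with N hN
    have hN' : |k x| ≤ N := hN0.trans (by exact_mod_cast hN)
    rw [abs_le] at hN'
    simp only [hkN]
    rw [min_eq_left hN'.2, max_eq_right hN'.1]
  have hkey : ∀ N, ∫ ξ, kN N (ξ 1) * φ (ξ 0) ∂M.P = ∫ x, kN N x * φ' x ∂M.ν := by
    intro N
    exact hφ.pair (kN N) (hkNm N) (MemLp.of_bound (hkNm N).aestronglyMeasurable N
      (Filter.Eventually.of_forall fun x => by simpa using hkNb N x))
  have l1 : Filter.Tendsto (fun N => ∫ ξ, kN N (ξ 1) * φ (ξ 0) ∂M.P) Filter.atTop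
      (nhds (∫ ξ, k (ξ 1) * φ (ξ 0) ∂M.P)) := by
    refine tendsto_integral_of_dominated_convergence (fun ξ => |k (ξ 1)| * C)
      (fun N => (((hkNm N).comp (measurable_pi_apply 1)).mul
        (hφ.m.comp (measurable_pi_apply 0))).aestronglyMeasurable) ?_ ?_ ?_
    · exact (((M.mp_eval 1).integrable_comp_of_integrable hk1).abs).mul_const C
    · intro N
      refine Filter.Eventually.of_forall fun ξ => ?_
      rw [norm_mul]
      exact mul_le_mul (hkNle N _) (hC _) (norm_nonneg _) (abs_nonneg _)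
    · exact Filter.Eventually.of_forall fun ξ => (hlim (ξ 1)).mul_const _
  have l2 : Filter.Tendsto (fun N => ∫ x, kN N x * φ' x ∂M.ν) Filter.atTop
      (nhds (∫ x, k x * φ' x ∂M.ν)) := by
    refine tendsto_integral_of_dominated_convergence (fun x => |k x| * C')
      (fun N => ((hkNm N).mul hφ.m').aestronglyMeasurable) ?_ ?_ ?_
    · exact (hk1.abs).mul_const C'
    · intro N
      refine Filter.Eventually.of_forall fun x => ?_
      rw [norm_mul]
      exact mul_le_mul (hkNle N _) (hC' _) (norm_nonneg _) (abs_nonneg _)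
    · exact Filter.Eventually.of_forall fun x => (hlim x).mul_const _
  simp only [hkey] at l1
  exact tendsto_nhds_unique l1 l2

/-- weak Jensen inequality, forward: `∫ φ (Qh)² ≤ ∫ (Q*φ) h²` for bounded `φ ≥ 0` -/
theorem Chain.Fwd.jensen {M : Chain S} {h h' φ φ' : S → ℝ} (hh : M.Fwd h h')
    (hφ : M.Bwd φ φ') (h0 : ∀ x, 0 ≤ φ x) (hb : ∃ C : ℝ, ∀ x, φ x ≤ C)
    (hb' : ∃ C : ℝ, ∀ x, |φ' x| ≤ C) :
    ∫ x, φ x * (h' x) ^ 2 ∂M.ν ≤ ∫ x, φ' x * (h x) ^ 2 ∂M.ν := by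
  obtain ⟨C, hC⟩ := hb
  have hCabs : ∀ x, |φ x| ≤ C := fun x => by rw [abs_of_nonneg (h0 x)]; exact hC x
  have h2 : Integrable (fun x => (h x) ^ 2) M.ν := hh.l2.integrable_sq
  have h2' : Integrable (fun x => (h' x) ^ 2) M.ν := hh.l2'.integrable_sq
  -- E[φ(ξ0) h(ξ1)^2] = ∫ φ' h²
  have e1 := hφ.pair_l1 ⟨C, hCabs⟩ hb' (fun x => (h x) ^ 2) (hh.m.pow_const 2) h2
  -- E[φ(ξ0) h'(ξ0) h(ξ1)] = E[φ(ξ0) h'(ξ0)²]
  have hΦ2 : MemLp (fun x => φ x * h' x) 2 M.ν := by
    refine hh.l2'.of_le_mul (c := C) (hφ.m.mul hh.m').aestronglyMeasurable ?_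
    refine Filter.Eventually.of_forall fun x => ?_
    rw [norm_mul]
    exact mul_le_mul_of_nonneg_right (hCabs x) (norm_nonneg _)
  have e2 := hh.pair (fun x => φ x * h' x) (hφ.m.mul hh.m') hΦ2
  have hm0 : Measurable (fun ξ : ℕ → S => ξ 0) := measurable_pi_apply 0
  have hm1 : Measurable (fun ξ : ℕ → S => ξ 1) := measurable_pi_apply 1
  have i1 : Integrable (fun ξ : ℕ → S => (h (ξ 1)) ^ 2 * φ (ξ 0)) M.P :=
    ((M.mp_eval 1).integrable_comp_of_integrable h2).mul_bdd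
      (hφ.m.comp hm0).aestronglyMeasurable (Filter.Eventually.of_forall fun ξ => hCabs (ξ 0))
  have i2 : Integrable (fun ξ : ℕ → S => φ (ξ 0) * (h' (ξ 0)) ^ 2) M.P :=
    ((M.mp_eval 0).integrable_comp_of_integrable h2').bdd_mul
      (hφ.m.comp hm0).aestronglyMeasurable (Filter.Eventually.of_forall fun ξ => hCabs (ξ 0))
  have i3 : Integrable (fun ξ : ℕ → S => φ (ξ 0) * h' (ξ 0) * h (ξ 1)) M.P :=
    (hΦ2.comp_measurePreserving (M.mp_eval 0)).integrable_mul
      (hh.l2.comp_measurePreserving (M.mp_eval 1))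
  have e3 : ∫ ξ, φ (ξ 0) * (h' (ξ 0)) ^ 2 ∂M.P = ∫ x, φ x * (h' x) ^ 2 ∂M.ν :=
    M.integral_evalPB 0 (F := fun x => φ x * (h' x) ^ 2)
      (hφ.m.mul (hh.m'.pow_const 2)).aestronglyMeasurable
  have e4 : ∫ x, φ x * h' x * h' x ∂M.ν = ∫ x, φ x * (h' x) ^ 2 ∂M.ν := by
    refine integral_congr_ae (Filter.Eventually.of_forall fun x => ?_)
    simp only
    ring
  rw [e4] at e2
  have h3 : ∫ ξ, φ (ξ 0) * h' (ξ 0) * h (ξ 1) ∂M.P ≤
      ∫ ξ, (1 / 2 * (φ (ξ 0) * (h' (ξ 0)) ^ 2) + 1 / 2 * ((h (ξ 1)) ^ 2 * φ (ξ 0))) ∂M.P := by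
    refine integral_mono i3 ((i2.const_mul _).add (i1.const_mul _)) fun ξ => ?_
    simp only
    nlinarith [mul_nonneg (h0 (ξ 0)) (sq_nonneg (h' (ξ 0) - h (ξ 1)))]
  rw [integral_add (i2.const_mul _) (i1.const_mul _), integral_const_mul, integral_const_mul,
    e3, e1, e2] at h3
  have e5 : ∫ x, (h x) ^ 2 * φ' x ∂M.ν = ∫ x, φ' x * (h x) ^ 2 ∂M.ν := by
    simp only [mul_comm]
  rw [e5] at h3
  linarith

/-- weak Jensen inequality, backward: `∫ φ (Q*h)² ≤ ∫ (Qφ) h²` for bounded `φ ≥ 0` -/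
theorem Chain.Bwd.jensen {M : Chain S} {h h' φ φ' : S → ℝ} (hh : M.Bwd h h')
    (hφ : M.Fwd φ φ') (h0 : ∀ x, 0 ≤ φ x) (hb : ∃ C : ℝ, ∀ x, φ x ≤ C)
    (hb' : ∃ C : ℝ, ∀ x, |φ' x| ≤ C) :
    ∫ x, φ x * (h' x) ^ 2 ∂M.ν ≤ ∫ x, φ' x * (h x) ^ 2 ∂M.ν := by
  obtain ⟨C, hC⟩ := hb
  have hCabs : ∀ x, |φ x| ≤ C := fun x => by rw [abs_of_nonneg (h0 x)]; exact hC x
  have h2 : Integrable (fun x => (h x) ^ 2) M.ν := hh.l2.integrable_sq
  have h2' : Integrable (fun x => (h' x) ^ 2) M.ν := hh.l2'.integrable_sq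
  have hm0 : Measurable (fun ξ : ℕ → S => ξ 0) := measurable_pi_apply 0
  have hm1 : Measurable (fun ξ : ℕ → S => ξ 1) := measurable_pi_apply 1
  -- E[h(ξ0)² φ(ξ1)] = ∫ h² Qφ
  have e1 : ∫ ξ, (h (ξ 0)) ^ 2 * φ (ξ 1) ∂M.P = ∫ x, (h x) ^ 2 * φ' x ∂M.ν := by
    have h5 := M.markov_bdd 0 (fun ξ => (((h (ξ 0)) ^ 2 : ℝ) : ℂ))
      (Complex.measurable_ofReal.comp ((hh.m.pow_const 2).comp hm0)) (fun ξ => by simp [fr])
      ((M.mp_eval 0).integrable_comp_of_integrable h2).ofReal (fun x => ((φ x : ℝ) : ℂ))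
      (Complex.measurable_ofReal.comp hφ.m)
      ⟨C, fun x => by rw [Complex.norm_real]; exact hCabs x⟩
    have h6 : ((∫ ξ, (h (ξ 0)) ^ 2 * φ (ξ 1) ∂M.P : ℝ) : ℂ)
        = ((∫ ξ, (h (ξ 0)) ^ 2 * (∫ z, φ z ∂(M.Q (ξ 0))) ∂M.P : ℝ) : ℂ) := by
      rw [← integral_complex_ofReal, ← integral_complex_ofReal]
      simp only [integral_complex_ofReal] at h5
      simpa using h5
    have h7 : ∫ ξ, (h (ξ 0)) ^ 2 * φ (ξ 1) ∂M.P
        = ∫ ξ, (h (ξ 0)) ^ 2 * (∫ z, φ z ∂(M.Q (ξ 0))) ∂M.P := by exact_mod_cast h6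
    rw [h7]
    have h8 := M.integral_evalPB 0 (F := fun x => (h x) ^ 2 * (∫ z, φ z ∂(M.Q x)))
      ((hh.m.pow_const 2).mul (measurable_Q_integralPB M hφ.m)).aestronglyMeasurable
    rw [h8]
    refine integral_congr_ae ?_
    filter_upwards [hφ.eq] with x hx
    rw [hx]
  have hΦ2 : MemLp (fun x => φ x * h' x) 2 M.ν := by
    refine hh.l2'.of_le_mul (c := C) (hφ.m.mul hh.m').aestronglyMeasurable ?_
    refine Filter.Eventually.of_forall fun x => ?_
    rw [norm_mul]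
    exact mul_le_mul_of_nonneg_right (hCabs x) (norm_nonneg _)
  have e2 := hh.pair (fun x => φ x * h' x) (hφ.m.mul hh.m') hΦ2
  have i1 : Integrable (fun ξ : ℕ → S => (h (ξ 0)) ^ 2 * φ (ξ 1)) M.P :=
    ((M.mp_eval 0).integrable_comp_of_integrable h2).mul_bdd
      (hφ.m.comp hm1).aestronglyMeasurable (Filter.Eventually.of_forall fun ξ => hCabs (ξ 1))
  have i2 : Integrable (fun ξ : ℕ → S => φ (ξ 1) * (h' (ξ 1)) ^ 2) M.P :=
    ((M.mp_eval 1).integrable_comp_of_integrable h2').bdd_mul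
      (hφ.m.comp hm1).aestronglyMeasurable (Filter.Eventually.of_forall fun ξ => hCabs (ξ 1))
  have i3 : Integrable (fun ξ : ℕ → S => φ (ξ 1) * h' (ξ 1) * h (ξ 0)) M.P :=
    (hΦ2.comp_measurePreserving (M.mp_eval 1)).integrable_mul
      (hh.l2.comp_measurePreserving (M.mp_eval 0))
  have e3 : ∫ ξ, φ (ξ 1) * (h' (ξ 1)) ^ 2 ∂M.P = ∫ x, φ x * (h' x) ^ 2 ∂M.ν :=
    M.integral_evalPB 1 (F := fun x => φ x * (h' x) ^ 2)
      (hφ.m.mul (hh.m'.pow_const 2)).aestronglyMeasurable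
  have e4 : ∫ x, φ x * h' x * h' x ∂M.ν = ∫ x, φ x * (h' x) ^ 2 ∂M.ν := by
    refine integral_congr_ae (Filter.Eventually.of_forall fun x => ?_)
    simp only
    ring
  rw [e4] at e2
  have h3 : ∫ ξ, φ (ξ 1) * h' (ξ 1) * h (ξ 0) ∂M.P ≤
      ∫ ξ, (1 / 2 * (φ (ξ 1) * (h' (ξ 1)) ^ 2) + 1 / 2 * ((h (ξ 0)) ^ 2 * φ (ξ 1))) ∂M.P := by
    refine integral_mono i3 ((i2.const_mul _).add (i1.const_mul _)) fun ξ => ?_
    simp only
    nlinarith [mul_nonneg (h0 (ξ 1)) (sq_nonneg (h' (ξ 1) - h (ξ 0)))]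
  rw [integral_add (i2.const_mul _) (i1.const_mul _), integral_const_mul, integral_const_mul,
    e3, e1, e2] at h3
  have e5 : ∫ x, (h x) ^ 2 * φ' x ∂M.ν = ∫ x, φ' x * (h x) ^ 2 ∂M.ν := by
    simp only [mul_comm]
  rw [e5] at h3
  linarith

end Pool.Agent.H45.CLT
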