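import Pool.Agent.H45.CLT.Gap2
import Pool.Agent.H45.CLT.PathB
import Pool.Agent.H45.CLT.Gap4Aux

/-!
# Module GAP4B: the backward martingale over a gap.
`p = (j, ξ)` is the gap `(ξ_0, ..., ξ_{j+1})`, of length `ℓ = j + 1`, with weight
`W_j(ξ) = (1-χ(ξ_0)) χ(ξ_1)⋯χ(ξ_j) (1-χ(ξ_{j+1})) = w_j - w_{j+1}`, `w_j = (1-χ(ξ_0)) v_j`,
`v_j = χ(ξ_1)⋯χ(ξ_j)`.
* (FT) `∑_{j ≥ i} W_j(ξ) = w_i(ξ)` pathwise, hence `∫ ∑_{i ≤ j} X_i(ξ) dΘ = ∑_i ∫ w_i X_i dP`;
* (BT) `∑_{i ≥ 0} ∫ w_i(ξ) H(sh i ξ) dP = ∫ H dP`: with `a_i = ∫ χ(ξ_0) v_i(ξ) H(sh i ξ) dP` one has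
  `∫ w_i H(sh i ξ) = a_{i-1} - a_i` by stationarity, `a_{-1} = ∫ H`, `a_i ≤ r^{i+1} ∫ H`;
* (Campbell) `∫ ∑_{i ≤ j} H(j-i, sh i ξ) dΘ = ∑_l ∫ v_l(ξ) (1-χ(ξ_{l+1})) H(l, ξ) dP`.
`gap_orth`: Campbell (Bochner form) with `H(l,ξ) = φ(ξ_{l+1}) (h(ξ_0) - h'(ξ_1))`; the weight
`v_l(ξ)(1-χ(ξ_{l+1}))` and `φ(ξ_{l+1})` are functions of `sh 1 ξ`, use `Bwd.orth`.
`gap_sq`: `(∑D_i)² = ∑D_i² + 2∑_i D_i (∑_{j>i} D_j)`, the second part vanishes in the same way.
-/

set_option autoImplicit false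

open MeasureTheory ProbabilityTheory Filter
open scoped ENNReal NNReal

namespace Pool.Agent.H45.CLT

variable {S : Type} [MeasurableSpace S]

theorem measurable_Ds (g g' : S → ℝ) (hg : Measurable g) (hg' : Measurable g') :
    Measurable (Ds g g' : ℕ × (ℕ → S) → ℝ) := by
  unfold Ds
  refine measurable_from_prod_countable_right fun n => ?_
  exact Finset.measurable_fun_sum (Finset.range (n + 1))
    (f := fun i (ξ : ℕ → S) => g (ξ i) - g' (ξ (i + 1)))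
    fun i _ => (hg.comp (measurable_pi_apply i)).sub (hg'.comp (measurable_pi_apply (i + 1)))

namespace Gap4B

/-- one backward increment -/
def inc (g g' : S → ℝ) (i : ℕ) (ξ : ℕ → S) : ℝ := g (ξ i) - g' (ξ (i + 1))

theorem measurable_inc {g g' : S → ℝ} (hg : Measurable g) (hg' : Measurable g') (i : ℕ) :
    Measurable (inc g g' i) :=
  (hg.comp (measurable_pi_apply i)).sub (hg'.comp (measurable_pi_apply (i + 1)))

theorem memLp_inc {M : Chain S} {g g' : S → ℝ} (h : M.Bwd g g') (i : ℕ) :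
    MemLp (inc g g' i) 2 M.P :=
  (h.l2.comp_measurePreserving (M.mp_eval i)).sub
    (h.l2'.comp_measurePreserving (M.mp_eval (i + 1)))

omit [MeasurableSpace S] in
theorem inc_sh (g g' : S → ℝ) (i s : ℕ) (ξ : ℕ → S) :
    inc g g' s (sh i ξ) = inc g g' (i + s) ξ := by
  simp only [inc, sh]
  congr 2

theorem int_inc_sq {M : Chain S} {g g' : S → ℝ} (h : M.Bwd g g') (i : ℕ) :
    ∫ ξ, (inc g g' i ξ) ^ 2 ∂M.P = ∫ ξ, (inc g g' 0 ξ) ^ 2 ∂M.P := by
  have hmp := M.mp_sh i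
  have e : ∀ ξ : ℕ → S, inc g g' i ξ = inc g g' 0 (sh i ξ) := fun ξ => by
    rw [inc_sh g g' i 0 ξ]; simp
  simp_rw [e]
  have := (memLp_inc h 0).integrable_sq.aestronglyMeasurable
  rw [← integral_map (μ := M.P) (φ := sh i) (f := fun η : ℕ → S => (inc g g' 0 η) ^ 2)
    (measurable_sh i).aemeasurable (by rw [hmp.map_eq]; exact this), hmp.map_eq]

theorem int_mul_le {P : Measure (ℕ → S)} {X Y : (ℕ → S) → ℝ} (hX : MemLp X 2 P)
    (hY : MemLp Y 2 P) :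
    Integrable (fun ξ => X ξ * Y ξ) P ∧
      ∫ ξ, |X ξ * Y ξ| ∂P ≤ (∫ ξ, (X ξ) ^ 2 ∂P + ∫ ξ, (Y ξ) ^ 2 ∂P) / 2 := by
  have hi : Integrable (fun ξ => X ξ * Y ξ) P := hX.integrable_mul hY
  refine ⟨hi, ?_⟩
  rw [← integral_add hX.integrable_sq hY.integrable_sq, ← integral_div]
  refine integral_mono hi.norm ((hX.integrable_sq.add hY.integrable_sq).div_const 2) fun ξ => ?_
  show |X ξ * Y ξ| ≤ _
  rw [abs_mul]
  have := two_mul_le_add_sq |X ξ| |Y ξ|
  rw [sq_abs, sq_abs] at this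
  linarith

theorem sq_sum (n : ℕ) : ∀ (D : ℕ → ℝ),
    (∑ i ∈ Finset.range n, D i) ^ 2
      = ∑ i ∈ Finset.range n, (D i) ^ 2
        + 2 * ∑ i ∈ Finset.range n, D i * ∑ s ∈ Finset.range (n - (i + 1)), D (i + (s + 1)) := by
  induction n with
  | zero => intro D; simp
  | succ n ih =>
    intro D
    have h := ih (fun i => D (i + 1))
    rw [Finset.sum_range_succ', Finset.sum_range_succ' (fun i => (D i) ^ 2),
      Finset.sum_range_succ' (fun i => D i * _), add_sq, h]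
    have e1 : ∀ i ∈ Finset.range n,
        D (i + 1) * ∑ s ∈ Finset.range (n + 1 - (i + 1 + 1)), D (i + 1 + (s + 1))
        = D (i + 1) * ∑ s ∈ Finset.range (n - (i + 1)), D (i + (s + 1) + 1) := by
      intro i _
      congr 1
      rw [show n + 1 - (i + 1 + 1) = n - (i + 1) by omega]
      refine Finset.sum_congr rfl fun s _ => ?_
      congr 1
      ring
    rw [Finset.sum_congr rfl e1]
    have e2 : ∑ s ∈ Finset.range (n + 1 - (0 + 1)), D (0 + (s + 1))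
        = ∑ i ∈ Finset.range n, D (i + 1) := by
      rw [show n + 1 - (0 + 1) = n by omega]
      refine Finset.sum_congr rfl fun s _ => ?_
      congr 1
      ring
    rw [e2]
    ring

end Gap4B

open Gap4B Gap4Aux

theorem Chain.Bwd.gap_memLp {M : Chain S} (k : Cut S) {g g' : S → ℝ} (h : M.Bwd g g') :
    MemLp (Ds g g') 2 (M.Θ k) :=
  M.memLp_Θ_sum k (inc g g') (fun i => measurable_inc h.m h.m' i)
    (∫ ξ, (inc g g' 0 ξ) ^ 2 ∂M.P) (fun i => memLp_inc h i) (fun i => (int_inc_sq h i).le)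

/-- `E_Θ[φ(y) D̂*] = 0` -/
theorem Chain.Bwd.gap_orth {M : Chain S} (k : Cut S) {g g' : S → ℝ} (h : M.Bwd g g')
    (φ : S → ℂ) (hφ : Measurable φ) (hφ2 : MemLp φ 2 M.ν) :
    ∫ p, φ (p.2 (p.1 + 1)) * ((Ds g g' p : ℝ) : ℂ) ∂(M.Θ k) = 0 := by
  have hφP : ∀ l, MemLp (fun ξ : ℕ → S => φ (ξ l)) 2 M.P := fun l =>
    hφ2.comp_measurePreserving (M.mp_eval l)
  have e1 : ∀ p : ℕ × (ℕ → S), φ (p.2 (p.1 + 1)) * ((Ds g g' p : ℝ) : ℂ)
      = ∑ i ∈ Finset.range (p.1 + 1),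
        (fun (l : ℕ) (ξ : ℕ → S) => φ (ξ (l + 1)) * ((inc g g' 0 ξ : ℝ) : ℂ))
          (p.1 - i) (sh i p.2) := by
    intro p
    simp only [Ds]
    rw [Complex.ofReal_sum, Finset.mul_sum]
    refine Finset.sum_congr rfl fun i hi => ?_
    have hi' := Finset.mem_range.mp hi
    rw [inc_sh]
    have e : i + (p.1 - i + 1) = p.1 + 1 := by omega
    simp only [sh, inc, e, add_zero]
  simp_rw [e1]
  have hincC : MemLp (fun ξ : ℕ → S => ((inc g g' 0 ξ : ℝ) : ℂ)) 2 M.P :=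
    (memLp_inc h 0).ofReal
  refine M.Θ_bwd_zero k (fun (l : ℕ) (ξ : ℕ → S) => φ (ξ (l + 1)) * ((inc g g' 0 ξ : ℝ) : ℂ))
    (fun l => (hφP (l + 1)).integrable_mul hincC)
    ((∫ ξ, ‖φ (ξ 0)‖ ^ 2 ∂M.P + ∫ ξ, (inc g g' 0 ξ) ^ 2 ∂M.P) / 2) (fun l => ?_) (fun l => ?_)
  · have h1 := (int_mul_le (hφP (l + 1)).norm (memLp_inc h 0)).2
    have h0 : ∫ ξ, ‖φ (ξ (l + 1))‖ ^ 2 ∂M.P = ∫ ξ, ‖φ (ξ 0)‖ ^ 2 ∂M.P := by
      have m : Measurable (fun x => ‖φ x‖ ^ 2) := hφ.norm.pow_const 2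
      rw [← integral_map (μ := M.P) (φ := fun ξ : ℕ → S => ξ (l + 1)) (f := fun x => ‖φ x‖ ^ 2)
        (measurable_pi_apply _).aemeasurable m.aestronglyMeasurable, (M.mp_eval (l + 1)).map_eq,
        ← (M.mp_eval 0).map_eq, integral_map (measurable_pi_apply _).aemeasurable
          m.aestronglyMeasurable]
    rw [h0] at h1
    have h2 : ∫ ξ, ‖φ (ξ (l + 1)) * ((inc g g' 0 ξ : ℝ) : ℂ)‖ ∂M.P
        = ∫ ξ, |‖φ (ξ (l + 1))‖ * inc g g' 0 ξ| ∂M.P := by
      refine integral_congr_ae (Eventually.of_forall fun ξ => ?_)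
      simp only [norm_mul, Complex.norm_real, Real.norm_eq_abs, abs_mul, abs_norm]
    rw [h2]
    have h3 : 0 ≤ (∫ ξ, ‖φ (ξ 0)‖ ^ 2 ∂M.P + ∫ ξ, (inc g g' 0 ξ) ^ 2 ∂M.P) / 2 := by
      have a1 : 0 ≤ ∫ ξ, ‖φ (ξ 0)‖ ^ 2 ∂M.P := integral_nonneg fun ξ => by positivity
      have a2 : 0 ≤ ∫ ξ, (inc g g' 0 ξ) ^ 2 ∂M.P := integral_nonneg fun ξ => sq_nonneg _
      positivity
    refine h1.trans ?_
    have hi : (1 : ℝ) ≤ (l : ℝ) + 1 := by
      have : (0 : ℝ) ≤ (l : ℝ) := Nat.cast_nonneg l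
      linarith
    exact le_mul_of_one_le_right h3 hi
  · -- the weight and `φ(ξ_{l+1})` as a function of the shifted path
    have mprod : Measurable (fun η : ℕ → S => ∏ i ∈ Finset.range l, k.χ (η i)) :=
      Finset.measurable_fun_prod _ fun i _ => k.hm.comp (measurable_pi_apply i)
    have mwt : Measurable (fun η : ℕ → S =>
        (∏ i ∈ Finset.range l, k.χ (η i)) * (1 - k.χ (η l))) :=
      mprod.mul (measurable_const.sub (k.hm.comp (measurable_pi_apply l)))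
    have hwt : ∀ η : ℕ → S, |(∏ i ∈ Finset.range l, k.χ (η i)) * (1 - k.χ (η l))| ≤ 1 := by
      intro η
      have p0 : 0 ≤ ∏ i ∈ Finset.range l, k.χ (η i) := Finset.prod_nonneg fun i _ => k.h0 _
      have p1 : ∏ i ∈ Finset.range l, k.χ (η i) ≤ 1 :=
        Finset.prod_le_one (fun i _ => k.h0 _) fun i _ => (k.h1 _).trans k.hr.le
      rw [abs_of_nonneg (mul_nonneg p0 (sub_nonneg' k _))]
      exact mul_le_one₀ p1 (sub_nonneg' k _) (sub_le_one k _)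
    have mH : Measurable (fun η : ℕ → S =>
        (((∏ i ∈ Finset.range l, k.χ (η i)) * (1 - k.χ (η l)) : ℝ) : ℂ) * φ (η l)) :=
      (Complex.measurable_ofReal.comp mwt).mul (hφ.comp (measurable_pi_apply l))
    have hH2 : MemLp (fun η : ℕ → S =>
        (((∏ i ∈ Finset.range l, k.χ (η i)) * (1 - k.χ (η l)) : ℝ) : ℂ) * φ (η l)) 2 M.P := by
      refine MemLp.of_le_mul (c := 1) (hφP l) mH.aestronglyMeasurable
        (Eventually.of_forall fun ξ => ?_)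
      rw [norm_mul, Complex.norm_real, Real.norm_eq_abs]
      exact mul_le_mul_of_nonneg_right (hwt ξ) (norm_nonneg _)
    have := h.orth _ mH hH2
    rw [← this]
    refine integral_congr_ae (Eventually.of_forall fun ξ => ?_)
    have e2 : ∀ j, (sh 1 ξ) j = ξ (j + 1) := fun j => by
      simp only [sh]
      rw [add_comm]
    simp only [inc, Complex.real_smul, e2, Cut.v, zero_add]
    ring

/-- `E_Θ (D̂*)² = ‖g‖² - ‖Q*g‖²` -/
theorem Chain.Bwd.gap_sq {M : Chain S} (k : Cut S) {g g' : S → ℝ} (h : M.Bwd g g') :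
    ∫ p, (Ds g g' p) ^ 2 ∂(M.Θ k) = ∫ x, (g x) ^ 2 ∂M.ν - ∫ x, (g' x) ^ 2 ∂M.ν := by
  have hI := (h.gap_memLp k).integrable_sq
  obtain ⟨i1, i2⟩ := M.Θ_T1_int k (fun ξ => (inc g g' 0 ξ) ^ 2)
    ((measurable_inc h.m h.m' 0).pow_const 2) (memLp_inc h 0).integrable_sq
  simp only [inc_sh, add_zero] at i1 i2
  have e1 : ∀ p : ℕ × (ℕ → S), ∑ i ∈ Finset.range (p.1 + 1),
        (fun (l : ℕ) (ξ : ℕ → S) =>
          inc g g' 0 ξ * ∑ s ∈ Finset.range l, inc g g' (s + 1) ξ) (p.1 - i) (sh i p.2)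
      = ((Ds g g' p) ^ 2 - ∑ i ∈ Finset.range (p.1 + 1), (inc g g' i p.2) ^ 2) / 2 := by
    intro p
    have := sq_sum (p.1 + 1) (fun i => inc g g' i p.2)
    have e2 : Ds g g' p = ∑ i ∈ Finset.range (p.1 + 1), inc g g' i p.2 := rfl
    rw [e2, this]
    simp only [inc_sh, add_zero]
    have e3 : ∀ i ∈ Finset.range (p.1 + 1),
        inc g g' i p.2 * ∑ s ∈ Finset.range (p.1 + 1 - (i + 1)), inc g g' (i + (s + 1)) p.2
        = inc g g' i p.2 * ∑ s ∈ Finset.range (p.1 - i), inc g g' (i + (s + 1)) p.2 := by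
      intro i _
      rw [show p.1 + 1 - (i + 1) = p.1 - i by omega]
    rw [Finset.sum_congr rfl e3]
    ring
  have hz : ∫ p, ∑ i ∈ Finset.range (p.1 + 1),
        (fun (l : ℕ) (ξ : ℕ → S) =>
          inc g g' 0 ξ * ∑ s ∈ Finset.range l, inc g g' (s + 1) ξ) (p.1 - i) (sh i p.2)
        ∂(M.Θ k) = 0 := by
    have hS : ∀ l, MemLp (fun ξ : ℕ → S => ∑ s ∈ Finset.range l, inc g g' (s + 1) ξ) 2 M.P :=
      fun l => memLp_finsetSum _ fun s _ => memLp_inc h (s + 1)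
    refine M.Θ_bwd_zero k
      (fun (l : ℕ) (ξ : ℕ → S) => inc g g' 0 ξ * ∑ s ∈ Finset.range l, inc g g' (s + 1) ξ)
      (fun l => (memLp_inc h 0).integrable_mul (hS l))
      (∫ ξ, (inc g g' 0 ξ) ^ 2 ∂M.P) (fun l => ?_) (fun l => ?_)
    · have hle : ∀ j, ∫ ξ, |inc g g' 0 ξ * inc g g' j ξ| ∂M.P ≤ ∫ ξ, (inc g g' 0 ξ) ^ 2 ∂M.P := by
        intro j
        have := (int_mul_le (memLp_inc h 0) (memLp_inc h j)).2
        rw [int_inc_sq h j] at this
        linarith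
      have a2 : 0 ≤ ∫ ξ, (inc g g' 0 ξ) ^ 2 ∂M.P := integral_nonneg fun ξ => sq_nonneg _
      calc ∫ ξ, ‖inc g g' 0 ξ * ∑ s ∈ Finset.range l, inc g g' (s + 1) ξ‖ ∂M.P
          ≤ ∫ ξ, ∑ s ∈ Finset.range l, |inc g g' 0 ξ * inc g g' (s + 1) ξ| ∂M.P := by
            refine integral_mono ((memLp_inc h 0).integrable_mul (hS l)).norm
              (integrable_finsetSum _ fun s _ =>
                ((memLp_inc h 0).integrable_mul (memLp_inc h (s + 1))).norm) fun ξ => ?_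
            simp only [Real.norm_eq_abs]
            rw [Finset.mul_sum]
            exact Finset.abs_sum_le_sum_abs _ _
        _ = ∑ s ∈ Finset.range l, ∫ ξ, |inc g g' 0 ξ * inc g g' (s + 1) ξ| ∂M.P :=
            integral_finsetSum _ fun s _ =>
              ((memLp_inc h 0).integrable_mul (memLp_inc h (s + 1))).norm
        _ ≤ ∑ _s ∈ Finset.range l, ∫ ξ, (inc g g' 0 ξ) ^ 2 ∂M.P :=
            Finset.sum_le_sum fun s _ => hle (s + 1)
        _ = (l : ℝ) * ∫ ξ, (inc g g' 0 ξ) ^ 2 ∂M.P := by simp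
        _ ≤ (∫ ξ, (inc g g' 0 ξ) ^ 2 ∂M.P) * ((l : ℝ) + 1) := by nlinarith
    · have mprod : Measurable (fun η : ℕ → S => ∏ i ∈ Finset.range l, k.χ (η i)) :=
        Finset.measurable_fun_prod _ fun i _ => k.hm.comp (measurable_pi_apply i)
      have mwt : Measurable (fun η : ℕ → S =>
          (∏ i ∈ Finset.range l, k.χ (η i)) * (1 - k.χ (η l))) :=
        mprod.mul (measurable_const.sub (k.hm.comp (measurable_pi_apply l)))
      have hwt : ∀ η : ℕ → S, |(∏ i ∈ Finset.range l, k.χ (η i)) * (1 - k.χ (η l))| ≤ 1 := by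
        intro η
        have p0 : 0 ≤ ∏ i ∈ Finset.range l, k.χ (η i) := Finset.prod_nonneg fun i _ => k.h0 _
        have p1 : ∏ i ∈ Finset.range l, k.χ (η i) ≤ 1 :=
          Finset.prod_le_one (fun i _ => k.h0 _) fun i _ => (k.h1 _).trans k.hr.le
        rw [abs_of_nonneg (mul_nonneg p0 (sub_nonneg' k _))]
        exact mul_le_one₀ p1 (sub_nonneg' k _) (sub_le_one k _)
      have hS' : MemLp (fun η : ℕ → S => ∑ s ∈ Finset.range l, inc g g' s η) 2 M.P :=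
        memLp_finsetSum _ fun s _ => memLp_inc h s
      have mS' : Measurable (fun η : ℕ → S => ∑ s ∈ Finset.range l, inc g g' s η) :=
        Finset.measurable_fun_sum _ fun s _ => measurable_inc h.m h.m' s
      have mH : Measurable (fun η : ℕ → S =>
          ((∏ i ∈ Finset.range l, k.χ (η i)) * (1 - k.χ (η l)))
            * ∑ s ∈ Finset.range l, inc g g' s η) := mwt.mul mS'
      have hH2 : MemLp (fun η : ℕ → S =>
          ((∏ i ∈ Finset.range l, k.χ (η i)) * (1 - k.χ (η l)))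
            * ∑ s ∈ Finset.range l, inc g g' s η) 2 M.P := by
        refine MemLp.of_le_mul (c := 1) hS' mH.aestronglyMeasurable
          (Eventually.of_forall fun ξ => ?_)
        rw [norm_mul, Real.norm_eq_abs]
        exact mul_le_mul_of_nonneg_right (hwt ξ) (norm_nonneg _)
      have := h.orth_real _ mH hH2
      rw [← this]
      refine integral_congr_ae (Eventually.of_forall fun ξ => ?_)
      have e2 : ∀ j, (sh 1 ξ) j = ξ (j + 1) := fun j => by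
        simp only [sh]
        rw [add_comm]
      simp only [inc, smul_eq_mul, e2, Cut.v, zero_add]
      ring
  simp_rw [e1] at hz
  rw [integral_div, integral_sub hI i1, i2] at hz
  have hd := h.diff_sq
  have e3 : ∫ ξ, (inc g g' 0 ξ) ^ 2 ∂M.P = ∫ ξ, (g (ξ 0) - g' (ξ 1)) ^ 2 ∂M.P := rfl
  rw [e3, hd] at hz
  linarith

end Pool.Agent.H45.CLT
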