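import Pool.Agent.H45.CLT.Gap2
import Pool.Agent.H45.CLT.Gap4Aux

/-!
# Module GAP4F: the forward martingale over a gap.
`p = (j, ξ)` is the gap `(ξ_0, ..., ξ_{j+1})`, of length `ℓ = j + 1`, with weight
`W_j(ξ) = (1-χ(ξ_0)) χ(ξ_1)⋯χ(ξ_j) (1-χ(ξ_{j+1})) = w_j - w_{j+1}`, `w_j = (1-χ(ξ_0)) v_j`,
`v_j = χ(ξ_1)⋯χ(ξ_j)`.
* (FT) `∑_{j ≥ i} W_j(ξ) = w_i(ξ)` pathwise, hence `∫ ∑_{i ≤ j} X_i(ξ) dΘ = ∑_i ∫ w_i X_i dP`;
* (BT) `∑_{i ≥ 0} ∫ w_i(ξ) H(sh i ξ) dP = ∫ H dP`: with `a_i = ∫ χ(ξ_0) v_i(ξ) H(sh i ξ) dP` one has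
  `∫ w_i H(sh i ξ) = a_{i-1} - a_i` by stationarity, `a_{-1} = ∫ H`, `a_i ≤ r^{i+1} ∫ H`;
* (Campbell) `∫ ∑_{i ≤ j} H(j-i, sh i ξ) dΘ = ∑_l ∫ v_l(ξ) (1-χ(ξ_{l+1})) H(l, ξ) dP`.
`gap_orth`: `∫ ∑_{i≤j} φ(ξ_0)D_i dΘ = ∑_i ∫ w_i φ(ξ_0) D_i dP = 0`, `D_i = g(ξ_{i+1}) - g'(ξ_i)` (`Fwd.orth`).
`gap_sq`: `(∑D_i)² = ∑D_i² + 2∑_i D_i (∑_{j<i} D_j)`, the second part vanishes in the same way.
-/

set_option autoImplicit false

open MeasureTheory ProbabilityTheory Filter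
open scoped ENNReal NNReal

namespace Pool.Agent.H45.CLT

variable {S : Type} [MeasurableSpace S]

theorem measurable_Dh (g g' : S → ℝ) (hg : Measurable g) (hg' : Measurable g') :
    Measurable (Dh g g' : ℕ × (ℕ → S) → ℝ) := by
  unfold Dh
  refine measurable_from_prod_countable_right fun n => ?_
  exact Finset.measurable_fun_sum (Finset.range (n + 1))
    (f := fun i (ξ : ℕ → S) => g (ξ (i + 1)) - g' (ξ i))
    fun i _ => (hg.comp (measurable_pi_apply (i + 1))).sub (hg'.comp (measurable_pi_apply i))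

namespace Gap4F

/-- one increment -/
def inc (g g' : S → ℝ) (i : ℕ) (ξ : ℕ → S) : ℝ := g (ξ (i + 1)) - g' (ξ i)

theorem measurable_inc {g g' : S → ℝ} (hg : Measurable g) (hg' : Measurable g') (i : ℕ) :
    Measurable (inc g g' i) :=
  (hg.comp (measurable_pi_apply (i + 1))).sub (hg'.comp (measurable_pi_apply i))

theorem memLp_inc {M : Chain S} {g g' : S → ℝ} (h : M.Fwd g g') (i : ℕ) :
    MemLp (inc g g' i) 2 M.P :=
  (h.l2.comp_measurePreserving (M.mp_eval (i + 1))).sub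
    (h.l2'.comp_measurePreserving (M.mp_eval i))

omit [MeasurableSpace S] in
theorem inc_sh (g g' : S → ℝ) (i : ℕ) (ξ : ℕ → S) : inc g g' 0 (sh i ξ) = inc g g' i ξ := by
  simp [inc, sh]

theorem int_inc_sq {M : Chain S} {g g' : S → ℝ} (h : M.Fwd g g') (i : ℕ) :
    ∫ ξ, (inc g g' i ξ) ^ 2 ∂M.P = ∫ ξ, (inc g g' 0 ξ) ^ 2 ∂M.P := by
  have hmp := M.mp_sh i
  simp_rw [← inc_sh g g' i]
  have := (memLp_inc h 0).integrable_sq.aestronglyMeasurable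
  rw [← integral_map (μ := M.P) (φ := sh i) (f := fun η : ℕ → S => (inc g g' 0 η) ^ 2)
    (measurable_sh i).aemeasurable (by rw [hmp.map_eq]; exact this), hmp.map_eq]

theorem int_mul_le {P : Measure (ℕ → S)} {X Y : (ℕ → S) → ℝ} (hX : MemLp X 2 P)
    (hY : MemLp Y 2 P) :
    Integrable (fun ξ => X ξ * Y ξ) P ∧
      ∫ ξ, |X ξ * Y ξ| ∂P ≤ (∫ ξ, (X ξ) ^ 2 ∂P + ∫ ξ, (Y ξ) ^ 2 ∂P) / 2 := by
  have hi : Integrable (fun ξ => X ξ * Y ξ) P := hX.integrable_mul hY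
  refine ⟨hi, ?_⟩
  rw [← integral_add hX.integrable_sq hY.integrable_sq, ← integral_div]
  refine integral_mono hi.norm ((hX.integrable_sq.add hY.integrable_sq).div_const 2) fun ξ => ?_
  show |X ξ * Y ξ| ≤ _
  rw [abs_mul]
  have := two_mul_le_add_sq |X ξ| |Y ξ|
  rw [sq_abs, sq_abs] at this
  linarith

theorem sq_sum (D : ℕ → ℝ) (n : ℕ) :
    (∑ i ∈ Finset.range n, D i) ^ 2
      = ∑ i ∈ Finset.range n, (D i) ^ 2 + 2 * ∑ i ∈ Finset.range n, D i * ∑ j ∈ Finset.range i, D j := by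
  induction n with
  | zero => simp
  | succ n ih =>
    rw [Finset.sum_range_succ, Finset.sum_range_succ, Finset.sum_range_succ, add_sq, ih]
    ring

end Gap4F

open Gap4F Gap4Aux

theorem Chain.Fwd.gap_memLp {M : Chain S} (k : Cut S) {g g' : S → ℝ} (h : M.Fwd g g') :
    MemLp (Dh g g') 2 (M.Θ k) :=
  M.memLp_Θ_sum k (inc g g') (fun i => measurable_inc h.m h.m' i)
    (∫ ξ, (inc g g' 0 ξ) ^ 2 ∂M.P) (fun i => memLp_inc h i) (fun i => (int_inc_sq h i).le)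

/-- `E_Θ[φ(x) D̂] = 0` -/
theorem Chain.Fwd.gap_orth {M : Chain S} (k : Cut S) {g g' : S → ℝ} (h : M.Fwd g g')
    (φ : S → ℂ) (hφ : Measurable φ) (hφ2 : MemLp φ 2 M.ν) :
    ∫ p, φ (p.2 0) * ((Dh g g' p : ℝ) : ℂ) ∂(M.Θ k) = 0 := by
  have hφP : MemLp (fun ξ : ℕ → S => φ (ξ 0)) 2 M.P :=
    hφ2.comp_measurePreserving (M.mp_eval 0)
  have e1 : ∀ p : ℕ × (ℕ → S), φ (p.2 0) * ((Dh g g' p : ℝ) : ℂ)
      = ∑ i ∈ Finset.range (p.1 + 1),
        (fun (i : ℕ) (ξ : ℕ → S) => φ (ξ 0) * ((inc g g' i ξ : ℝ) : ℂ)) i p.2 := by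
    intro p
    simp only [Dh, inc]
    rw [Complex.ofReal_sum, Finset.mul_sum]
  simp_rw [e1]
  have hnorm : MemLp (fun ξ : ℕ → S => ‖φ (ξ 0)‖) 2 M.P := hφP.norm
  have hincC : ∀ i, MemLp (fun ξ : ℕ → S => ((inc g g' i ξ : ℝ) : ℂ)) 2 M.P := fun i =>
    (memLp_inc h i).ofReal
  refine M.Θ_fwd_zero k (fun (i : ℕ) (ξ : ℕ → S) => φ (ξ 0) * ((inc g g' i ξ : ℝ) : ℂ))
    (fun i => hφP.integrable_mul (hincC i))
    ((∫ ξ, ‖φ (ξ 0)‖ ^ 2 ∂M.P + ∫ ξ, (inc g g' 0 ξ) ^ 2 ∂M.P) / 2) (fun i => ?_) (fun i => ?_)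
  · have h1 := (int_mul_le hnorm (memLp_inc h i)).2
    rw [int_inc_sq h i] at h1
    have h2 : ∫ ξ, ‖φ (ξ 0) * ((inc g g' i ξ : ℝ) : ℂ)‖ ∂M.P
        = ∫ ξ, |‖φ (ξ 0)‖ * inc g g' i ξ| ∂M.P := by
      refine integral_congr_ae (Eventually.of_forall fun ξ => ?_)
      simp only [norm_mul, Complex.norm_real, Real.norm_eq_abs, abs_mul, abs_norm]
    rw [h2]
    have h3 : 0 ≤ (∫ ξ, ‖φ (ξ 0)‖ ^ 2 ∂M.P + ∫ ξ, (inc g g' 0 ξ) ^ 2 ∂M.P) / 2 := by
      have a1 : 0 ≤ ∫ ξ, ‖φ (ξ 0)‖ ^ 2 ∂M.P := integral_nonneg fun ξ => by positivity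
      have a2 : 0 ≤ ∫ ξ, (inc g g' 0 ξ) ^ 2 ∂M.P := integral_nonneg fun ξ => sq_nonneg _
      positivity
    refine h1.trans ?_
    have hi : (1 : ℝ) ≤ (i : ℝ) + 1 := by
      have : (0 : ℝ) ≤ (i : ℝ) := Nat.cast_nonneg i
      linarith
    exact le_mul_of_one_le_right h3 hi
  · have hw : ∀ ξ, |k.w i ξ| ≤ 1 := fun ξ => by
      rw [abs_of_nonneg (k.w_nonneg i ξ)]; exact w_le_one k i ξ
    have hΦ2 : MemLp (fun ξ : ℕ → S => (k.w i ξ : ℂ) * φ (ξ 0)) 2 M.P := by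
      refine MemLp.of_le_mul (c := 1) hφP
        (((Complex.measurable_ofReal.comp (k.measurable_w i)).mul
          (hφ.comp (measurable_pi_apply 0))).aestronglyMeasurable)
        (Eventually.of_forall fun ξ => ?_)
      rw [norm_mul, Complex.norm_real, Real.norm_eq_abs]
      exact mul_le_mul_of_nonneg_right (hw ξ) (norm_nonneg _)
    have := h.orth i (fun ξ : ℕ → S => (k.w i ξ : ℂ) * φ (ξ 0))
      ((Complex.measurable_ofReal.comp (k.measurable_w i)).mul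
          (hφ.comp (measurable_pi_apply 0)))
      (fun ξ => by simp only [k.w_fr i ξ]; simp [fr]) hΦ2
    rw [← this]
    refine integral_congr_ae (Eventually.of_forall fun ξ => ?_)
    simp only [inc, Complex.real_smul]
    ring

/-- `E_Θ D̂² = ‖g‖² - ‖Qg‖²` -/
theorem Chain.Fwd.gap_sq {M : Chain S} (k : Cut S) {g g' : S → ℝ} (h : M.Fwd g g') :
    ∫ p, (Dh g g' p) ^ 2 ∂(M.Θ k) = ∫ x, (g x) ^ 2 ∂M.ν - ∫ x, (g' x) ^ 2 ∂M.ν := by
  have hI := (h.gap_memLp k).integrable_sq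
  obtain ⟨i1, i2⟩ := M.Θ_T1_int k (fun ξ => (inc g g' 0 ξ) ^ 2)
    ((measurable_inc h.m h.m' 0).pow_const 2) (memLp_inc h 0).integrable_sq
  simp only [inc_sh] at i1 i2
  have e1 : ∀ p : ℕ × (ℕ → S), ∑ i ∈ Finset.range (p.1 + 1),
        (fun (i : ℕ) (ξ : ℕ → S) => inc g g' i ξ * ∑ j ∈ Finset.range i, inc g g' j ξ) i p.2
      = ((Dh g g' p) ^ 2 - ∑ i ∈ Finset.range (p.1 + 1), (inc g g' i p.2) ^ 2) / 2 := by
    intro p
    have := sq_sum (fun i => inc g g' i p.2) (p.1 + 1)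
    have e2 : Dh g g' p = ∑ i ∈ Finset.range (p.1 + 1), inc g g' i p.2 := rfl
    rw [e2, this]
    ring
  have hz : ∫ p, ∑ i ∈ Finset.range (p.1 + 1),
        (fun (i : ℕ) (ξ : ℕ → S) => inc g g' i ξ * ∑ j ∈ Finset.range i, inc g g' j ξ) i p.2
        ∂(M.Θ k) = 0 := by
    have hS : ∀ i, MemLp (fun ξ : ℕ → S => ∑ j ∈ Finset.range i, inc g g' j ξ) 2 M.P :=
      fun i => memLp_finsetSum _ fun j _ => memLp_inc h j
    refine M.Θ_fwd_zero k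
      (fun (i : ℕ) (ξ : ℕ → S) => inc g g' i ξ * ∑ j ∈ Finset.range i, inc g g' j ξ)
      (fun i => (memLp_inc h i).integrable_mul (hS i))
      (∫ ξ, (inc g g' 0 ξ) ^ 2 ∂M.P) (fun i => ?_) (fun i => ?_)
    · have hle : ∀ j, ∫ ξ, |inc g g' i ξ * inc g g' j ξ| ∂M.P ≤ ∫ ξ, (inc g g' 0 ξ) ^ 2 ∂M.P := by
        intro j
        have := (int_mul_le (memLp_inc h i) (memLp_inc h j)).2
        rw [int_inc_sq h i, int_inc_sq h j] at this
        linarith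
      have a2 : 0 ≤ ∫ ξ, (inc g g' 0 ξ) ^ 2 ∂M.P := integral_nonneg fun ξ => sq_nonneg _
      calc ∫ ξ, ‖inc g g' i ξ * ∑ j ∈ Finset.range i, inc g g' j ξ‖ ∂M.P
          ≤ ∫ ξ, ∑ j ∈ Finset.range i, |inc g g' i ξ * inc g g' j ξ| ∂M.P := by
            refine integral_mono ((memLp_inc h i).integrable_mul (hS i)).norm
              (integrable_finsetSum _ fun j _ =>
                ((memLp_inc h i).integrable_mul (memLp_inc h j)).norm) fun ξ => ?_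
            simp only [Real.norm_eq_abs]
            rw [Finset.mul_sum]
            exact Finset.abs_sum_le_sum_abs _ _
        _ = ∑ j ∈ Finset.range i, ∫ ξ, |inc g g' i ξ * inc g g' j ξ| ∂M.P :=
            integral_finsetSum _ fun j _ =>
              ((memLp_inc h i).integrable_mul (memLp_inc h j)).norm
        _ ≤ ∑ _j ∈ Finset.range i, ∫ ξ, (inc g g' 0 ξ) ^ 2 ∂M.P :=
            Finset.sum_le_sum fun j _ => hle j
        _ = (i : ℝ) * ∫ ξ, (inc g g' 0 ξ) ^ 2 ∂M.P := by simp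
        _ ≤ (∫ ξ, (inc g g' 0 ξ) ^ 2 ∂M.P) * ((i : ℝ) + 1) := by nlinarith
    · have hw : ∀ ξ, |k.w i ξ| ≤ 1 := fun ξ => by
        rw [abs_of_nonneg (k.w_nonneg i ξ)]; exact w_le_one k i ξ
      have mS : Measurable (fun ξ : ℕ → S => ∑ j ∈ Finset.range i, inc g g' j ξ) :=
        Finset.measurable_fun_sum _ fun j _ => measurable_inc h.m h.m' j
      have hΦ2 : MemLp (fun ξ : ℕ → S => k.w i ξ * ∑ j ∈ Finset.range i, inc g g' j ξ) 2 M.P := by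
        refine MemLp.of_le_mul (c := 1) (hS i) (((k.measurable_w i).mul mS).aestronglyMeasurable)
          (Eventually.of_forall fun ξ => ?_)
        rw [norm_mul, Real.norm_eq_abs]
        exact mul_le_mul_of_nonneg_right (hw ξ) (norm_nonneg _)
      have := h.orth_real i (fun ξ : ℕ → S => k.w i ξ * ∑ j ∈ Finset.range i, inc g g' j ξ)
        ((k.measurable_w i).mul mS)
        (fun ξ => by
          simp only [k.w_fr i ξ]
          congr 1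
          refine Finset.sum_congr rfl fun j hj => ?_
          have hj' := Finset.mem_range.mp hj
          simp only [inc, fr]
          rw [min_eq_right (by omega), min_eq_right (by omega)]) hΦ2
      rw [← this]
      refine integral_congr_ae (Eventually.of_forall fun ξ => ?_)
      simp only [inc, smul_eq_mul]
      ring
  simp_rw [e1] at hz
  rw [integral_div, integral_sub hI i1, i2] at hz
  have hd := h.diff_sq
  have e3 : ∫ ξ, (inc g g' 0 ξ) ^ 2 ∂M.P = ∫ ξ, (g (ξ 1) - g' (ξ 0)) ^ 2 ∂M.P := rfl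
  rw [e3, hd] at hz
  linarith

end Pool.Agent.H45.CLT
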