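import Pool.Agent.H45.CLT.Gap2

/-!
# Module GAP5: Dynkin formula over a gap, (A1), (A2).
`p = (j, ξ)` is the gap `(ξ_0, ..., ξ_{j+1})`, of length `ℓ = j + 1`, with weight
`W_j(ξ) = (1-χ(ξ_0)) χ(ξ_1)⋯χ(ξ_j) (1-χ(ξ_{j+1})) = w_j - w_{j+1}`, `w_j = (1-χ(ξ_0)) v_j`,
`v_j = χ(ξ_1)⋯χ(ξ_j)`.
* (FT) `∑_{j ≥ i} W_j(ξ) = w_i(ξ)` pathwise, hence `∫ ∑_{i ≤ j} X_i(ξ) dΘ = ∑_i ∫ w_i X_i dP`;
* (BT) `∑_{i ≥ 0} ∫ w_i(ξ) H(sh i ξ) dP = ∫ H dP`: with `a_i = ∫ χ(ξ_0) v_i(ξ) H(sh i ξ) dP` one has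
  `∫ w_i H(sh i ξ) = a_{i-1} - a_i` by stationarity, `a_{-1} = ∫ H`, `a_i ≤ r^{i+1} ∫ H`;
* (Campbell) `∫ ∑_{i ≤ j} H(j-i, sh i ξ) dΘ = ∑_l ∫ v_l(ξ) (1-χ(ξ_{l+1})) H(l, ξ) dP`.
`gap_dynkin`: `b(ξ_ℓ)-b(ξ_0) = ∑_{i<ℓ} (b(ξ_{i+1}) - Qb(ξ_i)) + ∑_{i<ℓ} (Qb-b)(ξ_i)`, the first sum is
integrated to `0` against `φ(ξ_0)` (forward summation identity + `markov_bdd`).
`gap_A2`: split `φ = φ 1_{Bᶜ} + φ 1_B`; first part by `gap_dynkin` and `Θ_T1`, second by `|b|≤1`.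
`gap_A1`: `∫|b(y)-b(x)|² = ∫|b(y)|²+|b(x)|²-2Re b̄(x)b(y) = -2 Re ∫ b̄(x)(b(y)-b(x))` (equal marginals).
-/

set_option autoImplicit false

open MeasureTheory ProbabilityTheory
open scoped ENNReal NNReal

namespace Pool.Agent.H45.CLT

variable {S : Type} [MeasurableSpace S]

/-- crude `L¹` integrability against `Θ` -/
theorem Chain.g5_integrable (M : Chain S) (k : Cut S) {F : ℕ × (ℕ → S) → ℂ} (hF : Measurable F)
    (D : ℝ) (hD0 : 0 ≤ D)
    (hD : ∀ j, ∫⁻ ξ, ‖F (j, ξ)‖ₑ ∂M.P ≤ ENNReal.ofReal (D * ((j : ℝ) + 1))) :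
    Integrable F (M.Θ k) := by
  refine ⟨hF.aestronglyMeasurable, ?_⟩
  unfold HasFiniteIntegral
  rw [M.lintegral_Θ k _ hF.enorm]
  have h1 : ∀ j : ℕ, ∫⁻ ξ, ENNReal.ofReal (k.W j ξ) * ‖F (j, ξ)‖ₑ ∂M.P ≤
      ENNReal.ofReal (k.r ^ j * (D * ((j : ℝ) + 1))) := by
    intro j
    have hr : 0 ≤ k.r ^ j := pow_nonneg k.hr0 j
    calc ∫⁻ ξ, ENNReal.ofReal (k.W j ξ) * ‖F (j, ξ)‖ₑ ∂M.P
        ≤ ∫⁻ ξ, ENNReal.ofReal (k.r ^ j) * ‖F (j, ξ)‖ₑ ∂M.P :=
          lintegral_mono fun ξ => mul_le_mul_left (ENNReal.ofReal_le_ofReal (k.W_le j ξ)) _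
      _ = ENNReal.ofReal (k.r ^ j) * ∫⁻ ξ, ‖F (j, ξ)‖ₑ ∂M.P := by
          rw [lintegral_const_mul _ (show Measurable fun ξ : ℕ → S => ‖F (j, ξ)‖ₑ from
            (hF.comp measurable_prodMk_left).enorm)]
      _ ≤ ENNReal.ofReal (k.r ^ j) * ENNReal.ofReal (D * ((j : ℝ) + 1)) :=
          mul_le_mul_right (hD j) _
      _ = ENNReal.ofReal (k.r ^ j * (D * ((j : ℝ) + 1))) := by
          rw [← ENNReal.ofReal_mul hr]
  have hs : Summable fun j : ℕ => k.r ^ j * (D * ((j : ℝ) + 1)) := by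
    have h2 : Summable fun j : ℕ => (j : ℝ) ^ 1 * k.r ^ j :=
      summable_pow_mul_geometric_of_norm_lt_one 1 (by
        rw [Real.norm_eq_abs, abs_of_nonneg k.hr0]; exact k.hr)
    have h3 : Summable fun j : ℕ => k.r ^ j := summable_geometric_of_lt_one k.hr0 k.hr
    refine ((h2.add h3).mul_left D).congr fun j => ?_
    ring
  refine lt_of_le_of_lt (ENNReal.tsum_le_tsum h1) ?_
  rw [← ENNReal.ofReal_tsum_of_nonneg (fun j => by
    have := pow_nonneg k.hr0 j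
    positivity) hs]
  exact ENNReal.ofReal_lt_top

/-- measurability on `ℕ × path` -/
theorem g5_meas {F : ℕ × (ℕ → S) → ℂ} (h : ∀ j, Measurable fun ξ => F (j, ξ)) : Measurable F :=
  measurable_from_prod_countable_right h

theorem g5_Qb (M : Chain S) (b : S → ℂ) (hb : Measurable b) :
    Measurable fun x => ∫ z, b z ∂(M.Q x) :=
  (StronglyMeasurable.integral_kernel hb.stronglyMeasurable).measurable

theorem g5_Qb_le (M : Chain S) (b : S → ℂ) (hb1 : ∀ x, ‖b x‖ ≤ 1) (x : S) :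
    ‖∫ z, b z ∂(M.Q x)‖ ≤ 1 := by
  have h := norm_integral_le_of_norm_le_const (μ := M.Q x) (f := b) (C := 1)
    (Filter.Eventually.of_forall hb1)
  simpa using h

/-- Integrability of `φ(x) ∑_{i<ℓ} X_i` for bounded `X_i`. -/
theorem Chain.g5_int_sum (M : Chain S) (k : Cut S) (φ : S → ℂ) (hφ : Measurable φ)
    (hφ1 : Integrable φ M.ν) (X : ℕ → (ℕ → S) → ℂ) (hX : ∀ i, Measurable (X i))
    (hX2 : ∀ i ξ, ‖X i ξ‖ ≤ 2) :
    Integrable (fun p : ℕ × (ℕ → S) => φ (p.2 0) * ∑ i ∈ Finset.range (p.1 + 1), X i p.2)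
      (M.Θ k) := by
  refine M.g5_integrable k (g5_meas fun j => ?_) (2 * ∫ x, ‖φ x‖ ∂M.ν) (by positivity) fun j => ?_
  · change Measurable fun ξ : ℕ → S => φ (ξ 0) * ∑ i ∈ Finset.range (j + 1), X i ξ
    exact (hφ.comp (measurable_pi_apply 0)).mul
      (Finset.measurable_sum (Finset.range (j + 1)) fun i _ => hX i)
  · have h1 : ∀ ξ : ℕ → S, ‖φ (ξ 0) * ∑ i ∈ Finset.range (j + 1), X i ξ‖ₑ ≤
        ENNReal.ofReal (2 * ((j : ℝ) + 1)) * ‖φ (ξ 0)‖ₑ := by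
      intro ξ
      rw [← ofReal_norm, ← ofReal_norm, ← ENNReal.ofReal_mul (by positivity)]
      apply ENNReal.ofReal_le_ofReal
      rw [norm_mul, mul_comm]
      apply mul_le_mul_of_nonneg_right _ (norm_nonneg _)
      refine (norm_sum_le _ _).trans ((Finset.sum_le_sum fun i _ => hX2 i ξ).trans ?_)
      rw [Finset.sum_const, Finset.card_range, nsmul_eq_mul]
      push_cast
      linarith
    refine (lintegral_mono h1).trans ?_
    rw [lintegral_const_mul _ (show Measurable fun ξ : ℕ → S => ‖φ (ξ 0)‖ₑ from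
      (hφ.comp (measurable_pi_apply 0)).enorm)]
    have h2 : ∫⁻ ξ : ℕ → S, ‖φ (ξ 0)‖ₑ ∂M.P = ∫⁻ x, ‖φ x‖ₑ ∂M.ν :=
      (M.mp_eval 0).lintegral_comp hφ.enorm
    rw [h2, ← ofReal_integral_norm_eq_lintegral_enorm hφ1, ← ENNReal.ofReal_mul (by positivity)]
    apply ENNReal.ofReal_le_ofReal
    apply le_of_eq
    ring

/-- Orthogonality: if `∫ w_i φ(ξ_0) X_i dP = 0` for all `i` then `E_Θ[φ(x) ∑_{i<ℓ} X_i] = 0`. -/
theorem Chain.g5_orth (M : Chain S) (k : Cut S) (φ : S → ℂ) (hφ : Measurable φ)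
    (hφ1 : Integrable φ M.ν) (X : ℕ → (ℕ → S) → ℂ) (hX : ∀ i, Measurable (X i))
    (hX2 : ∀ i ξ, ‖X i ξ‖ ≤ 2)
    (h0 : ∀ i, ∫ ξ, k.w i ξ • (φ (ξ 0) * X i ξ) ∂M.P = 0) :
    ∫ p, φ (p.2 0) * ∑ i ∈ Finset.range (p.1 + 1), X i p.2 ∂(M.Θ k) = 0 := by
  obtain ⟨h1, h2⟩ := M.integral_Θ k _ (M.g5_int_sum k φ hφ hφ1 X hX hX2)
  have hφP : Integrable (fun ξ : ℕ → S => φ (ξ 0)) M.P :=
    (M.mp_eval 0).integrable_comp_of_integrable hφ1
  have hY : ∀ i, Integrable (fun ξ : ℕ → S => φ (ξ 0) * X i ξ) M.P := fun i =>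
    hφP.mul_bdd (c := 2) (hX i).aestronglyMeasurable (Filter.Eventually.of_forall (hX2 i))
  have hwY : ∀ J i, Integrable (fun ξ : ℕ → S => k.w J ξ • (φ (ξ 0) * X i ξ)) M.P := fun J i => by
    refine (hY i).bdd_smul (k.r ^ J) (k.measurable_w J).aestronglyMeasurable
      (Filter.Eventually.of_forall fun ξ => ?_)
    rw [Real.norm_eq_abs, abs_of_nonneg (k.w_nonneg J ξ)]
    exact k.w_le J ξ
  -- Abel summation
  have abel : ∀ J : ℕ, ∀ ξ : ℕ → S, ∑ j ∈ Finset.range J,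
      k.W j ξ • (φ (ξ 0) * ∑ i ∈ Finset.range (j + 1), X i ξ) =
      ∑ i ∈ Finset.range J, k.w i ξ • (φ (ξ 0) * X i ξ) -
        ∑ i ∈ Finset.range J, k.w J ξ • (φ (ξ 0) * X i ξ) := by
    intro J ξ
    induction J with
    | zero => simp
    | succ J ih =>
      rw [Finset.sum_range_succ, ih, Finset.sum_range_succ (fun i => k.w i ξ • (φ (ξ 0) * X i ξ)),
        k.W_eq, Finset.sum_range_succ (fun i => k.w (J + 1) ξ • (φ (ξ 0) * X i ξ)),
        ← Finset.smul_sum, ← Finset.smul_sum, ← Finset.mul_sum,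
        Finset.sum_range_succ (fun i => X i ξ), mul_add, smul_add, sub_smul, sub_smul]
      abel
  have hpart : ∀ J : ℕ, ∑ j ∈ Finset.range J,
      ∫ ξ, k.W j ξ • (φ (ξ 0) * ∑ i ∈ Finset.range (j + 1), X i ξ) ∂M.P =
      - ∑ i ∈ Finset.range J, ∫ ξ, k.w J ξ • (φ (ξ 0) * X i ξ) ∂M.P := by
    intro J
    rw [← integral_finsetSum _ fun j _ => h1 j]
    simp only [abel J]
    rw [integral_sub (integrable_finsetSum _ fun i _ => hwY i i)
      (integrable_finsetSum _ fun i _ => hwY J i), integral_finsetSum _ fun i _ => hwY i i,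
      integral_finsetSum _ fun i _ => hwY J i, Finset.sum_eq_zero fun i _ => h0 i, zero_sub]
  have hbd : ∀ J : ℕ, ‖∑ j ∈ Finset.range J,
      ∫ ξ, k.W j ξ • (φ (ξ 0) * ∑ i ∈ Finset.range (j + 1), X i ξ) ∂M.P‖ ≤
      (2 * ∫ x, ‖φ x‖ ∂M.ν) * ((J : ℝ) ^ 1 * k.r ^ J) := by
    intro J
    rw [hpart, norm_neg]
    refine (norm_sum_le _ _).trans ?_
    have h3 : ∀ i ∈ Finset.range J, ‖∫ ξ, k.w J ξ • (φ (ξ 0) * X i ξ) ∂M.P‖ ≤
        k.r ^ J * (2 * ∫ x, ‖φ x‖ ∂M.ν) := by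
      intro i _
      refine (norm_integral_le_integral_norm _).trans ?_
      have h4 : ∫ ξ : ℕ → S, k.r ^ J * (2 * ‖φ (ξ 0)‖) ∂M.P = k.r ^ J * (2 * ∫ x, ‖φ x‖ ∂M.ν) := by
        rw [integral_const_mul, integral_const_mul]
        congr 2
        exact M.integral_eval 0 hφ.norm
      rw [← h4]
      refine integral_mono_of_nonneg (Filter.Eventually.of_forall fun ξ => norm_nonneg _)
        ((hφP.norm.const_mul 2).const_mul _) (Filter.Eventually.of_forall fun ξ => ?_)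
      simp only [norm_smul, norm_mul]
      rw [Real.norm_eq_abs, abs_of_nonneg (k.w_nonneg J ξ)]
      have h5 : ‖φ (ξ 0)‖ * ‖X i ξ‖ ≤ 2 * ‖φ (ξ 0)‖ := by
        rw [mul_comm]
        exact mul_le_mul_of_nonneg_right (hX2 i ξ) (norm_nonneg _)
      exact mul_le_mul (k.w_le J ξ) h5 (by positivity) (pow_nonneg k.hr0 J)
    refine (Finset.sum_le_sum h3).trans (le_of_eq ?_)
    rw [Finset.sum_const, Finset.card_range, nsmul_eq_mul]
    ring
  have hlim : Filter.Tendsto (fun J : ℕ => (2 * ∫ x, ‖φ x‖ ∂M.ν) * ((J : ℝ) ^ 1 * k.r ^ J))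
      Filter.atTop (nhds 0) := by
    have h3 := tendsto_pow_const_mul_const_pow_of_lt_one 1 k.hr0 k.hr
    simpa using h3.const_mul (2 * ∫ x, ‖φ x‖ ∂M.ν)
  have h4 := squeeze_zero_norm hbd hlim
  exact tendsto_nhds_unique h2.tendsto_sum_nat h4

/-- Dynkin formula over a gap: `E_Θ[φ(x)(b(y)-b(x))] = E_Θ[φ(x) ∑_{i<ℓ} (Qb-b)(ξ_i)]` for
bounded `b`. -/
theorem Chain.gap_dynkin (M : Chain S) (k : Cut S) (b : S → ℂ) (hb : Measurable b)
    (hb1 : ∀ x, ‖b x‖ ≤ 1) (φ : S → ℂ) (hφ : Measurable φ) (hφ1 : Integrable φ M.ν) :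
    ∫ p, φ (p.2 0) * (b (p.2 (p.1 + 1)) - b (p.2 0)) ∂(M.Θ k)
      = ∫ p, φ (p.2 0) * ∑ i ∈ Finset.range (p.1 + 1),
          ((∫ z, b z ∂(M.Q (p.2 i))) - b (p.2 i)) ∂(M.Θ k) := by
  have hQb := g5_Qb M b hb
  have hQb1 := g5_Qb_le M b hb1
  set X : ℕ → (ℕ → S) → ℂ := fun i ξ => b (ξ (i + 1)) - ∫ z, b z ∂(M.Q (ξ i)) with hX
  set X' : ℕ → (ℕ → S) → ℂ := fun i ξ => (∫ z, b z ∂(M.Q (ξ i))) - b (ξ i) with hX'
  have hXm : ∀ i, Measurable (X i) := fun i =>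
    (hb.comp (measurable_pi_apply (i + 1))).sub (hQb.comp (measurable_pi_apply i))
  have hXm' : ∀ i, Measurable (X' i) := fun i =>
    (hQb.comp (measurable_pi_apply i)).sub (hb.comp (measurable_pi_apply i))
  have hX2 : ∀ i ξ, ‖X i ξ‖ ≤ 2 := fun i ξ => by
    refine (norm_sub_le _ _).trans ?_
    have h1 := hb1 (ξ (i + 1))
    have h2 := hQb1 (ξ i)
    linarith
  have hX2' : ∀ i ξ, ‖X' i ξ‖ ≤ 2 := fun i ξ => by
    refine (norm_sub_le _ _).trans ?_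
    have h1 := hb1 (ξ i)
    have h2 := hQb1 (ξ i)
    linarith
  have hI := M.g5_int_sum k φ hφ hφ1 X hXm hX2
  have hI' := M.g5_int_sum k φ hφ hφ1 X' hXm' hX2'
  have hφP : Integrable (fun ξ : ℕ → S => φ (ξ 0)) M.P :=
    (M.mp_eval 0).integrable_comp_of_integrable hφ1
  have horth := M.g5_orth k φ hφ hφ1 X hXm hX2 (by
    intro i
    have hΦm : Measurable fun ξ : ℕ → S => (k.w i ξ : ℂ) * φ (ξ 0) :=
      (Complex.measurable_ofReal.comp (k.measurable_w i)).mul (hφ.comp (measurable_pi_apply 0))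
    have hΦi : ∀ ξ : ℕ → S, (k.w i (fr i ξ) : ℂ) * φ ((fr i ξ) 0) = (k.w i ξ : ℂ) * φ (ξ 0) := by
      intro ξ
      rw [k.w_fr]
      simp [fr]
    have hΦ1 : Integrable (fun ξ : ℕ → S => (k.w i ξ : ℂ) * φ (ξ 0)) M.P := by
      refine hφP.bdd_mul (c := k.r ^ i)
        (Complex.measurable_ofReal.comp (k.measurable_w i)).aestronglyMeasurable
        (Filter.Eventually.of_forall fun ξ => ?_)
      rw [Complex.norm_real, Real.norm_eq_abs, abs_of_nonneg (k.w_nonneg i ξ)]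
      exact k.w_le i ξ
    have h1 := M.markov_bdd i _ hΦm hΦi hΦ1 b hb ⟨1, hb1⟩
    have h2 : ∀ ξ : ℕ → S, k.w i ξ • (φ (ξ 0) * X i ξ) =
        (k.w i ξ : ℂ) * φ (ξ 0) * b (ξ (i + 1)) -
          (k.w i ξ : ℂ) * φ (ξ 0) * (∫ z, b z ∂(M.Q (ξ i))) := by
      intro ξ
      rw [Complex.real_smul]
      simp only [hX]
      ring
    simp only [h2]
    rw [integral_sub, h1, sub_self]
    · exact hΦ1.mul_bdd (c := 1) (hb.comp (measurable_pi_apply (i + 1))).aestronglyMeasurable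
        (Filter.Eventually.of_forall fun ξ => hb1 _)
    · exact hΦ1.mul_bdd (c := 1) (hQb.comp (measurable_pi_apply i)).aestronglyMeasurable
        (Filter.Eventually.of_forall fun ξ => hQb1 _))
  have hpt : ∀ p : ℕ × (ℕ → S), φ (p.2 0) * (b (p.2 (p.1 + 1)) - b (p.2 0)) =
      φ (p.2 0) * ∑ i ∈ Finset.range (p.1 + 1), X i p.2 +
        φ (p.2 0) * ∑ i ∈ Finset.range (p.1 + 1), X' i p.2 := by
    intro p
    rw [← mul_add, ← Finset.sum_add_distrib]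
    congr 1
    rw [← Finset.sum_range_sub (fun i => b (p.2 i)) (p.1 + 1)]
    refine Finset.sum_congr rfl fun i _ => ?_
    simp only [hX, hX']
    ring
  simp only [hpt]
  rw [integral_add hI hI', horth, zero_add]

/-- (A2): if `|φ| ≤ D` off the measurable set `B`, then
`|E_Θ[φ(x)(b(y)-b(x))]| ≤ D ∫|Qb-b| + 2 ∫_B (1-χ)|φ|`. -/
theorem Chain.gap_A2 (M : Chain S) (k : Cut S) (b : S → ℂ) (hb : Measurable b)
    (hb1 : ∀ x, ‖b x‖ ≤ 1) (φ : S → ℂ) (hφ : Measurable φ) (hφ1 : Integrable φ M.ν)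
    (B : Set S) (hB : MeasurableSet B) (D : ℝ) (hD : ∀ x, x ∉ B → ‖φ x‖ ≤ D) (hD0 : 0 ≤ D) :
    ‖∫ p, φ (p.2 0) * (b (p.2 (p.1 + 1)) - b (p.2 0)) ∂(M.Θ k)‖
      ≤ D * ∫ x, ‖(∫ z, b z ∂(M.Q x)) - b x‖ ∂M.ν
        + 2 * ∫ x in B, (1 - k.χ x) * ‖φ x‖ ∂M.ν := by
  have hQb := g5_Qb M b hb
  have hQb1 := g5_Qb_le M b hb1
  set φ1 : S → ℂ := Bᶜ.indicator φ with hφ1'
  set φ2 : S → ℂ := B.indicator φ with hφ2'
  have hm1 : Measurable φ1 := hφ.indicator hB.compl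
  have hm2 : Measurable φ2 := hφ.indicator hB
  have hi1 : Integrable φ1 M.ν := hφ1.indicator hB.compl
  have hi2 : Integrable φ2 M.ν := hφ1.indicator hB
  have hsplit : ∀ x, φ x = φ1 x + φ2 x := by
    intro x
    by_cases hx : x ∈ B
    · simp [hφ1', hφ2', hx]
    · simp [hφ1', hφ2', hx]
  -- integrability
  have hdm : Measurable fun p : ℕ × (ℕ → S) => b (p.2 (p.1 + 1)) - b (p.2 0) :=
    g5_meas fun j => (hb.comp (measurable_pi_apply (j + 1))).sub (hb.comp (measurable_pi_apply 0))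
  have hd2 : ∀ p : ℕ × (ℕ → S), ‖b (p.2 (p.1 + 1)) - b (p.2 0)‖ ≤ 2 := fun p => by
    refine (norm_sub_le _ _).trans ?_
    have h1 := hb1 (p.2 (p.1 + 1))
    have h2 := hb1 (p.2 0)
    linarith
  have hx1 : Integrable (fun p : ℕ × (ℕ → S) => φ1 (p.2 0)) (M.Θ k) :=
    memLp_one_iff_integrable.1 (M.memLp_x k 1 φ1 (memLp_one_iff_integrable.2 hi1))
  have hx2 : Integrable (fun p : ℕ × (ℕ → S) => φ2 (p.2 0)) (M.Θ k) :=
    memLp_one_iff_integrable.1 (M.memLp_x k 1 φ2 (memLp_one_iff_integrable.2 hi2))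
  have hI1 : Integrable (fun p : ℕ × (ℕ → S) => φ1 (p.2 0) * (b (p.2 (p.1 + 1)) - b (p.2 0)))
      (M.Θ k) := hx1.mul_bdd (c := 2) hdm.aestronglyMeasurable (Filter.Eventually.of_forall hd2)
  have hI2 : Integrable (fun p : ℕ × (ℕ → S) => φ2 (p.2 0) * (b (p.2 (p.1 + 1)) - b (p.2 0)))
      (M.Θ k) := hx2.mul_bdd (c := 2) hdm.aestronglyMeasurable (Filter.Eventually.of_forall hd2)
  have e1 : ∫ p, φ (p.2 0) * (b (p.2 (p.1 + 1)) - b (p.2 0)) ∂(M.Θ k) =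
      ∫ p, φ1 (p.2 0) * (b (p.2 (p.1 + 1)) - b (p.2 0)) ∂(M.Θ k) +
      ∫ p, φ2 (p.2 0) * (b (p.2 (p.1 + 1)) - b (p.2 0)) ∂(M.Θ k) := by
    rw [← integral_add hI1 hI2]
    refine integral_congr_ae (Filter.Eventually.of_forall fun p => ?_)
    simp only
    rw [hsplit, add_mul]
  rw [e1]
  refine (norm_add_le _ _).trans (add_le_add ?_ ?_)
  · -- the good part
    rw [M.gap_dynkin k b hb hb1 φ1 hm1 hi1]
    set h : (ℕ → S) → ℝ := fun ξ => ‖(∫ z, b z ∂(M.Q (ξ 0))) - b (ξ 0)‖ with hh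
    have hsubm : Measurable fun x => (∫ z, b z ∂(M.Q x)) - b x := hQb.sub hb
    have hhm : Measurable h := (hsubm.comp (measurable_pi_apply 0)).norm
    have hsubi : Integrable (fun x => ‖(∫ z, b z ∂(M.Q x)) - b x‖) M.ν := by
      refine Integrable.of_bound (C := 2) hsubm.norm.aestronglyMeasurable
        (Filter.Eventually.of_forall fun x => ?_)
      rw [norm_norm]
      refine (norm_sub_le _ _).trans ?_
      have h1 := hb1 x
      have h2 := hQb1 x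
      linarith
    have hhi : Integrable h M.P := (M.mp_eval 0).integrable_comp_of_integrable hsubi
    obtain ⟨k1, k2⟩ := M.Θ_T1_int k h hhm hhi
    have e2 : ∫ ξ, h ξ ∂M.P = ∫ x, ‖(∫ z, b z ∂(M.Q x)) - b x‖ ∂M.ν :=
      M.integral_eval 0 hsubm.norm
    rw [← e2, ← k2, ← integral_const_mul]
    refine (norm_integral_le_integral_norm _).trans ?_
    refine integral_mono_of_nonneg (Filter.Eventually.of_forall fun p => norm_nonneg _)
      (k1.const_mul D) (Filter.Eventually.of_forall fun p => ?_)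
    simp only [norm_mul]
    have h3 : ‖φ1 (p.2 0)‖ ≤ D := by
      simp only [hφ1']
      by_cases hx : p.2 0 ∈ B
      · simp [hx, hD0]
      · simp [hx, hD _ hx]
    refine mul_le_mul h3 ?_ (norm_nonneg _) hD0
    refine (norm_sum_le _ _).trans (le_of_eq ?_)
    refine Finset.sum_congr rfl fun i _ => ?_
    simp [hh, sh]
  · -- the bad part
    have e3 : ∫ p, ‖φ2 (p.2 0)‖ ∂(M.Θ k) = ∫ x in B, (1 - k.χ x) * ‖φ x‖ ∂M.ν := by
      rw [M.integral_x k (fun x => ‖φ2 x‖) hm2.norm.aestronglyMeasurable,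
        ← integral_indicator hB]
      refine integral_congr_ae (Filter.Eventually.of_forall fun x => ?_)
      simp only [hφ2', smul_eq_mul]
      by_cases hx : x ∈ B
      · simp [hx]
      · simp [hx]
    rw [← e3, ← integral_const_mul]
    refine (norm_integral_le_integral_norm _).trans ?_
    refine integral_mono_of_nonneg (Filter.Eventually.of_forall fun p => norm_nonneg _)
      (hx2.norm.const_mul 2) (Filter.Eventually.of_forall fun p => ?_)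
    simp only [norm_mul]
    rw [mul_comm]
    exact mul_le_mul_of_nonneg_right (hd2 p) (norm_nonneg _)

/-- (A1): `‖b(y)-b(x)‖²_Θ ≤ 2 ∫|Qb-b|`. -/
theorem Chain.gap_A1 (M : Chain S) (k : Cut S) (b : S → ℂ) (hb : Measurable b)
    (hb1 : ∀ x, ‖b x‖ ≤ 1) :
    ∫ p, ‖b (p.2 (p.1 + 1)) - b (p.2 0)‖ ^ 2 ∂(M.Θ k)
      ≤ 2 * ∫ x, ‖(∫ z, b z ∂(M.Q x)) - b x‖ ∂M.ν := by
  set φ : S → ℂ := fun x => (starRingEnd ℂ) (b x) with hφ
  have hφm : Measurable φ := Complex.continuous_conj.measurable.comp hb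
  have hφn : ∀ x, ‖φ x‖ ≤ 1 := fun x => by
    simp only [hφ, RCLike.norm_conj]
    exact hb1 x
  have hφi : Integrable φ M.ν := Integrable.of_bound (C := 1) hφm.aestronglyMeasurable
    (Filter.Eventually.of_forall hφn)
  have hA2 := M.gap_A2 k b hb hb1 φ hφm hφi ∅ MeasurableSet.empty 1 (fun x _ => hφn x) zero_le_one
  simp only [Measure.restrict_empty, integral_zero_measure, mul_zero, add_zero, one_mul] at hA2
  -- integrability
  have hbm : Measurable fun p : ℕ × (ℕ → S) => b (p.2 (p.1 + 1)) :=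
    g5_meas fun j => hb.comp (measurable_pi_apply (j + 1))
  have hbm0 : Measurable fun p : ℕ × (ℕ → S) => b (p.2 0) :=
    g5_meas fun j => hb.comp (measurable_pi_apply 0)
  have i1 : Integrable (fun p : ℕ × (ℕ → S) => ‖b (p.2 (p.1 + 1))‖ ^ 2) (M.Θ k) := by
    refine Integrable.of_bound (C := 1) (hbm.norm.pow_const 2).aestronglyMeasurable
      (Filter.Eventually.of_forall fun p => ?_)
    rw [Real.norm_eq_abs, abs_of_nonneg (sq_nonneg _)]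
    exact pow_le_one₀ (norm_nonneg _) (hb1 _)
  have i2 : Integrable (fun p : ℕ × (ℕ → S) => ‖b (p.2 0)‖ ^ 2) (M.Θ k) := by
    refine Integrable.of_bound (C := 1) (hbm0.norm.pow_const 2).aestronglyMeasurable
      (Filter.Eventually.of_forall fun p => ?_)
    rw [Real.norm_eq_abs, abs_of_nonneg (sq_nonneg _)]
    exact pow_le_one₀ (norm_nonneg _) (hb1 _)
  have i3 : Integrable (fun p : ℕ × (ℕ → S) => φ (p.2 0) * (b (p.2 (p.1 + 1)) - b (p.2 0)))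
      (M.Θ k) := by
    refine Integrable.of_bound (C := 2)
      ((hφm.comp ((measurable_pi_apply 0).comp measurable_snd)).mul
        (hbm.sub hbm0)).aestronglyMeasurable (Filter.Eventually.of_forall fun p => ?_)
    rw [norm_mul]
    have h1 := hφn (p.2 0)
    have h2 : ‖b (p.2 (p.1 + 1)) - b (p.2 0)‖ ≤ 2 := by
      refine (norm_sub_le _ _).trans ?_
      have h1 := hb1 (p.2 (p.1 + 1))
      have h2 := hb1 (p.2 0)
      linarith
    calc ‖φ (p.2 0)‖ * ‖b (p.2 (p.1 + 1)) - b (p.2 0)‖ ≤ 1 * 2 :=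
          mul_le_mul h1 h2 (norm_nonneg _) zero_le_one
      _ = 2 := by norm_num
  have hpt : ∀ p : ℕ × (ℕ → S), ‖b (p.2 (p.1 + 1)) - b (p.2 0)‖ ^ 2 =
      ‖b (p.2 (p.1 + 1))‖ ^ 2 - ‖b (p.2 0)‖ ^ 2 -
        2 * (φ (p.2 0) * (b (p.2 (p.1 + 1)) - b (p.2 0))).re := by
    intro p
    simp only [hφ]
    rw [← Complex.normSq_eq_norm_sq, ← Complex.normSq_eq_norm_sq, ← Complex.normSq_eq_norm_sq,
      Complex.normSq_apply, Complex.normSq_apply, Complex.normSq_apply]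
    simp only [Complex.sub_re, Complex.sub_im, Complex.mul_re, Complex.conj_re, Complex.conj_im]
    ring
  have heq : ∫ p, ‖b (p.2 (p.1 + 1))‖ ^ 2 ∂(M.Θ k) = ∫ p, ‖b (p.2 0)‖ ^ 2 ∂(M.Θ k) := by
    rw [M.integral_x k (fun x => ‖b x‖ ^ 2) (hb.norm.pow_const 2).aestronglyMeasurable,
      M.integral_y k (fun x => ‖b x‖ ^ 2) (hb.norm.pow_const 2).aestronglyMeasurable]
  have i4 : Integrable (fun p : ℕ × (ℕ → S) =>
      (φ (p.2 0) * (b (p.2 (p.1 + 1)) - b (p.2 0))).re) (M.Θ k) := i3.re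
  have e1 : ∫ p, ‖b (p.2 (p.1 + 1)) - b (p.2 0)‖ ^ 2 ∂(M.Θ k) =
      - (2 * (∫ p, φ (p.2 0) * (b (p.2 (p.1 + 1)) - b (p.2 0)) ∂(M.Θ k)).re) := by
    simp only [hpt]
    have i12 : Integrable (fun p : ℕ × (ℕ → S) => ‖b (p.2 (p.1 + 1))‖ ^ 2 - ‖b (p.2 0)‖ ^ 2)
      (M.Θ k) := i1.sub i2
    rw [integral_sub i12 (i4.const_mul 2), integral_sub i1 i2, heq, sub_self, zero_sub,
      integral_const_mul]
    congr 2
    exact integral_re i3
  rw [e1]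
  have h3 := (abs_le.1 (Complex.abs_re_le_norm
    (∫ p, φ (p.2 0) * (b (p.2 (p.1 + 1)) - b (p.2 0)) ∂(M.Θ k)))).1
  linarith

end Pool.Agent.H45.CLT
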