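import Pool.Agent.H45.CLT.Gap2

/-!
# Module GAP6: the gap equation of the resolvent.
`p = (j, ξ)` is the gap `(ξ_0, ..., ξ_{j+1})`, of length `ℓ = j + 1`, with weight
`W_j(ξ) = (1-χ(ξ_0)) χ(ξ_1)⋯χ(ξ_j) (1-χ(ξ_{j+1})) = w_j - w_{j+1}`, `w_j = (1-χ(ξ_0)) v_j`,
`v_j = χ(ξ_1)⋯χ(ξ_j)`.
* (FT) `∑_{j ≥ i} W_j(ξ) = w_i(ξ)` pathwise, hence `∫ ∑_{i ≤ j} X_i(ξ) dΘ = ∑_i ∫ w_i X_i dP`;
* (BT) `∑_{i ≥ 0} ∫ w_i(ξ) H(sh i ξ) dP = ∫ H dP`: with `a_i = ∫ χ(ξ_0) v_i(ξ) H(sh i ξ) dP` one has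
  `∫ w_i H(sh i ξ) = a_{i-1} - a_i` by stationarity, `a_{-1} = ∫ H`, `a_i ≤ r^{i+1} ∫ H`;
* (Campbell) `∫ ∑_{i ≤ j} H(j-i, sh i ξ) dΘ = ∑_l ∫ v_l(ξ) (1-χ(ξ_{l+1})) H(l, ξ) dP`.
`M_i = ρ^i e^{iθS_i} u(ξ_i) + ∑_{j<i} (1-ρ)ρ^j e^{iθS_j} w(ξ_j)` is a bounded martingale:
`E[φ(ξ_0) w_i (M_{i+1}-M_i)] = 0` by `markov_bdd`; sum with the forward summation identity.
-/

set_option autoImplicit false

open MeasureTheory ProbabilityTheory
open scoped ENNReal NNReal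

namespace Pool.Agent.H45.CLT

variable {S : Type} [MeasurableSpace S]

/-- telescoping over the gap: if `∫ w_j F_{j+1} = ∫ w_j F_j` for all `j` and `‖F‖ ≤ 1` then
`∫ F_{ℓ} dΘ = ∫ w_0 F_0 dP`. -/
theorem Chain.gap6_tele (M : Chain S) (k : Cut S) (F : ℕ → (ℕ → S) → ℂ)
    (hF : ∀ j, Measurable (F j)) (hF1 : ∀ j ξ, ‖F j ξ‖ ≤ 1)
    (hm : ∀ j, ∫ ξ, ((k.w j ξ : ℝ) : ℂ) * F (j + 1) ξ ∂M.P
      = ∫ ξ, ((k.w j ξ : ℝ) : ℂ) * F j ξ ∂M.P) :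
    ∫ p, F (p.1 + 1) p.2 ∂(M.Θ k) = ∫ ξ, ((k.w 0 ξ : ℝ) : ℂ) * F 0 ξ ∂M.P := by
  have hmeas : Measurable (fun p : ℕ × (ℕ → S) => F (p.1 + 1) p.2) :=
    measurable_from_prod_countable_right fun j => hF (j + 1)
  have hint : Integrable (fun p : ℕ × (ℕ → S) => F (p.1 + 1) p.2) (M.Θ k) :=
    Integrable.of_bound hmeas.aestronglyMeasurable 1
      (Filter.Eventually.of_forall fun p => hF1 _ _)
  obtain ⟨-, hs⟩ := M.integral_Θ k _ hint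
  have hwF : ∀ i j, Integrable (fun ξ => ((k.w i ξ : ℝ) : ℂ) * F j ξ) M.P := by
    intro i j
    refine Integrable.of_bound (C := 1) ?_ (Filter.Eventually.of_forall fun ξ => ?_)
    · exact ((Complex.measurable_ofReal.comp (k.measurable_w i)).mul
        (hF j)).aestronglyMeasurable
    · rw [norm_mul, Complex.norm_real, Real.norm_eq_abs, abs_of_nonneg (k.w_nonneg i ξ)]
      have h1 : k.w i ξ ≤ 1 := (k.w_le i ξ).trans (pow_le_one₀ k.hr0 k.hr.le)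
      calc k.w i ξ * ‖F j ξ‖ ≤ 1 * 1 :=
            mul_le_mul h1 (hF1 j ξ) (norm_nonneg _) zero_le_one
        _ = 1 := one_mul 1
  set a : ℕ → ℂ := fun j => ∫ ξ, ((k.w j ξ : ℝ) : ℂ) * F j ξ ∂M.P with ha
  have hterm : ∀ j, ∫ ξ, k.W j ξ • F (j + 1) ξ ∂M.P = a j - a (j + 1) := by
    intro j
    have h1 : ∀ ξ, k.W j ξ • F (j + 1) ξ
        = ((k.w j ξ : ℝ) : ℂ) * F (j + 1) ξ - ((k.w (j + 1) ξ : ℝ) : ℂ) * F (j + 1) ξ := by
      intro ξ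
      rw [k.W_eq, Complex.real_smul, Complex.ofReal_sub, sub_mul]
    simp only [h1]
    rw [integral_sub (hwF _ _) (hwF _ _), hm j]
  have hs' : HasSum (fun j => a j - a (j + 1)) (∫ p, F (p.1 + 1) p.2 ∂(M.Θ k)) := by
    have : (fun j => a j - a (j + 1)) = fun j => ∫ ξ, k.W j ξ • F (j + 1) ξ ∂M.P := by
      funext j
      exact (hterm j).symm
    rw [this]
    exact hs
  have ht := hs'.tendsto_sum_nat
  have hsum : ∀ N, ∑ j ∈ Finset.range N, (a j - a (j + 1)) = a 0 - a N := by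
    intro N
    exact Finset.sum_range_sub' a N
  simp only [hsum] at ht
  have ha0 : Filter.Tendsto a Filter.atTop (nhds 0) := by
    have hb : ∀ N, ‖a N‖ ≤ k.r ^ N := by
      intro N
      have : ∀ᵐ ξ ∂M.P, ‖((k.w N ξ : ℝ) : ℂ) * F N ξ‖ ≤ k.r ^ N :=
        Filter.Eventually.of_forall fun ξ => by
          rw [norm_mul, Complex.norm_real, Real.norm_eq_abs, abs_of_nonneg (k.w_nonneg N ξ)]
          calc k.w N ξ * ‖F N ξ‖ ≤ k.r ^ N * 1 :=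
                mul_le_mul (k.w_le N ξ) (hF1 N ξ) (norm_nonneg _) (pow_nonneg k.hr0 N)
            _ = k.r ^ N := mul_one _
      have h2 := norm_integral_le_of_norm_le_const this
      simpa using h2
    exact squeeze_zero_norm hb (tendsto_pow_atTop_nhds_zero_of_lt_one k.hr0 k.hr)
  have ht2 : Filter.Tendsto (fun N => a 0 - a N) Filter.atTop (nhds (a 0 - 0)) :=
    tendsto_const_nhds.sub ha0
  rw [sub_zero] at ht2
  exact tendsto_nhds_unique ht ht2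

/-- the martingale `M_i` -/
noncomputable def gap6M (ρ θ : ℝ) (f : S → ℝ) (w u : S → ℂ) (n : ℕ) (ξ : ℕ → S) : ℂ :=
  (∑ i ∈ Finset.range n, ((1 - ρ : ℝ) : ℂ) * (ρ : ℂ) ^ i *
      Complex.exp (((θ * ∑ j ∈ Finset.range i, f (ξ j) : ℝ) : ℂ) * Complex.I) * w (ξ i))
    + (ρ : ℂ) ^ n *
      Complex.exp (((θ * ∑ j ∈ Finset.range n, f (ξ j) : ℝ) : ℂ) * Complex.I) * u (ξ n)

theorem gap6_measE (θ : ℝ) (f : S → ℝ) (hf : Measurable f) (i : ℕ) :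
    Measurable (fun ξ : ℕ → S =>
      Complex.exp (((θ * ∑ j ∈ Finset.range i, f (ξ j) : ℝ) : ℂ) * Complex.I)) := by
  have h1 : Measurable (fun ξ : ℕ → S => θ * ∑ j ∈ Finset.range i, f (ξ j)) := by
    refine measurable_const.mul ?_
    exact Finset.measurable_sum _ fun j _ => hf.comp (measurable_pi_apply j)
  exact Complex.measurable_exp.comp ((Complex.measurable_ofReal.comp h1).mul_const _)

theorem gap6_meas (ρ θ : ℝ) (f : S → ℝ) (hf : Measurable f) (w u : S → ℂ)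
    (hw : Measurable w) (hu : Measurable u) (n : ℕ) :
    Measurable (gap6M ρ θ f w u n) := by
  unfold gap6M
  refine Measurable.add ?_ ?_
  · refine Finset.measurable_sum _ fun i _ => ?_
    exact (measurable_const.mul (gap6_measE θ f hf i)).mul (hw.comp (measurable_pi_apply i))
  · exact (measurable_const.mul (gap6_measE θ f hf n)).mul (hu.comp (measurable_pi_apply n))

theorem gap6_norm (ρ θ : ℝ) (hρ0 : 0 ≤ ρ) (hρ1 : ρ ≤ 1) (f : S → ℝ) (w u : S → ℂ)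
    (hw1 : ∀ x, ‖w x‖ ≤ 1) (hu1 : ∀ x, ‖u x‖ ≤ 1) (n : ℕ) (ξ : ℕ → S) :
    ‖gap6M ρ θ f w u n ξ‖ ≤ 1 := by
  unfold gap6M
  have h1 : ∀ i, ‖((1 - ρ : ℝ) : ℂ) * (ρ : ℂ) ^ i *
      Complex.exp (((θ * ∑ j ∈ Finset.range i, f (ξ j) : ℝ) : ℂ) * Complex.I) * w (ξ i)‖
      ≤ (1 - ρ) * ρ ^ i := by
    intro i
    rw [norm_mul, norm_mul, norm_mul, Complex.norm_exp_ofReal_mul_I, Complex.norm_real,
      norm_pow, Complex.norm_real, Real.norm_eq_abs, Real.norm_eq_abs, abs_of_nonneg hρ0,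
      abs_of_nonneg (by linarith : (0 : ℝ) ≤ 1 - ρ), mul_one]
    have h0 : 0 ≤ (1 - ρ) * ρ ^ i := mul_nonneg (by linarith) (pow_nonneg hρ0 i)
    calc (1 - ρ) * ρ ^ i * ‖w (ξ i)‖ ≤ (1 - ρ) * ρ ^ i * 1 :=
          mul_le_mul_of_nonneg_left (hw1 _) h0
      _ = _ := mul_one _
  have h2 : ‖(ρ : ℂ) ^ n *
      Complex.exp (((θ * ∑ j ∈ Finset.range n, f (ξ j) : ℝ) : ℂ) * Complex.I) * u (ξ n)‖
      ≤ ρ ^ n := by
    rw [norm_mul, norm_mul, Complex.norm_exp_ofReal_mul_I, norm_pow, Complex.norm_real,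
      Real.norm_eq_abs, abs_of_nonneg hρ0, mul_one]
    calc ρ ^ n * ‖u (ξ n)‖ ≤ ρ ^ n * 1 :=
          mul_le_mul_of_nonneg_left (hu1 _) (pow_nonneg hρ0 n)
      _ = _ := mul_one _
  have hgeo : ∀ n : ℕ, ∑ i ∈ Finset.range n, (1 - ρ) * ρ ^ i + ρ ^ n = 1 := by
    intro n
    induction n with
    | zero => simp
    | succ m ih =>
        rw [Finset.sum_range_succ, pow_succ]
        linear_combination ih
  calc _ ≤ ∑ i ∈ Finset.range n, (1 - ρ) * ρ ^ i + ρ ^ n := by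
        refine (norm_add_le _ _).trans (add_le_add ?_ h2)
        exact (norm_sum_le _ _).trans (Finset.sum_le_sum fun i _ => h1 i)
    _ = 1 := hgeo n

theorem gap6_succ (ρ θ : ℝ) (f : S → ℝ) (w u : S → ℂ) (n : ℕ) (ξ : ℕ → S) :
    gap6M ρ θ f w u (n + 1) ξ
      = (∑ i ∈ Finset.range (n + 1), ((1 - ρ : ℝ) : ℂ) * (ρ : ℂ) ^ i *
          Complex.exp (((θ * ∑ j ∈ Finset.range i, f (ξ j) : ℝ) : ℂ) * Complex.I) * w (ξ i))
        + ((ρ : ℂ) ^ (n + 1) *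
          Complex.exp (((θ * ∑ j ∈ Finset.range (n + 1), f (ξ j) : ℝ) : ℂ) * Complex.I))
            * u (ξ (n + 1)) := by
  unfold gap6M
  rfl

/-- the martingale property -/
theorem Chain.gap6_mart (M : Chain S) (k : Cut S) (ρ θ : ℝ) (hρ0 : 0 ≤ ρ) (hρ1 : ρ ≤ 1)
    (f : S → ℝ) (hf : Measurable f) (w u : S → ℂ) (hw : Measurable w) (hu : Measurable u)
    (hw1 : ∀ x, ‖w x‖ ≤ 1) (hu1 : ∀ x, ‖u x‖ ≤ 1)
    (hres : ∀ x, u x = ((1 - ρ : ℝ) : ℂ) * w x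
      + (ρ : ℂ) * (Complex.exp (((θ * f x : ℝ) : ℂ) * Complex.I) * ∫ z, u z ∂(M.Q x)))
    (φ : S → ℂ) (hφ : Measurable φ) (hφ1 : ∀ x, ‖φ x‖ ≤ 1) (n : ℕ) :
    ∫ ξ, ((k.w n ξ : ℝ) : ℂ) * (φ (ξ 0) * gap6M ρ θ f w u (n + 1) ξ) ∂M.P
      = ∫ ξ, ((k.w n ξ : ℝ) : ℂ) * (φ (ξ 0) * gap6M ρ θ f w u n ξ) ∂M.P := by
  -- the past factor
  set E : (ℕ → S) → ℂ := fun ξ => (ρ : ℂ) ^ (n + 1) *
    Complex.exp (((θ * ∑ j ∈ Finset.range (n + 1), f (ξ j) : ℝ) : ℂ) * Complex.I) with hE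
  set A : (ℕ → S) → ℂ := fun ξ => ∑ i ∈ Finset.range (n + 1), ((1 - ρ : ℝ) : ℂ) * (ρ : ℂ) ^ i *
    Complex.exp (((θ * ∑ j ∈ Finset.range i, f (ξ j) : ℝ) : ℂ) * Complex.I) * w (ξ i) with hA
  set B : (ℕ → S) → ℂ := fun ξ => ((k.w n ξ : ℝ) : ℂ) * φ (ξ 0) with hB
  have hEm : Measurable E := measurable_const.mul (gap6_measE θ f hf (n + 1))
  have hAm : Measurable A := by
    refine Finset.measurable_sum _ fun i _ => ?_
    exact (measurable_const.mul (gap6_measE θ f hf i)).mul (hw.comp (measurable_pi_apply i))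
  have hBm : Measurable B := (Complex.measurable_ofReal.comp (k.measurable_w n)).mul
    (hφ.comp (measurable_pi_apply 0))
  have hB1 : ∀ ξ, ‖B ξ‖ ≤ 1 := by
    intro ξ
    rw [hB]
    simp only []
    rw [norm_mul, Complex.norm_real, Real.norm_eq_abs, abs_of_nonneg (k.w_nonneg n ξ)]
    have h1 : k.w n ξ ≤ 1 := (k.w_le n ξ).trans (pow_le_one₀ k.hr0 k.hr.le)
    calc k.w n ξ * ‖φ (ξ 0)‖ ≤ 1 * 1 :=
          mul_le_mul h1 (hφ1 _) (norm_nonneg _) zero_le_one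
      _ = 1 := one_mul 1
  have hE1 : ∀ ξ, ‖E ξ‖ ≤ 1 := by
    intro ξ
    rw [hE]
    simp only []
    rw [norm_mul, Complex.norm_exp_ofReal_mul_I, norm_pow, Complex.norm_real,
      Real.norm_eq_abs, abs_of_nonneg hρ0, mul_one]
    exact pow_le_one₀ hρ0 hρ1
  have hBEfr : ∀ ξ, B (fr n ξ) * E (fr n ξ) = B ξ * E ξ := by
    intro ξ
    have h1 : B (fr n ξ) = B ξ := by
      rw [hB]
      simp only []
      rw [k.w_fr]
      have : fr n ξ 0 = ξ 0 := by simp [fr]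
      rw [this]
    have h2 : E (fr n ξ) = E ξ := by
      rw [hE]
      simp only []
      have : ∑ j ∈ Finset.range (n + 1), f (fr n ξ j) = ∑ j ∈ Finset.range (n + 1), f (ξ j) := by
        refine Finset.sum_congr rfl fun j hj => ?_
        rw [Finset.mem_range] at hj
        unfold fr
        rw [min_eq_right (by omega)]
      rw [this]
    rw [h1, h2]
  have hBEi : Integrable (fun ξ => B ξ * E ξ) M.P :=
    Integrable.of_bound (hBm.mul hEm).aestronglyMeasurable 1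
      (Filter.Eventually.of_forall fun ξ => by
        rw [norm_mul]
        calc ‖B ξ‖ * ‖E ξ‖ ≤ 1 * 1 := mul_le_mul (hB1 ξ) (hE1 ξ) (norm_nonneg _) zero_le_one
          _ = 1 := one_mul 1)
  have hmk := M.markov_bdd n (fun ξ => B ξ * E ξ) (hBm.mul hEm) hBEfr hBEi u hu ⟨1, hu1⟩
  have hMn1 := gap6_meas ρ θ f hf w u hw hu (n + 1)
  have hMn := gap6_meas ρ θ f hf w u hw hu n
  -- difference
  have hQu : ∀ ξ : ℕ → S, gap6M ρ θ f w u n ξ = A ξ + E ξ * ∫ z, u z ∂(M.Q (ξ n)) := by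
    intro ξ
    rw [hA, hE]
    simp only []
    unfold gap6M
    rw [Finset.sum_range_succ, hres (ξ n), Finset.sum_range_succ (fun j => f (ξ j)) n,
      mul_add θ, Complex.ofReal_add, add_mul, Complex.exp_add, pow_succ]
    ring
  have hQ1 : ∀ ξ : ℕ → S, gap6M ρ θ f w u (n + 1) ξ = A ξ + E ξ * u (ξ (n + 1)) := by
    intro ξ
    exact gap6_succ ρ θ f w u n ξ
  have hQm : Measurable (fun x => ∫ z, u z ∂(M.Q x)) :=
    (hu.stronglyMeasurable.integral_kernel (κ := M.Q)).measurable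
  have hQb : ∀ x, ‖∫ z, u z ∂(M.Q x)‖ ≤ 1 := by
    intro x
    have := norm_integral_le_of_norm_le_const (μ := M.Q x) (f := u) (C := 1)
      (Filter.Eventually.of_forall fun z => hu1 z)
    simpa using this
  have hn1 := fun ξ => gap6_norm ρ θ hρ0 hρ1 f w u hw1 hu1 (n + 1) ξ
  have hBA : Integrable (fun ξ => B ξ * A ξ) M.P := by
    refine Integrable.of_bound (C := 2) (hBm.mul hAm).aestronglyMeasurable
      (Filter.Eventually.of_forall fun ξ => ?_)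
    have hA2 : ‖A ξ‖ ≤ 2 := by
      have h1 : A ξ = gap6M ρ θ f w u (n + 1) ξ - E ξ * u (ξ (n + 1)) := by
        rw [hQ1]; ring
      rw [h1]
      refine (norm_sub_le _ _).trans ?_
      have h2 : ‖E ξ * u (ξ (n + 1))‖ ≤ 1 := by
        rw [norm_mul]
        calc ‖E ξ‖ * ‖u (ξ (n + 1))‖ ≤ 1 * 1 :=
              mul_le_mul (hE1 ξ) (hu1 _) (norm_nonneg _) zero_le_one
          _ = 1 := one_mul 1
      linarith [hn1 ξ]
    rw [norm_mul]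
    calc ‖B ξ‖ * ‖A ξ‖ ≤ 1 * 2 := mul_le_mul (hB1 ξ) hA2 (norm_nonneg _) zero_le_one
      _ = 2 := one_mul 2
  have hint1 : Integrable (fun ξ => B ξ * E ξ * u (ξ (n + 1))) M.P :=
    hBEi.mul_bdd (c := 1) (hu.comp (measurable_pi_apply (n + 1))).aestronglyMeasurable
      (Filter.Eventually.of_forall fun ξ => hu1 _)
  have hint2 : Integrable (fun ξ => B ξ * E ξ * ∫ z, u z ∂(M.Q (ξ n))) M.P :=
    hBEi.mul_bdd (c := 1) (hQm.comp (measurable_pi_apply n)).aestronglyMeasurable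
      (Filter.Eventually.of_forall fun ξ => hQb _)
  have e1 : ∀ ξ : ℕ → S, ((k.w n ξ : ℝ) : ℂ) * (φ (ξ 0) * gap6M ρ θ f w u (n + 1) ξ)
      = B ξ * A ξ + B ξ * E ξ * u (ξ (n + 1)) := by
    intro ξ
    rw [hQ1]
    simp only [hB]
    ring
  have e2 : ∀ ξ : ℕ → S, ((k.w n ξ : ℝ) : ℂ) * (φ (ξ 0) * gap6M ρ θ f w u n ξ)
      = B ξ * A ξ + B ξ * E ξ * ∫ z, u z ∂(M.Q (ξ n)) := by
    intro ξ
    rw [hQu]
    simp only [hB]
    ring
  simp only [e1, e2]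
  rw [integral_add hBA hint1, integral_add hBA hint2, hmk]

/-- the gap equation of the resolvent `u = (1-ρ) w + ρ e^{iθf} Qu` -/
theorem Chain.gap_eq (M : Chain S) (k : Cut S) (ρ θ : ℝ) (hρ0 : 0 ≤ ρ) (hρ1 : ρ ≤ 1)
    (f : S → ℝ) (hf : Measurable f) (w u : S → ℂ) (hw : Measurable w) (hu : Measurable u)
    (hw1 : ∀ x, ‖w x‖ ≤ 1) (hu1 : ∀ x, ‖u x‖ ≤ 1)
    (hres : ∀ x, u x = ((1 - ρ : ℝ) : ℂ) * w x
      + (ρ : ℂ) * (Complex.exp (((θ * f x : ℝ) : ℂ) * Complex.I) * ∫ z, u z ∂(M.Q x)))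
    (φ : S → ℂ) (hφ : Measurable φ) (hφ1 : ∀ x, ‖φ x‖ ≤ 1) :
    ∫ p, φ (p.2 0) * u (p.2 0) ∂(M.Θ k)
      = ∫ p, φ (p.2 0) *
          ((∑ i ∈ Finset.range (p.1 + 1), ((1 - ρ : ℝ) : ℂ) * (ρ : ℂ) ^ i *
              Complex.exp (((θ * ∑ j ∈ Finset.range i, f (p.2 j) : ℝ) : ℂ) * Complex.I)
                * w (p.2 i))
            + (ρ : ℂ) ^ (p.1 + 1) *
              Complex.exp (((θ * ∑ j ∈ Finset.range (p.1 + 1), f (p.2 j) : ℝ) : ℂ) * Complex.I)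
                * u (p.2 (p.1 + 1))) ∂(M.Θ k) := by
  have hn1 : ∀ (j : ℕ) (ξ : ℕ → S), ‖φ (ξ 0) * gap6M ρ θ f w u j ξ‖ ≤ 1 := by
    intro j ξ
    rw [norm_mul]
    calc ‖φ (ξ 0)‖ * ‖gap6M ρ θ f w u j ξ‖ ≤ 1 * 1 :=
          mul_le_mul (hφ1 _) (gap6_norm ρ θ hρ0 hρ1 f w u hw1 hu1 j ξ) (norm_nonneg _) zero_le_one
      _ = 1 := one_mul 1
  have hR := M.gap6_tele k (fun j ξ => φ (ξ 0) * gap6M ρ θ f w u j ξ)
    (fun j => (hφ.comp (measurable_pi_apply 0)).mul (gap6_meas ρ θ f hf w u hw hu j)) hn1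
    (fun j => M.gap6_mart k ρ θ hρ0 hρ1 f hf w u hw hu hw1 hu1 hres φ hφ hφ1 j)
  have hL := M.gap6_tele k (fun _ ξ => φ (ξ 0) * u (ξ 0))
    (fun j => (hφ.comp (measurable_pi_apply 0)).mul (hu.comp (measurable_pi_apply 0)))
    (fun j ξ => by
      rw [norm_mul]
      calc ‖φ (ξ 0)‖ * ‖u (ξ 0)‖ ≤ 1 * 1 :=
            mul_le_mul (hφ1 _) (hu1 _) (norm_nonneg _) zero_le_one
        _ = 1 := one_mul 1)
    (fun j => rfl)
  have h0 : ∀ ξ : ℕ → S, gap6M ρ θ f w u 0 ξ = u (ξ 0) := by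
    intro ξ
    unfold gap6M
    simp
  simp only [h0] at hR
  rw [hL, ← hR]
  rfl

end Pool.Agent.H45.CLT
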