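import Pool.Agent.H45.CLT.Base
import Pool.Agent.H43.CLT.Hardy

/-!
# Module HARDY: pointwise Hardy inequality.
(helper43 has it already: Pool/Agent/H43/CLT/Hardy.lean)
-/

set_option autoImplicit false

open MeasureTheory ProbabilityTheory
open scoped ENNReal NNReal

namespace Pool.Agent.H45.CLT

variable {S : Type} [MeasurableSpace S]

/-- Hardy's inequality, pointwise: with a universal constant,
`∑_i 2^{-i} (∑_q r_i^q |x_q|)² ≤ H ∑_q x_q²`.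
Proof: `(∑ r^q|x_q|)² ≤ (∑ r^q (q+1)^{-1/2}) (∑ r^q (q+1)^{1/2} x_q²)`, the first factor is
`≤ c 2^{i/2}`, and `∑_i 2^{-i/2} r_i^q ≤ c (q+1)^{-1/2}`. -/
theorem hardy : ∃ H : ℝ, 0 < H ∧ ∀ x : ℕ → ℝ, Summable (fun q => (x q) ^ 2) →
    ∀ J : ℕ, ∑ i ∈ Finset.range J, (1 / 2 : ℝ) ^ i * (∑' q, (rr i) ^ q * |x q|) ^ 2
      ≤ H * ∑' q, (x q) ^ 2 :=
  ⟨42, by norm_num, fun x hx J => Pool.Agent.H43.CLT.hardy J x hx⟩

end Pool.Agent.H45.CLT
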