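import Pool.Agent.H45.CLT.Pot1
import Pool.Agent.H45.CLT.Hardy

/-!
# Module POT2: covariances, uniform bounds, Hardy sums.
`f = G - r QG` gives `‖QG‖² = r^{-2}(‖G‖² - 2⟨f,G⟩ + ‖f‖²)` so
`‖G‖²-‖QG‖² = (1-r^{-2})‖G‖² + r^{-2}(2⟨f,G⟩-‖f‖²) ≤ 8 ∑_q |⟨f,β_q⟩|` for `r ≥ 1/2`; same for `G*`
(`⟨f,α_p⟩ = ⟨f,β_p⟩`).
-/

set_option autoImplicit false

open MeasureTheory ProbabilityTheory
open scoped ENNReal NNReal

namespace Pool.Agent.H45.CLT

variable {S : Type} [MeasurableSpace S]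

namespace Model

variable (M : Model S)

/-- `⟨f, β_{a+b}⟩ = ⟨α_a, β_b⟩` -/
theorem cov_split (a b : ℕ) :
    ∫ x, M.f x * M.β (a + b) x ∂M.ν = ∫ x, M.α a x * M.β b x ∂M.ν := by
  induction a generalizing b with
  | zero => rw [zero_add]; rfl
  | succ a ih =>
    have h := M.toChain.adj (M.hβ b) (M.hα a)
    rw [← h, ← ih (b + 1)]
    have e : a + 1 + b = a + (b + 1) := by omega
    rw [e]

/-- `⟨f, α_p⟩ = ⟨f, β_p⟩` -/
theorem cov_symm (p : ℕ) :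
    ∫ x, M.f x * M.α p x ∂M.ν = ∫ x, M.f x * M.β p x ∂M.ν := by
  have h := M.cov_split p 0
  rw [add_zero] at h
  rw [h]
  refine integral_congr_ae (Filter.Eventually.of_forall fun x => ?_)
  simp only []
  rw [M.f_eq, mul_comm]

theorem integrable_β_sq (q : ℕ) : Integrable (fun x => (M.β q x) ^ 2) M.ν :=
  (M.memLp_β q).integrable_sq

theorem integrable_α_sq (q : ℕ) : Integrable (fun x => (M.α q x) ^ 2) M.ν :=
  (M.memLp_α q).integrable_sq

theorem int_β_sq_le (q : ℕ) : ∫ x, (M.β q x) ^ 2 ∂M.ν ≤ ∫ x, M.C x ∂M.ν :=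
  integral_mono (M.integrable_β_sq q) M.integrable_C fun x => M.β_sq_le q x

theorem int_α_sq_le (q : ℕ) : ∫ x, (M.α q x) ^ 2 ∂M.ν ≤ ∫ x, M.A x ∂M.ν :=
  integral_mono (M.integrable_α_sq q) M.integrable_A fun x => M.α_sq_le q x

theorem summable_int_β_sq : Summable fun q => ∫ x, (M.β q x) ^ 2 ∂M.ν := by
  refine summable_of_sum_range_le (c := ∫ x, M.C x ∂M.ν)
    (fun q => integral_nonneg fun x => sq_nonneg _) fun n => ?_
  rw [← integral_finsetSum _ fun q _ => M.integrable_β_sq q]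
  refine integral_mono (integrable_finsetSum _ fun q _ => M.integrable_β_sq q)
    M.integrable_C fun x => ?_
  exact (M.sβ x).sum_le_tsum _ fun q _ => sq_nonneg _

theorem summable_int_α_sq : Summable fun q => ∫ x, (M.α q x) ^ 2 ∂M.ν := by
  refine summable_of_sum_range_le (c := ∫ x, M.A x ∂M.ν)
    (fun q => integral_nonneg fun x => sq_nonneg _) fun n => ?_
  rw [← integral_finsetSum _ fun q _ => M.integrable_α_sq q]
  refine integral_mono (integrable_finsetSum _ fun q _ => M.integrable_α_sq q)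
    M.integrable_A fun x => ?_
  exact (M.sα x).sum_le_tsum _ fun q _ => sq_nonneg _

/-- `|∫ g h| ≤ (∫ g² + ∫ h²)/2`, and the same for `∫ |g h|` -/
theorem _root_.Pool.Agent.H45.CLT.int_abs_mul_le {Ω : Type*} [MeasurableSpace Ω] {μ : Measure Ω}
    {g h : Ω → ℝ} (hg : MemLp g 2 μ) (hh : MemLp h 2 μ) :
    ∫ ω, ‖g ω * h ω‖ ∂μ ≤ (∫ ω, (g ω) ^ 2 ∂μ + ∫ ω, (h ω) ^ 2 ∂μ) / 2 := by
  have i1 := hg.integrable_sq
  have i2 := hh.integrable_sq
  rw [← integral_add i1 i2, ← integral_div]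
  refine integral_mono (hg.integrable_mul hh).norm ((i1.add i2).div_const 2) fun ω => ?_
  simp only [Real.norm_eq_abs]
  rw [abs_mul]
  have := sq_nonneg (|g ω| - |h ω|)
  have e1 := sq_abs (g ω)
  have e2 := sq_abs (h ω)
  nlinarith

theorem _root_.Pool.Agent.H45.CLT.abs_int_mul_le {Ω : Type*} [MeasurableSpace Ω] {μ : Measure Ω}
    {g h : Ω → ℝ} (hg : MemLp g 2 μ) (hh : MemLp h 2 μ) :
    |∫ ω, g ω * h ω ∂μ| ≤ (∫ ω, (g ω) ^ 2 ∂μ + ∫ ω, (h ω) ^ 2 ∂μ) / 2 := by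
  have h1 := norm_integral_le_integral_norm (μ := μ) (fun ω => g ω * h ω)
  rw [Real.norm_eq_abs] at h1
  exact h1.trans (int_abs_mul_le hg hh)

/-- the covariances are absolutely summable -/
theorem summable_cov : Summable fun l => |∫ x, M.f x * M.β l x ∂M.ν| := by
  have hα := M.summable_int_α_sq
  have hβ := M.summable_int_β_sq
  have hb : ∀ a b : ℕ, |∫ x, M.f x * M.β (a + b) x ∂M.ν|
      ≤ (∫ x, (M.α a x) ^ 2 ∂M.ν + ∫ x, (M.β b x) ^ 2 ∂M.ν) / 2 := by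
    intro a b
    rw [M.cov_split a b]
    exact abs_int_mul_le (M.memLp_α a) (M.memLp_β b)
  refine Summable.even_add_odd ?_ ?_
  · refine Summable.of_nonneg_of_le (fun k => abs_nonneg _) (fun k => ?_)
      ((hα.add hβ).div_const 2)
    have := hb k k
    rwa [← two_mul] at this
  · have hβ' := (summable_nat_add_iff 1).mpr hβ
    refine Summable.of_nonneg_of_le (fun k => abs_nonneg _) (fun k => ?_)
      ((hα.add hβ').div_const 2)
    have := hb k (k + 1)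
    have e : k + (k + 1) = 2 * k + 1 := by ring
    rwa [e] at this

/-- `⟨f, ∑ r^q γ_q⟩ = ∑ r^q ⟨f, γ_q⟩` -/
theorem int_f_tsum (γ : ℕ → S → ℝ) (hγ : ∀ q, MemLp (γ q) 2 M.ν) (c : ℝ)
    (hc : ∀ q, ∫ x, (γ q x) ^ 2 ∂M.ν ≤ c) (r : ℝ) (h0 : 0 ≤ r) (h1 : r < 1) :
    ∫ x, M.f x * (∑' q, r ^ q * γ q x) ∂M.ν = ∑' q, r ^ q * ∫ x, M.f x * γ q x ∂M.ν := by
  have hi : ∀ q, Integrable (fun x => r ^ q * (M.f x * γ q x)) M.ν := fun q =>
    (M.memLp_f.integrable_mul (hγ q)).const_mul _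
  have hs : Summable fun q => ∫ x, ‖r ^ q * (M.f x * γ q x)‖ ∂M.ν := by
    refine Summable.of_nonneg_of_le (fun q => integral_nonneg fun x => norm_nonneg _)
      (fun q => ?_) ((summable_geometric_of_lt_one h0 h1).mul_right
        ((∫ x, (M.f x) ^ 2 ∂M.ν + c) / 2))
    simp_rw [norm_mul (r ^ q), Real.norm_of_nonneg (pow_nonneg h0 q)]
    rw [integral_const_mul]
    refine mul_le_mul_of_nonneg_left ?_ (pow_nonneg h0 q)
    refine (int_abs_mul_le M.memLp_f (hγ q)).trans ?_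
    have := hc q
    linarith
  have h := integral_tsum_of_summable_integral_norm hi hs
  simp_rw [integral_const_mul] at h
  rw [h]
  refine integral_congr_ae (Filter.Eventually.of_forall fun x => ?_)
  simp only []
  rw [← tsum_mul_left]
  refine tsum_congr fun q => ?_
  ring

theorem int_f_G (r : ℝ) (h0 : 0 ≤ r) (h1 : r < 1) :
    ∫ x, M.f x * M.G r x ∂M.ν = ∑' q, r ^ q * ∫ x, M.f x * M.β q x ∂M.ν :=
  M.int_f_tsum M.β M.memLp_β _ M.int_β_sq_le r h0 h1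

theorem int_f_Gs (r : ℝ) (h0 : 0 ≤ r) (h1 : r < 1) :
    ∫ x, M.f x * M.Gs r x ∂M.ν = ∑' q, r ^ q * ∫ x, M.f x * M.β q x ∂M.ν := by
  have h := M.int_f_tsum M.α M.memLp_α _ M.int_α_sq_le r h0 h1
  simp_rw [M.cov_symm] at h
  exact h

theorem abs_tsum_cov_le (r : ℝ) (h0 : 0 ≤ r) (h1 : r < 1) :
    |∑' q, r ^ q * ∫ x, M.f x * M.β q x ∂M.ν| ≤ ∑' l, |∫ x, M.f x * M.β l x ∂M.ν| := by
  have hs := M.summable_cov
  have hb : ∀ q, ‖r ^ q * ∫ x, M.f x * M.β q x ∂M.ν‖ ≤ |∫ x, M.f x * M.β q x ∂M.ν| := by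
    intro q
    rw [norm_mul, Real.norm_of_nonneg (pow_nonneg h0 q), Real.norm_eq_abs]
    exact mul_le_of_le_one_left (abs_nonneg _) (pow_le_one₀ h0 h1.le)
  have := tsum_of_norm_bounded hs.hasSum hb
  rwa [Real.norm_eq_abs] at this

/-- uniform bound for the norms of the martingale differences
`‖D_r‖² = ‖G_r‖² - ‖QG_r‖² ≤ r^{-2} 2|⟨f,G_r⟩|`, same for the backward ones -/
theorem D_bound : ∃ D : ℝ, 0 < D ∧ ∀ r : ℝ, 1 / 2 ≤ r → r < 1 →
    (∫ x, (M.G r x) ^ 2 ∂M.ν - ∫ x, (M.G1 r x) ^ 2 ∂M.ν ≤ D) ∧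
    (∫ x, (M.Gs r x) ^ 2 ∂M.ν - ∫ x, (M.Gs1 r x) ^ 2 ∂M.ν ≤ D) := by
  set T := ∑' l, |∫ x, M.f x * M.β l x ∂M.ν| with hT
  have hT0 : 0 ≤ T := tsum_nonneg fun l => abs_nonneg _
  -- abstract statement
  have main : ∀ (r : ℝ) (g g1 : S → ℝ), 1 / 2 ≤ r → r < 1 → MemLp g 2 M.ν → MemLp g1 2 M.ν →
      (∀ x, g x = M.f x + r * g1 x) → |∫ x, M.f x * g x ∂M.ν| ≤ T →
      ∫ x, (g x) ^ 2 ∂M.ν - ∫ x, (g1 x) ^ 2 ∂M.ν ≤ 8 * T + 1 := by
    intro r g g1 hr hr1 hg hg1 he hc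
    have i1 := hg.integrable_sq
    have i2 : Integrable (fun x => M.f x * g x) M.ν := M.memLp_f.integrable_mul hg
    have i3 := M.memLp_f.integrable_sq
    have e : r ^ 2 * ∫ x, (g1 x) ^ 2 ∂M.ν
        = ∫ x, (g x) ^ 2 ∂M.ν - 2 * ∫ x, M.f x * g x ∂M.ν + ∫ x, (M.f x) ^ 2 ∂M.ν := by
      have i12 : Integrable (fun x => (g x) ^ 2 - 2 * (M.f x * g x)) M.ν :=
        i1.sub (i2.const_mul 2)
      rw [← integral_const_mul, ← integral_const_mul, ← integral_sub i1 (i2.const_mul 2),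
        ← integral_add i12 i3]
      refine integral_congr_ae (Filter.Eventually.of_forall fun x => ?_)
      simp only []
      rw [he x]
      ring
    have hf : 0 ≤ ∫ x, (M.f x) ^ 2 ∂M.ν := integral_nonneg fun x => sq_nonneg _
    have hgg : 0 ≤ ∫ x, (g x) ^ 2 ∂M.ν := integral_nonneg fun x => sq_nonneg _
    have hc1 := (abs_le.mp hc).2
    set a := ∫ x, (g x) ^ 2 ∂M.ν
    set b := ∫ x, (g1 x) ^ 2 ∂M.ν
    set c := ∫ x, M.f x * g x ∂M.ν
    set d := ∫ x, (M.f x) ^ 2 ∂M.ν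
    -- r² (a - b) = (r² - 1) a + 2 c - d ≤ 2 T
    have h2 : r ^ 2 * (a - b) ≤ 2 * T := by
      have : r ^ 2 * (a - b) = (r ^ 2 - 1) * a + 2 * c - d := by
        rw [mul_sub, e]; ring
      rw [this]
      have h3 : (r ^ 2 - 1) * a ≤ 0 := mul_nonpos_of_nonpos_of_nonneg (by nlinarith) hgg
      linarith
    by_contra hcon
    rw [not_le] at hcon
    have h4 : 1 / 4 ≤ r ^ 2 := by nlinarith
    have h5 : 0 < a - b := by linarith
    nlinarith
  refine ⟨8 * T + 1, by positivity, fun r hr hr1 => ⟨?_, ?_⟩⟩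
  · have h0 : 0 ≤ r := by linarith
    refine main r _ _ hr hr1 (M.memLp_G r h0 hr1) (M.memLp_G1 r h0 hr1) (M.G_eq r h0 hr1) ?_
    rw [M.int_f_G r h0 hr1]
    exact M.abs_tsum_cov_le r h0 hr1
  · have h0 : 0 ≤ r := by linarith
    refine main r _ _ hr hr1 (M.memLp_Gs r h0 hr1) (M.memLp_Gs1 r h0 hr1) (M.Gs_eq r h0 hr1) ?_
    rw [M.int_f_Gs r h0 hr1]
    exact M.abs_tsum_cov_le r h0 hr1

/-- `E[f(ξ_0) β_q(ξ_l)] = ⟨f, β_{q+l}⟩` -/
theorem cov_path0 (q l : ℕ) :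
    ∫ ξ, M.f (ξ 0) * M.β q (ξ l) ∂M.P = ∫ x, M.f x * M.β (q + l) x ∂M.ν := by
  induction l generalizing q with
  | zero =>
    rw [add_zero]
    exact M.toChain.integral_eval 0 (g := fun x => M.f x * M.β q x)
      (M.measurable_f.mul (M.measurable_β q))
  | succ l ih =>
    have h := (M.hβ q).orth_real l (fun ξ => M.f (ξ 0)) (M.measurable_f.comp (measurable_pi_apply 0))
      (fun ξ => by simp [fr]) (M.toChain.memLp_eval M.memLp_f 0)
    have i1 : Integrable (fun ξ : ℕ → S => M.f (ξ 0) * M.β q (ξ (l + 1))) M.P :=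
      (M.toChain.memLp_eval M.memLp_f 0).integrable_mul (M.toChain.memLp_eval (M.memLp_β q) (l + 1))
    have i2 : Integrable (fun ξ : ℕ → S => M.f (ξ 0) * M.β (q + 1) (ξ l)) M.P :=
      (M.toChain.memLp_eval M.memLp_f 0).integrable_mul (M.toChain.memLp_eval (M.memLp_β (q + 1)) l)
    simp_rw [mul_sub] at h
    rw [integral_sub i1 i2, ih (q + 1), sub_eq_zero] at h
    rw [h]
    have e : q + 1 + l = q + (l + 1) := by omega
    rw [e]

/-- `E[f(ξ_i) f(ξ_{i+l})] = ⟨f, β_l⟩` -/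
theorem cov_path (i l : ℕ) :
    ∫ ξ, M.f (ξ i) * M.f (ξ (i + l)) ∂M.P = ∫ x, M.f x * M.β l x ∂M.ν := by
  have h := M.cov_path0 0 l
  rw [zero_add] at h
  rw [← h]
  have hm : Measurable fun ξ : ℕ → S => M.f (ξ 0) * M.β 0 (ξ l) :=
    (M.measurable_f.comp (measurable_pi_apply 0)).mul ((M.measurable_β 0).comp
      (measurable_pi_apply l))
  have h2 := integral_map (μ := M.P) (measurable_sh i).aemeasurable hm.aestronglyMeasurable
  rw [(M.toChain.mp_sh i).map_eq] at h2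
  rw [h2]
  refine integral_congr_ae (Filter.Eventually.of_forall fun ξ => ?_)
  simp only [sh, add_zero]
  rw [← M.f_eq]

/-- `E S_j² ≤ D j` -/
theorem var_le : ∃ D : ℝ, 0 < D ∧ ∀ j : ℕ,
    ∫ ξ, (∑ i ∈ Finset.range j, M.f (ξ i)) ^ 2 ∂M.P ≤ D * j := by
  set T := ∑' l, |∫ x, M.f x * M.β l x ∂M.ν| with hT
  have hT0 : 0 ≤ T := tsum_nonneg fun l => abs_nonneg _
  have hs := M.summable_cov
  refine ⟨2 * T + ∫ x, (M.f x) ^ 2 ∂M.ν + 1, ?_, fun j => ?_⟩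
  · have : 0 ≤ ∫ x, (M.f x) ^ 2 ∂M.ν := integral_nonneg fun x => sq_nonneg _
    linarith
  induction j with
  | zero => simp
  | succ j ih =>
    have lf : ∀ i, MemLp (fun ξ : ℕ → S => M.f (ξ i)) 2 M.P := fun i =>
      M.toChain.memLp_eval M.memLp_f i
    have lS : MemLp (fun ξ : ℕ → S => ∑ i ∈ Finset.range j, M.f (ξ i)) 2 M.P :=
      memLp_finsetSum _ fun i _ => lf i
    have i1 := lS.integrable_sq
    have i2 : Integrable (fun ξ : ℕ → S => (∑ i ∈ Finset.range j, M.f (ξ i)) * M.f (ξ j)) M.P :=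
      lS.integrable_mul (lf j)
    have i3 := (lf j).integrable_sq
    have e : ∫ ξ, (∑ i ∈ Finset.range (j + 1), M.f (ξ i)) ^ 2 ∂M.P
        = ∫ ξ, (∑ i ∈ Finset.range j, M.f (ξ i)) ^ 2 ∂M.P
          + 2 * ∫ ξ, (∑ i ∈ Finset.range j, M.f (ξ i)) * M.f (ξ j) ∂M.P
          + ∫ ξ, (M.f (ξ j)) ^ 2 ∂M.P := by
      have i12 : Integrable (fun ξ : ℕ → S => (∑ i ∈ Finset.range j, M.f (ξ i)) ^ 2
        + 2 * ((∑ i ∈ Finset.range j, M.f (ξ i)) * M.f (ξ j))) M.P := i1.add (i2.const_mul 2)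
      rw [← integral_const_mul, ← integral_add i1 (i2.const_mul 2), ← integral_add i12 i3]
      refine integral_congr_ae (Filter.Eventually.of_forall fun ξ => ?_)
      simp only []
      rw [Finset.sum_range_succ]
      ring
    have e2 : ∫ ξ, (∑ i ∈ Finset.range j, M.f (ξ i)) * M.f (ξ j) ∂M.P ≤ T := by
      have e3 : ∫ ξ, (∑ i ∈ Finset.range j, M.f (ξ i)) * M.f (ξ j) ∂M.P
          = ∑ i ∈ Finset.range j, ∫ x, M.f x * M.β (j - i) x ∂M.ν := by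
        simp_rw [Finset.sum_mul]
        have ii : ∀ i ∈ Finset.range j,
            Integrable (fun ξ : ℕ → S => M.f (ξ i) * M.f (ξ j)) M.P := fun i _ =>
          (lf i).integrable_mul (lf j)
        rw [integral_finsetSum _ ii]
        refine Finset.sum_congr rfl fun i hi => ?_
        have hij : i < j := Finset.mem_range.mp hi
        have h := M.cov_path i (j - i)
        rwa [Nat.add_sub_cancel' hij.le] at h
      rw [e3]
      calc ∑ i ∈ Finset.range j, ∫ x, M.f x * M.β (j - i) x ∂M.ν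
          ≤ ∑ i ∈ Finset.range j, |∫ x, M.f x * M.β (j - i) x ∂M.ν| :=
            Finset.sum_le_sum fun i _ => le_abs_self _
        _ = ∑ l ∈ (Finset.range j).image (fun i => j - i), |∫ x, M.f x * M.β l x ∂M.ν| := by
            rw [Finset.sum_image]
            intro a ha b hb hab
            have ha' := Finset.mem_range.mp ha
            have hb' := Finset.mem_range.mp hb
            simp only at hab
            omega
        _ ≤ T := hs.sum_le_tsum _ fun l _ => abs_nonneg _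
    have e4 : ∫ ξ, (M.f (ξ j)) ^ 2 ∂M.P = ∫ x, (M.f x) ^ 2 ∂M.ν :=
      M.toChain.integral_eval j (g := fun x => (M.f x) ^ 2) (M.measurable_f.pow_const 2)
    rw [e, e4]
    push_cast
    nlinarith

theorem e_nonneg (i : ℕ) : 0 ≤ M.e i := by
  unfold e
  have h1 : 0 ≤ ∫ x, (M.G (rr i) x) ^ 2 ∂M.ν := integral_nonneg fun x => sq_nonneg _
  have h2 : 0 ≤ ∫ x, (M.Gs (rr i) x) ^ 2 ∂M.ν := integral_nonneg fun x => sq_nonneg _
  positivity

theorem two_pow_mul_e (i : ℕ) : 2 ^ i * M.e i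
    = ∫ x, (M.G (rr i) x) ^ 2 ∂M.ν + ∫ x, (M.Gs (rr i) x) ^ 2 ∂M.ν := by
  unfold e
  rw [← mul_assoc, ← mul_pow]
  norm_num

theorem int_G_le (i : ℕ) : ∫ x, (M.G (rr i) x) ^ 2 ∂M.ν ≤ 2 ^ i * M.e i := by
  rw [M.two_pow_mul_e]
  have h2 : 0 ≤ ∫ x, (M.Gs (rr i) x) ^ 2 ∂M.ν := integral_nonneg fun x => sq_nonneg _
  linarith

theorem int_Gs_le (i : ℕ) : ∫ x, (M.Gs (rr i) x) ^ 2 ∂M.ν ≤ 2 ^ i * M.e i := by
  rw [M.two_pow_mul_e]
  have h2 : 0 ≤ ∫ x, (M.G (rr i) x) ^ 2 ∂M.ν := integral_nonneg fun x => sq_nonneg _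
  linarith

theorem int_G1_le (i : ℕ) : ∫ x, (M.G1 (rr i) x) ^ 2 ∂M.ν ≤ 2 ^ i * M.e i :=
  (M.fwd_G (rr i) (rr_nonneg i) (rr_lt_one i)).sq_le.trans (M.int_G_le i)

theorem int_Gs1_le (i : ℕ) : ∫ x, (M.Gs1 (rr i) x) ^ 2 ∂M.ν ≤ 2 ^ i * M.e i :=
  (M.bwd_Gs (rr i) (rr_nonneg i) (rr_lt_one i)).sq_le.trans (M.int_Gs_le i)

theorem _root_.Pool.Agent.H45.CLT.summable_pow_mul_of_sq {x : ℕ → ℝ}
    (hx : Summable fun q => (x q) ^ 2) (r : ℝ) (h0 : 0 ≤ r) (h1 : r < 1) :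
    Summable fun q => r ^ q * |x q| := by
  have hr2 : r ^ 2 < 1 := by nlinarith
  have hg := summable_geometric_of_lt_one (sq_nonneg r) hr2
  refine Summable.of_nonneg_of_le (fun q => mul_nonneg (pow_nonneg h0 q) (abs_nonneg _))
    (fun q => ?_) (hg.add hx)
  have h2 : (r ^ 2) ^ q = (r ^ q) ^ 2 := by ring
  have h3 := sq_abs (x q)
  have h4 := pow_nonneg h0 q
  rw [h2]
  nlinarith [sq_nonneg (r ^ q - |x q|), abs_nonneg (x q), mul_nonneg h4 (abs_nonneg (x q))]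

theorem _root_.Pool.Agent.H45.CLT.tsum_sq_le_abs {x : ℕ → ℝ}
    (hx : Summable fun q => (x q) ^ 2) (r : ℝ) (h0 : 0 ≤ r) (h1 : r < 1) :
    (∑' q, r ^ q * x q) ^ 2 ≤ (∑' q, r ^ q * |x q|) ^ 2 := by
  have hs := summable_pow_mul_of_sq hx r h0 h1
  have hb : ∀ q, ‖r ^ q * x q‖ ≤ r ^ q * |x q| := fun q => by
    rw [norm_mul, Real.norm_of_nonneg (pow_nonneg h0 q), Real.norm_eq_abs]
  have h := tsum_of_norm_bounded hs.hasSum hb
  rw [Real.norm_eq_abs] at h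
  rw [← sq_abs (∑' q, r ^ q * x q)]
  exact pow_le_pow_left₀ (abs_nonneg _) h 2

theorem hardy_G : ∃ H : ℝ, 0 < H ∧ ∀ (x : S) (J : ℕ),
    ∑ i ∈ Finset.range J, (1 / 2 : ℝ) ^ i * (M.G (rr i) x) ^ 2 ≤ H * M.C x := by
  obtain ⟨H, hH, h⟩ := hardy
  refine ⟨H, hH, fun x J => ?_⟩
  refine le_trans (Finset.sum_le_sum fun i _ => ?_) (h (fun q => M.β q x) (M.sβ x) J)
  exact mul_le_mul_of_nonneg_left (tsum_sq_le_abs (M.sβ x) _ (rr_nonneg i) (rr_lt_one i))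
    (by positivity)

theorem hardy_Gs : ∃ H : ℝ, 0 < H ∧ ∀ (x : S) (J : ℕ),
    ∑ i ∈ Finset.range J, (1 / 2 : ℝ) ^ i * (M.Gs (rr i) x) ^ 2 ≤ H * M.A x := by
  obtain ⟨H, hH, h⟩ := hardy
  refine ⟨H, hH, fun x J => ?_⟩
  refine le_trans (Finset.sum_le_sum fun i _ => ?_) (h (fun q => M.α q x) (M.sα x) J)
  exact mul_le_mul_of_nonneg_left (tsum_sq_le_abs (M.sα x) _ (rr_nonneg i) (rr_lt_one i))
    (by positivity)

theorem hardy_dGs : ∃ H : ℝ, 0 < H ∧ ∀ (x : S) (J : ℕ),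
    ∑ i ∈ Finset.range J, (1 / 2 : ℝ) ^ i * (M.Gs (rr (i + 1)) x - M.Gs (rr i) x) ^ 2
      ≤ H * M.A x := by
  obtain ⟨H, hH, h⟩ := M.hardy_Gs
  refine ⟨6 * H, by positivity, fun x J => ?_⟩
  have h1 := h x J
  have h2 := h x (J + 1)
  rw [Finset.sum_range_succ'] at h2
  have h3 : 0 ≤ (1 / 2 : ℝ) ^ 0 * (M.Gs (rr 0) x) ^ 2 := by positivity
  have h4 : ∑ i ∈ Finset.range J, (1 / 2 : ℝ) ^ i * (M.Gs (rr (i + 1)) x - M.Gs (rr i) x) ^ 2
      ≤ ∑ i ∈ Finset.range J, (4 * ((1 / 2 : ℝ) ^ (i + 1) * (M.Gs (rr (i + 1)) x) ^ 2)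
          + 2 * ((1 / 2 : ℝ) ^ i * (M.Gs (rr i) x) ^ 2)) := by
    refine Finset.sum_le_sum fun i _ => ?_
    have hp : (0 : ℝ) < (1 / 2) ^ i := by positivity
    have e : 4 * ((1 / 2 : ℝ) ^ (i + 1) * (M.Gs (rr (i + 1)) x) ^ 2)
          + 2 * ((1 / 2 : ℝ) ^ i * (M.Gs (rr i) x) ^ 2)
        = (1 / 2 : ℝ) ^ i * (2 * (M.Gs (rr (i + 1)) x) ^ 2 + 2 * (M.Gs (rr i) x) ^ 2) := by
      rw [pow_succ]; ring
    rw [e]
    refine mul_le_mul_of_nonneg_left ?_ hp.le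
    nlinarith [sq_nonneg (M.Gs (rr (i + 1)) x + M.Gs (rr i) x)]
  rw [Finset.sum_add_distrib, ← Finset.mul_sum, ← Finset.mul_sum] at h4
  linarith

theorem e_summable : Summable M.e := by
  obtain ⟨H1, hH1, h1⟩ := M.hardy_G
  obtain ⟨H2, hH2, h2⟩ := M.hardy_Gs
  refine summable_of_sum_range_le (c := H1 * ∫ x, M.C x ∂M.ν + H2 * ∫ x, M.A x ∂M.ν)
    M.e_nonneg fun n => ?_
  have iG : ∀ i, Integrable (fun x => (1 / 2 : ℝ) ^ i * (M.G (rr i) x) ^ 2) M.ν := fun i =>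
    ((M.memLp_G (rr i) (rr_nonneg i) (rr_lt_one i)).integrable_sq).const_mul _
  have iGs : ∀ i, Integrable (fun x => (1 / 2 : ℝ) ^ i * (M.Gs (rr i) x) ^ 2) M.ν := fun i =>
    ((M.memLp_Gs (rr i) (rr_nonneg i) (rr_lt_one i)).integrable_sq).const_mul _
  have e1 : ∑ i ∈ Finset.range n, M.e i
      = ∫ x, ∑ i ∈ Finset.range n, (1 / 2 : ℝ) ^ i * (M.G (rr i) x) ^ 2 ∂M.ν
        + ∫ x, ∑ i ∈ Finset.range n, (1 / 2 : ℝ) ^ i * (M.Gs (rr i) x) ^ 2 ∂M.ν := by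
    rw [integral_finsetSum _ fun i _ => iG i, integral_finsetSum _ fun i _ => iGs i,
      ← Finset.sum_add_distrib]
    refine Finset.sum_congr rfl fun i _ => ?_
    rw [integral_const_mul, integral_const_mul]
    unfold e
    ring
  rw [e1]
  refine add_le_add ?_ ?_
  · rw [← integral_const_mul]
    exact integral_mono (integrable_finsetSum _ fun i _ => iG i) (M.integrable_C.const_mul _)
      fun x => h1 x n
  · rw [← integral_const_mul]
    exact integral_mono (integrable_finsetSum _ fun i _ => iGs i) (M.integrable_A.const_mul _)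
      fun x => h2 x n

/-- `∫ f (2 G*_r - f) ≥ 0`: it equals `r²‖D*_r‖² + (1-r²)‖G*_r‖²`. -/
theorem Ψ_nonneg (r : ℝ) (h0 : 0 ≤ r) (h1 : r < 1) :
    0 ≤ ∫ x, (2 * M.f x * M.Gs r x - (M.f x) ^ 2) ∂M.ν := by
  have hb := M.bwd_Gs r h0 h1
  have i1 := hb.l2.integrable_sq
  have i2 := hb.l2'.integrable_sq
  have e : ∫ x, (2 * M.f x * M.Gs r x - (M.f x) ^ 2) ∂M.ν
      = ∫ x, (M.Gs r x) ^ 2 ∂M.ν - r ^ 2 * ∫ x, (M.Gs1 r x) ^ 2 ∂M.ν := by
    rw [← integral_const_mul, ← integral_sub i1 (i2.const_mul _)]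
    refine integral_congr_ae (Filter.Eventually.of_forall fun x => ?_)
    simp only []
    rw [M.Gs_eq r h0 h1 x]
    ring
  rw [e]
  have h2 := hb.sq_le
  have h3 : 0 ≤ ∫ x, (M.Gs1 r x) ^ 2 ∂M.ν := integral_nonneg fun x => sq_nonneg _
  have h4 : r ^ 2 ≤ 1 := by nlinarith
  nlinarith

theorem tendsto_rr : Filter.Tendsto rr Filter.atTop (nhds 1) := by
  have h := tendsto_pow_atTop_nhds_zero_of_lt_one (r := (1 / 2 : ℝ)) (by norm_num) (by norm_num)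
  have h2 := (tendsto_const_nhds (x := (1 : ℝ))).sub h
  rw [sub_zero] at h2
  exact h2

theorem tendsto_Ψ : Filter.Tendsto
    (fun i => ∫ x, (2 * M.f x * M.Gs (rr i) x - (M.f x) ^ 2) ∂M.ν) Filter.atTop
    (nhds M.σ2) := by
  have hs := M.summable_cov
  have e1 : ∀ i, ∫ x, (2 * M.f x * M.Gs (rr i) x - (M.f x) ^ 2) ∂M.ν
      = 2 * ∑' q, (rr i) ^ q * ∫ x, M.f x * M.β q x ∂M.ν - ∫ x, (M.f x) ^ 2 ∂M.ν := by
    intro i
    have i2 : Integrable (fun x => M.f x * M.Gs (rr i) x) M.ν := M.memLp_f.integrable_mul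
      (M.memLp_Gs (rr i) (rr_nonneg i) (rr_lt_one i))
    rw [← M.int_f_Gs (rr i) (rr_nonneg i) (rr_lt_one i), ← integral_const_mul,
      ← integral_sub (i2.const_mul 2) M.memLp_f.integrable_sq]
    refine integral_congr_ae (Filter.Eventually.of_forall fun x => ?_)
    simp only []
    ring
  simp_rw [e1]
  have h1 : Filter.Tendsto (fun i => ∑' q, (rr i) ^ q * ∫ x, M.f x * M.β q x ∂M.ν) Filter.atTop
      (nhds (∑' q, ∫ x, M.f x * M.β q x ∂M.ν)) := by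
    refine tendsto_tsum_of_dominated_convergence hs (fun q => ?_)
      (Filter.Eventually.of_forall fun i q => ?_)
    · have := (tendsto_rr.pow q).mul_const (∫ x, M.f x * M.β q x ∂M.ν)
      simpa using this
    · rw [norm_mul, Real.norm_of_nonneg (pow_nonneg (rr_nonneg i) q), Real.norm_eq_abs]
      exact mul_le_of_le_one_left (abs_nonneg _) (pow_le_one₀ (rr_nonneg i) (rr_lt_one i).le)
  have h2 := (h1.const_mul 2).sub_const (∫ x, (M.f x) ^ 2 ∂M.ν)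
  have e2 : 2 * ∑' q, ∫ x, M.f x * M.β q x ∂M.ν - ∫ x, (M.f x) ^ 2 ∂M.ν = M.σ2 := by
    unfold σ2
    rw [(hs.of_abs).tsum_eq_zero_add]
    have : ∫ x, M.f x * M.β 0 x ∂M.ν = ∫ x, (M.f x) ^ 2 ∂M.ν := by
      rw [← M.f_eq]
      refine integral_congr_ae (Filter.Eventually.of_forall fun x => ?_)
      simp only []
      ring
    rw [this]
    ring
  rw [e2] at h2
  exact h2

theorem σ2_nonneg : 0 ≤ M.σ2 :=
  ge_of_tendsto' M.tendsto_Ψ fun i => M.Ψ_nonneg (rr i) (rr_nonneg i) (rr_lt_one i)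

end Model

end Pool.Agent.H45.CLT
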