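import Pool.Agent.H45.CLT.Energy
import Pool.Agent.H45.CLT.Pot2
import Pool.Agent.H45.CLT.Gap3
import Pool.Agent.H45.CLT.Gap4F
import Pool.Agent.H45.CLT.Gap4B
import Pool.Agent.H45.CLT.Gap5
import Pool.Agent.H45.CLT.Gap6

/-!
# Module CTX: the parameters at scale `n`
For fixed `λ = lam` and `s > 0`: `θ = lam/√n`, `ρ = 1 - s/n`, `r = r_I = 1 - 2^{-I}`, `m = 2^I`,
`u = (1-ρ) w + ρ e^{iθf} Qu`, and a smallness parameter `τ` with
`δ_K ≤ τ`, `K m / n ≤ τ`, `(n/m) e_I ≤ τ ≤ 1`, `K ≥ 1`.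
-/

set_option autoImplicit false

open MeasureTheory ProbabilityTheory
open scoped ENNReal NNReal

namespace Pool.Agent.H45.CLT

variable {S : Type} [MeasurableSpace S]

/-- the end point map of the gaps is measurable -/
theorem measurable_y : Measurable (fun p : ℕ × (ℕ → S) => p.2 (p.1 + 1)) := by
  refine measurable_from_prod_countable_right fun j => ?_
  exact measurable_pi_apply (j + 1)

structure Ctx (M : Model S) (lam s : ℝ) where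
  K : ℝ
  I : ℕ
  n : ℕ
  τ : ℝ
  w : S → ℂ
  u : S → ℂ
  hs : 0 < s
  hI : 1 ≤ I
  hsn : s ≤ n
  hK : 1 ≤ K
  hτ1 : τ ≤ 1
  hδ : M.δ K ≤ τ
  hN : K * 2 ^ I / n ≤ τ
  he : (n : ℝ) / 2 ^ I * M.e I ≤ τ
  hwm : Measurable w
  hum : Measurable u
  hw1 : ∀ x, ‖w x‖ ≤ 1
  hu1 : ∀ x, ‖u x‖ ≤ 1
  hres : ∀ x, u x = ((1 - (1 - s / n) : ℝ) : ℂ) * w x
    + ((1 - s / n : ℝ) : ℂ) *
      (Complex.exp (((lam / Real.sqrt n * M.f x : ℝ) : ℂ) * Complex.I) * ∫ z, u z ∂(M.Q x))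

namespace Ctx

variable {M : Model S} {lam s : ℝ} (X : Ctx M lam s)

noncomputable def r : ℝ := rr X.I

noncomputable def m : ℝ := 2 ^ X.I

noncomputable def θ : ℝ := lam / Real.sqrt X.n

noncomputable def ρ : ℝ := 1 - s / X.n

/-- the soft cut -/
noncomputable def k : Cut S := M.cut X.K X.I

/-- the gap measure -/
noncomputable def Θ : Measure (ℕ × (ℕ → S)) := M.toChain.Θ X.k

/-- `κ = G* - f = r Q* G*` -/
noncomputable def κ (x : S) : ℝ := X.r * M.Gs1 X.r x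

/-- `b = e^{-iθG} u` -/
noncomputable def b (x : S) : ℂ :=
  Complex.exp (((-(X.θ * M.G X.r x) : ℝ) : ℂ) * Complex.I) * X.u x

/-- `Y = G*(x) + S_exc - κ(y) = κ(x) + S_ℓ - κ(y)` -/
noncomputable def Y (p : ℕ × (ℕ → S)) : ℝ :=
  M.Gs X.r (p.2 0) + M.Se p - X.κ (p.2 (p.1 + 1))

/-- `y1 = ∫ |Qb - b| dν` -/
noncomputable def y1 : ℝ := ∫ x, ‖(∫ z, X.b z ∂(M.Q x)) - X.b x‖ ∂M.ν

/-- `J_j = E_Θ[b(x) G*_{r_j}(x) S_ℓ]` -/
noncomputable def J (j : ℕ) : ℂ :=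
  ∫ p, X.b (p.2 0) * ((M.Gs (rr j) (p.2 0) * M.Sl p : ℝ) : ℂ) ∂X.Θ

/-- `â* = (1-r) ∑_{1≤i≤ℓ} Q*G*(ξ_i)` -/
noncomputable def as (p : ℕ × (ℕ → S)) : ℝ :=
  (1 - X.r) * ∑ i ∈ Finset.range (p.1 + 1), M.Gs1 X.r (p.2 (i + 1))

theorem n_pos : (0 : ℝ) < X.n := lt_of_lt_of_le X.hs X.hsn

theorem τ_nonneg : 0 ≤ X.τ := (M.δ_nonneg X.K).trans X.hδ

theorem r_nonneg : 0 ≤ X.r := rr_nonneg _
theorem r_lt_one : X.r < 1 := rr_lt_one _
theorem one_sub_r : 1 - X.r = X.m⁻¹ := by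
  unfold r m
  rw [one_sub_rr]
  simp
theorem m_pos : 0 < X.m := by
  unfold m; positivity
theorem one_le_m : 1 ≤ X.m := by
  unfold m
  exact one_le_pow₀ (by norm_num)
theorem inv_one_sub_r : (1 - X.r)⁻¹ = X.m := by
  rw [X.one_sub_r, inv_inv]
theorem ρ_nonneg : 0 ≤ X.ρ := by
  unfold ρ
  have : s / X.n ≤ 1 := by rw [div_le_one X.n_pos]; exact X.hsn
  linarith
theorem ρ_le_one : X.ρ ≤ 1 := by
  unfold ρ
  have : 0 ≤ s / X.n := div_nonneg X.hs.le X.n_pos.le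
  linarith
theorem δ_nonneg : 0 ≤ M.δ X.K := M.δ_nonneg _
/-- `ν(B) ≤ δ ≤ τ` -/
theorem νB_le_δ : (M.ν (M.B X.K)).toReal ≤ M.δ X.K := by
  have h1 := M.K_mul_le X.K (by linarith [X.hK])
  have h2 : (0 : ℝ) ≤ (M.ν (M.B X.K)).toReal := ENNReal.toReal_nonneg
  nlinarith [X.hK]
/-- `ν(B) ≤ τ` -/
theorem νB_le : (M.ν (M.B X.K)).toReal ≤ X.τ := X.νB_le_δ.trans X.hδ
/-- `m / n ≤ τ` -/
theorem m_div_n_le : X.m / X.n ≤ X.τ := by
  refine le_trans ?_ X.hN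
  have h1 : X.m = 2 ^ X.I := rfl
  rw [← h1]
  have h2 := X.m_pos
  have h3 := X.n_pos
  have h4 := X.hK
  gcongr
  nlinarith
/-- `1/n ≤ τ` -/
theorem inv_n_le : ((X.n : ℝ))⁻¹ ≤ X.τ := by
  refine le_trans ?_ X.m_div_n_le
  rw [inv_eq_one_div]
  have h3 := X.n_pos
  gcongr
  exact X.one_le_m
/-- `K m / n ≤ τ` -/
theorem hN' : X.K * X.m / X.n ≤ X.τ := X.hN
/-- `(n/m) e_I ≤ τ` -/
theorem he' : (X.n : ℝ) / X.m * M.e X.I ≤ X.τ := X.he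
/-- `e_I ≤ τ` -/
theorem e_le : M.e X.I ≤ X.τ := by
  refine le_trans ?_ X.he'
  have h1 : X.m / X.n ≤ 1 := X.m_div_n_le.trans X.hτ1
  have h2 : 1 ≤ (X.n : ℝ) / X.m := by
    rw [le_div_iff₀ X.m_pos, one_mul]
    rwa [div_le_one X.n_pos] at h1
  exact le_mul_of_one_le_left (M.e_nonneg _) h2
/-- `θ² = lam²/n` -/
theorem θ_sq : X.θ ^ 2 = lam ^ 2 / X.n := by
  unfold θ
  rw [div_pow, Real.sq_sqrt X.n_pos.le]

theorem measurable_b : Measurable X.b := by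
  have h := M.measurable_G X.r X.r_nonneg X.r_lt_one
  unfold b
  refine Measurable.mul ?_ X.hum
  refine Complex.measurable_exp.comp ?_
  refine Measurable.mul_const ?_ _
  exact Complex.measurable_ofReal.comp ((h.const_mul _).neg)
theorem norm_b (x : S) : ‖X.b x‖ = ‖X.u x‖ := by
  unfold b
  rw [norm_mul, Complex.norm_exp_ofReal_mul_I, one_mul]
theorem norm_b_le (x : S) : ‖X.b x‖ ≤ 1 := by
  rw [X.norm_b]; exact X.hu1 x
theorem measurable_κ : Measurable X.κ :=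
  (M.measurable_Gs1 X.r X.r_nonneg X.r_lt_one).const_mul _
theorem κ_eq (x : S) : X.κ x = M.Gs X.r x - M.f x := by
  rw [M.Gs_eq X.r X.r_nonneg X.r_lt_one x]
  unfold κ; ring
theorem κ_sq_le_Gs1 (x : S) : (X.κ x) ^ 2 ≤ (M.Gs1 X.r x) ^ 2 := by
  unfold κ
  rw [mul_pow]
  have h1 := X.r_nonneg
  have h2 := X.r_lt_one
  have h3 : X.r ^ 2 ≤ 1 := by nlinarith
  exact mul_le_of_le_one_left (sq_nonneg _) h3
theorem κ_sq_le (x : S) : (X.κ x) ^ 2 ≤ X.m * M.A x := by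
  refine (X.κ_sq_le_Gs1 x).trans ?_
  have := M.Gs1_sq_le X.r X.r_nonneg X.r_lt_one x
  rwa [X.inv_one_sub_r] at this
theorem Gs_sq_le (x : S) : (M.Gs X.r x) ^ 2 ≤ X.m * M.A x := by
  have := M.Gs_sq_le X.r X.r_nonneg X.r_lt_one x
  rwa [X.inv_one_sub_r] at this
theorem G_sq_le (x : S) : (M.G X.r x) ^ 2 ≤ X.m * M.C x := by
  have := M.G_sq_le X.r X.r_nonneg X.r_lt_one x
  rwa [X.inv_one_sub_r] at this
theorem memLp_κ : MemLp X.κ 2 M.ν :=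
  (M.memLp_Gs1 X.r X.r_nonneg X.r_lt_one).const_mul _
theorem A_le {x : S} (hx : x ∉ M.B X.K) : M.A x ≤ X.K := by
  have h1 := M.le_of_notMem_B hx
  have h2 := M.C_nonneg x
  linarith
theorem C_le {x : S} (hx : x ∉ M.B X.K) : M.C x ≤ X.K := by
  have h1 := M.le_of_notMem_B hx
  have h2 := M.A_nonneg x
  linarith
theorem θ_mul_le {t : ℝ} (ht : t ^ 2 ≤ X.m * X.K) : |X.θ * t| ≤ |lam| * Real.sqrt X.τ := by
  have h1 : (X.θ * t) ^ 2 ≤ lam ^ 2 * X.τ := by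
    rw [mul_pow, X.θ_sq]
    calc lam ^ 2 / X.n * t ^ 2 ≤ lam ^ 2 / X.n * (X.m * X.K) := by
          have := X.n_pos
          gcongr
      _ = lam ^ 2 * (X.K * X.m / X.n) := by ring
      _ ≤ lam ^ 2 * X.τ := by
          have := X.hN'
          gcongr
  rw [← Real.sqrt_sq_eq_abs, ← Real.sqrt_sq_eq_abs, ← Real.sqrt_mul (sq_nonneg _)]
  exact Real.sqrt_le_sqrt h1
/-- off `B`: `θ|G| ≤ |lam| √τ` etc. -/
theorem θG_le {x : S} (hx : x ∉ M.B X.K) : |X.θ * M.G X.r x| ≤ |lam| * Real.sqrt X.τ :=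
  X.θ_mul_le ((X.G_sq_le x).trans (mul_le_mul_of_nonneg_left (X.C_le hx) X.m_pos.le))
theorem θGs_le {x : S} (hx : x ∉ M.B X.K) : |X.θ * M.Gs X.r x| ≤ |lam| * Real.sqrt X.τ :=
  X.θ_mul_le ((X.Gs_sq_le x).trans (mul_le_mul_of_nonneg_left (X.A_le hx) X.m_pos.le))
theorem θκ_le {x : S} (hx : x ∉ M.B X.K) : |X.θ * X.κ x| ≤ |lam| * Real.sqrt X.τ :=
  X.θ_mul_le ((X.κ_sq_le x).trans (mul_le_mul_of_nonneg_left (X.A_le hx) X.m_pos.le))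

/-- the cut at `B`: `1 - χ = 1/m` on `B` -/
theorem one_sub_χ_mem {x : S} (hx : x ∈ M.B X.K) : 1 - X.k.χ x = X.m⁻¹ := by
  have h : X.k.χ x = X.r := by
    show (M.B X.K).indicator (fun _ => rr X.I) x = rr X.I
    exact Set.indicator_of_mem hx _
  rw [h, X.one_sub_r]
theorem one_sub_χ_notMem {x : S} (hx : x ∉ M.B X.K) : 1 - X.k.χ x = 1 := by
  have h : X.k.χ x = 0 := by
    show (M.B X.K).indicator (fun _ => rr X.I) x = 0
    exact Set.indicator_of_notMem hx _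
  rw [h, sub_zero]
theorem one_sub_χ_le (x : S) : 1 - X.k.χ x ≤ 1 := by
  have := X.k.h0 x
  linarith
theorem one_sub_χ_nonneg (x : S) : 0 ≤ 1 - X.k.χ x := by
  have h1 := X.k.h1 x
  have h2 := X.k.hr
  linarith
theorem k_r : X.k.r = X.r := rfl

instance : IsFiniteMeasure X.Θ := by
  unfold Θ
  infer_instance

/-- `E_Θ(ℓ-1) = ∫ χ ≤ ν(B)` -/
theorem len_le_νB : ∫ p, (p.1 : ℝ) ∂X.Θ ≤ (M.ν (M.B X.K)).toReal := by
  have h := (M.toChain.Θ_len X.k).2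
  have h1 : ∫ p, (p.1 : ℝ) ∂X.Θ = ∫ x, X.k.χ x ∂M.ν := h
  rw [h1]
  have h2 : ∫ x, X.k.χ x ∂M.ν ≤ ∫ x, (M.B X.K).indicator (fun _ => (1 : ℝ)) x ∂M.ν := by
    refine integral_mono_of_nonneg (Filter.Eventually.of_forall X.k.h0) ?_
      (Filter.Eventually.of_forall fun x => ?_)
    · exact (integrable_const (1 : ℝ)).indicator (M.measurableSet_B _)
    · show (M.B X.K).indicator (fun _ => rr X.I) x ≤ _
      exact Set.indicator_le_indicator (rr_lt_one _).le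
  refine h2.trans ?_
  rw [integral_indicator (M.measurableSet_B _), setIntegral_const, smul_eq_mul, mul_one]
  exact le_rfl

/-- `E_Θ(ℓ-1) ≤ ν(B) ≤ τ` -/
theorem len_le : ∫ p, (p.1 : ℝ) ∂X.Θ ≤ X.τ := X.len_le_νB.trans X.νB_le

theorem integrable_len : Integrable (fun p : ℕ × (ℕ → S) => (p.1 : ℝ)) X.Θ :=
  (M.toChain.Θ_len X.k).1

/-- total mass of `Θ` is at most one -/
theorem Θ_mass : X.Θ.real Set.univ ≤ 1 := by
  have h := M.toChain.integral_x X.k (fun _ => (1 : ℝ)) aestronglyMeasurable_const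
  have h1 : X.Θ.real Set.univ = ∫ p, (1 : ℝ) ∂(M.toChain.Θ X.k) := by
    rw [integral_const, smul_eq_mul, mul_one]; rfl
  rw [h1, h]
  have h2 : ∫ x, (1 - X.k.χ x) • (1 : ℝ) ∂M.ν ≤ ∫ _x, (1 : ℝ) ∂M.ν := by
    refine integral_mono_of_nonneg (Filter.Eventually.of_forall fun x => ?_)
      (integrable_const _) (Filter.Eventually.of_forall fun x => ?_)
    · simpa using X.one_sub_χ_nonneg x
    · simpa using X.one_sub_χ_le x
  simpa using h2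

/-- `E_Θ S_exc² ≤ 25 τ` -/
theorem Se_sq_le : ∫ p, (M.Se p) ^ 2 ∂X.Θ ≤ 25 * X.τ := by
  have h := M.energy X.K (by linarith [X.hK]) X.I
  have h1 : ∫ p, (M.Se p) ^ 2 ∂X.Θ ≤ 25 * M.δ X.K := h
  have h2 := X.hδ
  linarith

theorem lintegral_len : ∫⁻ p, (p.1 : ℝ≥0∞) ∂X.Θ ≤ ENNReal.ofReal (M.ν (M.B X.K)).toReal := by
  have h : ∫⁻ p, (p.1 : ℝ≥0∞) ∂X.Θ = ENNReal.ofReal (∫ p, (p.1 : ℝ) ∂X.Θ) := by
    rw [ofReal_integral_eq_lintegral_ofReal X.integrable_len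
      (Filter.Eventually.of_forall fun p => Nat.cast_nonneg _)]
    simp
  rw [h]
  exact ENNReal.ofReal_le_ofReal X.len_le_νB

theorem lintegral_B (φ : S → ℝ) (hφ0 : ∀ x, 0 ≤ φ x) (hφ1 : Integrable φ M.ν) :
    ENNReal.ofReal ((1 - X.k.r)⁻¹) * ∫⁻ x, ENNReal.ofReal (1 - X.k.χ x)
      * ENNReal.ofReal ((M.B X.K).indicator φ x) ∂M.ν
      ≤ ENNReal.ofReal (∫ x in M.B X.K, φ x ∂M.ν) := by
  have h1 : ∀ x, ENNReal.ofReal (1 - X.k.χ x) * ENNReal.ofReal ((M.B X.K).indicator φ x)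
      = ENNReal.ofReal (X.m⁻¹) * ENNReal.ofReal ((M.B X.K).indicator φ x) := by
    intro x
    by_cases hx : x ∈ M.B X.K
    · rw [X.one_sub_χ_mem hx]
    · simp [Set.indicator_of_notMem hx]
  simp_rw [h1]
  rw [X.k_r, X.inv_one_sub_r, lintegral_const_mul' _ _ ENNReal.ofReal_ne_top, ← mul_assoc,
    ← ENNReal.ofReal_mul X.m_pos.le, mul_inv_cancel₀ X.m_pos.ne', ENNReal.ofReal_one, one_mul,
    ← ofReal_integral_eq_lintegral_ofReal (hφ1.indicator (M.measurableSet_B _))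
      (Filter.Eventually.of_forall fun x => Set.indicator_nonneg (fun x _ => hφ0 x) x),
    integral_indicator (M.measurableSet_B _)]

theorem len_aux (φ : S → ℝ) (hφ : Measurable φ) (hφ0 : ∀ x, 0 ≤ φ x) (hφ1 : Integrable φ M.ν)
    (D : ℝ) (hD0 : 0 ≤ D) (hD : ∀ x, x ∉ M.B X.K → φ x ≤ D)
    (ev : ℕ × (ℕ → S) → S) (hev : Measurable ev)
    (hmap : X.Θ.map ev = M.ν.withDensity (fun x => ENNReal.ofReal (1 - X.k.χ x)))
    (hlen : ∀ φ : S → ℝ≥0∞, Measurable φ → ∫⁻ p, ((p.1 : ℝ≥0∞) + 1) * φ (ev p) ∂X.Θ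
      ≤ ENNReal.ofReal ((1 - X.k.r)⁻¹) * ∫⁻ x, ENNReal.ofReal (1 - X.k.χ x) * φ x ∂M.ν) :
    ∫⁻ p, ((p.1 : ℝ≥0∞) + 1) * ENNReal.ofReal (φ (ev p)) ∂X.Θ
      ≤ ENNReal.ofReal (∫ x, φ x ∂M.ν + D * (M.ν (M.B X.K)).toReal
          + ∫ x in M.B X.K, φ x ∂M.ν) := by
  have hpt : ∀ p : ℕ × (ℕ → S), ((p.1 : ℝ≥0∞) + 1) * ENNReal.ofReal (φ (ev p))
      ≤ ENNReal.ofReal (φ (ev p)) + (ENNReal.ofReal D * (p.1 : ℝ≥0∞)
        + ((p.1 : ℝ≥0∞) + 1) * ENNReal.ofReal ((M.B X.K).indicator φ (ev p))) := by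
    intro p
    by_cases hx : ev p ∈ M.B X.K
    · rw [Set.indicator_of_mem hx]
      exact le_add_left (le_add_left le_rfl)
    · have h1 : ENNReal.ofReal (φ (ev p)) ≤ ENNReal.ofReal D := ENNReal.ofReal_le_ofReal (hD _ hx)
      calc ((p.1 : ℝ≥0∞) + 1) * ENNReal.ofReal (φ (ev p))
          = ENNReal.ofReal (φ (ev p)) + ENNReal.ofReal (φ (ev p)) * (p.1 : ℝ≥0∞) := by ring
        _ ≤ ENNReal.ofReal (φ (ev p)) + ENNReal.ofReal D * (p.1 : ℝ≥0∞) := by gcongr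
        _ ≤ _ := by
            gcongr
            exact le_self_add
  have hm1 : Measurable fun p : ℕ × (ℕ → S) => ENNReal.ofReal (φ (ev p)) :=
    ENNReal.measurable_ofReal.comp (hφ.comp hev)
  have hm0 : Measurable fun p : ℕ × (ℕ → S) => (p.1 : ℝ≥0∞) :=
    (measurable_from_nat (f := fun n : ℕ => (n : ℝ≥0∞))).comp measurable_fst
  refine (lintegral_mono hpt).trans ?_
  rw [lintegral_add_left hm1, lintegral_add_left (hm0.const_mul _),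
    lintegral_const_mul _ hm0]
  have e1 : ∫⁻ p, ENNReal.ofReal (φ (ev p)) ∂X.Θ ≤ ENNReal.ofReal (∫ x, φ x ∂M.ν) := by
    have hmχ : Measurable (fun x => ENNReal.ofReal (1 - X.k.χ x)) :=
      ENNReal.measurable_ofReal.comp (measurable_const.sub X.k.hm)
    have hmφ : Measurable (fun x => ENNReal.ofReal (φ x)) := ENNReal.measurable_ofReal.comp hφ
    have h1 : ∫⁻ p, ENNReal.ofReal (φ (ev p)) ∂X.Θ
        = ∫⁻ x, ENNReal.ofReal (φ x) ∂(X.Θ.map ev) := (lintegral_map hmφ hev).symm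
    rw [h1, hmap, lintegral_withDensity_eq_lintegral_mul _ hmχ hmφ,
      ofReal_integral_eq_lintegral_ofReal hφ1 (Filter.Eventually.of_forall hφ0)]
    refine lintegral_mono fun x => ?_
    show ENNReal.ofReal (1 - X.k.χ x) * ENNReal.ofReal (φ x) ≤ ENNReal.ofReal (φ x)
    refine mul_le_of_le_one_left' ?_
    rw [← ENNReal.ofReal_one]
    exact ENNReal.ofReal_le_ofReal (X.one_sub_χ_le x)
  have e2 := X.lintegral_len
  have e3 : ∫⁻ p, ((p.1 : ℝ≥0∞) + 1) * ENNReal.ofReal ((M.B X.K).indicator φ (ev p)) ∂X.Θ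
      ≤ ENNReal.ofReal (∫ x in M.B X.K, φ x ∂M.ν) :=
    (hlen (fun x => ENNReal.ofReal ((M.B X.K).indicator φ x))
      (ENNReal.measurable_ofReal.comp (hφ.indicator (M.measurableSet_B _)))).trans
      (X.lintegral_B φ hφ0 hφ1)
  have h0 : 0 ≤ ∫ x, φ x ∂M.ν := integral_nonneg hφ0
  have hB0 : 0 ≤ ∫ x in M.B X.K, φ x ∂M.ν := integral_nonneg hφ0
  have h1 : 0 ≤ D * (M.ν (M.B X.K)).toReal := mul_nonneg hD0 ENNReal.toReal_nonneg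
  rw [add_assoc, ENNReal.ofReal_add h0 (add_nonneg h1 hB0), ENNReal.ofReal_add h1 hB0,
    ENNReal.ofReal_mul hD0]
  gcongr

/-- `E_Θ[ℓ φ(x)] ≤ ∫ φ + D ν(B) + ∫_B φ` for `0 ≤ φ`, `φ ≤ D` off `B` -/
theorem len_x_le (φ : S → ℝ) (hφ : Measurable φ) (hφ0 : ∀ x, 0 ≤ φ x) (hφ1 : Integrable φ M.ν)
    (D : ℝ) (hD0 : 0 ≤ D) (hD : ∀ x, x ∉ M.B X.K → φ x ≤ D) :
    ∫⁻ p, ((p.1 : ℝ≥0∞) + 1) * ENNReal.ofReal (φ (p.2 0)) ∂X.Θ
      ≤ ENNReal.ofReal (∫ x, φ x ∂M.ν + D * (M.ν (M.B X.K)).toReal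
          + ∫ x in M.B X.K, φ x ∂M.ν) :=
  X.len_aux φ hφ hφ0 hφ1 D hD0 hD (fun p => p.2 0) (by fun_prop)
    (M.toChain.Θ_map_x X.k) (fun φ hφ => M.toChain.Θ_len_x X.k φ hφ)

theorem len_y_le (φ : S → ℝ) (hφ : Measurable φ) (hφ0 : ∀ x, 0 ≤ φ x) (hφ1 : Integrable φ M.ν)
    (D : ℝ) (hD0 : 0 ≤ D) (hD : ∀ x, x ∉ M.B X.K → φ x ≤ D) :
    ∫⁻ p, ((p.1 : ℝ≥0∞) + 1) * ENNReal.ofReal (φ (p.2 (p.1 + 1))) ∂X.Θ
      ≤ ENNReal.ofReal (∫ x, φ x ∂M.ν + D * (M.ν (M.B X.K)).toReal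
          + ∫ x in M.B X.K, φ x ∂M.ν) :=
  X.len_aux φ hφ hφ0 hφ1 D hD0 hD (fun p => p.2 (p.1 + 1)) measurable_y
    (M.toChain.Θ_map_y X.k) (fun φ hφ => M.toChain.Θ_len_y X.k φ hφ)

end Ctx

end Pool.Agent.H45.CLT
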