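import Pool.Agent.H45.CLT.Gap2

set_option autoImplicit false

open MeasureTheory ProbabilityTheory
open scoped ENNReal NNReal

namespace Pool.Agent.H45.CLT

variable {S : Type} [MeasurableSpace S]

/-- stationarity for Bochner integrals -/
theorem Chain.g7_stat (M : Chain S) (i : ℕ) {G : (ℕ → S) → ℝ} (hG : Measurable G) :
    ∫ ξ, G (sh i ξ) ∂M.P = ∫ ξ, G ξ ∂M.P := by
  have h := integral_map (μ := M.P) (φ := (sh i : (ℕ → S) → (ℕ → S))) (f := G)
    (measurable_sh i).aemeasurable hG.aestronglyMeasurable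
  rw [(M.mp_sh i).map_eq] at h
  exact h.symm

/-- bounded weights -/
theorem Chain.g7_bdd (M : Chain S) {φ : (ℕ → S) → ℝ} (hφ : Measurable φ) {D : ℝ}
    (h0 : ∀ ξ, 0 ≤ φ ξ) (h1 : ∀ ξ, φ ξ ≤ D) {G : (ℕ → S) → ℝ} (hG : Integrable G M.P) :
    Integrable (fun ξ => φ ξ * G ξ) M.P ∧ |∫ ξ, φ ξ * G ξ ∂M.P| ≤ D * ∫ ξ, |G ξ| ∂M.P := by
  have hi : Integrable (fun ξ => φ ξ * G ξ) M.P := by
    refine hG.bdd_mul (c := D) hφ.aestronglyMeasurable (Filter.Eventually.of_forall fun ξ => ?_)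
    rw [Real.norm_eq_abs, abs_of_nonneg (h0 ξ)]
    exact h1 ξ
  refine ⟨hi, ?_⟩
  refine abs_integral_le_integral_abs.trans ?_
  rw [← integral_const_mul]
  refine integral_mono_of_nonneg (Filter.Eventually.of_forall fun ξ => abs_nonneg _)
    (hG.abs.const_mul D) (Filter.Eventually.of_forall fun ξ => ?_)
  simp only [abs_mul, abs_of_nonneg (h0 ξ)]
  exact mul_le_mul_of_nonneg_right (h1 ξ) (abs_nonneg _)

theorem Chain.g7_integrable_eval (M : Chain S) {H : S → ℝ} (hH : Integrable H M.ν) (i : ℕ) :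
    Integrable (fun ξ : ℕ → S => H (ξ i)) M.P :=
  (M.mp_eval i).integrable_comp_of_integrable hH

/-- (BT) for Bochner integrals -/
theorem Chain.g7_bt (M : Chain S) (k : Cut S) {H : S → ℝ} (hm : Measurable H)
    (hH : Integrable H M.ν) :
    HasSum (fun i => ∫ ξ, k.w i ξ * H (ξ (i + 1)) ∂M.P) (∫ x, H x ∂M.ν) := by
  set V : ℕ → ℝ := fun i => ∫ ξ, k.v i ξ * H (ξ (i + 1)) ∂M.P with hV
  have hI : ∀ i, Integrable (fun ξ : ℕ → S => H (ξ i)) M.P := M.g7_integrable_eval hH
  have hIa : ∀ i, ∫ ξ : ℕ → S, |H (ξ i)| ∂M.P = ∫ x, |H x| ∂M.ν := fun i =>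
    M.integral_eval i (g := fun x => |H x|) (hm.abs)
  have hVb : ∀ i, |V i| ≤ k.r ^ i * ∫ x, |H x| ∂M.ν := by
    intro i
    have := (M.g7_bdd (k.measurable_v i) (k.v_nonneg i) (k.v_le i) (hI (i + 1))).2
    rw [hIa] at this
    exact this
  have hwb : ∀ i, |∫ ξ, k.w i ξ * H (ξ (i + 1)) ∂M.P| ≤ k.r ^ i * ∫ x, |H x| ∂M.ν := by
    intro i
    have := (M.g7_bdd (k.measurable_w i) (k.w_nonneg i) (k.w_le i) (hI (i + 1))).2
    rw [hIa] at this
    exact this
  have hgeo : Summable fun i => k.r ^ i * ∫ x, |H x| ∂M.ν :=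
    (summable_geometric_of_lt_one k.hr0 k.hr).mul_right _
  have hsum : Summable (fun i => ∫ ξ, k.w i ξ * H (ξ (i + 1)) ∂M.P) :=
    Summable.of_norm_bounded hgeo (fun i => by rw [Real.norm_eq_abs]; exact hwb i)
  rw [hsum.hasSum_iff_tendsto_nat]
  have hstep : ∀ i, ∫ ξ, k.w i ξ * H (ξ (i + 1)) ∂M.P = V i - V (i + 1) := by
    intro i
    have e1 : V (i + 1) = ∫ ξ, k.χ (ξ 0) * (k.v i ξ * H (ξ (i + 1))) ∂M.P := by
      have hmG : Measurable (fun ξ : ℕ → S => k.χ (ξ 0) * (k.v i ξ * H (ξ (i + 1)))) :=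
        (k.hm.comp (measurable_pi_apply 0)).mul
          ((k.measurable_v i).mul (hm.comp (measurable_pi_apply (i + 1))))
      rw [← M.g7_stat 1 hmG]
      simp only [hV]
      refine integral_congr_ae (Filter.Eventually.of_forall fun ξ => ?_)
      simp only []
      rw [k.v_succ']
      have h2 : (sh 1 ξ) 0 = ξ 1 := rfl
      have h3 : (sh 1 ξ) (i + 1) = ξ (i + 1 + 1) := by
        simp only [sh]
        congr 1
        omega
      rw [h2, h3]
      ring
    have i1 := (M.g7_bdd (k.measurable_v i) (k.v_nonneg i) (k.v_le i) (hI (i + 1))).1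
    have i2 : Integrable (fun ξ : ℕ → S => k.χ (ξ 0) * (k.v i ξ * H (ξ (i + 1)))) M.P :=
      (M.g7_bdd (k.hm.comp (measurable_pi_apply 0)) (fun ξ => k.h0 _) (fun ξ => k.h1 _) i1).1
    rw [e1]
    simp only [hV]
    rw [← integral_sub i1 i2]
    refine integral_congr_ae (Filter.Eventually.of_forall fun ξ => ?_)
    simp only [Cut.w]
    ring
  simp_rw [hstep]
  have hV0 : V 0 = ∫ x, H x ∂M.ν := by
    rw [← M.integral_eval 1 hm]
    simp only [hV]
    refine integral_congr_ae (Filter.Eventually.of_forall fun ξ => ?_)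
    simp [Cut.v]
  have hVlim : Filter.Tendsto V Filter.atTop (nhds 0) := by
    refine squeeze_zero_norm (fun i => ?_) hgeo.tendsto_atTop_zero
    rw [Real.norm_eq_abs]
    exact hVb i
  have h3 : (fun n => ∑ i ∈ Finset.range n, (V i - V (i + 1))) = fun n => V 0 - V n := by
    funext n
    exact Finset.sum_range_sub' V n
  rw [h3, ← hV0]
  have := hVlim.const_sub (V 0)
  rwa [sub_zero] at this

/-- `v_{a+t}(ξ) = v_a(ξ) v_t(sh a ξ)` -/
theorem Cut.g7_v_add (k : Cut S) (a t : ℕ) (ξ : ℕ → S) :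
    k.v (a + t) ξ = k.v a ξ * k.v t (sh a ξ) := by
  unfold Cut.v
  rw [Finset.prod_range_add]
  congr 1

/-- the Markov property along the unmarked points -/
theorem Chain.g7_markov (M : Chain S) (k : Cut S) (b : ℕ → S → ℝ)
    (hb : ∀ t, M.Fwd (fun x => k.χ x * b t x) (b (t + 1))) (i : ℕ) (Φ : (ℕ → S) → ℝ)
    (hΦ : Measurable Φ) (hΦi : ∀ ξ, Φ (fr i ξ) = Φ ξ) (hΦ2 : MemLp Φ 2 M.P) (t : ℕ) :
    ∀ s, ∫ ξ, Φ ξ * k.v t (sh i ξ) * b s (ξ (i + t)) ∂M.P = ∫ ξ, Φ ξ * b (s + t) (ξ i) ∂M.P := by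
  induction t with
  | zero =>
    intro s
    refine integral_congr_ae (Filter.Eventually.of_forall fun ξ => ?_)
    simp [Cut.v]
  | succ t ih =>
    intro s
    have hmv : Measurable (fun ξ : ℕ → S => k.v t (sh i ξ)) :=
      (k.measurable_v t).comp (measurable_sh i)
    have hΨ2 : MemLp (fun ξ => Φ ξ * k.v t (sh i ξ)) 2 M.P := by
      have h1 : MemLp (fun ξ => k.v t (sh i ξ) * Φ ξ) 2 M.P := by
        refine hΦ2.of_le (hmv.mul hΦ).aestronglyMeasurable
          (Filter.Eventually.of_forall fun ξ => ?_)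
        rw [norm_mul, Real.norm_eq_abs, abs_of_nonneg (k.v_nonneg _ _)]
        refine mul_le_of_le_one_left (norm_nonneg _) ((k.v_le _ _).trans ?_)
        exact pow_le_one₀ k.hr0 k.hr.le
      refine h1.ae_eq (Filter.Eventually.of_forall fun ξ => ?_)
      simp only []
      ring
    have h0 := (hb s).orth_real (i + t) (fun ξ => Φ ξ * k.v t (sh i ξ)) (hΦ.mul hmv) (by
      intro ξ
      have e1 : Φ (fr (i + t) ξ) = Φ ξ := by
        rw [← hΦi (fr (i + t) ξ), ← hΦi ξ]
        congr 1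
        funext j
        simp only [fr]
        congr 1
        omega
      have e2 : k.v t (sh i (fr (i + t) ξ)) = k.v t (sh i ξ) := by
        unfold Cut.v
        refine Finset.prod_congr rfl fun j hj => ?_
        have := Finset.mem_range.mp hj
        simp only [sh, fr]
        congr 2
        omega
      simp only [e1, e2]) hΨ2
    have i1 : Integrable (fun ξ => Φ ξ * k.v t (sh i ξ) *
        (fun x => k.χ x * b s x) (ξ (i + t + 1))) M.P :=
      hΨ2.integrable_mul (M.memLp_eval (hb s).l2 (i + t + 1))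
    have i2 : Integrable (fun ξ => Φ ξ * k.v t (sh i ξ) * b (s + 1) (ξ (i + t))) M.P :=
      hΨ2.integrable_mul (M.memLp_eval (hb s).l2' (i + t))
    have e3 : ∫ ξ, Φ ξ * k.v t (sh i ξ) *
        ((fun x => k.χ x * b s x) (ξ (i + t + 1)) - b (s + 1) (ξ (i + t))) ∂M.P =
        ∫ ξ, Φ ξ * k.v t (sh i ξ) * (fun x => k.χ x * b s x) (ξ (i + t + 1)) ∂M.P -
        ∫ ξ, Φ ξ * k.v t (sh i ξ) * b (s + 1) (ξ (i + t)) ∂M.P := by
      rw [← integral_sub i1 i2]
      refine integral_congr_ae (Filter.Eventually.of_forall fun ξ => ?_)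
      simp only []
      ring
    rw [e3, sub_eq_zero] at h0
    have e4 : ∫ ξ, Φ ξ * k.v (t + 1) (sh i ξ) * b s (ξ (i + (t + 1))) ∂M.P =
        ∫ ξ, Φ ξ * k.v t (sh i ξ) * (fun x => k.χ x * b s x) (ξ (i + t + 1)) ∂M.P := by
      refine integral_congr_ae (Filter.Eventually.of_forall fun ξ => ?_)
      simp only []
      rw [k.v_succ]
      simp only [sh]
      rw [show i + (t + 1) = i + t + 1 by ring]
      ring
    rw [e4, h0, ih (s + 1)]
    rw [show s + 1 + t = s + (t + 1) by ring]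

/-- the energy of the interior of the gaps, in terms of `b_t = (Q χ)^t f`:
`E_Θ (∑_{0<i<ℓ} f(ξ_i))² = ∫ χ f² + 2 ∑_{t≥1} ∫ χ f b_t`. -/
theorem Chain.gap_energy (M : Chain S) (k : Cut S) (f : S → ℝ) (b : ℕ → S → ℝ)
    (hf : Measurable f) (hf2 : MemLp f 2 M.ν) (hb0 : b 0 = f)
    (hb : ∀ t, M.Fwd (fun x => k.χ x * b t x) (b (t + 1))) :
    Summable (fun t => ∫ x, k.χ x * f x * b (t + 1) x ∂M.ν) ∧
    ∫ p, (∑ i ∈ Finset.range p.1, f (p.2 (i + 1))) ^ 2 ∂(M.Θ k)
      = ∫ x, k.χ x * (f x) ^ 2 ∂M.ν + 2 * ∑' t, ∫ x, k.χ x * f x * b (t + 1) x ∂M.ν := by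
  have hb2 : ∀ t, MemLp (b t) 2 M.ν := by
    intro t
    cases t with
    | zero => rw [hb0]; exact hf2
    | succ t => exact (hb t).l2'
  have hbm : ∀ t, Measurable (b t) := by
    intro t
    cases t with
    | zero => rw [hb0]; exact hf
    | succ t => exact (hb t).m'
  have hχf2 : MemLp (fun x => k.χ x * f x) 2 M.ν := by
    refine hf2.of_le (k.hm.mul hf).aestronglyMeasurable (Filter.Eventually.of_forall fun x => ?_)
    rw [norm_mul, Real.norm_eq_abs, abs_of_nonneg (k.h0 _)]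
    exact mul_le_of_le_one_left (norm_nonneg _) (k.χ_le_one _)
  set nf : ℝ := ∫ x, (f x) ^ 2 ∂M.ν with hnf
  have hnf0 : 0 ≤ nf := integral_nonneg fun x => sq_nonneg _
  have hfe : ∀ i, MemLp (fun ξ : ℕ → S => f (ξ i)) 2 M.P := M.memLp_eval hf2
  have hfsq : ∀ i, ∫ ξ : ℕ → S, (f (ξ i)) ^ 2 ∂M.P = nf := fun i =>
    M.integral_eval i (g := fun x => f x ^ 2) (hf.pow_const 2)
  have hff : ∀ a c, Integrable (fun ξ : ℕ → S => f (ξ a) * f (ξ c)) M.P := fun a c =>
    (hfe a).integrable_mul (hfe c)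
  have hffb : ∀ a c, ∫ ξ : ℕ → S, |f (ξ a) * f (ξ c)| ∂M.P ≤ nf := by
    intro a c
    have i1 := (hfe a).integrable_sq
    have i2 := (hfe c).integrable_sq
    have h1 : ∫ ξ : ℕ → S, |f (ξ a) * f (ξ c)| ∂M.P ≤
        ∫ ξ : ℕ → S, ((1 / 2) * (f (ξ a)) ^ 2 + (1 / 2) * (f (ξ c)) ^ 2) ∂M.P := by
      refine integral_mono_of_nonneg (Filter.Eventually.of_forall fun ξ => abs_nonneg _)
        ((i1.const_mul _).add (i2.const_mul _)) (Filter.Eventually.of_forall fun ξ => ?_)
      simp only []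
      rw [abs_le]
      constructor <;> nlinarith [sq_nonneg (f (ξ a) - f (ξ c)), sq_nonneg (f (ξ a) + f (ξ c))]
    rw [integral_add (i1.const_mul _) (i2.const_mul _), integral_const_mul, integral_const_mul,
      hfsq, hfsq] at h1
    linarith
  -- the double sequence
  set E : ℕ → ℕ → ℝ := fun i t => ∫ ξ, k.w (i + t + 1) ξ * (f (ξ (i + 1)) * f (ξ (i + t + 1))) ∂M.P
    with hE
  have hEb : ∀ i t, |E i t| ≤ k.r ^ i * (k.r ^ t * nf) := by
    intro i t
    have h1 := (M.g7_bdd (k.measurable_w (i + t + 1)) (k.w_nonneg _) (k.w_le _)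
      (hff (i + 1) (i + t + 1))).2
    refine h1.trans ?_
    have h2 : k.r ^ (i + t + 1) ≤ k.r ^ (i + t) :=
      pow_le_pow_of_le_one k.hr0 k.hr.le (by omega)
    calc k.r ^ (i + t + 1) * ∫ ξ : ℕ → S, |f (ξ (i + 1)) * f (ξ (i + t + 1))| ∂M.P
        ≤ k.r ^ (i + t) * nf :=
          mul_le_mul h2 (hffb _ _) (integral_nonneg fun ξ => abs_nonneg _) (pow_nonneg k.hr0 _)
      _ = k.r ^ i * (k.r ^ t * nf) := by rw [pow_add]; ring
  have hEm : ∀ i t, E i t = ∫ ξ, k.w i ξ * (k.χ (ξ (i + 1)) * f (ξ (i + 1)) * b t (ξ (i + 1))) ∂M.P := by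
    intro i t
    have hΦm : Measurable (fun ξ : ℕ → S => k.w i ξ * (k.χ (ξ (i + 1)) * f (ξ (i + 1)))) :=
      (k.measurable_w i).mul ((k.hm.mul hf).comp (measurable_pi_apply (i + 1)))
    have h1 := M.g7_markov k b hb (i + 1)
      (fun ξ => k.w i ξ * (k.χ (ξ (i + 1)) * f (ξ (i + 1)))) hΦm (by
        intro ξ
        have e1 : k.w i (fr (i + 1) ξ) = k.w i ξ := by
          rw [← k.w_fr i (fr (i + 1) ξ), ← k.w_fr i ξ]
          congr 1
          funext j
          simp only [fr]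
          congr 1
          omega
        have e2 : fr (i + 1) ξ (i + 1) = ξ (i + 1) := by simp [fr]
        simp only [e1, e2]) (by
        refine (M.memLp_eval hχf2 (i + 1)).of_le hΦm.aestronglyMeasurable
          (Filter.Eventually.of_forall fun ξ => ?_)
        rw [norm_mul, Real.norm_eq_abs, abs_of_nonneg (k.w_nonneg _ _)]
        refine mul_le_of_le_one_left (norm_nonneg _) ((k.w_le _ _).trans ?_)
        exact pow_le_one₀ k.hr0 k.hr.le) t 0
    rw [hb0, zero_add] at h1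
    have e3 : E i t = ∫ ξ, k.w i ξ * (k.χ (ξ (i + 1)) * f (ξ (i + 1))) * k.v t (sh (i + 1) ξ) *
        f (ξ (i + 1 + t)) ∂M.P := by
      simp only [hE]
      refine integral_congr_ae (Filter.Eventually.of_forall fun ξ => ?_)
      simp only [Cut.w]
      rw [show i + t + 1 = i + 1 + t by ring, k.g7_v_add (i + 1) t, k.v_succ]
      ring
    rw [e3, h1]
    refine integral_congr_ae (Filter.Eventually.of_forall fun ξ => ?_)
    simp only []
    ring
  have hEs : ∀ t, HasSum (fun i => E i t) (∫ x, k.χ x * f x * b t x ∂M.ν) := by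
    intro t
    have h1 := M.g7_bt k (H := fun x => k.χ x * f x * b t x) ((k.hm.mul hf).mul (hbm t))
      (hχf2.integrable_mul (hb2 t))
    have h2 : (fun i => E i t) = fun i => ∫ ξ, k.w i ξ *
        ((fun x => k.χ x * f x * b t x) (ξ (i + 1))) ∂M.P := by
      funext i
      exact hEm i t
    rw [h2]
    exact h1
  -- the family over pairs
  set G : ℕ × ℕ → ℝ := fun p => E p.1 (p.2 + 1) with hG
  have hGs : Summable G := by
    have h1 : Summable fun p : ℕ × ℕ => k.r ^ p.1 * (k.r ^ (p.2 + 1) * nf) := by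
      have hg1 : Summable fun i : ℕ => k.r ^ i := summable_geometric_of_lt_one k.hr0 k.hr
      have hg2 : Summable fun i : ℕ => k.r ^ (i + 1) * nf :=
        ((summable_nat_add_iff 1).mpr hg1).mul_right nf
      exact hg1.mul_of_nonneg hg2 (fun i => pow_nonneg k.hr0 _)
        (fun i => mul_nonneg (pow_nonneg k.hr0 _) hnf0)
    refine Summable.of_norm_bounded h1 fun p => ?_
    rw [Real.norm_eq_abs]
    exact hEb p.1 (p.2 + 1)
  set T : ℝ := ∑' p, G p with hT
  have hT1 : HasSum (fun t => ∫ x, k.χ x * f x * b (t + 1) x ∂M.ν) T := by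
    have h1 : HasSum (fun p : ℕ × ℕ => G p.swap) T := by
      have := (Equiv.prodComm ℕ ℕ).hasSum_iff.mpr hGs.hasSum
      exact this
    exact h1.prod_fiberwise (fun t => hEs (t + 1))
  set u : ℕ → ℝ := fun j => ∑ i ∈ Finset.range j, E i (j - i) with hu
  have hT2 : HasSum u T := by
    have h1 : HasSum (fun n => ∑ p ∈ Finset.HasAntidiagonal.antidiagonal n, G p) T := by
      have h2 := (Finset.HasAntidiagonal.sigmaAntidiagonalEquivProd (A := ℕ)).hasSum_iff.mpr hGs.hasSum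
      refine h2.sigma (fun n => ?_)
      exact Finset.hasSum (Finset.HasAntidiagonal.antidiagonal n) G
    have h3 : ∀ n, u (n + 1) = ∑ p ∈ Finset.HasAntidiagonal.antidiagonal n, G p := by
      intro n
      simp only [hG, hu]
      rw [Finset.Nat.sum_antidiagonal_eq_sum_range_succ (fun a c => E a (c + 1)) n]
      refine Finset.sum_congr rfl fun i hi => ?_
      have := Finset.mem_range.mp hi
      congr 1
      omega
    rw [← hasSum_nat_add_iff' 1]
    simp only [h3]
    simpa [hu] using h1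
  refine ⟨hT1.summable, ?_⟩
  rw [hT1.tsum_eq]
  -- the energies
  set F : ℕ → (ℕ → S) → ℝ := fun j ξ => (∑ i ∈ Finset.range j, f (ξ (i + 1))) ^ 2 with hF
  have hS2 : ∀ j, MemLp (fun ξ : ℕ → S => ∑ i ∈ Finset.range j, f (ξ (i + 1))) 2 M.P := fun j =>
    memLp_finsetSum _ (fun i _ => hfe (i + 1))
  have hSm : ∀ j, Measurable (fun ξ : ℕ → S => ∑ i ∈ Finset.range j, f (ξ (i + 1))) := fun j =>
    Finset.measurable_fun_sum _ (fun i _ => hf.comp (measurable_pi_apply (i + 1)))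
  have hFi : ∀ j, Integrable (F j) M.P := fun j => (hS2 j).integrable_sq
  have hFb : ∀ j, ∫ ξ, |F j ξ| ∂M.P ≤ (j : ℝ) ^ 2 * nf := by
    intro j
    have h1 : ∫ ξ, |F j ξ| ∂M.P ≤
        ∫ ξ : ℕ → S, (j : ℝ) * ∑ i ∈ Finset.range j, (f (ξ (i + 1))) ^ 2 ∂M.P := by
      refine integral_mono_of_nonneg (Filter.Eventually.of_forall fun ξ => abs_nonneg _)
        ((integrable_finsetSum _ (fun i _ => (hfe (i + 1)).integrable_sq)).const_mul _)
        (Filter.Eventually.of_forall fun ξ => ?_)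
      simp only [hF]
      rw [abs_of_nonneg (sq_nonneg _)]
      have := sq_sum_le_card_mul_sum_sq (s := Finset.range j) (f := fun i => f (ξ (i + 1)))
      simpa using this
    refine h1.trans (le_of_eq ?_)
    rw [integral_const_mul, integral_finsetSum _ (fun i _ => (hfe (i + 1)).integrable_sq)]
    simp only [hfsq, Finset.sum_const, Finset.card_range, nsmul_eq_mul]
    ring
  have hwF : ∀ a j, Integrable (fun ξ => k.w a ξ * F j ξ) M.P := fun a j =>
    (M.g7_bdd (k.measurable_w a) (k.w_nonneg a) (k.w_le a) (hFi j)).1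
  set U : ℕ → ℝ := fun j => ∫ ξ, k.w j ξ * F j ξ ∂M.P with hU
  have hU0 : U 0 = 0 := by
    simp [hU, hF]
  have hUlim : Filter.Tendsto U Filter.atTop (nhds 0) := by
    have h1 : Filter.Tendsto (fun n : ℕ => (n : ℝ) ^ 2 * k.r ^ n * nf) Filter.atTop (nhds 0) := by
      have := (tendsto_pow_const_mul_const_pow_of_abs_lt_one 2
        (show |k.r| < 1 by rw [abs_of_nonneg k.hr0]; exact k.hr)).mul_const nf
      rwa [zero_mul] at this
    refine squeeze_zero_norm (fun j => ?_) h1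
    rw [Real.norm_eq_abs]
    refine (M.g7_bdd (k.measurable_w j) (k.w_nonneg j) (k.w_le j) (hFi j)).2.trans ?_
    calc k.r ^ j * ∫ ξ, |F j ξ| ∂M.P ≤ k.r ^ j * ((j : ℝ) ^ 2 * nf) :=
          mul_le_mul_of_nonneg_left (hFb j) (pow_nonneg k.hr0 _)
      _ = (j : ℝ) ^ 2 * k.r ^ j * nf := by ring
  -- the increments
  have hinc : ∀ j, ∫ ξ, k.w (j + 1) ξ * F (j + 1) ξ ∂M.P =
      ∫ ξ, k.w (j + 1) ξ * F j ξ ∂M.P + (E j 0 + 2 * u j) := by
    intro j
    have hwff : ∀ a c, Integrable (fun ξ : ℕ → S => k.w (j + 1) ξ * (f (ξ a) * f (ξ c))) M.P :=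
      fun a c => (M.g7_bdd (k.measurable_w (j + 1)) (k.w_nonneg _) (k.w_le _) (hff a c)).1
    have e1 : ∀ i ∈ Finset.range j, E i (j - i) =
        ∫ ξ, k.w (j + 1) ξ * (f (ξ (i + 1)) * f (ξ (j + 1))) ∂M.P := by
      intro i hi
      have h1 := Finset.mem_range.mp hi
      simp only [hE]
      rw [show i + (j - i) + 1 = j + 1 by omega]
    have e2 : u j = ∫ ξ, ∑ i ∈ Finset.range j,
        k.w (j + 1) ξ * (f (ξ (i + 1)) * f (ξ (j + 1))) ∂M.P := by
      rw [integral_finsetSum _ (fun i _ => hwff (i + 1) (j + 1))]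
      exact Finset.sum_congr rfl e1
    have e3 : E j 0 = ∫ ξ, k.w (j + 1) ξ * (f (ξ (j + 1)) * f (ξ (j + 1))) ∂M.P := rfl
    have hi2 : Integrable (fun ξ : ℕ → S => ∑ i ∈ Finset.range j,
        k.w (j + 1) ξ * (f (ξ (i + 1)) * f (ξ (j + 1)))) M.P :=
      integrable_finsetSum _ (fun i _ => hwff (i + 1) (j + 1))
    have hi3 : Integrable (fun ξ : ℕ → S => k.w (j + 1) ξ * (f (ξ (j + 1)) * f (ξ (j + 1))) +
        2 * ∑ i ∈ Finset.range j, k.w (j + 1) ξ * (f (ξ (i + 1)) * f (ξ (j + 1)))) M.P :=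
      (hwff (j + 1) (j + 1)).add (hi2.const_mul 2)
    rw [e2, e3, ← integral_const_mul, ← integral_add (hwff _ _) (hi2.const_mul 2),
      ← integral_add (hwF _ _) hi3]
    refine integral_congr_ae (Filter.Eventually.of_forall fun ξ => ?_)
    simp only [hF]
    rw [Finset.sum_range_succ, ← Finset.mul_sum, ← Finset.sum_mul]
    ring
  have hstep : ∀ j, ∫ ξ, k.W j ξ • F j ξ ∂M.P = U j - U (j + 1) + (E j 0 + 2 * u j) := by
    intro j
    have h1 : ∫ ξ, k.W j ξ • F j ξ ∂M.P =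
        ∫ ξ, k.w j ξ * F j ξ ∂M.P - ∫ ξ, k.w (j + 1) ξ * F j ξ ∂M.P := by
      rw [← integral_sub (hwF _ _) (hwF _ _)]
      refine integral_congr_ae (Filter.Eventually.of_forall fun ξ => ?_)
      simp only [smul_eq_mul]
      rw [k.W_eq]
      ring
    have h2 := hinc j
    simp only [hU]
    rw [h1, h2]
    ring
  -- integrability over the gap measure
  have hFΘ : Integrable (fun p : ℕ × (ℕ → S) => F p.1 p.2) (M.Θ k) := by
    have h1 := M.memLp_Θ_sum k (fun i ξ => if i = 0 then 0 else f (ξ i))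
      (by
        intro i
        by_cases hi : i = 0
        · simp only [hi, if_true]
          exact measurable_const
        · simp only [hi, if_false]
          exact hf.comp (measurable_pi_apply i)) nf
      (by
        intro i
        by_cases hi : i = 0
        · simp only [hi, if_true]
          exact MemLp.zero'
        · simp only [hi, if_false]
          exact hfe i)
      (by
        intro i
        by_cases hi : i = 0
        · simp only [hi, if_true]
          simpa using hnf0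
        · simp only [hi, if_false]
          exact (hfsq i).le)
    have h2 := h1.integrable_sq
    refine h2.congr (Filter.Eventually.of_forall fun p => ?_)
    simp only [hF]
    rw [Finset.sum_range_succ']
    simp
  obtain ⟨-, hΘ⟩ := M.integral_Θ k (fun p : ℕ × (ℕ → S) => F p.1 p.2) hFΘ
  have hΘ2 := hΘ.tendsto_sum_nat
  simp only [hstep] at hΘ2
  have hsumm : ∀ n, ∑ j ∈ Finset.range n, (U j - U (j + 1) + (E j 0 + 2 * u j)) =
      (U 0 - U n) + (∑ j ∈ Finset.range n, E j 0 + 2 * ∑ j ∈ Finset.range n, u j) := by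
    intro n
    rw [Finset.sum_add_distrib, Finset.sum_range_sub', Finset.sum_add_distrib, Finset.mul_sum]
  simp only [hsumm] at hΘ2
  have hlim : Filter.Tendsto (fun n => (U 0 - U n) +
      (∑ j ∈ Finset.range n, E j 0 + 2 * ∑ j ∈ Finset.range n, u j)) Filter.atTop
      (nhds ((U 0 - 0) + (∫ x, k.χ x * f x * b 0 x ∂M.ν + 2 * T))) :=
    (hUlim.const_sub (U 0)).add (((hEs 0).tendsto_sum_nat).add (hT2.tendsto_sum_nat.const_mul 2))
  have hfinal := tendsto_nhds_unique hΘ2 hlim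
  have hb0' : ∫ x, k.χ x * f x * b 0 x ∂M.ν = ∫ x, k.χ x * (f x) ^ 2 ∂M.ν := by
    refine integral_congr_ae (Filter.Eventually.of_forall fun x => ?_)
    simp only [hb0]
    ring
  rw [hU0, hb0', sub_zero, zero_add] at hfinal
  exact hfinal

end Pool.Agent.H45.CLT
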