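import Pool.Agent.H45.CLT.EnergyFB
import Pool.Agent.H45.CLT.Gap7

/-!
# Module ENERGY: the energy lemma.
`E_Θ S_exc² = ∫χf² + 2∑_{t≥1}∫χ f b_t ≤ ∫_B f² + ∑_{t≥1} ∫_B (a_{⌈t/2⌉}² + b_{⌊t/2⌋}²) ≤ δ + 24 δ`.
-/

set_option autoImplicit false

open MeasureTheory ProbabilityTheory
open scoped ENNReal NNReal

namespace Pool.Agent.H45.CLT

variable {S : Type} [MeasurableSpace S]

/-- `∫ χ f (Qχ)^{s+t} f = ∫ χ ((Q*χ)^s f) ((Qχ)^t f)` -/
theorem Chain.cut_split (M : Chain S) (k : Cut S) (f : S → ℝ) (hf : MemLp f 2 M.ν)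
    (b a : ℕ → S → ℝ) (hb0 : b 0 = f) (ha0 : a 0 = f)
    (hb : ∀ q, M.Fwd (fun x => k.χ x * b q x) (b (q + 1)))
    (ha : ∀ p, M.Bwd (fun x => k.χ x * a p x) (a (p + 1))) (s t : ℕ) :
    ∫ x, k.χ x * f x * b (s + t) x ∂M.ν = ∫ x, k.χ x * a s x * b t x ∂M.ν := by
  induction s generalizing t with
  | zero => rw [ha0, Nat.zero_add]
  | succ s ih =>
    have h1 : s + 1 + t = s + (t + 1) := by ring
    rw [h1, ih (t + 1)]
    have h2 := Chain.adj (hb t) (ha s)
    rw [h2]
    refine integral_congr_ae (Filter.Eventually.of_forall fun x => ?_)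
    show a (s + 1) x * (k.χ x * b t x) = k.χ x * a (s + 1) x * b t x
    ring

/-- the elementary bound for one covariance of the cut chain -/
theorem Model.energy_term (M : Model S) (K : ℝ) (I : ℕ) (g h : S → ℝ)
    (hg : MemLp g 2 M.ν) (hh : MemLp h 2 M.ν) :
    2 * |∫ x, (M.cut K I).χ x * g x * h x ∂M.ν|
      ≤ ∫ x in M.B K, (g x) ^ 2 ∂M.ν + ∫ x in M.B K, (h x) ^ 2 ∂M.ν := by
  have hB := M.measurableSet_B K
  have h1 : ∫ x, (M.cut K I).χ x * g x * h x ∂M.ν
      = ∫ x in M.B K, rr I * (g x * h x) ∂M.ν := by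
    rw [← integral_indicator hB]
    refine integral_congr_ae (Filter.Eventually.of_forall fun x => ?_)
    show (M.B K).indicator (fun _ => rr I) x * g x * h x
      = (M.B K).indicator (fun x => rr I * (g x * h x)) x
    by_cases hx : x ∈ M.B K
    · rw [Set.indicator_of_mem hx, Set.indicator_of_mem hx]
      ring
    · rw [Set.indicator_of_notMem hx, Set.indicator_of_notMem hx]
      ring
  have hg2 : Integrable (fun x => (g x) ^ 2) (M.ν.restrict (M.B K)) :=
    (hg.integrable_sq).integrableOn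
  have hh2 : Integrable (fun x => (h x) ^ 2) (M.ν.restrict (M.B K)) :=
    (hh.integrable_sq).integrableOn
  have h2 : |∫ x in M.B K, rr I * (g x * h x) ∂M.ν|
      ≤ ∫ x in M.B K, (1 / 2) * ((g x) ^ 2 + (h x) ^ 2) ∂M.ν := by
    refine (abs_integral_le_integral_abs).trans ?_
    refine integral_mono_of_nonneg (Filter.Eventually.of_forall fun x => abs_nonneg _)
      ((hg2.add hh2).const_mul _) (Filter.Eventually.of_forall fun x => ?_)
    show |rr I * (g x * h x)| ≤ (1 / 2) * ((g x) ^ 2 + (h x) ^ 2)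
    rw [abs_mul, abs_of_nonneg (rr_nonneg I), abs_mul]
    have h3 : rr I * (|g x| * |h x|) ≤ 1 * (|g x| * |h x|) :=
      mul_le_mul_of_nonneg_right (rr_lt_one I).le (by positivity)
    have h4 : 2 * (|g x| * |h x|) ≤ (g x) ^ 2 + (h x) ^ 2 := by
      have := two_mul_le_add_sq |g x| |h x|
      rw [sq_abs, sq_abs] at this
      linarith
    linarith
  have h5 : ∫ x in M.B K, (1 / 2) * ((g x) ^ 2 + (h x) ^ 2) ∂M.ν
      = (1 / 2) * (∫ x in M.B K, (g x) ^ 2 ∂M.ν + ∫ x in M.B K, (h x) ^ 2 ∂M.ν) := by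
    rw [integral_const_mul, integral_add hg2 hh2]
  rw [h5] at h2
  rw [h1]
  linarith

/-- **Energy lemma**: `E_Θ (∑_{0<i<ℓ} f(ξ_i))² ≤ 25 δ_K`, uniformly in `I`. -/
theorem Model.energy (M : Model S) (K : ℝ) (hK : 0 ≤ K) (I : ℕ) :
    ∫ p, (M.Se p) ^ 2 ∂(M.Θ (M.cut K I)) ≤ 25 * M.δ K := by
  obtain ⟨b, hb0, hb, hbs⟩ := M.energy_fwd K hK I
  obtain ⟨a, ha0, ha, has⟩ := M.energy_bwd K hK I
  obtain ⟨hsum, heq⟩ := M.toChain.gap_energy (M.cut K I) M.f b M.measurable_f M.memLp_f hb0 hb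
  have hbL : ∀ q, MemLp (b q) 2 M.ν := by
    intro q
    cases q with
    | zero => rw [hb0]; exact M.memLp_f
    | succ q => exact (hb q).l2'
  have haL : ∀ q, MemLp (a q) 2 M.ν := by
    intro q
    cases q with
    | zero => rw [ha0]; exact M.memLp_f
    | succ q => exact (ha q).l2'
  have hδ := M.δ_nonneg K
  -- diagonal term
  have hdiag : ∫ x, (M.cut K I).χ x * (M.f x) ^ 2 ∂M.ν ≤ M.δ K := by
    have hB := M.measurableSet_B K
    have h1 : ∫ x, (M.cut K I).χ x * (M.f x) ^ 2 ∂M.ν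
        = ∫ x in M.B K, rr I * (M.f x) ^ 2 ∂M.ν := by
      rw [← integral_indicator hB]
      refine integral_congr_ae (Filter.Eventually.of_forall fun x => ?_)
      show (M.B K).indicator (fun _ => rr I) x * (M.f x) ^ 2
        = (M.B K).indicator (fun x => rr I * (M.f x) ^ 2) x
      by_cases hx : x ∈ M.B K
      · rw [Set.indicator_of_mem hx, Set.indicator_of_mem hx]
      · rw [Set.indicator_of_notMem hx, Set.indicator_of_notMem hx]
        ring
    rw [h1]
    unfold Model.δ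
    refine integral_mono_of_nonneg (Filter.Eventually.of_forall fun x =>
      mul_nonneg (rr_nonneg I) (sq_nonneg _)) M.integrable_AC.integrableOn
      (Filter.Eventually.of_forall fun x => ?_)
    show rr I * (M.f x) ^ 2 ≤ M.A x + M.C x
    have h3 : rr I * (M.f x) ^ 2 ≤ 1 * (M.f x) ^ 2 :=
      mul_le_mul_of_nonneg_right (rr_lt_one I).le (sq_nonneg _)
    have h4 := M.f_sq_le_A x
    have h5 := M.C_nonneg x
    linarith
  -- the off-diagonal terms
  set F : ℕ → ℝ := fun t => ∫ x, (M.cut K I).χ x * M.f x * b (t + 1) x ∂M.ν with hF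
  set β' : ℕ → ℝ := fun q => ∫ x in M.B K, (b q x) ^ 2 ∂M.ν with hβ'
  set α' : ℕ → ℝ := fun q => ∫ x in M.B K, (a q x) ^ 2 ∂M.ν with hα'
  have hα0 : ∀ q, 0 ≤ α' q := fun q => integral_nonneg fun x => sq_nonneg _
  have hβ0 : ∀ q, 0 ≤ β' q := fun q => integral_nonneg fun x => sq_nonneg _
  have hterm : ∀ s t, 2 * ∫ x, (M.cut K I).χ x * M.f x * b (s + t) x ∂M.ν ≤ α' s + β' t := by
    intro s t
    rw [M.toChain.cut_split (M.cut K I) M.f M.memLp_f b a hb0 ha0 hb ha s t]
    have h1 := M.energy_term K I (a s) (b t) (haL s) (hbL t)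
    have h2 := le_abs_self (∫ x, (M.cut K I).χ x * a s x * b t x ∂M.ν)
    linarith
  have hpart : ∀ N : ℕ, 2 * ∑ t ∈ Finset.range (2 * N), F t
      ≤ 2 * ∑ s ∈ Finset.range N, α' (s + 1) + ∑ s ∈ Finset.range N, β' s
        + ∑ s ∈ Finset.range N, β' (s + 1) := by
    intro N
    induction N with
    | zero => simp
    | succ N ih =>
      rw [show 2 * (N + 1) = 2 * N + 1 + 1 by ring, Finset.sum_range_succ, Finset.sum_range_succ,
        Finset.sum_range_succ (fun s => α' (s + 1)), Finset.sum_range_succ (fun s => β' s),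
        Finset.sum_range_succ (fun s => β' (s + 1))]
      have h1 := hterm (N + 1) N
      have h2 := hterm (N + 1) (N + 1)
      have e1 : F (2 * N) = ∫ x, (M.cut K I).χ x * M.f x * b (N + 1 + N) x ∂M.ν := by
        simp only [hF]
        rw [show N + 1 + N = 2 * N + 1 by ring]
      have e2 : F (2 * N + 1) = ∫ x, (M.cut K I).χ x * M.f x * b (N + 1 + (N + 1)) x ∂M.ν := by
        simp only [hF]
        rw [show N + 1 + (N + 1) = 2 * N + 1 + 1 by ring]
      rw [← e1] at h1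
      rw [← e2] at h2
      linarith
  have hpart2 : ∀ N : ℕ, 2 * ∑ t ∈ Finset.range (2 * N), F t ≤ 24 * M.δ K := by
    intro N
    have h1 := hpart N
    have h2 : ∑ s ∈ Finset.range N, α' (s + 1) ≤ 6 * M.δ K := by
      have h3 := has (N + 1)
      rw [Finset.sum_range_succ'] at h3
      have h4 := hα0 0
      simp only [hα'] at h4 ⊢
      linarith
    have h3 : ∑ s ∈ Finset.range N, β' s ≤ 6 * M.δ K := hbs N
    have h4 : ∑ s ∈ Finset.range N, β' (s + 1) ≤ 6 * M.δ K := by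
      have h3 := hbs (N + 1)
      rw [Finset.sum_range_succ'] at h3
      have h4 := hβ0 0
      simp only [hβ'] at h4 ⊢
      linarith
    linarith
  have hlim : 2 * ∑' t, F t ≤ 24 * M.δ K := by
    have h1 := hsum.hasSum.tendsto_sum_nat
    have h2 : Filter.Tendsto (fun N : ℕ => 2 * N) Filter.atTop Filter.atTop :=
      Filter.tendsto_id.const_mul_atTop' (by norm_num)
    have h3 := (h1.comp h2).const_mul 2
    exact le_of_tendsto h3 (Filter.Eventually.of_forall fun N => hpart2 N)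
  have heq' : ∫ p, (M.Se p) ^ 2 ∂(M.Θ (M.cut K I))
      = ∫ x, (M.cut K I).χ x * (M.f x) ^ 2 ∂M.ν + 2 * ∑' t, F t := heq
  rw [heq']
  linarith

theorem Model.memLp_Se (M : Model S) (k : Cut S) : MemLp M.Se 2 (M.Θ k) := by
  have h1 : MemLp (fun p : ℕ × (ℕ → S) => ∑ i ∈ Finset.range (p.1 + 1), M.f (p.2 i)) 2 (M.Θ k) :=
    M.toChain.memLp_Θ_sum k (fun i ξ => M.f (ξ i))
      (fun i => M.measurable_f.comp (measurable_pi_apply i))
      (∫ x, (M.f x) ^ 2 ∂M.ν) (fun i => M.toChain.memLp_eval M.memLp_f i)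
      (fun i => by
        have := M.toChain.integral_eval i (M.measurable_f.pow_const 2)
        exact this.le)
  have h2 : MemLp (fun p : ℕ × (ℕ → S) => M.f (p.2 0)) 2 (M.Θ k) :=
    M.toChain.memLp_x k 2 M.f M.memLp_f
  refine (h1.sub h2).ae_eq (Filter.Eventually.of_forall fun p => ?_)
  have h3 := M.Sl_eq p
  show ∑ i ∈ Finset.range (p.1 + 1), M.f (p.2 i) - M.f (p.2 0) = M.Se p
  unfold Model.Sl at h3
  linarith

end Pool.Agent.H45.CLT
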