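import Mathlib

/-!
# Module ENERGYCORE: abstract core of the energy lemma.
`E(j,p) = ∫ φ_j γ_p²` satisfies `E(j,p+1) ≤ E(j+1,p) + T(j,p)`, `T(j,p) = ∫ (1-χ) φ'_j a_p²`, `E(j,0)=0`, so
`E(0,p) ≤ ∑_{j<p} T(j,p-1-j)` and `∑_{p<N} E(0,p) ≤ ∑_j ∫ (1-χ) φ'_j A`; off `B`: `A ≤ K` and
`∑_j ∫_{Bᶜ} φ'_j ≤ ∑_j (∫φ_j - ∫φ_{j+1}) ≤ ν(B)`; on `B`: `(1-r) r^j ∫_B A`, sum `≤ ∫_B A`.
-/

set_option autoImplicit false

open MeasureTheory ProbabilityTheory
open scoped ENNReal NNReal

namespace Pool.Agent.H45.CLT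

variable {S : Type} [MeasurableSpace S]

/-- Abstract core (used twice, forward and backward).  `φ_0 = 1_B`, `φ_{j+1} = χ φ'_j`,
`∫ φ'_j = ∫ φ_j` (stationarity), `0 ≤ φ'_j ≤ r^j` a.e., `γ_0 = 0` and the weak Jensen recursion
`∫ φ_j γ_{p+1}² ≤ ∫ φ'_j (χ γ_p² + c a_p²)`.  If `∑ a_p² ≤ A` pointwise and `A ≤ K` off `B` then
`∑_{p<N} ∫_B γ_p² ≤ K ν(B) + ∫_B A`. -/
theorem energy_core (ν : Measure S) [IsProbabilityMeasure ν] (B : Set S) (hB : MeasurableSet B)
    (r : ℝ) (hr0 : 0 ≤ r) (hr1 : r < 1) (K : ℝ) (hK : 0 ≤ K)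
    (A : S → ℝ) (hA : Integrable A ν) (hAm : Measurable A) (hAK : ∀ x, x ∉ B → A x ≤ K)
    (a γ : ℕ → S → ℝ) (ham : ∀ p, Measurable (a p)) (hγm : ∀ p, Measurable (γ p))
    (ha2 : ∀ p, MemLp (a p) 2 ν) (hγ2 : ∀ p, MemLp (γ p) 2 ν)
    (hsum : ∀ x N, ∑ p ∈ Finset.range N, (a p x) ^ 2 ≤ A x)
    (hγ0 : ∀ x, γ 0 x = 0)
    (φ φ' : ℕ → S → ℝ) (hφm : ∀ j, Measurable (φ j)) (hφ'm : ∀ j, Measurable (φ' j))
    (hφ0 : φ 0 = B.indicator (fun _ => 1))
    (hφs : ∀ j x, φ (j + 1) x = B.indicator (fun _ => r) x * φ' j x)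
    (hφ'0 : ∀ j, ∀ᵐ x ∂ν, 0 ≤ φ' j x) (hφ'1 : ∀ j, ∀ᵐ x ∂ν, φ' j x ≤ r ^ j)
    (hmean : ∀ j, ∫ x, φ' j x ∂ν = ∫ x, φ j x ∂ν)
    (hrec : ∀ j p, ∫ x, φ j x * (γ (p + 1) x) ^ 2 ∂ν
      ≤ ∫ x, φ' j x * (B.indicator (fun _ => r) x * (γ p x) ^ 2
          + (1 - B.indicator (fun _ => r) x) * (a p x) ^ 2) ∂ν) (N : ℕ) :
    ∑ p ∈ Finset.range N, ∫ x in B, (γ p x) ^ 2 ∂ν
      ≤ K * (ν B).toReal + ∫ x in B, A x ∂ν := by
  have hA0 : ∀ x, 0 ≤ A x := fun x => by simpa using hsum x 0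
  set χ : S → ℝ := B.indicator (fun _ => r) with hχ
  have hχ0 : ∀ x, 0 ≤ χ x := fun x => Set.indicator_nonneg (fun _ _ => hr0) x
  have hχr : ∀ x, χ x ≤ r := fun x => Set.indicator_le_self' (fun _ _ => hr0) x
  have hχm : Measurable χ := measurable_const.indicator hB
  have hr1' : ∀ j, r ^ j ≤ 1 := fun j => pow_le_one₀ hr0 hr1.le
  have hφ'i : ∀ j (g : S → ℝ), Integrable g ν → Integrable (fun x => φ' j x * g x) ν := by
    intro j g hg
    refine Integrable.bdd_mul (c := 1) hg (hφ'm j).aestronglyMeasurable ?_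
    filter_upwards [hφ'0 j, hφ'1 j] with x h0 h1
    rw [Real.norm_eq_abs, abs_of_nonneg h0]
    exact h1.trans (hr1' j)
  have hχi : ∀ g : S → ℝ, Integrable g ν → Integrable (fun x => χ x * g x) ν := by
    intro g hg
    refine Integrable.bdd_mul (c := 1) hg hχm.aestronglyMeasurable ?_
    filter_upwards with x
    rw [Real.norm_eq_abs, abs_of_nonneg (hχ0 x)]
    exact (hχr x).trans hr1.le
  have hχi' : ∀ g : S → ℝ, Integrable g ν → Integrable (fun x => (1 - χ x) * g x) ν := by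
    intro g hg
    refine Integrable.bdd_mul (c := 1) hg (measurable_const.sub hχm).aestronglyMeasurable ?_
    filter_upwards with x
    have := hχ0 x
    have := hχr x
    rw [Real.norm_eq_abs, abs_of_nonneg (by linarith)]
    linarith
  have hγi : ∀ p, Integrable (fun x => (γ p x) ^ 2) ν := fun p => (hγ2 p).integrable_sq
  have hai : ∀ p, Integrable (fun x => (a p x) ^ 2) ν := fun p => (ha2 p).integrable_sq
  have hφ'int : ∀ j, Integrable (φ' j) ν := by
    intro j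
    have := hφ'i j (fun _ => (1 : ℝ)) (integrable_const _)
    simpa using this
  have hφsint : ∀ j, Integrable (φ (j + 1)) ν := by
    intro j
    have := hχi _ (hφ'int j)
    refine this.congr (ae_of_all _ fun x => ?_)
    simp only [hφs, hχ]
  have hφ0int : Integrable (φ 0) ν := by
    rw [hφ0]
    exact (integrable_const (1 : ℝ)).indicator hB
  have hφint : ∀ j, Integrable (φ j) ν := by
    intro j
    cases j with
    | zero => exact hφ0int
    | succ j => exact hφsint j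
  have hφnn : ∀ j, ∀ᵐ x ∂ν, 0 ≤ φ j x := by
    intro j
    cases j with
    | zero =>
      refine ae_of_all _ fun x => ?_
      rw [hφ0]
      exact Set.indicator_nonneg (fun _ _ => zero_le_one) x
    | succ j =>
      filter_upwards [hφ'0 j] with x h0
      rw [hφs]
      exact mul_nonneg (hχ0 x) h0
  -- the recursion
  set E : ℕ → ℕ → ℝ := fun j p => ∫ x, φ j x * (γ p x) ^ 2 ∂ν with hE
  set T : ℕ → ℕ → ℝ := fun j p => ∫ x, φ' j x * ((1 - χ x) * (a p x) ^ 2) ∂ν with hT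
  set U : ℕ → ℝ := fun j => ∫ x, φ' j x * ((1 - χ x) * A x) ∂ν with hU
  have hErec : ∀ j p, E j (p + 1) ≤ E (j + 1) p + T j p := by
    intro j p
    refine (hrec j p).trans (le_of_eq ?_)
    have h1 : Integrable (fun x => φ (j + 1) x * (γ p x) ^ 2) ν := by
      have := hφ'i j _ (hχi _ (hγi p))
      refine this.congr (ae_of_all _ fun x => ?_)
      simp only [hφs, hχ]
      ring
    have h2 : Integrable (fun x => φ' j x * ((1 - χ x) * (a p x) ^ 2)) ν :=
      hφ'i j _ (hχi' _ (hai p))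
    simp only [hE, hT]
    rw [← integral_add h1 h2]
    refine integral_congr_ae (ae_of_all _ fun x => ?_)
    simp only [hφs]
    ring
  have hE0 : ∀ j, E j 0 = 0 := by
    intro j
    simp [hE, hγ0]
  have hTU : ∀ j N, ∑ p ∈ Finset.range N, T j p ≤ U j := by
    intro j N
    simp only [hT, hU]
    rw [← integral_finsetSum _ (fun p _ => hφ'i j _ (hχi' _ (hai p)))]
    refine integral_mono_ae (integrable_finsetSum _ (fun p _ => hφ'i j _ (hχi' _ (hai p))))
      (hφ'i j _ (hχi' _ hA)) ?_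
    filter_upwards [hφ'0 j] with x h0
    rw [← Finset.mul_sum, ← Finset.mul_sum]
    have h3 : 0 ≤ 1 - χ x := by linarith [hχr x]
    exact mul_le_mul_of_nonneg_left (mul_le_mul_of_nonneg_left (hsum x N) h3) h0
  have hF : ∀ N j, ∑ p ∈ Finset.range N, E j p ≤ ∑ i ∈ Finset.range N, U (j + i) := by
    intro N
    induction N with
    | zero => intro j; simp
    | succ N ih =>
      intro j
      rw [Finset.sum_range_succ', hE0, add_zero, Finset.sum_range_succ' (fun i => U (j + i))]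
      calc ∑ p ∈ Finset.range N, E j (p + 1)
          ≤ ∑ p ∈ Finset.range N, (E (j + 1) p + T j p) :=
            Finset.sum_le_sum fun p _ => hErec j p
        _ = ∑ p ∈ Finset.range N, E (j + 1) p + ∑ p ∈ Finset.range N, T j p :=
            Finset.sum_add_distrib
        _ ≤ ∑ i ∈ Finset.range N, U (j + 1 + i) + U j := add_le_add (ih (j + 1)) (hTU j N)
        _ = ∑ i ∈ Finset.range N, U (j + (i + 1)) + U (j + 0) := by
            congr 1
            exact Finset.sum_congr rfl fun i _ => by rw [add_assoc, add_comm 1 i]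
  have hAB : 0 ≤ ∫ x in B, A x ∂ν := integral_nonneg hA0
  have hUle : ∀ j, U j ≤ K * (∫ x, φ j x ∂ν - ∫ x, φ (j + 1) x ∂ν)
      + (1 - r) * r ^ j * ∫ x in B, A x ∂ν := by
    intro j
    have h1 : ∫ x, (K * (φ' j x - φ (j + 1) x) + (1 - r) * r ^ j * B.indicator A x) ∂ν
        = K * (∫ x, φ j x ∂ν - ∫ x, φ (j + 1) x ∂ν) + (1 - r) * r ^ j * ∫ x in B, A x ∂ν := by
      have i1 : Integrable (fun x => K * (φ' j x - φ (j + 1) x)) ν :=
        ((hφ'int j).sub (hφsint j)).const_mul K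
      have i2 : Integrable (fun x => (1 - r) * r ^ j * B.indicator A x) ν :=
        (hA.indicator hB).const_mul _
      rw [integral_add i1 i2, integral_const_mul, integral_const_mul,
        integral_sub (hφ'int j) (hφsint j), hmean, integral_indicator hB]
    rw [← h1]
    refine integral_mono_ae (hφ'i j _ (hχi' _ hA))
      ((((hφ'int j).sub (hφsint j)).const_mul K).add ((hA.indicator hB).const_mul _)) ?_
    filter_upwards [hφ'0 j, hφ'1 j] with x h0 h1
    simp only [hφs]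
    by_cases hx : x ∈ B
    · simp only [hχ, Set.indicator_of_mem hx]
      have h4 : 0 ≤ K * (φ' j x - r * φ' j x) := by
        have : 0 ≤ φ' j x - r * φ' j x := by nlinarith
        positivity
      have h5 : φ' j x * ((1 - r) * A x) ≤ (1 - r) * r ^ j * A x := by
        have h6 : 0 ≤ (1 - r) * A x := mul_nonneg (by linarith) (hA0 x)
        calc φ' j x * ((1 - r) * A x) ≤ r ^ j * ((1 - r) * A x) :=
              mul_le_mul_of_nonneg_right h1 h6
          _ = (1 - r) * r ^ j * A x := by ring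
      linarith
    · simp only [hχ, Set.indicator_of_notMem hx]
      have := hAK x hx
      nlinarith [mul_le_mul_of_nonneg_left this h0]
  have hsumU : ∀ N, ∑ j ∈ Finset.range N, U j
      ≤ K * (∫ x, φ 0 x ∂ν - ∫ x, φ N x ∂ν) + (1 - r ^ N) * ∫ x in B, A x ∂ν := by
    intro N
    induction N with
    | zero => simp
    | succ N ih =>
      rw [Finset.sum_range_succ]
      refine (add_le_add ih (hUle N)).trans (le_of_eq ?_)
      rw [pow_succ]
      ring
  have hφN : 0 ≤ ∫ x, φ N x ∂ν := integral_nonneg_of_ae (hφnn N)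
  have hφ0val : ∫ x, φ 0 x ∂ν = (ν B).toReal := by
    rw [hφ0, integral_indicator hB]
    simp [Measure.real]
  have hleft : ∀ p, ∫ x in B, (γ p x) ^ 2 ∂ν = E 0 p := by
    intro p
    simp only [hE, hφ0]
    rw [← integral_indicator hB]
    refine integral_congr_ae (ae_of_all _ fun x => ?_)
    by_cases hx : x ∈ B
    · simp [Set.indicator_of_mem hx]
    · simp [Set.indicator_of_notMem hx]
  calc ∑ p ∈ Finset.range N, ∫ x in B, (γ p x) ^ 2 ∂ν
      = ∑ p ∈ Finset.range N, E 0 p := Finset.sum_congr rfl fun p _ => hleft p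
    _ ≤ ∑ i ∈ Finset.range N, U (0 + i) := hF N 0
    _ = ∑ i ∈ Finset.range N, U i := by simp
    _ ≤ K * (∫ x, φ 0 x ∂ν - ∫ x, φ N x ∂ν) + (1 - r ^ N) * ∫ x in B, A x ∂ν := hsumU N
    _ ≤ K * (ν B).toReal + ∫ x in B, A x ∂ν := by
        rw [hφ0val]
        have h7 : 0 ≤ r ^ N := pow_nonneg hr0 N
        nlinarith [mul_nonneg hK hφN, mul_nonneg h7 hAB]

end Pool.Agent.H45.CLT
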