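import Pool.Agent.H45.CLT.Pot1

/-!
# Module POT3: the bad set and the soft cut.
-/

set_option autoImplicit false

open MeasureTheory ProbabilityTheory
open scoped ENNReal NNReal

namespace Pool.Agent.H45.CLT

variable {S : Type} [MeasurableSpace S]

namespace Model

variable (M : Model S)

theorem measurableSet_B (K : ℝ) : MeasurableSet (M.B K) :=
  measurableSet_lt measurable_const (M.measurable_A.add M.measurable_C)

theorem integrable_AC : Integrable (fun x => M.A x + M.C x) M.ν :=
  M.integrable_A.add M.integrable_C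

theorem δ_nonneg (K : ℝ) : 0 ≤ M.δ K :=
  setIntegral_nonneg (M.measurableSet_B K) fun x _ => add_nonneg (M.A_nonneg x) (M.C_nonneg x)

/-- `K ν(B_K) ≤ δ_K` -/
theorem K_mul_le (K : ℝ) (hK : 0 ≤ K) : K * (M.ν (M.B K)).toReal ≤ M.δ K := by
  have h : ∫ _x in M.B K, K ∂M.ν ≤ ∫ x in M.B K, (M.A x + M.C x) ∂M.ν :=
    setIntegral_mono_on (integrableOn_const (measure_ne_top _ _)) M.integrable_AC.integrableOn
      (M.measurableSet_B K) fun x hx => le_of_lt hx
  rw [setIntegral_const, smul_eq_mul] at h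
  rw [mul_comm]
  exact h

theorem tendsto_δ : Filter.Tendsto M.δ Filter.atTop (nhds 0) := by
  have h1 : ∀ K, M.δ K = ∫ x, (M.B K).indicator (fun x => M.A x + M.C x) x ∂M.ν := fun K =>
    (integral_indicator (M.measurableSet_B K)).symm
  have h2 : Filter.Tendsto
      (fun K => ∫ x, (M.B K).indicator (fun x => M.A x + M.C x) x ∂M.ν)
      Filter.atTop (nhds (∫ _x, (0 : ℝ) ∂M.ν)) := by
    refine tendsto_integral_filter_of_dominated_convergence (fun x => M.A x + M.C x)
      (Filter.Eventually.of_forall fun K => ?_) (Filter.Eventually.of_forall fun K => ?_)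
      M.integrable_AC ?_
    · exact (M.integrable_AC.1.indicator (M.measurableSet_B K))
    · refine Filter.Eventually.of_forall fun x => ?_
      rw [Real.norm_eq_abs, abs_of_nonneg]
      · exact Set.indicator_le_self' (fun _ _ => add_nonneg (M.A_nonneg x) (M.C_nonneg x)) x
      · exact Set.indicator_nonneg (fun x _ => add_nonneg (M.A_nonneg x) (M.C_nonneg x)) x
    · refine Filter.Eventually.of_forall fun x => ?_
      refine tendsto_const_nhds.congr' ?_
      filter_upwards [Filter.eventually_ge_atTop (M.A x + M.C x)] with K hK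
      rw [Set.indicator_of_notMem]
      exact not_lt.mpr hK
  rw [integral_zero] at h2
  exact h2.congr fun K => (h1 K).symm

/-- off `B_K`, `A + C ≤ K` -/
theorem le_of_notMem_B {K : ℝ} {x : S} (h : x ∉ M.B K) : M.A x + M.C x ≤ K := not_lt.mp h

/-- the soft cut `χ = r_I 1_{B_K}` -/
noncomputable def cut (K : ℝ) (I : ℕ) : Cut S where
  χ := (M.B K).indicator (fun _ => rr I)
  r := rr I
  hm := measurable_const.indicator (M.measurableSet_B K)
  h0 := fun x => Set.indicator_nonneg (fun _ _ => rr_nonneg I) x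
  h1 := fun x => Set.indicator_le_self' (fun _ _ => rr_nonneg I) x
  hr0 := rr_nonneg I
  hr := rr_lt_one I

/-- the sum over the interior of the gap, `∑_{0<i<ℓ} f(ξ_i)` -/
def Se (p : ℕ × (ℕ → S)) : ℝ := ∑ i ∈ Finset.range p.1, M.f (p.2 (i + 1))

/-- `S_ℓ = ∑_{i<ℓ} f(ξ_i)` -/
def Sl (p : ℕ × (ℕ → S)) : ℝ := ∑ i ∈ Finset.range (p.1 + 1), M.f (p.2 i)

theorem Sl_eq (p : ℕ × (ℕ → S)) : M.Sl p = M.f (p.2 0) + M.Se p := by
  unfold Sl Se
  rw [Finset.sum_range_succ', add_comm]

end Model

end Pool.Agent.H45.CLT
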