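import Pool.Agent.H45.CLT.EnergyCore
import Pool.Agent.H45.CLT.Pot3
import Pool.Agent.H45.CLT.PathB

/-!
# Auxiliary facts for module ENERGYFB: bounded choice of `Q*φ`, the abstract energy estimate.
-/

set_option autoImplicit false

open MeasureTheory ProbabilityTheory
open scoped ENNReal NNReal

namespace Pool.Agent.H45.CLT

variable {S : Type} [MeasurableSpace S]

theorem memLp_of_bdd (M : Chain S) (c : ℝ) (φ : S → ℝ) (hφ : Measurable φ)
    (h0 : ∀ x, 0 ≤ φ x) (h1 : ∀ x, φ x ≤ c) (p : ℝ≥0∞) : MemLp φ p M.ν := by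
  refine MemLp.of_bound hφ.aestronglyMeasurable c (ae_of_all _ fun x => ?_)
  rw [Real.norm_eq_abs, abs_of_nonneg (h0 x)]
  exact h1 x

/-- stationarity: `∫ Qφ dν = ∫ φ dν` for `L²` functions -/
theorem Chain.Fwd.mean {M : Chain S} {g g' : S → ℝ} (h : M.Fwd g g') :
    ∫ x, g' x ∂M.ν = ∫ x, g x ∂M.ν := by
  have h2 := h.pair (fun _ => 1) measurable_const (memLp_const 1)
  simp only [one_mul] at h2
  rw [← h2]
  have h3 := (M.mp_eval 1).map_eq
  rw [← h3, integral_map (M.mp_eval 1).measurable.aemeasurable h.m.aestronglyMeasurable]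

theorem Chain.Bwd.mean {M : Chain S} {g g' : S → ℝ} (h : M.Bwd g g') :
    ∫ x, g' x ∂M.ν = ∫ x, g x ∂M.ν := by
  have h2 := h.eq (fun _ => 1) measurable_const ⟨1, fun _ => by simp⟩
  simpa using h2

/-- bounded nonnegative choice of `Q φ` -/
theorem Chain.exists_fwd_bdd (M : Chain S) (c : ℝ) (φ : S → ℝ) (hφ : Measurable φ)
    (h0 : ∀ x, 0 ≤ φ x) (h1 : ∀ x, φ x ≤ c) :
    ∃ φ' : S → ℝ, M.Fwd φ φ' ∧ (∀ x, 0 ≤ φ' x ∧ φ' x ≤ c) := by
  have hF := M.exists_fwd φ hφ (memLp_of_bdd M c φ hφ h0 h1 2)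
  refine ⟨_, hF, fun x => ⟨integral_nonneg h0, ?_⟩⟩
  have hi : Integrable φ (M.Q x) := by
    refine Integrable.of_bound hφ.aestronglyMeasurable c (ae_of_all _ fun z => ?_)
    rw [Real.norm_eq_abs, abs_of_nonneg (h0 z)]
    exact h1 z
  calc ∫ z, φ z ∂(M.Q x) ≤ ∫ _, c ∂(M.Q x) := integral_mono hi (integrable_const c) h1
    _ = c := by simp

/-- bounded nonnegative choice of `Q* φ` -/
theorem Chain.exists_bwd_bdd (M : Chain S) (c : ℝ) (φ : S → ℝ) (hφ : Measurable φ)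
    (h0 : ∀ x, 0 ≤ φ x) (h1 : ∀ x, φ x ≤ c) (hc : 0 ≤ c) :
    ∃ φ' : S → ℝ, M.Bwd φ φ' ∧ (∀ x, 0 ≤ φ' x ∧ φ' x ≤ c) := by
  obtain ⟨g, hg⟩ := M.exists_bwd φ hφ (memLp_of_bdd M c φ hφ h0 h1 2)
  have hgi : Integrable g M.ν := hg.l2'.integrable (by norm_num)
  have hφi : Integrable φ M.ν := hg.l2.integrable (by norm_num)
  have key : ∀ s : Set S, MeasurableSet s →
      ∫ x in s, g x ∂M.ν = ∫ x, (M.Q x).real s * φ x ∂M.ν := by
    intro s hs
    have h2 := hg.eq (s.indicator fun _ => 1) (measurable_const.indicator hs)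
      ⟨1, fun x => by
        by_cases hx : x ∈ s
        · simp [Set.indicator_of_mem hx]
        · simp [Set.indicator_of_notMem hx]⟩
    have h3 : ∀ x, (∫ z, s.indicator (fun _ => (1 : ℝ)) z ∂(M.Q x)) = (M.Q x).real s := by
      intro x
      rw [integral_indicator hs]
      simp
    simp only [h3] at h2
    rw [← h2, ← integral_indicator hs]
    refine integral_congr_ae (ae_of_all _ fun x => ?_)
    by_cases hx : x ∈ s
    · simp [Set.indicator_of_mem hx]
    · simp [Set.indicator_of_notMem hx]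
  have hQm : ∀ s : Set S, MeasurableSet s → Measurable fun x => (M.Q x).real s := by
    intro s hs
    exact (M.Q.measurable_coe hs).ennreal_toReal
  have hQ0 : ∀ (s : Set S) x, 0 ≤ (M.Q x).real s := fun s x => measureReal_nonneg
  have hQ1 : ∀ (s : Set S) x, (M.Q x).real s ≤ 1 := fun s x => measureReal_le_one
  have hQi : ∀ s : Set S, MeasurableSet s → Integrable (fun x => (M.Q x).real s) M.ν := by
    intro s hs
    refine Integrable.of_bound (hQm s hs).aestronglyMeasurable 1 (ae_of_all _ fun x => ?_)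
    rw [Real.norm_eq_abs, abs_of_nonneg (hQ0 s x)]
    exact hQ1 s x
  have hstat : ∀ s : Set S, MeasurableSet s → ∫ x, (M.Q x).real s ∂M.ν = M.ν.real s := by
    intro s hs
    have h2 := congrArg (fun μ : Measure S => μ s) M.bind_eq
    simp only [Measure.bind_apply hs M.Q.aemeasurable] at h2
    rw [Measure.real, ← h2, integral_eq_lintegral_of_nonneg_ae
      (ae_of_all _ (hQ0 s)) (hQm s hs).aestronglyMeasurable]
    congr 1
    refine lintegral_congr fun x => ?_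
    rw [Measure.real, ENNReal.ofReal_toReal (measure_ne_top _ _)]
  have hg0 : ∀ᵐ x ∂M.ν, 0 ≤ g x := by
    refine ae_nonneg_of_forall_setIntegral_nonneg hgi fun s hs _ => ?_
    rw [key s hs]
    exact integral_nonneg fun x => mul_nonneg (hQ0 s x) (h0 x)
  have hg1 : ∀ᵐ x ∂M.ν, g x ≤ c := by
    refine ae_le_of_forall_setIntegral_le hgi (integrable_const c) fun s hs _ => ?_
    rw [key s hs]
    calc ∫ x, (M.Q x).real s * φ x ∂M.ν ≤ ∫ x, (M.Q x).real s * c ∂M.ν := by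
          refine integral_mono ?_ ((hQi s hs).mul_const c) fun x =>
            mul_le_mul_of_nonneg_left (h1 x) (hQ0 s x)
          refine Integrable.bdd_mul (c := 1) hφi (hQm s hs).aestronglyMeasurable
            (ae_of_all _ fun x => ?_)
          rw [Real.norm_eq_abs, abs_of_nonneg (hQ0 s x)]
          exact hQ1 s x
      _ = ∫ x in s, c ∂M.ν := by
          rw [integral_mul_const, hstat s hs]
          simp [Measure.real]
  have hae : (fun x => max 0 (min (g x) c)) =ᵐ[M.ν] g := by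
    filter_upwards [hg0, hg1] with x h2 h3
    rw [min_eq_left h3, max_eq_right h2]
  refine ⟨fun x => max 0 (min (g x) c), ⟨hφ, measurable_const.max (hg.m'.min measurable_const),
    hg.l2, (memLp_congr_ae hae).mpr hg.l2', ?_⟩, fun x => ⟨le_max_left _ _, ?_⟩⟩
  · intro ψ hψ hψb
    rw [← hg.eq ψ hψ hψb]
    refine integral_congr_ae ?_
    filter_upwards [hae] with x hx
    rw [hx]
  · exact max_le hc (min_le_right _ _)

/-- the energy estimate, for both directions at once -/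
theorem Model.energy_abs (M : Model S) (K : ℝ) (hK : 0 ≤ K) (I : ℕ)
    (R R' : (S → ℝ) → (S → ℝ) → Prop)
    (hsub : ∀ {g g' h h' : S → ℝ}, R g g' → R h h' →
      R (fun x => g x - h x) (fun x => g' x - h' x))
    (hRm : ∀ {g g' : S → ℝ}, R g g' → Measurable g' ∧ MemLp g' 2 M.ν)
    (hch : ∀ (c : ℝ) (φ : S → ℝ), Measurable φ → (∀ x, 0 ≤ φ x) → (∀ x, φ x ≤ c) → 0 ≤ c →
      ∃ φ', R' φ φ' ∧ Measurable φ' ∧ (∀ x, 0 ≤ φ' x ∧ φ' x ≤ c) ∧
        ∫ x, φ' x ∂M.ν = ∫ x, φ x ∂M.ν)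
    (hJ : ∀ {h h' φ φ' : S → ℝ}, R h h' → R' φ φ' → (∀ x, 0 ≤ φ x) → (∃ C : ℝ, ∀ x, φ x ≤ C) →
      (∃ C : ℝ, ∀ x, |φ' x| ≤ C) →
      ∫ x, φ x * (h' x) ^ 2 ∂M.ν ≤ ∫ x, φ' x * (h x) ^ 2 ∂M.ν)
    (β b : ℕ → S → ℝ) (C : S → ℝ) (hC : Integrable C M.ν) (hCm : Measurable C)
    (hC0 : ∀ x, 0 ≤ C x) (hCle : ∀ x, C x ≤ M.A x + M.C x)
    (hsum : ∀ x N, ∑ q ∈ Finset.range N, (β q x) ^ 2 ≤ C x)
    (hβm : ∀ q, Measurable (β q)) (hβ2 : ∀ q, MemLp (β q) 2 M.ν)
    (hβ : ∀ q, R (β q) (β (q + 1))) (hb0 : b 0 = β 0)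
    (hb : ∀ q, R (fun x => (M.cut K I).χ x * b q x) (b (q + 1))) (N : ℕ) :
    ∑ q ∈ Finset.range N, ∫ x in M.B K, (b q x) ^ 2 ∂M.ν ≤ 6 * M.δ K := by
  have hBm := M.measurableSet_B K
  set k := M.cut K I with hk
  have hkr : k.χ = (M.B K).indicator (fun _ => rr I) := rfl
  have hbm : ∀ q, Measurable (b q) := by
    intro q
    cases q with
    | zero => rw [hb0]; exact hβm 0
    | succ q => exact (hRm (hb q)).1
  have hb2 : ∀ q, MemLp (b q) 2 M.ν := by
    intro q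
    cases q with
    | zero => rw [hb0]; exact hβ2 0
    | succ q => exact (hRm (hb q)).2
  -- the test functions
  choose T hT using fun (c : ℝ) (φ : S → ℝ) => show ∃ φ' : S → ℝ, (Measurable φ →
      (∀ x, 0 ≤ φ x) → (∀ x, φ x ≤ c) → 0 ≤ c →
      R' φ φ' ∧ Measurable φ' ∧ (∀ x, 0 ≤ φ' x ∧ φ' x ≤ c) ∧
        ∫ x, φ' x ∂M.ν = ∫ x, φ x ∂M.ν) by
    by_cases h : Measurable φ ∧ (∀ x, 0 ≤ φ x) ∧ (∀ x, φ x ≤ c) ∧ 0 ≤ c
    · obtain ⟨φ', h'⟩ := hch c φ h.1 h.2.1 h.2.2.1 h.2.2.2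
      exact ⟨φ', fun _ _ _ _ => h'⟩
    · exact ⟨0, fun h1 h2 h3 h4 => absurd ⟨h1, h2, h3, h4⟩ h⟩
  have hr0 : 0 ≤ rr I := rr_nonneg I
  have hr1 : rr I < 1 := rr_lt_one I
  let φ : ℕ → S → ℝ := fun j => Nat.rec ((M.B K).indicator (fun _ => 1))
    (fun j φj => fun x => (M.B K).indicator (fun _ => rr I) x * T ((rr I) ^ j) φj x) j
  have hφ0 : φ 0 = (M.B K).indicator (fun _ => 1) := rfl
  have hφs : ∀ j x, φ (j + 1) x
      = (M.B K).indicator (fun _ => rr I) x * T ((rr I) ^ j) (φ j) x := fun j x => rfl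
  have hφp : ∀ j, Measurable (φ j) ∧ (∀ x, 0 ≤ φ j x) ∧ (∀ x, φ j x ≤ (rr I) ^ j) := by
    intro j
    induction j with
    | zero =>
      rw [hφ0]
      refine ⟨measurable_const.indicator hBm, fun x => Set.indicator_nonneg
        (fun _ _ => zero_le_one) x, fun x => ?_⟩
      rw [pow_zero]
      exact Set.indicator_le_self' (fun _ _ => zero_le_one) x
    | succ j ih =>
      obtain ⟨-, t2, t3, -⟩ := hT _ _ ih.1 ih.2.1 ih.2.2 (pow_nonneg hr0 j)
      refine ⟨?_, fun x => ?_, fun x => ?_⟩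
      · have : φ (j + 1) = fun x => (M.B K).indicator (fun _ => rr I) x
            * T ((rr I) ^ j) (φ j) x := rfl
        rw [this]
        exact (measurable_const.indicator hBm).mul t2
      · rw [hφs]
        exact mul_nonneg (Set.indicator_nonneg (fun _ _ => hr0) x) (t3 x).1
      · rw [hφs, pow_succ, mul_comm]
        exact mul_le_mul (t3 x).2 (Set.indicator_le_self' (fun _ _ => hr0) x)
          (Set.indicator_nonneg (fun _ _ => hr0) x) (pow_nonneg hr0 j)
  have hφT := fun j => hT ((rr I) ^ j) (φ j) (hφp j).1 (hφp j).2.1 (hφp j).2.2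
    (pow_nonneg hr0 j)
  -- the differences
  let γ : ℕ → S → ℝ := fun q x => β q x - b q x
  have hγm : ∀ q, Measurable (γ q) := fun q => (hβm q).sub (hbm q)
  have hγ2 : ∀ q, MemLp (γ q) 2 M.ν := fun q => (hβ2 q).sub (hb2 q)
  have hγ0 : ∀ x, γ 0 x = 0 := fun x => by simp [γ, hb0]
  have hγR : ∀ q, R (fun x => β q x - k.χ x * b q x) (γ (q + 1)) := fun q =>
    hsub (hβ q) (hb q)
  have hγi : ∀ q, Integrable (fun x => (γ q x) ^ 2) M.ν := fun q => (hγ2 q).integrable_sq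
  have hβi : ∀ q, Integrable (fun x => (β q x) ^ 2) M.ν := fun q => (hβ2 q).integrable_sq
  have hχ01 : ∀ x, 0 ≤ k.χ x ∧ k.χ x ≤ 1 := fun x => ⟨k.h0 x, (k.h1 x).trans k.hr.le⟩
  have hconv : ∀ q x, (β q x - k.χ x * b q x) ^ 2
      ≤ k.χ x * (γ q x) ^ 2 + (1 - k.χ x) * (β q x) ^ 2 := by
    intro q x
    obtain ⟨c0, c1⟩ := hχ01 x
    have h1 : β q x - k.χ x * b q x = k.χ x * γ q x + (1 - k.χ x) * β q x := by
      simp only [γ]; ring
    rw [h1]
    nlinarith [mul_nonneg (mul_nonneg c0 (sub_nonneg.mpr c1)) (sq_nonneg (γ q x - β q x))]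
  have hcore := energy_core M.ν (M.B K) hBm (rr I) hr0 hr1 K hK C hC hCm
    (fun x hx => by
      have h1 := M.le_of_notMem_B hx
      exact (hCle x).trans h1)
    β γ hβm hγm hβ2 hγ2 hsum hγ0 φ (fun j => T ((rr I) ^ j) (φ j)) (fun j => (hφp j).1)
    (fun j => (hφT j).2.1) hφ0 hφs (fun j => ae_of_all _ fun x => ((hφT j).2.2.1 x).1)
    (fun j => ae_of_all _ fun x => ((hφT j).2.2.1 x).2) (fun j => (hφT j).2.2.2) (by
      intro j p
      have hTb : ∀ x, |T ((rr I) ^ j) (φ j) x| ≤ (rr I) ^ j := fun x => by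
        rw [abs_of_nonneg ((hφT j).2.2.1 x).1]; exact ((hφT j).2.2.1 x).2
      refine (hJ (hγR p) (hφT j).1 (hφp j).2.1 ⟨_, (hφp j).2.2⟩ ⟨_, hTb⟩).trans ?_
      have hTi : ∀ g : S → ℝ, Integrable g M.ν →
          Integrable (fun x => T ((rr I) ^ j) (φ j) x * g x) M.ν := by
        intro g hg
        exact Integrable.bdd_mul (c := (rr I) ^ j) hg (hφT j).2.1.aestronglyMeasurable
          (ae_of_all _ hTb)
      have hχi : ∀ g : S → ℝ, Integrable g M.ν →
          Integrable (fun x => k.χ x * g x) M.ν := by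
        intro g hg
        refine Integrable.bdd_mul (c := 1) hg k.hm.aestronglyMeasurable
          (ae_of_all _ fun x => ?_)
        rw [Real.norm_eq_abs, abs_of_nonneg (hχ01 x).1]
        exact (hχ01 x).2
      have hχi' : ∀ g : S → ℝ, Integrable g M.ν →
          Integrable (fun x => (1 - k.χ x) * g x) M.ν := by
        intro g hg
        refine Integrable.bdd_mul (c := 1) hg (measurable_const.sub k.hm).aestronglyMeasurable
          (ae_of_all _ fun x => ?_)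
        have := hχ01 x
        rw [Real.norm_eq_abs, abs_of_nonneg (by linarith)]
        linarith
      have hbound : Integrable (fun x => T ((rr I) ^ j) (φ j) x *
          (k.χ x * (γ p x) ^ 2 + (1 - k.χ x) * (β p x) ^ 2)) M.ν :=
        hTi _ ((hχi _ (hγi p)).add (hχi' _ (hβi p)))
      have hle : ∀ x, T ((rr I) ^ j) (φ j) x * (β p x - k.χ x * b p x) ^ 2
          ≤ T ((rr I) ^ j) (φ j) x * (k.χ x * (γ p x) ^ 2 + (1 - k.χ x) * (β p x) ^ 2) :=
        fun x => mul_le_mul_of_nonneg_left (hconv p x) ((hφT j).2.2.1 x).1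
      refine integral_mono_of_nonneg (ae_of_all _ fun x =>
        mul_nonneg ((hφT j).2.2.1 x).1 (sq_nonneg _)) hbound (ae_of_all _ hle)) N
  -- conclusion
  have hAC : Integrable (fun x => M.A x + M.C x) M.ν := M.integrable_A.add M.integrable_C
  have hCδ : ∫ x in M.B K, C x ∂M.ν ≤ M.δ K := by
    refine integral_mono hC.integrableOn hAC.integrableOn hCle
  have hsumβ : ∑ q ∈ Finset.range N, ∫ x in M.B K, (β q x) ^ 2 ∂M.ν
      ≤ ∫ x in M.B K, C x ∂M.ν := by
    rw [← integral_finsetSum _ (fun q _ => (hβi q).integrableOn)]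
    exact integral_mono (integrable_finsetSum _ fun q _ => (hβi q).integrableOn)
      hC.integrableOn fun x => hsum x N
  have hterm : ∀ q, ∫ x in M.B K, (b q x) ^ 2 ∂M.ν
      ≤ 2 * ∫ x in M.B K, (β q x) ^ 2 ∂M.ν + 2 * ∫ x in M.B K, (γ q x) ^ 2 ∂M.ν := by
    intro q
    rw [← integral_const_mul, ← integral_const_mul,
      ← integral_add ((hβi q).integrableOn.const_mul 2) ((hγi q).integrableOn.const_mul 2)]
    refine integral_mono (hb2 q).integrable_sq.integrableOn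
      (((hβi q).integrableOn.const_mul 2).add ((hγi q).integrableOn.const_mul 2)) fun x => ?_
    simp only [γ]
    nlinarith [sq_nonneg (b q x - 2 * β q x)]
  have hKB := M.K_mul_le K hK
  calc ∑ q ∈ Finset.range N, ∫ x in M.B K, (b q x) ^ 2 ∂M.ν
      ≤ ∑ q ∈ Finset.range N, (2 * ∫ x in M.B K, (β q x) ^ 2 ∂M.ν
          + 2 * ∫ x in M.B K, (γ q x) ^ 2 ∂M.ν) := Finset.sum_le_sum fun q _ => hterm q
    _ = 2 * ∑ q ∈ Finset.range N, ∫ x in M.B K, (β q x) ^ 2 ∂M.ν
          + 2 * ∑ q ∈ Finset.range N, ∫ x in M.B K, (γ q x) ^ 2 ∂M.ν := by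
        rw [Finset.sum_add_distrib, ← Finset.mul_sum, ← Finset.mul_sum]
    _ ≤ 2 * M.δ K + 2 * (M.δ K + M.δ K) := by
        have h1 := hsumβ.trans hCδ
        have h2 := hcore.trans (add_le_add hKB hCδ)
        linarith
    _ = 6 * M.δ K := by ring

end Pool.Agent.H45.CLT
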