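import Pool.Agent.H45.CLT.EnergyCore
import Pool.Agent.H45.CLT.Pot3
import Pool.Agent.H45.CLT.PathB
import Pool.Agent.H45.CLT.EnergyFBAux

/-!
# Module ENERGYFB: the restricted energies, forward and backward.
`b_q = (Qχ)^q f` by iterating `exists_fwd`; `γ_q = β_q - b_q`, `γ_{q+1} = Q(χγ_q + (1-χ)β_q)`,
`φ_0 = 1_B`, `φ_{j+1} = χ φ'_j`, `φ'_j = Q*φ_j` (chosen with values in `[0,r^j]`), `Fwd.jensen`;
`∫_B b_q² ≤ 2∫_B β_q² + 2∫_B γ_q²` and `energy_core`, `K_mul_le`, `A,C ≤ A+C`.  Backward: `φ'_j = Qφ_j`,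
`Bwd.jensen`.
-/

set_option autoImplicit false

open MeasureTheory ProbabilityTheory
open scoped ENNReal NNReal

namespace Pool.Agent.H45.CLT

variable {S : Type} [MeasurableSpace S]

/-- forward energies: `b_q = (Q χ)^q f`. -/
theorem Model.energy_fwd (M : Model S) (K : ℝ) (hK : 0 ≤ K) (I : ℕ) :
    ∃ b : ℕ → S → ℝ, b 0 = M.f ∧
      (∀ q, M.toChain.Fwd (fun x => (M.cut K I).χ x * b q x) (b (q + 1))) ∧
      ∀ N, ∑ q ∈ Finset.range N, ∫ x in M.B K, (b q x) ^ 2 ∂M.ν ≤ 6 * M.δ K := by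
  classical
  have hχm : Measurable (M.cut K I).χ := (M.cut K I).hm
  have hmul : ∀ g : S → ℝ, Measurable g → MemLp g 2 M.ν →
      Measurable (fun x => (M.cut K I).χ x * g x) ∧
      MemLp (fun x => (M.cut K I).χ x * g x) 2 M.ν := by
    intro g hg hg2
    have h1 : Measurable (fun x => (M.cut K I).χ x * g x) := hχm.mul hg
    refine ⟨h1, hg2.mono h1.aestronglyMeasurable (ae_of_all _ fun x => ?_)⟩
    rw [norm_mul]
    have h2 : ‖(M.cut K I).χ x‖ ≤ 1 := by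
      rw [Real.norm_eq_abs, abs_of_nonneg ((M.cut K I).h0 x)]
      exact ((M.cut K I).h1 x).trans (M.cut K I).hr.le
    exact mul_le_of_le_one_left (norm_nonneg _) h2
  let b : ℕ → S → ℝ := fun q => Nat.rec M.f
    (fun _ bq => fun x => ∫ z, (M.cut K I).χ z * bq z ∂(M.Q x)) q
  have hb0 : b 0 = M.f := rfl
  have hbs : ∀ q, b (q + 1) = fun x => ∫ z, (M.cut K I).χ z * b q z ∂(M.Q x) := fun q => rfl
  have hbp : ∀ q, Measurable (b q) ∧ MemLp (b q) 2 M.ν := by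
    intro q
    induction q with
    | zero => exact ⟨M.measurable_f, M.memLp_f⟩
    | succ q ih =>
      have h1 := hmul _ ih.1 ih.2
      have h2 := M.toChain.exists_fwd _ h1.1 h1.2
      rw [hbs]
      exact ⟨h2.m', h2.l2'⟩
  have hbF : ∀ q, M.toChain.Fwd (fun x => (M.cut K I).χ x * b q x) (b (q + 1)) := by
    intro q
    have h1 := hmul _ (hbp q).1 (hbp q).2
    exact M.toChain.exists_fwd _ h1.1 h1.2
  refine ⟨b, hb0, hbF, fun N => ?_⟩
  refine M.energy_abs K hK I M.toChain.Fwd M.toChain.Bwd (fun h1 h2 => h1.sub h2)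
    (fun h => ⟨h.m', h.l2'⟩) ?_ (fun h1 h2 h3 h4 h5 => h1.jensen h2 h3 h4 h5)
    M.β b M.C M.integrable_C M.measurable_C M.C_nonneg
    (fun x => le_add_of_nonneg_left (M.A_nonneg x)) ?_ M.measurable_β M.memLp_β M.hβ
    (by rw [hb0, M.f_eq]) hbF N
  · intro c φ hφ h0 h1 hc
    obtain ⟨φ', h2, h3⟩ := M.toChain.exists_bwd_bdd c φ hφ h0 h1 hc
    exact ⟨φ', h2, h2.m', h3, h2.mean⟩
  · intro x N
    exact (M.sβ x).sum_le_tsum _ fun _ _ => sq_nonneg _

/-- backward energies: `a_p = (Q* χ)^p f`. -/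
theorem Model.energy_bwd (M : Model S) (K : ℝ) (hK : 0 ≤ K) (I : ℕ) :
    ∃ a : ℕ → S → ℝ, a 0 = M.f ∧
      (∀ p, M.toChain.Bwd (fun x => (M.cut K I).χ x * a p x) (a (p + 1))) ∧
      ∀ N, ∑ p ∈ Finset.range N, ∫ x in M.B K, (a p x) ^ 2 ∂M.ν ≤ 6 * M.δ K := by
  classical
  have hχm : Measurable (M.cut K I).χ := (M.cut K I).hm
  have hmul : ∀ g : S → ℝ, Measurable g → MemLp g 2 M.ν →
      Measurable (fun x => (M.cut K I).χ x * g x) ∧
      MemLp (fun x => (M.cut K I).χ x * g x) 2 M.ν := by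
    intro g hg hg2
    have h1 : Measurable (fun x => (M.cut K I).χ x * g x) := hχm.mul hg
    refine ⟨h1, hg2.mono h1.aestronglyMeasurable (ae_of_all _ fun x => ?_)⟩
    rw [norm_mul]
    have h2 : ‖(M.cut K I).χ x‖ ≤ 1 := by
      rw [Real.norm_eq_abs, abs_of_nonneg ((M.cut K I).h0 x)]
      exact ((M.cut K I).h1 x).trans (M.cut K I).hr.le
    exact mul_le_of_le_one_left (norm_nonneg _) h2
  choose T hT using fun (g : S → ℝ) => show ∃ g' : S → ℝ, (Measurable g → MemLp g 2 M.ν →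
      M.toChain.Bwd (fun x => (M.cut K I).χ x * g x) g') by
    by_cases h : Measurable g ∧ MemLp g 2 M.ν
    · obtain ⟨g', h'⟩ := M.toChain.exists_bwd _ (hmul g h.1 h.2).1 (hmul g h.1 h.2).2
      exact ⟨g', fun _ _ => h'⟩
    · exact ⟨0, fun h1 h2 => absurd ⟨h1, h2⟩ h⟩
  let a : ℕ → S → ℝ := fun q => Nat.rec M.f (fun _ aq => T aq) q
  have ha0 : a 0 = M.f := rfl
  have has : ∀ q, a (q + 1) = T (a q) := fun q => rfl
  have hap : ∀ q, Measurable (a q) ∧ MemLp (a q) 2 M.ν := by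
    intro q
    induction q with
    | zero => exact ⟨M.measurable_f, M.memLp_f⟩
    | succ q ih =>
      have h2 := hT (a q) ih.1 ih.2
      rw [has]
      exact ⟨h2.m', h2.l2'⟩
  have haB : ∀ q, M.toChain.Bwd (fun x => (M.cut K I).χ x * a q x) (a (q + 1)) := by
    intro q
    exact hT (a q) (hap q).1 (hap q).2
  refine ⟨a, ha0, haB, fun N => ?_⟩
  refine M.energy_abs K hK I M.toChain.Bwd M.toChain.Fwd (fun h1 h2 => h1.sub h2)
    (fun h => ⟨h.m', h.l2'⟩) ?_ (fun h1 h2 h3 h4 h5 => h1.jensen h2 h3 h4 h5)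
    M.α a M.A M.integrable_A M.measurable_A M.A_nonneg
    (fun x => le_add_of_nonneg_right (M.C_nonneg x)) ?_ M.measurable_α M.memLp_α M.hα
    rfl haB N
  · intro c φ hφ h0 h1 _
    obtain ⟨φ', h2, h3⟩ := M.toChain.exists_fwd_bdd c φ hφ h0 h1
    exact ⟨φ', h2, h2.m', h3, h2.mean⟩
  · intro x N
    exact (M.sα x).sum_le_tsum _ fun _ _ => sq_nonneg _

end Pool.Agent.H45.CLT
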