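import Pool.Agent.H45.CLT.Taub
import Pool.Agent.H43.CLT.ExChain

/-!
# From the frozen statement to the model (module FINAL)
-/

set_option autoImplicit false

open MeasureTheory ProbabilityTheory
open scoped ENNReal NNReal

namespace Pool.Agent.H45.CLT

/-- the path law of the process of the frozen statement is a `Chain` -/
theorem exists_chain {S : Type} [mS : MeasurableSpace S] (Q : Kernel S S) [IsMarkovKernel Q]
    (ν : Measure S) [IsProbabilityMeasure ν] (hν : ν.bind Q = ν)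
    {Ω : Type} [mΩ : MeasurableSpace Ω] (μ : Measure Ω) [IsProbabilityMeasure μ]
    (X : ℕ → Ω → S) (hX : ∀ i, Measurable (X i)) (h0 : μ.map (X 0) = ν)
    (hmarkov : ∀ n : ℕ, ∀ A : Set S, MeasurableSet A →
        condExp (⨆ i ≤ n, MeasurableSpace.comap (X i) mS) μ
          ((X (n+1) ⁻¹' A).indicator (fun _ => (1 : ℝ)))
          =ᵐ[μ] fun ω => (Q (X n ω) A).toReal) :
    ∃ M : Chain S, M.Q = Q ∧ M.ν = ν ∧ M.P = μ.map (fun ω i => X i ω) :=
  Pool.Agent.H43.CLT.exists_chain' Q ν hν μ X hX h0 hmarkov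

section modelConstruction

variable {S : Type} [MeasurableSpace S]

/-- the `ENNReal` valued sum of squares -/
noncomputable def sqS (F : ℕ → S → ℝ) (x : S) : ℝ≥0∞ := ∑' q, ENNReal.ofReal ((F q x) ^ 2)

lemma measurable_sqS {F : ℕ → S → ℝ} (hm : ∀ q, Measurable (F q)) : Measurable (sqS F) := by
  unfold sqS
  exact Measurable.tsum fun q => ((hm q).pow_const 2).ennreal_ofReal

lemma lintegral_sqS {ν : Measure S} {F : ℕ → S → ℝ} (hm : ∀ q, Measurable (F q))
    (hL : ∀ q, MemLp (F q) 2 ν) (hs : Summable fun q => ∫ x, (F q x) ^ 2 ∂ν) :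
    ∫⁻ x, sqS F x ∂ν ≠ ⊤ := by
  unfold sqS
  rw [lintegral_tsum fun q => ((hm q).pow_const 2).ennreal_ofReal.aemeasurable]
  have h1 : ∀ q, ∫⁻ x, ENNReal.ofReal ((F q x) ^ 2) ∂ν = ENNReal.ofReal (∫ x, (F q x) ^ 2 ∂ν) := by
    intro q
    rw [ofReal_integral_eq_lintegral_ofReal (hL q).integrable_sq
      (Filter.Eventually.of_forall fun x => sq_nonneg _)]
  simp only [h1]
  rw [← ENNReal.ofReal_tsum_of_nonneg (fun q => integral_nonneg fun _ => sq_nonneg _) hs]
  exact ENNReal.ofReal_ne_top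

omit [MeasurableSpace S] in
lemma summable_of_sqS {F : ℕ → S → ℝ} {x : S} (h : sqS F x ≠ ⊤) :
    Summable fun q => (F q x) ^ 2 := by
  have := ENNReal.summable_toReal h
  simpa [ENNReal.toReal_ofReal (sq_nonneg _)] using this

lemma integrable_tsum_sq {ν : Measure S} {F : ℕ → S → ℝ} (hm : ∀ q, Measurable (F q))
    (hL : ∀ q, MemLp (F q) 2 ν) (hs : Summable fun q => ∫ x, (F q x) ^ 2 ∂ν)
    (hsum : ∀ x, Summable fun q => (F q x) ^ 2) :
    Integrable (fun x => ∑' q, (F q x) ^ 2) ν := by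
  refine ⟨?_, ?_⟩
  · refine (measurable_of_tendsto_metrizable (f := fun (N : ℕ) x => ∑ q ∈ Finset.range N,
      (F q x) ^ 2) (fun N => Finset.measurable_sum _ fun q _ => (hm q).pow_const 2)
      (tendsto_pi_nhds.2 fun x => (hsum x).hasSum.tendsto_sum_nat)).aestronglyMeasurable
  · rw [hasFiniteIntegral_iff_ofReal (Filter.Eventually.of_forall fun x =>
      tsum_nonneg fun q => sq_nonneg _)]
    have h1 : ∀ x, ENNReal.ofReal (∑' q, (F q x) ^ 2) = sqS F x := by
      intro x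
      rw [ENNReal.ofReal_tsum_of_nonneg (fun q => sq_nonneg _) (hsum x)]
      rfl
    simp only [h1]
    exact lt_top_iff_ne_top.2 (lintegral_sqS hm hL hs)

lemma Chain.Fwd.congr_ae {M : Chain S} {g g' k k' : S → ℝ} (h : M.Fwd g g') (hk : Measurable k)
    (hk' : Measurable k') (e : g =ᵐ[M.ν] k) (e' : g' =ᵐ[M.ν] k') : M.Fwd k k' := by
  refine ⟨hk, hk', h.l2.ae_eq e, h.l2'.ae_eq e', ?_⟩
  have h1 : (fun x => ∫ z, g z ∂(M.Q x)) =ᵐ[M.ν] fun x => ∫ z, k z ∂(M.Q x) :=
    Pool.Agent.H43.CLT.Qop_congr (Q := M.Q) M.bind_eq e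
  exact e'.symm.trans (h.eq.trans h1)

lemma Chain.Bwd.congr_ae {M : Chain S} {g g' k k' : S → ℝ} (h : M.Bwd g g') (hk : Measurable k)
    (hk' : Measurable k') (e : g =ᵐ[M.ν] k) (e' : g' =ᵐ[M.ν] k') : M.Bwd k k' := by
  refine ⟨hk, hk', h.l2.ae_eq e, h.l2'.ae_eq e', fun φ hφ hb => ?_⟩
  have h1 : ∫ x, φ x * k' x ∂M.ν = ∫ x, φ x * g' x ∂M.ν := by
    refine integral_congr_ae ?_
    filter_upwards [e'] with x hx
    rw [hx]
  have h2 : ∫ x, (∫ z, φ z ∂(M.Q x)) * k x ∂M.ν = ∫ x, (∫ z, φ z ∂(M.Q x)) * g x ∂M.ν := by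
    refine integral_congr_ae ?_
    filter_upwards [e] with x hx
    rw [hx]
  rw [h1, h2]
  exact h.eq φ hφ hb

/-- dual characterisation of the `L²` norm -/
lemma sq_norm_le_of_dual {ν : Measure S} [IsProbabilityMeasure ν] (h : S → ℝ) (hh : Measurable h)
    (hL : MemLp h 2 ν) (c : ℝ)
    (hc : ∀ g : S → ℝ, Measurable g → (∃ C : ℝ, ∀ x, |g x| ≤ C) → ∫ x, g x ^ 2 ∂ν ≤ 1 →
      (∫ x, h x * g x ∂ν) ^ 2 ≤ c) :
    ∫ x, (h x) ^ 2 ∂ν ≤ c := by
  have hc0 : 0 ≤ c := by
    have := hc (fun _ => 0) measurable_const ⟨0, by simp⟩ (by simp)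
    simpa using this
  -- truncations
  set hN : ℕ → S → ℝ := fun N => {x | |h x| ≤ N}.indicator h with hhN
  have hms : ∀ N : ℕ, MeasurableSet {x | |h x| ≤ (N : ℝ)} := fun N =>
    measurableSet_le hh.abs measurable_const
  have hNm : ∀ N, Measurable (hN N) := fun N => hh.indicator (hms N)
  have hNb : ∀ N x, |hN N x| ≤ N := by
    intro N x
    simp only [hhN]
    by_cases hx : x ∈ {x | |h x| ≤ (N : ℝ)}
    · rw [Set.indicator_of_mem hx]; exact hx
    · rw [Set.indicator_of_notMem hx]; simp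
  have hNsq : ∀ N x, h x * hN N x = (hN N x) ^ 2 := by
    intro N x
    simp only [hhN]
    by_cases hx : x ∈ {x | |h x| ≤ (N : ℝ)}
    · rw [Set.indicator_of_mem hx]; ring
    · rw [Set.indicator_of_notMem hx]; ring
  have hNle : ∀ N x, (hN N x) ^ 2 ≤ (h x) ^ 2 := by
    intro N x
    simp only [hhN]
    by_cases hx : x ∈ {x | |h x| ≤ (N : ℝ)}
    · rw [Set.indicator_of_mem hx]
    · rw [Set.indicator_of_notMem hx]; nlinarith [sq_nonneg (h x)]
  have hkey : ∀ N, ∫ x, (hN N x) ^ 2 ∂ν ≤ c := by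
    intro N
    set a := ∫ x, (hN N x) ^ 2 ∂ν with ha
    have ha0 : 0 ≤ a := integral_nonneg fun _ => sq_nonneg _
    rcases ha0.eq_or_lt with h0 | h0
    · rw [← h0]; exact hc0
    · have hs0 : 0 < Real.sqrt a := Real.sqrt_pos.2 h0
      have hsq : Real.sqrt a ^ 2 = a := Real.sq_sqrt ha0
      have := hc (fun x => (Real.sqrt a)⁻¹ * hN N x) ((hNm N).const_mul _)
        ⟨(Real.sqrt a)⁻¹ * N, fun x => by
          rw [abs_mul, abs_of_pos (inv_pos.2 hs0)]
          exact mul_le_mul_of_nonneg_left (hNb N x) (inv_pos.2 hs0).le⟩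
        (by
          simp only [mul_pow]
          rw [integral_const_mul, ← ha, inv_pow, hsq, inv_mul_cancel₀ h0.ne'])
      have e1 : ∫ x, h x * ((Real.sqrt a)⁻¹ * hN N x) ∂ν = Real.sqrt a := by
        have : ∀ x, h x * ((Real.sqrt a)⁻¹ * hN N x) = (Real.sqrt a)⁻¹ * (hN N x) ^ 2 := by
          intro x
          rw [← hNsq]; ring
        simp only [this]
        rw [integral_const_mul, ← ha]
        rw [inv_mul_eq_div, div_eq_iff hs0.ne', ← sq, hsq]
      rw [e1, hsq] at this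
      exact this
  have hlim : Filter.Tendsto (fun N => ∫ x, (hN N x) ^ 2 ∂ν) Filter.atTop
      (nhds (∫ x, (h x) ^ 2 ∂ν)) := by
    refine tendsto_integral_of_dominated_convergence (fun x => (h x) ^ 2)
      (fun N => ((hNm N).pow_const 2).aestronglyMeasurable) hL.integrable_sq ?_ ?_
    · intro N
      refine Filter.Eventually.of_forall fun x => ?_
      rw [Real.norm_of_nonneg (sq_nonneg _)]
      exact hNle N x
    · refine Filter.Eventually.of_forall fun x => ?_
      refine tendsto_const_nhds.congr' ?_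
      obtain ⟨N0, hN0⟩ := exists_nat_ge |h x|
      filter_upwards [Filter.eventually_ge_atTop N0] with N hN
      have : x ∈ {x | |h x| ≤ (N : ℝ)} := hN0.trans (by exact_mod_cast hN)
      simp only [hhN]
      rw [Set.indicator_of_mem this]
  exact le_of_tendsto' hlim hkey

end modelConstruction

/-- the iterates of `Q` and of `Q*` -/
theorem exists_model {S : Type} [MeasurableSpace S] (M : Chain S) (f : S → ℝ)
    (hf : Measurable f) (hf2 : MemLp f 2 M.ν)
    (h1 : Summable (fun k : ℕ =>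
      ∫ x, ((fun (h : S → ℝ) => fun y => ∫ z, h z ∂(M.Q y))^[k+1] f x) ^ 2 ∂M.ν))
    (h2 : ∃ c : ℕ → ℝ, Summable c ∧ ∀ k : ℕ, ∀ g : S → ℝ, Measurable g →
        (∃ C : ℝ, ∀ x, |g x| ≤ C) → ∫ x, g x ^ 2 ∂M.ν ≤ 1 →
        (∫ x, f x * (fun (h : S → ℝ) => fun y => ∫ z, h z ∂(M.Q y))^[k+1] g x ∂M.ν) ^ 2 ≤ c k) :
    ∃ N : Model S, N.toChain = M ∧ N.f =ᵐ[M.ν] f := by
  -- forward iterates
  set T : (S → ℝ) → (S → ℝ) := fun h => fun y => ∫ z, h z ∂(M.Q y) with hT
  set B : ℕ → S → ℝ := fun q => T^[q] f with hB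
  have hBm : ∀ q, Measurable (B q) := by
    intro q
    induction q with
    | zero => exact hf
    | succ q ih =>
      have : B (q + 1) = T (B q) := by simp only [hB]; rw [Function.iterate_succ_apply']
      rw [this]
      exact (ih.stronglyMeasurable.integral_kernel).measurable
  have hBs : ∀ q, B (q + 1) = T (B q) := fun q => by
    simp only [hB]; rw [Function.iterate_succ_apply']
  have hBL : ∀ q, MemLp (B q) 2 M.ν := by
    intro q
    induction q with
    | zero => exact hf2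
    | succ q ih =>
      rw [hBs]
      exact (M.exists_fwd (B q) (hBm q) ih).l2'
  have hBF : ∀ q, M.Fwd (B q) (B (q + 1)) := by
    intro q
    rw [hBs]
    exact M.exists_fwd (B q) (hBm q) (hBL q)
  have hBsum : Summable fun q => ∫ x, (B q x) ^ 2 ∂M.ν := by
    rw [← summable_nat_add_iff 1]
    exact h1
  -- backward iterates
  have hex : ∃ A : ℕ → S → ℝ, A 0 = f ∧ ∀ p, M.Bwd (A p) (A (p + 1)) := by
    have hstep : ∀ g : {g : S → ℝ // Measurable g ∧ MemLp g 2 M.ν},
        ∃ g' : {g : S → ℝ // Measurable g ∧ MemLp g 2 M.ν}, M.Bwd g.1 g'.1 := by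
      intro g
      obtain ⟨g', hg'⟩ := M.exists_bwd g.1 g.2.1 g.2.2
      exact ⟨⟨g', hg'.m', hg'.l2'⟩, hg'⟩
    choose F hF using hstep
    refine ⟨fun j => (F^[j] ⟨f, hf, hf2⟩).1, rfl, fun j => ?_⟩
    show M.Bwd (F^[j] ⟨f, hf, hf2⟩).1 (F^[j + 1] ⟨f, hf, hf2⟩).1
    rw [Function.iterate_succ_apply']
    exact hF _
  obtain ⟨A, hA0, hAB⟩ := hex
  have hdual : ∀ (k : ℕ) (g : S → ℝ), Measurable g → (∃ C : ℝ, ∀ x, |g x| ≤ C) →
      ∫ x, A k x * g x ∂M.ν = ∫ x, f x * (T^[k] g) x ∂M.ν := by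
    intro k
    induction k with
    | zero => intro g _ _; rw [hA0]; rfl
    | succ k ih =>
      intro g hg hb
      have e1 := (hAB k).eq g hg hb
      obtain ⟨C, hC⟩ := hb
      have hTm : Measurable (T g) := (hg.stronglyMeasurable.integral_kernel).measurable
      have hTb : ∃ C : ℝ, ∀ x, |T g x| ≤ C := ⟨C, fun x => abs_Q_integral_lePB M hC x⟩
      have e2 := ih (T g) hTm hTb
      rw [← Function.iterate_succ_apply] at e2
      rw [← e2]
      calc ∫ x, A (k + 1) x * g x ∂M.ν = ∫ x, g x * A (k + 1) x ∂M.ν := by simp only [mul_comm]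
        _ = ∫ x, (∫ z, g z ∂(M.Q x)) * A k x ∂M.ν := e1
        _ = ∫ x, A k x * T g x ∂M.ν := by simp only [hT, mul_comm]
  obtain ⟨c, hcs, hc⟩ := h2
  have hAle : ∀ k, ∫ x, (A (k + 1) x) ^ 2 ∂M.ν ≤ c k := by
    intro k
    refine sq_norm_le_of_dual (A (k + 1)) (hAB k).m' (hAB k).l2' (c k) fun g hg hb h1 => ?_
    rw [hdual (k + 1) g hg hb]
    exact hc k g hg hb h1
  have hAsum : Summable fun p => ∫ x, (A p x) ^ 2 ∂M.ν := by
    rw [← summable_nat_add_iff 1]
    exact Summable.of_nonneg_of_le (fun _ => integral_nonneg fun _ => sq_nonneg _) hAle hcs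
  have hAm : ∀ p, Measurable (A p) := fun p => (hAB p).m
  have hAL : ∀ p, MemLp (A p) 2 M.ν := fun p => (hAB p).l2
  -- the bad null set
  set E : Set S := {x | sqS B x = ⊤} ∪ {x | sqS A x = ⊤} with hE
  have hEm : MeasurableSet E :=
    ((measurable_sqS hBm) (measurableSet_singleton ⊤)).union
      ((measurable_sqS hAm) (measurableSet_singleton ⊤))
  have hE0 : M.ν E = 0 := by
    refine measure_union_null ?_ ?_
    · have := ae_lt_top (measurable_sqS hBm) (lintegral_sqS hBm hBL hBsum)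
      rw [ae_iff] at this
      simpa using this
    · have := ae_lt_top (measurable_sqS hAm) (lintegral_sqS hAm hAL hAsum)
      rw [ae_iff] at this
      simpa using this
  have hEae : ∀ᵐ x ∂M.ν, x ∈ Eᶜ := by
    rw [ae_iff]
    simpa using hE0
  have hmod : ∀ g : S → ℝ, g =ᵐ[M.ν] Eᶜ.indicator g := by
    intro g
    filter_upwards [hEae] with x hx
    rw [Set.indicator_of_mem hx]
  have hmm : ∀ {g : S → ℝ}, Measurable g → Measurable (Eᶜ.indicator g) := fun hg =>
    hg.indicator hEm.compl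
  have hβF : ∀ q, M.Fwd (Eᶜ.indicator (B q)) (Eᶜ.indicator (B (q + 1))) := fun q =>
    (hBF q).congr_ae (hmm (hBm q)) (hmm (hBm (q + 1))) (hmod _) (hmod _)
  have hαB : ∀ q, M.Bwd (Eᶜ.indicator (A q)) (Eᶜ.indicator (A (q + 1))) := fun q =>
    (hAB q).congr_ae (hmm (hAm q)) (hmm (hAm (q + 1))) (hmod _) (hmod _)
  have hsβ : ∀ x, Summable fun q => (Eᶜ.indicator (B q) x) ^ 2 := by
    intro x
    by_cases hx : x ∈ Eᶜ
    · simp only [Set.indicator_of_mem hx]
      refine summable_of_sqS fun h => hx (Or.inl h)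
    · simp only [Set.indicator_of_notMem hx]
      simp [summable_zero]
  have hsα : ∀ x, Summable fun q => (Eᶜ.indicator (A q) x) ^ 2 := by
    intro x
    by_cases hx : x ∈ Eᶜ
    · simp only [Set.indicator_of_mem hx]
      refine summable_of_sqS fun h => hx (Or.inr h)
    · simp only [Set.indicator_of_notMem hx]
      simp [summable_zero]
  have hBsum' : Summable fun q => ∫ x, (Eᶜ.indicator (B q) x) ^ 2 ∂M.ν := by
    refine hBsum.congr fun q => ?_
    refine integral_congr_ae ?_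
    filter_upwards [hmod (B q)] with x hx
    rw [← hx]
  have hAsum' : Summable fun q => ∫ x, (Eᶜ.indicator (A q) x) ^ 2 ∂M.ν := by
    refine hAsum.congr fun q => ?_
    refine integral_congr_ae ?_
    filter_upwards [hmod (A q)] with x hx
    rw [← hx]
  refine ⟨{ toChain := M, β := fun q => Eᶜ.indicator (B q), α := fun p => Eᶜ.indicator (A p),
            h0 := ?_, hβ := hβF, hα := hαB, sβ := hsβ, sα := hsα,
            iC := integrable_tsum_sq (fun q => hmm (hBm q)) (fun q => (hβF q).l2) hBsum' hsβ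
            iA := integrable_tsum_sq (fun q => hmm (hAm q)) (fun q => (hαB q).l2) hAsum' hsα },
    rfl, ?_⟩
  · rw [hA0]
    rfl
  · show Eᶜ.indicator (A 0) =ᵐ[M.ν] f
    rw [hA0]
    exact (hmod f).symm

/-- the CLT for the chain -/
theorem clt_chain {S : Type} [MeasurableSpace S] (N : Model S) (hN : N.toChain.Erg)
    (f : S → ℝ) (hf : Measurable f) (hfe : N.f =ᵐ[N.ν] f) :
    ∃ v : NNReal, ∀ g : ℝ → ℝ, Continuous g → (∃ C : ℝ, ∀ x, |g x| ≤ C) →
      Filter.Tendsto
        (fun n : ℕ => ∫ ξ, g ((Real.sqrt n)⁻¹ * ∑ i ∈ Finset.range n, f (ξ i)) ∂N.P)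
        Filter.atTop (nhds (∫ x, g x ∂(gaussianReal 0 v))) := by
  refine ⟨⟨N.σ2, N.σ2_nonneg⟩, ?_⟩
  set v : NNReal := ⟨N.σ2, N.σ2_nonneg⟩ with hv
  -- partial sums
  have hSm : ∀ n : ℕ, Measurable (fun ξ : ℕ → S =>
      (Real.sqrt n)⁻¹ * ∑ i ∈ Finset.range n, f (ξ i)) := fun n =>
    (Finset.measurable_sum _ fun i _ => hf.comp (measurable_pi_apply i)).const_mul _
  have hae : ∀ᵐ ξ ∂N.P, ∀ i, N.f (ξ i) = f (ξ i) := by
    rw [ae_all_iff]
    intro i
    exact (N.toChain.mp_eval i).quasiMeasurePreserving.ae hfe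
  set μ : ℕ → ProbabilityMeasure ℝ := fun n =>
    ⟨N.P.map (fun ξ : ℕ → S => (Real.sqrt n)⁻¹ * ∑ i ∈ Finset.range n, f (ξ i)),
      Measure.isProbabilityMeasure_map (hSm n).aemeasurable⟩ with hμ
  set μ0 : ProbabilityMeasure ℝ := ⟨gaussianReal 0 v, inferInstance⟩ with hμ0
  have hconv : Filter.Tendsto μ Filter.atTop (nhds μ0) := by
    rw [ProbabilityMeasure.tendsto_iff_tendsto_charFun]
    intro t
    have h1 := charFun_limit N hN t
    have e0 : charFun (μ0 : Measure ℝ) t = Complex.exp ((-(t ^ 2 * N.σ2 / 2) : ℝ) : ℂ) := by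
      show charFun (gaussianReal 0 v) t = _
      rw [charFun_gaussianReal]
      congr 1
      have : ((v : ℝ) : ℂ) = ((N.σ2 : ℝ) : ℂ) := rfl
      rw [this]
      push_cast
      ring
    rw [e0]
    refine h1.congr fun n => ?_
    show _ = charFun (N.P.map (fun ξ : ℕ → S =>
      (Real.sqrt n)⁻¹ * ∑ i ∈ Finset.range n, f (ξ i))) t
    rw [charFun_apply_real, integral_map (hSm n).aemeasurable]
    · refine integral_congr_ae ?_
      filter_upwards [hae] with ξ hξ
      simp only [hξ]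
      congr 1
      push_cast
      ring
    · exact (by fun_prop : Continuous fun x : ℝ => Complex.exp ((t : ℂ) * (x : ℂ) * Complex.I)).aestronglyMeasurable
  intro g hg hgb
  obtain ⟨C, hC⟩ := hgb
  have h2 := (ProbabilityMeasure.tendsto_iff_forall_integral_tendsto.1 hconv)
    (BoundedContinuousFunction.ofNormedAddCommGroup g hg C (fun x => by simpa using hC x))
  simp only [BoundedContinuousFunction.coe_ofNormedAddCommGroup] at h2
  refine h2.congr fun n => ?_
  show ∫ x, g x ∂(N.P.map (fun ξ : ℕ → S =>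
      (Real.sqrt n)⁻¹ * ∑ i ∈ Finset.range n, f (ξ i))) = _
  rw [integral_map (hSm n).aemeasurable hg.aestronglyMeasurable]

end Pool.Agent.H45.CLT
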