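import Pool.Agent.H45.CLT.PathA

/-!
# Module GAP1: weights and integration against `Θ`.
`p = (j, ξ)` is the gap `(ξ_0, ..., ξ_{j+1})`, of length `ℓ = j + 1`, with weight
`W_j(ξ) = (1-χ(ξ_0)) χ(ξ_1)⋯χ(ξ_j) (1-χ(ξ_{j+1})) = w_j - w_{j+1}`, `w_j = (1-χ(ξ_0)) v_j`,
`v_j = χ(ξ_1)⋯χ(ξ_j)`.
* (FT) `∑_{j ≥ i} W_j(ξ) = w_i(ξ)` pathwise, hence `∫ ∑_{i ≤ j} X_i(ξ) dΘ = ∑_i ∫ w_i X_i dP`;
* (BT) `∑_{i ≥ 0} ∫ w_i(ξ) H(sh i ξ) dP = ∫ H dP`: with `a_i = ∫ χ(ξ_0) v_i(ξ) H(sh i ξ) dP` one has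
  `∫ w_i H(sh i ξ) = a_{i-1} - a_i` by stationarity, `a_{-1} = ∫ H`, `a_i ≤ r^{i+1} ∫ H`;
* (Campbell) `∫ ∑_{i ≤ j} H(j-i, sh i ξ) dΘ = ∑_l ∫ v_l(ξ) (1-χ(ξ_{l+1})) H(l, ξ) dP`.
-/

set_option autoImplicit false

open MeasureTheory ProbabilityTheory
open scoped ENNReal NNReal

namespace Pool.Agent.H45.CLT

variable {S : Type} [MeasurableSpace S]

theorem Cut.measurable_v (k : Cut S) (j : ℕ) : Measurable (k.v j) := by
  unfold Cut.v
  exact Finset.measurable_prod _ fun i _ => k.hm.comp (measurable_pi_apply (i + 1))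

theorem Cut.measurable_w (k : Cut S) (j : ℕ) : Measurable (k.w j) := by
  unfold Cut.w
  exact (measurable_const.sub (k.hm.comp (measurable_pi_apply 0))).mul (k.measurable_v j)

theorem Cut.measurable_W (k : Cut S) (j : ℕ) : Measurable (k.W j) := by
  unfold Cut.W
  exact (k.measurable_w j).mul (measurable_const.sub (k.hm.comp (measurable_pi_apply (j + 1))))

/-- joint measurability of the weight on `ℕ × path` -/
theorem Cut.measurable_W2 (k : Cut S) :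
    Measurable (fun p : ℕ × (ℕ → S) => k.W p.1 p.2) :=
  measurable_from_prod_countable_right fun j => k.measurable_W j

theorem Cut.χ_le_one (k : Cut S) (x : S) : k.χ x ≤ 1 := (k.h1 x).trans k.hr.le

theorem Cut.v_nonneg (k : Cut S) (j : ℕ) (ξ : ℕ → S) : 0 ≤ k.v j ξ :=
  Finset.prod_nonneg fun i _ => k.h0 _

theorem Cut.v_le (k : Cut S) (j : ℕ) (ξ : ℕ → S) : k.v j ξ ≤ k.r ^ j := by
  unfold Cut.v
  calc ∏ i ∈ Finset.range j, k.χ (ξ (i + 1)) ≤ ∏ _i ∈ Finset.range j, k.r :=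
        Finset.prod_le_prod (fun _ _ => k.h0 _) (fun _ _ => k.h1 _)
    _ = k.r ^ j := by simp

theorem Cut.w_nonneg (k : Cut S) (j : ℕ) (ξ : ℕ → S) : 0 ≤ k.w j ξ :=
  mul_nonneg (sub_nonneg.2 (k.χ_le_one _)) (k.v_nonneg j ξ)

theorem Cut.w_le (k : Cut S) (j : ℕ) (ξ : ℕ → S) : k.w j ξ ≤ k.r ^ j := by
  unfold Cut.w
  have h1 : 1 - k.χ (ξ 0) ≤ 1 := by linarith [k.h0 (ξ 0)]
  calc (1 - k.χ (ξ 0)) * k.v j ξ ≤ 1 * k.v j ξ :=
        mul_le_mul_of_nonneg_right h1 (k.v_nonneg j ξ)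
    _ ≤ k.r ^ j := by rw [one_mul]; exact k.v_le j ξ

theorem Cut.W_nonneg (k : Cut S) (j : ℕ) (ξ : ℕ → S) : 0 ≤ k.W j ξ :=
  mul_nonneg (k.w_nonneg j ξ) (sub_nonneg.2 (k.χ_le_one _))

theorem Cut.W_le (k : Cut S) (j : ℕ) (ξ : ℕ → S) : k.W j ξ ≤ k.r ^ j := by
  unfold Cut.W
  have h1 : 1 - k.χ (ξ (j + 1)) ≤ 1 := by linarith [k.h0 (ξ (j + 1))]
  calc k.w j ξ * (1 - k.χ (ξ (j + 1))) ≤ k.w j ξ * 1 :=
        mul_le_mul_of_nonneg_left h1 (k.w_nonneg j ξ)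
    _ ≤ k.r ^ j := by rw [mul_one]; exact k.w_le j ξ

theorem Cut.v_succ (k : Cut S) (j : ℕ) (ξ : ℕ → S) :
    k.v (j + 1) ξ = k.v j ξ * k.χ (ξ (j + 1)) := by
  unfold Cut.v
  rw [Finset.prod_range_succ]

/-- `v_{j+1}(ξ) = χ(ξ_1) v_j(sh 1 ξ)` -/
theorem Cut.v_succ' (k : Cut S) (j : ℕ) (ξ : ℕ → S) :
    k.v (j + 1) ξ = k.χ (ξ 1) * k.v j (sh 1 ξ) := by
  unfold Cut.v
  rw [Finset.prod_range_succ', mul_comm]
  congr 1
  refine Finset.prod_congr rfl fun i _ => ?_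
  simp only [sh]
  congr 2
  omega

/-- `W_j = w_j - w_{j+1}` -/
theorem Cut.W_eq (k : Cut S) (j : ℕ) (ξ : ℕ → S) : k.W j ξ = k.w j ξ - k.w (j + 1) ξ := by
  unfold Cut.W Cut.w
  rw [k.v_succ]
  ring

/-- `w_j` depends on the coordinates `0..j` only -/
theorem Cut.w_fr (k : Cut S) (j : ℕ) (ξ : ℕ → S) : k.w j (fr j ξ) = k.w j ξ := by
  unfold Cut.w Cut.v fr
  have h0 : min j 0 = 0 := by omega
  rw [h0]
  congr 1
  refine Finset.prod_congr rfl fun i hi => ?_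
  rw [Finset.mem_range] at hi
  rw [min_eq_right (by omega)]

theorem Chain.lintegral_Θ (M : Chain S) (k : Cut S) (F : ℕ × (ℕ → S) → ℝ≥0∞)
    (hF : Measurable F) :
    ∫⁻ p, F p ∂(M.Θ k) = ∑' j, ∫⁻ ξ, ENNReal.ofReal (k.W j ξ) * F (j, ξ) ∂M.P := by
  unfold Chain.Θ
  have hW : Measurable (fun p : ℕ × (ℕ → S) => ENNReal.ofReal (k.W p.1 p.2)) :=
    k.measurable_W2.ennreal_ofReal
  rw [lintegral_withDensity_eq_lintegral_mul _ hW hF, lintegral_prod _ (hW.mul hF).aemeasurable,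
    lintegral_count]
  rfl

/-- Bochner version -/
theorem Chain.integral_Θ (M : Chain S) (k : Cut S) {E : Type} [NormedAddCommGroup E]
    [NormedSpace ℝ E] (F : ℕ × (ℕ → S) → E) (hF : Integrable F (M.Θ k)) :
    (∀ j, Integrable (fun ξ => k.W j ξ • F (j, ξ)) M.P) ∧
    HasSum (fun j => ∫ ξ, k.W j ξ • F (j, ξ) ∂M.P) (∫ p, F p ∂(M.Θ k)) := by
  have hW : Measurable (fun p : ℕ × (ℕ → S) => ENNReal.ofReal (k.W p.1 p.2)) :=
    k.measurable_W2.ennreal_ofReal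
  have hlt : ∀ᵐ p ∂(Measure.count.prod M.P : Measure (ℕ × (ℕ → S))),
      ENNReal.ofReal (k.W p.1 p.2) < ∞ :=
    Filter.Eventually.of_forall fun p => ENNReal.ofReal_lt_top
  have h1 : Integrable (fun p : ℕ × (ℕ → S) => k.W p.1 p.2 • F p)
      (Measure.count.prod M.P) := by
    unfold Chain.Θ at hF
    rw [integrable_withDensity_iff_integrable_smul' hW hlt] at hF
    refine hF.congr (Filter.Eventually.of_forall fun p => ?_)
    simp only []
    rw [ENNReal.toReal_ofReal (k.W_nonneg _ _)]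
  have h2 : ∫ p, F p ∂(M.Θ k) = ∫ p, k.W p.1 p.2 • F p ∂(Measure.count.prod M.P) := by
    unfold Chain.Θ
    rw [integral_withDensity_eq_integral_toReal_smul hW hlt]
    refine integral_congr_ae (Filter.Eventually.of_forall fun p => ?_)
    simp only []
    rw [ENNReal.toReal_ofReal (k.W_nonneg _ _)]
  constructor
  · have h3 := h1.prod_right_ae
    rw [Measure.ae_count_iff] at h3
    exact h3
  · rw [h2, integral_prod _ h1]
    by_cases hE : CompleteSpace E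
    · have h4 := h1.integral_prod_left
      have h5 := hasSum_integral_measure (μ := fun j : ℕ => Measure.dirac j) h4
      have h6 : (fun j : ℕ => ∫ x, ∫ ξ, k.W x ξ • F (x, ξ) ∂M.P ∂(Measure.dirac j)) =
          fun j => ∫ ξ, k.W j ξ • F (j, ξ) ∂M.P := by
        funext j
        rw [integral_dirac]
      rw [h6] at h5
      exact h5
    · have hz : ∀ (α : Type) [MeasurableSpace α] (μ : Measure α) (f : α → E),
          ∫ x, f x ∂μ = 0 := by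
        intro α _ μ f
        exact integral_of_not_completeSpace hE
      simp only [hz]
      exact hasSum_zero

instance Chain.finite_Θ (M : Chain S) (k : Cut S) : IsFiniteMeasure (M.Θ k) := by
  constructor
  rw [← lintegral_one, M.lintegral_Θ k _ measurable_const]
  calc ∑' j, ∫⁻ ξ, ENNReal.ofReal (k.W j ξ) * 1 ∂M.P
      ≤ ∑' j, ∫⁻ _ξ, ENNReal.ofReal (k.r ^ j) ∂M.P := by
        refine ENNReal.tsum_le_tsum fun j => lintegral_mono fun ξ => ?_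
        rw [mul_one]
        exact ENNReal.ofReal_le_ofReal (k.W_le j ξ)
    _ = ∑' j, ENNReal.ofReal (k.r ^ j) := by simp
    _ = ENNReal.ofReal (∑' j, k.r ^ j) := by
        rw [ENNReal.ofReal_tsum_of_nonneg (fun j => pow_nonneg k.hr0 j)
          (summable_geometric_of_lt_one k.hr0 k.hr)]
    _ < ∞ := ENNReal.ofReal_lt_top

/-- crude integrability: `‖F(j,·)‖²_{L²(P)} ≤ D (j+1)²` for all `j` implies `F ∈ L²(Θ)`. -/
theorem Chain.memLp_Θ (M : Chain S) (k : Cut S) {E : Type} [NormedAddCommGroup E]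
    (F : ℕ × (ℕ → S) → E) (hF : StronglyMeasurable F) (D : ℝ)
    (hD : ∀ j, ∫⁻ ξ, ‖F (j, ξ)‖ₑ ^ 2 ∂M.P ≤ ENNReal.ofReal (D * ((j : ℝ) + 1) ^ 2)) :
    MemLp F 2 (M.Θ k) := by
  refine ⟨hF.aestronglyMeasurable, ?_⟩
  rw [eLpNorm_lt_top_iff_lintegral_rpow_enorm_lt_top (by norm_num) (by norm_num)]
  have h2 : (2 : ℝ≥0∞).toReal = ((2 : ℕ) : ℝ) := by norm_num
  simp only [h2, ENNReal.rpow_natCast]
  rw [M.lintegral_Θ k _ (hF.enorm.pow_const 2)]
  have hD' : ∀ j, ∫⁻ ξ, ‖F (j, ξ)‖ₑ ^ 2 ∂M.P ≤ ENNReal.ofReal (|D| * ((j : ℝ) + 1) ^ 2) :=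
    fun j => (hD j).trans (ENNReal.ofReal_le_ofReal
      (mul_le_mul_of_nonneg_right (le_abs_self D) (sq_nonneg _)))
  have hs : Summable fun j : ℕ => k.r ^ j * (|D| * ((j : ℝ) + 1) ^ 2) := by
    have h1 : Summable fun j : ℕ => ((j : ℝ)) ^ 2 * k.r ^ j :=
      summable_pow_mul_geometric_of_norm_lt_one 2 (by
        rw [Real.norm_eq_abs, abs_of_nonneg k.hr0]; exact k.hr)
    have h2 : Summable fun j : ℕ => ((j : ℝ)) ^ 1 * k.r ^ j :=
      summable_pow_mul_geometric_of_norm_lt_one 1 (by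
        rw [Real.norm_eq_abs, abs_of_nonneg k.hr0]; exact k.hr)
    have h3 : Summable fun j : ℕ => k.r ^ j := summable_geometric_of_lt_one k.hr0 k.hr
    have h4 := ((h1.add (h2.mul_left 2)).add h3).mul_left |D|
    refine h4.congr fun j => ?_
    ring
  calc ∑' j, ∫⁻ ξ, ENNReal.ofReal (k.W j ξ) * ‖F (j, ξ)‖ₑ ^ 2 ∂M.P
      ≤ ∑' j : ℕ, ENNReal.ofReal (k.r ^ j * (|D| * ((j : ℝ) + 1) ^ 2)) := by
        refine ENNReal.tsum_le_tsum fun j => ?_
        calc ∫⁻ ξ, ENNReal.ofReal (k.W j ξ) * ‖F (j, ξ)‖ₑ ^ 2 ∂M.P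
            ≤ ∫⁻ ξ, ENNReal.ofReal (k.r ^ j) * ‖F (j, ξ)‖ₑ ^ 2 ∂M.P :=
              lintegral_mono fun ξ => mul_le_mul_left
                (ENNReal.ofReal_le_ofReal (k.W_le j ξ)) _
          _ = ENNReal.ofReal (k.r ^ j) * ∫⁻ ξ, ‖F (j, ξ)‖ₑ ^ 2 ∂M.P :=
              lintegral_const_mul' _ _ ENNReal.ofReal_ne_top
          _ ≤ ENNReal.ofReal (k.r ^ j) * ENNReal.ofReal (|D| * ((j : ℝ) + 1) ^ 2) :=
              mul_le_mul_right (hD' j) _
          _ = ENNReal.ofReal (k.r ^ j * (|D| * ((j : ℝ) + 1) ^ 2)) :=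
              (ENNReal.ofReal_mul (pow_nonneg k.hr0 j)).symm
    _ = ENNReal.ofReal (∑' j : ℕ, k.r ^ j * (|D| * ((j : ℝ) + 1) ^ 2)) := by
        rw [ENNReal.ofReal_tsum_of_nonneg (fun j => mul_nonneg (pow_nonneg k.hr0 j)
          (mul_nonneg (abs_nonneg _) (sq_nonneg _))) hs]
    _ < ∞ := ENNReal.ofReal_lt_top

/-- sums of at most `j+1` uniformly `L²`-bounded terms are in `L²(Θ)` -/
theorem Chain.memLp_Θ_sum (M : Chain S) (k : Cut S) (X : ℕ → (ℕ → S) → ℝ)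
    (hX : ∀ i, Measurable (X i)) (D : ℝ) (hX2 : ∀ i, MemLp (X i) 2 M.P)
    (hD : ∀ i, ∫ ξ, (X i ξ) ^ 2 ∂M.P ≤ D) :
    MemLp (fun p : ℕ × (ℕ → S) => ∑ i ∈ Finset.range (p.1 + 1), X i p.2) 2 (M.Θ k) := by
  have hm : Measurable (fun p : ℕ × (ℕ → S) => ∑ i ∈ Finset.range (p.1 + 1), X i p.2) :=
    measurable_from_prod_countable_right fun j => by
      have := Finset.measurable_sum (Finset.range (j + 1)) (fun i _ => hX i)
      simpa using this
  refine M.memLp_Θ k _ hm.stronglyMeasurable D fun j => ?_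
  have hL : ∀ i, ∫⁻ ξ, ENNReal.ofReal ((X i ξ) ^ 2) ∂M.P ≤ ENNReal.ofReal D := by
    intro i
    rw [← ofReal_integral_eq_lintegral_ofReal (hX2 i).integrable_sq
      (Filter.Eventually.of_forall fun ξ => sq_nonneg _)]
    exact ENNReal.ofReal_le_ofReal (hD i)
  calc ∫⁻ ξ, ‖∑ i ∈ Finset.range (j + 1), X i ξ‖ₑ ^ 2 ∂M.P
      ≤ ∫⁻ ξ, ENNReal.ofReal ((j : ℝ) + 1) * ∑ i ∈ Finset.range (j + 1),
          ENNReal.ofReal ((X i ξ) ^ 2) ∂M.P := by
        refine lintegral_mono fun ξ => ?_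
        rw [← ENNReal.ofReal_sum_of_nonneg (fun i _ => sq_nonneg _),
          ← ENNReal.ofReal_mul (by positivity), ← ofReal_norm,
          ← ENNReal.ofReal_pow (norm_nonneg _)]
        refine ENNReal.ofReal_le_ofReal ?_
        rw [Real.norm_eq_abs, sq_abs]
        have := sq_sum_le_card_mul_sum_sq (s := Finset.range (j + 1)) (f := fun i => X i ξ)
        simpa using this
    _ = ENNReal.ofReal ((j : ℝ) + 1) * ∑ i ∈ Finset.range (j + 1),
          ∫⁻ ξ, ENNReal.ofReal ((X i ξ) ^ 2) ∂M.P := by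
        rw [lintegral_const_mul' _ _ ENNReal.ofReal_ne_top, lintegral_finsetSum]
        exact fun i _ => ((hX i).pow_const 2).ennreal_ofReal
    _ ≤ ENNReal.ofReal ((j : ℝ) + 1) * ∑ _i ∈ Finset.range (j + 1), ENNReal.ofReal D :=
        mul_le_mul_right (Finset.sum_le_sum fun i _ => hL i) _
    _ = ENNReal.ofReal (D * ((j : ℝ) + 1) ^ 2) := by
        rw [Finset.sum_const, Finset.card_range, nsmul_eq_mul]
        have : ((j + 1 : ℕ) : ℝ≥0∞) = ENNReal.ofReal ((j : ℝ) + 1) := by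
          rw [← Nat.cast_add_one, ENNReal.ofReal_natCast]
        rw [this, ← mul_assoc, ← ENNReal.ofReal_mul (by positivity),
          ← ENNReal.ofReal_mul (by positivity)]
        congr 1
        ring

end Pool.Agent.H45.CLT
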