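import Pool.Agent.H45.CLT.Gap1

/-!
# Module GAP2: the summation identities, marginals.
`p = (j, ξ)` is the gap `(ξ_0, ..., ξ_{j+1})`, of length `ℓ = j + 1`, with weight
`W_j(ξ) = (1-χ(ξ_0)) χ(ξ_1)⋯χ(ξ_j) (1-χ(ξ_{j+1})) = w_j - w_{j+1}`, `w_j = (1-χ(ξ_0)) v_j`,
`v_j = χ(ξ_1)⋯χ(ξ_j)`.
* (FT) `∑_{j ≥ i} W_j(ξ) = w_i(ξ)` pathwise, hence `∫ ∑_{i ≤ j} X_i(ξ) dΘ = ∑_i ∫ w_i X_i dP`;
* (BT) `∑_{i ≥ 0} ∫ w_i(ξ) H(sh i ξ) dP = ∫ H dP`: with `a_i = ∫ χ(ξ_0) v_i(ξ) H(sh i ξ) dP` one has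
  `∫ w_i H(sh i ξ) = a_{i-1} - a_i` by stationarity, `a_{-1} = ∫ H`, `a_i ≤ r^{i+1} ∫ H`;
* (Campbell) `∫ ∑_{i ≤ j} H(j-i, sh i ξ) dΘ = ∑_l ∫ v_l(ξ) (1-χ(ξ_{l+1})) H(l, ξ) dP`.
-/

set_option autoImplicit false

open MeasureTheory ProbabilityTheory
open scoped ENNReal NNReal

namespace Pool.Agent.H45.CLT

variable {S : Type} [MeasurableSpace S]

/-- summation over the triangle -/
theorem tsum_triangle (f : ℕ → ℕ → ℝ≥0∞) :
    ∑' j, ∑ i ∈ Finset.range (j + 1), f i (j - i) = ∑' i, ∑' l, f i l := by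
  calc ∑' j, ∑ i ∈ Finset.range (j + 1), f i (j - i)
      = ∑' j, ∑ p ∈ Finset.HasAntidiagonal.antidiagonal j, f p.1 p.2 := by
        refine tsum_congr fun j => ?_
        rw [Finset.Nat.sum_antidiagonal_eq_sum_range_succ_mk]
    _ = ∑' j, ∑' p : Finset.HasAntidiagonal.antidiagonal j, f p.1.1 p.1.2 := by
        refine tsum_congr fun j => ?_
        exact (Finset.tsum_subtype (Finset.HasAntidiagonal.antidiagonal j) (fun p : ℕ × ℕ => f p.1 p.2)).symm
    _ = ∑' q : (Σ j : ℕ, Finset.HasAntidiagonal.antidiagonal j), f q.2.1.1 q.2.1.2 :=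
        (ENNReal.tsum_sigma fun (j : ℕ) (p : Finset.HasAntidiagonal.antidiagonal j) => f p.1.1 p.1.2).symm
    _ = ∑' p : ℕ × ℕ, f p.1 p.2 :=
        Finset.HasAntidiagonal.sigmaAntidiagonalEquivProd.tsum_eq (fun p : ℕ × ℕ => f p.1 p.2)
    _ = ∑' i, ∑' l, f i l := ENNReal.tsum_prod

/-- pathwise (FT) -/
theorem Cut.hasSum_W (k : Cut S) (i : ℕ) (ξ : ℕ → S) :
    HasSum (fun l => k.W (i + l) ξ) (k.w i ξ) := by
  rw [hasSum_iff_tendsto_nat_of_nonneg (fun l => k.W_nonneg _ _)]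
  have h1 : ∀ n, ∑ l ∈ Finset.range n, k.W (i + l) ξ = k.w i ξ - k.w (i + n) ξ := by
    intro n
    have := Finset.sum_range_sub' (fun l => k.w (i + l) ξ) n
    simp only [add_zero] at this
    rw [← this]
    refine Finset.sum_congr rfl fun l _ => ?_
    rw [k.W_eq]
    rfl
  simp_rw [h1]
  have h2 : Filter.Tendsto (fun n => k.w (i + n) ξ) Filter.atTop (nhds 0) := by
    refine squeeze_zero (fun n => k.w_nonneg _ _) (fun n => k.w_le _ _) ?_
    have h3 := tendsto_pow_atTop_nhds_zero_of_lt_one k.hr0 k.hr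
    exact h3.comp (Filter.tendsto_atTop_mono (fun n => Nat.le_add_left n i) Filter.tendsto_id)
  simpa using tendsto_const_nhds.sub h2

theorem Cut.tsum_W (k : Cut S) (i : ℕ) (ξ : ℕ → S) :
    ∑' l, ENNReal.ofReal (k.W (i + l) ξ) = ENNReal.ofReal (k.w i ξ) := by
  rw [← (k.hasSum_W i ξ).tsum_eq, ENNReal.ofReal_tsum_of_nonneg (fun l => k.W_nonneg _ _)
    (k.hasSum_W i ξ).summable]

/-- (FT) integrated -/
theorem Chain.Θ_fwd_sum (M : Chain S) (k : Cut S) (X : ℕ → (ℕ → S) → ℝ≥0∞)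
    (hX : ∀ i, Measurable (X i)) :
    ∫⁻ p, ∑ i ∈ Finset.range (p.1 + 1), X i p.2 ∂(M.Θ k)
      = ∑' i, ∫⁻ ξ, ENNReal.ofReal (k.w i ξ) * X i ξ ∂M.P := by
  have hm : Measurable (fun p : ℕ × (ℕ → S) => ∑ i ∈ Finset.range (p.1 + 1), X i p.2) :=
    measurable_from_prod_countable_right fun j => by
      have := Finset.measurable_sum (Finset.range (j + 1)) (fun i _ => hX i)
      simpa using this
  rw [M.lintegral_Θ k _ hm]
  calc ∑' j, ∫⁻ ξ, ENNReal.ofReal (k.W j ξ) * ∑ i ∈ Finset.range (j + 1), X i ξ ∂M.P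
      = ∑' j, ∑ i ∈ Finset.range (j + 1),
          ∫⁻ ξ, ENNReal.ofReal (k.W (i + (j - i)) ξ) * X i ξ ∂M.P := by
        refine tsum_congr fun j => ?_
        rw [← lintegral_finsetSum]
        · refine lintegral_congr fun ξ => ?_
          rw [Finset.mul_sum]
          refine Finset.sum_congr rfl fun i hi => ?_
          rw [Finset.mem_range] at hi
          rw [Nat.add_sub_cancel' (by omega)]
        · exact fun i _ => ((k.measurable_W _).ennreal_ofReal).mul (hX i)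
    _ = ∑' i, ∑' l, ∫⁻ ξ, ENNReal.ofReal (k.W (i + l) ξ) * X i ξ ∂M.P :=
        tsum_triangle fun i l => ∫⁻ ξ, ENNReal.ofReal (k.W (i + l) ξ) * X i ξ ∂M.P
    _ = ∑' i, ∫⁻ ξ, ENNReal.ofReal (k.w i ξ) * X i ξ ∂M.P := by
        refine tsum_congr fun i => ?_
        have hW : ∀ l, AEMeasurable
            (fun ξ : ℕ → S => ENNReal.ofReal (k.W (i + l) ξ) * X i ξ) M.P :=
          fun l => (((k.measurable_W _).ennreal_ofReal).mul (hX i)).aemeasurable
        rw [← lintegral_tsum hW]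
        refine lintegral_congr fun ξ => ?_
        rw [ENNReal.tsum_mul_right, k.tsum_W]

/-- (BT) -/
theorem Chain.bt (M : Chain S) (k : Cut S) (K : (ℕ → S) → ℝ≥0∞) (hK : Measurable K) :
    ∑' i, ∫⁻ ξ, ENNReal.ofReal (k.w i ξ) * K (sh i ξ) ∂M.P = ∫⁻ ξ, K ξ ∂M.P := by
  have hKs : ∀ i, Measurable fun ξ : ℕ → S => K (sh i ξ) := fun i => hK.comp (measurable_sh i)
  have hχ : Measurable fun ξ : ℕ → S => k.χ (ξ 0) := k.hm.comp (measurable_pi_apply 0)
  have hKint : ∀ i, ∫⁻ ξ, K (sh i ξ) ∂M.P = ∫⁻ ξ, K ξ ∂M.P := fun i =>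
    (M.mp_sh i).lintegral_comp hK
  set a : ℕ → ℝ≥0∞ := fun n => ∫⁻ ξ, ENNReal.ofReal (k.v n ξ) * K (sh n ξ) ∂M.P with ha
  set b : ℕ → ℝ≥0∞ := fun n => ∫⁻ ξ, ENNReal.ofReal (k.w n ξ) * K (sh n ξ) ∂M.P with hb
  have hstep : ∀ n, b n + a (n + 1) = a n := by
    intro n
    have m1 : Measurable fun ξ : ℕ → S =>
        ENNReal.ofReal (k.χ (ξ 0) * k.v n ξ) * K (sh n ξ) :=
      ((hχ.mul (k.measurable_v n)).ennreal_ofReal).mul (hKs n)
    have m2 : Measurable fun ξ : ℕ → S => ENNReal.ofReal (k.w n ξ) * K (sh n ξ) :=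
      ((k.measurable_w n).ennreal_ofReal).mul (hKs n)
    have h1 : a (n + 1) = ∫⁻ ξ, ENNReal.ofReal (k.χ (ξ 0) * k.v n ξ) * K (sh n ξ) ∂M.P := by
      rw [← (M.mp_sh 1).lintegral_comp m1]
      refine lintegral_congr fun ξ => ?_
      have e1 : sh (n + 1) ξ = sh n (sh 1 ξ) := by
        funext j
        simp only [sh]
        congr 1
        omega
      have e2 : (sh 1 ξ) 0 = ξ 1 := rfl
      rw [k.v_succ', e1, e2]
    rw [h1]
    simp only [hb, ha]
    rw [← lintegral_add_left m2]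
    refine lintegral_congr fun ξ => ?_
    rw [← add_mul, ← ENNReal.ofReal_add (k.w_nonneg n ξ)
      (mul_nonneg (k.h0 _) (k.v_nonneg n ξ))]
    congr 2
    unfold Cut.w
    ring
  have ha0 : a 0 = ∫⁻ ξ, K ξ ∂M.P := by
    rw [← hKint 0]
    refine lintegral_congr fun ξ => ?_
    simp [Cut.v]
  have hsum : ∀ n, ∑ i ∈ Finset.range n, b i + a n = ∫⁻ ξ, K ξ ∂M.P := by
    intro n
    induction n with
    | zero => simp [ha0]
    | succ n ih =>
      rw [Finset.sum_range_succ, add_assoc, hstep, ih]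
  by_cases hfin : ∫⁻ ξ, K ξ ∂M.P = ∞
  · rw [hfin]
    refine ENNReal.tsum_eq_top_of_eq_top ⟨0, ?_⟩
    rw [← top_le_iff]
    have hr1 : ENNReal.ofReal (1 - k.r) ≠ 0 := by
      rw [Ne, ENNReal.ofReal_eq_zero, not_le]
      linarith [k.hr]
    calc (∞ : ℝ≥0∞) = ENNReal.ofReal (1 - k.r) * ∞ := (ENNReal.mul_top hr1).symm
      _ = ∫⁻ ξ, ENNReal.ofReal (1 - k.r) * K (sh 0 ξ) ∂M.P := by
        rw [lintegral_const_mul' _ _ ENNReal.ofReal_ne_top, hKint, hfin]
      _ ≤ b 0 := by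
        refine lintegral_mono fun ξ => ?_
        refine mul_le_mul_left (ENNReal.ofReal_le_ofReal ?_) _
        simp only [Cut.w, Cut.v, Finset.range_zero, Finset.prod_empty, mul_one]
        linarith [k.h1 (ξ 0)]
  · have hlim : Filter.Tendsto a Filter.atTop (nhds 0) := by
      have hle : ∀ n, a n ≤ ENNReal.ofReal (k.r ^ n) * ∫⁻ ξ, K ξ ∂M.P := by
        intro n
        rw [← hKint n, ← lintegral_const_mul' _ _ ENNReal.ofReal_ne_top]
        exact lintegral_mono fun ξ => mul_le_mul_left (ENNReal.ofReal_le_ofReal (k.v_le n ξ)) _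
      have h3 := tendsto_pow_atTop_nhds_zero_of_lt_one k.hr0 k.hr
      have h4 := ENNReal.Tendsto.mul_const (b := ∫⁻ ξ, K ξ ∂M.P) (ENNReal.tendsto_ofReal h3)
        (Or.inr hfin)
      rw [ENNReal.ofReal_zero, zero_mul] at h4
      exact tendsto_of_tendsto_of_tendsto_of_le_of_le tendsto_const_nhds h4
        (fun n => zero_le) hle
    have h1 := (ENNReal.tendsto_nat_tsum b).add hlim
    rw [add_zero] at h1
    have h2 : (fun n => ∑ i ∈ Finset.range n, b i + a n) = fun _ => ∫⁻ ξ, K ξ ∂M.P :=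
      funext hsum
    rw [h2] at h1
    exact tendsto_nhds_unique h1 tendsto_const_nhds

theorem Cut.W_add (k : Cut S) (i l : ℕ) (ξ : ℕ → S) :
    k.W (i + l) ξ = k.w i ξ * (k.v l (sh i ξ) * (1 - k.χ (sh i ξ (l + 1)))) := by
  have hv : k.v (i + l) ξ = k.v i ξ * k.v l (sh i ξ) := by
    unfold Cut.v
    rw [Finset.prod_range_add]
    congr 1
  unfold Cut.W Cut.w
  rw [hv]
  have : sh i ξ (l + 1) = ξ (i + l + 1) := by
    simp only [sh]
    congr 1
  rw [this]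
  ring

/-- (Campbell) -/
theorem Chain.Θ_campbell (M : Chain S) (k : Cut S) (H : ℕ → (ℕ → S) → ℝ≥0∞)
    (hH : ∀ i, Measurable (H i)) :
    ∫⁻ p, ∑ i ∈ Finset.range (p.1 + 1), H (p.1 - i) (sh i p.2) ∂(M.Θ k)
      = ∑' l, ∫⁻ ξ, ENNReal.ofReal (k.v l ξ * (1 - k.χ (ξ (l + 1)))) * H l ξ ∂M.P := by
  have hHs : ∀ i l, Measurable fun ξ : ℕ → S => H l (sh i ξ) :=
    fun i l => (hH l).comp (measurable_sh i)
  have hm : Measurable (fun p : ℕ × (ℕ → S) =>
      ∑ i ∈ Finset.range (p.1 + 1), H (p.1 - i) (sh i p.2)) :=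
    measurable_from_prod_countable_right fun j => by
      have := Finset.measurable_sum (Finset.range (j + 1)) (fun i _ => hHs i (j - i))
      simpa using this
  have hK : ∀ l, Measurable fun ξ : ℕ → S =>
      ENNReal.ofReal (k.v l ξ * (1 - k.χ (ξ (l + 1)))) * H l ξ := fun l =>
    (((k.measurable_v l).mul (measurable_const.sub
      (k.hm.comp (measurable_pi_apply (l + 1))))).ennreal_ofReal).mul (hH l)
  rw [M.lintegral_Θ k _ hm]
  calc ∑' j, ∫⁻ ξ, ENNReal.ofReal (k.W j ξ) *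
          ∑ i ∈ Finset.range (j + 1), H (j - i) (sh i ξ) ∂M.P
      = ∑' j, ∑ i ∈ Finset.range (j + 1),
          ∫⁻ ξ, ENNReal.ofReal (k.W (i + (j - i)) ξ) * H (j - i) (sh i ξ) ∂M.P := by
        refine tsum_congr fun j => ?_
        rw [← lintegral_finsetSum]
        · refine lintegral_congr fun ξ => ?_
          rw [Finset.mul_sum]
          refine Finset.sum_congr rfl fun i hi => ?_
          rw [Finset.mem_range] at hi
          rw [Nat.add_sub_cancel' (by omega)]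
        · exact fun i _ => ((k.measurable_W _).ennreal_ofReal).mul (hHs i _)
    _ = ∑' i, ∑' l, ∫⁻ ξ, ENNReal.ofReal (k.W (i + l) ξ) * H l (sh i ξ) ∂M.P :=
        tsum_triangle fun i l => ∫⁻ ξ, ENNReal.ofReal (k.W (i + l) ξ) * H l (sh i ξ) ∂M.P
    _ = ∑' l, ∑' i, ∫⁻ ξ, ENNReal.ofReal (k.W (i + l) ξ) * H l (sh i ξ) ∂M.P :=
        ENNReal.tsum_comm
    _ = ∑' l, ∫⁻ ξ, ENNReal.ofReal (k.v l ξ * (1 - k.χ (ξ (l + 1)))) * H l ξ ∂M.P := by
        refine tsum_congr fun l => ?_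
        rw [← M.bt k _ (hK l)]
        refine tsum_congr fun i => ?_
        refine lintegral_congr fun ξ => ?_
        rw [k.W_add, ENNReal.ofReal_mul (k.w_nonneg i ξ), mul_assoc]

/-- mean measure of the whole gap: `∫ ∑_{i<ℓ} h(sh i ξ) dΘ = ∫ h dP`. -/
theorem Chain.Θ_T1 (M : Chain S) (k : Cut S) (h : (ℕ → S) → ℝ≥0∞) (hh : Measurable h) :
    ∫⁻ p, ∑ i ∈ Finset.range (p.1 + 1), h (sh i p.2) ∂(M.Θ k) = ∫⁻ ξ, h ξ ∂M.P := by
  rw [M.Θ_fwd_sum k (fun i ξ => h (sh i ξ)) (fun i => hh.comp (measurable_sh i)), M.bt k h hh]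

theorem measurable_sum_sh {β : Type} [MeasurableSpace β] [AddCommMonoid β] [MeasurableAdd₂ β]
    (h : (ℕ → S) → β) (hm : Measurable h) :
    Measurable (fun p : ℕ × (ℕ → S) => ∑ i ∈ Finset.range (p.1 + 1), h (sh i p.2)) :=
  measurable_from_prod_countable_right fun j => by
    have := Finset.measurable_sum (Finset.range (j + 1))
      (fun i _ => hm.comp (measurable_sh (S := S) i))
    simpa using this

theorem Chain.Θ_T1_aux (M : Chain S) (k : Cut S) (h : (ℕ → S) → ℝ) (hm : Measurable h)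
    (h0 : ∀ ξ, 0 ≤ h ξ) :
    ∫ p, ∑ i ∈ Finset.range (p.1 + 1), h (sh i p.2) ∂(M.Θ k) = ∫ ξ, h ξ ∂M.P := by
  rw [integral_eq_lintegral_of_nonneg_ae
    (Filter.Eventually.of_forall fun p => Finset.sum_nonneg fun i _ => h0 _)
    (measurable_sum_sh h hm).aestronglyMeasurable,
    integral_eq_lintegral_of_nonneg_ae (Filter.Eventually.of_forall fun ξ => h0 ξ)
    hm.aestronglyMeasurable, ← M.Θ_T1 k (fun ξ => ENNReal.ofReal (h ξ)) hm.ennreal_ofReal]
  congr 1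
  refine lintegral_congr fun p => ?_
  rw [ENNReal.ofReal_sum_of_nonneg fun i _ => h0 _]

theorem Chain.Θ_T1_integrable (M : Chain S) (k : Cut S) (g : (ℕ → S) → ℝ) (hg : Measurable g)
    (hgi : Integrable g M.P) :
    Integrable (fun p : ℕ × (ℕ → S) => ∑ i ∈ Finset.range (p.1 + 1), g (sh i p.2)) (M.Θ k) := by
  refine ⟨(measurable_sum_sh g hg).aestronglyMeasurable, ?_⟩
  rw [hasFiniteIntegral_iff_enorm]
  calc ∫⁻ p, ‖∑ i ∈ Finset.range (p.1 + 1), g (sh i p.2)‖ₑ ∂(M.Θ k)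
      ≤ ∫⁻ p, ∑ i ∈ Finset.range (p.1 + 1), ‖g (sh i p.2)‖ₑ ∂(M.Θ k) :=
        lintegral_mono fun p => enorm_sum_le _ _
    _ = ∫⁻ ξ, ‖g ξ‖ₑ ∂M.P := M.Θ_T1 k (fun ξ => ‖g ξ‖ₑ) hg.enorm
    _ < ∞ := hgi.2

/-- Bochner version of `Θ_T1` -/
theorem Chain.Θ_T1_int (M : Chain S) (k : Cut S) (h : (ℕ → S) → ℝ) (hm : Measurable h)
    (hh : Integrable h M.P) :
    Integrable (fun p : ℕ × (ℕ → S) => ∑ i ∈ Finset.range (p.1 + 1), h (sh i p.2)) (M.Θ k) ∧
    ∫ p, ∑ i ∈ Finset.range (p.1 + 1), h (sh i p.2) ∂(M.Θ k) = ∫ ξ, h ξ ∂M.P := by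
  refine ⟨M.Θ_T1_integrable k h hm hh, ?_⟩
  obtain ⟨u, hu⟩ : ∃ u : (ℕ → S) → ℝ, u = fun ξ => max (h ξ) 0 := ⟨_, rfl⟩
  obtain ⟨v, hv⟩ : ∃ v : (ℕ → S) → ℝ, v = fun ξ => max (-h ξ) 0 := ⟨_, rfl⟩
  have m1 : Measurable u := by rw [hu]; exact hm.max measurable_const
  have m2 : Measurable v := by rw [hv]; exact hm.neg.max measurable_const
  have i1 : Integrable u M.P := by rw [hu]; exact hh.pos_part
  have i2 : Integrable v M.P := by rw [hv]; exact hh.neg_part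
  have u0 : ∀ ξ, 0 ≤ u ξ := fun ξ => by rw [hu]; exact le_max_right _ _
  have v0 : ∀ ξ, 0 ≤ v ξ := fun ξ => by rw [hv]; exact le_max_right _ _
  have e : ∀ ξ, h ξ = u ξ - v ξ := fun ξ => by
    rw [hu, hv]
    simp only []
    rcases le_total 0 (h ξ) with h1 | h1
    · rw [max_eq_left h1, max_eq_right (by linarith)]; ring
    · rw [max_eq_right h1, max_eq_left (by linarith)]; ring
  have s1 := M.Θ_T1_aux k u m1 u0
  have s2 := M.Θ_T1_aux k v m2 v0
  have s3 := integral_sub (M.Θ_T1_integrable k u m1 i1) (M.Θ_T1_integrable k v m2 i2)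
  have s4 : ∫ ξ, h ξ ∂M.P = ∫ ξ, u ξ ∂M.P - ∫ ξ, v ξ ∂M.P := by
    rw [← integral_sub i1 i2]
    exact integral_congr_ae (Filter.Eventually.of_forall e)
  have s5 : ∫ p, ∑ i ∈ Finset.range (p.1 + 1), h (sh i p.2) ∂(M.Θ k)
      = ∫ p, (∑ i ∈ Finset.range (p.1 + 1), u (sh i p.2)
          - ∑ i ∈ Finset.range (p.1 + 1), v (sh i p.2)) ∂(M.Θ k) := by
    refine integral_congr_ae (Filter.Eventually.of_forall fun p => ?_)
    simp only []
    rw [← Finset.sum_sub_distrib]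
    exact Finset.sum_congr rfl fun i _ => e _
  rw [s5, s3, s1, s2, s4]

theorem Chain.lintegral_Θ_x (M : Chain S) (k : Cut S) (F : S → ℝ≥0∞) (hF : Measurable F) :
    ∫⁻ p, F (p.2 0) ∂(M.Θ k) = ∫⁻ x, ENNReal.ofReal (1 - k.χ x) * F x ∂M.ν := by
  have hF0 : Measurable fun ξ : ℕ → S => F (ξ 0) := hF.comp (measurable_pi_apply 0)
  have hG : Measurable fun x => ENNReal.ofReal (1 - k.χ x) * F x :=
    ((measurable_const.sub k.hm).ennreal_ofReal).mul hF
  have hW : ∀ j, AEMeasurable (fun ξ : ℕ → S => ENNReal.ofReal (k.W j ξ) * F (ξ 0)) M.P :=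
    fun j => (((k.measurable_W _).ennreal_ofReal).mul hF0).aemeasurable
  rw [M.lintegral_Θ k (fun p => F (p.2 0)) (hF0.comp measurable_snd)]
  simp only []
  rw [← lintegral_tsum hW, ← (M.mp_eval 0).lintegral_comp hG]
  refine lintegral_congr fun ξ => ?_
  rw [ENNReal.tsum_mul_right]
  have := k.tsum_W 0 ξ
  simp only [zero_add] at this
  rw [this]
  simp [Cut.w, Cut.v]

theorem Chain.lintegral_Θ_y (M : Chain S) (k : Cut S) (F : S → ℝ≥0∞) (hF : Measurable F) :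
    ∫⁻ p, F (p.2 (p.1 + 1)) ∂(M.Θ k) = ∫⁻ x, ENNReal.ofReal (1 - k.χ x) * F x ∂M.ν := by
  have hFm : Measurable fun p : ℕ × (ℕ → S) => F (p.2 (p.1 + 1)) :=
    measurable_from_prod_countable_right fun j => hF.comp (measurable_pi_apply (j + 1))
  have hG : Measurable fun x => ENNReal.ofReal (1 - k.χ x) * F x :=
    ((measurable_const.sub k.hm).ennreal_ofReal).mul hF
  rw [M.lintegral_Θ k _ hFm, ← (M.mp_eval 1).lintegral_comp hG,
    ← M.bt k (fun ξ => ENNReal.ofReal (1 - k.χ (ξ 1)) * F (ξ 1))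
      (hG.comp (measurable_pi_apply 1))]
  refine tsum_congr fun j => lintegral_congr fun ξ => ?_
  simp only [sh, Cut.W]
  rw [ENNReal.ofReal_mul (k.w_nonneg j ξ), mul_assoc]

theorem measurable_px : Measurable (fun p : ℕ × (ℕ → S) => p.2 0) :=
  (measurable_pi_apply 0).comp measurable_snd

theorem measurable_py : Measurable (fun p : ℕ × (ℕ → S) => p.2 (p.1 + 1)) :=
  measurable_from_prod_countable_right fun j => measurable_pi_apply (j + 1)

theorem Cut.measurable_dens (k : Cut S) : Measurable fun x => ENNReal.ofReal (1 - k.χ x) :=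
  (measurable_const.sub k.hm).ennreal_ofReal

theorem Chain.Θ_map_x (M : Chain S) (k : Cut S) :
    (M.Θ k).map (fun p => p.2 0)
      = M.ν.withDensity (fun x => ENNReal.ofReal (1 - k.χ x)) := by
  refine Measure.ext_of_lintegral _ fun F hF => ?_
  rw [lintegral_map hF measurable_px, M.lintegral_Θ_x k F hF,
    lintegral_withDensity_eq_lintegral_mul _ k.measurable_dens hF]
  rfl

theorem Chain.Θ_map_y (M : Chain S) (k : Cut S) :
    (M.Θ k).map (fun p => p.2 (p.1 + 1))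
      = M.ν.withDensity (fun x => ENNReal.ofReal (1 - k.χ x)) := by
  refine Measure.ext_of_lintegral _ fun F hF => ?_
  rw [lintegral_map hF measurable_py, M.lintegral_Θ_y k F hF,
    lintegral_withDensity_eq_lintegral_mul _ k.measurable_dens hF]
  rfl

theorem Chain.integral_density (M : Chain S) (k : Cut S) {E : Type} [NormedAddCommGroup E]
    [NormedSpace ℝ E] (φ : S → E) :
    ∫ x, φ x ∂(M.ν.withDensity (fun x => ENNReal.ofReal (1 - k.χ x)))
      = ∫ x, (1 - k.χ x) • φ x ∂M.ν := by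
  rw [integral_withDensity_eq_integral_toReal_smul k.measurable_dens
    (Filter.Eventually.of_forall fun p => ENNReal.ofReal_lt_top)]
  refine integral_congr_ae (Filter.Eventually.of_forall fun x => ?_)
  simp only []
  rw [ENNReal.toReal_ofReal (sub_nonneg.2 (k.χ_le_one x))]

theorem Chain.integral_x (M : Chain S) (k : Cut S) {E : Type} [NormedAddCommGroup E]
    [NormedSpace ℝ E] (φ : S → E) (hφ : AEStronglyMeasurable φ M.ν) :
    ∫ p, φ (p.2 0) ∂(M.Θ k) = ∫ x, (1 - k.χ x) • φ x ∂M.ν := by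
  have h := integral_map (μ := M.Θ k) (φ := fun p : ℕ × (ℕ → S) => p.2 0) (f := φ)
    measurable_px.aemeasurable (by
      rw [M.Θ_map_x k]
      exact hφ.mono_ac (withDensity_absolutelyContinuous _ _))
  rw [← h, M.Θ_map_x k, M.integral_density k φ]

theorem Chain.integral_y (M : Chain S) (k : Cut S) {E : Type} [NormedAddCommGroup E]
    [NormedSpace ℝ E] (φ : S → E) (hφ : AEStronglyMeasurable φ M.ν) :
    ∫ p, φ (p.2 (p.1 + 1)) ∂(M.Θ k) = ∫ x, (1 - k.χ x) • φ x ∂M.ν := by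
  have h := integral_map (μ := M.Θ k) (φ := fun p : ℕ × (ℕ → S) => p.2 (p.1 + 1)) (f := φ)
    measurable_py.aemeasurable (by
      rw [M.Θ_map_y k]
      exact hφ.mono_ac (withDensity_absolutelyContinuous _ _))
  rw [← h, M.Θ_map_y k, M.integral_density k φ]

theorem Chain.density_le (M : Chain S) (k : Cut S) :
    M.ν.withDensity (fun x => ENNReal.ofReal (1 - k.χ x)) ≤ M.ν := by
  calc M.ν.withDensity (fun x => ENNReal.ofReal (1 - k.χ x))
      ≤ M.ν.withDensity 1 := by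
        refine withDensity_mono (Filter.Eventually.of_forall fun x => ?_)
        simp only [Pi.one_apply]
        rw [ENNReal.ofReal_le_one]
        linarith [k.h0 x]
    _ = M.ν := withDensity_one

theorem Chain.memLp_x (M : Chain S) (k : Cut S) {E : Type} [NormedAddCommGroup E]
    (q : ℝ≥0∞) (φ : S → E) (hφ : MemLp φ q M.ν) :
    MemLp (fun p : ℕ × (ℕ → S) => φ (p.2 0)) q (M.Θ k) :=
  (hφ.mono_measure (M.density_le k)).comp_measurePreserving ⟨measurable_px, M.Θ_map_x k⟩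

theorem Chain.memLp_y (M : Chain S) (k : Cut S) {E : Type} [NormedAddCommGroup E]
    (q : ℝ≥0∞) (φ : S → E) (hφ : MemLp φ q M.ν) :
    MemLp (fun p : ℕ × (ℕ → S) => φ (p.2 (p.1 + 1))) q (M.Θ k) :=
  (hφ.mono_measure (M.density_le k)).comp_measurePreserving ⟨measurable_py, M.Θ_map_y k⟩

end Pool.Agent.H45.CLT
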