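import Pool.Agent.H45.CLT.Base

/-!
# Module PATHA: path space facts, forward side.
All of these follow from `hshift`, `hlaw`, `hmarkov` of `Chain`.
-/

set_option autoImplicit false

open MeasureTheory ProbabilityTheory
open scoped ENNReal NNReal

namespace Pool.Agent.H45.CLT

variable {S : Type} [MeasurableSpace S]

theorem measurable_sh (i : ℕ) : Measurable (sh i : (ℕ → S) → (ℕ → S)) :=
  measurable_pi_lambda _ fun j => measurable_pi_apply (i + j)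

theorem measurable_fr (i : ℕ) : Measurable (fr i : (ℕ → S) → (ℕ → S)) :=
  measurable_pi_lambda _ fun j => measurable_pi_apply (min i j)

/-- all shifts preserve the path law -/
theorem Chain.mp_sh (M : Chain S) (i : ℕ) :
    MeasurePreserving (sh i : (ℕ → S) → (ℕ → S)) M.P M.P := by
  induction i with
  | zero =>
    have h : (sh 0 : (ℕ → S) → (ℕ → S)) = id := by
      funext ξ j
      simp [sh]
    rw [h]
    exact MeasurePreserving.id _
  | succ i ih =>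
    have h : (sh (i + 1) : (ℕ → S) → (ℕ → S)) = sh 1 ∘ sh i := by
      funext ξ j
      simp only [sh, Function.comp]
      congr 1
      omega
    rw [h]
    exact M.hshift.comp ih

/-- every coordinate has law `ν` -/
theorem Chain.mp_eval (M : Chain S) (i : ℕ) :
    MeasurePreserving (fun ξ : ℕ → S => ξ i) M.P M.ν := by
  have h0 : MeasurePreserving (fun ξ : ℕ → S => ξ 0) M.P M.ν :=
    ⟨measurable_pi_apply 0, M.hlaw⟩
  have h := h0.comp (M.mp_sh i)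
  have he : ((fun ξ : ℕ → S => ξ 0) ∘ sh i) = fun ξ : ℕ → S => ξ i := by
    funext ξ
    simp [sh, Function.comp]
  rwa [he] at h

/-- stationarity of `ν` -/
theorem Chain.bind_eq (M : Chain S) : M.ν.bind M.Q = M.ν := by
  ext s hs
  rw [Measure.bind_apply hs M.Q.measurable.aemeasurable]
  have h := M.hmarkov 0 (fun _ => 1) (s.indicator 1) measurable_const
    (measurable_one.indicator hs)
  simp only [one_mul] at h
  have h1 : ∫⁻ ξ, (s.indicator 1 (ξ (0 + 1)) : ℝ≥0∞) ∂M.P = M.ν s := by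
    rw [(M.mp_eval (0 + 1)).lintegral_comp (f := s.indicator 1) (measurable_one.indicator hs),
      lintegral_indicator_one hs]
  have h2 : ∀ ξ : ℕ → S, ∫⁻ z, (s.indicator 1 z : ℝ≥0∞) ∂(M.Q (ξ 0)) = M.Q (ξ 0) s := by
    intro ξ
    rw [lintegral_indicator_one hs]
  simp_rw [h2] at h
  rw [h1] at h
  rw [(M.mp_eval 0).lintegral_comp (f := fun x => M.Q x s) (M.Q.measurable_coe hs)] at h
  exact h.symm

/-- the joint law of the frozen path and the next coordinate -/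
theorem Chain.map_pair (M : Chain S) (i : ℕ) :
    M.P.map (fun ξ : ℕ → S => (fr i ξ, ξ (i + 1)))
      = (M.P.map (fr i)) ⊗ₘ (M.Q.comap (fun ξ : ℕ → S => ξ i) (measurable_pi_apply i)) := by
  have hm : Measurable (fun ξ : ℕ → S => (fr i ξ, ξ (i + 1))) :=
    (measurable_fr i).prodMk (measurable_pi_apply (i + 1))
  have : IsProbabilityMeasure (M.P.map (fun ξ : ℕ → S => (fr i ξ, ξ (i + 1)))) :=
    Measure.isProbabilityMeasure_map hm.aemeasurable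
  have : IsProbabilityMeasure (M.P.map (fr i : (ℕ → S) → (ℕ → S))) :=
    Measure.isProbabilityMeasure_map (measurable_fr i).aemeasurable
  refine Measure.ext_prod fun {s t} hs ht => ?_
  rw [Measure.map_apply hm (hs.prod ht), Measure.compProd_apply_prod hs ht]
  have h := M.hmarkov i (s.indicator 1) (t.indicator 1) (measurable_one.indicator hs)
    (measurable_one.indicator ht)
  have h1 : ∀ ξ : ℕ → S, (s.indicator 1 (fr i ξ) : ℝ≥0∞) * t.indicator 1 (ξ (i + 1))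
      = ((fun ξ : ℕ → S => (fr i ξ, ξ (i + 1))) ⁻¹' (s ×ˢ t)).indicator 1 ξ := by
    intro ξ
    by_cases h1 : fr i ξ ∈ s <;> by_cases h2 : ξ (i + 1) ∈ t <;>
      simp [Set.indicator, h1, h2]
  simp_rw [h1] at h
  rw [lintegral_indicator_one (hm (hs.prod ht))] at h
  rw [h, ← lintegral_indicator hs, lintegral_map
    ((Kernel.measurable_coe _ ht).indicator hs) (measurable_fr i)]
  refine lintegral_congr fun ξ => ?_
  rw [lintegral_indicator_one ht]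
  by_cases h1 : fr i ξ ∈ s
  · rw [Set.indicator_of_mem h1, Set.indicator_of_mem h1, Kernel.comap_apply]
    simp [fr]
  · rw [Set.indicator_of_notMem h1, Set.indicator_of_notMem h1, zero_mul]

/-- Markov property for complex test functions, `Φ h(ξ_{i+1})` integrable. -/
theorem Chain.markov_gen (M : Chain S) (i : ℕ) (Φ : (ℕ → S) → ℂ) (hΦ : Measurable Φ)
    (hΦi : ∀ ξ, Φ (fr i ξ) = Φ ξ) (h : S → ℂ) (hh : Measurable h)
    (hint : Integrable (fun ξ : ℕ → S => Φ ξ * h (ξ (i + 1))) M.P) :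
    ∫ ξ, Φ ξ * h (ξ (i + 1)) ∂M.P = ∫ ξ, Φ ξ * (∫ z, h z ∂(M.Q (ξ i))) ∂M.P := by
  have hm : Measurable (fun ξ : ℕ → S => (fr i ξ, ξ (i + 1))) :=
    (measurable_fr i).prodMk (measurable_pi_apply (i + 1))
  have : IsProbabilityMeasure (M.P.map (fr i : (ℕ → S) → (ℕ → S))) :=
    Measure.isProbabilityMeasure_map (measurable_fr i).aemeasurable
  set F : (ℕ → S) × S → ℂ := fun q => Φ q.1 * h q.2 with hF
  have hFm : Measurable F := (hΦ.comp measurable_fst).mul (hh.comp measurable_snd)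
  have e1 : ∀ ξ : ℕ → S, Φ ξ * h (ξ (i + 1)) = F (fr i ξ, ξ (i + 1)) := by
    intro ξ
    simp only [hF, hΦi]
  have hFi : Integrable F (M.P.map (fun ξ : ℕ → S => (fr i ξ, ξ (i + 1)))) := by
    rw [integrable_map_measure hFm.aestronglyMeasurable hm.aemeasurable]
    refine hint.congr (Filter.Eventually.of_forall fun ξ => ?_)
    simp only [Function.comp]
    exact e1 ξ
  calc ∫ ξ, Φ ξ * h (ξ (i + 1)) ∂M.P
      = ∫ ξ, F (fr i ξ, ξ (i + 1)) ∂M.P := integral_congr_ae (Filter.Eventually.of_forall e1)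
    _ = ∫ q, F q ∂(M.P.map (fun ξ : ℕ → S => (fr i ξ, ξ (i + 1)))) := by
        rw [integral_map hm.aemeasurable hFm.aestronglyMeasurable]
    _ = ∫ η, ∫ z, F (η, z) ∂(M.Q.comap (fun ξ : ℕ → S => ξ i) (measurable_pi_apply i) η)
          ∂(M.P.map (fr i)) := by
        rw [M.map_pair i] at hFi ⊢
        exact Measure.integral_compProd hFi
    _ = ∫ η, Φ η * (∫ z, h z ∂(M.Q (η i))) ∂(M.P.map (fr i)) := by
        refine integral_congr_ae (Filter.Eventually.of_forall fun η => ?_)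
        simp only [hF, Kernel.comap_apply]
        exact integral_const_mul _ _
    _ = ∫ ξ, Φ (fr i ξ) * (∫ z, h z ∂(M.Q ((fr i ξ) i))) ∂M.P := by
        have hsm : StronglyMeasurable (fun x => ∫ z, h z ∂(M.Q x)) :=
          StronglyMeasurable.integral_kernel hh.stronglyMeasurable
        refine integral_map (measurable_fr i).aemeasurable (Measurable.aestronglyMeasurable ?_)
        exact hΦ.mul (hsm.measurable.comp (measurable_pi_apply i))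
    _ = ∫ ξ, Φ ξ * (∫ z, h z ∂(M.Q (ξ i))) ∂M.P := by
        refine integral_congr_ae (Filter.Eventually.of_forall fun ξ => ?_)
        simp only [hΦi]
        simp [fr]

/-- Markov property for complex test functions, bounded `h`. -/
theorem Chain.markov_bdd (M : Chain S) (i : ℕ) (Φ : (ℕ → S) → ℂ) (hΦ : Measurable Φ)
    (hΦi : ∀ ξ, Φ (fr i ξ) = Φ ξ) (hΦ1 : Integrable Φ M.P) (h : S → ℂ) (hh : Measurable h)
    (hb : ∃ C : ℝ, ∀ x, ‖h x‖ ≤ C) :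
    ∫ ξ, Φ ξ * h (ξ (i + 1)) ∂M.P = ∫ ξ, Φ ξ * (∫ z, h z ∂(M.Q (ξ i))) ∂M.P := by
  obtain ⟨C, hC⟩ := hb
  refine M.markov_gen i Φ hΦ hΦi h hh ?_
  refine hΦ1.mul_bdd (c := C) ?_ (Filter.Eventually.of_forall fun ξ => hC _)
  exact (hh.comp (measurable_pi_apply (i + 1))).aestronglyMeasurable

theorem Chain.memLp_eval (M : Chain S) {g : S → ℝ} (hg : MemLp g 2 M.ν) (i : ℕ) :
    MemLp (fun ξ : ℕ → S => g (ξ i)) 2 M.P :=
  hg.comp_measurePreserving (M.mp_eval i)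

/-- Forward orthogonality: the increments `g(ξ_{i+1}) - Qg(ξ_i)` are orthogonal to the past. -/
theorem Chain.Fwd.orth {M : Chain S} {g g' : S → ℝ} (h : M.Fwd g g') (i : ℕ)
    (Φ : (ℕ → S) → ℂ) (hΦ : Measurable Φ) (hΦi : ∀ ξ, Φ (fr i ξ) = Φ ξ)
    (hΦ2 : MemLp Φ 2 M.P) :
    ∫ ξ, Φ ξ * ((g (ξ (i + 1)) - g' (ξ i) : ℝ) : ℂ) ∂M.P = 0 := by
  have hg2 : MemLp (fun ξ : ℕ → S => ((g (ξ (i + 1)) : ℝ) : ℂ)) 2 M.P :=
    (M.memLp_eval h.l2 (i + 1)).ofReal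
  have hg2' : MemLp (fun ξ : ℕ → S => ((g' (ξ i) : ℝ) : ℂ)) 2 M.P :=
    (M.memLp_eval h.l2' i).ofReal
  have i1 : Integrable (fun ξ : ℕ → S => Φ ξ * ((g (ξ (i + 1)) : ℝ) : ℂ)) M.P :=
    hΦ2.integrable_mul hg2
  have i2 : Integrable (fun ξ : ℕ → S => Φ ξ * ((g' (ξ i) : ℝ) : ℂ)) M.P :=
    hΦ2.integrable_mul hg2'
  have e := M.markov_gen i Φ hΦ hΦi (fun x => ((g x : ℝ) : ℂ))
    (Complex.measurable_ofReal.comp h.m) i1
  have e2 : ∫ ξ, Φ ξ * (∫ z, ((g z : ℝ) : ℂ) ∂(M.Q (ξ i))) ∂M.P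
      = ∫ ξ, Φ ξ * ((g' (ξ i) : ℝ) : ℂ) ∂M.P := by
    refine integral_congr_ae ?_
    have hae := (M.mp_eval i).quasiMeasurePreserving.ae_eq_comp h.eq
    filter_upwards [hae] with ξ hξ
    simp only [Function.comp] at hξ
    rw [hξ, integral_complex_ofReal]
  calc ∫ ξ, Φ ξ * ((g (ξ (i + 1)) - g' (ξ i) : ℝ) : ℂ) ∂M.P
      = ∫ ξ, (Φ ξ * ((g (ξ (i + 1)) : ℝ) : ℂ) - Φ ξ * ((g' (ξ i) : ℝ) : ℂ)) ∂M.P := by
        refine integral_congr_ae (Filter.Eventually.of_forall fun ξ => ?_)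
        push_cast
        ring
    _ = ∫ ξ, Φ ξ * ((g (ξ (i + 1)) : ℝ) : ℂ) ∂M.P - ∫ ξ, Φ ξ * ((g' (ξ i) : ℝ) : ℂ) ∂M.P :=
        integral_sub i1 i2
    _ = 0 := by rw [e, e2, sub_self]

theorem Chain.Fwd.orth_real {M : Chain S} {g g' : S → ℝ} (h : M.Fwd g g') (i : ℕ)
    (Φ : (ℕ → S) → ℝ) (hΦ : Measurable Φ) (hΦi : ∀ ξ, Φ (fr i ξ) = Φ ξ)
    (hΦ2 : MemLp Φ 2 M.P) :
    ∫ ξ, Φ ξ * (g (ξ (i + 1)) - g' (ξ i)) ∂M.P = 0 := by
  have e := h.orth i (fun ξ => ((Φ ξ : ℝ) : ℂ)) (Complex.measurable_ofReal.comp hΦ)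
    (fun ξ => by simp only [hΦi]) hΦ2.ofReal
  have e2 : ∫ ξ, ((Φ ξ : ℝ) : ℂ) * ((g (ξ (i + 1)) - g' (ξ i) : ℝ) : ℂ) ∂M.P
      = ((∫ ξ, Φ ξ * (g (ξ (i + 1)) - g' (ξ i)) ∂M.P : ℝ) : ℂ) := by
    rw [← integral_complex_ofReal]
    refine integral_congr_ae (Filter.Eventually.of_forall fun ξ => ?_)
    simp only []
    push_cast
    ring
  rw [e2] at e
  exact_mod_cast e

/-- `Q` maps `L²` to `L²` -/
theorem Chain.memLp_Q (M : Chain S) (g : S → ℝ) (hg : Measurable g) (hg2 : MemLp g 2 M.ν) :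
    MemLp (fun x => ∫ z, g z ∂(M.Q x)) 2 M.ν := by
  have hsm : StronglyMeasurable (fun x => ∫ z, g z ∂(M.Q x)) :=
    StronglyMeasurable.integral_kernel hg.stronglyMeasurable
  refine ⟨hsm.aestronglyMeasurable, ?_⟩
  rw [eLpNorm_lt_top_iff_lintegral_rpow_enorm_lt_top (by norm_num) (by norm_num)]
  have hb : ∀ x, ‖∫ z, g z ∂(M.Q x)‖ₑ ^ (2 : ℝ≥0∞).toReal
      ≤ ∫⁻ z, ‖g z‖ₑ ^ (2 : ℝ≥0∞).toReal ∂(M.Q x) := by
    intro x
    have h1 : ‖∫ z, g z ∂(M.Q x)‖ₑ ≤ eLpNorm g 1 (M.Q x) := by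
      rw [eLpNorm_one_eq_lintegral_enorm]
      exact enorm_integral_le_lintegral_enorm _
    have h2 : eLpNorm g 1 (M.Q x) ≤ eLpNorm g 2 (M.Q x) :=
      eLpNorm_le_eLpNorm_of_exponent_le (by norm_num) hg.aestronglyMeasurable
    have h3 := h1.trans h2
    rw [eLpNorm_eq_lintegral_rpow_enorm_toReal (by norm_num) (by norm_num)] at h3
    calc ‖∫ z, g z ∂(M.Q x)‖ₑ ^ (2 : ℝ≥0∞).toReal
        ≤ ((∫⁻ z, ‖g z‖ₑ ^ (2 : ℝ≥0∞).toReal ∂(M.Q x)) ^ (1 / (2 : ℝ≥0∞).toReal))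
            ^ (2 : ℝ≥0∞).toReal := ENNReal.rpow_le_rpow h3 (by norm_num)
      _ = _ := by
        rw [← ENNReal.rpow_mul]
        norm_num
  calc ∫⁻ x, ‖∫ z, g z ∂(M.Q x)‖ₑ ^ (2 : ℝ≥0∞).toReal ∂M.ν
      ≤ ∫⁻ x, ∫⁻ z, ‖g z‖ₑ ^ (2 : ℝ≥0∞).toReal ∂(M.Q x) ∂M.ν := lintegral_mono hb
    _ = ∫⁻ z, ‖g z‖ₑ ^ (2 : ℝ≥0∞).toReal ∂(M.ν.bind M.Q) := by
        rw [Measure.lintegral_bind M.Q.measurable.aemeasurable]
        exact (hg.enorm.pow_const _).aemeasurable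
    _ = ∫⁻ z, ‖g z‖ₑ ^ (2 : ℝ≥0∞).toReal ∂M.ν := by rw [M.bind_eq]
    _ < ∞ := by
        have := hg2.2
        rwa [eLpNorm_lt_top_iff_lintegral_rpow_enorm_lt_top (by norm_num) (by norm_num)] at this

/-- existence of `Q g` -/
theorem Chain.exists_fwd (M : Chain S) (g : S → ℝ) (hg : Measurable g) (hg2 : MemLp g 2 M.ν) :
    M.Fwd g (fun x => ∫ z, g z ∂(M.Q x)) :=
  ⟨hg, (StronglyMeasurable.integral_kernel hg.stronglyMeasurable).measurable, hg2,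
    M.memLp_Q g hg hg2, Filter.EventuallyEq.rfl⟩

theorem Chain.Fwd.pair {M : Chain S} {g g' : S → ℝ} (h : M.Fwd g g') (φ : S → ℝ)
    (hφ : Measurable φ) (hφ2 : MemLp φ 2 M.ν) :
    ∫ ξ, φ (ξ 0) * g (ξ 1) ∂M.P = ∫ x, φ x * g' x ∂M.ν := by
  have h1 := h.orth_real 0 (fun ξ => φ (ξ 0)) (hφ.comp (measurable_pi_apply 0))
    (fun ξ => by simp [fr]) (M.memLp_eval hφ2 0)
  have i1 : Integrable (fun ξ : ℕ → S => φ (ξ 0) * g (ξ (0 + 1))) M.P :=
    (M.memLp_eval hφ2 0).integrable_mul (M.memLp_eval h.l2 (0 + 1))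
  have i2 : Integrable (fun ξ : ℕ → S => φ (ξ 0) * g' (ξ 0)) M.P :=
    (M.memLp_eval hφ2 0).integrable_mul (M.memLp_eval h.l2' 0)
  have e : ∫ ξ, φ (ξ 0) * (g (ξ (0 + 1)) - g' (ξ 0)) ∂M.P
      = ∫ ξ, φ (ξ 0) * g (ξ (0 + 1)) ∂M.P - ∫ ξ, φ (ξ 0) * g' (ξ 0) ∂M.P := by
    rw [← integral_sub i1 i2]
    refine integral_congr_ae (Filter.Eventually.of_forall fun ξ => ?_)
    ring
  rw [e, sub_eq_zero] at h1
  simp only [zero_add] at h1
  rw [h1]
  have hm : Measurable (fun x => φ x * g' x) := hφ.mul h.m'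
  have := integral_map (μ := M.P) (φ := fun ξ : ℕ → S => ξ 0) (f := fun x => φ x * g' x)
    (measurable_pi_apply 0).aemeasurable hm.aestronglyMeasurable
  rw [M.hlaw] at this
  exact this.symm

theorem Chain.ae_integrable_Q (M : Chain S) (g : S → ℝ) (hg2 : MemLp g 2 M.ν) :
    ∀ᵐ x ∂M.ν, Integrable g (M.Q x) := by
  have h1 : Integrable g M.ν := hg2.integrable (by norm_num)
  rw [← M.bind_eq] at h1
  exact Measure.ae_integrable_of_integrable_comp h1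

/-- linearity of the relations -/
theorem Chain.Fwd.sub {M : Chain S} {g g' h h' : S → ℝ} (hg : M.Fwd g g') (hh : M.Fwd h h') :
    M.Fwd (fun x => g x - h x) (fun x => g' x - h' x) := by
  refine ⟨hg.m.sub hh.m, hg.m'.sub hh.m', hg.l2.sub hh.l2, hg.l2'.sub hh.l2', ?_⟩
  filter_upwards [hg.eq, hh.eq, M.ae_integrable_Q g hg.l2, M.ae_integrable_Q h hh.l2]
    with x h1 h2 h3 h4
  rw [h1, h2, integral_sub h3 h4]

theorem Chain.integral_eval (M : Chain S) (i : ℕ) {g : S → ℝ} (hg : Measurable g) :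
    ∫ ξ, g (ξ i) ∂M.P = ∫ x, g x ∂M.ν := by
  have := integral_map (μ := M.P) (φ := fun ξ : ℕ → S => ξ i) (f := g)
    (measurable_pi_apply i).aemeasurable hg.aestronglyMeasurable
  rw [(M.mp_eval i).map_eq] at this
  exact this.symm

theorem Chain.Fwd.diff_sq {M : Chain S} {g g' : S → ℝ} (h : M.Fwd g g') :
    ∫ ξ, (g (ξ 1) - g' (ξ 0)) ^ 2 ∂M.P = ∫ x, (g x) ^ 2 ∂M.ν - ∫ x, (g' x) ^ 2 ∂M.ν := by
  have hp := h.pair g' h.m' h.l2'
  have i1 : Integrable (fun ξ : ℕ → S => g (ξ 1) ^ 2) M.P := (M.memLp_eval h.l2 1).integrable_sq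
  have i2 : Integrable (fun ξ : ℕ → S => g' (ξ 0) * g (ξ 1)) M.P :=
    (M.memLp_eval h.l2' 0).integrable_mul (M.memLp_eval h.l2 1)
  have i3 : Integrable (fun ξ : ℕ → S => g' (ξ 0) ^ 2) M.P :=
    (M.memLp_eval h.l2' 0).integrable_sq
  have e : ∫ ξ, (g (ξ 1) - g' (ξ 0)) ^ 2 ∂M.P
      = ∫ ξ, g (ξ 1) ^ 2 ∂M.P - 2 * ∫ ξ, g' (ξ 0) * g (ξ 1) ∂M.P
        + ∫ ξ, g' (ξ 0) ^ 2 ∂M.P := by
    have i4 : Integrable (fun ξ : ℕ → S => g (ξ 1) ^ 2 - 2 * (g' (ξ 0) * g (ξ 1))) M.P :=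
      i1.sub (i2.const_mul 2)
    rw [← integral_const_mul, ← integral_sub i1 (i2.const_mul 2), ← integral_add i4 i3]
    refine integral_congr_ae (Filter.Eventually.of_forall fun ξ => ?_)
    simp only []
    ring
  rw [e, hp, M.integral_eval 1 (g := fun x => g x ^ 2) (h.m.pow_const 2),
    M.integral_eval 0 (g := fun x => g' x ^ 2) (h.m'.pow_const 2)]
  have : ∫ x, g' x * g' x ∂M.ν = ∫ x, g' x ^ 2 ∂M.ν := by
    refine integral_congr_ae (Filter.Eventually.of_forall fun x => ?_)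
    simp only []
    ring
  rw [this]
  ring

theorem Chain.Fwd.sq_le {M : Chain S} {g g' : S → ℝ} (h : M.Fwd g g') :
    ∫ x, (g' x) ^ 2 ∂M.ν ≤ ∫ x, (g x) ^ 2 ∂M.ν := by
  have h1 := h.diff_sq
  have h2 : 0 ≤ ∫ ξ, (g (ξ 1) - g' (ξ 0)) ^ 2 ∂M.P := integral_nonneg fun ξ => sq_nonneg _
  linarith

end Pool.Agent.H45.CLT
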