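import Pool.Agent.H45.CLT.Pot1Aux

/-!
# Module POT1: potentials, first facts (all elementary).
-/

set_option autoImplicit false

open MeasureTheory ProbabilityTheory
open scoped ENNReal NNReal

namespace Pool.Agent.H45.CLT

variable {S : Type} [MeasurableSpace S]

theorem one_sub_rr (i : ℕ) : 1 - rr i = (1 / 2) ^ i := by
  unfold rr
  ring

theorem rr_nonneg (i : ℕ) : 0 ≤ rr i := by
  unfold rr
  have : ((1 : ℝ) / 2) ^ i ≤ 1 := pow_le_one₀ (by norm_num) (by norm_num)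
  linarith

theorem rr_lt_one (i : ℕ) : rr i < 1 := by
  unfold rr
  have : (0 : ℝ) < (1 / 2) ^ i := by positivity
  linarith

theorem rr_mono {i j : ℕ} (h : i ≤ j) : rr i ≤ rr j := by
  unfold rr
  have : ((1 : ℝ) / 2) ^ j ≤ (1 / 2) ^ i :=
    pow_le_pow_of_le_one (by norm_num) (by norm_num) h
  linarith

theorem half_le_rr (i : ℕ) (hi : 1 ≤ i) : 1 / 2 ≤ rr i := by
  have h := rr_mono hi
  have h1 : rr 1 = 1 / 2 := by
    unfold rr
    norm_num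
  linarith

namespace Model

variable (M : Model S)

theorem measurable_β (q : ℕ) : Measurable (M.β q) := (M.hβ q).m
theorem measurable_α (p : ℕ) : Measurable (M.α p) := (M.hα p).m
theorem memLp_β (q : ℕ) : MemLp (M.β q) 2 M.ν := (M.hβ q).l2
theorem memLp_α (p : ℕ) : MemLp (M.α p) 2 M.ν := (M.hα p).l2
theorem measurable_f : Measurable M.f := M.measurable_α 0
theorem memLp_f : MemLp M.f 2 M.ν := M.memLp_α 0
theorem f_eq : M.f = M.β 0 := M.h0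

theorem measurable_A : Measurable M.A := by
  unfold Model.A
  exact Pot1Aux.measurable_tsum' (fun p => (M.measurable_α p).pow_const 2) M.sα

theorem measurable_C : Measurable M.C := by
  unfold Model.C
  exact Pot1Aux.measurable_tsum' (fun p => (M.measurable_β p).pow_const 2) M.sβ

theorem A_nonneg (x : S) : 0 ≤ M.A x := by
  exact tsum_nonneg fun p => sq_nonneg _

theorem C_nonneg (x : S) : 0 ≤ M.C x := by
  exact tsum_nonneg fun p => sq_nonneg _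

theorem integrable_A : Integrable M.A M.ν := M.iA
theorem integrable_C : Integrable M.C M.ν := M.iC

theorem α_sq_le (p : ℕ) (x : S) : (M.α p x) ^ 2 ≤ M.A x := by
  exact (M.sα x).le_tsum p fun j _ => sq_nonneg _

theorem β_sq_le (q : ℕ) (x : S) : (M.β q x) ^ 2 ≤ M.C x := by
  exact (M.sβ x).le_tsum q fun j _ => sq_nonneg _

theorem f_sq_le_A (x : S) : (M.f x) ^ 2 ≤ M.A x := M.α_sq_le 0 x

theorem f_sq_le_C (x : S) : (M.f x) ^ 2 ≤ M.C x := by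
  rw [M.f_eq]; exact M.β_sq_le 0 x

theorem measurable_G (r : ℝ) (h0 : 0 ≤ r) (h1 : r < 1) : Measurable (M.G r) := by
  unfold Model.G
  exact Pot1Aux.measurable_tsum' (fun q => (M.measurable_β q).const_mul _)
    fun x => Pot1Aux.summable_mul h0 h1 (Pot1Aux.pow_abs_le h0) (M.sβ x)

theorem measurable_G1 (r : ℝ) (h0 : 0 ≤ r) (h1 : r < 1) : Measurable (M.G1 r) := by
  unfold Model.G1
  exact Pot1Aux.measurable_tsum' (fun q => (M.measurable_β (q + 1)).const_mul _)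
    fun x => Pot1Aux.summable_mul h0 h1 (Pot1Aux.pow_abs_le h0)
      (Pot1Aux.summable_succ (a := fun q => M.β q x) (M.sβ x))

theorem measurable_Gs (r : ℝ) (h0 : 0 ≤ r) (h1 : r < 1) : Measurable (M.Gs r) := by
  unfold Model.Gs
  exact Pot1Aux.measurable_tsum' (fun q => (M.measurable_α q).const_mul _)
    fun x => Pot1Aux.summable_mul h0 h1 (Pot1Aux.pow_abs_le h0) (M.sα x)

theorem measurable_Gs1 (r : ℝ) (h0 : 0 ≤ r) (h1 : r < 1) : Measurable (M.Gs1 r) := by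
  unfold Model.Gs1
  exact Pot1Aux.measurable_tsum' (fun q => (M.measurable_α (q + 1)).const_mul _)
    fun x => Pot1Aux.summable_mul h0 h1 (Pot1Aux.pow_abs_le h0)
      (Pot1Aux.summable_succ (a := fun q => M.α q x) (M.sα x))

/-- `G_r = f + r Q G_r` -/
theorem G_eq (r : ℝ) (h0 : 0 ≤ r) (h1 : r < 1) (x : S) :
    M.G r x = M.f x + r * M.G1 r x := by
  rw [M.f_eq]
  exact Pot1Aux.shift_eq (a := fun q => M.β q x) h0 h1 (M.sβ x)

/-- `G*_r = f + r Q* G*_r` -/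
theorem Gs_eq (r : ℝ) (h0 : 0 ≤ r) (h1 : r < 1) (x : S) :
    M.Gs r x = M.f x + r * M.Gs1 r x := by
  exact Pot1Aux.shift_eq (a := fun q => M.α q x) h0 h1 (M.sα x)

theorem G_sq_le (r : ℝ) (h0 : 0 ≤ r) (h1 : r < 1) (x : S) :
    (M.G r x) ^ 2 ≤ (1 - r)⁻¹ * M.C x := by
  exact Pot1Aux.tsum_sq_le h0 h1 (Pot1Aux.pow_abs_le h0) (M.sβ x)

theorem G1_sq_le (r : ℝ) (h0 : 0 ≤ r) (h1 : r < 1) (x : S) :
    (M.G1 r x) ^ 2 ≤ (1 - r)⁻¹ * M.C x := by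
  have h2 : (0 : ℝ) ≤ (1 - r)⁻¹ := inv_nonneg.2 (by linarith)
  exact (Pot1Aux.tsum_sq_le h0 h1 (Pot1Aux.pow_abs_le h0)
    (Pot1Aux.summable_succ (a := fun q => M.β q x) (M.sβ x))).trans
    (mul_le_mul_of_nonneg_left (Pot1Aux.tsum_succ_le (a := fun q => M.β q x) (M.sβ x)) h2)

theorem Gs_sq_le (r : ℝ) (h0 : 0 ≤ r) (h1 : r < 1) (x : S) :
    (M.Gs r x) ^ 2 ≤ (1 - r)⁻¹ * M.A x := by
  exact Pot1Aux.tsum_sq_le h0 h1 (Pot1Aux.pow_abs_le h0) (M.sα x)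

theorem Gs1_sq_le (r : ℝ) (h0 : 0 ≤ r) (h1 : r < 1) (x : S) :
    (M.Gs1 r x) ^ 2 ≤ (1 - r)⁻¹ * M.A x := by
  have h2 : (0 : ℝ) ≤ (1 - r)⁻¹ := inv_nonneg.2 (by linarith)
  exact (Pot1Aux.tsum_sq_le h0 h1 (Pot1Aux.pow_abs_le h0)
    (Pot1Aux.summable_succ (a := fun q => M.α q x) (M.sα x))).trans
    (mul_le_mul_of_nonneg_left (Pot1Aux.tsum_succ_le (a := fun q => M.α q x) (M.sα x)) h2)

theorem Gs_sub_sq_le (r' r : ℝ) (h0 : 0 ≤ r') (hr : r' ≤ r) (h1 : r < 1) (x : S) :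
    (M.Gs r x - M.Gs r' x) ^ 2 ≤ (1 - r)⁻¹ * M.A x := by
  have h0' : 0 ≤ r := h0.trans hr
  have h1' : r' < 1 := lt_of_le_of_lt hr h1
  have e : M.Gs r x - M.Gs r' x = ∑' p, (r ^ p - r' ^ p) * M.α p x := by
    unfold Model.Gs
    rw [← (Pot1Aux.summable_mul h0' h1 (Pot1Aux.pow_abs_le h0') (M.sα x)).tsum_sub
      (Pot1Aux.summable_mul h0 h1' (Pot1Aux.pow_abs_le h0) (M.sα x))]
    refine tsum_congr fun p => ?_
    ring
  rw [e]
  exact Pot1Aux.tsum_sq_le h0' h1 (Pot1Aux.sub_pow_abs_le h0 hr) (M.sα x)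

/-- `G_r ∈ L²` and `Q G_r = G1_r` -/
theorem fwd_G (r : ℝ) (h0 : 0 ≤ r) (h1 : r < 1) : M.toChain.Fwd (M.G r) (M.G1 r) := by
  have h2 : (0 : ℝ) ≤ (1 - r)⁻¹ := inv_nonneg.2 (by linarith)
  refine Pot1Aux.fwd_lim (E := fun x => (1 - r)⁻¹ * M.C x)
    (fun n => Pot1Aux.fwd_sum M.hβ (fun q => r ^ q) n) (M.measurable_C.const_mul _)
    (fun x => mul_nonneg h2 (M.C_nonneg x)) (M.integrable_C.const_mul _) ?_ ?_ ?_ ?_
  · exact fun n x => Pot1Aux.partial_sq_le h0 h1 (Pot1Aux.pow_abs_le h0) (M.sβ x) n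
  · exact fun n x => (Pot1Aux.partial_sq_le h0 h1 (Pot1Aux.pow_abs_le h0)
      (Pot1Aux.summable_succ (a := fun q => M.β q x) (M.sβ x)) n).trans
      (mul_le_mul_of_nonneg_left (Pot1Aux.tsum_succ_le (a := fun q => M.β q x) (M.sβ x)) h2)
  · exact fun x => (Pot1Aux.summable_mul h0 h1 (Pot1Aux.pow_abs_le h0)
      (M.sβ x)).hasSum.tendsto_sum_nat
  · exact fun x => (Pot1Aux.summable_mul h0 h1 (Pot1Aux.pow_abs_le h0)
      (Pot1Aux.summable_succ (a := fun q => M.β q x) (M.sβ x))).hasSum.tendsto_sum_nat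

/-- `G*_r ∈ L²` and `Q* G*_r = Gs1_r` -/
theorem bwd_Gs (r : ℝ) (h0 : 0 ≤ r) (h1 : r < 1) : M.toChain.Bwd (M.Gs r) (M.Gs1 r) := by
  have h2 : (0 : ℝ) ≤ (1 - r)⁻¹ := inv_nonneg.2 (by linarith)
  refine Pot1Aux.bwd_lim (E := fun x => (1 - r)⁻¹ * M.A x)
    (fun n => Pot1Aux.bwd_sum M.hα (fun q => r ^ q) n) (M.measurable_A.const_mul _)
    (fun x => mul_nonneg h2 (M.A_nonneg x)) (M.integrable_A.const_mul _) ?_ ?_ ?_ ?_
  · exact fun n x => Pot1Aux.partial_sq_le h0 h1 (Pot1Aux.pow_abs_le h0) (M.sα x) n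
  · exact fun n x => (Pot1Aux.partial_sq_le h0 h1 (Pot1Aux.pow_abs_le h0)
      (Pot1Aux.summable_succ (a := fun q => M.α q x) (M.sα x)) n).trans
      (mul_le_mul_of_nonneg_left (Pot1Aux.tsum_succ_le (a := fun q => M.α q x) (M.sα x)) h2)
  · exact fun x => (Pot1Aux.summable_mul h0 h1 (Pot1Aux.pow_abs_le h0)
      (M.sα x)).hasSum.tendsto_sum_nat
  · exact fun x => (Pot1Aux.summable_mul h0 h1 (Pot1Aux.pow_abs_le h0)
      (Pot1Aux.summable_succ (a := fun q => M.α q x) (M.sα x))).hasSum.tendsto_sum_nat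

theorem memLp_G (r : ℝ) (h0 : 0 ≤ r) (h1 : r < 1) : MemLp (M.G r) 2 M.ν :=
  (M.fwd_G r h0 h1).l2

theorem memLp_G1 (r : ℝ) (h0 : 0 ≤ r) (h1 : r < 1) : MemLp (M.G1 r) 2 M.ν :=
  (M.fwd_G r h0 h1).l2'

theorem memLp_Gs (r : ℝ) (h0 : 0 ≤ r) (h1 : r < 1) : MemLp (M.Gs r) 2 M.ν :=
  (M.bwd_Gs r h0 h1).l2

theorem memLp_Gs1 (r : ℝ) (h0 : 0 ≤ r) (h1 : r < 1) : MemLp (M.Gs1 r) 2 M.ν :=
  (M.bwd_Gs r h0 h1).l2'

end Model

end Pool.Agent.H45.CLT
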