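import Pool.Agent.H45.CLT.PathB

/-!
# Auxiliary facts for module POT1 (series of functions, forward and backward relations).
-/

set_option autoImplicit false

open MeasureTheory ProbabilityTheory Filter
open scoped ENNReal NNReal Topology

namespace Pool.Agent.H45.CLT

variable {S : Type} [MeasurableSpace S]

namespace Pot1Aux

/-- the geometric weights -/
theorem sum_sq_le {c : ℕ → ℝ} {r : ℝ} (h0 : 0 ≤ r) (h1 : r < 1) (hc : ∀ q, |c q| ≤ r ^ q)
    (n : ℕ) : ∑ q ∈ Finset.range n, (c q) ^ 2 ≤ (1 - r)⁻¹ := by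
  have h2 : ∀ q, (c q) ^ 2 ≤ r ^ q := by
    intro q
    have h3 : r ^ q ≤ 1 := pow_le_one₀ h0 h1.le
    have h4 : 0 ≤ r ^ q := pow_nonneg h0 q
    have h5 := abs_nonneg (c q)
    calc (c q) ^ 2 = |c q| * |c q| := by rw [← sq, sq_abs]
      _ ≤ r ^ q * 1 := mul_le_mul (hc q) ((hc q).trans h3) h5 h4
      _ = r ^ q := mul_one _
  calc ∑ q ∈ Finset.range n, (c q) ^ 2 ≤ ∑ q ∈ Finset.range n, r ^ q :=
        Finset.sum_le_sum fun q _ => h2 q
    _ ≤ ∑' q, r ^ q := (summable_geometric_of_lt_one h0 h1).sum_le_tsum _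
        (fun q _ => pow_nonneg h0 q)
    _ = (1 - r)⁻¹ := tsum_geometric_of_lt_one h0 h1

theorem summable_mul {c a : ℕ → ℝ} {r : ℝ} (h0 : 0 ≤ r) (h1 : r < 1) (hc : ∀ q, |c q| ≤ r ^ q)
    (ha : Summable fun q => (a q) ^ 2) : Summable fun q => c q * a q := by
  have hc2 : Summable fun q => (c q) ^ 2 :=
    summable_of_sum_range_le (fun q => sq_nonneg _) (sum_sq_le h0 h1 hc)
  refine Summable.of_norm_bounded (g := fun q => (c q) ^ 2 + (a q) ^ 2) (hc2.add ha) fun q => ?_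
  rw [Real.norm_eq_abs, abs_mul]
  nlinarith [sq_nonneg (|c q| - |a q|), sq_abs (c q), sq_abs (a q), abs_nonneg (c q),
    abs_nonneg (a q), mul_nonneg (abs_nonneg (c q)) (abs_nonneg (a q))]

/-- Cauchy-Schwarz for the partial sums -/
theorem partial_sq_le {c a : ℕ → ℝ} {r : ℝ} (h0 : 0 ≤ r) (h1 : r < 1) (hc : ∀ q, |c q| ≤ r ^ q)
    (ha : Summable fun q => (a q) ^ 2) (n : ℕ) :
    (∑ q ∈ Finset.range n, c q * a q) ^ 2 ≤ (1 - r)⁻¹ * ∑' q, (a q) ^ 2 := by
  have h2 : (0 : ℝ) ≤ (1 - r)⁻¹ := inv_nonneg.2 (by linarith)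
  calc (∑ q ∈ Finset.range n, c q * a q) ^ 2
      ≤ (∑ q ∈ Finset.range n, (c q) ^ 2) * ∑ q ∈ Finset.range n, (a q) ^ 2 :=
        Finset.sum_mul_sq_le_sq_mul_sq _ _ _
    _ ≤ (1 - r)⁻¹ * ∑' q, (a q) ^ 2 := by
        refine mul_le_mul (sum_sq_le h0 h1 hc n) (ha.sum_le_tsum _ fun q _ => sq_nonneg _)
          (Finset.sum_nonneg fun q _ => sq_nonneg _) h2

theorem tsum_sq_le {c a : ℕ → ℝ} {r : ℝ} (h0 : 0 ≤ r) (h1 : r < 1) (hc : ∀ q, |c q| ≤ r ^ q)
    (ha : Summable fun q => (a q) ^ 2) :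
    (∑' q, c q * a q) ^ 2 ≤ (1 - r)⁻¹ * ∑' q, (a q) ^ 2 := by
  have h := (summable_mul h0 h1 hc ha).hasSum.tendsto_sum_nat
  exact le_of_tendsto' (h.pow 2) fun n => partial_sq_le h0 h1 hc ha n

theorem pow_abs_le {r : ℝ} (h0 : 0 ≤ r) (q : ℕ) : |r ^ q| ≤ r ^ q :=
  (abs_of_nonneg (pow_nonneg h0 q)).le

theorem sub_pow_abs_le {r' r : ℝ} (h0 : 0 ≤ r') (hr : r' ≤ r) (q : ℕ) :
    |r ^ q - r' ^ q| ≤ r ^ q := by
  have h1 : r' ^ q ≤ r ^ q := pow_le_pow_left₀ h0 hr q
  have h2 : 0 ≤ r' ^ q := pow_nonneg h0 q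
  rw [abs_of_nonneg (by linarith)]
  linarith

theorem summable_succ {a : ℕ → ℝ} (ha : Summable fun q => (a q) ^ 2) :
    Summable fun q => (a (q + 1)) ^ 2 :=
  (summable_nat_add_iff (f := fun q => (a q) ^ 2) 1).2 ha

theorem tsum_succ_le {a : ℕ → ℝ} (ha : Summable fun q => (a q) ^ 2) :
    ∑' q, (a (q + 1)) ^ 2 ≤ ∑' q, (a q) ^ 2 := by
  rw [ha.tsum_eq_zero_add]
  have := sq_nonneg (a 0)
  linarith

/-- shift identity for the potentials -/
theorem shift_eq {a : ℕ → ℝ} {r : ℝ} (h0 : 0 ≤ r) (h1 : r < 1)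
    (ha : Summable fun q => (a q) ^ 2) :
    ∑' q, r ^ q * a q = a 0 + r * ∑' q, r ^ q * a (q + 1) := by
  have h := summable_mul h0 h1 (pow_abs_le h0) ha
  rw [h.tsum_eq_zero_add, ← tsum_mul_left]
  congr 1
  · simp
  · refine tsum_congr fun q => ?_
    rw [pow_succ]
    ring

theorem measurable_tsum' {a : ℕ → S → ℝ} (hm : ∀ q, Measurable (a q))
    (hs : ∀ x, Summable fun q => a q x) : Measurable fun x => ∑' q, a q x := by
  refine measurable_of_tendsto_metrizable (f := fun n x => ∑ q ∈ Finset.range n, a q x)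
    (fun n => Finset.measurable_fun_sum _ fun q _ => hm q) ?_
  rw [tendsto_pi_nhds]
  exact fun x => (hs x).hasSum.tendsto_sum_nat

/-! ## finite linear combinations -/

theorem fwd_zero (M : Chain S) : M.Fwd (fun _ => 0) (fun _ => 0) := by
  refine ⟨measurable_const, measurable_const, MemLp.zero, MemLp.zero, ?_⟩
  exact Filter.Eventually.of_forall fun x => by simp

theorem fwd_add_mul {M : Chain S} {g g' h h' : S → ℝ} (hg : M.Fwd g g') (hh : M.Fwd h h')
    (c : ℝ) : M.Fwd (fun x => g x + c * h x) (fun x => g' x + c * h' x) := by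
  refine ⟨hg.m.add (hh.m.const_mul c), hg.m'.add (hh.m'.const_mul c),
    hg.l2.add (hh.l2.const_mul c), hg.l2'.add (hh.l2'.const_mul c), ?_⟩
  filter_upwards [hg.eq, hh.eq, M.ae_integrable_Q g hg.l2, M.ae_integrable_Q h hh.l2]
    with x h1 h2 h3 h4
  rw [h1, h2, integral_add h3 (h4.const_mul c), integral_const_mul]

theorem fwd_sum {M : Chain S} {a b : ℕ → S → ℝ} (h : ∀ q, M.Fwd (a q) (b q)) (c : ℕ → ℝ)
    (n : ℕ) : M.Fwd (fun x => ∑ q ∈ Finset.range n, c q * a q x)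
      (fun x => ∑ q ∈ Finset.range n, c q * b q x) := by
  induction n with
  | zero => simpa using fwd_zero M
  | succ n ih =>
    simp only [Finset.sum_range_succ]
    exact fwd_add_mul ih (h n) (c n)

theorem bwd_zero (M : Chain S) : M.Bwd (fun _ => 0) (fun _ => 0) := by
  refine ⟨measurable_const, measurable_const, MemLp.zero, MemLp.zero, ?_⟩
  intro φ _ _
  simp

theorem bwd_add_mul {M : Chain S} {g g' h h' : S → ℝ} (hg : M.Bwd g g') (hh : M.Bwd h h')
    (c : ℝ) : M.Bwd (fun x => g x + c * h x) (fun x => g' x + c * h' x) := by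
  refine ⟨hg.m.add (hh.m.const_mul c), hg.m'.add (hh.m'.const_mul c),
    hg.l2.add (hh.l2.const_mul c), hg.l2'.add (hh.l2'.const_mul c), ?_⟩
  intro φ hφ hb
  have e1 := hg.eq φ hφ hb
  have e2 := hh.eq φ hφ hb
  obtain ⟨C, hC⟩ := hb
  have hφ2 : MemLp φ 2 M.ν :=
    MemLp.of_bound hφ.aestronglyMeasurable C (Filter.Eventually.of_forall fun x => by
      simpa using hC x)
  have hQφ2 : MemLp (fun x => ∫ z, φ z ∂(M.Q x)) 2 M.ν :=
    MemLp.of_bound (measurable_Q_integralPB M hφ).aestronglyMeasurable C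
      (Filter.Eventually.of_forall fun x => by simpa using abs_Q_integral_lePB M hC x)
  have i1 : Integrable (fun x => φ x * g' x) M.ν := hφ2.integrable_mul hg.l2'
  have i2 : Integrable (fun x => φ x * h' x) M.ν := hφ2.integrable_mul hh.l2'
  have i3 : Integrable (fun x => (∫ z, φ z ∂(M.Q x)) * g x) M.ν := hQφ2.integrable_mul hg.l2
  have i4 : Integrable (fun x => (∫ z, φ z ∂(M.Q x)) * h x) M.ν := hQφ2.integrable_mul hh.l2
  calc ∫ x, φ x * (g' x + c * h' x) ∂M.ν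
      = ∫ x, (φ x * g' x + c * (φ x * h' x)) ∂M.ν := by
        refine integral_congr_ae (Filter.Eventually.of_forall fun x => ?_)
        simp only
        ring
    _ = ∫ x, φ x * g' x ∂M.ν + c * ∫ x, φ x * h' x ∂M.ν := by
        rw [integral_add i1 (i2.const_mul c), integral_const_mul]
    _ = ∫ x, (∫ z, φ z ∂(M.Q x)) * g x ∂M.ν + c * ∫ x, (∫ z, φ z ∂(M.Q x)) * h x ∂M.ν := by
        rw [e1, e2]
    _ = ∫ x, ((∫ z, φ z ∂(M.Q x)) * g x + c * ((∫ z, φ z ∂(M.Q x)) * h x)) ∂M.ν := by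
        rw [integral_add i3 (i4.const_mul c), integral_const_mul]
    _ = ∫ x, (∫ z, φ z ∂(M.Q x)) * (g x + c * h x) ∂M.ν := by
        refine integral_congr_ae (Filter.Eventually.of_forall fun x => ?_)
        simp only
        ring

theorem bwd_sum {M : Chain S} {a b : ℕ → S → ℝ} (h : ∀ q, M.Bwd (a q) (b q)) (c : ℕ → ℝ)
    (n : ℕ) : M.Bwd (fun x => ∑ q ∈ Finset.range n, c q * a q x)
      (fun x => ∑ q ∈ Finset.range n, c q * b q x) := by
  induction n with
  | zero => simpa using bwd_zero M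
  | succ n ih =>
    simp only [Finset.sum_range_succ]
    exact bwd_add_mul ih (h n) (c n)

/-! ## limits -/

theorem memLp_sqrt {M : Chain S} {E : S → ℝ} (hEm : Measurable E) (hE0 : ∀ x, 0 ≤ E x)
    (hE : Integrable E M.ν) : MemLp (fun x => Real.sqrt (E x)) 2 M.ν := by
  rw [memLp_two_iff_integrable_sq hEm.sqrt.aestronglyMeasurable]
  refine hE.congr (Filter.Eventually.of_forall fun x => ?_)
  simp only
  rw [Real.sq_sqrt (hE0 x)]

theorem memLp_of_sq_le {M : Chain S} {E g : S → ℝ} (hg : Measurable g)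
    (hE : Integrable E M.ν) (h : ∀ x, (g x) ^ 2 ≤ E x) : MemLp g 2 M.ν := by
  rw [memLp_two_iff_integrable_sq hg.aestronglyMeasurable]
  refine hE.mono' (hg.pow_const 2).aestronglyMeasurable (Filter.Eventually.of_forall fun x => ?_)
  rw [Real.norm_eq_abs, abs_of_nonneg (sq_nonneg _)]
  exact h x

/-- limit of forward relations under a square-integrable domination -/
theorem fwd_lim {M : Chain S} {g g' : ℕ → S → ℝ} {u u' : S → ℝ} {E : S → ℝ}
    (h : ∀ n, M.Fwd (g n) (g' n)) (hEm : Measurable E) (hE0 : ∀ x, 0 ≤ E x)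
    (hE : Integrable E M.ν) (hb : ∀ n x, (g n x) ^ 2 ≤ E x) (hb' : ∀ n x, (g' n x) ^ 2 ≤ E x)
    (hu : ∀ x, Tendsto (fun n => g n x) atTop (𝓝 (u x)))
    (hu' : ∀ x, Tendsto (fun n => g' n x) atTop (𝓝 (u' x))) : M.Fwd u u' := by
  have hum : Measurable u := measurable_of_tendsto_metrizable (fun n => (h n).m)
    (tendsto_pi_nhds.2 hu)
  have hum' : Measurable u' := measurable_of_tendsto_metrizable (fun n => (h n).m')
    (tendsto_pi_nhds.2 hu')
  have hub : ∀ x, (u x) ^ 2 ≤ E x := fun x =>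
    le_of_tendsto' ((hu x).pow 2) fun n => hb n x
  have hub' : ∀ x, (u' x) ^ 2 ≤ E x := fun x =>
    le_of_tendsto' ((hu' x).pow 2) fun n => hb' n x
  refine ⟨hum, hum', memLp_of_sq_le hum hE hub, memLp_of_sq_le hum' hE hub', ?_⟩
  have hs := memLp_sqrt (M := M) hEm hE0 hE
  have hall : ∀ᵐ x ∂M.ν, ∀ n, g' n x = ∫ z, g n z ∂(M.Q x) := ae_all_iff.2 fun n => (h n).eq
  filter_upwards [hall, M.ae_integrable_Q _ hs] with x h1 h2
  have h3 : Tendsto (fun n => ∫ z, g n z ∂(M.Q x)) atTop (𝓝 (∫ z, u z ∂(M.Q x))) := by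
    refine tendsto_integral_of_dominated_convergence (fun z => Real.sqrt (E z))
      (fun n => (h n).m.aestronglyMeasurable) h2 (fun n => ?_) ?_
    · refine Filter.Eventually.of_forall fun z => ?_
      rw [Real.norm_eq_abs]
      exact Real.abs_le_sqrt (hb n z)
    · exact Filter.Eventually.of_forall fun z => hu z
  have h4 : Tendsto (fun n => ∫ z, g n z ∂(M.Q x)) atTop (𝓝 (u' x)) := by
    refine (hu' x).congr fun n => ?_
    exact h1 n
  exact tendsto_nhds_unique h4 h3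

/-- limit of backward relations under a square-integrable domination -/
theorem bwd_lim {M : Chain S} {g g' : ℕ → S → ℝ} {u u' : S → ℝ} {E : S → ℝ}
    (h : ∀ n, M.Bwd (g n) (g' n)) (hEm : Measurable E) (hE0 : ∀ x, 0 ≤ E x)
    (hE : Integrable E M.ν) (hb : ∀ n x, (g n x) ^ 2 ≤ E x) (hb' : ∀ n x, (g' n x) ^ 2 ≤ E x)
    (hu : ∀ x, Tendsto (fun n => g n x) atTop (𝓝 (u x)))
    (hu' : ∀ x, Tendsto (fun n => g' n x) atTop (𝓝 (u' x))) : M.Bwd u u' := by
  have hum : Measurable u := measurable_of_tendsto_metrizable (fun n => (h n).m)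
    (tendsto_pi_nhds.2 hu)
  have hum' : Measurable u' := measurable_of_tendsto_metrizable (fun n => (h n).m')
    (tendsto_pi_nhds.2 hu')
  have hub : ∀ x, (u x) ^ 2 ≤ E x := fun x =>
    le_of_tendsto' ((hu x).pow 2) fun n => hb n x
  have hub' : ∀ x, (u' x) ^ 2 ≤ E x := fun x =>
    le_of_tendsto' ((hu' x).pow 2) fun n => hb' n x
  refine ⟨hum, hum', memLp_of_sq_le hum hE hub, memLp_of_sq_le hum' hE hub', ?_⟩
  have hs := memLp_sqrt (M := M) hEm hE0 hE
  have hs1 : Integrable (fun x => Real.sqrt (E x)) M.ν := hs.integrable (by norm_num)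
  intro φ hφ hbd
  have heq : ∀ n, ∫ x, φ x * g' n x ∂M.ν = ∫ x, (∫ z, φ z ∂(M.Q x)) * g n x ∂M.ν :=
    fun n => (h n).eq φ hφ hbd
  obtain ⟨C, hC⟩ := hbd
  have h1 : Tendsto (fun n => ∫ x, φ x * g' n x ∂M.ν) atTop (𝓝 (∫ x, φ x * u' x ∂M.ν)) := by
    refine tendsto_integral_of_dominated_convergence (fun z => C * Real.sqrt (E z))
      (fun n => (hφ.mul (h n).m').aestronglyMeasurable) (hs1.const_mul C) (fun n => ?_) ?_
    · refine Filter.Eventually.of_forall fun z => ?_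
      rw [Real.norm_eq_abs, abs_mul]
      exact mul_le_mul (hC z) (Real.abs_le_sqrt (hb' n z)) (abs_nonneg _)
        ((abs_nonneg _).trans (hC z))
    · exact Filter.Eventually.of_forall fun z => (hu' z).const_mul _
  have h2 : Tendsto (fun n => ∫ x, (∫ z, φ z ∂(M.Q x)) * g n x ∂M.ν) atTop
      (𝓝 (∫ x, (∫ z, φ z ∂(M.Q x)) * u x ∂M.ν)) := by
    refine tendsto_integral_of_dominated_convergence (fun z => C * Real.sqrt (E z))
      (fun n => ((measurable_Q_integralPB M hφ).mul (h n).m).aestronglyMeasurable)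
      (hs1.const_mul C) (fun n => ?_) ?_
    · refine Filter.Eventually.of_forall fun z => ?_
      rw [Real.norm_eq_abs, abs_mul]
      exact mul_le_mul (abs_Q_integral_lePB M hC z) (Real.abs_le_sqrt (hb n z)) (abs_nonneg _)
        ((abs_nonneg _).trans (hC z))
    · exact Filter.Eventually.of_forall fun z => (hu z).const_mul _
  refine tendsto_nhds_unique h1 ?_
  refine h2.congr fun n => ?_
  exact (heq n).symm

end Pot1Aux

end Pool.Agent.H45.CLT
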