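import Pool.Agent.H45.CLT.StepB0

/-!
# Module STEPB2: second order terms
`Y = a + e`, `a = G*(x)-κ(y)`, `e = S_exc`.  If `x,y ∉ B`: `|a| ≤ 2√(Km)`, `θ√(Km) ≤ |lam|√τ`.
If `|e| ≤ |a|` then `|Y| ≤ 4√(Km)`, else `Y² ≤ 4e²`.  If `x∈B` or `y∈B`: `Y² ≤ 3(G*(x)²+κ(y)²+e²)`, `bad_ends`.
B2d: `(1-ρ^ℓ)Y² ≤ (s/n)ℓ·8Km + 2e² + bad`, `E_Θ ℓ ≤ 1` (`Θ_T1` with `h=1`);
`|ψ-b| = |e^{iθκ}-e^{-iθG}| ≤ 2|lam|√τ` off `B`, `≤ 2` on `B`.
-/

set_option autoImplicit false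

open MeasureTheory ProbabilityTheory
open scoped ENNReal NNReal

namespace Pool.Agent.H45.CLT

variable {S : Type} [MeasurableSpace S]

namespace Ctx

variable {M : Model S} {lam s : ℝ} (X : Ctx M lam s)

/-- the contribution of the bad end points -/
noncomputable def b2bad (p : ℕ × (ℕ → S)) : ℝ :=
  ((M.B X.K).indicator (fun _ => (1 : ℝ)) (p.2 0)
        + (M.B X.K).indicator (fun _ => (1 : ℝ)) (p.2 (p.1 + 1)))
      * ((M.Gs X.r (p.2 0)) ^ 2 + (X.κ (p.2 (p.1 + 1))) ^ 2)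

theorem b2bad_nonneg (p : ℕ × (ℕ → S)) : 0 ≤ X.b2bad p := by
  unfold b2bad
  have h1 : 0 ≤ (M.B X.K).indicator (fun _ => (1 : ℝ)) (p.2 0) :=
    Set.indicator_nonneg (fun _ _ => zero_le_one) _
  have h2 : 0 ≤ (M.B X.K).indicator (fun _ => (1 : ℝ)) (p.2 (p.1 + 1)) :=
    Set.indicator_nonneg (fun _ _ => zero_le_one) _
  positivity

theorem b2_ind_le (x : S) : (M.B X.K).indicator (fun _ => (1 : ℝ)) x ≤ 1 :=
  Set.indicator_le_self' (fun _ _ => zero_le_one) x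

theorem b2bad_integrable : Integrable X.b2bad X.Θ := by
  have hG : Integrable (fun p : ℕ × (ℕ → S) => (M.Gs X.r (p.2 0)) ^ 2) X.Θ :=
    (M.toChain.memLp_x X.k 2 _ (M.memLp_Gs X.r X.r_nonneg X.r_lt_one)).integrable_sq
  have hκ : Integrable (fun p : ℕ × (ℕ → S) => (X.κ (p.2 (p.1 + 1))) ^ 2) X.Θ :=
    (M.toChain.memLp_y X.k 2 _ X.memLp_κ).integrable_sq
  have hm : Measurable (fun p : ℕ × (ℕ → S) => (M.B X.K).indicator (fun _ => (1 : ℝ)) (p.2 0)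
        + (M.B X.K).indicator (fun _ => (1 : ℝ)) (p.2 (p.1 + 1))) := by
    refine Measurable.add ?_ ?_
    · exact (measurable_const.indicator (M.measurableSet_B X.K)).comp (by fun_prop)
    · exact (measurable_const.indicator (M.measurableSet_B X.K)).comp measurable_y
  refine (hG.add hκ).bdd_mul (c := 2) hm.aestronglyMeasurable
    (Filter.Eventually.of_forall fun p => ?_)
  have h1 : 0 ≤ (M.B X.K).indicator (fun _ => (1 : ℝ)) (p.2 0) :=
    Set.indicator_nonneg (fun _ _ => zero_le_one) _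
  have h2 : 0 ≤ (M.B X.K).indicator (fun _ => (1 : ℝ)) (p.2 (p.1 + 1)) :=
    Set.indicator_nonneg (fun _ _ => zero_le_one) _
  have h3 := X.b2_ind_le (p.2 0)
  have h4 := X.b2_ind_le (p.2 (p.1 + 1))
  rw [Real.norm_eq_abs, abs_of_nonneg (add_nonneg h1 h2)]
  linarith

theorem b2bad_le : ∫ p, X.b2bad p ∂X.Θ ≤ 6 * X.τ := X.bad_ends

theorem b2_Y_eq (p : ℕ × (ℕ → S)) :
    X.Y p = (M.Gs X.r (p.2 0) - X.κ (p.2 (p.1 + 1))) + M.Se p := by
  unfold Y; ring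

/-- bad end points -/
theorem b2_Ysq_bad (p : ℕ × (ℕ → S)) (h : p.2 0 ∈ M.B X.K ∨ p.2 (p.1 + 1) ∈ M.B X.K) :
    (X.Y p) ^ 2 ≤ 3 * X.b2bad p + 3 * (M.Se p) ^ 2 := by
  have h1 : (M.Gs X.r (p.2 0)) ^ 2 + (X.κ (p.2 (p.1 + 1))) ^ 2 ≤ X.b2bad p := by
    unfold b2bad
    refine le_mul_of_one_le_left (by positivity) ?_
    rcases h with h | h
    · rw [Set.indicator_of_mem h]
      have h2 : 0 ≤ (M.B X.K).indicator (fun _ => (1 : ℝ)) (p.2 (p.1 + 1)) :=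
        Set.indicator_nonneg (fun _ _ => zero_le_one) _
      linarith
    · rw [Set.indicator_of_mem h]
      have h2 : 0 ≤ (M.B X.K).indicator (fun _ => (1 : ℝ)) (p.2 0) :=
        Set.indicator_nonneg (fun _ _ => zero_le_one) _
      linarith
  rw [X.b2_Y_eq]
  set a := M.Gs X.r (p.2 0)
  set b := X.κ (p.2 (p.1 + 1))
  set e := M.Se p
  nlinarith [sq_nonneg (a + b), sq_nonneg (a - e), sq_nonneg (b + e)]

theorem b2_θa_le (p : ℕ × (ℕ → S)) (h0 : p.2 0 ∉ M.B X.K) (h1 : p.2 (p.1 + 1) ∉ M.B X.K) :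
    |X.θ * (M.Gs X.r (p.2 0) - X.κ (p.2 (p.1 + 1)))| ≤ 2 * |lam| * Real.sqrt X.τ := by
  have h2 := X.θGs_le h0
  have h3 := X.θκ_le h1
  rw [mul_sub]
  refine (abs_sub _ _).trans ?_
  linarith

/-- the pointwise bound behind (B2a) -/
theorem b2a_point (p : ℕ × (ℕ → S)) :
    (X.Y p) ^ 2 * min 1 |X.θ * X.Y p| ≤
      4 * |lam| * Real.sqrt X.τ * (X.Y p) ^ 2 + 4 * (M.Se p) ^ 2 + 3 * X.b2bad p := by
  have hb := X.b2bad_nonneg p
  have hs : 0 ≤ 4 * |lam| * Real.sqrt X.τ * (X.Y p) ^ 2 := by positivity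
  have hmin1 : min 1 |X.θ * X.Y p| ≤ 1 := min_le_left _ _
  have hY1 : (X.Y p) ^ 2 * min 1 |X.θ * X.Y p| ≤ (X.Y p) ^ 2 :=
    mul_le_of_le_one_right (sq_nonneg _) hmin1
  by_cases h : p.2 0 ∈ M.B X.K ∨ p.2 (p.1 + 1) ∈ M.B X.K
  · have h1 := X.b2_Ysq_bad p h
    nlinarith [sq_nonneg (M.Se p)]
  · push Not at h
    have h2 := X.b2_θa_le p h.1 h.2
    have hY := X.b2_Y_eq p
    set a := M.Gs X.r (p.2 0) - X.κ (p.2 (p.1 + 1)) with ha
    set e := M.Se p with he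
    by_cases hea : |e| ≤ |a|
    · have h3 : |X.Y p| ≤ 2 * |a| := by
        rw [hY]
        refine (abs_add_le _ _).trans ?_
        linarith
      have h4 : |X.θ * X.Y p| ≤ 4 * |lam| * Real.sqrt X.τ := by
        rw [abs_mul] at h2 ⊢
        have := mul_le_mul_of_nonneg_left h3 (abs_nonneg X.θ)
        linarith
      have h5 : (X.Y p) ^ 2 * min 1 |X.θ * X.Y p| ≤ (X.Y p) ^ 2 * (4 * |lam| * Real.sqrt X.τ) :=
        mul_le_mul_of_nonneg_left ((min_le_right _ _).trans h4) (sq_nonneg _)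
      nlinarith [sq_nonneg e]
    · push Not at hea
      have h3 : |X.Y p| ≤ 2 * |e| := by
        rw [hY]
        refine (abs_add_le _ _).trans ?_
        linarith
      have h4 : (X.Y p) ^ 2 ≤ 4 * e ^ 2 := by
        have := pow_le_pow_left₀ (abs_nonneg _) h3 2
        rw [sq_abs, mul_pow, sq_abs] at this
        linarith
      linarith

theorem b2_psi_sub (x : S) : ‖X.ψ x - X.b x‖ ≤ 2 ∧
    (x ∉ M.B X.K → ‖X.ψ x - X.b x‖ ≤ 2 * |lam| * Real.sqrt X.τ) := by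
  have h1 : X.ψ x - X.b x = (Complex.exp (((X.θ * X.κ x : ℝ) : ℂ) * Complex.I)
      - Complex.exp (((-(X.θ * M.G X.r x) : ℝ) : ℂ) * Complex.I)) * X.u x := by
    unfold ψ b; ring
  have h2 : ‖X.ψ x - X.b x‖ ≤ ‖Complex.exp (((X.θ * X.κ x : ℝ) : ℂ) * Complex.I)
      - Complex.exp (((-(X.θ * M.G X.r x) : ℝ) : ℂ) * Complex.I)‖ := by
    rw [h1, norm_mul]
    exact mul_le_of_le_one_right (norm_nonneg _) (X.hu1 x)
  constructor
  · refine h2.trans ((norm_sub_le _ _).trans ?_)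
    rw [Complex.norm_exp_ofReal_mul_I, Complex.norm_exp_ofReal_mul_I]
    norm_num
  · intro hx
    refine h2.trans ?_
    have h3 : Complex.exp (((X.θ * X.κ x : ℝ) : ℂ) * Complex.I)
      - Complex.exp (((-(X.θ * M.G X.r x) : ℝ) : ℂ) * Complex.I) =
      Complex.exp (((-(X.θ * M.G X.r x) : ℝ) : ℂ) * Complex.I) *
        (Complex.exp (Complex.I * ((X.θ * X.κ x + X.θ * M.G X.r x : ℝ) : ℂ)) - 1) := by
      rw [mul_sub, ← Complex.exp_add, mul_one]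
      congr 2
      push_cast
      ring
    rw [h3, norm_mul, Complex.norm_exp_ofReal_mul_I, one_mul]
    refine (Real.norm_exp_I_mul_ofReal_sub_one_le).trans ?_
    rw [Real.norm_eq_abs]
    refine (abs_add_le _ _).trans ?_
    have h4 := X.θκ_le hx
    have h5 := X.θG_le hx
    linarith

theorem b2_rho (j : ℕ) : 0 ≤ 1 - X.ρ ^ (j + 1) ∧ 1 - X.ρ ^ (j + 1) ≤ 1 ∧
    1 - X.ρ ^ (j + 1) ≤ s / X.n * ((j : ℝ) + 1) := by
  have h0 := X.ρ_nonneg
  have h1 := X.ρ_le_one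
  refine ⟨?_, ?_, ?_⟩
  · have := pow_le_one₀ (n := j + 1) h0 h1
    linarith
  · have := pow_nonneg h0 (j + 1)
    linarith
  · have h2 := one_add_mul_le_pow (a := X.ρ - 1) (by linarith) (j + 1)
    have h3 : 1 + (X.ρ - 1) = X.ρ := by ring
    rw [h3] at h2
    have h4 : X.ρ - 1 = -(s / X.n) := by unfold ρ; ring
    rw [h4] at h2
    push_cast at h2
    linarith

/-- the pointwise bound behind (B2d) -/
theorem b2d_point (p : ℕ × (ℕ → S)) :
    ((1 - X.ρ ^ (p.1 + 1)) + ‖X.ψ (p.2 (p.1 + 1)) - X.b (p.2 (p.1 + 1))‖) * (X.Y p) ^ 2 ≤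
      2 * |lam| * Real.sqrt X.τ * (X.Y p) ^ 2 + 16 * s * X.τ * ((p.1 : ℝ) + 1)
        + 12 * (M.Se p) ^ 2 + 9 * X.b2bad p := by
  have hb := X.b2bad_nonneg p
  have hsp := X.hs
  have hτ0 := X.τ_nonneg
  have hs : 0 ≤ 2 * |lam| * Real.sqrt X.τ * (X.Y p) ^ 2 := by positivity
  have hl : 0 ≤ 16 * s * X.τ * ((p.1 : ℝ) + 1) := by positivity
  obtain ⟨r0, r1, r2⟩ := X.b2_rho p.1
  obtain ⟨q1, q2⟩ := X.b2_psi_sub (p.2 (p.1 + 1))
  set A1 := 1 - X.ρ ^ (p.1 + 1) with hA1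
  set A2 := ‖X.ψ (p.2 (p.1 + 1)) - X.b (p.2 (p.1 + 1))‖ with hA2
  have hA20 : 0 ≤ A2 := norm_nonneg _
  have hF3 : (A1 + A2) * (X.Y p) ^ 2 ≤ 3 * (X.Y p) ^ 2 :=
    mul_le_mul_of_nonneg_right (by linarith) (sq_nonneg _)
  by_cases h : p.2 0 ∈ M.B X.K ∨ p.2 (p.1 + 1) ∈ M.B X.K
  · have h1 := X.b2_Ysq_bad p h
    nlinarith [sq_nonneg (M.Se p)]
  · push Not at h
    have hY := X.b2_Y_eq p
    have ha2 : (M.Gs X.r (p.2 0) - X.κ (p.2 (p.1 + 1))) ^ 2 ≤ 4 * (X.K * X.m) := by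
      have e1 : (M.Gs X.r (p.2 0)) ^ 2 ≤ X.m * X.K :=
        (X.Gs_sq_le _).trans (mul_le_mul_of_nonneg_left (X.A_le h.1) X.m_pos.le)
      have e2 : (X.κ (p.2 (p.1 + 1))) ^ 2 ≤ X.m * X.K :=
        (X.κ_sq_le _).trans (mul_le_mul_of_nonneg_left (X.A_le h.2) X.m_pos.le)
      nlinarith [sq_nonneg (M.Gs X.r (p.2 0) + X.κ (p.2 (p.1 + 1)))]
    set a := M.Gs X.r (p.2 0) - X.κ (p.2 (p.1 + 1)) with ha
    set e := M.Se p with he
    by_cases hea : |e| ≤ |a|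
    · have h3 : |X.Y p| ≤ 2 * |a| := by
        rw [hY]
        refine (abs_add_le _ _).trans ?_
        linarith
      have h4 : (X.Y p) ^ 2 ≤ 16 * (X.K * X.m) := by
        have := pow_le_pow_left₀ (abs_nonneg _) h3 2
        rw [sq_abs, mul_pow, sq_abs] at this
        linarith
      have h5 : A1 * (X.Y p) ^ 2 ≤ 16 * s * X.τ * ((p.1 : ℝ) + 1) := by
        have hn := X.n_pos
        calc A1 * (X.Y p) ^ 2 ≤ (s / X.n * ((p.1 : ℝ) + 1)) * (16 * (X.K * X.m)) :=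
              mul_le_mul r2 h4 (sq_nonneg _) (by positivity)
          _ = 16 * s * (X.K * X.m / X.n) * ((p.1 : ℝ) + 1) := by ring
          _ ≤ 16 * s * X.τ * ((p.1 : ℝ) + 1) := by
              have := X.hN'
              gcongr
      have h6 : A2 * (X.Y p) ^ 2 ≤ 2 * |lam| * Real.sqrt X.τ * (X.Y p) ^ 2 :=
        mul_le_mul_of_nonneg_right (q2 h.2) (sq_nonneg _)
      nlinarith [sq_nonneg e]
    · push Not at hea
      have h3 : |X.Y p| ≤ 2 * |e| := by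
        rw [hY]
        refine (abs_add_le _ _).trans ?_
        linarith
      have h4 : (X.Y p) ^ 2 ≤ 4 * e ^ 2 := by
        have := pow_le_pow_left₀ (abs_nonneg _) h3 2
        rw [sq_abs, mul_pow, sq_abs] at this
        linarith
      linarith

theorem b2_tau_le_sqrt : X.τ ≤ Real.sqrt X.τ := by
  have h0 := X.τ_nonneg
  have h1 := X.hτ1
  have h2 : Real.sqrt X.τ ≤ 1 := by
    calc Real.sqrt X.τ ≤ Real.sqrt 1 := Real.sqrt_le_sqrt h1
      _ = 1 := Real.sqrt_one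
  calc X.τ = Real.sqrt X.τ * Real.sqrt X.τ := (Real.mul_self_sqrt h0).symm
    _ ≤ Real.sqrt X.τ * 1 := mul_le_mul_of_nonneg_left h2 (Real.sqrt_nonneg _)
    _ = Real.sqrt X.τ := mul_one _

theorem b2_len_integral : ∫ p, ((p.1 : ℝ) + 1) ∂X.Θ ≤ 2 := by
  rw [integral_add X.integrable_len (integrable_const _)]
  have h1 := X.len_le
  have h2 : ∫ _p, (1 : ℝ) ∂X.Θ ≤ 1 := by
    rw [integral_const, smul_eq_mul, mul_one]
    exact X.Θ_mass
  have h3 := X.hτ1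
  linarith

end Ctx

/-- (B2a) Lindeberg condition -/
theorem Ctx.B2a (M : Model S) (lam s : ℝ) :
    ∃ D : ℝ, 0 < D ∧ ∀ X : Ctx M lam s,
      ∫ p, (X.Y p) ^ 2 * min 1 |X.θ * X.Y p| ∂X.Θ ≤ D * Real.sqrt X.τ := by
  obtain ⟨DY, hDY, hY⟩ := Ctx.Y_sq_le M lam s
  refine ⟨4 * |lam| * DY + 118 + 1, by positivity, fun X => ?_⟩
  have i1 : Integrable (fun p => (X.Y p) ^ 2) X.Θ := X.memLp_Y.integrable_sq
  have i2 : Integrable (fun p => (M.Se p) ^ 2) X.Θ := (M.memLp_Se X.k).integrable_sq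
  have i3 := X.b2bad_integrable
  have h1 : ∫ p, (X.Y p) ^ 2 * min 1 |X.θ * X.Y p| ∂X.Θ ≤
      ∫ p, (4 * |lam| * Real.sqrt X.τ * (X.Y p) ^ 2 + 4 * (M.Se p) ^ 2 + 3 * X.b2bad p) ∂X.Θ := by
    refine integral_mono_of_nonneg (Filter.Eventually.of_forall fun p => ?_)
      (((i1.const_mul _).add (i2.const_mul _)).add (i3.const_mul _))
      (Filter.Eventually.of_forall fun p => X.b2a_point p)
    exact mul_nonneg (sq_nonneg _) (le_min zero_le_one (abs_nonneg _))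
  refine h1.trans ?_
  have j1 : Integrable (fun p => 4 * |lam| * Real.sqrt X.τ * (X.Y p) ^ 2) X.Θ := i1.const_mul _
  have j2 : Integrable (fun p => 4 * (M.Se p) ^ 2) X.Θ := i2.const_mul _
  have j3 : Integrable (fun p => 3 * X.b2bad p) X.Θ := i3.const_mul _
  have j12 : Integrable (fun p => 4 * |lam| * Real.sqrt X.τ * (X.Y p) ^ 2 + 4 * (M.Se p) ^ 2)
    X.Θ := j1.add j2
  rw [integral_add j12 j3, integral_add j1 j2, integral_const_mul, integral_const_mul,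
    integral_const_mul]
  have h2 := hY X
  have h3 := X.Se_sq_le
  have h4 := X.b2bad_le
  have h5 := X.b2_tau_le_sqrt
  have h6 : 0 ≤ 4 * |lam| * Real.sqrt X.τ := by positivity
  have h7 := mul_le_mul_of_nonneg_left h2 h6
  have h8 := Real.sqrt_nonneg X.τ
  nlinarith

/-- (B2d) -/
theorem Ctx.B2d (M : Model S) (lam s : ℝ) :
    ∃ D : ℝ, 0 < D ∧ ∀ X : Ctx M lam s,
      ∫ p, ((1 - X.ρ ^ (p.1 + 1)) + ‖X.ψ (p.2 (p.1 + 1)) - X.b (p.2 (p.1 + 1))‖)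
        * (X.Y p) ^ 2 ∂X.Θ ≤ D * Real.sqrt X.τ := by
  obtain ⟨DY, hDY, hY⟩ := Ctx.Y_sq_le M lam s
  refine ⟨2 * |lam| * DY + 32 * |s| + 354 + 1, by positivity, fun X => ?_⟩
  have i1 : Integrable (fun p => (X.Y p) ^ 2) X.Θ := X.memLp_Y.integrable_sq
  have i2 : Integrable (fun p => (M.Se p) ^ 2) X.Θ := (M.memLp_Se X.k).integrable_sq
  have i3 := X.b2bad_integrable
  have i4 : Integrable (fun p : ℕ × (ℕ → S) => (p.1 : ℝ) + 1) X.Θ :=
    X.integrable_len.add (integrable_const _)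
  have h1 : ∫ p, ((1 - X.ρ ^ (p.1 + 1)) + ‖X.ψ (p.2 (p.1 + 1)) - X.b (p.2 (p.1 + 1))‖)
        * (X.Y p) ^ 2 ∂X.Θ ≤
      ∫ p, (2 * |lam| * Real.sqrt X.τ * (X.Y p) ^ 2 + 16 * s * X.τ * ((p.1 : ℝ) + 1)
        + 12 * (M.Se p) ^ 2 + 9 * X.b2bad p) ∂X.Θ := by
    refine integral_mono_of_nonneg (Filter.Eventually.of_forall fun p => ?_)
      ((((i1.const_mul _).add (i4.const_mul _)).add (i2.const_mul _)).add (i3.const_mul _))
      (Filter.Eventually.of_forall fun p => X.b2d_point p)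
    exact mul_nonneg (add_nonneg (X.b2_rho p.1).1 (norm_nonneg _)) (sq_nonneg _)
  refine h1.trans ?_
  have j1 : Integrable (fun p => 2 * |lam| * Real.sqrt X.τ * (X.Y p) ^ 2) X.Θ := i1.const_mul _
  have j4 : Integrable (fun p : ℕ × (ℕ → S) => 16 * s * X.τ * ((p.1 : ℝ) + 1)) X.Θ :=
    i4.const_mul _
  have j2 : Integrable (fun p => 12 * (M.Se p) ^ 2) X.Θ := i2.const_mul _
  have j3 : Integrable (fun p => 9 * X.b2bad p) X.Θ := i3.const_mul _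
  have j14 : Integrable (fun p => 2 * |lam| * Real.sqrt X.τ * (X.Y p) ^ 2
    + 16 * s * X.τ * ((p.1 : ℝ) + 1)) X.Θ := j1.add j4
  have j142 : Integrable (fun p => 2 * |lam| * Real.sqrt X.τ * (X.Y p) ^ 2
    + 16 * s * X.τ * ((p.1 : ℝ) + 1) + 12 * (M.Se p) ^ 2) X.Θ := j14.add j2
  rw [integral_add j142 j3, integral_add j14 j2, integral_add j1 j4, integral_const_mul,
    integral_const_mul, integral_const_mul, integral_const_mul]
  have h2 := hY X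
  have h3 := X.Se_sq_le
  have h4 := X.b2bad_le
  have h5 := X.b2_tau_le_sqrt
  have h6 : 0 ≤ 2 * |lam| * Real.sqrt X.τ := by positivity
  have h7 := mul_le_mul_of_nonneg_left h2 h6
  have h8 := Real.sqrt_nonneg X.τ
  have h9 := X.b2_len_integral
  have h10 : 0 ≤ 16 * s * X.τ := by
    have := X.hs
    have := X.τ_nonneg
    positivity
  have h11 := mul_le_mul_of_nonneg_left h9 h10
  have h12 : |s| = s := abs_of_pos X.hs
  rw [h12]
  have h13 : 32 * s * X.τ ≤ 32 * s * Real.sqrt X.τ :=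
    mul_le_mul_of_nonneg_left h5 (by have := X.hs; positivity)
  nlinarith

end Pool.Agent.H45.CLT
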