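import Pool.Agent.H45.CLT.StepB0

/-!
# Module STEPB3: first order terms
B2b: Cauchy-Schwarz, `E_Θ(1-ρ^ℓ)² ≤ (s/n)² + (2s/n)ν(B) ≤ (τ/n)(s²+2s)`.  B2c: `Y_first_order`.
-/

set_option autoImplicit false

open MeasureTheory ProbabilityTheory
open scoped ENNReal NNReal

namespace Pool.Agent.H45.CLT

variable {S : Type} [MeasurableSpace S]

/-- `(1-ρ^ℓ)² ≤ (s/n)² + (2s/n)(ℓ-1)` -/
theorem Ctx.one_sub_pow_sq_le {M : Model S} {lam s : ℝ} (X : Ctx M lam s) (j : ℕ) :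
    (1 - X.ρ ^ (j + 1)) ^ 2 ≤ (s / X.n) ^ 2 + 2 * s / X.n * (j : ℝ) := by
  have h0 := X.ρ_nonneg
  have h1 := X.ρ_le_one
  have hs := X.hs
  have hn := X.n_pos
  have hρ : 1 - X.ρ = s / X.n := by unfold Ctx.ρ; ring
  rcases Nat.eq_zero_or_pos j with rfl | hj
  · simp [hρ]
  · have hj1 : (1 : ℝ) ≤ j := by exact_mod_cast hj
    have h2 : 1 - X.ρ ^ (j + 1) ≤ (1 - X.ρ) * ((j : ℝ) + 1) := by
      have h := mul_neg_geom_sum X.ρ (j + 1)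
      rw [← h]
      refine mul_le_mul_of_nonneg_left ?_ (by linarith)
      calc ∑ i ∈ Finset.range (j + 1), X.ρ ^ i ≤ ∑ _i ∈ Finset.range (j + 1), (1 : ℝ) :=
            Finset.sum_le_sum fun i _ => pow_le_one₀ h0 h1
        _ = (j : ℝ) + 1 := by simp
    have h3 : 0 ≤ X.ρ ^ (j + 1) := pow_nonneg h0 _
    have h4 : X.ρ ^ (j + 1) ≤ 1 := pow_le_one₀ h0 h1
    have h5 : (1 - X.ρ ^ (j + 1)) ^ 2 ≤ 1 - X.ρ ^ (j + 1) := by nlinarith
    have h6 : 0 ≤ s / X.n := by positivity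
    have h7 : 2 * s / X.n * (j : ℝ) = s / X.n * (2 * j) := by ring
    rw [h7]
    rw [hρ] at h2
    have h8 : s / X.n * ((j : ℝ) + 1) ≤ s / X.n * (2 * j) := by
      gcongr; linarith
    have h9 := sq_nonneg (s / X.n)
    linarith

/-- (B2b) -/
theorem Ctx.B2b (M : Model S) (lam s : ℝ) :
    ∃ D : ℝ, 0 < D ∧ ∀ X : Ctx M lam s,
      X.n * ∫ p, (1 - X.ρ ^ (p.1 + 1)) * |X.θ * X.Y p| ∂X.Θ ≤ D * Real.sqrt X.τ := by
  obtain ⟨DY, hDY0, hDY⟩ := Ctx.Y_sq_le M lam s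
  refine ⟨|lam| * Real.sqrt ((s ^ 2 + 2 * |s|) * DY) + 1, by positivity, fun X => ?_⟩
  have hs := X.hs
  have hn := X.n_pos
  rw [abs_of_pos hs]
  have hτ := X.τ_nonneg
  have hmρ : Measurable (fun p : ℕ × (ℕ → S) => 1 - X.ρ ^ (p.1 + 1)) :=
    (measurable_from_nat (f := fun j : ℕ => 1 - X.ρ ^ (j + 1))).comp measurable_fst
  have h1ρ : ∀ p : ℕ × (ℕ → S), 0 ≤ 1 - X.ρ ^ (p.1 + 1) := fun p => by
    have : X.ρ ^ (p.1 + 1) ≤ 1 := pow_le_one₀ X.ρ_nonneg X.ρ_le_one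
    linarith
  have hρ2 : MemLp (fun p : ℕ × (ℕ → S) => 1 - X.ρ ^ (p.1 + 1)) 2 X.Θ := by
    refine MemLp.of_bound hmρ.aestronglyMeasurable 1 (Filter.Eventually.of_forall fun p => ?_)
    rw [Real.norm_eq_abs, abs_of_nonneg (h1ρ p)]
    have : 0 ≤ X.ρ ^ (p.1 + 1) := pow_nonneg X.ρ_nonneg _
    linarith
  have hcs := L2.cs hρ2 X.memLp_Y
  have hmass := X.Θ_mass
  -- the square integral of `1-ρ^ℓ`
  have hsq : ∫ p, (1 - X.ρ ^ (p.1 + 1)) ^ 2 ∂X.Θ ≤ X.τ / X.n * (s ^ 2 + 2 * s) := by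
    have h1 : ∫ p, (1 - X.ρ ^ (p.1 + 1)) ^ 2 ∂X.Θ
        ≤ ∫ p : ℕ × (ℕ → S), ((s / X.n) ^ 2 + 2 * s / X.n * (p.1 : ℝ)) ∂X.Θ :=
      integral_mono hρ2.integrable_sq ((integrable_const _).add (X.integrable_len.const_mul _))
        fun p => X.one_sub_pow_sq_le p.1
    refine h1.trans ?_
    rw [integral_add (integrable_const _) (X.integrable_len.const_mul _), integral_const_mul,
      integral_const, smul_eq_mul]
    have h2 := X.len_le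
    have h3 := X.inv_n_le
    have h4 : X.Θ.real Set.univ * (s / X.n) ^ 2 ≤ s ^ 2 * X.τ / X.n := by
      calc X.Θ.real Set.univ * (s / X.n) ^ 2 ≤ 1 * (s / X.n) ^ 2 := by gcongr
        _ = s ^ 2 * (X.n : ℝ)⁻¹ / X.n := by field_simp
        _ ≤ s ^ 2 * X.τ / X.n := by gcongr
    have h5 : 2 * s / X.n * ∫ p : ℕ × (ℕ → S), (p.1 : ℝ) ∂X.Θ ≤ 2 * s / X.n * X.τ := by gcongr
    calc _ ≤ s ^ 2 * X.τ / X.n + 2 * s / X.n * X.τ := add_le_add h4 h5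
      _ = X.τ / X.n * (s ^ 2 + 2 * s) := by ring
  have hint : ∫ p, (1 - X.ρ ^ (p.1 + 1)) * |X.θ * X.Y p| ∂X.Θ
      = |X.θ| * ∫ p, |1 - X.ρ ^ (p.1 + 1)| * |X.Y p| ∂X.Θ := by
    rw [← integral_const_mul]
    refine integral_congr_ae (Filter.Eventually.of_forall fun p => ?_)
    simp only
    rw [abs_mul, abs_of_nonneg (h1ρ p)]
    ring
  rw [hint]
  have hθ : |X.θ| = |lam| / Real.sqrt X.n := by
    unfold Ctx.θ
    rw [abs_div, abs_of_nonneg (Real.sqrt_nonneg _)]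
  have hsn : 0 < Real.sqrt X.n := Real.sqrt_pos.2 hn
  calc (X.n : ℝ) * (|X.θ| * ∫ p, |1 - X.ρ ^ (p.1 + 1)| * |X.Y p| ∂X.Θ)
      ≤ (X.n : ℝ) * (|X.θ| * (Real.sqrt (X.τ / X.n * (s ^ 2 + 2 * s)) * Real.sqrt DY)) := by
        refine mul_le_mul_of_nonneg_left (mul_le_mul_of_nonneg_left (hcs.trans ?_)
          (abs_nonneg _)) hn.le
        exact mul_le_mul (Real.sqrt_le_sqrt hsq) (Real.sqrt_le_sqrt (hDY X))
          (Real.sqrt_nonneg _) (Real.sqrt_nonneg _)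
    _ = |lam| * Real.sqrt ((s ^ 2 + 2 * s) * DY) * Real.sqrt X.τ := by
        rw [hθ, ← Real.sqrt_mul (by positivity),
          show X.τ / X.n * (s ^ 2 + 2 * s) * DY = ((s ^ 2 + 2 * s) * DY) * X.τ / X.n by ring,
          Real.sqrt_div' _ hn.le, Real.sqrt_mul (by positivity)]
        field_simp
        rw [Real.sq_sqrt hn.le]
        ring
    _ ≤ (|lam| * Real.sqrt ((s ^ 2 + 2 * s) * DY) + 1) * Real.sqrt X.τ := by
        gcongr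
        linarith

/-- (B2c) -/
theorem Ctx.B2c (M : Model S) (lam s : ℝ) :
    ∃ D : ℝ, 0 < D ∧ ∀ X : Ctx M lam s,
      X.n * ‖∫ p, X.ψ (p.2 (p.1 + 1)) * ((X.θ * X.Y p : ℝ) : ℂ) ∂X.Θ‖
        ≤ D * Real.sqrt X.τ := by
  refine ⟨|lam| + 1, by positivity, fun X => ?_⟩
  have hn := X.n_pos
  have hm := X.m_pos
  have hsn : 0 < Real.sqrt X.n := Real.sqrt_pos.2 hn
  have h1 : ∫ p, X.ψ (p.2 (p.1 + 1)) * ((X.θ * X.Y p : ℝ) : ℂ) ∂X.Θ
      = (X.θ : ℂ) * ∫ p, X.ψ (p.2 (p.1 + 1)) * ((X.Y p : ℝ) : ℂ) ∂X.Θ := by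
    rw [← integral_const_mul]
    refine integral_congr_ae (Filter.Eventually.of_forall fun p => ?_)
    simp only
    push_cast
    ring
  have h2 := X.Y_first_order X.ψ X.measurable_ψ X.norm_ψ_le
  rw [h1, norm_mul, Complex.norm_real, Real.norm_eq_abs]
  have hθ : |X.θ| = |lam| / Real.sqrt X.n := by
    unfold Ctx.θ
    rw [abs_div, abs_of_nonneg (Real.sqrt_nonneg _)]
  have he := M.e_nonneg X.I
  calc (X.n : ℝ) * (|X.θ| * ‖∫ p, X.ψ (p.2 (p.1 + 1)) * ((X.Y p : ℝ) : ℂ) ∂X.Θ‖)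
      ≤ (X.n : ℝ) * (|X.θ| * Real.sqrt (M.e X.I / X.m)) := by gcongr
    _ = |lam| * Real.sqrt (X.n / X.m * M.e X.I) := by
        rw [hθ, show (X.n : ℝ) / X.m * M.e X.I = X.n * (M.e X.I / X.m) by ring,
          Real.sqrt_mul hn.le]
        field_simp
        rw [Real.sq_sqrt hn.le]
        ring
    _ ≤ |lam| * Real.sqrt X.τ := by
        have := X.he'
        gcongr
    _ ≤ (|lam| + 1) * Real.sqrt X.τ := by
        gcongr
        linarith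

end Pool.Agent.H45.CLT
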