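import Pool.Agent.H45.CLT.StepB1
import Pool.Agent.H45.CLT.StepB2
import Pool.Agent.H45.CLT.StepB3

/-!
# Module STEPB: step B
`n` times (B0): `1-ρ^ℓe^{iθY} = (1-ρ^ℓ) - ρ^ℓ(e^{iθY}-1-iθY+θ²Y²/2) - ρ^ℓ iθY + ρ^ℓ θ²Y²/2`,
`|e^{ix}-1-ix+x²/2| ≤ 3 x² min(1,|x|)`, `nθ² = lam²`.
-/

set_option autoImplicit false

open MeasureTheory ProbabilityTheory
open scoped ENNReal NNReal

namespace Pool.Agent.H45.CLT

variable {S : Type} [MeasurableSpace S]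

/-- `|e^{ix}-1-ix+x²/2| ≤ 3 x² min(1,|x|)` -/
theorem norm_exp_taylor (x : ℝ) :
    ‖Complex.exp ((x : ℂ) * Complex.I) - 1 - (x : ℂ) * Complex.I + ((x ^ 2 / 2 : ℝ) : ℂ)‖
      ≤ 3 * (x ^ 2 * min 1 |x|) := by
  rcases le_total |x| 1 with hx | hx
  · rw [min_eq_right hx]
    have h := Complex.exp_bound (x := (x : ℂ) * Complex.I) (by simpa using hx) (n := 3) (by norm_num)
    have h1 : ∑ m ∈ Finset.range 3, ((x : ℂ) * Complex.I) ^ m / (m.factorial : ℂ)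
        = 1 + (x : ℂ) * Complex.I - ((x ^ 2 / 2 : ℝ) : ℂ) := by
      simp [Finset.sum_range_succ, mul_pow]
      ring
    rw [h1] at h
    have h2 : Complex.exp ((x : ℂ) * Complex.I) - 1 - (x : ℂ) * Complex.I + ((x ^ 2 / 2 : ℝ) : ℂ)
        = Complex.exp ((x : ℂ) * Complex.I)
          - (1 + (x : ℂ) * Complex.I - ((x ^ 2 / 2 : ℝ) : ℂ)) := by ring
    rw [h2]
    refine h.trans ?_
    have h3 : ‖(x : ℂ) * Complex.I‖ = |x| := by simp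
    rw [h3]
    have h4 : |x| ^ 3 = x ^ 2 * |x| := by
      rw [pow_succ, sq_abs]
    rw [h4]
    have h5 : 0 ≤ x ^ 2 * |x| := by positivity
    norm_num [Nat.factorial]
    nlinarith
  · rw [min_eq_left hx, mul_one]
    have h1 : ‖Complex.exp ((x : ℂ) * Complex.I) - 1‖ ≤ |x| := by
      have := Real.norm_exp_I_mul_ofReal_sub_one_le (x := x)
      rw [mul_comm] at this
      simpa using this
    have h2 : ‖(x : ℂ) * Complex.I‖ = |x| := by simp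
    have h3 : ‖((x ^ 2 / 2 : ℝ) : ℂ)‖ = x ^ 2 / 2 := by
      rw [Complex.norm_real, Real.norm_eq_abs, abs_of_nonneg (by positivity)]
    have h4 : |x| ≤ x ^ 2 := by
      rw [← sq_abs]; nlinarith
    calc _ ≤ ‖Complex.exp ((x : ℂ) * Complex.I) - 1 - (x : ℂ) * Complex.I‖
          + ‖((x ^ 2 / 2 : ℝ) : ℂ)‖ := norm_add_le _ _
      _ ≤ (‖Complex.exp ((x : ℂ) * Complex.I) - 1‖ + ‖(x : ℂ) * Complex.I‖)
          + ‖((x ^ 2 / 2 : ℝ) : ℂ)‖ := by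
          gcongr
          exact norm_sub_le _ _
      _ ≤ (|x| + |x|) + x ^ 2 / 2 := by rw [h2, h3]; gcongr
      _ ≤ 3 * x ^ 2 := by linarith

/-- STEP B: `s ∫u + (lam²/2) E_Θ[b(y) Y²] = s ∫w + O(√τ)` -/
theorem Ctx.stepB (M : Model S) (lam s : ℝ) :
    ∃ D : ℝ, 0 < D ∧ ∀ X : Ctx M lam s,
      ‖(s : ℂ) * ∫ x, X.u x ∂M.ν
        + ((lam ^ 2 / 2 : ℝ) : ℂ) * ∫ p, X.b (p.2 (p.1 + 1)) * (((X.Y p) ^ 2 : ℝ) : ℂ) ∂X.Θ
        - (s : ℂ) * ∫ x, X.w x ∂M.ν‖ ≤ D * Real.sqrt X.τ := by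
  obtain ⟨D1, hD10, hD1⟩ := Ctx.B1 M lam s
  obtain ⟨Da, hDa0, hDa⟩ := Ctx.B2a M lam s
  obtain ⟨Db, hDb0, hDb⟩ := Ctx.B2b M lam s
  obtain ⟨Dc, hDc0, hDc⟩ := Ctx.B2c M lam s
  obtain ⟨Dd, hDd0, hDd⟩ := Ctx.B2d M lam s
  obtain ⟨D3, hD30, hD3⟩ := Ctx.B3 M lam s
  refine ⟨D1 + D3 + 3 * lam ^ 2 * Da + (Db + Dc) + lam ^ 2 / 2 * Dd, by positivity, fun X => ?_⟩
  have hn := X.n_pos
  have hs := X.hs
  have e1 := hD1 X
  have ea := hDa X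
  have eb := hDb X
  have ec := hDc X
  have ed := hDd X
  have e3 := hD3 X
  have hB0 := X.B0
  have hym : Measurable (fun p : ℕ × (ℕ → S) => p.2 (p.1 + 1)) := measurable_y
  have hψm : Measurable (fun p : ℕ × (ℕ → S) => X.ψ (p.2 (p.1 + 1))) := X.measurable_ψ.comp hym
  have hbm : Measurable (fun p : ℕ × (ℕ → S) => X.b (p.2 (p.1 + 1))) := X.measurable_b.comp hym
  have hρm := X.measurable_ρpow
  have hYi : Integrable X.Y X.Θ := X.memLp_Y.integrable (by norm_num)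
  have hY2i : Integrable (fun p => (X.Y p) ^ 2) X.Θ := X.memLp_Y.integrable_sq
  have hθYi : Integrable (fun p => X.θ * X.Y p) X.Θ := hYi.const_mul _
  have hθY2i : Integrable (fun p => (X.θ * X.Y p) ^ 2 / 2) X.Θ := by
    refine (hY2i.const_mul (X.θ ^ 2 / 2)).congr (Filter.Eventually.of_forall fun p => ?_)
    simp only; ring
  have hρ1 : ∀ p : ℕ × (ℕ → S), 0 ≤ 1 - X.ρ ^ (p.1 + 1) := fun p => by
    have : X.ρ ^ (p.1 + 1) ≤ 1 := pow_le_one₀ X.ρ_nonneg X.ρ_le_one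
    linarith
  have hρ0 : ∀ p : ℕ × (ℕ → S), 0 ≤ X.ρ ^ (p.1 + 1) := fun p => pow_nonneg X.ρ_nonneg _
  -- the weights
  have hψρ : ∀ p : ℕ × (ℕ → S), ‖X.ψ (p.2 (p.1 + 1)) * (X.ρ : ℂ) ^ (p.1 + 1)‖ ≤ 1 := fun p => by
    rw [norm_mul]
    exact mul_le_one₀ (X.norm_ψ_le _) (norm_nonneg _) (X.norm_ρpow_le _)
  -- Taylor remainder
  set T : ℕ × (ℕ → S) → ℂ := fun p => X.Ey p - 1 - ((X.θ * X.Y p : ℝ) : ℂ) * Complex.I
    + (((X.θ * X.Y p) ^ 2 / 2 : ℝ) : ℂ) with hT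
  have hTm : Measurable T := by
    refine ((X.measurable_Ey.sub_const _).sub ((Complex.measurable_ofReal.comp
      (X.measurable_Y.const_mul _)).mul_const _)).add (Complex.measurable_ofReal.comp ?_)
    exact ((X.measurable_Y.const_mul _).pow_const 2).div_const _
  have hTle : ∀ p, ‖T p‖ ≤ 3 * (X.θ ^ 2 * ((X.Y p) ^ 2 * min 1 |X.θ * X.Y p|)) := fun p => by
    refine (norm_exp_taylor (X.θ * X.Y p)).trans (le_of_eq ?_)
    ring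
  have hmin : Integrable (fun p => (X.Y p) ^ 2 * min 1 |X.θ * X.Y p|) X.Θ := by
    refine Integrable.mono' hY2i ((X.measurable_Y.pow_const 2).mul
      (measurable_const.min (X.measurable_Y.const_mul _).abs)).aestronglyMeasurable
      (Filter.Eventually.of_forall fun p => ?_)
    have h1 : 0 ≤ min 1 |X.θ * X.Y p| := le_min zero_le_one (abs_nonneg _)
    rw [Real.norm_eq_abs, abs_of_nonneg (mul_nonneg (sq_nonneg _) h1)]
    exact mul_le_of_le_one_right (sq_nonneg _) (min_le_left _ _)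
  have hTi : Integrable T X.Θ := by
    refine Integrable.mono' ((hmin.const_mul (X.θ ^ 2)).const_mul 3) hTm.aestronglyMeasurable
      (Filter.Eventually.of_forall fun p => hTle p)
  -- the five integrable pieces
  have i0 : Integrable (fun p : ℕ × (ℕ → S) => X.ψ (p.2 (p.1 + 1))
      * (1 - (X.ρ : ℂ) ^ (p.1 + 1))) X.Θ := by
    refine X.integrable_bdd (hψm.mul (measurable_const.sub hρm)) 2 fun p => ?_
    rw [norm_mul]
    have h1 : ‖1 - (X.ρ : ℂ) ^ (p.1 + 1)‖ ≤ 2 := by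
      refine (norm_sub_le _ _).trans ?_
      have := X.norm_ρpow_le (p.1 + 1)
      rw [norm_one]
      linarith
    calc ‖X.ψ (p.2 (p.1 + 1))‖ * ‖1 - (X.ρ : ℂ) ^ (p.1 + 1)‖ ≤ 1 * 2 :=
          mul_le_mul (X.norm_ψ_le _) h1 (norm_nonneg _) zero_le_one
      _ = 2 := one_mul _
  have iT : Integrable (fun p : ℕ × (ℕ → S) =>
      (X.ψ (p.2 (p.1 + 1)) * (X.ρ : ℂ) ^ (p.1 + 1)) * T p) X.Θ :=
    hTi.bdd_mul (hψm.mul hρm).aestronglyMeasurable (Filter.Eventually.of_forall hψρ)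
  have i1 : Integrable (fun p : ℕ × (ℕ → S) => X.ψ (p.2 (p.1 + 1))
      * ((X.θ * X.Y p : ℝ) : ℂ)) X.Θ :=
    L2.integrable_bmul hψm.aestronglyMeasurable 1 (fun p => X.norm_ψ_le _) hθYi
  have i1' : Integrable (fun p : ℕ × (ℕ → S) => (X.ψ (p.2 (p.1 + 1))
      * (1 - (X.ρ : ℂ) ^ (p.1 + 1))) * ((X.θ * X.Y p : ℝ) : ℂ)) X.Θ := by
    refine L2.integrable_bmul (hψm.mul (measurable_const.sub hρm)).aestronglyMeasurable 2
      (fun p => ?_) hθYi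
    show ‖X.ψ (p.2 (p.1 + 1)) * (1 - (X.ρ : ℂ) ^ (p.1 + 1))‖ ≤ 2
    rw [norm_mul]
    have h1 : ‖1 - (X.ρ : ℂ) ^ (p.1 + 1)‖ ≤ 2 := by
      refine (norm_sub_le _ _).trans ?_
      have := X.norm_ρpow_le (p.1 + 1)
      rw [norm_one]
      linarith
    calc ‖X.ψ (p.2 (p.1 + 1))‖ * ‖1 - (X.ρ : ℂ) ^ (p.1 + 1)‖ ≤ 1 * 2 :=
          mul_le_mul (X.norm_ψ_le _) h1 (norm_nonneg _) zero_le_one
      _ = 2 := one_mul _
  have i2 : Integrable (fun p : ℕ × (ℕ → S) => X.b (p.2 (p.1 + 1))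
      * (((X.Y p) ^ 2 : ℝ) : ℂ)) X.Θ :=
    L2.integrable_bmul hbm.aestronglyMeasurable 1 (fun p => X.norm_b_le _) hY2i
  have i2' : Integrable (fun p : ℕ × (ℕ → S) => (X.ψ (p.2 (p.1 + 1)) * (X.ρ : ℂ) ^ (p.1 + 1)
      - X.b (p.2 (p.1 + 1))) * (((X.Y p) ^ 2 : ℝ) : ℂ)) X.Θ := by
    refine L2.integrable_bmul ((hψm.mul hρm).sub hbm).aestronglyMeasurable 2
      (fun p => ?_) hY2i
    show ‖X.ψ (p.2 (p.1 + 1)) * (X.ρ : ℂ) ^ (p.1 + 1) - X.b (p.2 (p.1 + 1))‖ ≤ 2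
    refine (norm_sub_le _ _).trans ?_
    have h1 := hψρ p
    have h2 := X.norm_b_le (p.2 (p.1 + 1))
    linarith
  -- the decomposition of the left side of B0
  have hdec : ∫ p, X.ψ (p.2 (p.1 + 1)) * (1 - (X.ρ : ℂ) ^ (p.1 + 1) * X.Ey p) ∂X.Θ
      = (∫ p, X.ψ (p.2 (p.1 + 1)) * (1 - (X.ρ : ℂ) ^ (p.1 + 1)) ∂X.Θ
        - ∫ p, (X.ψ (p.2 (p.1 + 1)) * (X.ρ : ℂ) ^ (p.1 + 1)) * T p ∂X.Θ)
        - Complex.I * (∫ p, X.ψ (p.2 (p.1 + 1)) * ((X.θ * X.Y p : ℝ) : ℂ) ∂X.Θ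
          - ∫ p, (X.ψ (p.2 (p.1 + 1)) * (1 - (X.ρ : ℂ) ^ (p.1 + 1)))
              * ((X.θ * X.Y p : ℝ) : ℂ) ∂X.Θ)
        + ((X.θ ^ 2 / 2 : ℝ) : ℂ) * (∫ p, X.b (p.2 (p.1 + 1)) * (((X.Y p) ^ 2 : ℝ) : ℂ) ∂X.Θ
          + ∫ p, (X.ψ (p.2 (p.1 + 1)) * (X.ρ : ℂ) ^ (p.1 + 1)
              - X.b (p.2 (p.1 + 1))) * (((X.Y p) ^ 2 : ℝ) : ℂ) ∂X.Θ) := by
    rw [← integral_sub i0 iT, ← integral_sub i1 i1', ← integral_add i2 i2',
      ← integral_const_mul, ← integral_const_mul]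
    have j1 : Integrable (fun p : ℕ × (ℕ → S) => X.ψ (p.2 (p.1 + 1))
        * (1 - (X.ρ : ℂ) ^ (p.1 + 1))
        - (X.ψ (p.2 (p.1 + 1)) * (X.ρ : ℂ) ^ (p.1 + 1)) * T p) X.Θ := i0.sub iT
    have j2 : Integrable (fun p : ℕ × (ℕ → S) => Complex.I * (X.ψ (p.2 (p.1 + 1))
        * ((X.θ * X.Y p : ℝ) : ℂ) - (X.ψ (p.2 (p.1 + 1)) * (1 - (X.ρ : ℂ) ^ (p.1 + 1)))
        * ((X.θ * X.Y p : ℝ) : ℂ))) X.Θ := (i1.sub i1').const_mul _
    have j3 : Integrable (fun p : ℕ × (ℕ → S) => ((X.θ ^ 2 / 2 : ℝ) : ℂ)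
        * (X.b (p.2 (p.1 + 1)) * (((X.Y p) ^ 2 : ℝ) : ℂ)
          + (X.ψ (p.2 (p.1 + 1)) * (X.ρ : ℂ) ^ (p.1 + 1)
              - X.b (p.2 (p.1 + 1))) * (((X.Y p) ^ 2 : ℝ) : ℂ))) X.Θ := (i2.add i2').const_mul _
    rw [← integral_sub j1 j2]
    have j12 : Integrable (fun p : ℕ × (ℕ → S) => (X.ψ (p.2 (p.1 + 1))
        * (1 - (X.ρ : ℂ) ^ (p.1 + 1))
        - (X.ψ (p.2 (p.1 + 1)) * (X.ρ : ℂ) ^ (p.1 + 1)) * T p)
        - Complex.I * (X.ψ (p.2 (p.1 + 1))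
        * ((X.θ * X.Y p : ℝ) : ℂ) - (X.ψ (p.2 (p.1 + 1)) * (1 - (X.ρ : ℂ) ^ (p.1 + 1)))
        * ((X.θ * X.Y p : ℝ) : ℂ))) X.Θ := j1.sub j2
    rw [← integral_add j12 j3]
    refine integral_congr_ae (Filter.Eventually.of_forall fun p => ?_)
    simp only [hT]
    push_cast
    ring
  -- abbreviations
  set I0 : ℂ := ∫ p, X.ψ (p.2 (p.1 + 1)) * (1 - (X.ρ : ℂ) ^ (p.1 + 1)) ∂X.Θ with hI0
  set IT : ℂ := ∫ p, (X.ψ (p.2 (p.1 + 1)) * (X.ρ : ℂ) ^ (p.1 + 1)) * T p ∂X.Θ with hIT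
  set I1 : ℂ := ∫ p, X.ψ (p.2 (p.1 + 1)) * ((X.θ * X.Y p : ℝ) : ℂ) ∂X.Θ with hI1
  set I1' : ℂ := ∫ p, (X.ψ (p.2 (p.1 + 1)) * (1 - (X.ρ : ℂ) ^ (p.1 + 1)))
              * ((X.θ * X.Y p : ℝ) : ℂ) ∂X.Θ with hI1'
  set I2 : ℂ := ∫ p, X.b (p.2 (p.1 + 1)) * (((X.Y p) ^ 2 : ℝ) : ℂ) ∂X.Θ with hI2
  set I2' : ℂ := ∫ p, (X.ψ (p.2 (p.1 + 1)) * (X.ρ : ℂ) ^ (p.1 + 1)
              - X.b (p.2 (p.1 + 1))) * (((X.Y p) ^ 2 : ℝ) : ℂ) ∂X.Θ with hI2'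
  set RR : ℂ := ∫ p, Complex.exp (((X.θ * X.κ (p.2 0) : ℝ) : ℂ) * Complex.I) * X.R p ∂X.Θ
    with hRR
  set U : ℂ := ∫ x, X.u x ∂M.ν with hU
  set W : ℂ := ∫ x, X.w x ∂M.ν with hW
  rw [hB0] at hdec
  have hnθ : (X.n : ℂ) * ((X.θ ^ 2 / 2 : ℝ) : ℂ) = ((lam ^ 2 / 2 : ℝ) : ℂ) := by
    rw [X.θ_sq]
    have hn' : (X.n : ℂ) ≠ 0 := by exact_mod_cast hn.ne'
    push_cast
    field_simp
  have hid : (s : ℂ) * U + ((lam ^ 2 / 2 : ℝ) : ℂ) * I2 - (s : ℂ) * W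
      = -((X.n : ℂ) * I0 - (s : ℂ) * U) + ((X.n : ℂ) * RR - (s : ℂ) * W)
        + (X.n : ℂ) * IT + Complex.I * ((X.n : ℂ) * I1 - (X.n : ℂ) * I1')
        - ((lam ^ 2 / 2 : ℝ) : ℂ) * I2' := by
    rw [hdec, ← hnθ]
    ring
  rw [hid]
  -- bounds
  have bT : ‖(X.n : ℂ) * IT‖ ≤ 3 * lam ^ 2 * (Da * Real.sqrt X.τ) := by
    rw [norm_mul, Complex.norm_natCast]
    have h1 : ‖IT‖ ≤ 3 * (X.θ ^ 2 * ∫ p, (X.Y p) ^ 2 * min 1 |X.θ * X.Y p| ∂X.Θ) := by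
      rw [← integral_const_mul, ← integral_const_mul]
      refine (norm_integral_le_integral_norm _).trans ?_
      refine integral_mono_of_nonneg (Filter.Eventually.of_forall fun p => norm_nonneg _)
        ((hmin.const_mul (X.θ ^ 2)).const_mul 3) (Filter.Eventually.of_forall fun p => ?_)
      simp only
      rw [norm_mul]
      exact (mul_le_of_le_one_left (norm_nonneg _) (hψρ p)).trans (hTle p)
    calc (X.n : ℝ) * ‖IT‖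
        ≤ (X.n : ℝ) * (3 * (X.θ ^ 2 * ∫ p, (X.Y p) ^ 2 * min 1 |X.θ * X.Y p| ∂X.Θ)) := by gcongr
      _ = 3 * lam ^ 2 * ∫ p, (X.Y p) ^ 2 * min 1 |X.θ * X.Y p| ∂X.Θ := by
          rw [X.θ_sq]
          generalize (∫ p, (X.Y p) ^ 2 * min 1 |X.θ * X.Y p| ∂X.Θ) = V
          field_simp
      _ ≤ 3 * lam ^ 2 * (Da * Real.sqrt X.τ) := by gcongr
  have b1' : ‖(X.n : ℂ) * I1'‖ ≤ Db * Real.sqrt X.τ := by
    rw [norm_mul, Complex.norm_natCast]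
    refine le_trans (mul_le_mul_of_nonneg_left ?_ hn.le) eb
    refine (norm_integral_le_integral_norm _).trans ?_
    refine integral_mono_of_nonneg (Filter.Eventually.of_forall fun p => norm_nonneg _) ?_
      (Filter.Eventually.of_forall fun p => ?_)
    · refine Integrable.mono' hθYi.abs ?_ (Filter.Eventually.of_forall fun p => ?_)
      · exact (((measurable_from_nat (f := fun j : ℕ => 1 - X.ρ ^ (j + 1))).comp
          measurable_fst).mul (X.measurable_Y.const_mul _).abs).aestronglyMeasurable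
      · rw [Real.norm_eq_abs, abs_mul, abs_abs, abs_of_nonneg (hρ1 p)]
        exact mul_le_of_le_one_left (abs_nonneg _) (by linarith [hρ0 p])
    · simp only
      rw [norm_mul, norm_mul, Complex.norm_real, Real.norm_eq_abs]
      have h1 : ‖1 - (X.ρ : ℂ) ^ (p.1 + 1)‖ = 1 - X.ρ ^ (p.1 + 1) := by
        have : 1 - (X.ρ : ℂ) ^ (p.1 + 1) = ((1 - X.ρ ^ (p.1 + 1) : ℝ) : ℂ) := by
          push_cast; ring
        rw [this, Complex.norm_real, Real.norm_eq_abs, abs_of_nonneg (hρ1 p)]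
      rw [h1]
      refine mul_le_mul_of_nonneg_right ?_ (abs_nonneg _)
      exact mul_le_of_le_one_left (hρ1 p) (X.norm_ψ_le _)
  have b1 : ‖(X.n : ℂ) * I1‖ ≤ Dc * Real.sqrt X.τ := by
    rw [norm_mul, Complex.norm_natCast]
    exact ec
  have b2 : ‖((lam ^ 2 / 2 : ℝ) : ℂ) * I2'‖ ≤ lam ^ 2 / 2 * (Dd * Real.sqrt X.τ) := by
    rw [norm_mul, Complex.norm_real, Real.norm_eq_abs, abs_of_nonneg (by positivity)]
    refine mul_le_mul_of_nonneg_left ?_ (by positivity)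
    refine le_trans ?_ ed
    refine (norm_integral_le_integral_norm _).trans ?_
    have hψbm : Measurable (fun p : ℕ × (ℕ → S) =>
        ‖X.ψ (p.2 (p.1 + 1)) - X.b (p.2 (p.1 + 1))‖) := (hψm.sub hbm).norm
    refine integral_mono_of_nonneg (Filter.Eventually.of_forall fun p => norm_nonneg _) ?_
        (Filter.Eventually.of_forall fun p => ?_)
    · refine Integrable.mono' (hY2i.const_mul 3) ?_ (Filter.Eventually.of_forall fun p => ?_)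
      · exact ((((measurable_from_nat (f := fun j : ℕ => 1 - X.ρ ^ (j + 1))).comp
            measurable_fst).add hψbm).mul (X.measurable_Y.pow_const 2)).aestronglyMeasurable
      · have h1 : 0 ≤ (1 - X.ρ ^ (p.1 + 1)) + ‖X.ψ (p.2 (p.1 + 1)) - X.b (p.2 (p.1 + 1))‖ :=
          add_nonneg (hρ1 p) (norm_nonneg _)
        rw [Real.norm_eq_abs, abs_of_nonneg (mul_nonneg h1 (sq_nonneg _))]
        refine mul_le_mul_of_nonneg_right ?_ (sq_nonneg _)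
        have h2 := norm_sub_le (X.ψ (p.2 (p.1 + 1))) (X.b (p.2 (p.1 + 1)))
        have h3 := X.norm_ψ_le (p.2 (p.1 + 1))
        have h4 := X.norm_b_le (p.2 (p.1 + 1))
        have h5 := hρ0 p
        linarith
    · simp only
      rw [norm_mul, Complex.norm_real, Real.norm_eq_abs, abs_of_nonneg (sq_nonneg _)]
      refine mul_le_mul_of_nonneg_right ?_ (sq_nonneg _)
      have h1 : X.ψ (p.2 (p.1 + 1)) * (X.ρ : ℂ) ^ (p.1 + 1) - X.b (p.2 (p.1 + 1))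
          = -(X.ψ (p.2 (p.1 + 1)) * ((1 - X.ρ ^ (p.1 + 1) : ℝ) : ℂ))
            + (X.ψ (p.2 (p.1 + 1)) - X.b (p.2 (p.1 + 1))) := by
        push_cast; ring
      rw [h1]
      refine (norm_add_le _ _).trans ?_
      rw [norm_neg, norm_mul, Complex.norm_real, Real.norm_eq_abs, abs_of_nonneg (hρ1 p)]
      have := mul_le_of_le_one_left (hρ1 p) (X.norm_ψ_le (p.2 (p.1 + 1)))
      linarith
  have htri : ∀ a b c d f : ℂ, ‖-a + b + c + d - f‖ ≤ ‖a‖ + ‖b‖ + ‖c‖ + ‖d‖ + ‖f‖ := by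
    intro a b c d f
    calc ‖-a + b + c + d - f‖ ≤ ‖-a + b + c + d‖ + ‖f‖ := norm_sub_le _ _
      _ ≤ ‖-a + b + c‖ + ‖d‖ + ‖f‖ := by gcongr; exact norm_add_le _ _
      _ ≤ ‖-a + b‖ + ‖c‖ + ‖d‖ + ‖f‖ := by gcongr; exact norm_add_le _ _
      _ ≤ ‖-a‖ + ‖b‖ + ‖c‖ + ‖d‖ + ‖f‖ := by gcongr; exact norm_add_le _ _
      _ = ‖a‖ + ‖b‖ + ‖c‖ + ‖d‖ + ‖f‖ := by rw [norm_neg]
  refine (htri _ _ _ _ _).trans ?_
  have bI : ‖Complex.I * ((X.n : ℂ) * I1 - (X.n : ℂ) * I1')‖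
      ≤ Dc * Real.sqrt X.τ + Db * Real.sqrt X.τ := by
    rw [norm_mul, Complex.norm_I, one_mul]
    exact (norm_sub_le _ _).trans (add_le_add b1 b1')
  calc _ ≤ D1 * Real.sqrt X.τ + D3 * Real.sqrt X.τ + 3 * lam ^ 2 * (Da * Real.sqrt X.τ)
        + (Dc * Real.sqrt X.τ + Db * Real.sqrt X.τ) + lam ^ 2 / 2 * (Dd * Real.sqrt X.τ) := by
        gcongr
    _ = _ := by ring

end Pool.Agent.H45.CLT
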