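import Pool.Agent.H45.CLT.CtxY

/-!
# Module STEPB0: the tested gap equation
`gap_eq` with `φ = e^{iθκ}`; `integral_x = integral_y` for `φ u`; `Y_eq'`.
`bad_ends`: `1_B(x)G*(x)²`: `(1/m)∫_B G*² ≤ ∫_B A`; `1_B(y)κ(y)²` same; mixed: on the other end
off `B` use `≤ K m` and `Θ(y∈B) = ν(B)/m`.
-/

set_option autoImplicit false

open MeasureTheory ProbabilityTheory
open scoped ENNReal NNReal

namespace Pool.Agent.H45.CLT

variable {S : Type} [MeasurableSpace S]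

namespace Ctx

variable {M : Model S} {lam s : ℝ} (X : Ctx M lam s)

/-- `ψ = e^{iθκ} u` -/
noncomputable def ψ (x : S) : ℂ :=
  Complex.exp (((X.θ * X.κ x : ℝ) : ℂ) * Complex.I) * X.u x

/-- `R = (1-ρ) ∑_{j<ℓ} ρ^j e^{iθS_j} w(ξ_j)` -/
noncomputable def R (p : ℕ × (ℕ → S)) : ℂ :=
  ∑ i ∈ Finset.range (p.1 + 1), ((1 - X.ρ : ℝ) : ℂ) * (X.ρ : ℂ) ^ i *
    Complex.exp (((X.θ * ∑ j ∈ Finset.range i, M.f (p.2 j) : ℝ) : ℂ) * Complex.I)
      * X.w (p.2 i)

/-- `E = e^{iθY}` -/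
noncomputable def Ey (p : ℕ × (ℕ → S)) : ℂ :=
  Complex.exp (((X.θ * X.Y p : ℝ) : ℂ) * Complex.I)

theorem measurable_cexp {α : Type*} [MeasurableSpace α] {g : α → ℝ} (hg : Measurable g) :
    Measurable (fun x => Complex.exp (((g x : ℝ) : ℂ) * Complex.I)) :=
  Complex.measurable_exp.comp ((Complex.measurable_ofReal.comp hg).mul_const _)

theorem measurable_ψ : Measurable X.ψ :=
  (measurable_cexp (X.measurable_κ.const_mul _)).mul X.hum

theorem norm_ψ (x : S) : ‖X.ψ x‖ = ‖X.u x‖ := by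
  unfold ψ
  rw [norm_mul, Complex.norm_exp_ofReal_mul_I, one_mul]

theorem norm_ψ_le (x : S) : ‖X.ψ x‖ ≤ 1 := by
  rw [X.norm_ψ]; exact X.hu1 x

theorem measurable_Ey : Measurable X.Ey := measurable_cexp (X.measurable_Y.const_mul _)

theorem norm_Ey (p : ℕ × (ℕ → S)) : ‖X.Ey p‖ = 1 := Complex.norm_exp_ofReal_mul_I _

theorem measurable_R : Measurable X.R := by
  refine measurable_from_prod_countable_right fun j => ?_
  show Measurable fun ξ : ℕ → S => ∑ i ∈ Finset.range (j + 1), ((1 - X.ρ : ℝ) : ℂ) * (X.ρ : ℂ) ^ i *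
    Complex.exp (((X.θ * ∑ j ∈ Finset.range i, M.f (ξ j) : ℝ) : ℂ) * Complex.I)
      * X.w (ξ i)
  refine Finset.measurable_sum _ fun i _ => ?_
  refine Measurable.mul (measurable_const.mul (measurable_cexp ?_))
    (X.hwm.comp (measurable_pi_apply i))
  exact (Finset.measurable_sum _ fun j _ => M.measurable_f.comp (measurable_pi_apply j)).const_mul _

/-- the terms of `R` -/
theorem norm_R_term (p : ℕ × (ℕ → S)) (i : ℕ) :
    ‖((1 - X.ρ : ℝ) : ℂ) * (X.ρ : ℂ) ^ i *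
    Complex.exp (((X.θ * ∑ j ∈ Finset.range i, M.f (p.2 j) : ℝ) : ℂ) * Complex.I)
      * X.w (p.2 i)‖ ≤ (1 - X.ρ) * X.ρ ^ i := by
  have h0 := X.ρ_nonneg
  have h1 := X.ρ_le_one
  rw [norm_mul, norm_mul, norm_mul, Complex.norm_exp_ofReal_mul_I, norm_pow, Complex.norm_real,
    Complex.norm_real, Real.norm_eq_abs, Real.norm_eq_abs, abs_of_nonneg h0,
    abs_of_nonneg (by linarith), mul_one]
  exact mul_le_of_le_one_right (mul_nonneg (by linarith) (pow_nonneg h0 _)) (X.hw1 _)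

theorem norm_R_le (p : ℕ × (ℕ → S)) : ‖X.R p‖ ≤ 1 := by
  have h0 := X.ρ_nonneg
  have h1 := X.ρ_le_one
  unfold R
  refine (norm_sum_le _ _).trans ((Finset.sum_le_sum fun i _ => X.norm_R_term p i).trans ?_)
  rw [← Finset.mul_sum]
  have h := mul_neg_geom_sum X.ρ (p.1 + 1)
  rw [h]
  have := pow_nonneg h0 (p.1 + 1)
  linarith

theorem measurable_ρpow : Measurable (fun p : ℕ × (ℕ → S) => (X.ρ : ℂ) ^ (p.1 + 1)) :=
  (measurable_from_nat (f := fun j : ℕ => (X.ρ : ℂ) ^ (j + 1))).comp measurable_fst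

theorem norm_ρpow_le (j : ℕ) : ‖(X.ρ : ℂ) ^ j‖ ≤ 1 := by
  rw [norm_pow, Complex.norm_real, Real.norm_eq_abs, abs_of_nonneg X.ρ_nonneg]
  exact pow_le_one₀ X.ρ_nonneg X.ρ_le_one

/-- bounded measurable functions are integrable -/
theorem integrable_bdd {F : ℕ × (ℕ → S) → ℂ} (hF : Measurable F) (D : ℝ) (hD : ∀ p, ‖F p‖ ≤ D) :
    Integrable F X.Θ :=
  Integrable.of_bound hF.aestronglyMeasurable D (Filter.Eventually.of_forall hD)

/-- (B0) the gap equation tested with `c e^{iθκ}` -/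
theorem B0 :
    ∫ p, X.ψ (p.2 (p.1 + 1)) * (1 - (X.ρ : ℂ) ^ (p.1 + 1) * X.Ey p) ∂X.Θ
      = ∫ p, Complex.exp (((X.θ * X.κ (p.2 0) : ℝ) : ℂ) * Complex.I) * X.R p ∂X.Θ := by
  set φ : S → ℂ := fun x => Complex.exp (((X.θ * X.κ x : ℝ) : ℂ) * Complex.I) with hφdef
  have hφm : Measurable φ := measurable_cexp (X.measurable_κ.const_mul _)
  have hφ1 : ∀ x, ‖φ x‖ ≤ 1 := fun x => (Complex.norm_exp_ofReal_mul_I _).le
  have hgap := M.toChain.gap_eq X.k X.ρ X.θ X.ρ_nonneg X.ρ_le_one M.f M.measurable_f X.w X.u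
    X.hwm X.hum X.hw1 X.hu1 X.hres φ hφm hφ1
  have hm0 : Measurable (fun p : ℕ × (ℕ → S) => p.2 0) :=
    (measurable_pi_apply 0).comp measurable_snd
  -- left side
  have hL : ∫ p, φ (p.2 0) * X.u (p.2 0) ∂X.Θ = ∫ p, X.ψ (p.2 (p.1 + 1)) ∂X.Θ := by
    have h1 := M.toChain.integral_x X.k X.ψ X.measurable_ψ.aestronglyMeasurable
    have h2 := M.toChain.integral_y X.k X.ψ X.measurable_ψ.aestronglyMeasurable
    exact h1.trans h2.symm
  -- right side
  have hR : ∀ p : ℕ × (ℕ → S), φ (p.2 0) *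
          ((∑ i ∈ Finset.range (p.1 + 1), ((1 - X.ρ : ℝ) : ℂ) * (X.ρ : ℂ) ^ i *
              Complex.exp (((X.θ * ∑ j ∈ Finset.range i, M.f (p.2 j) : ℝ) : ℂ) * Complex.I)
                * X.w (p.2 i))
            + (X.ρ : ℂ) ^ (p.1 + 1) *
              Complex.exp (((X.θ * ∑ j ∈ Finset.range (p.1 + 1), M.f (p.2 j) : ℝ) : ℂ) * Complex.I)
                * X.u (p.2 (p.1 + 1)))
      = φ (p.2 0) * X.R p + X.ψ (p.2 (p.1 + 1)) * ((X.ρ : ℂ) ^ (p.1 + 1) * X.Ey p) := by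
    intro p
    have h1 : φ (p.2 0) * Complex.exp
        (((X.θ * ∑ j ∈ Finset.range (p.1 + 1), M.f (p.2 j) : ℝ) : ℂ) * Complex.I)
        = Complex.exp (((X.θ * X.κ (p.2 (p.1 + 1)) : ℝ) : ℂ) * Complex.I) * X.Ey p := by
      rw [hφdef]
      unfold Ey
      rw [← Complex.exp_add, ← Complex.exp_add, X.Y_eq']
      congr 1
      unfold Model.Sl
      push_cast
      ring
    rw [mul_add]
    congr 1
    unfold ψ
    linear_combination ((X.ρ : ℂ) ^ (p.1 + 1) * X.u (p.2 (p.1 + 1))) * h1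
  have i1 : Integrable (fun p : ℕ × (ℕ → S) => φ (p.2 0) * X.R p) X.Θ := by
    refine X.integrable_bdd ((hφm.comp hm0).mul X.measurable_R) 1 fun p => ?_
    rw [norm_mul]
    exact mul_le_one₀ (hφ1 _) (norm_nonneg _) (X.norm_R_le p)
  have i2 : Integrable (fun p : ℕ × (ℕ → S) => X.ψ (p.2 (p.1 + 1))
      * ((X.ρ : ℂ) ^ (p.1 + 1) * X.Ey p)) X.Θ := by
    refine X.integrable_bdd ((X.measurable_ψ.comp measurable_y).mul
      (X.measurable_ρpow.mul X.measurable_Ey)) 1 fun p => ?_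
    rw [norm_mul, norm_mul, X.norm_Ey, mul_one]
    exact mul_le_one₀ (X.norm_ψ_le _) (norm_nonneg _) (X.norm_ρpow_le _)
  have i3 : Integrable (fun p : ℕ × (ℕ → S) => X.ψ (p.2 (p.1 + 1))) X.Θ :=
    X.integrable_bdd (X.measurable_ψ.comp measurable_y) 1 fun p => X.norm_ψ_le _
  have hgap' : ∫ p, φ (p.2 0) * X.u (p.2 0) ∂X.Θ
      = ∫ p, (φ (p.2 0) * X.R p + X.ψ (p.2 (p.1 + 1)) * ((X.ρ : ℂ) ^ (p.1 + 1) * X.Ey p)) ∂X.Θ := by
    rw [← integral_congr_ae (Filter.Eventually.of_forall hR)]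
    exact hgap
  rw [hL, integral_add i1 i2] at hgap'
  have hsub : ∫ p, X.ψ (p.2 (p.1 + 1)) * (1 - (X.ρ : ℂ) ^ (p.1 + 1) * X.Ey p) ∂X.Θ
      = ∫ p, X.ψ (p.2 (p.1 + 1)) ∂X.Θ
        - ∫ p, X.ψ (p.2 (p.1 + 1)) * ((X.ρ : ℂ) ^ (p.1 + 1) * X.Ey p) ∂X.Θ := by
    rw [← integral_sub i3 i2]
    refine integral_congr_ae (Filter.Eventually.of_forall fun p => ?_)
    simp only
    ring
  rw [hsub, hgap']
  ring

/-- integrals of functions of the start point, supported in `B` -/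
theorem int_x_B (φ : S → ℝ) (hφ : Measurable φ) :
    ∫ p, (M.B X.K).indicator φ (p.2 0) ∂X.Θ = X.m⁻¹ * ∫ x in M.B X.K, φ x ∂M.ν := by
  have h := M.toChain.integral_x X.k ((M.B X.K).indicator φ)
    (hφ.indicator (M.measurableSet_B _)).aestronglyMeasurable
  have h2 : ∫ p, (M.B X.K).indicator φ (p.2 0) ∂X.Θ
    = ∫ x, (1 - X.k.χ x) • (M.B X.K).indicator φ x ∂M.ν := h
  rw [h2, ← integral_const_mul, ← integral_indicator (M.measurableSet_B _)]
  refine integral_congr_ae (Filter.Eventually.of_forall fun x => ?_)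
  by_cases hx : x ∈ M.B X.K
  · simp only [Set.indicator_of_mem hx, smul_eq_mul, X.one_sub_χ_mem hx]
  · simp only [Set.indicator_of_notMem hx, smul_eq_mul, mul_zero]

theorem int_y_B (φ : S → ℝ) (hφ : Measurable φ) :
    ∫ p, (M.B X.K).indicator φ (p.2 (p.1 + 1)) ∂X.Θ = X.m⁻¹ * ∫ x in M.B X.K, φ x ∂M.ν := by
  have h := M.toChain.integral_y X.k ((M.B X.K).indicator φ)
    (hφ.indicator (M.measurableSet_B _)).aestronglyMeasurable
  have h2 : ∫ p, (M.B X.K).indicator φ (p.2 (p.1 + 1)) ∂X.Θ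
    = ∫ x, (1 - X.k.χ x) • (M.B X.K).indicator φ x ∂M.ν := h
  rw [h2, ← integral_const_mul, ← integral_indicator (M.measurableSet_B _)]
  refine integral_congr_ae (Filter.Eventually.of_forall fun x => ?_)
  by_cases hx : x ∈ M.B X.K
  · simp only [Set.indicator_of_mem hx, smul_eq_mul, X.one_sub_χ_mem hx]
  · simp only [Set.indicator_of_notMem hx, smul_eq_mul, mul_zero]

/-- `m⁻¹ ∫_B φ ≤ δ` if `φ ≤ m A` -/
theorem inv_m_int_le (φ : S → ℝ) (hφi : Integrable φ M.ν)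
    (hφ : ∀ x, φ x ≤ X.m * (M.A x + M.C x)) : X.m⁻¹ * ∫ x in M.B X.K, φ x ∂M.ν ≤ M.δ X.K := by
  have hm := X.m_pos
  have h : ∫ x in M.B X.K, φ x ∂M.ν ≤ X.m * M.δ X.K := by
    unfold Model.δ
    rw [← integral_const_mul]
    exact setIntegral_mono_on hφi.integrableOn (M.integrable_AC.integrableOn.const_mul _)
      (M.measurableSet_B _) fun x _ => hφ x
  calc X.m⁻¹ * ∫ x in M.B X.K, φ x ∂M.ν ≤ X.m⁻¹ * (X.m * M.δ X.K) := by gcongr
    _ = M.δ X.K := by field_simp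

theorem int_Gs_B : ∫ p, (M.B X.K).indicator (fun x => (M.Gs X.r x) ^ 2) (p.2 0) ∂X.Θ
    ≤ M.δ X.K := by
  rw [X.int_x_B _ ((M.measurable_Gs X.r X.r_nonneg X.r_lt_one).pow_const 2)]
  refine X.inv_m_int_le _ (M.memLp_Gs X.r X.r_nonneg X.r_lt_one).integrable_sq fun x => ?_
  refine (X.Gs_sq_le x).trans (mul_le_mul_of_nonneg_left ?_ X.m_pos.le)
  linarith [M.C_nonneg x]

theorem int_κ_B : ∫ p, (M.B X.K).indicator (fun x => (X.κ x) ^ 2) (p.2 (p.1 + 1)) ∂X.Θ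
    ≤ M.δ X.K := by
  rw [X.int_y_B _ (X.measurable_κ.pow_const 2)]
  refine X.inv_m_int_le _ X.memLp_κ.integrable_sq fun x => ?_
  refine (X.κ_sq_le x).trans (mul_le_mul_of_nonneg_left ?_ X.m_pos.le)
  linarith [M.C_nonneg x]

/-- `∫ (1_B(x)+1_B(y)) (G*(x)² + κ(y)²) dΘ ≤ 6 τ` -/
theorem bad_ends :
    ∫ p, ((M.B X.K).indicator (fun _ => (1 : ℝ)) (p.2 0)
        + (M.B X.K).indicator (fun _ => (1 : ℝ)) (p.2 (p.1 + 1)))
      * ((M.Gs X.r (p.2 0)) ^ 2 + (X.κ (p.2 (p.1 + 1))) ^ 2) ∂X.Θ ≤ 6 * X.τ := by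
  have hB := M.measurableSet_B X.K
  have hGm := (M.measurable_Gs X.r X.r_nonneg X.r_lt_one).pow_const 2
  have hκm := X.measurable_κ.pow_const 2
  have hGi := (M.memLp_Gs X.r X.r_nonneg X.r_lt_one).integrable_sq
  have hκi := X.memLp_κ.integrable_sq
  have hG1 : Integrable ((M.B X.K).indicator (fun x => (M.Gs X.r x) ^ 2)) M.ν := hGi.indicator hB
  have hκ1 : Integrable ((M.B X.K).indicator (fun x => (X.κ x) ^ 2)) M.ν := hκi.indicator hB
  have h11 : Integrable ((M.B X.K).indicator (fun _ => X.m * X.K)) M.ν :=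
    (integrable_const _).indicator hB
  have iG : Integrable (fun p : ℕ × (ℕ → S) =>
      (M.B X.K).indicator (fun x => (M.Gs X.r x) ^ 2) (p.2 0)) X.Θ :=
    memLp_one_iff_integrable.1 (M.toChain.memLp_x X.k 1 _ (memLp_one_iff_integrable.2 hG1))
  have iκ : Integrable (fun p : ℕ × (ℕ → S) =>
      (M.B X.K).indicator (fun x => (X.κ x) ^ 2) (p.2 (p.1 + 1))) X.Θ :=
    memLp_one_iff_integrable.1 (M.toChain.memLp_y X.k 1 _ (memLp_one_iff_integrable.2 hκ1))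
  have i1 : Integrable (fun p : ℕ × (ℕ → S) =>
      (M.B X.K).indicator (fun _ => X.m * X.K) (p.2 0)) X.Θ :=
    memLp_one_iff_integrable.1 (M.toChain.memLp_x X.k 1 _ (memLp_one_iff_integrable.2 h11))
  have i2 : Integrable (fun p : ℕ × (ℕ → S) =>
      (M.B X.K).indicator (fun _ => X.m * X.K) (p.2 (p.1 + 1))) X.Θ :=
    memLp_one_iff_integrable.1 (M.toChain.memLp_y X.k 1 _ (memLp_one_iff_integrable.2 h11))
  have hmK : 0 ≤ X.m * X.K := by
    have := X.hK; have := X.m_pos; positivity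
  have hpt : ∀ p : ℕ × (ℕ → S), ((M.B X.K).indicator (fun _ => (1 : ℝ)) (p.2 0)
        + (M.B X.K).indicator (fun _ => (1 : ℝ)) (p.2 (p.1 + 1)))
      * ((M.Gs X.r (p.2 0)) ^ 2 + (X.κ (p.2 (p.1 + 1))) ^ 2)
      ≤ (2 * (M.B X.K).indicator (fun x => (M.Gs X.r x) ^ 2) (p.2 0)
        + 2 * (M.B X.K).indicator (fun x => (X.κ x) ^ 2) (p.2 (p.1 + 1)))
        + ((M.B X.K).indicator (fun _ => X.m * X.K) (p.2 0)
        + (M.B X.K).indicator (fun _ => X.m * X.K) (p.2 (p.1 + 1))) := by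
    intro p
    have hgle : ∀ x, x ∉ M.B X.K → (M.Gs X.r x) ^ 2 ≤ X.m * X.K := fun x hx =>
      (X.Gs_sq_le x).trans (mul_le_mul_of_nonneg_left (X.A_le hx) X.m_pos.le)
    have hκle : ∀ x, x ∉ M.B X.K → (X.κ x) ^ 2 ≤ X.m * X.K := fun x hx =>
      (X.κ_sq_le x).trans (mul_le_mul_of_nonneg_left (X.A_le hx) X.m_pos.le)
    have g0 := sq_nonneg (M.Gs X.r (p.2 0))
    have k0 := sq_nonneg (X.κ (p.2 (p.1 + 1)))
    by_cases hx : p.2 0 ∈ M.B X.K
    · by_cases hy : p.2 (p.1 + 1) ∈ M.B X.K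
      · simp only [Set.indicator_of_mem hx, Set.indicator_of_mem hy]
        linarith
      · simp only [Set.indicator_of_mem hx, Set.indicator_of_notMem hy]
        have := hκle _ hy
        linarith
    · by_cases hy : p.2 (p.1 + 1) ∈ M.B X.K
      · simp only [Set.indicator_of_notMem hx, Set.indicator_of_mem hy]
        have := hgle _ hx
        linarith
      · simp only [Set.indicator_of_notMem hx, Set.indicator_of_notMem hy]
        simp
  have hnn : ∀ p : ℕ × (ℕ → S), 0 ≤ ((M.B X.K).indicator (fun _ => (1 : ℝ)) (p.2 0)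
        + (M.B X.K).indicator (fun _ => (1 : ℝ)) (p.2 (p.1 + 1)))
      * ((M.Gs X.r (p.2 0)) ^ 2 + (X.κ (p.2 (p.1 + 1))) ^ 2) := by
    intro p
    refine mul_nonneg (add_nonneg ?_ ?_) (by positivity)
    · exact Set.indicator_nonneg (fun _ _ => zero_le_one) _
    · exact Set.indicator_nonneg (fun _ _ => zero_le_one) _
  refine (integral_mono_of_nonneg (Filter.Eventually.of_forall hnn)
    (((iG.const_mul 2).add (iκ.const_mul 2)).add (i1.add i2))
    (Filter.Eventually.of_forall hpt)).trans ?_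
  have e1 : ∫ p, ((2 * (M.B X.K).indicator (fun x => (M.Gs X.r x) ^ 2) (p.2 0)
        + 2 * (M.B X.K).indicator (fun x => (X.κ x) ^ 2) (p.2 (p.1 + 1)))
        + ((M.B X.K).indicator (fun _ => X.m * X.K) (p.2 0)
        + (M.B X.K).indicator (fun _ => X.m * X.K) (p.2 (p.1 + 1)))) ∂X.Θ
      = (2 * ∫ p, (M.B X.K).indicator (fun x => (M.Gs X.r x) ^ 2) (p.2 0) ∂X.Θ
        + 2 * ∫ p, (M.B X.K).indicator (fun x => (X.κ x) ^ 2) (p.2 (p.1 + 1)) ∂X.Θ)
        + (∫ p, (M.B X.K).indicator (fun _ => X.m * X.K) (p.2 0) ∂X.Θ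
        + ∫ p, (M.B X.K).indicator (fun _ => X.m * X.K) (p.2 (p.1 + 1)) ∂X.Θ) := by
    have j1 : Integrable (fun p : ℕ × (ℕ → S) =>
        2 * (M.B X.K).indicator (fun x => (M.Gs X.r x) ^ 2) (p.2 0)
        + 2 * (M.B X.K).indicator (fun x => (X.κ x) ^ 2) (p.2 (p.1 + 1))) X.Θ :=
      (iG.const_mul 2).add (iκ.const_mul 2)
    have j2 : Integrable (fun p : ℕ × (ℕ → S) =>
        (M.B X.K).indicator (fun _ => X.m * X.K) (p.2 0)
        + (M.B X.K).indicator (fun _ => X.m * X.K) (p.2 (p.1 + 1))) X.Θ := i1.add i2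
    rw [integral_add j1 j2,
      integral_add (iG.const_mul 2) (iκ.const_mul 2), integral_add i1 i2, integral_const_mul,
      integral_const_mul]
  refine (le_of_eq e1).trans ?_
  rw [X.int_x_B (fun _ => X.m * X.K) measurable_const,
    X.int_y_B (fun _ => X.m * X.K) measurable_const]
  have h1 := X.int_Gs_B
  have h2 := X.int_κ_B
  have h3 : X.m⁻¹ * ∫ _x in M.B X.K, X.m * X.K ∂M.ν ≤ M.δ X.K := by
    rw [setIntegral_const, smul_eq_mul]
    have h4 := M.K_mul_le X.K (by linarith [X.hK])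
    have h5 := X.m_pos
    calc X.m⁻¹ * (M.ν.real (M.B X.K) * (X.m * X.K)) = X.K * M.ν.real (M.B X.K) := by field_simp
      _ ≤ M.δ X.K := h4
  have h6 := X.hδ
  linarith

end Ctx

end Pool.Agent.H45.CLT
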