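import Pool.Agent.H45.CLT.StepB0

/-!
# Module STEPB1: zeroth order terms
`(1-ρ) ≤ 1-ρ^ℓ ≤ (1-ρ) ℓ`, `E_Θ(ℓ-1) ≤ ν(B) ≤ τ`; `|∫(1-χ)ψ - ∫u| ≤ 3ν(B) + |lam|√τ`.
-/

set_option autoImplicit false

open MeasureTheory ProbabilityTheory
open scoped ENNReal NNReal

namespace Pool.Agent.H45.CLT

variable {S : Type} [MeasurableSpace S]

namespace Ctx

variable {M : Model S} {lam s : ℝ} (X : Ctx M lam s)

theorem τ_le_sqrt : X.τ ≤ Real.sqrt X.τ := by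
  have h0 := X.τ_nonneg
  have h1 := X.hτ1
  apply Real.le_sqrt_of_sq_le
  nlinarith

theorem one_sub_ρ : 1 - X.ρ = s / X.n := by
  unfold ρ; ring

/-- `1 - ρ^{j+1} ≤ (1-ρ) (j+1)` -/
theorem one_sub_pow_le (j : ℕ) : 1 - X.ρ ^ (j + 1) ≤ (1 - X.ρ) * ((j : ℝ) + 1) := by
  have h := mul_neg_geom_sum X.ρ (j + 1)
  rw [← h]
  have h1 := X.ρ_le_one
  have h0 := X.ρ_nonneg
  refine mul_le_mul_of_nonneg_left ?_ (by linarith)
  calc ∑ i ∈ Finset.range (j + 1), X.ρ ^ i ≤ ∑ _i ∈ Finset.range (j + 1), (1 : ℝ) :=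
        Finset.sum_le_sum fun i _ => pow_le_one₀ h0 h1
    _ = (j : ℝ) + 1 := by simp

theorem le_one_sub_pow (j : ℕ) : 1 - X.ρ ≤ 1 - X.ρ ^ (j + 1) := by
  have h1 := X.ρ_le_one
  have h0 := X.ρ_nonneg
  have h2 : X.ρ ^ (j + 1) ≤ X.ρ := pow_le_of_le_one h0 h1 (Nat.succ_ne_zero j)
  linarith

theorem one_sub_pow_nonneg (j : ℕ) : 0 ≤ 1 - X.ρ ^ (j + 1) :=
  le_trans (by linarith [X.ρ_le_one]) (X.le_one_sub_pow j)

/-- replacing the weighted integral of a unimodular perturbation `e^{iθκ} v` by `∫ v` -/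
theorem int_replace (v : S → ℂ) (hv : Measurable v) (hv1 : ∀ x, ‖v x‖ ≤ 1) :
    ‖(∫ x, (1 - X.k.χ x) • (Complex.exp (((X.θ * X.κ x : ℝ) : ℂ) * Complex.I) * v x) ∂M.ν)
      - ∫ x, v x ∂M.ν‖ ≤ (3 + |lam|) * Real.sqrt X.τ := by
  have hφm : Measurable (fun x => Complex.exp (((X.θ * X.κ x : ℝ) : ℂ) * Complex.I)) :=
    measurable_cexp (X.measurable_κ.const_mul _)
  have hvi : Integrable v M.ν := Integrable.of_bound hv.aestronglyMeasurable 1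
    (Filter.Eventually.of_forall hv1)
  have hpt : ∀ x, ‖(1 - X.k.χ x) • (Complex.exp (((X.θ * X.κ x : ℝ) : ℂ) * Complex.I) * v x)
      - v x‖ ≤ |lam| * Real.sqrt X.τ + (M.B X.K).indicator (fun _ => (2 : ℝ)) x := by
    intro x
    by_cases hx : x ∈ M.B X.K
    · rw [Set.indicator_of_mem hx]
      have h1 : ‖(1 - X.k.χ x) • (Complex.exp (((X.θ * X.κ x : ℝ) : ℂ) * Complex.I) * v x)‖
          ≤ 1 := by
        rw [norm_smul, norm_mul, Complex.norm_exp_ofReal_mul_I, one_mul, Real.norm_eq_abs,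
          abs_of_nonneg (X.one_sub_χ_nonneg x)]
        exact mul_le_one₀ (X.one_sub_χ_le x) (norm_nonneg _) (hv1 x)
      have h2 := norm_sub_le ((1 - X.k.χ x) •
        (Complex.exp (((X.θ * X.κ x : ℝ) : ℂ) * Complex.I) * v x)) (v x)
      have h3 := hv1 x
      have h4 : 0 ≤ |lam| * Real.sqrt X.τ := by positivity
      linarith
    · rw [Set.indicator_of_notMem hx, X.one_sub_χ_notMem hx, one_smul, add_zero]
      have h1 : Complex.exp (((X.θ * X.κ x : ℝ) : ℂ) * Complex.I) * v x - v x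
          = (Complex.exp (((X.θ * X.κ x : ℝ) : ℂ) * Complex.I) - 1) * v x := by ring
      rw [h1, norm_mul]
      have h2 : ‖Complex.exp (((X.θ * X.κ x : ℝ) : ℂ) * Complex.I) - 1‖ ≤ |X.θ * X.κ x| := by
        have := Real.norm_exp_I_mul_ofReal_sub_one_le (x := X.θ * X.κ x)
        rw [mul_comm] at this
        simpa using this
      calc _ ≤ |X.θ * X.κ x| * 1 := by
            gcongr
            exact hv1 x
        _ ≤ |lam| * Real.sqrt X.τ := by rw [mul_one]; exact X.θκ_le hx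
  have hi1 : Integrable (fun x => (1 - X.k.χ x) •
      (Complex.exp (((X.θ * X.κ x : ℝ) : ℂ) * Complex.I) * v x)) M.ν := by
    refine Integrable.of_bound ((measurable_const.sub X.k.hm).smul
      (hφm.mul hv)).aestronglyMeasurable 1 (Filter.Eventually.of_forall fun x => ?_)
    rw [norm_smul, norm_mul, Complex.norm_exp_ofReal_mul_I, one_mul, Real.norm_eq_abs,
      abs_of_nonneg (X.one_sub_χ_nonneg x)]
    exact mul_le_one₀ (X.one_sub_χ_le x) (norm_nonneg _) (hv1 x)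
  rw [← integral_sub hi1 hvi]
  refine (norm_integral_le_integral_norm _).trans ?_
  have hi2 : Integrable (fun x => |lam| * Real.sqrt X.τ
      + (M.B X.K).indicator (fun _ => (2 : ℝ)) x) M.ν :=
    (integrable_const _).add ((integrable_const _).indicator (M.measurableSet_B _))
  refine (integral_mono_of_nonneg (Filter.Eventually.of_forall fun x => norm_nonneg _) hi2
    (Filter.Eventually.of_forall hpt)).trans ?_
  rw [integral_add (integrable_const _) ((integrable_const _).indicator (M.measurableSet_B _)),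
    integral_indicator (M.measurableSet_B _), setIntegral_const]
  simp only [integral_const, probReal_univ, smul_eq_mul, one_mul]
  have h1 : M.ν.real (M.B X.K) ≤ X.τ := X.νB_le
  have h2 := X.τ_le_sqrt
  have h3 : 0 ≤ X.τ := X.τ_nonneg
  nlinarith

end Ctx

/-- (B1) -/
theorem Ctx.B1 (M : Model S) (lam s : ℝ) :
    ∃ D : ℝ, 0 < D ∧ ∀ X : Ctx M lam s,
      ‖(X.n : ℂ) * ∫ p, X.ψ (p.2 (p.1 + 1)) * (1 - (X.ρ : ℂ) ^ (p.1 + 1)) ∂X.Θ
        - (s : ℂ) * ∫ x, X.u x ∂M.ν‖ ≤ D * Real.sqrt X.τ := by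
  refine ⟨|s| * (4 + |lam|) + 1, by positivity, fun X => ?_⟩
  have hs := X.hs
  have hn := X.n_pos
  rw [abs_of_pos hs]
  -- decomposition `1 - ρ^ℓ = (1-ρ) + rest`
  have i1 : Integrable (fun p : ℕ × (ℕ → S) => X.ψ (p.2 (p.1 + 1)) * ((1 - X.ρ : ℝ) : ℂ)) X.Θ := by
    refine X.integrable_bdd ((X.measurable_ψ.comp measurable_y).mul_const _) 1 fun p => ?_
    rw [norm_mul, Complex.norm_real, Real.norm_eq_abs,
      abs_of_nonneg (by linarith [X.ρ_le_one])]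
    exact mul_le_one₀ (X.norm_ψ_le _) (by linarith [X.ρ_le_one]) (by linarith [X.ρ_nonneg])
  have i2 : Integrable (fun p : ℕ × (ℕ → S) => X.ψ (p.2 (p.1 + 1))
      * ((X.ρ : ℂ) - (X.ρ : ℂ) ^ (p.1 + 1))) X.Θ := by
    refine X.integrable_bdd ((X.measurable_ψ.comp measurable_y).mul
      (measurable_const.sub X.measurable_ρpow)) 2 fun p => ?_
    rw [norm_mul]
    have h1 : ‖(X.ρ : ℂ) - (X.ρ : ℂ) ^ (p.1 + 1)‖ ≤ 2 := by
      refine (norm_sub_le _ _).trans ?_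
      have := X.norm_ρpow_le (p.1 + 1)
      have h2 := X.norm_ρpow_le 1
      rw [pow_one] at h2
      linarith
    calc ‖X.ψ (p.2 (p.1 + 1))‖ * ‖(X.ρ : ℂ) - (X.ρ : ℂ) ^ (p.1 + 1)‖ ≤ 1 * 2 :=
          mul_le_mul (X.norm_ψ_le _) h1 (norm_nonneg _) zero_le_one
      _ = 2 := one_mul _
  have hsplit : ∫ p, X.ψ (p.2 (p.1 + 1)) * (1 - (X.ρ : ℂ) ^ (p.1 + 1)) ∂X.Θ
      = ((1 - X.ρ : ℝ) : ℂ) * ∫ p, X.ψ (p.2 (p.1 + 1)) ∂X.Θ
        + ∫ p, X.ψ (p.2 (p.1 + 1)) * ((X.ρ : ℂ) - (X.ρ : ℂ) ^ (p.1 + 1)) ∂X.Θ := by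
    have h1 : ∫ p, X.ψ (p.2 (p.1 + 1)) * ((1 - X.ρ : ℝ) : ℂ) ∂X.Θ
        = ((1 - X.ρ : ℝ) : ℂ) * ∫ p, X.ψ (p.2 (p.1 + 1)) ∂X.Θ := by
      rw [integral_mul_const, mul_comm]
    rw [← h1, ← integral_add i1 i2]
    refine integral_congr_ae (Filter.Eventually.of_forall fun p => ?_)
    simp only
    push_cast
    ring
  have hrest : ‖∫ p, X.ψ (p.2 (p.1 + 1)) * ((X.ρ : ℂ) - (X.ρ : ℂ) ^ (p.1 + 1)) ∂X.Θ‖
      ≤ (1 - X.ρ) * X.τ := by
    refine (norm_integral_le_integral_norm _).trans ?_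
    have hpt : ∀ p : ℕ × (ℕ → S), ‖X.ψ (p.2 (p.1 + 1)) * ((X.ρ : ℂ) - (X.ρ : ℂ) ^ (p.1 + 1))‖
        ≤ (1 - X.ρ) * (p.1 : ℝ) := by
      intro p
      rw [norm_mul]
      have h1 : ‖(X.ρ : ℂ) - (X.ρ : ℂ) ^ (p.1 + 1)‖ = X.ρ - X.ρ ^ (p.1 + 1) := by
        have : (X.ρ : ℂ) - (X.ρ : ℂ) ^ (p.1 + 1) = ((X.ρ - X.ρ ^ (p.1 + 1) : ℝ) : ℂ) := by
          push_cast; ring
        rw [this, Complex.norm_real, Real.norm_eq_abs, abs_of_nonneg]
        have := X.le_one_sub_pow p.1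
        linarith
      rw [h1]
      have h2 := X.one_sub_pow_le p.1
      have h3 := X.le_one_sub_pow p.1
      calc _ ≤ 1 * (X.ρ - X.ρ ^ (p.1 + 1)) := by
            gcongr
            · linarith
            · exact X.norm_ψ_le _
        _ ≤ (1 - X.ρ) * (p.1 : ℝ) := by linarith
    refine (integral_mono_of_nonneg (Filter.Eventually.of_forall fun x => norm_nonneg _)
      (X.integrable_len.const_mul _) (Filter.Eventually.of_forall hpt)).trans ?_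
    rw [integral_const_mul]
    exact mul_le_mul_of_nonneg_left X.len_le (by linarith [X.ρ_le_one])
  have hψ : ∫ p, X.ψ (p.2 (p.1 + 1)) ∂X.Θ = ∫ x, (1 - X.k.χ x) • X.ψ x ∂M.ν :=
    M.toChain.integral_y X.k X.ψ X.measurable_ψ.aestronglyMeasurable
  have hrep := X.int_replace X.u X.hum X.hu1
  have hrep' : ‖∫ x, (1 - X.k.χ x) • X.ψ x ∂M.ν - ∫ x, X.u x ∂M.ν‖
      ≤ (3 + |lam|) * Real.sqrt X.τ := hrep
  rw [hsplit, hψ, X.one_sub_ρ]
  have hid : (X.n : ℂ) * (((s / X.n : ℝ) : ℂ) * ∫ x, (1 - X.k.χ x) • X.ψ x ∂M.ν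
        + ∫ p, X.ψ (p.2 (p.1 + 1)) * ((X.ρ : ℂ) - (X.ρ : ℂ) ^ (p.1 + 1)) ∂X.Θ)
        - (s : ℂ) * ∫ x, X.u x ∂M.ν
      = (s : ℂ) * (∫ x, (1 - X.k.χ x) • X.ψ x ∂M.ν - ∫ x, X.u x ∂M.ν)
        + (X.n : ℂ) * ∫ p, X.ψ (p.2 (p.1 + 1)) * ((X.ρ : ℂ) - (X.ρ : ℂ) ^ (p.1 + 1)) ∂X.Θ := by
    have hn' : (X.n : ℂ) ≠ 0 := by exact_mod_cast hn.ne'
    push_cast
    field_simp
    ring
  rw [hid]
  refine (norm_add_le _ _).trans ?_
  rw [norm_mul, norm_mul, Complex.norm_real, Real.norm_eq_abs, abs_of_pos hs, Complex.norm_natCast]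
  have h5 : (X.n : ℝ) * ‖∫ p, X.ψ (p.2 (p.1 + 1)) * ((X.ρ : ℂ) - (X.ρ : ℂ) ^ (p.1 + 1)) ∂X.Θ‖
      ≤ s * Real.sqrt X.τ := by
    calc _ ≤ (X.n : ℝ) * ((1 - X.ρ) * X.τ) := by gcongr
      _ = s * X.τ := by rw [X.one_sub_ρ]; field_simp
      _ ≤ s * Real.sqrt X.τ := by
          gcongr
          exact X.τ_le_sqrt
  have h6 : s * ‖∫ x, (1 - X.k.χ x) • X.ψ x ∂M.ν - ∫ x, X.u x ∂M.ν‖
      ≤ s * ((3 + |lam|) * Real.sqrt X.τ) := by gcongr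
  have h7 := Real.sqrt_nonneg X.τ
  nlinarith

/-- (B3) -/
theorem Ctx.B3 (M : Model S) (lam s : ℝ) :
    ∃ D : ℝ, 0 < D ∧ ∀ X : Ctx M lam s,
      ‖(X.n : ℂ) * ∫ p, Complex.exp (((X.θ * X.κ (p.2 0) : ℝ) : ℂ) * Complex.I) * X.R p ∂X.Θ
        - (s : ℂ) * ∫ x, X.w x ∂M.ν‖ ≤ D * Real.sqrt X.τ := by
  refine ⟨|s| * (4 + |lam|) + 1, by positivity, fun X => ?_⟩
  have hs := X.hs
  have hn := X.n_pos
  rw [abs_of_pos hs]
  set φ : S → ℂ := fun x => Complex.exp (((X.θ * X.κ x : ℝ) : ℂ) * Complex.I) with hφdef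
  have hφm : Measurable φ := measurable_cexp (X.measurable_κ.const_mul _)
  have hφ1 : ∀ x, ‖φ x‖ ≤ 1 := fun x => (Complex.norm_exp_ofReal_mul_I _).le
  have hm0 : Measurable (fun p : ℕ × (ℕ → S) => p.2 0) :=
    (measurable_pi_apply 0).comp measurable_snd
  -- `R = (1-ρ) w(x) + rest`
  have hR0 : ∀ p : ℕ × (ℕ → S), ‖X.R p - ((1 - X.ρ : ℝ) : ℂ) * X.w (p.2 0)‖
      ≤ (1 - X.ρ) * (p.1 : ℝ) := by
    intro p
    have h1 : X.R p - ((1 - X.ρ : ℝ) : ℂ) * X.w (p.2 0)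
        = ∑ i ∈ Finset.range p.1, ((1 - X.ρ : ℝ) : ℂ) * (X.ρ : ℂ) ^ (i + 1) *
          Complex.exp (((X.θ * ∑ j ∈ Finset.range (i + 1), M.f (p.2 j) : ℝ) : ℂ) * Complex.I)
          * X.w (p.2 (i + 1)) := by
      unfold R
      rw [Finset.sum_range_succ']
      simp
    rw [h1]
    have h2 : ∀ i ∈ Finset.range p.1, ‖((1 - X.ρ : ℝ) : ℂ) * (X.ρ : ℂ) ^ (i + 1) *
          Complex.exp (((X.θ * ∑ j ∈ Finset.range (i + 1), M.f (p.2 j) : ℝ) : ℂ) * Complex.I)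
          * X.w (p.2 (i + 1))‖ ≤ 1 - X.ρ := fun i _ =>
      (X.norm_R_term p (i + 1)).trans
        (mul_le_of_le_one_right (by linarith [X.ρ_le_one]) (pow_le_one₀ X.ρ_nonneg X.ρ_le_one))
    refine (norm_sum_le _ _).trans ((Finset.sum_le_sum h2).trans (le_of_eq ?_))
    rw [Finset.sum_const, Finset.card_range, nsmul_eq_mul, mul_comm]
  have i1 : Integrable (fun p : ℕ × (ℕ → S) => ((1 - X.ρ : ℝ) : ℂ) * (φ (p.2 0) * X.w (p.2 0)))
      X.Θ := by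
    refine (X.integrable_bdd ((hφm.comp hm0).mul (X.hwm.comp hm0)) 1 fun p => ?_).const_mul _
    show ‖φ (p.2 0) * X.w (p.2 0)‖ ≤ 1
    rw [norm_mul]
    exact mul_le_one₀ (hφ1 _) (norm_nonneg _) (X.hw1 _)
  have i2 : Integrable (fun p : ℕ × (ℕ → S) => φ (p.2 0) *
      (X.R p - ((1 - X.ρ : ℝ) : ℂ) * X.w (p.2 0))) X.Θ := by
    refine X.integrable_bdd ((hφm.comp hm0).mul (X.measurable_R.sub
      ((X.hwm.comp hm0).const_mul _))) 2 fun p => ?_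
    rw [norm_mul]
    have h1 : ‖X.R p - ((1 - X.ρ : ℝ) : ℂ) * X.w (p.2 0)‖ ≤ 2 := by
      refine (norm_sub_le _ _).trans ?_
      have h2 := X.norm_R_le p
      have h3 : ‖((1 - X.ρ : ℝ) : ℂ) * X.w (p.2 0)‖ ≤ 1 := by
        rw [norm_mul, Complex.norm_real, Real.norm_eq_abs,
          abs_of_nonneg (by linarith [X.ρ_le_one])]
        exact mul_le_one₀ (by linarith [X.ρ_nonneg]) (norm_nonneg _) (X.hw1 _)
      linarith
    calc ‖φ (p.2 0)‖ * ‖X.R p - ((1 - X.ρ : ℝ) : ℂ) * X.w (p.2 0)‖ ≤ 1 * 2 :=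
          mul_le_mul (hφ1 _) h1 (norm_nonneg _) zero_le_one
      _ = 2 := one_mul _
  have hsplit : ∫ p, φ (p.2 0) * X.R p ∂X.Θ
      = ((1 - X.ρ : ℝ) : ℂ) * ∫ p, φ (p.2 0) * X.w (p.2 0) ∂X.Θ
        + ∫ p, φ (p.2 0) * (X.R p - ((1 - X.ρ : ℝ) : ℂ) * X.w (p.2 0)) ∂X.Θ := by
    rw [← integral_const_mul, ← integral_add i1 i2]
    refine integral_congr_ae (Filter.Eventually.of_forall fun p => ?_)
    simp only
    ring
  have hrest : ‖∫ p, φ (p.2 0) * (X.R p - ((1 - X.ρ : ℝ) : ℂ) * X.w (p.2 0)) ∂X.Θ‖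
      ≤ (1 - X.ρ) * X.τ := by
    refine (norm_integral_le_integral_norm _).trans ?_
    have hpt : ∀ p : ℕ × (ℕ → S), ‖φ (p.2 0) * (X.R p - ((1 - X.ρ : ℝ) : ℂ) * X.w (p.2 0))‖
        ≤ (1 - X.ρ) * (p.1 : ℝ) := by
      intro p
      rw [norm_mul]
      exact (mul_le_of_le_one_left (norm_nonneg _) (hφ1 _)).trans (hR0 p)
    refine (integral_mono_of_nonneg (Filter.Eventually.of_forall fun x => norm_nonneg _)
      (X.integrable_len.const_mul _) (Filter.Eventually.of_forall hpt)).trans ?_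
    rw [integral_const_mul]
    exact mul_le_mul_of_nonneg_left X.len_le (by linarith [X.ρ_le_one])
  have hψ : ∫ p, φ (p.2 0) * X.w (p.2 0) ∂X.Θ = ∫ x, (1 - X.k.χ x) • (φ x * X.w x) ∂M.ν :=
    M.toChain.integral_x X.k (fun x => φ x * X.w x) (hφm.mul X.hwm).aestronglyMeasurable
  have hrep : ‖∫ x, (1 - X.k.χ x) • (φ x * X.w x) ∂M.ν - ∫ x, X.w x ∂M.ν‖
      ≤ (3 + |lam|) * Real.sqrt X.τ := X.int_replace X.w X.hwm X.hw1
  rw [hsplit, hψ, X.one_sub_ρ]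
  have hid : (X.n : ℂ) * (((s / X.n : ℝ) : ℂ) * ∫ x, (1 - X.k.χ x) • (φ x * X.w x) ∂M.ν
        + ∫ p, φ (p.2 0) * (X.R p - ((s / X.n : ℝ) : ℂ) * X.w (p.2 0)) ∂X.Θ)
        - (s : ℂ) * ∫ x, X.w x ∂M.ν
      = (s : ℂ) * (∫ x, (1 - X.k.χ x) • (φ x * X.w x) ∂M.ν - ∫ x, X.w x ∂M.ν)
        + (X.n : ℂ) * ∫ p, φ (p.2 0) * (X.R p - ((s / X.n : ℝ) : ℂ) * X.w (p.2 0)) ∂X.Θ := by
    have hn' : (X.n : ℂ) ≠ 0 := by exact_mod_cast hn.ne'
    push_cast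
    field_simp
    ring
  rw [hid]
  refine (norm_add_le _ _).trans ?_
  rw [norm_mul, norm_mul, Complex.norm_real, Real.norm_eq_abs, abs_of_pos hs, Complex.norm_natCast]
  rw [X.one_sub_ρ] at hrest
  have h5 : (X.n : ℝ) * ‖∫ p, φ (p.2 0) * (X.R p - ((s / X.n : ℝ) : ℂ) * X.w (p.2 0)) ∂X.Θ‖
      ≤ s * Real.sqrt X.τ := by
    calc _ ≤ (X.n : ℝ) * ((s / X.n) * X.τ) := by gcongr
      _ = s * X.τ := by field_simp
      _ ≤ s * Real.sqrt X.τ := by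
          gcongr
          exact X.τ_le_sqrt
  have h6 : s * ‖∫ x, (1 - X.k.χ x) • (φ x * X.w x) ∂M.ν - ∫ x, X.w x ∂M.ν‖
      ≤ s * ((3 + |lam|) * Real.sqrt X.τ) := by gcongr
  have h7 := Real.sqrt_nonneg X.τ
  nlinarith

end Pool.Agent.H45.CLT
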