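import Pool.Agent.H45.CLT.Ctx
import Pool.Agent.H45.CLT.CtxY
import Pool.Agent.H45.CLT.L2

/-!
# Module STEPE0: the descent identity
`S_ℓ = g(x) - g(y) + D̂_g + (1-r)∑_{j<ℓ}Qg(ξ_j)` (`f = g - r Qg`), `E_Θ[b(x)Δ(x)D̂_g] = 0`;
`E_Θ[b(x)Δ(x)g(x)] = E_Θ[b(y)Δ(y)g(y)]`; `Δ(y)-Δ(x) = ∑_{1≤j≤ℓ} q(ξ_j) - D̂*_Δ`, `E_Θ[b(y)g(y)D̂*_Δ] = 0`.
-/

set_option autoImplicit false

open MeasureTheory ProbabilityTheory
open scoped ENNReal NNReal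

namespace Pool.Agent.H45.CLT

variable {S : Type} [MeasurableSpace S]

namespace Ctx

variable {M : Model S} {lam s : ℝ} (X : Ctx M lam s)

/-- `Δ_i = G*_{r_{i+1}} - G*_{r_i}` -/
noncomputable def Δ (M : Model S) (i : ℕ) (x : S) : ℝ := M.Gs (rr (i + 1)) x - M.Gs (rr i) x

/-- `q_i = Δ_i - Q*Δ_i = (1-r_i) Q*G*_{r_i} - (1-r_{i+1}) Q*G*_{r_{i+1}}` -/
noncomputable def q (M : Model S) (i : ℕ) (x : S) : ℝ :=
  (1 - rr i) * M.Gs1 (rr i) x - (1 - rr (i + 1)) * M.Gs1 (rr (i + 1)) x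

noncomputable def T1 (i : ℕ) : ℂ :=
  ∫ p, ((Δ M i (p.2 0) * M.G (rr (i + 1)) (p.2 0) : ℝ) : ℂ)
    * (X.b (p.2 (p.1 + 1)) - X.b (p.2 0)) ∂X.Θ

noncomputable def T2 (i : ℕ) : ℂ :=
  ∫ p, (X.b (p.2 (p.1 + 1)) - X.b (p.2 0))
    * ((Δ M i (p.2 0) * (Dh (M.G (rr (i + 1))) (M.G1 (rr (i + 1))) p - M.Sl p) : ℝ) : ℂ) ∂X.Θ

noncomputable def T3 (i : ℕ) : ℂ :=
  ∫ p, X.b (p.2 (p.1 + 1)) * ((M.G (rr (i + 1)) (p.2 (p.1 + 1))
    * ∑ j ∈ Finset.range (p.1 + 1), q M i (p.2 (j + 1)) : ℝ) : ℂ) ∂X.Θ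

noncomputable def T4 (i : ℕ) : ℂ :=
  ∫ p, X.b (p.2 (p.1 + 1)) * ((Δ M i (p.2 0) * ((1 - rr (i + 1))
    * ∑ j ∈ Finset.range (p.1 + 1), M.G1 (rr (i + 1)) (p.2 j)) : ℝ) : ℂ) ∂X.Θ

/-- `Q*Δ_i` -/
noncomputable def Δ' (M : Model S) (i : ℕ) (x : S) : ℝ := M.Gs1 (rr (i + 1)) x - M.Gs1 (rr i) x

theorem bwd_Δ (M : Model S) (i : ℕ) : M.toChain.Bwd (Δ M i) (Δ' M i) :=
  (M.bwd_Gs (rr (i + 1)) (rr_nonneg _) (rr_lt_one _)).sub
    (M.bwd_Gs (rr i) (rr_nonneg _) (rr_lt_one _))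

/-- `Δ = Q*Δ + q` -/
theorem Δ_eq (M : Model S) (i : ℕ) (x : S) : Δ M i x = Δ' M i x + q M i x := by
  unfold Δ Δ' q
  rw [M.Gs_eq (rr (i + 1)) (rr_nonneg _) (rr_lt_one _) x, M.Gs_eq (rr i) (rr_nonneg _)
    (rr_lt_one _) x]
  ring

/-- `S_ℓ = g(x) - g(y) + D̂_g + (1-r)∑_{j<ℓ}Qg(ξ_j)` -/
theorem Sl_expand (M : Model S) (i : ℕ) (p : ℕ × (ℕ → S)) :
    M.Sl p = M.G (rr (i + 1)) (p.2 0) - M.G (rr (i + 1)) (p.2 (p.1 + 1))
      + Dh (M.G (rr (i + 1))) (M.G1 (rr (i + 1))) p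
      + (1 - rr (i + 1)) * ∑ j ∈ Finset.range (p.1 + 1), M.G1 (rr (i + 1)) (p.2 j) := by
  unfold Model.Sl Dh
  have h : ∀ j, M.f (p.2 j) = (M.G (rr (i + 1)) (p.2 j) - M.G (rr (i + 1)) (p.2 (j + 1)))
      + (M.G (rr (i + 1)) (p.2 (j + 1)) - M.G1 (rr (i + 1)) (p.2 j))
      + (1 - rr (i + 1)) * M.G1 (rr (i + 1)) (p.2 j) := by
    intro j
    rw [M.G_eq (rr (i + 1)) (rr_nonneg _) (rr_lt_one _) (p.2 j)]
    ring
  rw [Finset.sum_congr rfl fun j _ => h j, Finset.sum_add_distrib, Finset.sum_add_distrib,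
    Finset.sum_range_sub' (fun j => M.G (rr (i + 1)) (p.2 j)), Finset.mul_sum]

/-- `∑_{1≤j≤ℓ} q(ξ_j) = Δ(y) - Δ(x) + D̂*_Δ` -/
theorem q_sum (M : Model S) (i : ℕ) (p : ℕ × (ℕ → S)) :
    ∑ j ∈ Finset.range (p.1 + 1), q M i (p.2 (j + 1))
      = Δ M i (p.2 (p.1 + 1)) - Δ M i (p.2 0) + Ds (Δ M i) (Δ' M i) p := by
  unfold Ds
  have h : ∀ j, q M i (p.2 (j + 1)) = (Δ M i (p.2 (j + 1)) - Δ M i (p.2 j))
      + (Δ M i (p.2 j) - Δ' M i (p.2 (j + 1))) := by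
    intro j
    have := Δ_eq M i (p.2 (j + 1))
    linarith
  rw [Finset.sum_congr rfl fun j _ => h j, Finset.sum_add_distrib,
    Finset.sum_range_sub (fun j => Δ M i (p.2 j))]

/-- sums over the gap are in `L²(Θ)` -/
theorem memLp_gap_sum (q : S → ℝ) (hq : Measurable q) (hq2 : MemLp q 2 M.ν) (t : ℕ) :
    MemLp (fun p : ℕ × (ℕ → S) => ∑ j ∈ Finset.range (p.1 + 1), q (p.2 (j + t))) 2 X.Θ := by
  refine M.toChain.memLp_Θ_sum X.k (fun i ξ => q (ξ (i + t)))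
    (fun i => (hq.comp (measurable_pi_apply (i + t)))) (∫ x, (q x) ^ 2 ∂M.ν)
    (fun i => hq2.comp_measurePreserving (M.mp_eval (i + t))) (fun i => ?_)
  refine le_of_eq ?_
  have h3 := (M.mp_eval (i + t)).map_eq
  rw [← h3, integral_map (M.mp_eval (i + t)).measurable.aemeasurable
    (hq.pow_const 2).aestronglyMeasurable]

theorem memLp_bmul {g : S → ℝ} (hg : Measurable g) (hg2 : MemLp g 2 M.ν) :
    MemLp (fun x => X.b x * ((g x : ℝ) : ℂ)) 2 M.ν := by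
  have h1 : Measurable (fun x => X.b x * ((g x : ℝ) : ℂ)) :=
    X.measurable_b.mul (Complex.measurable_ofReal.comp hg)
  refine MemLp.mono hg2 h1.aestronglyMeasurable (Filter.Eventually.of_forall fun x => ?_)
  rw [norm_mul, Complex.norm_real]
  exact mul_le_of_le_one_left (norm_nonneg _) (X.norm_b_le x)

/-- the descent identity -/
theorem descent (i : ℕ) : X.J (i + 1) - X.J i = X.T1 i + X.T2 i + X.T3 i + X.T4 i := by
  have hgF := M.fwd_G (rr (i + 1)) (rr_nonneg _) (rr_lt_one _)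
  have hΔB := bwd_Δ M i
  have hgm := hgF.m
  have hg2 := hgF.l2
  have hg1m := hgF.m'
  have hg12 := hgF.l2'
  have hΔm := hΔB.m
  have hΔ2 := hΔB.l2
  -- square integrability over the gap
  have L_gx : MemLp (fun p : ℕ × (ℕ → S) => M.G (rr (i + 1)) (p.2 0)) 2 X.Θ :=
    M.toChain.memLp_x X.k 2 _ hg2
  have L_gy : MemLp (fun p : ℕ × (ℕ → S) => M.G (rr (i + 1)) (p.2 (p.1 + 1))) 2 X.Θ :=
    M.toChain.memLp_y X.k 2 _ hg2
  have L_dx : MemLp (fun p : ℕ × (ℕ → S) => Δ M i (p.2 0)) 2 X.Θ :=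
    M.toChain.memLp_x X.k 2 _ hΔ2
  have L_dy : MemLp (fun p : ℕ × (ℕ → S) => Δ M i (p.2 (p.1 + 1))) 2 X.Θ :=
    M.toChain.memLp_y X.k 2 _ hΔ2
  have L_Dg : MemLp (Dh (M.G (rr (i + 1))) (M.G1 (rr (i + 1)))) 2 X.Θ := hgF.gap_memLp X.k
  have L_DΔ : MemLp (Ds (Δ M i) (Δ' M i)) 2 X.Θ := hΔB.gap_memLp X.k
  have L_S : MemLp M.Sl 2 X.Θ := by
    have h := X.memLp_gap_sum M.f M.measurable_f M.memLp_f 0
    exact h
  have L_q : MemLp (fun p : ℕ × (ℕ → S) =>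
      ∑ j ∈ Finset.range (p.1 + 1), q M i (p.2 (j + 1))) 2 X.Θ := by
    have h : (fun p : ℕ × (ℕ → S) => ∑ j ∈ Finset.range (p.1 + 1), q M i (p.2 (j + 1)))
        = fun p => Δ M i (p.2 (p.1 + 1)) - Δ M i (p.2 0) + Ds (Δ M i) (Δ' M i) p :=
      funext fun p => q_sum M i p
    rw [h]
    exact (L_dy.sub L_dx).add L_DΔ
  have L_a : MemLp (fun p : ℕ × (ℕ → S) => (1 - rr (i + 1)) *
      ∑ j ∈ Finset.range (p.1 + 1), M.G1 (rr (i + 1)) (p.2 j)) 2 X.Θ := by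
    have h := X.memLp_gap_sum _ hg1m hg12 0
    exact h.const_mul _
  have L_Gs : ∀ j, MemLp (fun p : ℕ × (ℕ → S) => M.Gs (rr j) (p.2 0)) 2 X.Θ := fun j =>
    M.toChain.memLp_x X.k 2 _ (M.memLp_Gs (rr j) (rr_nonneg _) (rr_lt_one _))
  -- bounded complex weights
  have mx : Measurable (fun p : ℕ × (ℕ → S) => X.b (p.2 0)) :=
    X.measurable_b.comp ((measurable_pi_apply 0).comp measurable_snd)
  have my : Measurable (fun p : ℕ × (ℕ → S) => X.b (p.2 (p.1 + 1))) :=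
    X.measurable_b.comp measurable_y
  have ix : ∀ {F H : ℕ × (ℕ → S) → ℝ}, MemLp F 2 X.Θ → MemLp H 2 X.Θ →
      Integrable (fun p => X.b (p.2 0) * ((F p * H p : ℝ) : ℂ)) X.Θ := fun hF hH =>
    L2.integrable_bmul mx.aestronglyMeasurable 1 (fun p => X.norm_b_le _)
      (L2.integrable_mul hF hH)
  have iy : ∀ {F H : ℕ × (ℕ → S) → ℝ}, MemLp F 2 X.Θ → MemLp H 2 X.Θ →
      Integrable (fun p => X.b (p.2 (p.1 + 1)) * ((F p * H p : ℝ) : ℂ)) X.Θ := fun hF hH =>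
    L2.integrable_bmul my.aestronglyMeasurable 1 (fun p => X.norm_b_le _)
      (L2.integrable_mul hF hH)
  -- the vanishing terms
  have Z1 : ∫ p, X.b (p.2 0) * ((Δ M i (p.2 0)
      * Dh (M.G (rr (i + 1))) (M.G1 (rr (i + 1))) p : ℝ) : ℂ) ∂X.Θ = 0 := by
    have h := hgF.gap_orth X.k (fun x => X.b x * ((Δ M i x : ℝ) : ℂ))
      (X.measurable_b.mul (Complex.measurable_ofReal.comp hΔm)) (X.memLp_bmul hΔm hΔ2)
    rw [← h]
    refine integral_congr_ae (Filter.Eventually.of_forall fun p => ?_)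
    simp only
    push_cast
    ring
  have Z2 : ∫ p, X.b (p.2 (p.1 + 1)) * ((M.G (rr (i + 1)) (p.2 (p.1 + 1))
      * Ds (Δ M i) (Δ' M i) p : ℝ) : ℂ) ∂X.Θ = 0 := by
    have h := hΔB.gap_orth X.k (fun x => X.b x * ((M.G (rr (i + 1)) x : ℝ) : ℂ))
      (X.measurable_b.mul (Complex.measurable_ofReal.comp hgm)) (X.memLp_bmul hgm hg2)
    rw [← h]
    refine integral_congr_ae (Filter.Eventually.of_forall fun p => ?_)
    simp only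
    push_cast
    ring
  have Z3 : ∫ p, X.b (p.2 0) * ((Δ M i (p.2 0) * M.G (rr (i + 1)) (p.2 0) : ℝ) : ℂ) ∂X.Θ
      = ∫ p, X.b (p.2 (p.1 + 1)) * ((M.G (rr (i + 1)) (p.2 (p.1 + 1))
        * Δ M i (p.2 (p.1 + 1)) : ℝ) : ℂ) ∂X.Θ := by
    have hm : AEStronglyMeasurable
        (fun x => X.b x * ((Δ M i x * M.G (rr (i + 1)) x : ℝ) : ℂ)) M.ν :=
      (X.measurable_b.mul (Complex.measurable_ofReal.comp (hΔm.mul hgm))).aestronglyMeasurable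
    have h1 := M.toChain.integral_x X.k
      (fun x => X.b x * ((Δ M i x * M.G (rr (i + 1)) x : ℝ) : ℂ)) hm
    have h2 := M.toChain.integral_y X.k
      (fun x => X.b x * ((Δ M i x * M.G (rr (i + 1)) x : ℝ) : ℂ)) hm
    have h3 := h1.trans h2.symm
    refine h3.trans (integral_congr_ae (Filter.Eventually.of_forall fun p => ?_))
    simp only
    rw [mul_comm (Δ M i _)]
  -- integrability of all the terms
  have iJ0 := ix (L_Gs i) L_S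
  have iA := ix L_dx L_gx
  have iB := iy L_gy L_dy
  have iC := ix L_dx L_Dg
  have iD := iy L_gy L_DΔ
  have i1 : Integrable (fun p : ℕ × (ℕ → S) =>
      ((Δ M i (p.2 0) * M.G (rr (i + 1)) (p.2 0) : ℝ) : ℂ)
        * (X.b (p.2 (p.1 + 1)) - X.b (p.2 0))) X.Θ := by
    refine ((iy L_dx L_gx).sub (ix L_dx L_gx)).congr (Filter.Eventually.of_forall fun p => ?_)
    simp only [Pi.sub_apply]
    ring
  have i2 : Integrable (fun p : ℕ × (ℕ → S) => (X.b (p.2 (p.1 + 1)) - X.b (p.2 0))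
      * ((Δ M i (p.2 0) * (Dh (M.G (rr (i + 1))) (M.G1 (rr (i + 1))) p - M.Sl p) : ℝ) : ℂ))
      X.Θ := by
    refine ((iy L_dx (L_Dg.sub L_S)).sub (ix L_dx (L_Dg.sub L_S))).congr
      (Filter.Eventually.of_forall fun p => ?_)
    simp only [Pi.sub_apply]
    ring
  have i3 := iy L_gy L_q
  have i4 := iy L_dx L_a
  have s1 : Integrable (fun p : ℕ × (ℕ → S) =>
      X.b (p.2 0) * ((Δ M i (p.2 0)
        * Dh (M.G (rr (i + 1))) (M.G1 (rr (i + 1))) p : ℝ) : ℂ)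
      - X.b (p.2 (p.1 + 1)) * ((M.G (rr (i + 1)) (p.2 (p.1 + 1))
        * Ds (Δ M i) (Δ' M i) p : ℝ) : ℂ)) X.Θ := iC.sub iD
  have s2 : Integrable (fun p : ℕ × (ℕ → S) =>
      X.b (p.2 0) * ((Δ M i (p.2 0) * M.G (rr (i + 1)) (p.2 0) : ℝ) : ℂ)
      - X.b (p.2 (p.1 + 1)) * ((M.G (rr (i + 1)) (p.2 (p.1 + 1))
        * Δ M i (p.2 (p.1 + 1)) : ℝ) : ℂ)) X.Θ := iA.sub iB
  have e : X.J (i + 1) = ∫ p : ℕ × (ℕ → S),
      ((X.b (p.2 0) * ((M.Gs (rr i) (p.2 0) * M.Sl p : ℝ) : ℂ)) +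
      ((((Δ M i (p.2 0) * M.G (rr (i + 1)) (p.2 0) : ℝ) : ℂ)
        * (X.b (p.2 (p.1 + 1)) - X.b (p.2 0))) +
      (((X.b (p.2 (p.1 + 1)) - X.b (p.2 0))
      * ((Δ M i (p.2 0) * (Dh (M.G (rr (i + 1))) (M.G1 (rr (i + 1))) p - M.Sl p) : ℝ) : ℂ)) +
      ((X.b (p.2 (p.1 + 1)) * ((M.G (rr (i + 1)) (p.2 (p.1 + 1))
        * ∑ j ∈ Finset.range (p.1 + 1), q M i (p.2 (j + 1)) : ℝ) : ℂ)) +
      ((X.b (p.2 (p.1 + 1)) * ((Δ M i (p.2 0) * ((1 - rr (i + 1))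
        * ∑ j ∈ Finset.range (p.1 + 1), M.G1 (rr (i + 1)) (p.2 j)) : ℝ) : ℂ)) +
      ((X.b (p.2 0) * ((Δ M i (p.2 0) * M.G (rr (i + 1)) (p.2 0) : ℝ) : ℂ)
      - X.b (p.2 (p.1 + 1)) * ((M.G (rr (i + 1)) (p.2 (p.1 + 1))
        * Δ M i (p.2 (p.1 + 1)) : ℝ) : ℂ)) +
      (X.b (p.2 0) * ((Δ M i (p.2 0)
        * Dh (M.G (rr (i + 1))) (M.G1 (rr (i + 1))) p : ℝ) : ℂ)
      - X.b (p.2 (p.1 + 1)) * ((M.G (rr (i + 1)) (p.2 (p.1 + 1))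
        * Ds (Δ M i) (Δ' M i) p : ℝ) : ℂ)))))))) ∂X.Θ := by
    unfold J
    refine integral_congr_ae (Filter.Eventually.of_forall fun p => ?_)
    have h1 := Sl_expand M i p
    have h2 := q_sum M i p
    have h3 : M.Gs (rr (i + 1)) (p.2 0) = M.Gs (rr i) (p.2 0) + Δ M i (p.2 0) := by
      unfold Δ; ring
    simp only
    rw [h2, h3, h1]
    push_cast
    ring
  have s3 := s2.add s1
  have s4 := i4.add s3
  have s5 := i3.add s4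
  have s6 := i2.add s5
  have s7 := i1.add s6
  have E1 := integral_add iJ0 s7
  have E2 := integral_add i1 s6
  have E3 := integral_add i2 s5
  have E4 := integral_add i3 s4
  have E5 := integral_add i4 s3
  have E6 := integral_add s2 s1
  have E7 := integral_sub iA iB
  have E8 := integral_sub iC iD
  simp only [Pi.add_apply] at E1 E2 E3 E4 E5 E6
  rw [E7, Z3, sub_self] at E6
  rw [E8, Z1, Z2] at E6
  rw [e]
  unfold J T1 T2 T3 T4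
  rw [E1, E2, E3, E4, E5, E6]
  ring

end Ctx

end Pool.Agent.H45.CLT
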