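import Pool.Agent.H45.CLT.StepE0
import Pool.Agent.H45.CLT.StepA

/-!
# Module STEPE1: bounds for `T1`, `T2` (gap_A2, gap_A1, `Fwd.gap_sq` + D_bound, Se_sq_le).
-/

set_option autoImplicit false

open MeasureTheory ProbabilityTheory
open scoped ENNReal NNReal

namespace Pool.Agent.H45.CLT

variable {S : Type} [MeasurableSpace S]

theorem e1_cs {Ω : Type} [MeasurableSpace Ω] {μ : Measure Ω} {F : Ω → ℂ} {g : Ω → ℝ}
    (hF : MemLp F 2 μ) (hg : MemLp g 2 μ) :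
    ‖∫ p, F p * ((g p : ℝ) : ℂ) ∂μ‖ ≤
      Real.sqrt (∫ p, ‖F p‖ ^ 2 ∂μ) * Real.sqrt (∫ p, (g p) ^ 2 ∂μ) := by
  refine (norm_integral_le_integral_norm _).trans ?_
  have h1 : ∀ p, ‖F p * ((g p : ℝ) : ℂ)‖ = ‖F p‖ * |g p| := by
    intro p
    rw [norm_mul, Complex.norm_real, Real.norm_eq_abs]
  simp_rw [h1]
  have h2 := integral_mul_le_Lp_mul_Lq_of_nonneg (μ := μ) (p := 2) (q := 2)
    (Real.HolderConjugate.two_two) (f := fun p => ‖F p‖) (g := fun p => |g p|)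
    (Filter.Eventually.of_forall fun p => norm_nonneg _)
    (Filter.Eventually.of_forall fun p => abs_nonneg _)
    (by simpa using hF.norm) (by simpa using hg.norm)
  refine h2.trans (le_of_eq ?_)
  rw [Real.sqrt_eq_rpow, Real.sqrt_eq_rpow]
  simp only [Real.rpow_two, sq_abs]

namespace Ctx

variable {M : Model S} {lam s : ℝ} (X : Ctx M lam s)

theorem e1_inv (i : ℕ) : (1 - rr i)⁻¹ = 2 ^ i := by
  rw [one_sub_rr, one_div, inv_pow, inv_inv]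

theorem e1_Δ_sq (M : Model S) (i : ℕ) (x : S) : (Δ M i x) ^ 2 ≤ 2 ^ (i + 1) * M.A x := by
  have h := M.Gs_sub_sq_le (rr i) (rr (i + 1)) (rr_nonneg i) (rr_mono (Nat.le_succ i))
    (rr_lt_one (i + 1)) x
  rwa [e1_inv] at h

theorem e1_G_sq (M : Model S) (i : ℕ) (x : S) :
    (M.G (rr (i + 1)) x) ^ 2 ≤ 2 ^ (i + 1) * M.C x := by
  have h := M.G_sq_le (rr (i + 1)) (rr_nonneg (i + 1)) (rr_lt_one (i + 1)) x
  rwa [e1_inv] at h

theorem e1_measurable_Δ (M : Model S) (i : ℕ) : Measurable (Δ M i) :=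
  (M.measurable_Gs _ (rr_nonneg _) (rr_lt_one _)).sub (M.measurable_Gs _ (rr_nonneg _) (rr_lt_one _))

theorem e1_memLp_Δ (M : Model S) (i : ℕ) : MemLp (Δ M i) 2 M.ν :=
  (M.memLp_Gs _ (rr_nonneg _) (rr_lt_one _)).sub (M.memLp_Gs _ (rr_nonneg _) (rr_lt_one _))

theorem e1_prod_le (M : Model S) (i : ℕ) (x : S) :
    |Δ M i x * M.G (rr (i + 1)) x| ≤ 2 ^ i * (M.A x + M.C x) := by
  have h1 := e1_Δ_sq M i x
  have h2 := e1_G_sq M i x
  rw [abs_mul]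
  have h3 : |Δ M i x| * |M.G (rr (i + 1)) x| ≤
      ((Δ M i x) ^ 2 + (M.G (rr (i + 1)) x) ^ 2) / 2 := by
    have := sq_nonneg (|Δ M i x| - |M.G (rr (i + 1)) x|)
    rw [sub_sq, sq_abs, sq_abs] at this
    linarith
  refine h3.trans ?_
  have e : (2 : ℝ) ^ (i + 1) = 2 * 2 ^ i := by rw [pow_succ]; ring
  rw [e] at h1 h2
  linarith

theorem e1_setInt_le (M : Model S) (K : ℝ) {φ : S → ℝ} (D : ℝ) (hφ0 : ∀ x, 0 ≤ φ x)
    (hφ : ∀ x, φ x ≤ D * (M.A x + M.C x)) : ∫ x in M.B K, φ x ∂M.ν ≤ D * M.δ K := by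
  unfold Model.δ
  rw [← integral_const_mul]
  exact integral_mono_of_nonneg (Filter.Eventually.of_forall fun x => hφ0 x)
    (M.integrable_AC.const_mul D).integrableOn (Filter.Eventually.of_forall hφ)

/-- bound for `T1`: `|Δ G| ≤ 2^i (A + C)` -/
theorem T1_le (i : ℕ) :
    ‖X.T1 i‖ ≤ 2 ^ i * X.K * X.y1 + 2 ^ (i + 1) * M.δ X.K / X.m := by
  have hm : Measurable (fun x => ((Δ M i x * M.G (rr (i + 1)) x : ℝ) : ℂ)) :=
    Complex.measurable_ofReal.comp ((e1_measurable_Δ M i).mul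
      (M.measurable_G _ (rr_nonneg _) (rr_lt_one _)))
  have hint : Integrable (fun x => ((Δ M i x * M.G (rr (i + 1)) x : ℝ) : ℂ)) M.ν :=
    ((e1_memLp_Δ M i).integrable_mul (M.memLp_G _ (rr_nonneg _) (rr_lt_one _))).ofReal
  have hK : (0 : ℝ) ≤ X.K := by linarith [X.hK]
  have h := M.toChain.gap_A2 X.k X.b X.measurable_b X.norm_b_le
    (fun x => ((Δ M i x * M.G (rr (i + 1)) x : ℝ) : ℂ)) hm hint (M.B X.K) (M.measurableSet_B X.K)
    (2 ^ i * X.K) (fun x hx => by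
      rw [Complex.norm_real, Real.norm_eq_abs]
      refine (e1_prod_le M i x).trans ?_
      exact mul_le_mul_of_nonneg_left (M.le_of_notMem_B hx) (by positivity)) (by positivity)
  refine h.trans ?_
  refine add_le_add le_rfl ?_
  have h2 : ∫ x in M.B X.K, (1 - X.k.χ x) * ‖((Δ M i x * M.G (rr (i + 1)) x : ℝ) : ℂ)‖ ∂M.ν ≤
      (2 ^ i / X.m) * M.δ X.K := by
    have h3 : ∫ x in M.B X.K, (1 - X.k.χ x) * ‖((Δ M i x * M.G (rr (i + 1)) x : ℝ) : ℂ)‖ ∂M.ν =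
        ∫ x in M.B X.K, X.m⁻¹ * |Δ M i x * M.G (rr (i + 1)) x| ∂M.ν := by
      refine setIntegral_congr_fun (M.measurableSet_B X.K) fun x hx => ?_
      rw [X.one_sub_χ_mem hx, Complex.norm_real, Real.norm_eq_abs]
    rw [h3]
    have hmp := X.m_pos
    refine e1_setInt_le M X.K (2 ^ i / X.m) (fun x => by positivity) fun x => ?_
    calc X.m⁻¹ * |Δ M i x * M.G (rr (i + 1)) x| ≤ X.m⁻¹ * (2 ^ i * (M.A x + M.C x)) :=
          mul_le_mul_of_nonneg_left (e1_prod_le M i x) (by positivity)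
      _ = 2 ^ i / X.m * (M.A x + M.C x) := by ring
  calc 2 * ∫ x in M.B X.K, (1 - X.k.χ x) * ‖((Δ M i x * M.G (rr (i + 1)) x : ℝ) : ℂ)‖ ∂M.ν
      ≤ 2 * ((2 ^ i / X.m) * M.δ X.K) := by linarith
    _ = 2 ^ (i + 1) * M.δ X.K / X.m := by rw [pow_succ]; ring

/-- the factor `(b(y)-b(x)) Δ(x)` -/
noncomputable def e1F (i : ℕ) (p : ℕ × (ℕ → S)) : ℂ :=
  (X.b (p.2 (p.1 + 1)) - X.b (p.2 0)) * ((Δ M i (p.2 0) : ℝ) : ℂ)

theorem e1_measurable_F (i : ℕ) : Measurable (X.e1F i) := by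
  have h0 : Measurable (fun p : ℕ × (ℕ → S) => p.2 0) := by fun_prop
  exact ((X.measurable_b.comp measurable_y).sub (X.measurable_b.comp h0)).mul
    (Complex.measurable_ofReal.comp ((e1_measurable_Δ M i).comp h0))

theorem e1_norm_sub_le (p : ℕ × (ℕ → S)) : ‖X.b (p.2 (p.1 + 1)) - X.b (p.2 0)‖ ≤ 2 := by
  refine (norm_sub_le _ _).trans ?_
  linarith [X.norm_b_le (p.2 (p.1 + 1)), X.norm_b_le (p.2 0)]

theorem e1_memLp_F (i : ℕ) : MemLp (X.e1F i) 2 X.Θ := by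
  have h1 : MemLp (fun p : ℕ × (ℕ → S) => 2 * Δ M i (p.2 0)) 2 X.Θ :=
    (M.toChain.memLp_x X.k 2 _ (e1_memLp_Δ M i)).const_mul 2
  refine h1.mono (X.e1_measurable_F i).aestronglyMeasurable (Filter.Eventually.of_forall fun p => ?_)
  unfold e1F
  rw [norm_mul, norm_mul, Complex.norm_real, Real.norm_eq_abs (2 : ℝ)]
  refine mul_le_mul_of_nonneg_right ?_ (norm_nonneg _)
  rw [abs_of_pos (by norm_num : (0 : ℝ) < 2)]
  exact X.e1_norm_sub_le p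

theorem e1_F_point (i : ℕ) (p : ℕ × (ℕ → S)) :
    ‖X.e1F i p‖ ^ 2 ≤ 2 ^ (i + 1) * X.K * ‖X.b (p.2 (p.1 + 1)) - X.b (p.2 0)‖ ^ 2
      + 4 * (M.B X.K).indicator (fun x => (Δ M i x) ^ 2) (p.2 0) := by
  unfold e1F
  rw [norm_mul, mul_pow, Complex.norm_real, Real.norm_eq_abs, sq_abs]
  have hK : (0 : ℝ) ≤ X.K := by linarith [X.hK]
  have h2 := X.e1_norm_sub_le p
  set N := ‖X.b (p.2 (p.1 + 1)) - X.b (p.2 0)‖ with hN
  have hN0 : 0 ≤ N := norm_nonneg _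
  by_cases h : p.2 0 ∈ M.B X.K
  · rw [Set.indicator_of_mem h]
    have h3 : N ^ 2 ≤ 4 := by nlinarith
    have h4 : 0 ≤ 2 ^ (i + 1) * X.K * N ^ 2 := by positivity
    nlinarith [sq_nonneg (Δ M i (p.2 0))]
  · rw [Set.indicator_of_notMem h]
    have h3 : (Δ M i (p.2 0)) ^ 2 ≤ 2 ^ (i + 1) * X.K :=
      (e1_Δ_sq M i _).trans (mul_le_mul_of_nonneg_left (X.A_le h) (by positivity))
    nlinarith [sq_nonneg N]

theorem e1_F_sq_le (i : ℕ) : ∫ p, ‖X.e1F i p‖ ^ 2 ∂X.Θ ≤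
    2 * (2 ^ (i + 1) * X.K * X.y1) + 4 * (2 ^ (i + 1) * M.δ X.K / X.m) := by
  have hK : (0 : ℝ) ≤ X.K := by linarith [X.hK]
  have hi0 : Integrable (fun x => (M.B X.K).indicator (fun x => (Δ M i x) ^ 2) x) M.ν :=
    (e1_memLp_Δ M i).integrable_sq.indicator (M.measurableSet_B X.K)
  have i2 : Integrable (fun p : ℕ × (ℕ → S) =>
      (M.B X.K).indicator (fun x => (Δ M i x) ^ 2) (p.2 0)) X.Θ :=
    memLp_one_iff_integrable.1 (M.toChain.memLp_x X.k 1 _ (memLp_one_iff_integrable.2 hi0))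
  have i1 : Integrable (fun p : ℕ × (ℕ → S) => ‖X.b (p.2 (p.1 + 1)) - X.b (p.2 0)‖ ^ 2) X.Θ := by
    have h0 : Measurable (fun p : ℕ × (ℕ → S) => p.2 0) := by fun_prop
    refine Integrable.of_bound (C := 4) ((((X.measurable_b.comp measurable_y).sub
      (X.measurable_b.comp h0)).norm.pow_const 2).aestronglyMeasurable)
      (Filter.Eventually.of_forall fun p => ?_)
    have h2 := X.e1_norm_sub_le p
    show ‖‖X.b (p.2 (p.1 + 1)) - X.b (p.2 0)‖ ^ 2‖ ≤ 4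
    rw [norm_pow, norm_norm]
    nlinarith [norm_nonneg (X.b (p.2 (p.1 + 1)) - X.b (p.2 0))]
  have j1 : Integrable (fun p : ℕ × (ℕ → S) =>
      2 ^ (i + 1) * X.K * ‖X.b (p.2 (p.1 + 1)) - X.b (p.2 0)‖ ^ 2) X.Θ := i1.const_mul _
  have j2 : Integrable (fun p : ℕ × (ℕ → S) =>
      4 * (M.B X.K).indicator (fun x => (Δ M i x) ^ 2) (p.2 0)) X.Θ := i2.const_mul _
  have h1 : ∫ p, ‖X.e1F i p‖ ^ 2 ∂X.Θ ≤
      ∫ p, (2 ^ (i + 1) * X.K * ‖X.b (p.2 (p.1 + 1)) - X.b (p.2 0)‖ ^ 2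
        + 4 * (M.B X.K).indicator (fun x => (Δ M i x) ^ 2) (p.2 0)) ∂X.Θ :=
    integral_mono_of_nonneg (Filter.Eventually.of_forall fun p => by positivity) (j1.add j2)
      (Filter.Eventually.of_forall fun p => X.e1_F_point i p)
  refine h1.trans ?_
  rw [integral_add j1 j2, integral_const_mul, integral_const_mul]
  have h2 : ∫ p, ‖X.b (p.2 (p.1 + 1)) - X.b (p.2 0)‖ ^ 2 ∂X.Θ ≤ 2 * X.y1 :=
    M.toChain.gap_A1 X.k X.b X.measurable_b X.norm_b_le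
  have h3 : ∫ p, (M.B X.K).indicator (fun x => (Δ M i x) ^ 2) (p.2 0) ∂X.Θ ≤
      2 ^ (i + 1) * M.δ X.K / X.m := by
    have h4 := M.toChain.integral_x X.k (fun x => (M.B X.K).indicator (fun x => (Δ M i x) ^ 2) x)
      hi0.aestronglyMeasurable
    have h5 : ∫ p, (M.B X.K).indicator (fun x => (Δ M i x) ^ 2) (p.2 0) ∂X.Θ =
        ∫ x, (1 - X.k.χ x) • (M.B X.K).indicator (fun x => (Δ M i x) ^ 2) x ∂M.ν := h4
    have h6 : ∀ x, (1 - X.k.χ x) • (M.B X.K).indicator (fun x => (Δ M i x) ^ 2) x =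
        (M.B X.K).indicator (fun x => X.m⁻¹ * (Δ M i x) ^ 2) x := by
      intro x
      by_cases hx : x ∈ M.B X.K
      · rw [Set.indicator_of_mem hx, Set.indicator_of_mem hx, X.one_sub_χ_mem hx, smul_eq_mul]
      · rw [Set.indicator_of_notMem hx, Set.indicator_of_notMem hx, smul_zero]
    rw [h5]
    simp_rw [h6]
    rw [integral_indicator (M.measurableSet_B X.K)]
    have hmp := X.m_pos
    have h7 := e1_setInt_le M X.K (φ := fun x => X.m⁻¹ * (Δ M i x) ^ 2) (2 ^ (i + 1) / X.m)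
      (fun x => by positivity) (fun x => by
        calc X.m⁻¹ * (Δ M i x) ^ 2 ≤ X.m⁻¹ * (2 ^ (i + 1) * M.A x) :=
              mul_le_mul_of_nonneg_left (e1_Δ_sq M i x) (by positivity)
          _ ≤ X.m⁻¹ * (2 ^ (i + 1) * (M.A x + M.C x)) := by
              have := M.C_nonneg x
              gcongr
              linarith
          _ = 2 ^ (i + 1) / X.m * (M.A x + M.C x) := by ring)
    refine h7.trans (le_of_eq (by ring))
  have h8 : 0 ≤ 2 ^ (i + 1) * X.K := by positivity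
  nlinarith [mul_le_mul_of_nonneg_left h2 h8]

theorem e1_y1_nonneg : 0 ≤ X.y1 := integral_nonneg fun x => norm_nonneg _

theorem e1_T2_eq (i : ℕ) : X.T2 i = ∫ p, X.e1F i p *
    ((Dh (M.G (rr (i + 1))) (M.G1 (rr (i + 1))) p - M.Sl p : ℝ) : ℂ) ∂X.Θ := by
  unfold T2 e1F
  refine integral_congr_ae (Filter.Eventually.of_forall fun p => ?_)
  simp only
  push_cast
  ring

theorem e1_memLp_g (i : ℕ) :
    MemLp (fun p => Dh (M.G (rr (i + 1))) (M.G1 (rr (i + 1))) p - M.Sl p) 2 X.Θ := by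
  have h1 : MemLp (Dh (M.G (rr (i + 1))) (M.G1 (rr (i + 1)))) 2 X.Θ :=
    (M.fwd_G _ (rr_nonneg _) (rr_lt_one _)).gap_memLp X.k
  have h2 : MemLp (fun p : ℕ × (ℕ → S) => M.f (p.2 0)) 2 X.Θ :=
    M.toChain.memLp_x X.k 2 _ M.memLp_f
  have h3 : MemLp M.Se 2 X.Θ := M.memLp_Se X.k
  have h4 : MemLp M.Sl 2 X.Θ := by
    have h5 : M.Sl = fun p => M.f (p.2 0) + M.Se p := by
      funext p; exact M.Sl_eq p
    rw [h5]
    exact h2.add h3
  exact h1.sub h4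

end Ctx

/-- bound for `T2` -/
theorem Ctx.T2_le (M : Model S) (lam s : ℝ) :
    ∃ D : ℝ, 0 < D ∧ ∀ (X : Ctx M lam s) (i : ℕ),
      ‖X.T2 i‖ ≤ D * (Real.sqrt (2 ^ (i + 1) * X.K * X.y1)
        + Real.sqrt (2 ^ (i + 1) * M.δ X.K / X.m)) := by
  obtain ⟨D0, hD0, hD⟩ := M.D_bound
  have hf0 : 0 ≤ ∫ x, (M.f x) ^ 2 ∂M.ν := integral_nonneg fun x => sq_nonneg _
  refine ⟨2 * Real.sqrt (3 * (D0 + ∫ x, (M.f x) ^ 2 ∂M.ν + 25)), by positivity, fun X i => ?_⟩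
  have hK : (0 : ℝ) ≤ X.K := by linarith [X.hK]
  have hy := X.e1_y1_nonneg
  have hmp := X.m_pos
  have hδ := X.δ_nonneg
  rw [X.e1_T2_eq]
  refine (e1_cs (X.e1_memLp_F i) (X.e1_memLp_g i)).trans ?_
  have h1 := X.e1_F_sq_le i
  have h2 : ∫ p, (Dh (M.G (rr (i + 1))) (M.G1 (rr (i + 1))) p - M.Sl p) ^ 2 ∂X.Θ ≤
      3 * (D0 + ∫ x, (M.f x) ^ 2 ∂M.ν + 25) := by
    have i1 : Integrable (fun p => (Dh (M.G (rr (i + 1))) (M.G1 (rr (i + 1))) p) ^ 2) X.Θ :=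
      ((M.fwd_G _ (rr_nonneg _) (rr_lt_one _)).gap_memLp X.k).integrable_sq
    have i2 : Integrable (fun p : ℕ × (ℕ → S) => (M.f (p.2 0)) ^ 2) X.Θ :=
      (M.toChain.memLp_x X.k 2 _ M.memLp_f).integrable_sq
    have i3 : Integrable (fun p => (M.Se p) ^ 2) X.Θ := (M.memLp_Se X.k).integrable_sq
    have i12 : Integrable (fun p => (Dh (M.G (rr (i + 1))) (M.G1 (rr (i + 1))) p) ^ 2
      + (M.f (p.2 0)) ^ 2) X.Θ := i1.add i2
    have i123 : Integrable (fun p => (Dh (M.G (rr (i + 1))) (M.G1 (rr (i + 1))) p) ^ 2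
      + (M.f (p.2 0)) ^ 2 + (M.Se p) ^ 2) X.Θ := i12.add i3
    have h3 : ∫ p, (Dh (M.G (rr (i + 1))) (M.G1 (rr (i + 1))) p - M.Sl p) ^ 2 ∂X.Θ ≤
        ∫ p, 3 * ((Dh (M.G (rr (i + 1))) (M.G1 (rr (i + 1))) p) ^ 2
          + (M.f (p.2 0)) ^ 2 + (M.Se p) ^ 2) ∂X.Θ := by
      refine integral_mono_of_nonneg (Filter.Eventually.of_forall fun p => sq_nonneg _)
        (i123.const_mul 3) (Filter.Eventually.of_forall fun p => ?_)
      simp only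
      rw [M.Sl_eq p]
      set a := Dh (M.G (rr (i + 1))) (M.G1 (rr (i + 1))) p
      set b := M.f (p.2 0)
      set c := M.Se p
      nlinarith [sq_nonneg (a + b), sq_nonneg (a + c), sq_nonneg (b - c)]
    refine h3.trans ?_
    rw [integral_const_mul, integral_add i12 i3, integral_add i1 i2]
    have h4 : ∫ p, (Dh (M.G (rr (i + 1))) (M.G1 (rr (i + 1))) p) ^ 2 ∂X.Θ ≤ D0 := by
      have h5 := (M.fwd_G _ (rr_nonneg (i + 1)) (rr_lt_one (i + 1))).gap_sq X.k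
      have h6 : ∫ p, (Dh (M.G (rr (i + 1))) (M.G1 (rr (i + 1))) p) ^ 2 ∂X.Θ =
        ∫ x, (M.G (rr (i + 1)) x) ^ 2 ∂M.ν - ∫ x, (M.G1 (rr (i + 1)) x) ^ 2 ∂M.ν := h5
      rw [h6]
      exact (hD _ (half_le_rr (i + 1) (by omega)) (rr_lt_one _)).1
    have h7 : ∫ p, (M.f (p.2 0)) ^ 2 ∂X.Θ ≤ ∫ x, (M.f x) ^ 2 ∂M.ν := by
      have h8 := M.toChain.integral_x X.k (fun x => (M.f x) ^ 2)
        M.memLp_f.integrable_sq.aestronglyMeasurable
      have h9 : ∫ p, (M.f (p.2 0)) ^ 2 ∂X.Θ = ∫ x, (1 - X.k.χ x) • (M.f x) ^ 2 ∂M.ν := h8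
      rw [h9]
      refine integral_mono_of_nonneg (Filter.Eventually.of_forall fun x => ?_)
        M.memLp_f.integrable_sq (Filter.Eventually.of_forall fun x => ?_)
      · exact mul_nonneg (X.one_sub_χ_nonneg x) (sq_nonneg _)
      · exact mul_le_of_le_one_left (sq_nonneg _) (X.one_sub_χ_le x)
    have h10 := X.Se_sq_le
    have h11 := X.hτ1
    linarith
  have h3 : Real.sqrt (∫ p, ‖X.e1F i p‖ ^ 2 ∂X.Θ) ≤
      2 * (Real.sqrt (2 ^ (i + 1) * X.K * X.y1) + Real.sqrt (2 ^ (i + 1) * M.δ X.K / X.m)) := by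
    have hu : 0 ≤ 2 ^ (i + 1) * X.K * X.y1 := by positivity
    have hv : 0 ≤ 2 ^ (i + 1) * M.δ X.K / X.m := by positivity
    rw [Real.sqrt_le_left (by positivity)]
    refine h1.trans ?_
    have e1 := Real.sq_sqrt hu
    have e2 := Real.sq_sqrt hv
    have e3 := Real.sqrt_nonneg (2 ^ (i + 1) * X.K * X.y1)
    have e4 := Real.sqrt_nonneg (2 ^ (i + 1) * M.δ X.K / X.m)
    nlinarith [mul_nonneg e3 e4]
  calc Real.sqrt (∫ p, ‖X.e1F i p‖ ^ 2 ∂X.Θ) *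
        Real.sqrt (∫ p, (Dh (M.G (rr (i + 1))) (M.G1 (rr (i + 1))) p - M.Sl p) ^ 2 ∂X.Θ)
      ≤ (2 * (Real.sqrt (2 ^ (i + 1) * X.K * X.y1)
        + Real.sqrt (2 ^ (i + 1) * M.δ X.K / X.m))) *
        Real.sqrt (3 * (D0 + ∫ x, (M.f x) ^ 2 ∂M.ν + 25)) :=
        mul_le_mul h3 (Real.sqrt_le_sqrt h2) (Real.sqrt_nonneg _) (by positivity)
    _ = _ := by ring

end Pool.Agent.H45.CLT
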