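import Pool.Agent.H45.CLT.Assembly
import Pool.Agent.H43.CLT.Taub

/-!
# From the resolvent limit to the characteristic functions (module TAUB)
-/

set_option autoImplicit false

open MeasureTheory ProbabilityTheory
open scoped ENNReal NNReal

namespace Pool.Agent.H45.CLT

variable {S : Type} [MeasurableSpace S]

open Pool.Agent.H43.CLT (geoT)

/-- the twisted operator `L = e^{iθf} Q` on bounded functions -/
noncomputable def Lop (M : Chain S) (θ : ℝ) (f : S → ℝ) (u : S → ℂ) (x : S) : ℂ :=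
  Complex.exp (((θ * f x : ℝ) : ℂ) * Complex.I) * ∫ z, u z ∂(M.Q x)

lemma norm_expI (t : ℝ) : ‖Complex.exp (((t : ℝ) : ℂ) * Complex.I)‖ = 1 :=
  Complex.norm_exp_ofReal_mul_I t

lemma Lop_measurable (M : Chain S) (θ : ℝ) (f : S → ℝ) (hf : Measurable f) {u : S → ℂ}
    (hu : Measurable u) : Measurable (Lop M θ f u) := by
  unfold Lop
  have h1 : Measurable (fun x => ∫ z, u z ∂(M.Q x)) :=
    (hu.stronglyMeasurable.integral_kernel).measurable
  exact (Complex.measurable_exp.comp ((Complex.measurable_ofReal.comp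
    (measurable_const.mul hf)).mul_const _)).mul h1

lemma Lop_norm_le (M : Chain S) (θ : ℝ) (f : S → ℝ) {u : S → ℂ} (hu1 : ∀ x, ‖u x‖ ≤ 1) (x : S) :
    ‖Lop M θ f u x‖ ≤ 1 := by
  unfold Lop
  rw [norm_mul, norm_expI, one_mul]
  have := norm_integral_le_of_norm_le_const (μ := M.Q x) (f := u) (C := 1)
    (Filter.Eventually.of_forall hu1)
  simpa using this

lemma Lop_iter_meas (M : Chain S) (θ : ℝ) (f : S → ℝ) (hf : Measurable f) {u : S → ℂ}
    (hu : Measurable u) (j : ℕ) : Measurable ((Lop M θ f)^[j] u) := by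
  induction j with
  | zero => exact hu
  | succ j ih => rw [Function.iterate_succ_apply']; exact Lop_measurable M θ f hf ih

lemma Lop_iter_norm (M : Chain S) (θ : ℝ) (f : S → ℝ) {u : S → ℂ} (hu1 : ∀ x, ‖u x‖ ≤ 1)
    (j : ℕ) (x : S) : ‖(Lop M θ f)^[j] u x‖ ≤ 1 := by
  induction j generalizing x with
  | zero => exact hu1 x
  | succ j ih => rw [Function.iterate_succ_apply']; exact Lop_norm_le M θ f ih x

/-- the character of the partial sums -/
noncomputable def chS (θ : ℝ) (f : S → ℝ) (j : ℕ) (ξ : ℕ → S) : ℂ :=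
  Complex.exp (((θ * ∑ i ∈ Finset.range j, f (ξ i) : ℝ) : ℂ) * Complex.I)

lemma measurable_chS (θ : ℝ) (f : S → ℝ) (hf : Measurable f) (j : ℕ) :
    Measurable (chS θ f j) := by
  unfold chS
  exact Complex.measurable_exp.comp ((Complex.measurable_ofReal.comp
    (measurable_const.mul (Finset.measurable_sum _ fun i _ =>
      hf.comp (measurable_pi_apply i)))).mul_const _)

omit [MeasurableSpace S] in
lemma chS_succ (θ : ℝ) (f : S → ℝ) (j : ℕ) (ξ : ℕ → S) :
    chS θ f (j + 1) ξ = chS θ f j ξ * Complex.exp (((θ * f (ξ j) : ℝ) : ℂ) * Complex.I) := by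
  unfold chS
  rw [← Complex.exp_add, Finset.sum_range_succ]
  congr 1
  push_cast
  ring

/-- `∫ L^j u dν = E[e^{iθS_j} u(ξ_j)]` -/
lemma integral_Lop_iter (M : Chain S) (θ : ℝ) (f : S → ℝ) (hf : Measurable f) (j : ℕ) :
    ∀ u : S → ℂ, Measurable u → (∀ x, ‖u x‖ ≤ 1) →
    ∫ x, ((Lop M θ f)^[j] u) x ∂M.ν = ∫ ξ, chS θ f j ξ * u (ξ j) ∂M.P := by
  induction j with
  | zero =>
    intro u hu _
    have h := (M.mp_eval 0)
    have h2 : ∫ ξ, u (ξ 0) ∂M.P = ∫ x, u x ∂M.ν := by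
      rw [← h.map_eq, integral_map h.measurable.aemeasurable hu.aestronglyMeasurable]
    rw [Function.iterate_zero, _root_.id, ← h2]
    refine integral_congr_ae (Filter.Eventually.of_forall fun ξ => ?_)
    simp [chS]
  | succ j ih =>
    intro u hu hu1
    rw [Function.iterate_succ_apply, ih _ (Lop_measurable M θ f hf hu) (Lop_norm_le M θ f hu1)]
    have hΦm : Measurable (chS θ f (j + 1)) := measurable_chS θ f hf (j + 1)
    have h1 := M.markov_bdd j (chS θ f (j + 1)) hΦm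
      (fun ξ => by
        unfold chS
        congr 4
        refine Finset.sum_congr rfl fun i hi => ?_
        have : i < j + 1 := Finset.mem_range.1 hi
        simp only [fr]
        rw [min_eq_right (by omega)])
      (Integrable.of_bound hΦm.aestronglyMeasurable 1
        (Filter.Eventually.of_forall fun ξ => by unfold chS; rw [norm_expI]))
      u hu ⟨1, hu1⟩
    rw [h1]
    refine integral_congr_ae (Filter.Eventually.of_forall fun ξ => ?_)
    simp only [Lop]
    rw [chS_succ]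
    ring

/-- `R`-fold resolvent: there are functions `U_0 = 1, U_1, ..., U_R`, bounded by one,
`U_{t+1}` the resolvent of `U_t`, and `∫ U_R = (𝒜^R φ)(0)` with `φ(j) = E e^{iθS_j}`. -/
theorem resolvent_iter (M : Chain S) (θ : ℝ) (f : S → ℝ) (hf : Measurable f) (ρ : ℝ)
    (hρ0 : 0 ≤ ρ) (hρ1 : ρ < 1) :
    ∃ U : ℕ → S → ℂ, U 0 = (fun _ => 1) ∧ (∀ t, Measurable (U t)) ∧ (∀ t x, ‖U t x‖ ≤ 1) ∧
      (∀ t x, U (t + 1) x = ((1 - ρ : ℝ) : ℂ) * U t x
        + (ρ : ℂ) * (Complex.exp (((θ * f x : ℝ) : ℂ) * Complex.I)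
            * ∫ z, U (t + 1) z ∂(M.Q x))) ∧
      ∀ t, ∫ x, U t x ∂M.ν = ((geoT ρ)^[t] (fun j =>
        ∫ ξ, Complex.exp (((θ * ∑ i ∈ Finset.range j, f (ξ i) : ℝ) : ℂ) * Complex.I) ∂M.P)) 0 := by
  -- the resolvent
  set res : (S → ℂ) → S → ℂ := fun u x =>
    ∑' j : ℕ, (((1 - ρ : ℝ) : ℂ) * (ρ : ℂ) ^ j) * ((Lop M θ f)^[j] u) x with hres
  have hw : HasSum (fun j : ℕ => (1 - ρ) * ρ ^ j) 1 := by
    have := (hasSum_geometric_of_lt_one hρ0 hρ1).mul_left (1 - ρ)
    rwa [mul_inv_cancel₀ (by linarith)] at this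
  have hbound : ∀ (u : S → ℂ), (∀ x, ‖u x‖ ≤ 1) → ∀ (j : ℕ) (x : S),
      ‖(((1 - ρ : ℝ) : ℂ) * (ρ : ℂ) ^ j) * ((Lop M θ f)^[j] u) x‖ ≤ (1 - ρ) * ρ ^ j := by
    intro u hu1 j x
    rw [norm_mul, norm_mul, norm_pow, Complex.norm_real, Complex.norm_real,
      Real.norm_of_nonneg (by linarith), Real.norm_of_nonneg hρ0]
    have h0 : 0 ≤ (1 - ρ) * ρ ^ j := mul_nonneg (by linarith) (pow_nonneg hρ0 j)
    calc (1 - ρ) * ρ ^ j * ‖((Lop M θ f)^[j] u) x‖ ≤ (1 - ρ) * ρ ^ j * 1 :=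
          mul_le_mul_of_nonneg_left (Lop_iter_norm M θ f hu1 j x) h0
      _ = (1 - ρ) * ρ ^ j := mul_one _
  have hsum : ∀ (u : S → ℂ), (∀ x, ‖u x‖ ≤ 1) → ∀ x : S,
      Summable (fun j : ℕ => (((1 - ρ : ℝ) : ℂ) * (ρ : ℂ) ^ j) * ((Lop M θ f)^[j] u) x) :=
    fun u hu1 x => Summable.of_norm_bounded hw.summable (fun j => hbound u hu1 j x)
  have hresm : ∀ u : S → ℂ, Measurable u → (∀ x, ‖u x‖ ≤ 1) → Measurable (res u) := by
    intro u hu hu1
    refine measurable_of_tendsto_metrizable (f := fun (N : ℕ) x => ∑ j ∈ Finset.range N,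
      (((1 - ρ : ℝ) : ℂ) * (ρ : ℂ) ^ j) * ((Lop M θ f)^[j] u) x) (fun N => ?_)
      (tendsto_pi_nhds.2 fun x => (hsum u hu1 x).hasSum.tendsto_sum_nat)
    exact Finset.measurable_sum _ fun j _ => (Lop_iter_meas M θ f hf hu j).const_mul _
  have hres1 : ∀ u : S → ℂ, (∀ x, ‖u x‖ ≤ 1) → ∀ x, ‖res u x‖ ≤ 1 := by
    intro u hu1 x
    exact tsum_of_norm_bounded hw (fun j => hbound u hu1 j x)
  -- exchange of integral and sum, against any finite measure of mass one
  have hexch : ∀ (u : S → ℂ), Measurable u → (∀ x, ‖u x‖ ≤ 1) →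
      ∀ {α : Type} [MeasurableSpace α] (μ : Measure α) [IsProbabilityMeasure μ] (T : α → S)
        (_ : Measurable T) (Φ : α → ℂ) (_ : Measurable Φ) (_ : ∀ a, ‖Φ a‖ ≤ 1),
      ∫ a, Φ a * res u (T a) ∂μ = ∑' j : ℕ, (((1 - ρ : ℝ) : ℂ) * (ρ : ℂ) ^ j)
        * ∫ a, Φ a * ((Lop M θ f)^[j] u) (T a) ∂μ := by
    intro u hu hu1 α _ μ _ T hT Φ hΦ hΦ1
    have hm : ∀ j, Measurable (fun a => (((1 - ρ : ℝ) : ℂ) * (ρ : ℂ) ^ j)
        * (Φ a * ((Lop M θ f)^[j] u) (T a))) := fun j =>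
      (hΦ.mul ((Lop_iter_meas M θ f hf hu j).comp hT)).const_mul _
    have hb : ∀ j a, ‖(((1 - ρ : ℝ) : ℂ) * (ρ : ℂ) ^ j)
        * (Φ a * ((Lop M θ f)^[j] u) (T a))‖ ≤ (1 - ρ) * ρ ^ j := by
      intro j a
      have h1 := hbound u hu1 j (T a)
      refine le_trans ?_ h1
      rw [norm_mul (((1 - ρ : ℝ) : ℂ) * (ρ : ℂ) ^ j) (Φ a * ((Lop M θ f)^[j] u) (T a)),
        norm_mul (((1 - ρ : ℝ) : ℂ) * (ρ : ℂ) ^ j) (((Lop M θ f)^[j] u) (T a)),
        norm_mul (Φ a) _]
      exact mul_le_mul_of_nonneg_left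
        (mul_le_of_le_one_left (norm_nonneg (((Lop M θ f)^[j] u) (T a))) (hΦ1 a))
        (norm_nonneg (((1 - ρ : ℝ) : ℂ) * (ρ : ℂ) ^ j))
    have hi : ∀ j, Integrable (fun a => (((1 - ρ : ℝ) : ℂ) * (ρ : ℂ) ^ j)
        * (Φ a * ((Lop M θ f)^[j] u) (T a))) μ := fun j =>
      Integrable.of_bound (hm j).aestronglyMeasurable _ (Filter.Eventually.of_forall (hb j))
    have hs : Summable fun j => ∫ a, ‖(((1 - ρ : ℝ) : ℂ) * (ρ : ℂ) ^ j)
        * (Φ a * ((Lop M θ f)^[j] u) (T a))‖ ∂μ := by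
      refine Summable.of_nonneg_of_le (fun j => integral_nonneg fun _ => norm_nonneg _)
        (fun j => ?_) hw.summable
      calc ∫ a, ‖(((1 - ρ : ℝ) : ℂ) * (ρ : ℂ) ^ j) * (Φ a * ((Lop M θ f)^[j] u) (T a))‖ ∂μ
          ≤ ∫ _a, (1 - ρ) * ρ ^ j ∂μ :=
            integral_mono_of_nonneg (Filter.Eventually.of_forall fun _ => norm_nonneg _)
              (integrable_const _) (Filter.Eventually.of_forall (hb j))
        _ = (1 - ρ) * ρ ^ j := by simp
    have h3 := integral_tsum_of_summable_integral_norm hi hs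
    calc ∫ a, Φ a * res u (T a) ∂μ
        = ∫ a, ∑' j : ℕ, (((1 - ρ : ℝ) : ℂ) * (ρ : ℂ) ^ j)
          * (Φ a * ((Lop M θ f)^[j] u) (T a)) ∂μ := by
          refine integral_congr_ae (Filter.Eventually.of_forall fun a => ?_)
          simp only [hres]
          rw [← tsum_mul_left]
          congr 1
          funext j
          ring
      _ = ∑' j : ℕ, ∫ a, (((1 - ρ : ℝ) : ℂ) * (ρ : ℂ) ^ j)
          * (Φ a * ((Lop M θ f)^[j] u) (T a)) ∂μ := h3.symm
      _ = _ := by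
          congr 1
          funext j
          rw [integral_const_mul]
  -- resolvent equation
  have hreq : ∀ u : S → ℂ, Measurable u → (∀ x, ‖u x‖ ≤ 1) → ∀ x, res u x =
      ((1 - ρ : ℝ) : ℂ) * u x + (ρ : ℂ) * (Complex.exp (((θ * f x : ℝ) : ℂ) * Complex.I)
            * ∫ z, res u z ∂(M.Q x)) := by
    intro u hu hu1 x
    have h1 := hexch u hu hu1 (M.Q x) _root_.id measurable_id (fun _ => 1) measurable_const
      (fun _ => by simp)
    simp only [one_mul, _root_.id] at h1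
    rw [h1]
    have h2 : res u x = (((1 - ρ : ℝ) : ℂ) * (ρ : ℂ) ^ 0) * ((Lop M θ f)^[0] u) x
        + ∑' j : ℕ, (((1 - ρ : ℝ) : ℂ) * (ρ : ℂ) ^ (j + 1)) * ((Lop M θ f)^[j + 1] u) x :=
      (hsum u hu1 x).tsum_eq_zero_add
    rw [h2, ← tsum_mul_left, ← tsum_mul_left]
    congr 1
    · simp
    · congr 1
      funext j
      rw [Function.iterate_succ_apply']
      simp only [Lop]
      ring
  -- the iterates
  set U : ℕ → S → ℂ := fun t => res^[t] (fun _ => 1) with hU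
  have hU0 : U 0 = fun _ => 1 := rfl
  have hUs : ∀ t, U (t + 1) = res (U t) := fun t => by
    simp only [hU]; rw [Function.iterate_succ_apply']
  have hUmb : ∀ t, Measurable (U t) ∧ ∀ x, ‖U t x‖ ≤ 1 := by
    intro t
    induction t with
    | zero => exact ⟨measurable_const, fun x => by simp [hU0]⟩
    | succ t ih =>
      rw [hUs]
      exact ⟨hresm _ ih.1 ih.2, hres1 _ ih.2⟩
  refine ⟨U, hU0, fun t => (hUmb t).1, fun t => (hUmb t).2, ?_, ?_⟩
  · intro t x
    rw [hUs]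
    exact hreq _ (hUmb t).1 (hUmb t).2 x
  · -- integrals
    set φ : ℕ → ℂ := fun j =>
      ∫ ξ, Complex.exp (((θ * ∑ i ∈ Finset.range j, f (ξ i) : ℝ) : ℂ) * Complex.I) ∂M.P with hφ
    have hclaim : ∀ t i, ∫ x, ((Lop M θ f)^[i] (U t)) x ∂M.ν = ((geoT ρ)^[t] φ) i := by
      intro t
      induction t with
      | zero =>
        intro i
        rw [integral_Lop_iter M θ f hf i _ (hUmb 0).1 (hUmb 0).2, Function.iterate_zero]
        simp only [_root_.id, hφ, hU0, mul_one]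
        rfl
      | succ t ih =>
        intro i
        rw [integral_Lop_iter M θ f hf i _ (hUmb (t + 1)).1 (hUmb (t + 1)).2, hUs,
          hexch (U t) (hUmb t).1 (hUmb t).2 M.P (fun ξ => ξ i) (measurable_pi_apply i)
            (chS θ f i) (measurable_chS θ f hf i) (fun ξ => by unfold chS; rw [norm_expI]),
          Function.iterate_succ_apply']
        unfold geoT
        rw [← tsum_mul_left]
        congr 1
        funext j
        rw [← integral_Lop_iter M θ f hf i _ (Lop_iter_meas M θ f hf (hUmb t).1 j)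
          (Lop_iter_norm M θ f (hUmb t).2 j), ← Function.iterate_add_apply]
        have := ih (i + j)
        unfold geoT at this
        rw [this]
        push_cast
        ring
    intro t
    exact hclaim t 0

/-- **Convergence of the characteristic functions.** -/
theorem charFun_limit (M : Model S) (hM : M.toChain.Erg) (lam : ℝ) :
    Filter.Tendsto (fun n : ℕ => ∫ ξ, Complex.exp
        (((lam / Real.sqrt n * ∑ i ∈ Finset.range n, M.f (ξ i) : ℝ) : ℂ) * Complex.I) ∂M.P)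
      Filter.atTop (nhds (Complex.exp ((-(lam ^ 2 * M.σ2 / 2) : ℝ) : ℂ))) := by
  set κ : ℝ := lam ^ 2 * M.σ2 / 2 with hκ
  have hκ0 : 0 ≤ κ := by
    have := M.σ2_nonneg
    positivity
  set φ : ℕ → ℕ → ℂ := fun n j => ∫ ξ, Complex.exp
        (((lam / Real.sqrt n * ∑ i ∈ Finset.range j, M.f (ξ i) : ℝ) : ℂ) * Complex.I) ∂M.P with hφ
  obtain ⟨D, hD0, hD⟩ := M.var_le
  -- Hölder regularity
  have hmS : ∀ j : ℕ, Measurable (fun ξ : ℕ → S => ∑ i ∈ Finset.range j, M.f (ξ i)) := fun j =>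
    Finset.measurable_sum _ fun i _ => M.measurable_f.comp (measurable_pi_apply i)
  have hLS : ∀ j : ℕ, MemLp (fun ξ : ℕ → S => ∑ i ∈ Finset.range j, M.f (ξ i)) 2 M.P := fun j =>
    memLp_finsetSum _ fun i _ => M.toChain.memLp_eval M.memLp_f i
  have hdiff : ∀ j l : ℕ, ∫ ξ, (∑ i ∈ Finset.range (j + l), M.f (ξ i)
      - ∑ i ∈ Finset.range j, M.f (ξ i)) ^ 2 ∂M.P ≤ D * l := by
    intro j l
    have h1 := M.toChain.integral_shPB j (F := fun ξ : ℕ → S =>
      (∑ i ∈ Finset.range l, M.f (ξ i)) ^ 2) ((hmS l).pow_const 2).aestronglyMeasurable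
    have h2 : ∀ ξ : ℕ → S, (∑ i ∈ Finset.range (j + l), M.f (ξ i)
        - ∑ i ∈ Finset.range j, M.f (ξ i)) ^ 2 = (∑ i ∈ Finset.range l, M.f (sh j ξ i)) ^ 2 := by
      intro ξ
      rw [Finset.sum_range_add]
      simp [sh]
    simp only [h2]
    rw [h1]
    exact hD l
  have hhol : ∀ (θ : ℝ) (j l : ℕ),
      ‖∫ ξ, Complex.exp (((θ * ∑ i ∈ Finset.range (j + l), M.f (ξ i) : ℝ) : ℂ) * Complex.I) ∂M.P
        - ∫ ξ, Complex.exp (((θ * ∑ i ∈ Finset.range j, M.f (ξ i) : ℝ) : ℂ) * Complex.I) ∂M.P‖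
      ≤ |θ| * Real.sqrt (D * l) := by
    intro θ j l
    have hi : ∀ j : ℕ, Integrable (fun ξ : ℕ → S =>
        Complex.exp (((θ * ∑ i ∈ Finset.range j, M.f (ξ i) : ℝ) : ℂ) * Complex.I)) M.P := by
      intro j
      refine Integrable.of_bound (measurable_chS θ M.f M.measurable_f j).aestronglyMeasurable 1
        (Filter.Eventually.of_forall fun ξ => ?_)
      rw [norm_expI]
    rw [← integral_sub (hi _) (hi _)]
    have hdL : MemLp (fun ξ : ℕ → S => ∑ i ∈ Finset.range (j + l), M.f (ξ i)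
        - ∑ i ∈ Finset.range j, M.f (ξ i)) 2 M.P := (hLS (j + l)).sub (hLS j)
    refine (norm_integral_le_integral_norm _).trans ?_
    have h1 : ∫ ξ, ‖Complex.exp (((θ * ∑ i ∈ Finset.range (j + l), M.f (ξ i) : ℝ) : ℂ) * Complex.I)
        - Complex.exp (((θ * ∑ i ∈ Finset.range j, M.f (ξ i) : ℝ) : ℂ) * Complex.I)‖ ∂M.P
        ≤ ∫ ξ, |θ| * |∑ i ∈ Finset.range (j + l), M.f (ξ i)
        - ∑ i ∈ Finset.range j, M.f (ξ i)| ∂M.P := by
      refine integral_mono_of_nonneg (Filter.Eventually.of_forall fun _ => norm_nonneg _)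
        ((hdL.integrable (by norm_num)).abs.const_mul _) (Filter.Eventually.of_forall fun ξ => ?_)
      simp only
      set a := ∑ i ∈ Finset.range (j + l), M.f (ξ i)
      set b := ∑ i ∈ Finset.range j, M.f (ξ i)
      have e1 : Complex.exp (((θ * a : ℝ) : ℂ) * Complex.I) - Complex.exp (((θ * b : ℝ) : ℂ) * Complex.I)
          = Complex.exp (((θ * b : ℝ) : ℂ) * Complex.I)
            * (Complex.exp (Complex.I * ((θ * (a - b) : ℝ) : ℂ)) - 1) := by
        rw [mul_sub, mul_one, ← Complex.exp_add]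
        congr 2
        push_cast
        ring
      rw [e1, norm_mul, norm_expI, one_mul]
      refine (Real.norm_exp_I_mul_ofReal_sub_one_le (x := θ * (a - b))).trans ?_
      rw [Real.norm_eq_abs, abs_mul]
    refine h1.trans ?_
    rw [integral_const_mul]
    refine mul_le_mul_of_nonneg_left ?_ (abs_nonneg _)
    apply Real.le_sqrt_of_sq_le
    have h2 : (∫ ξ, |∑ i ∈ Finset.range (j + l), M.f (ξ i)
        - ∑ i ∈ Finset.range j, M.f (ξ i)| ∂M.P) ^ 2
        ≤ ∫ ξ, |∑ i ∈ Finset.range (j + l), M.f (ξ i)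
        - ∑ i ∈ Finset.range j, M.f (ξ i)| ^ 2 ∂M.P :=
      Pool.Agent.H43.CLT.sq_integral_le (hdL.integrable (by norm_num)).abs
        (by simpa [sq_abs] using hdL.integrable_sq)
    simp only [sq_abs] at h2
    exact h2.trans (hdiff j l)
  have hC : ∀ n : ℕ, 1 ≤ n → ∀ j k : ℕ,
      ‖φ n j - φ n k‖ ≤ (|lam| * Real.sqrt D) * Real.sqrt (|(j : ℝ) - k| / n) := by
    intro n hn j k
    have hn0 : (0 : ℝ) < n := by exact_mod_cast hn
    have hkey : ∀ j l : ℕ, ‖φ n (j + l) - φ n j‖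
        ≤ (|lam| * Real.sqrt D) * Real.sqrt ((l : ℝ) / n) := by
      intro j l
      refine (hhol (lam / Real.sqrt n) j l).trans (le_of_eq ?_)
      rw [abs_div, abs_of_nonneg (Real.sqrt_nonneg (n : ℝ)), Real.sqrt_mul hD0.le,
        Real.sqrt_div (by positivity : (0 : ℝ) ≤ l)]
      ring
    rcases le_total k j with h | h
    · obtain ⟨l, rfl⟩ := Nat.exists_eq_add_of_le h
      have h1 := hkey k l
      have h2 : |((k + l : ℕ) : ℝ) - k| = l := by
        push_cast
        rw [add_sub_cancel_left, abs_of_nonneg (by positivity)]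
      rw [h2]
      exact h1
    · obtain ⟨l, rfl⟩ := Nat.exists_eq_add_of_le h
      have h1 := hkey j l
      have h2 : |(j : ℝ) - ((j + l : ℕ) : ℝ)| = l := by
        push_cast
        rw [sub_add_cancel_left, abs_neg, abs_of_nonneg (by positivity)]
      rw [h2, norm_sub_rev]
      exact h1
  -- convergence of the iterated resolvents
  have hR : ∀ R : ℕ, 1 ≤ R → Filter.Tendsto (fun n : ℕ => (geoT (1 - (R : ℝ) / n))^[R] (φ n) 0)
      Filter.atTop (nhds ((((R : ℝ) / (R + κ)) ^ R : ℝ) : ℂ)) := by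
    intro R hR1
    have hR0 : (0 : ℝ) < R := by exact_mod_cast hR1
    have hRκ : (0 : ℝ) < R + κ := by linarith
    -- by induction on the number of iterations
    have hind : ∀ t : ℕ, Filter.Tendsto (fun n : ℕ => (geoT (1 - (R : ℝ) / n))^[t] (φ n) 0)
        Filter.atTop (nhds ((((R : ℝ) / (R + κ)) ^ t : ℝ) : ℂ)) := by
      intro t
      induction t with
      | zero =>
        have : ∀ n : ℕ, (geoT (1 - (R : ℝ) / n))^[0] (φ n) 0 = 1 := by
          intro n
          simp [hφ]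
        simp only [this, pow_zero, Complex.ofReal_one]
        exact tendsto_const_nhds
      | succ t ih =>
        rw [Metric.tendsto_atTop] at ih ⊢
        intro ε hε
        obtain ⟨n1, hn1⟩ := ih (ε / 2) (by positivity)
        obtain ⟨n0, hn0⟩ := resolvent_limit M hM lam R hR0 (ε / 4 * (R + κ)) (by positivity)
        refine ⟨max (max n0 n1) (R + 1), fun n hn => ?_⟩
        have hnn0 : n0 ≤ n := le_trans (le_max_left _ _) (le_trans (le_max_left _ _) hn)
        have hnn1 : n1 ≤ n := le_trans (le_max_right _ _) (le_trans (le_max_left _ _) hn)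
        have hnR : R + 1 ≤ n := le_trans (le_max_right _ _) hn
        have hnpos : (0 : ℝ) < n := by exact_mod_cast (by omega : 0 < n)
        have hρ0 : 0 ≤ 1 - (R : ℝ) / n := by
          rw [sub_nonneg, div_le_one hnpos]
          exact_mod_cast (by omega : R ≤ n)
        have hρ1 : 1 - (R : ℝ) / n < 1 := by
          have : 0 < (R : ℝ) / n := by positivity
          linarith
        obtain ⟨U, hU0, hUm, hU1, hUeq, hUint⟩ := resolvent_iter M.toChain (lam / Real.sqrt n) M.f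
          M.measurable_f (1 - (R : ℝ) / n) hρ0 hρ1
        have h1 := hn0 n hnn0 (U t) (U (t + 1)) (hUm t) (hUm (t + 1)) (hU1 t) (hU1 (t + 1))
          (fun x => hUeq t x)
        have e1 : ∫ x, U t x ∂M.ν = (geoT (1 - (R : ℝ) / n))^[t] (φ n) 0 := hUint t
        have e2 : ∫ x, U (t + 1) x ∂M.ν = (geoT (1 - (R : ℝ) / n))^[t + 1] (φ n) 0 := hUint (t + 1)
        rw [e1, e2] at h1
        have h2 := hn1 n hnn1
        set A := (geoT (1 - (R : ℝ) / n))^[t] (φ n) 0
        set B := (geoT (1 - (R : ℝ) / n))^[t + 1] (φ n) 0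
        rw [dist_eq_norm] at h2 ⊢
        set a : ℂ := ((((R : ℝ) / (R + κ)) ^ t : ℝ) : ℂ)
        have hRκc : ((R + κ : ℝ) : ℂ) ≠ 0 := by
          exact_mod_cast hRκ.ne'
        have e3 : B - ((((R : ℝ) / (R + κ)) ^ (t + 1) : ℝ) : ℂ)
            = ((R + κ : ℝ) : ℂ)⁻¹ * (((R + κ : ℝ) : ℂ) * B - ((R : ℝ) : ℂ) * A)
              + ((R : ℝ) : ℂ) * ((R + κ : ℝ) : ℂ)⁻¹ * (A - a) := by
          have : ((((R : ℝ) / (R + κ)) ^ (t + 1) : ℝ) : ℂ) = ((R : ℝ) : ℂ) * ((R + κ : ℝ) : ℂ)⁻¹ * a := by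
            simp only [a]
            rw [pow_succ]
            push_cast
            ring
          rw [this, mul_sub, ← mul_assoc, inv_mul_cancel₀ hRκc]
          ring
        rw [e3]
        have hinv : ‖((R + κ : ℝ) : ℂ)⁻¹‖ = (R + κ)⁻¹ := by
          rw [norm_inv, Complex.norm_real, Real.norm_of_nonneg hRκ.le]
        have b1 : ‖((R + κ : ℝ) : ℂ)⁻¹ * (((R + κ : ℝ) : ℂ) * B - ((R : ℝ) : ℂ) * A)‖ ≤ ε / 4 := by
          rw [norm_mul, hinv]
          calc (R + κ)⁻¹ * ‖((R + κ : ℝ) : ℂ) * B - ((R : ℝ) : ℂ) * A‖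
              ≤ (R + κ)⁻¹ * (ε / 4 * (R + κ)) := by
                refine mul_le_mul_of_nonneg_left ?_ (by positivity)
                exact h1
            _ = ε / 4 := by field_simp
        have b2 : ‖((R : ℝ) : ℂ) * ((R + κ : ℝ) : ℂ)⁻¹ * (A - a)‖ ≤ ε / 2 := by
          rw [norm_mul, norm_mul, hinv, Complex.norm_real, Real.norm_of_nonneg hR0.le]
          have h3 : (R : ℝ) * (R + κ)⁻¹ ≤ 1 := by
            rw [← div_eq_mul_inv, div_le_one hRκ]
            linarith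
          calc (R : ℝ) * (R + κ)⁻¹ * ‖A - a‖ ≤ 1 * (ε / 2) :=
                mul_le_mul h3 h2.le (norm_nonneg _) zero_le_one
            _ = ε / 2 := one_mul _
        calc ‖((R + κ : ℝ) : ℂ)⁻¹ * (((R + κ : ℝ) : ℂ) * B - ((R : ℝ) : ℂ) * A)
              + ((R : ℝ) : ℂ) * ((R + κ : ℝ) : ℂ)⁻¹ * (A - a)‖
            ≤ ε / 4 + ε / 2 := (norm_add_le _ _).trans (add_le_add b1 b2)
          _ < ε := by linarith
    exact hind R
  have hmain := Pool.Agent.H43.CLT.taub φ (|lam| * Real.sqrt D) κ hκ0 hC hR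
  rw [← Complex.ofReal_exp]
  exact hmain

end Pool.Agent.H45.CLT
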